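import Pool.Agent.Gauss35.Structure

/-!
# Arithmetic of the numbers `h_i`: unimodality and subadditivity of the level sizes
-/

set_option autoImplicit false
open scoped Classical
open Finset

namespace Pool.Gauss

variable {α : Type} [Fintype α] [PartialOrder α]

open Polynomial in
lemma rootMult_one_sub {d a : ℕ} {ζ : ℂ} (hζ : IsPrimitiveRoot ζ d) (ha : 0 < a) :
    rootMultiplicity ζ (1 - X ^ a : ℂ[X]) = if d ∣ a then 1 else 0 := by
  have h0 : (1 - X ^ a : ℂ[X]) = -(X ^ a - 1) := by ring
  have h1 : (X ^ a - 1 : ℂ[X]) ≠ 0 := (monic_X_pow_sub_C (1 : ℂ) ha.ne').ne_zero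
  have hne : (1 - X ^ a : ℂ[X]) ≠ 0 := by
    rw [h0]
    exact neg_ne_zero.2 h1
  have hsep : (X ^ a - 1 : ℂ[X]).Separable := by
    have := (X_pow_sub_one_separable_iff (F := ℂ) (n := a)).2 (by exact_mod_cast ha.ne')
    exact this
  have h2 : rootMultiplicity ζ (1 - X ^ a : ℂ[X]) = rootMultiplicity ζ (X ^ a - 1 : ℂ[X]) := by
    rw [h0, ← count_roots, ← count_roots, roots_neg]
  rw [h2]
  split_ifs with h
  · have h3 : IsRoot (X ^ a - 1 : ℂ[X]) ζ := by
      rw [IsRoot, eval_sub, eval_pow, eval_X, eval_one, (hζ.pow_eq_one_iff_dvd a).2 h, sub_self]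
    have h4 : 0 < rootMultiplicity ζ (X ^ a - 1 : ℂ[X]) := (rootMultiplicity_pos h1).2 h3
    have h5 : rootMultiplicity ζ (X ^ a - 1 : ℂ[X]) ≤ 1 := by
      rw [← count_roots]
      exact Multiset.nodup_iff_count_le_one.1 (nodup_roots hsep) ζ
    omega
  · apply rootMultiplicity_eq_zero
    rw [IsRoot, eval_sub, eval_pow, eval_X, eval_one, sub_eq_zero]
    intro h3
    exact h ((hζ.pow_eq_one_iff_dvd a).1 h3)

open Polynomial in
/-- for every `d` and `m`, at most as many `h_i` are divisible by `d` as `m + h_i` are -/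
theorem card_dvd_le {h : Fin (Fintype.card α) → ℕ} (hG : IsGaussianWith α h) {d : ℕ}
    (hd : 0 < d) (m : ℕ) :
    (univ.filter fun i => d ∣ h i).card ≤ (univ.filter fun i => d ∣ m + h i).card := by
  have hζ := Complex.isPrimitiveRoot_exp d hd.ne'
  set ζ := Complex.exp (2 * Real.pi * Complex.I / d)
  have h1 := hG.2 m
  have h2 : (∏ i, (1 - X ^ (h i) : ℤ[X])) ∣ ∏ i, (1 - X ^ (m + h i)) := by
    rw [← h1]
    exact Dvd.intro_left _ rfl
  have h3 : (∏ i, (1 - X ^ (h i) : ℂ[X])) ∣ ∏ i, (1 - X ^ (m + h i)) := by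
    have := Polynomial.map_dvd (Int.castRingHom ℂ) h2
    rw [Polynomial.map_prod, Polynomial.map_prod] at this
    simpa using this
  have hne : ∀ a : ℕ, 0 < a → (1 - X ^ a : ℂ[X]) ≠ 0 := by
    intro a ha
    have h1 : (X ^ a - 1 : ℂ[X]) ≠ 0 := (monic_X_pow_sub_C (1 : ℂ) ha.ne').ne_zero
    have h0 : (1 - X ^ a : ℂ[X]) = -(X ^ a - 1) := by ring
    rw [h0]
    exact neg_ne_zero.2 h1
  have key : ∀ k : ℕ, rootMultiplicity ζ (∏ i, (1 - X ^ (k + h i) : ℂ[X])) =
      (univ.filter fun i => d ∣ k + h i).card := by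
    intro k
    have h4 : (∏ i, (1 - X ^ (k + h i) : ℂ[X])) ≠ 0 := by
      rw [Finset.prod_ne_zero_iff]
      intro i _
      exact hne _ (by have := hG.1 i; omega)
    rw [← count_roots, roots_prod _ _ h4, Multiset.count_bind, card_filter]
    rw [Multiset.map_congr rfl (g := fun i => if d ∣ k + h i then 1 else 0)]
    · rfl
    · intro i _
      rw [count_roots]
      exact rootMult_one_sub hζ (by have := hG.1 i; omega)
  have k0 := key 0
  simp only [zero_add] at k0
  rw [← k0, ← key m]
  apply rootMultiplicity_le_rootMultiplicity_of_dvd _ h3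
  rw [Finset.prod_ne_zero_iff]
  intro i _
  exact hne _ (by have := hG.1 i; omega)

variable (α) in
/-- the number of elements of corank `e - 1` (so the levels are numbered from one) -/
noncomputable def nn (e : ℕ) : ℕ := (univ.filter fun x : α => corank x + 1 = e).card

lemma nn_succ (v : ℕ) : nn α (v + 1) = (lev α v).card := by
  unfold nn
  congr 1
  ext x
  rw [mem_filter, mem_lev]
  simp

lemma nn_zero : nn α 0 = 0 := by
  unfold nn
  rw [card_eq_zero, filter_eq_empty_iff]
  intro x _
  omega

/-- the number of levels plus one -/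
noncomputable def hh (x : α) : ℕ := rank x + corank x + 2

lemma corank_lt_hh {h : Fin (Fintype.card α) → ℕ} (hG : IsGaussianWith α h) (hc : Conn α)
    (x0 x : α) : corank x + 1 < hh x0 := by
  have := rank_add_corank hG hc x0 x
  unfold hh
  omega

lemma nn_eq_zero {h : Fin (Fintype.card α) → ℕ} (hG : IsGaussianWith α h) (hc : Conn α)
    (x0 : α) {e : ℕ} (he : hh x0 ≤ e) : nn α e = 0 := by
  unfold nn
  rw [card_eq_zero, filter_eq_empty_iff]
  intro x _
  have := corank_lt_hh hG hc x0 x
  omega

/-- the level sizes are palindromic -/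
theorem nn_palin {h : Fin (Fintype.card α) → ℕ} (hG : IsGaussianWith α h) (hc : Conn α)
    (x0 : α) {e : ℕ} (he : e ≤ hh x0) : nn α (hh x0 - e) = nn α e := by
  have h1 := card_h_eq (dual_isGaussian hG) e
  have h2 := card_h_eq hG e
  have h3 : (univ.filter fun x : αᵒᵈ => corank x + 1 = e).card =
      (univ.filter fun x : α => rank x + 1 = e).card := by
    refine Finset.card_bij' (fun x _ => OrderDual.ofDual x) (fun x _ => OrderDual.toDual x)
      ?_ ?_ ?_ ?_
    · intro x hx
      rw [mem_filter] at hx ⊢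
      exact ⟨mem_univ _, hx.2⟩
    · intro x hx
      rw [mem_filter] at hx ⊢
      exact ⟨mem_univ _, hx.2⟩
    · intro x _
      rfl
    · intro x _
      rfl
  have h4 : nn α e = (univ.filter fun x : α => rank x + 1 = e).card := by
    unfold nn
    rw [← h2, ← h3]
    exact h1
  rw [h4]
  unfold nn
  congr 1
  ext x
  rw [mem_filter, mem_filter]
  have := rank_add_corank hG hc x0 x
  unfold hh at he ⊢
  constructor
  · rintro ⟨_, h5⟩
    exact ⟨mem_univ _, by omega⟩
  · rintro ⟨_, h5⟩
    exact ⟨mem_univ _, by omega⟩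

lemma card_h_lt {h : Fin (Fintype.card α) → ℕ} (hG : IsGaussianWith α h) (hc : Conn α)
    (x0 : α) (i : Fin (Fintype.card α)) : h i < hh x0 := by
  by_contra h1
  have h2 := card_h_eq hG (h i)
  have h3 : (univ.filter fun j => h j = h i).card ≠ 0 := by
    rw [card_ne_zero]
    exact ⟨i, by simp⟩
  apply h3
  rw [h2]
  exact nn_eq_zero hG hc x0 (by omega)

/-- the basic inequality: if `d` is at least half of the length, then the size of level `d` is at
most the sum of the sizes of the levels `c` and `c + d` -/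
theorem nn_le_add {h : Fin (Fintype.card α) → ℕ} (hG : IsGaussianWith α h) (hc : Conn α)
    (x0 : α) {c d : ℕ} (hd : hh x0 ≤ 2 * d) (hcd : c < d) :
    nn α d ≤ nn α c + nn α (c + d) := by
  have hd0 : 0 < d := by omega
  have h1 := card_dvd_le hG hd0 (d - c)
  have h2 : (univ.filter fun i => d ∣ h i) = univ.filter fun i => h i = d := by
    ext i
    rw [mem_filter, mem_filter]
    have h3 := card_h_lt hG hc x0 i
    have h4 := hG.1 i
    constructor
    · rintro ⟨_, k, hk⟩
      refine ⟨mem_univ _, ?_⟩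
      have h5 : k < 2 := by
        by_contra h6
        push Not at h6
        have := Nat.mul_le_mul_left d h6
        omega
      have h6 : k ≠ 0 := by
        rintro rfl
        omega
      have h7 : k = 1 := by omega
      rw [hk, h7, mul_one]
    · rintro ⟨_, h5⟩
      exact ⟨mem_univ _, by rw [h5]⟩
  have h3 : (univ.filter fun i => d ∣ (d - c) + h i) ⊆
      (univ.filter fun i => h i = c) ∪ univ.filter fun i => h i = c + d := by
    intro i hi
    rw [mem_filter] at hi
    rw [mem_union, mem_filter, mem_filter]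
    have h3 := card_h_lt hG hc x0 i
    have h4 := hG.1 i
    obtain ⟨_, k, hk⟩ := hi
    have h5 : k < 3 := by
      by_contra h6
      push Not at h6
      have := Nat.mul_le_mul_left d h6
      omega
    have h6 : k ≠ 0 := by
      rintro rfl
      omega
    have h7 : k = 1 ∨ k = 2 := by omega
    rcases h7 with rfl | rfl
    · left
      exact ⟨mem_univ _, by omega⟩
    · right
      exact ⟨mem_univ _, by omega⟩
  have h4 := (h1.trans (card_le_card h3)).trans (card_union_le _ _)
  rw [h2, card_h_eq hG, card_h_eq hG, card_h_eq hG] at h4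
  exact h4

/-- **unimodality** of the level sizes -/
theorem nn_unimodal {h : Fin (Fintype.card α) → ℕ} (hG : IsGaussianWith α h) (hc : Conn α)
    (x0 : α) {e c : ℕ} (hec : e ≤ c) (hce : c + e ≤ hh x0) : nn α e ≤ nn α c := by
  rcases Nat.eq_or_lt_of_le hce with h1 | h1
  · have h2 := nn_palin hG hc x0 (e := e) (by omega)
    have h3 : hh x0 - e = c := by omega
    rw [← h2, h3]
  · have h2 := nn_le_add hG hc x0 (c := c) (d := hh x0 - e) (by omega) (by omega)
    rw [nn_palin hG hc x0 (by omega), nn_eq_zero hG hc x0 (e := c + (hh x0 - e)) (by omega)] at h2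
    simpa using h2

/-- **subadditivity** of the level sizes -/
theorem nn_subadd {h : Fin (Fintype.card α) → ℕ} (hG : IsGaussianWith α h) (hc : Conn α)
    (x0 : α) {e c : ℕ} (hce : c ≤ e) (he : 2 * e ≤ hh x0) :
    nn α e ≤ nn α c + nn α (e - c) := by
  rcases Nat.eq_zero_or_pos c with h0 | h0
  · rw [h0, Nat.sub_zero]
    omega
  rcases Nat.eq_or_lt_of_le hce with h1 | h1
  · rw [h1]
    omega
  have h2 := nn_le_add hG hc x0 (c := c) (d := hh x0 - e) (by omega) (by omega)
  rw [nn_palin hG hc x0 (by omega)] at h2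
  have h3 : c + (hh x0 - e) = hh x0 - (e - c) := by omega
  rw [h3, nn_palin hG hc x0 (by omega)] at h2
  exact h2

end Pool.Gauss
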