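import Pool.Agent.Work.MP_065141_co.J3

/-!
# Explicit configurations
-/

set_option autoImplicit false
set_option linter.unusedSectionVars false
set_option linter.unusedVariables false
open scoped Classical
open Finset Polynomial

namespace Pool.Gauss

variable {α : Type} [Fintype α] [PartialOrder α] {i : ℕ}

section cfg

variable (hg : Grad α) (hl : HasLower α i) {Q A Z : Finset α} (hQ : ∀ q ∈ Q, ds i q = 2)
  (hA : ∀ p ∈ A, ds i p = 1) (hZ : ∀ y ∈ Z, corank y = i) (hQA : ∀ q ∈ Q, bd i q ⊆ A)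
  (hside : ∀ p ∈ A, ∀ p' ∈ A, corank p < i → i < corank p' →
    ∀ y, y ∈ bd i p → y ∈ bd i p' → y ∈ Z)

include hg hQ hA hZ hQA in
lemma cfg_nclosed : NClosed i (Q ∪ A ∪ Z) := by
  intro s hs t hts ht
  rw [mem_union, mem_union] at hs
  have h1 := fr_ds hg hts
  rcases hs with (hs | hs) | hs
  · rw [mem_union, mem_union]
    exact Or.inl (Or.inr (hQA s hs (mem_bd.2 hts)))
  · rw [hA s hs] at h1
    exact absurd (ds_eq_zero.1 (by omega)) ht
  · rw [ds_eq_zero.2 (hZ s hs)] at h1
    omega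

include hQ hA hZ in
lemma cfg_mem_of_ds_one {p : α} (hp : ds i p = 1) : p ∈ Q ∪ A ∪ Z ↔ p ∈ A := by
  rw [mem_union, mem_union]
  constructor
  · rintro ((h | h) | h)
    · have := hQ p h; omega
    · exact h
    · rw [ds_eq_zero.2 (hZ p h)] at hp; omega
  · intro h
    exact Or.inl (Or.inr h)

include hQ hA hZ in
lemma cfg_mem_of_lev {p : α} (hp : corank p = i) : p ∈ Q ∪ A ∪ Z ↔ p ∈ Z := by
  have h0 := ds_eq_zero.2 hp
  rw [mem_union, mem_union]
  constructor
  · rintro ((h | h) | h)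
    · have := hQ p h; omega
    · have := hA p h; omega
    · exact h
  · intro h
    exact Or.inr h

include hQ hA hZ in
lemma cfg_mem_of_ds_two {p : α} (hp : ds i p = 2) : p ∈ Q ∪ A ∪ Z ↔ p ∈ Q := by
  rw [mem_union, mem_union]
  constructor
  · rintro ((h | h) | h)
    · exact h
    · have := hA p h; omega
    · rw [ds_eq_zero.2 (hZ p h)] at hp; omega
  · intro h
    exact Or.inl (Or.inl h)

include hg hl hQ hA hZ hQA hside in
lemma cfg_good : GoodE i (ind (Q ∪ A ∪ Z)) := by
  apply ind_goodE hg hl (cfg_nclosed hg hQ hA hZ hQA)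
  rintro y hy hyT p hp p' hp' h1 h2 ⟨h3, h4⟩
  have e1 : ds i p = 1 := by rw [fr_ds hg h1, ds_eq_zero.2 hy]
  have e2 : ds i p' = 1 := by rw [fr_ds hg h2, ds_eq_zero.2 hy]
  rw [cfg_mem_of_ds_one hQ hA hZ e1] at hp
  rw [cfg_mem_of_ds_one hQ hA hZ e2] at hp'
  rw [cfg_mem_of_lev hQ hA hZ hy] at hyT
  exact hyT (hside p hp p' hp' h3 h4 y (mem_bd.2 h1) (mem_bd.2 h2))

include hg hl hQ hA hZ hQA in
lemma cfg_Fo : Fo i (ind (Q ∪ A ∪ Z)) = A.filter fun p => Disjoint (bd i p) Z := by
  rw [ind_Fo hg hl]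
  ext p
  rw [mem_filter, mem_filter]
  constructor
  · rintro ⟨h1, h2, h3⟩
    have hpQ : p ∉ Q := by
      intro h
      obtain ⟨t, ht⟩ := exists_near hg hl h2
      apply h3 t ht
      rw [mem_union, mem_union]
      exact Or.inl (Or.inr (hQA p h (mem_bd.2 ht)))
    have hpA : p ∈ A := by
      rw [mem_union, mem_union] at h1
      rcases h1 with (h1 | h1) | h1
      · exact absurd h1 hpQ
      · exact h1
      · exact absurd (hZ p h1) h2
    refine ⟨hpA, ?_⟩
    rw [Finset.disjoint_left]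
    intro y hy hyZ
    exact h3 y (mem_bd.1 hy) (by rw [mem_union]; exact Or.inr hyZ)
  · rintro ⟨h1, h2⟩
    refine ⟨by rw [mem_union, mem_union]; exact Or.inl (Or.inr h1), ?_, ?_⟩
    · intro h
      have := hA p h1
      rw [ds_eq_zero.2 h] at this
      omega
    · intro s hs hsT
      have h3 : corank s = i := bd_lev hg (hA p h1) (mem_bd.2 hs)
      rw [cfg_mem_of_lev hQ hA hZ h3] at hsT
      exact Finset.disjoint_left.1 h2 (mem_bd.2 hs) hsT

include hg hQ hA hZ in
lemma cfg_Yd : Yd i (ind (Q ∪ A ∪ Z)) = A.biUnion (bd i) \ Z := by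
  rw [ind_Yd]
  ext y
  rw [mem_filter, mem_sdiff, mem_biUnion, mem_lev]
  constructor
  · rintro ⟨h1, h2, s, hs, h3⟩
    have e1 : ds i s = 1 := by rw [fr_ds hg h3, ds_eq_zero.2 h1]
    rw [cfg_mem_of_ds_one hQ hA hZ e1] at hs
    rw [cfg_mem_of_lev hQ hA hZ h1] at h2
    exact ⟨⟨s, hs, mem_bd.2 h3⟩, h2⟩
  · rintro ⟨⟨s, hs, h3⟩, h2⟩
    have h1 : corank y = i := bd_lev hg (hA s hs) h3
    refine ⟨h1, ?_, s, ?_, mem_bd.1 h3⟩
    · rw [cfg_mem_of_lev hQ hA hZ h1]
      exact h2
    · rw [cfg_mem_of_ds_one hQ hA hZ (hA s hs)]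
      exact hs

include hg hQ hA hZ in
lemma cfg_Yin : Yin i (ind (Q ∪ A ∪ Z)) =
    (A.filter fun p => i < corank p).biUnion (bd i) \ Z := by
  rw [ind_Yin]
  ext y
  rw [mem_filter, mem_sdiff, mem_biUnion, mem_lev]
  constructor
  · rintro ⟨h1, h2, s, hs, h3⟩
    have h4 := hg s y h3
    have h5 : fr i y s := fr_of_below h1.ge h3
    have e1 : ds i s = 1 := by rw [fr_ds hg h5, ds_eq_zero.2 h1]
    rw [cfg_mem_of_ds_one hQ hA hZ e1] at hs
    rw [cfg_mem_of_lev hQ hA hZ h1] at h2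
    exact ⟨⟨s, mem_filter.2 ⟨hs, by omega⟩, mem_bd.2 h5⟩, h2⟩
  · rintro ⟨⟨s, hs, h3⟩, h2⟩
    rw [mem_filter] at hs
    have h1 : corank y = i := bd_lev hg (hA s hs.1) h3
    refine ⟨h1, ?_, s, ?_, (fr_below' hg (mem_bd.1 h3) hs.2).2⟩
    · rw [cfg_mem_of_lev hQ hA hZ h1]
      exact h2
    · rw [cfg_mem_of_ds_one hQ hA hZ (hA s hs.1)]
      exact hs.1

include hg hl hQ hA hZ hQA hside in
/-- the data of a configuration in which the elements next to level `i` are free -/
lemma cfg_free (hZe : Z = ∅) :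
    (pkF i (ind (Q ∪ A ∪ Z))).card + (A.biUnion (bd i)).card = (lev α i).card + A.card ∧
    (-1 : ℤ) ^ (inF i (ind (Q ∪ A ∪ Z))).card = (-1) ^ (low α i).card *
      ((-1) ^ (A.filter fun p => corank p < i).card *
        (-1) ^ ((A.filter fun p => i < corank p).biUnion (bd i)).card) := by
  have h1 := cfg_good hg hl hQ hA hZ hQA hside
  have h2 := cfg_Fo hg hl hQ hA hZ hQA
  have h3 := cfg_Yd hg hQ hA hZ
  have h4 := cfg_Yin hg hQ hA hZ
  have h5 := card_pkF hg hl h1
  have h6 := sign_inF hg hl h1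
  have h7 : (A.filter fun p => Disjoint (bd i p) Z) = A := by
    rw [hZe]
    exact Finset.filter_true_of_mem fun p _ => Finset.disjoint_empty_right _
  have h8 := ind_Fd (cfg_nclosed hg hQ hA hZ hQA)
  rw [h7] at h2
  constructor
  · rw [h2, h3] at h5
    rw [hZe] at h5 ⊢
    rw [sdiff_empty] at h5
    exact h5
  · rw [h6, h8, h2, h4, card_empty, pow_zero, one_mul, hZe, sdiff_empty]

end cfg

lemma ind_inj {T T' : Finset α} (h : ind T = ind T') : T = T' := by
  ext p
  rw [← ind_pos (T := T), h, ind_pos]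

/-! ### elements at distance two -/

/-- the elements of level `i` above or below the nearer neighbours of `q` -/
noncomputable def BB (i : ℕ) (q : α) : Finset α := (bd i q).biUnion (bd i)

/-- elements at distance two with one nearer neighbour -/
noncomputable def U1 (α : Type) [Fintype α] [PartialOrder α] (i : ℕ) : Finset α :=
  univ.filter fun q => ds i q = 2 ∧ (bd i q).card = 1

/-- elements at distance two with two nearer neighbours -/
noncomputable def U2 (α : Type) [Fintype α] [PartialOrder α] (i : ℕ) : Finset α :=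
  univ.filter fun q => ds i q = 2 ∧ (bd i q).card = 2

lemma mem_U1 {q : α} : q ∈ U1 α i ↔ ds i q = 2 ∧ (bd i q).card = 1 := by simp [U1]
lemma mem_U2 {q : α} : q ∈ U2 α i ↔ ds i q = 2 ∧ (bd i q).card = 2 := by simp [U2]

lemma ds_of_mem_bd (hg : Grad α) {p q : α} (hq : ds i q = 2) (h : p ∈ bd i q) : ds i p = 1 := by
  have := fr_ds hg (mem_bd.1 h)
  omega

/-- the side of an element at distance two -/
noncomputable def sg (i : ℕ) (q : α) : ℤ := if corank q < i then -1 else 1

lemma side_of_mem_bd (hg : Grad α) {p q : α} (hq : ds i q = 2) (h : p ∈ bd i q) :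
    (corank p < i ↔ corank q < i) ∧ (i < corank p ↔ i < corank q) := by
  have h1 := fr_ds hg (mem_bd.1 h)
  have h2 := mem_bd.1 h
  rcases lt_trichotomy (corank q) i with h3 | h3 | h3
  · have h4 := fr_above' hg h2 h3
    have h5 := hg q p
    have h6 := hg p q h4.2
    unfold ds at h1 hq
    omega
  · rw [ds_eq_zero.2 h3] at hq
    omega
  · have h4 := fr_below' hg h2 h3
    have h6 := hg q p h4.2
    unfold ds at h1 hq
    omega

end Pool.Gauss
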