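import Pool.Agent.Gauss35.Energy

/-!
# MODULE C2: the number of pairs of nested filters of an explicit Gaussian poset
-/

set_option autoImplicit false
open scoped Classical
open Finset

namespace Pool.Gauss

/-- the list of all filters (as bit masks) of the poset on `0, ..., n-1` in which the upper covers
of `k` are the bits of `up[k]` (all smaller than `k`) -/
def flt (up : List ℕ) : List ℕ :=
  (up.foldl (fun (acc : List ℕ × ℕ) u =>
    (acc.1 ++ (acc.1.filter fun f => Nat.beq (Nat.land f u) u).map (fun f => f + acc.2),
      acc.2 * 2)) ([0], 1)).1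

/-- the number of pairs of nested filters = number of monotone maps to a chain of length three -/
def cnt2 (up : List ℕ) : ℕ :=
  ((flt up).map fun g => ((flt up).filter fun f => Nat.beq (Nat.land f g) f).length).sum

/-! ### bit masks -/

/-- `f` (with bits below `up.length`) is closed with respect to the table `up` -/
def Clo (up : List ℕ) (f : ℕ) : Prop :=
  f < 2 ^ up.length ∧ ∀ k : ℕ, ∀ hk : k < up.length, f.testBit k = true →
    ∀ i : ℕ, (up[k]).testBit i = true → f.testBit i = true

lemma land_eq_right_iff (f u : ℕ) : Nat.beq (Nat.land f u) u = true ↔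
    ∀ i : ℕ, u.testBit i = true → f.testBit i = true := by
  rw [Nat.beq_eq]
  constructor
  · intro h i hi
    have h1 : (f &&& u).testBit i = u.testBit i := congrArg (fun n => Nat.testBit n i) h
    rw [Nat.testBit_and, hi] at h1
    simpa using h1
  · intro h
    apply Nat.eq_of_testBit_eq
    intro i
    change (f &&& u).testBit i = u.testBit i
    rw [Nat.testBit_and]
    by_cases hu : u.testBit i = true
    · rw [h i hu, hu]; rfl
    · simp only [Bool.not_eq_true] at hu
      rw [hu]; simp

lemma land_eq_left_iff (f g : ℕ) : Nat.beq (Nat.land f g) f = true ↔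
    ∀ i : ℕ, f.testBit i = true → g.testBit i = true := by
  have h1 : Nat.land f g = Nat.land g f := Nat.and_comm f g
  rw [h1]
  exact land_eq_right_iff g f

lemma testBit_add_two_pow {f n : ℕ} (hf : f < 2 ^ n) (i : ℕ) :
    (f + 2 ^ n).testBit i = (f.testBit i || decide (i = n)) := by
  rcases lt_trichotomy i n with h | h | h
  · rw [add_comm, Nat.testBit_two_pow_add_gt h]
    simp [h.ne]
  · subst h
    rw [add_comm, Nat.testBit_two_pow_add_eq, Nat.testBit_lt_two_pow hf]
    simp
  · have h1 : f + 2 ^ n < 2 ^ i := by
      have h2 : 2 ^ (n + 1) ≤ 2 ^ i := Nat.pow_le_pow_right (by norm_num) h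
      rw [pow_succ] at h2
      omega
    have h3 : f < 2 ^ i := by omega
    rw [Nat.testBit_lt_two_pow h1, Nat.testBit_lt_two_pow h3]
    simp [h.ne']

lemma flt_aux (up : List ℕ) (hb : ∀ k, ∀ hk : k < up.length, up[k] < 2 ^ k) :
    (up.foldl (fun (acc : List ℕ × ℕ) u =>
      (acc.1 ++ (acc.1.filter fun f => Nat.beq (Nat.land f u) u).map (fun f => f + acc.2),
        acc.2 * 2)) ([0], 1)) = (flt up, 2 ^ up.length) ∧ (flt up).Nodup ∧
      ∀ f, f ∈ flt up ↔ Clo up f := by
  induction up using List.reverseRecOn with
  | nil =>
    refine ⟨rfl, ?_, ?_⟩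
    · simp [flt]
    · intro f
      simp only [flt, List.foldl_nil, List.mem_singleton, Clo, List.length_nil, pow_zero]
      constructor
      · rintro rfl
        exact ⟨by norm_num, fun k hk => absurd hk (by omega)⟩
      · rintro ⟨h, _⟩
        omega
  | append_singleton l u ih =>
    have hbl : ∀ k, ∀ hk : k < l.length, l[k] < 2 ^ k := by
      intro k hk
      have := hb k (by simp; omega)
      rwa [List.getElem_append_left hk] at this
    have hu : u < 2 ^ l.length := by
      have := hb l.length (by simp)
      simpa using this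
    obtain ⟨h1, h2, h3⟩ := ih hbl
    have h4 : flt (l ++ [u]) = flt l ++ ((flt l).filter fun f =>
        Nat.beq (Nat.land f u) u).map (fun f => f + 2 ^ l.length) := by
      conv_lhs => rw [flt, List.foldl_append, h1]
      rfl
    have hlt : ∀ f ∈ flt l, f < 2 ^ l.length := fun f hf => ((h3 f).1 hf).1
    refine ⟨?_, ?_, ?_⟩
    · rw [List.foldl_append, h1, h4]
      simp [pow_succ]
    · rw [h4, List.nodup_append]
      refine ⟨h2, ?_, ?_⟩
      · exact (h2.filter _).map (fun a b hab => by simpa using hab)
      · intro a ha b hb' hab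
        rw [List.mem_map] at hb'
        obtain ⟨c, _, hc⟩ := hb'
        have := hlt a ha
        omega
    · intro f
      rw [h4, List.mem_append, List.mem_map]
      constructor
      · rintro (hf | ⟨c, hc, rfl⟩)
        · obtain ⟨h5, h6⟩ := (h3 f).1 hf
          refine ⟨?_, ?_⟩
          · rw [List.length_append]
            exact lt_of_lt_of_le h5 (Nat.pow_le_pow_right (by norm_num) (by omega))
          · intro k hk hfk
            have hk' : k < l.length := by
              by_contra h0
              rw [Nat.testBit_lt_two_pow (lt_of_lt_of_le h5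
                (Nat.pow_le_pow_right (by norm_num) (not_lt.1 h0)))] at hfk
              exact absurd hfk (by simp)
            rw [List.getElem_append_left hk']
            exact h6 k hk' hfk
        · rw [List.mem_filter] at hc
          obtain ⟨h5, h6⟩ := (h3 c).1 hc.1
          have h7 := (land_eq_right_iff c u).1 hc.2
          refine ⟨?_, ?_⟩
          · rw [List.length_append, List.length_singleton, pow_succ]
            omega
          · intro k hk hfk i hi
            rw [testBit_add_two_pow h5] at hfk ⊢
            rw [Bool.or_eq_true] at hfk ⊢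
            left
            rcases lt_or_ge k l.length with hk' | hk'
            · rw [List.getElem_append_left hk'] at hi
              rcases hfk with hfk | hfk
              · exact h6 k hk' hfk i hi
              · simp only [decide_eq_true_eq] at hfk
                omega
            · have hk2 : k = l.length := by
                simp only [List.length_append, List.length_singleton] at hk
                omega
              subst hk2
              rw [List.getElem_concat_length (by rfl)] at hi
              exact h7 i hi
      · rintro ⟨h5, h6⟩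
        rw [List.length_append, List.length_singleton] at h5
        rcases lt_or_ge f (2 ^ l.length) with hf | hf
        · left
          refine (h3 f).2 ⟨hf, fun k hk hfk => ?_⟩
          have := h6 k (by simp; omega) hfk
          rwa [List.getElem_append_left hk] at this
        · right
          have h5' : f - 2 ^ l.length < 2 ^ l.length := by
            rw [pow_succ] at h5
            omega
          have h7 : f = (f - 2 ^ l.length) + 2 ^ l.length := by omega
          have h8 : ∀ i, f.testBit i = ((f - 2 ^ l.length).testBit i || decide (i = l.length)) := by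
            intro i
            conv_lhs => rw [h7]
            exact testBit_add_two_pow h5' i
          refine ⟨f - 2 ^ l.length, ?_, h7.symm⟩
          rw [List.mem_filter]
          refine ⟨(h3 _).2 ⟨h5', fun k hk hfk i hi => ?_⟩, ?_⟩
          · have h9 := h6 k (by simp; omega) (by rw [h8, hfk]; rfl) i
              (by rwa [List.getElem_append_left hk])
            rw [h8, Bool.or_eq_true] at h9
            rcases h9 with h9 | h9
            · exact h9
            · simp only [decide_eq_true_eq] at h9
              rw [Nat.testBit_lt_two_pow (lt_of_lt_of_le (hbl k hk)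
                (Nat.pow_le_pow_right (by norm_num) (by omega : k ≤ i)))] at hi
              exact absurd hi (by simp)
          · rw [land_eq_right_iff]
            intro i hi
            have h9 := h6 l.length (by simp) (by rw [h8]; simp) i
              (by rwa [List.getElem_concat_length (by rfl)])
            rw [h8, Bool.or_eq_true] at h9
            rcases h9 with h9 | h9
            · exact h9
            · simp only [decide_eq_true_eq] at h9
              subst h9
              rw [Nat.testBit_lt_two_pow hu] at hi
              exact absurd hi (by simp)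

lemma flt_nodup {up : List ℕ} (hb : ∀ k, ∀ hk : k < up.length, up[k] < 2 ^ k) :
    (flt up).Nodup := (flt_aux up hb).2.1

lemma mem_flt {up : List ℕ} (hb : ∀ k, ∀ hk : k < up.length, up[k] < 2 ^ k) {f : ℕ} :
    f ∈ flt up ↔ Clo up f := (flt_aux up hb).2.2 f

variable {α : Type} [Fintype α] [PartialOrder α]

/-- the value of the Gaussian identity at `X = 1` -/
theorem card_monotone {h : Fin (Fintype.card α) → ℕ} (hG : IsGaussianWith α h) (m : ℕ) :
    (univ.filter (fun σ : α → Fin (m + 1) => Monotone σ)).card * ∏ x : α, (corank x + 1) =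
      ∏ x : α, (m + (corank x + 1)) := by
  obtain ⟨e, he⟩ := exists_equiv hG
  have h1 := hG.2 m
  have hgeo : ∀ n : ℕ, (1 : Polynomial ℤ) - Polynomial.X ^ n =
      (∑ j ∈ range n, (Polynomial.X : Polynomial ℤ) ^ j) * (1 - Polynomial.X) := by
    intro n
    rw [geom_sum_mul_neg]
  rw [Finset.prod_congr rfl (fun i _ => hgeo (h i)),
    Finset.prod_congr rfl (fun i _ => hgeo (m + h i)),
    Finset.prod_mul_distrib, Finset.prod_mul_distrib, ← mul_assoc] at h1
  have h2 : (∏ _i : Fin (Fintype.card α), ((1 : Polynomial ℤ) - Polynomial.X)) ≠ 0 := by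
    rw [Finset.prod_const]
    apply pow_ne_zero
    intro h0
    have := congrArg (Polynomial.eval 0) h0
    simp at this
  have h3 := mul_right_cancel₀ h2 h1
  have h4 := congrArg (Polynomial.eval 1) h3
  rw [Polynomial.eval_mul, Polynomial.eval_prod, Polynomial.eval_prod,
    Polynomial.eval_finsetSum] at h4
  simp only [Polynomial.eval_pow, Polynomial.eval_X, one_pow, Polynomial.eval_finsetSum,
    Finset.sum_const, Finset.card_range, mul_one, nsmul_eq_mul] at h4
  have h5 : (univ.filter (fun σ : α → Fin (m + 1) => Monotone σ)).card * ∏ i, h i =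
      ∏ i, (m + h i) := by
    have : (((univ.filter (fun σ : α → Fin (m + 1) => Monotone σ)).card * ∏ i, h i : ℕ) : ℤ) =
        ((∏ i, (m + h i) : ℕ) : ℤ) := by
      push_cast
      exact_mod_cast h4
    exact_mod_cast this
  rw [← e.prod_comp (fun x => corank x + 1), ← e.prod_comp (fun x => m + (corank x + 1))]
  simpa only [he] using h5

/-- mask of a predicate -/
lemma exists_mask (n : ℕ) (P : Fin n → Prop) : ∃ f < 2 ^ n, ∀ i : Fin n,
    f.testBit i = true ↔ P i := by
  refine ⟨Nat.ofBits (fun i => decide (P i)), Nat.ofBits_lt_two_pow _, fun i => ?_⟩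
  rw [Nat.testBit_ofBits_lt _ _ i.2]
  simp

lemma eq_of_mask {n f g : ℕ} (hf : f < 2 ^ n) (hg : g < 2 ^ n)
    (h : ∀ i : Fin n, f.testBit i = true ↔ g.testBit i = true) : f = g := by
  apply Nat.eq_of_testBit_eq
  intro i
  rcases lt_or_ge i n with hi | hi
  · have := h ⟨i, hi⟩
    rw [Bool.eq_iff_iff]
    exact this
  · rw [Nat.testBit_lt_two_pow (lt_of_lt_of_le hf (Nat.pow_le_pow_right (by norm_num) hi)),
      Nat.testBit_lt_two_pow (lt_of_lt_of_le hg (Nat.pow_le_pow_right (by norm_num) hi))]

lemma monotone_iff_covBy {β : Type} [Preorder β] (σ : α → β) :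
    Monotone σ ↔ ∀ a b, a ⋖ b → σ a ≤ σ b := by
  let : LocallyFiniteOrder α := Fintype.toLocallyFiniteOrder
  exact monotone_iff_forall_covBy σ

section table

variable (up : List ℕ) (e : Fin up.length ≃ α)
    (he : ∀ j k : Fin up.length, e j ⋖ e k ↔ (up.get j).testBit k = true)
    (hb : ∀ k, ∀ hk : k < up.length, up[k] < 2 ^ k)

include he hb in
omit [Fintype α] in
/-- closedness of a mask in terms of the poset -/
lemma clo_iff {f : ℕ} (hf : f < 2 ^ up.length) :
    Clo up f ↔ ∀ x y : α, x ⋖ y → f.testBit (e.symm x) = true → f.testBit (e.symm y) = true := by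
  constructor
  · rintro ⟨_, h1⟩ x y hxy hx
    have h2 := he (e.symm x) (e.symm y)
    rw [e.apply_symm_apply, e.apply_symm_apply] at h2
    exact h1 (e.symm x) (e.symm x).2 hx (e.symm y) (h2.1 hxy)
  · intro h
    refine ⟨hf, fun k hk hfk i hi => ?_⟩
    have hik : i < k := by
      by_contra h0
      rw [Nat.testBit_lt_two_pow (lt_of_lt_of_le (hb k hk)
        (Nat.pow_le_pow_right (by norm_num) (not_lt.1 h0)))] at hi
      exact absurd hi (by simp)
    have h1 := (he ⟨k, hk⟩ ⟨i, by omega⟩).2 hi
    have h2 := h _ _ h1
    rw [e.symm_apply_apply, e.symm_apply_apply] at h2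
    exact h2 hfk

include he hb in
lemma cnt2_eq : cnt2 up = (univ.filter (fun σ : α → Fin (2 + 1) => Monotone σ)).card := by
  have hnd := flt_nodup hb
  set S : Finset ℕ := (flt up).toFinset with hS
  have hmem : ∀ f, f ∈ S ↔ Clo up f := by
    intro f
    rw [hS, List.mem_toFinset, mem_flt hb]
  have h1 : cnt2 up = ∑ g ∈ S, (S.filter fun f => Nat.beq (Nat.land f g) f = true).card := by
    rw [cnt2, hS, ← List.sum_toFinset _ hnd]
    apply Finset.sum_congr rfl
    intro g _
    rw [← List.toFinset_filter, List.toFinset_card_of_nodup (hnd.filter _)]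
  rw [h1, ← Finset.card_sigma]
  refine Finset.card_bij (fun p _ => fun x : α =>
    if p.2.testBit (e.symm x) = true then (2 : Fin 3) else
      if p.1.testBit (e.symm x) = true then 1 else 0) ?_ ?_ ?_
  · rintro ⟨g, f⟩ hp
    rw [Finset.mem_sigma, Finset.mem_filter] at hp
    obtain ⟨hg, hf, hfg⟩ := hp
    simp only at hg hf hfg
    rw [hmem] at hg hf
    rw [land_eq_left_iff] at hfg
    have hg' := (clo_iff up e he hb hg.1).1 hg
    have hf' := (clo_iff up e he hb hf.1).1 hf
    rw [Finset.mem_filter, monotone_iff_covBy]
    refine ⟨mem_univ _, fun a b hab => ?_⟩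
    simp only
    by_cases ha : f.testBit (e.symm a) = true
    · rw [if_pos ha, if_pos (hf' a b hab ha)]
    · rw [if_neg ha]
      by_cases hga : g.testBit (e.symm a) = true
      · rw [if_pos hga, if_pos (hg' a b hab hga)]
        split_ifs
        · decide
        · exact le_rfl
      · rw [if_neg hga]
        exact Fin.zero_le _
  · rintro ⟨g, f⟩ hp ⟨g', f'⟩ hp' heq
    rw [Finset.mem_sigma, Finset.mem_filter] at hp hp'
    obtain ⟨hg, hf, hfg⟩ := hp
    obtain ⟨hg', hf', hfg'⟩ := hp'
    simp only at hg hf hfg hg' hf' hfg'
    rw [hmem] at hg hf hg' hf'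
    rw [land_eq_left_iff] at hfg hfg'
    have h2 : ∀ x : α, (f.testBit (e.symm x) = true ↔ f'.testBit (e.symm x) = true) ∧
        (g.testBit (e.symm x) = true ↔ g'.testBit (e.symm x) = true) := by
      intro x
      have h3 := congrFun heq x
      have h4 := hfg (e.symm x)
      have h5 := hfg' (e.symm x)
      simp only at h3
      by_cases a1 : f.testBit (e.symm x) = true <;> by_cases a2 : f'.testBit (e.symm x) = true <;>
        by_cases a3 : g.testBit (e.symm x) = true <;>
        by_cases a4 : g'.testBit (e.symm x) = true <;> simp_all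
    have h3 : f = f' := by
      apply eq_of_mask hf.1 hf'.1
      intro i
      have := (h2 (e i)).1
      rwa [e.symm_apply_apply] at this
    have h4 : g = g' := by
      apply eq_of_mask hg.1 hg'.1
      intro i
      have := (h2 (e i)).2
      rwa [e.symm_apply_apply] at this
    rw [h3, h4]
  · intro σ hσ
    rw [Finset.mem_filter] at hσ
    obtain ⟨g, hg, hg'⟩ := exists_mask up.length (fun i => σ (e i) ≠ 0)
    obtain ⟨f, hf, hf'⟩ := exists_mask up.length (fun i => σ (e i) = 2)
    have hg2 : ∀ x : α, g.testBit (e.symm x) = true ↔ σ x ≠ 0 := by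
      intro x
      rw [hg' (e.symm x), e.apply_symm_apply]
    have hf2 : ∀ x : α, f.testBit (e.symm x) = true ↔ σ x = 2 := by
      intro x
      rw [hf' (e.symm x), e.apply_symm_apply]
    refine ⟨⟨g, f⟩, ?_, ?_⟩
    · rw [Finset.mem_sigma, Finset.mem_filter]
      refine ⟨?_, ?_, ?_⟩
      · simp only
        rw [hmem, clo_iff up e he hb hg]
        intro x y hxy hx
        rw [hg2] at hx ⊢
        have := hσ.2 hxy.le
        intro h0
        rw [h0] at this
        exact hx (le_antisymm this (Fin.zero_le _))
      · simp only
        rw [hmem, clo_iff up e he hb hf]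
        intro x y hxy hx
        rw [hf2] at hx ⊢
        have := hσ.2 hxy.le
        rw [hx] at this
        exact le_antisymm (Fin.le_last (σ y)) this
      · simp only
        rw [land_eq_left_iff]
        intro i hi
        have hi' : i < up.length := by
          by_contra h0
          rw [Nat.testBit_lt_two_pow (lt_of_lt_of_le hf
            (Nat.pow_le_pow_right (by norm_num) (not_lt.1 h0)))] at hi
          exact absurd hi (by simp)
        have h3 := (hf' ⟨i, hi'⟩).1 hi
        refine (hg' ⟨i, hi'⟩).2 ?_
        rw [h3]
        decide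
    · funext x
      simp only
      by_cases a1 : σ x = 2
      · rw [if_pos ((hf2 x).2 a1), a1]
      · rw [if_neg (fun h0 => a1 ((hf2 x).1 h0))]
        by_cases a2 : σ x = 0
        · rw [if_neg (fun h0 => ((hg2 x).1 h0) a2), a2]
        · rw [if_pos ((hg2 x).2 a2)]
          have h5 : ∀ s : Fin 3, s ≠ 2 → s ≠ 0 → (1 : Fin 3) = s := by decide
          exact h5 _ a1 a2

end table

/-- (evaluate the defining identity for `m = 2` at `X = 1`, use `card_h_eq`) -/
theorem count2 {h : Fin (Fintype.card α) → ℕ} (hG : IsGaussianWith α h) (up : List ℕ)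
    (e : Fin up.length ≃ α)
    (he : ∀ j k : Fin up.length, e j ⋖ e k ↔ (up.get j).testBit k = true)
    (hb : ∀ k, ∀ hk : k < up.length, up[k] < 2 ^ k) :
    cnt2 up * ∏ j, (corank (e j) + 1) = ∏ j, (corank (e j) + 3) := by
  rw [cnt2_eq up e he hb, e.prod_comp (fun x => corank x + 1), e.prod_comp (fun x => corank x + 3),
    card_monotone hG 2]
  apply Finset.prod_congr rfl
  intro x _
  ring

/-- the coranks from a table -/
theorem corank_table {h : Fin (Fintype.card α) → ℕ} (hG : IsGaussianWith α h) (up cor : List ℕ)
    (e : Fin up.length ≃ α)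
    (he : ∀ j k : Fin up.length, e j ⋖ e k ↔ (up.get j).testBit k = true)
    (hlen : cor.length = up.length)
    (hc : ∀ j : Fin up.length, ((∀ k : Fin up.length, (up.get j).testBit k = false) ∧
      cor[j] = 0) ∨ ∃ k : Fin up.length, k < j ∧ (up.get j).testBit k = true ∧
        cor[j] = cor[k] + 1) (j : Fin up.length) : corank (e j) = cor[j] := by
  have key : ∀ n : ℕ, ∀ j : Fin up.length, j.val < n → corank (e j) = cor[j] := by
    intro n
    induction n with
    | zero => intro j hj; omega
    | succ n ih =>
      intro j hj
      rcases hc j with ⟨h1, h2⟩ | ⟨k, hk, h1, h2⟩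
      · rw [h2, corank_eq_zero]
        intro y hy
        obtain ⟨z, hz, _⟩ := exists_covBy_of_lt hy
        obtain ⟨k, rfl⟩ := e.surjective z
        have := (he j k).1 hz
        rw [h1 k] at this
        exact absurd this (by simp)
      · rw [h2, ← ih k (by omega)]
        exact corank_covBy hG ((he j k).2 h1)
  exact key (j.val + 1) j (by omega)

/-- tables: `E7` glued in the middle in six ways -/
def tabE7 (p q : ℕ) : List ℕ := [0, 1, 2, 4, 8, 8, 48, 32, 192, 64, 768, 512, 3072, 1024, 2048, p, q,
  32768, 98304, 393216, 131072, 524288, 1572864, 6291456, 8388608, 16777216, 33554432]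

def corE7 : List ℕ := [0, 1, 2, 3, 4, 4, 5, 5, 6, 6, 7, 7, 8, 8, 8, 9, 9, 10, 10, 11, 11, 12, 12,
  13, 14, 15, 16]

/-- a table violating the value of `count2` is not the table of a Gaussian poset -/
theorem not_gaussian_table {h : Fin (Fintype.card α) → ℕ} (hG : IsGaussianWith α h)
    (up cor : List ℕ) (e : Fin up.length ≃ α)
    (he : ∀ j k : Fin up.length, e j ⋖ e k ↔ (up.get j).testBit k = true)
    (hb : ∀ k : Fin up.length, up.get k < 2 ^ k.val)
    (hlen : cor.length = up.length)
    (hc : ∀ j : Fin up.length, ((∀ k : Fin up.length, (up.get j).testBit k = false) ∧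
      cor[j] = 0) ∨ ∃ k : Fin up.length, k < j ∧ (up.get j).testBit k = true ∧
        cor[j] = cor[k] + 1)
    (hne : cnt2 up * ∏ j : Fin up.length, (cor[j] + 1) ≠ ∏ j : Fin up.length, (cor[j] + 3)) :
    False := by
  apply hne
  have h1 := count2 hG up e he (fun k hk => hb ⟨k, hk⟩)
  have h2 := corank_table hG up cor e he hlen hc
  rw [Finset.prod_congr rfl (fun j _ => by rw [h2 j]),
    Finset.prod_congr (f := fun j => corank (e j) + 3) rfl (fun j _ => by rw [h2 j])] at h1
  exact h1

/-- only the gluing `(12288, 20480)` is Gaussian (the others have `cnt2` equal to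
1467, 1464, 1470, 1470, 1472 instead of 1463) -/
theorem not_gaussian_E7 {h : Fin (Fintype.card α) → ℕ} (hG : IsGaussianWith α h) (p q : ℕ)
    (hpq : (p, q) ∈ [(20480, 12288), (12288, 24576), (24576, 12288), (20480, 24576),
      (24576, 20480)])
    (e : Fin (tabE7 p q).length ≃ α)
    (he : ∀ j k : Fin (tabE7 p q).length, e j ⋖ e k ↔ ((tabE7 p q).get j).testBit k = true) :
    False := by
  simp only [List.mem_cons, Prod.mk.injEq, List.not_mem_nil, or_false] at hpq
  rcases hpq with ⟨rfl, rfl⟩ | ⟨rfl, rfl⟩ | ⟨rfl, rfl⟩ | ⟨rfl, rfl⟩ | ⟨rfl, rfl⟩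
  all_goals
    exact not_gaussian_table hG _ corE7 e he (by decide +kernel) rfl (by decide +kernel)
      (by decide +kernel)

/-- the staircase with 15 elements, the lower half reflected -/
def tabT5 : List ℕ := [0, 1, 2, 2, 4, 12, 16, 48, 32, 192, 384, 1536, 512, 6144, 8192]

def corT5 : List ℕ := [0, 1, 2, 2, 3, 3, 4, 4, 4, 5, 5, 6, 6, 7, 8]

/-- `cnt2 = 463` instead of `462` -/
theorem not_gaussian_T5 {h : Fin (Fintype.card α) → ℕ} (hG : IsGaussianWith α h)
    (e : Fin tabT5.length ≃ α)
    (he : ∀ j k : Fin tabT5.length, e j ⋖ e k ↔ (tabT5.get j).testBit k = true) : False :=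
  not_gaussian_table hG _ corT5 e he (by decide +kernel) rfl (by decide +kernel)
    (by decide +kernel)

end Pool.Gauss
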