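import Pool.Agent.Work.MP_065141_co.Rel45

/-!
# The relations D4 and D5 at a level with a single defect
-/

set_option autoImplicit false
set_option linter.unusedSectionVars false
set_option linter.unusedVariables false
open scoped Classical
open Finset Polynomial

namespace Pool.Gauss

variable {α : Type} [Fintype α] [PartialOrder α] {i : ℕ}

section cfDA

variable (hg : Grad α) (hl : HasLower α i) {q : α} {A : Finset α} (hq : ds i q = 2)
  (hA : ∀ p ∈ A, ds i p = 1) (hQA : bd i q ⊆ A)
  (hside : ∀ p ∈ A, ∀ p' ∈ A, corank p < i → i < corank p' → Disjoint (bd i p) (bd i p'))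

lemma cfDA_q {q : α} {A : Finset α} : cfDA q A q = 2 := by simp [cfDA]

include hq hA in
lemma cfDA_not_mem : q ∉ A := fun h => by
  have := hA q h
  omega

include hq hA in
lemma cfDA_mem {p : α} (hp : p ∈ A) : cfDA q A p = 1 := by
  unfold cfDA
  rw [if_neg, if_pos hp]
  rintro rfl
  exact cfDA_not_mem hq hA hp

lemma cfDA_zero {q : α} {A : Finset α} {p : α} (h1 : p ≠ q) (h2 : p ∉ A) : cfDA q A p = 0 := by
  unfold cfDA
  rw [if_neg h1, if_neg h2]

lemma cfDA_le (q : α) (A : Finset α) (p : α) : cfDA q A p ≤ 2 := by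
  unfold cfDA
  split_ifs <;> omega

include hq hA in
lemma cfDA_lev {p : α} (hp : corank p = i) : cfDA q A p = 0 := by
  have h0 := ds_eq_zero.2 hp
  apply cfDA_zero
  · rintro rfl
    omega
  · intro h
    have := hA p h
    omega

lemma cfDA_pos {q : α} {A : Finset α} {p : α} (h : 0 < cfDA q A p) : p = q ∨ p ∈ A := by
  by_contra hcon
  push Not at hcon
  rw [cfDA_zero hcon.1 hcon.2] at h
  omega

include hg hq hA hQA in
lemma cfDA_fd {p : α} (hp : corank p ≠ i) : fd i (cfDA q A) p ↔ p ∈ bd i q := by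
  constructor
  · rintro ⟨r, hr, hr'⟩
    rcases cfDA_pos (by omega : 0 < cfDA q A r) with h | h
    · rw [h] at hr
      exact mem_bd.2 hr
    · exfalso
      apply hp
      have h1 := fr_ds hg hr
      rw [hA r h] at h1
      exact ds_eq_zero.1 (by omega)
  · intro h
    refine ⟨q, mem_bd.1 h, ?_⟩
    rw [cfDA_q, cfDA_mem hq hA (hQA h)]
    omega

include hg hl hq hA hQA in
lemma cfDA_nd {p : α} (hp : corank p ≠ i) : nd i (cfDA q A) p ↔ p ≠ q ∧ p ∉ A := by
  constructor
  · rintro ⟨t, ht, ht'⟩
    have h1 := fr_ds hg ht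
    refine ⟨?_, ?_⟩
    · rintro rfl
      rw [cfDA_q] at ht'
      have h2 : t ∈ A := hQA (mem_bd.2 ht)
      rw [cfDA_mem hq hA h2] at ht'
      omega
    · intro h
      rw [cfDA_mem hq hA h] at ht'
      rw [hA p h] at h1
      rw [cfDA_lev hq hA (ds_eq_zero.1 (by omega))] at ht'
      omega
  · rintro ⟨h1, h2⟩
    obtain ⟨t, ht⟩ := exists_near hg hl hp
    exact ⟨t, ht, by rw [cfDA_zero h1 h2]; omega⟩

include hg hl hq hA hQA hside in
lemma cfDA_good : GoodE i (cfDA q A) := by
  apply goodE_of_goodS hg hl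
  constructor
  · rintro p hp ⟨h1, h2⟩
    rw [cfDA_fd hg hq hA hQA hp] at h1
    rw [cfDA_nd hg hl hq hA hQA hp] at h2
    exact h2.2 (hQA h1)
  · rintro y hy ⟨h1, h2⟩
    rw [inE_lev hy] at h1
    rw [outE_lev hy] at h2
    obtain ⟨x, hx, h1⟩ := h1
    obtain ⟨z, hz, h2⟩ := h2
    have h3 := hg x y hx
    have h4 := hg y z hz
    have e1 : fr i y x := fr_of_below hy.ge hx
    have e2 : fr i y z := fr_of_above hy.le hz
    have d1 : ds i x = 1 := by rw [fr_ds hg e1, ds_eq_zero.2 hy]
    have d2 : ds i z = 1 := by rw [fr_ds hg e2, ds_eq_zero.2 hy]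
    have hxA : x ∈ A := by
      rcases cfDA_pos (by omega : 0 < cfDA q A x) with h | h
      · rw [h] at d1; omega
      · exact h
    have hzA : z ∈ A := by
      rcases cfDA_pos (by omega : 0 < cfDA q A z) with h | h
      · rw [h] at d2; omega
      · exact h
    exact Finset.disjoint_left.1 (hside z hzA x hxA (by omega) (by omega)) (mem_bd.2 e2)
      (mem_bd.2 e1)

include hg hl hq hA hQA in
lemma cfDA_Fo : Fo i (cfDA q A) = insert q (A \ bd i q) := by
  ext p
  rw [mem_FoE, mem_insert, mem_sdiff]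
  constructor
  · rintro ⟨h1, h2, h3⟩
    rw [cfDA_fd hg hq hA hQA h1] at h2
    rw [cfDA_nd hg hl hq hA hQA h1] at h3
    by_cases h4 : p = q
    · exact Or.inl h4
    · right
      by_contra h5
      push Not at h5
      apply h3
      refine ⟨h4, fun h6 => h2 (h5 h6)⟩
  · intro h
    have h1 : corank p ≠ i := by
      intro h1
      have h0 := ds_eq_zero.2 h1
      rcases h with rfl | h
      · omega
      · have := hA p h.1
        omega
    rw [cfDA_fd hg hq hA hQA h1, cfDA_nd hg hl hq hA hQA h1]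
    refine ⟨h1, ?_, ?_⟩
    · rcases h with rfl | h
      · intro h2
        have := ds_of_mem_bd hg hq h2
        omega
      · exact h.2
    · rintro ⟨h2, h3⟩
      rcases h with h | h
      · exact h2 h
      · exact h3 h.1

include hg hq hA hQA in
lemma cfDA_Fd : Fd i (cfDA q A) = bd i q := by
  ext p
  unfold Fd
  rw [mem_filter]
  constructor
  · rintro ⟨_, h1, h2⟩
    exact (cfDA_fd hg hq hA hQA h1).1 h2
  · intro h
    have h1 : corank p ≠ i := by
      intro h1
      have h0 := ds_eq_zero.2 h1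
      have := ds_of_mem_bd hg hq h
      omega
    exact ⟨mem_univ _, h1, (cfDA_fd hg hq hA hQA h1).2 h⟩

include hg hq hA in
lemma cfDA_Yd : Yd i (cfDA q A) = A.biUnion (bd i) := by
  ext y
  rw [mem_Yd, mem_biUnion]
  constructor
  · rintro ⟨h1, p, h2, h3⟩
    have h4 : ds i p = 1 := by rw [fr_ds hg h2, ds_eq_zero.2 h1]
    rcases cfDA_pos (by omega : 0 < cfDA q A p) with h | h
    · rw [h] at h4; omega
    · exact ⟨p, h, mem_bd.2 h2⟩
  · rintro ⟨p, hp, h⟩
    have h1 := bd_lev hg (hA p hp) h
    refine ⟨h1, p, mem_bd.1 h, ?_⟩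
    rw [cfDA_lev hq hA h1, cfDA_mem hq hA hp]
    omega

include hg hq hA in
lemma cfDA_Yin : Yin i (cfDA q A) = (A.filter fun p => i < corank p).biUnion (bd i) := by
  ext y
  unfold Yin
  rw [mem_filter, mem_lev, mem_biUnion]
  constructor
  · rintro ⟨h1, h2⟩
    rw [inE_lev h1] at h2
    obtain ⟨x, hx, h2⟩ := h2
    have h3 := hg x y hx
    have e1 : fr i y x := fr_of_below h1.ge hx
    have d1 : ds i x = 1 := by rw [fr_ds hg e1, ds_eq_zero.2 h1]
    rcases cfDA_pos (by omega : 0 < cfDA q A x) with h | h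
    · rw [h] at d1; omega
    · exact ⟨x, mem_filter.2 ⟨h, by omega⟩, mem_bd.2 e1⟩
  · rintro ⟨p, hp, h⟩
    rw [mem_filter] at hp
    have h1 := bd_lev hg (hA p hp.1) h
    refine ⟨h1, ?_⟩
    rw [inE_lev h1]
    refine ⟨p, (fr_below' hg (mem_bd.1 h) hp.2).2, ?_⟩
    rw [cfDA_lev hq hA h1, cfDA_mem hq hA hp.1]
    omega

include hq hA in
lemma cfDA_sum : ∑ p, cfDA q A p = A.card + 2 := by
  have h1 : ∀ p, cfDA q A p = ind A p + (if p = q then 2 else 0) := by
    intro p
    unfold cfDA ind
    by_cases h : p = q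
    · rw [if_pos h, if_neg (by rw [h]; exact cfDA_not_mem hq hA), if_pos h]
    · rw [if_neg h, if_neg h]
      simp
  rw [Finset.sum_congr rfl fun p _ => h1 p, Finset.sum_add_distrib, sum_ind]
  simp

include hg hq hA in
lemma cfDA_red (m : Mat α i) {L : Finset α} (hL : m.Lone L)
    (hA2 : ∀ p ∈ A, p ∈ bd i q ∨ p ∈ L) : m.Red (cfDA q A) := by
  intro p hp
  obtain ⟨h1, h2⟩ := m.rst_prop hp
  have hd : ds i p = 1 := by unfold ds; omega
  by_contra h
  rcases cfDA_pos (Nat.pos_of_ne_zero h) with h3 | h3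
  · rw [h3] at hd
    omega
  · rcases hA2 p h3 with h4 | h4
    · apply h1
      apply att_of_fr hg hd (mem_bd.1 h4)
      rw [cfDA_q]
      omega
    · exact m.not_mem_rst_of_lone hg hL h4 hp

end cfDA

lemma sg_eq_of_side {p q : α} (h : corank p < i ↔ corank q < i) : sg i p = sg i q := by
  unfold sg
  simp only [h]

/-- the data of `cfDA` for an element over four elements -/
lemma cfDA_data1 (hg : Grad α) (hl : HasLower α i) (m : Mat α i) {q : α} (hq : q ∈ U2 α i)
    (hB : (BB i q).card = 4) {n : ℕ} (hn : (lev α i).card = n) :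
    cfDA q (bd i q) ∈ m.TS 3 4 n ∧
      (-1 : ℤ) ^ (inF i (cfDA q (bd i q))).card = (-1) ^ (low α i).card * sg i q := by
  rw [mem_U2] at hq
  have hA : ∀ t ∈ bd i q, ds i t = 1 := fun t ht => ds_of_mem_bd hg hq.1 ht
  have hQA : bd i q ⊆ bd i q := subset_rfl
  have hside : ∀ p ∈ bd i q, ∀ p' ∈ bd i q, corank p < i → i < corank p' →
      Disjoint (bd i p) (bd i p') := by
    intro p hp p' hp' h1 h2
    have := side_of_mem_bd hg hq.1 hp
    have := side_of_mem_bd hg hq.1 hp'
    omega
  have hgood := cfDA_good hg hl hq.1 hA hQA hside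
  have hred := cfDA_red hg hq.1 hA m (L := ∅) (by intro p hp; simp at hp) (by
    intro p hp
    exact Or.inl hp)
  have hFo := cfDA_Fo hg hl hq.1 hA hQA
  have hFd := cfDA_Fd hg hq.1 hA hQA
  have hYd := cfDA_Yd hg hq.1 hA
  have hYin := cfDA_Yin hg hq.1 hA
  have hsum := cfDA_sum hq.1 hA
  have hpk := card_pkF hg hl hgood
  have hsgn := sign_inF hg hl hgood
  replace hFo : Fo i (cfDA q (bd i q)) = {q} := by
    rw [hFo]
    ext t
    simp
  have h1 : (bd i q).biUnion (bd i) = BB i q := rfl
  rw [h1] at hYd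
  constructor
  · rw [m.mem_TS]
    refine ⟨by rw [hsum, hq.2], hred, hgood, ?_⟩
    rw [hFo, hYd, hB, card_singleton] at hpk
    omega
  · rw [hsgn, hFd, hFo, hYin, hq.2]
    congr 1
    rcases lt_trichotomy (corank q) i with h3 | h3 | h3
    · have h5 : ((bd i q).filter fun p => i < corank p) = ∅ := by
        apply Finset.filter_false_of_mem
        intro p hp
        have := (side_of_mem_bd hg hq.1 hp).1.2 h3
        omega
      rw [h5, Finset.filter_singleton, if_pos h3]
      unfold sg
      rw [if_pos h3]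
      simp
    · exfalso
      have := hq.1
      rw [ds_eq_zero.2 h3] at this
      omega
    · have h4 : ((bd i q).filter fun p => i < corank p) = bd i q :=
        Finset.filter_true_of_mem fun p hp => (side_of_mem_bd hg hq.1 hp).2.2 h3
      rw [h4, h1, hB, Finset.filter_singleton, if_neg (by omega)]
      unfold sg
      rw [if_neg (by omega)]
      norm_num

section with_l

variable (hg : Grad α) (hl : HasLower α i) (m : Mat α i) {L : Finset α} (hL : m.Lone L)
  {q l : α} (hq : q ∈ U2 α i) (hlL : l ∈ L) (hB : (BB i q).card = 4)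
  (hd : Disjoint (BB i q) (bd i l)) {n : ℕ} (hn : (lev α i).card = n)

include hg hl hL hq hlL hd in
lemma wl_facts : l ∉ bd i q ∧ (∀ t ∈ insert l (bd i q), ds i t = 1) ∧
    (∀ p ∈ insert l (bd i q), ∀ p' ∈ insert l (bd i q), corank p < i → i < corank p' →
      Disjoint (bd i p) (bd i p')) := by
  rw [mem_U2] at hq
  obtain ⟨hld, hl2, _⟩ := hL l hlL
  refine ⟨not_mem_bd_of_disjoint hg hl hld hd, ?_, ?_⟩
  · intro t ht
    rw [mem_insert] at ht
    rcases ht with rfl | ht
    · exact hld
    · exact ds_of_mem_bd hg hq.1 ht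
  · intro a ha b hb h1 h2
    rw [mem_insert] at ha hb
    rcases ha with rfl | ha <;> rcases hb with rfl | hb
    · omega
    · refine (hd.mono_left ?_).symm
      intro y hy
      unfold BB
      rw [mem_biUnion]
      exact ⟨b, hb, hy⟩
    · refine hd.mono_left ?_
      intro y hy
      unfold BB
      rw [mem_biUnion]
      exact ⟨a, ha, hy⟩
    · have := side_of_mem_bd hg hq.1 ha
      have := side_of_mem_bd hg hq.1 hb
      omega

include hg hl hL hq hlL hB hd hn in
/-- the data of the configuration of an element over four elements and an exceptional element -/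
lemma cfB4_data : ind ({q} ∪ insert l (bd i q) ∪ ∅) ∈ m.TS 3 4 n ∧
      (-1 : ℤ) ^ (inF i (ind ({q} ∪ insert l (bd i q) ∪ ∅))).card =
        (-1) ^ (low α i).card * sg i l := by
  obtain ⟨hnm, hA, hside'⟩ := wl_facts hg hl m hL hq hlL hd
  rw [mem_U2] at hq
  obtain ⟨hld, hl2, _⟩ := hL l hlL
  have hQ : ∀ t ∈ ({q} : Finset α), ds i t = 2 := by simpa using hq.1
  have hZ : ∀ t ∈ (∅ : Finset α), corank t = i := by simp
  have hQA : ∀ t ∈ ({q} : Finset α), bd i t ⊆ insert l (bd i q) := by
    intro t ht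
    rw [mem_singleton] at ht
    rw [ht]
    exact subset_insert _ _
  have hside : ∀ p ∈ insert l (bd i q), ∀ p' ∈ insert l (bd i q), corank p < i → i < corank p' →
      ∀ y, y ∈ bd i p → y ∈ bd i p' → y ∈ (∅ : Finset α) := by
    intro a ha b hb h1 h2 y hy hy'
    exact absurd hy' (Finset.disjoint_left.1 (hside' a ha b hb h1 h2) hy)
  have hdat := cfg_free hg hl hQ hA hZ hQA hside rfl
  have hgood := cfg_good hg hl hQ hA hZ hQA hside
  have hred := cfg_red hg m hL hQ hA hZ (by
    intro t ht
    rw [mem_insert] at ht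
    rcases ht with rfl | ht
    · exact Or.inr hlL
    · exact Or.inl ⟨q, mem_singleton_self q, ht⟩)
  have hc := card_cfg hQ hA hZ
  have hcA : (insert l (bd i q)).card = 3 := by
    rw [card_insert_of_notMem hnm, hq.2]
  have h1 : (bd i q).biUnion (bd i) = BB i q := rfl
  have hcY : ((insert l (bd i q)).biUnion (bd i)).card = 6 := by
    rw [biUnion_insert, card_union_of_disjoint]
    · rw [h1, hB, hl2]
    · exact hd.symm
  constructor
  · rw [m.mem_TS]
    refine ⟨?_, hred, hgood, ?_⟩
    · rw [sum_ind, hc, hcA]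
      simp
    · have := hdat.1
      rw [hcY, hcA] at this
      omega
  · rw [hdat.2]
    congr 1
    have e1 : insert l (bd i q) = bd i q ∪ {l} := by
      rw [insert_eq, union_comm]
    rw [e1, sign_union hg (by
      rw [Finset.disjoint_singleton_right]
      exact hnm) (by
      rw [singleton_biUnion]
      exact hd), sign_one hg hld hl2]
    have h2 : (-1 : ℤ) ^ ((bd i q).filter fun p => corank p < i).card *
        (-1) ^ (((bd i q).filter fun p => i < corank p).biUnion (bd i)).card = 1 := by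
      rcases lt_trichotomy (corank q) i with h3 | h3 | h3
      · have h4 : ((bd i q).filter fun p => corank p < i) = bd i q :=
          Finset.filter_true_of_mem fun p hp => (side_of_mem_bd hg hq.1 hp).1.2 h3
        have h5 : ((bd i q).filter fun p => i < corank p) = ∅ := by
          apply Finset.filter_false_of_mem
          intro p hp
          have := (side_of_mem_bd hg hq.1 hp).1.2 h3
          omega
        rw [h4, h5, hq.2]
        simp
      · exfalso
        have := hq.1
        rw [ds_eq_zero.2 h3] at this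
        omega
      · have h4 : ((bd i q).filter fun p => i < corank p) = bd i q :=
          Finset.filter_true_of_mem fun p hp => (side_of_mem_bd hg hq.1 hp).2.2 h3
        have h5 : ((bd i q).filter fun p => corank p < i) = ∅ := by
          apply Finset.filter_false_of_mem
          intro p hp
          have := (side_of_mem_bd hg hq.1 hp).2.2 h3
          omega
        rw [h4, h5, h1, hB]
        simp
    rw [h2, one_mul]

include hg hl hL hq hlL hB hd hn in
/-- the data of the configuration with doubled energy and an exceptional element -/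
lemma cfDA_data2 : cfDA q (insert l (bd i q)) ∈ m.TS 4 5 n ∧
      (-1 : ℤ) ^ (inF i (cfDA q (insert l (bd i q)))).card =
        (-1) ^ (low α i).card * (sg i q * sg i l) := by
  obtain ⟨hnm, hA, hside⟩ := wl_facts hg hl m hL hq hlL hd
  rw [mem_U2] at hq
  obtain ⟨hld, hl2, _⟩ := hL l hlL
  have hQA : bd i q ⊆ insert l (bd i q) := subset_insert _ _
  have hgood := cfDA_good hg hl hq.1 hA hQA hside
  have hred := cfDA_red hg hq.1 hA m hL (by
    intro p hp
    rw [mem_insert] at hp
    rcases hp with rfl | hp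
    · exact Or.inr hlL
    · exact Or.inl hp)
  have hFo := cfDA_Fo hg hl hq.1 hA hQA
  have hFd := cfDA_Fd hg hq.1 hA hQA
  have hYd := cfDA_Yd hg hq.1 hA
  have hYin := cfDA_Yin hg hq.1 hA
  have hsum := cfDA_sum hq.1 hA
  have hpk := card_pkF hg hl hgood
  have hsgn := sign_inF hg hl hgood
  have h1 : (bd i q).biUnion (bd i) = BB i q := rfl
  have hql : q ≠ l := ds_ne (i := i) (by omega)
  have hFo' : Fo i (cfDA q (insert l (bd i q))) = {q, l} := by
    rw [hFo]
    congr 1
    ext t
    rw [mem_sdiff, mem_insert, mem_singleton]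
    constructor
    · rintro ⟨h2 | h2, h3⟩
      · exact h2
      · exact absurd h2 h3
    · rintro rfl
      exact ⟨Or.inl rfl, hnm⟩
  constructor
  · rw [m.mem_TS]
    refine ⟨by rw [hsum, card_insert_of_notMem hnm, hq.2], hred, hgood, ?_⟩
    rw [hFo', hYd, biUnion_insert, h1, card_union_of_disjoint hd.symm, hB, hl2,
      card_pair hql] at hpk
    omega
  · rw [hsgn, hFd, hFo', hYin, hq.2]
    congr 1
    have e2 : (-1 : ℤ) ^ ((({q, l} : Finset α)).filter fun p => corank p < i).card =
        sg i q * sg i l := by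
      unfold sg
      have hqi : corank q ≠ i := by
        intro h
        rw [ds_eq_zero.2 h] at hq
        omega
      have hli : corank l ≠ i := by
        intro h
        rw [ds_eq_zero.2 h] at hld
        omega
      rw [Finset.filter_insert, Finset.filter_singleton]
      by_cases c1 : corank q < i <;> by_cases c2 : corank l < i
      · rw [if_pos c1, if_pos c2, if_pos c1, if_pos c2, card_insert_of_notMem (by simpa using hql)]
        simp
      · rw [if_pos c1, if_neg c2, if_pos c1, if_neg c2]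
        simp
      · rw [if_neg c1, if_pos c2, if_neg c1, if_pos c2]
        simp
      · rw [if_neg c1, if_neg c2, if_neg c1, if_neg c2]
        simp
    have e3 : (-1 : ℤ) ^ (((insert l (bd i q)).filter fun p => i < corank p).biUnion
        (bd i)).card = 1 := by
      rw [Finset.filter_insert]
      have h6 : (-1 : ℤ) ^ (((bd i q).filter fun p => i < corank p).biUnion (bd i)).card = 1 := by
        rcases lt_trichotomy (corank q) i with h3 | h3 | h3
        · have h5 : ((bd i q).filter fun p => i < corank p) = ∅ := by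
            apply Finset.filter_false_of_mem
            intro p hp
            have := (side_of_mem_bd hg hq.1 hp).1.2 h3
            omega
          rw [h5]
          simp
        · exfalso
          have := hq.1
          rw [ds_eq_zero.2 h3] at this
          omega
        · have h4 : ((bd i q).filter fun p => i < corank p) = bd i q :=
            Finset.filter_true_of_mem fun p hp => (side_of_mem_bd hg hq.1 hp).2.2 h3
          rw [h4, h1, hB]
          norm_num
      split_ifs with h7
      · rw [biUnion_insert, card_union_of_disjoint, pow_add, h6, hl2]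
        · norm_num
        · refine (hd.mono_left ?_).symm
          intro y hy
          rw [mem_biUnion] at hy
          obtain ⟨p, hp, hy⟩ := hy
          unfold BB
          rw [mem_biUnion]
          exact ⟨p, (mem_filter.1 hp).1, hy⟩
      · exact h6
    rw [e2, e3]
    norm_num

end with_l

lemma cfDA_inj {q q' : α} {A A' : Finset α} (h : cfDA q A = cfDA q' A') : q = q' := by
  have h1 := congrFun h q
  rw [cfDA_q] at h1
  by_contra h2
  have h3 : cfDA q' A' q ≤ 1 := by
    unfold cfDA
    rw [if_neg h2]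
    split_ifs <;> omega
  omega

lemma cfDA_inj2 {q l l' : α} {B : Finset α} (hl : l ∉ B) (hql : q ≠ l)
    (h : cfDA q (insert l B) = cfDA q (insert l' B)) : l = l' := by
  have h1 := congrFun h l
  unfold cfDA at h1
  rw [if_neg hql.symm, if_pos (mem_insert_self _ _)] at h1
  by_contra h2
  rw [if_neg hql.symm, if_neg (by
    rw [mem_insert]
    rintro (h3 | h3)
    · exact h2 h3
    · exact hl h3)] at h1
  omega

theorem D5 {h : Fin (Fintype.card α) → ℕ} (hG : IsGaussianWith α h) (hl : HasLower α i)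
    (m : Mat α i) {z x k : α} (hF : m.FullX {z, x}) (hL : m.Lone {z, x}) (hz : corank z < i)
    (hx : i < corank x) (hk : bd i z ∩ bd i x = {k})
    (hdeg : ∀ p : α, (bd i p).card ≤ 2) :
    ∑ q ∈ (U2 α i).filter (fun q => (BB i q).card = 4),
      sg i q * ((if Disjoint (BB i q) (bd i x) then 1 else 0) -
        (if Disjoint (BB i q) (bd i z) then 1 else 0)) = 0 := by
  have hg := grad hG
  have hzx : z ≠ x := by
    rintro rfl
    omega
  set F := (U2 α i).filter fun q => (BB i q).card = 4 with hFd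
  set G := (F ×ˢ ({z, x} : Finset α)).filter
    (fun a => Disjoint (BB i a.1) (bd i a.2)) with hGd
  have memF : ∀ q, q ∈ F ↔ q ∈ U2 α i ∧ (BB i q).card = 4 := by
    intro q
    rw [hFd, mem_filter]
  have memG : ∀ a : α × α, a ∈ G ↔ (a.1 ∈ U2 α i ∧ (BB i a.1).card = 4) ∧
      a.2 ∈ ({z, x} : Finset α) ∧ Disjoint (BB i a.1) (bd i a.2) := by
    intro a
    rw [hGd, mem_filter, mem_product, memF]
    tauto
  by_cases hFe : F = ∅
  · rw [hFe]
    simp
  have hn : 4 ≤ (lev α i).card := by
    obtain ⟨q, hq⟩ := Finset.nonempty_of_ne_empty hFe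
    rw [memF] at hq
    rw [← hq.2]
    exact card_le_card (BB_subset hg (mem_U2.1 hq.1).1)
  have key := m.engine_s hG hl 5 _ rfl 4 (by omega) hn (by
    intro ε hε hred hs hpk
    obtain ⟨q, hq, hB, ⟨h1, _⟩ | ⟨l, hlL, hd, ⟨h1, _⟩ | ⟨_, he⟩⟩⟩ :=
      class45 hg hl m hF hL hz hx hk hdeg (s := 4) (by omega) (by omega) rfl hε hred hs hpk
    · omega
    · omega
    · have := (cfDA_data2 hg hl m hL hq hlL hB hd rfl).1
      rw [← he, m.mem_TS] at this
      exact ⟨this.1, this.2.2.2⟩)
  have h5 : m.TS 4 5 (lev α i).card = G.image (fun a => cfDA a.1 (insert a.2 (bd i a.1))) := by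
    ext ε
    rw [mem_image]
    constructor
    · intro hε
      rw [m.mem_TS] at hε
      obtain ⟨q, hq, hB, ⟨h1, _⟩ | ⟨l, hlL, hd, ⟨h1, _⟩ | ⟨_, he⟩⟩⟩ :=
        class45 hg hl m hF hL hz hx hk hdeg (s := 4) (by omega) (by omega) rfl hε.2.2.1 hε.2.1
          hε.1.le hε.2.2.2.le
      · omega
      · omega
      · exact ⟨(q, l), (memG _).2 ⟨⟨hq, hB⟩, hlL, hd⟩, he.symm⟩
    · rintro ⟨a, ha, rfl⟩
      rw [memG] at ha
      exact (cfDA_data2 hg hl m hL ha.1.1 ha.2.1 ha.1.2 ha.2.2 rfl).1
  have h6 : ∑ ε ∈ m.TS 4 5 (lev α i).card, (-1 : ℤ) ^ (inF i ε).card = 0 := key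
  rw [h5, Finset.sum_image] at h6
  · have e2 : ∑ a ∈ G, (-1 : ℤ) ^ (inF i (cfDA a.1 (insert a.2 (bd i a.1)))).card =
        (-1) ^ (low α i).card * ∑ a ∈ G, sg i a.1 * sg i a.2 := by
      rw [Finset.mul_sum]
      apply Finset.sum_congr rfl
      intro a ha
      rw [memG] at ha
      exact (cfDA_data2 hg hl m hL ha.1.1 ha.2.1 ha.1.2 ha.2.2 rfl).2
    rw [e2] at h6
    rcases mul_eq_zero.1 h6 with h7 | h7
    · exact absurd h7 (pow_ne_zero _ (by norm_num))
    rw [hGd, Finset.sum_filter, Finset.sum_product] at h7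
    refine Eq.trans ?_ h7
    apply Finset.sum_congr rfl
    intro q _
    rw [Finset.sum_pair hzx]
    have s1 : sg i z = -1 := by unfold sg; rw [if_pos hz]
    have s2 : sg i x = 1 := by unfold sg; rw [if_neg (by omega)]
    rw [s1, s2]
    by_cases c1 : Disjoint (BB i q) (bd i z) <;> by_cases c2 : Disjoint (BB i q) (bd i x)
    · simp [c1, c2]
    · simp [c1, c2]
    · simp [c1, c2]
    · simp [c1, c2]
  · intro a ha b hb hab
    rw [mem_coe, memG] at ha hb
    have h7 : a.1 = b.1 := cfDA_inj hab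
    have hld := (hL a.2 ha.2.1).1
    have h8 : a.2 = b.2 := by
      simp only at hab
      rw [← h7] at hab
      exact cfDA_inj2 (not_mem_bd_of_disjoint hg hl hld ha.2.2)
        (ds_ne (i := i) (by rw [(mem_U2.1 ha.1.1).1, hld]; omega)) hab
    exact Prod.ext h7 h8

theorem D4 {h : Fin (Fintype.card α) → ℕ} (hG : IsGaussianWith α h) (hl : HasLower α i)
    (m : Mat α i) {z x k : α} (hF : m.FullX {z, x}) (hL : m.Lone {z, x}) (hz : corank z < i)
    (hx : i < corank x) (hk : bd i z ∩ bd i x = {k})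
    (hdeg : ∀ p : α, (bd i p).card ≤ 2) :
    ∑ q ∈ (U2 α i).filter (fun q => (BB i q).card = 4),
      (sg i q + ((if Disjoint (BB i q) (bd i x) then 1 else 0) -
        (if Disjoint (BB i q) (bd i z) then 1 else 0))) = 0 := by
  have hg := grad hG
  have hzx : z ≠ x := by
    rintro rfl
    omega
  set F := (U2 α i).filter fun q => (BB i q).card = 4 with hFd
  set G := (F ×ˢ ({z, x} : Finset α)).filter
    (fun a => Disjoint (BB i a.1) (bd i a.2)) with hGd
  have memF : ∀ q, q ∈ F ↔ q ∈ U2 α i ∧ (BB i q).card = 4 := by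
    intro q
    rw [hFd, mem_filter]
  have memG : ∀ a : α × α, a ∈ G ↔ (a.1 ∈ U2 α i ∧ (BB i a.1).card = 4) ∧
      a.2 ∈ ({z, x} : Finset α) ∧ Disjoint (BB i a.1) (bd i a.2) := by
    intro a
    rw [hGd, mem_filter, mem_product, memF]
    tauto
  by_cases hFe : F = ∅
  · rw [hFe]
    simp
  have hn : 4 ≤ (lev α i).card := by
    obtain ⟨q, hq⟩ := Finset.nonempty_of_ne_empty hFe
    rw [memF] at hq
    rw [← hq.2]
    exact card_le_card (BB_subset hg (mem_U2.1 hq.1).1)
  have key := m.engine_s hG hl 4 _ rfl 3 (by omega) (by omega) (by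
    intro ε hε hred hs hpk
    obtain ⟨q, hq, hB, ⟨_, he⟩ | ⟨l, hlL, hd, ⟨_, he⟩ | ⟨h1, _⟩⟩⟩ :=
      class45 hg hl m hF hL hz hx hk hdeg (s := 3) (by omega) (by omega) rfl hε hred hs hpk
    · have := (cfDA_data1 hg hl m hq hB rfl).1
      rw [← he, m.mem_TS] at this
      exact ⟨this.1, this.2.2.2⟩
    · have := (cfB4_data hg hl m hL hq hlL hB hd rfl).1
      rw [← he, m.mem_TS] at this
      exact ⟨this.1, this.2.2.2⟩
    · omega)
  have h5 : m.TS 3 4 (lev α i).card = F.image (fun q => cfDA q (bd i q)) ∪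
      G.image (fun a => ind ({a.1} ∪ insert a.2 (bd i a.1) ∪ ∅)) := by
    ext ε
    rw [mem_union, mem_image, mem_image]
    constructor
    · intro hε
      rw [m.mem_TS] at hε
      obtain ⟨q, hq, hB, ⟨_, he⟩ | ⟨l, hlL, hd, ⟨_, he⟩ | ⟨h1, _⟩⟩⟩ :=
        class45 hg hl m hF hL hz hx hk hdeg (s := 3) (by omega) (by omega) rfl hε.2.2.1 hε.2.1
          hε.1.le hε.2.2.2.le
      · exact Or.inl ⟨q, (memF q).2 ⟨hq, hB⟩, he.symm⟩
      · exact Or.inr ⟨(q, l), (memG _).2 ⟨⟨hq, hB⟩, hlL, hd⟩, he.symm⟩
      · omega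
    · rintro (⟨q, hq, rfl⟩ | ⟨a, ha, rfl⟩)
      · rw [memF] at hq
        exact (cfDA_data1 hg hl m hq.1 hq.2 rfl).1
      · rw [memG] at ha
        exact (cfB4_data hg hl m hL ha.1.1 ha.2.1 ha.1.2 ha.2.2 rfl).1
  have h6 : ∑ ε ∈ m.TS 3 4 (lev α i).card, (-1 : ℤ) ^ (inF i ε).card = 0 := key
  have hdis : Disjoint (F.image (fun q => cfDA q (bd i q)))
      (G.image (fun a => ind ({a.1} ∪ insert a.2 (bd i a.1) ∪ ∅))) := by
    rw [Finset.disjoint_left]
    intro ε h7 h8
    rw [mem_image] at h7 h8
    obtain ⟨q, hq, rfl⟩ := h7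
    obtain ⟨a, ha, h8⟩ := h8
    have h9 := congrFun h8 q
    rw [cfDA_q] at h9
    have h10 : ind ({a.1} ∪ insert a.2 (bd i a.1) ∪ ∅) q ≤ 1 := by
      unfold ind
      split_ifs <;> omega
    omega
  rw [h5, Finset.sum_union hdis, Finset.sum_image, Finset.sum_image] at h6
  · have e1 : ∑ q ∈ F, (-1 : ℤ) ^ (inF i (cfDA q (bd i q))).card =
        (-1) ^ (low α i).card * ∑ q ∈ F, sg i q := by
      rw [Finset.mul_sum]
      apply Finset.sum_congr rfl
      intro q hq
      rw [memF] at hq
      exact (cfDA_data1 hg hl m hq.1 hq.2 rfl).2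
    have e2 : ∑ a ∈ G, (-1 : ℤ) ^ (inF i (ind ({a.1} ∪ insert a.2 (bd i a.1) ∪ ∅))).card =
        (-1) ^ (low α i).card * ∑ a ∈ G, sg i a.2 := by
      rw [Finset.mul_sum]
      apply Finset.sum_congr rfl
      intro a ha
      rw [memG] at ha
      exact (cfB4_data hg hl m hL ha.1.1 ha.2.1 ha.1.2 ha.2.2 rfl).2
    rw [e1, e2, ← mul_add] at h6
    rcases mul_eq_zero.1 h6 with h7 | h7
    · exact absurd h7 (pow_ne_zero _ (by norm_num))
    have e4 : ∑ a ∈ G, sg i a.2 = ∑ q ∈ F, ∑ l ∈ ({z, x} : Finset α),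
        if Disjoint (BB i q) (bd i l) then sg i l else 0 := by
      rw [hGd, Finset.sum_filter, Finset.sum_product]
    rw [e4, ← Finset.sum_add_distrib] at h7
    refine Eq.trans ?_ h7
    apply Finset.sum_congr rfl
    intro q _
    rw [Finset.sum_pair hzx]
    have s1 : sg i z = -1 := by unfold sg; rw [if_pos hz]
    have s2 : sg i x = 1 := by unfold sg; rw [if_neg (by omega)]
    rw [s1, s2]
    by_cases c1 : Disjoint (BB i q) (bd i z) <;> by_cases c2 : Disjoint (BB i q) (bd i x)
    · simp [c1, c2]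
    · simp [c1, c2]
    · simp [c1, c2]
    · simp [c1, c2]
  · intro a ha b hb hab
    rw [mem_coe, memG] at ha hb
    simp only at hab
    have h1 := ind_inj hab
    have ha2 := mem_U2.1 ha.1.1
    have hb2 := mem_U2.1 hb.1.1
    have hlda := (hL a.2 ha.2.1).1
    have hldb := (hL b.2 hb.2.1).1
    have h7 : a.1 = b.1 := by
      have h2 : a.1 ∈ {b.1} ∪ insert b.2 (bd i b.1) ∪ ∅ := by
        rw [← h1]
        simp
      rw [union_empty, mem_union, mem_singleton, mem_insert] at h2
      rcases h2 with h2 | h2 | h2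
      · exact h2
      · have := ha2.1
        rw [h2] at this
        omega
      · have := ds_of_mem_bd hg hb2.1 h2
        omega
    have h8 : a.2 = b.2 := by
      have h3 : a.2 ∈ {b.1} ∪ insert b.2 (bd i b.1) ∪ ∅ := by
        rw [← h1]
        simp
      rw [union_empty, mem_union, mem_singleton, mem_insert] at h3
      rcases h3 with h3 | h3 | h3
      · rw [h3] at hlda
        omega
      · exact h3
      · rw [← h7] at h3
        exact absurd h3 (not_mem_bd_of_disjoint hg hl hlda ha.2.2)
    exact Prod.ext h7 h8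
  · intro a ha b hb hab
    exact cfDA_inj hab

end Pool.Gauss
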