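import Pool.Agent.Work.MP_065141_co.RelE

/-!
# Duality and the arithmetic of the level sizes in the local language
-/

set_option autoImplicit false
set_option linter.unusedSectionVars false
open scoped Classical
open Finset

namespace Pool.Gauss

variable {α : Type} [Fintype α] [PartialOrder α]

namespace Ctx

variable (C : Ctx α)
include C

/-- levels are numbered from both ends -/
theorem corank_dual (x : α) : corank (OrderDual.toDual x) + corank x + 1 = HT α := by
  obtain ⟨h, hG⟩ := C.gauss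
  have hpos : HT α - 1 < HT α := by
    unfold HT
    omega
  obtain ⟨w, hw⟩ := C.exists_lev hpos
  have h1 := rank_add_corank hG C.conn x w
  have h2 : rank w = 0 := by
    by_contra h2
    obtain ⟨y, hy, _⟩ := exists_gt_corank (x := OrderDual.toDual w) (n := 0)
      (by change 0 < rank w; omega)
    have hyw : OrderDual.ofDual y < w := hy
    have h3 := corank_lt hyw
    have h4 := corank_lt_HT (OrderDual.ofDual y)
    omega
  change rank x + corank x + 1 = HT α
  omega

lemma sz_dual_aux (j : ℕ) : sz αᵒᵈ j = sz α j := by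
  obtain ⟨h, hG⟩ := C.gauss
  have h1 := card_h_eq (dual_isGaussian hG) (j + 1)
  have h2 := card_h_eq hG (j + 1)
  have h3 : nn αᵒᵈ (j + 1) = nn α (j + 1) := by
    unfold nn
    rw [← h2]
    exact h1.symm
  rw [nn_succ, nn_succ] at h3
  exact h3

theorem dual : Ctx αᵒᵈ := by
  refine ⟨?_, ?_, ?_⟩
  · obtain ⟨h, hG⟩ := C.gauss
    exact ⟨h, dual_isGaussian hG⟩
  · intro a b
    have h1 := C.conn (OrderDual.ofDual a) (OrderDual.ofDual b)
    have h2 : ∀ x y : α, Relation.ReflTransGen (fun x y : α => x ≤ y ∨ y ≤ x) x y →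
        Relation.ReflTransGen (fun x y : αᵒᵈ => x ≤ y ∨ y ≤ x) (OrderDual.toDual x)
          (OrderDual.toDual y) := by
      intro x y h
      induction h with
      | refl => exact Relation.ReflTransGen.refl
      | tail _ hbc ih =>
        refine ih.tail ?_
        rcases hbc with h3 | h3
        · exact Or.inr (OrderDual.toDual_le_toDual.2 h3)
        · exact Or.inl (OrderDual.toDual_le_toDual.2 h3)
    exact h2 _ _ h1
  · have := C.sz_dual_aux 0
    have h1 := C.one
    unfold sz at this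
    rw [this, h1]

/-- (size of the level `j`) -/
theorem sz_dual (j : ℕ) : sz αᵒᵈ j = sz α j := C.sz_dual_aux j

theorem HT_dual : HT αᵒᵈ = HT α := by
  have hpos : HT α - 1 < HT α := by
    unfold HT
    omega
  have hpos' : HT αᵒᵈ - 1 < HT αᵒᵈ := by
    unfold HT
    omega
  have h1 := C.sz_pos hpos
  have h2 := C.dual.sz_pos hpos'
  rw [C.sz_dual] at h2
  rw [← C.sz_dual] at h1
  have h3 : HT αᵒᵈ - 1 < HT α := by
    by_contra h3
    rw [sz_eq_zero (by omega)] at h2
    omega
  have h4 : HT α - 1 < HT αᵒᵈ := by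
    by_contra h4
    rw [sz_eq_zero (by omega)] at h1
    omega
  omega

lemma hh_eq (x : α) : hh x = HT α + 1 := by
  have h1 := C.corank_dual x
  have h2 : rank x = corank (OrderDual.toDual x) := rfl
  unfold hh
  omega

/-- palindromic -/
theorem sz_palin {j : ℕ} (hj : j < HT α) : sz α (HT α - 1 - j) = sz α j := by
  obtain ⟨h, hG⟩ := C.gauss
  obtain ⟨x0⟩ := C.nonempty
  have h1 := nn_palin hG C.conn x0 (e := j + 1) (by rw [C.hh_eq]; omega)
  have h2 : hh x0 - (j + 1) = (HT α - 1 - j) + 1 := by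
    rw [C.hh_eq]
    omega
  rw [h2, nn_succ, nn_succ] at h1
  exact h1

/-- unimodal -/
theorem sz_unimodal {e c : ℕ} (hec : e ≤ c) (hce : c + e + 1 ≤ HT α) : sz α e ≤ sz α c := by
  obtain ⟨h, hG⟩ := C.gauss
  obtain ⟨x0⟩ := C.nonempty
  have h1 := nn_unimodal hG C.conn x0 (e := e + 1) (c := c + 1) (by omega)
    (by rw [C.hh_eq]; omega)
  rw [nn_succ, nn_succ] at h1
  exact h1

/-- subadditive -/
theorem sz_subadd {e c : ℕ} (hce : c + 1 ≤ e) (he : 2 * e + 1 ≤ HT α) :
    sz α e ≤ sz α c + sz α (e - 1 - c) := by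
  obtain ⟨h, hG⟩ := C.gauss
  obtain ⟨x0⟩ := C.nonempty
  have h1 := nn_subadd hG C.conn x0 (e := e + 1) (c := c + 1) (by omega)
    (by rw [C.hh_eq]; omega)
  have h2 : e + 1 - (c + 1) = (e - 1 - c) + 1 := by omega
  rw [h2, nn_succ, nn_succ, nn_succ] at h1
  exact h1

omit C in
theorem Pr_dual' (x : α) (y : α) :
    OrderDual.toDual y ∈ Pr (OrderDual.toDual x) ↔ y ∈ Ch x := by
  rw [mem_Pr, mem_Ch]
  exact toDual_covBy_toDual_iff

omit C in
theorem Ch_dual' (x : α) (y : α) :
    OrderDual.toDual y ∈ Ch (OrderDual.toDual x) ↔ y ∈ Pr x := by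
  rw [mem_Pr, mem_Ch]
  exact toDual_covBy_toDual_iff

theorem Pr_dual (x : α) (y : α) :
    OrderDual.toDual y ∈ Pr (OrderDual.toDual x) ↔ y ∈ Ch x := Pr_dual' x y

theorem Ch_dual (x : α) (y : α) :
    OrderDual.toDual y ∈ Ch (OrderDual.toDual x) ↔ y ∈ Pr x := Ch_dual' x y

omit C in
lemma Pr_toDual_eq_iff (x : α) (s : Finset α) :
    Pr (OrderDual.toDual x) = s.map OrderDual.toDual.toEmbedding ↔ Ch x = s := by
  constructor
  · intro h
    ext y
    rw [← Pr_dual', h, mem_map_equiv]
    rfl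
  · intro h
    ext y
    obtain ⟨z, rfl⟩ := OrderDual.toDual.surjective y
    rw [Pr_dual', h, mem_map_equiv]
    rfl

omit C in
lemma Ch_toDual_eq_iff (x : α) (s : Finset α) :
    Ch (OrderDual.toDual x) = s.map OrderDual.toDual.toEmbedding ↔ Pr x = s := by
  constructor
  · intro h
    ext y
    rw [← Ch_dual', h, mem_map_equiv]
    rfl
  · intro h
    ext y
    obtain ⟨z, rfl⟩ := OrderDual.toDual.surjective y
    rw [Ch_dual', h, mem_map_equiv]
    rfl

lemma mC_dual {j : ℕ} (hj : j < HT α) (s : Finset α) :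
    mC j (s.map OrderDual.toDual.toEmbedding) = mD (HT α - 1 - j) s := by
  unfold mC mD
  refine Finset.card_bij' (fun x _ => OrderDual.ofDual x) (fun x _ => OrderDual.toDual x)
    ?_ ?_ ?_ ?_
  · intro x hx
    obtain ⟨z, rfl⟩ := OrderDual.toDual.surjective x
    rw [mem_filter, mem_lev, Pr_toDual_eq_iff] at hx
    have h1 := C.corank_dual z
    rw [mem_filter, mem_lev']
    refine ⟨?_, hx.2⟩
    change corank z + 1 = _
    omega
  · intro z hz
    rw [mem_filter, mem_lev'] at hz
    have h1 := C.corank_dual z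
    rw [mem_filter, mem_lev, Pr_toDual_eq_iff]
    exact ⟨by omega, hz.2⟩
  · intro x _
    rfl
  · intro x _
    rfl

lemma mD_dual {j : ℕ} (hj : j < HT α) (s : Finset α) :
    mD j (s.map OrderDual.toDual.toEmbedding) = mC (HT α - 1 - j) s := by
  unfold mC mD
  refine Finset.card_bij' (fun x _ => OrderDual.ofDual x) (fun x _ => OrderDual.toDual x)
    ?_ ?_ ?_ ?_
  · intro x hx
    obtain ⟨z, rfl⟩ := OrderDual.toDual.surjective x
    rw [mem_filter, mem_lev', Ch_toDual_eq_iff] at hx
    have h1 := C.corank_dual z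
    rw [mem_filter, mem_lev]
    refine ⟨?_, hx.2⟩
    change corank z = _
    omega
  · intro z hz
    rw [mem_filter, mem_lev] at hz
    have h1 := C.corank_dual z
    rw [mem_filter, mem_lev', Ch_toDual_eq_iff]
    exact ⟨by omega, hz.2⟩
  · intro x _
    rfl
  · intro x _
    rfl

/-- perfectness is self-dual -/
theorem perf_dual {j : ℕ} (hj : j < HT α) : Perf αᵒᵈ j ↔ Perf α (HT α - 1 - j) := by
  constructor
  · intro h s hs
    have h1 := h (s.map OrderDual.toDual.toEmbedding) (by rw [card_map]; exact hs)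
    rw [C.mC_dual hj, C.mD_dual hj] at h1
    exact h1.symm
  · intro h s hs
    obtain ⟨t, rfl⟩ : ∃ t : Finset α, s = t.map OrderDual.toDual.toEmbedding := by
      refine ⟨s.map OrderDual.ofDual.toEmbedding, ?_⟩
      ext x
      rw [mem_map_equiv, mem_map_equiv]
      rfl
    rw [card_map] at hs
    rw [C.mC_dual hj, C.mD_dual hj]
    exact (h t hs).symm

end Ctx

end Pool.Gauss
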