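import Pool.Agent.Gauss35.Energy

/-!
# The sum over the energy functions with prescribed deep part

We sum the weights of the energy functions over the values on a set of elements of the levels next
to level `i` which have no excited neighbour away from level `i`.
-/

set_option autoImplicit false
open scoped Classical
open Finset Polynomial

namespace Pool.Gauss

variable {α : Type} [Fintype α] [PartialOrder α]

set_option linter.unusedSectionVars false

/-! ### sums over `piAntidiag` as coefficients -/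

lemma prod_ite_zero' {β : Type} (s : Finset β) (c : β → Prop) [∀ p, Decidable (c p)]
    [Decidable (∀ p ∈ s, c p)] (f : β → ℤ[X]) :
    ∏ p ∈ s, (if c p then f p else 0) = if ∀ p ∈ s, c p then ∏ p ∈ s, f p else 0 := by
  split_ifs with h
  · exact Finset.prod_congr rfl fun p hp => if_pos (h p hp)
  · push Not at h
    obtain ⟨p, hp, h1⟩ := h
    exact Finset.prod_eq_zero hp (if_neg h1)

lemma sum_piAntidiag_eq_coeff {R : Type} [CommRing R] (s : Finset α) (f : α → ℕ → R) (N : ℕ) :
    ∑ κ ∈ s.piAntidiag N, ∏ p ∈ s, f p (κ p) =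
      PowerSeries.coeff N (∏ p ∈ s, PowerSeries.mk (f p)) := by
  rw [PowerSeries.coeff_prod]
  refine Finset.sum_bij' (fun κ _ => Finsupp.equivFunOnFinite.symm κ) (fun l _ => (l : α → ℕ))
    ?_ ?_ ?_ ?_ ?_
  · intro κ hκ
    rw [mem_piAntidiag] at hκ
    rw [mem_finsuppAntidiag]
    refine ⟨hκ.1, ?_⟩
    intro p hp
    rw [Finsupp.mem_support_iff] at hp
    exact hκ.2 p hp
  · intro l hl
    rw [mem_finsuppAntidiag] at hl
    rw [mem_piAntidiag]
    refine ⟨hl.1, ?_⟩
    intro p hp
    exact hl.2 (Finsupp.mem_support_iff.2 hp)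
  · intro κ _
    rfl
  · intro l _
    ext p
    rfl
  · intro κ _
    apply Finset.prod_congr rfl
    intro p _
    rw [PowerSeries.coeff_mk]
    rfl

/-! ### the weight as a product of local factors -/

/-- local weight of an element which is in / out according to `a`, `b` -/
noncomputable def om (a b : Prop) : ℤ[X] :=
  if a then (if b then 0 else X - 1) else (if b then 1 else X)

lemma tm_eq_prod (i : ℕ) (ε : α → ℕ) : tm i ε = ∏ p, om (inE i ε p) (outE i ε p) := by
  unfold tm
  split_ifs with h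
  · have h1 : ∀ p : α, om (inE i ε p) (outE i ε p) =
        (if inE i ε p then X - 1 else 1) * (if ¬ inE i ε p ∧ ¬ outE i ε p then X else 1) := by
      intro p
      have := h p
      unfold om
      by_cases h1 : inE i ε p <;> by_cases h2 : outE i ε p
      · exact absurd ⟨h1, h2⟩ this
      · simp [h1, h2]
      · simp [h1, h2]
      · simp [h1, h2]
    rw [Finset.prod_congr rfl fun p _ => h1 p, Finset.prod_mul_distrib, Finset.prod_ite,
      Finset.prod_ite, prod_const_one, prod_const_one, prod_const, prod_const, mul_one, mul_one]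
    rfl
  · unfold GoodE at h
    push Not at h
    obtain ⟨p, h1, h2⟩ := h
    symm
    apply Finset.prod_eq_zero (mem_univ p)
    simp [om, h1, h2]

lemma om_eq (a b : Prop) : om a b = (if b then 0 else X - 1) + (if a then 0 else 1) := by
  unfold om
  by_cases h1 : a <;> by_cases h2 : b <;> simp [h1, h2]

lemma prod_om_eq (s : Finset α) (a b : α → Prop) :
    ∏ y ∈ s, om (a y) (b y) = ∑ S ∈ s.powerset,
      if (∀ y ∈ S, ¬ b y) ∧ (∀ y ∈ s \ S, ¬ a y) then (X - 1) ^ S.card else (0 : ℤ[X]) := by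
  rw [Finset.prod_congr rfl fun y _ => om_eq (a y) (b y), Finset.prod_add]
  apply Finset.sum_congr rfl
  intro S _
  have h1 : ∏ y ∈ S, (if b y then (0 : ℤ[X]) else X - 1) =
      if ∀ y ∈ S, ¬ b y then (X - 1) ^ S.card else 0 := by
    have h3 := prod_ite_zero' S (fun y => ¬ b y) (fun _ => X - 1)
    rw [Finset.prod_const] at h3
    refine Eq.trans ?_ h3
    apply Finset.prod_congr rfl
    intro y _
    by_cases h : b y <;> simp [h]
  have h2 : ∏ y ∈ s \ S, (if a y then (0 : ℤ[X]) else 1) =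
      if ∀ y ∈ s \ S, ¬ a y then 1 else 0 := by
    have h3 := prod_ite_zero' (s \ S) (fun y => ¬ a y) (fun _ => 1)
    rw [Finset.prod_const_one] at h3
    refine Eq.trans ?_ h3
    apply Finset.prod_congr rfl
    intro y _
    by_cases h : a y <;> simp [h]
  rw [h1, h2]
  by_cases h3 : ∀ y ∈ S, ¬ b y <;> by_cases h4 : ∀ y ∈ s \ S, ¬ a y
  · rw [if_pos h3, if_pos h4, if_pos ⟨h3, h4⟩, mul_one]
  · rw [if_neg h4, mul_zero, if_neg (fun h => h4 h.2)]
  · rw [if_neg h3, zero_mul, if_neg (fun h => h3 h.1)]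
  · rw [if_neg h3, zero_mul, if_neg (fun h => h3 h.1)]

/-! ### statuses -/

lemma inE_lev {i : ℕ} {ε : α → ℕ} {y : α} (hy : corank y = i) :
    inE i ε y ↔ ∃ x, x ⋖ y ∧ ε y < ε x := by
  unfold inE
  constructor
  · rintro (⟨h, _⟩ | ⟨_, h⟩)
    · omega
    · exact h
  · intro h
    exact Or.inr ⟨hy.ge, h⟩

lemma outE_lev {i : ℕ} {ε : α → ℕ} {y : α} (hy : corank y = i) :
    outE i ε y ↔ ∃ z, y ⋖ z ∧ ε y < ε z := by
  unfold outE
  constructor
  · rintro (⟨_, h⟩ | ⟨h, _⟩)
    · exact h
    · omega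
  · intro h
    exact Or.inl ⟨hy.le, h⟩

lemma inE_lt {i : ℕ} {ε : α → ℕ} {y : α} (hy : corank y < i) :
    inE i ε y ↔ (corank y + ε y < i ∨ ∃ x, x ⋖ y ∧ ε y ≤ ε x) := by
  unfold inE
  constructor
  · rintro (⟨_, h⟩ | ⟨h, _⟩)
    · exact h
    · omega
  · intro h
    exact Or.inl ⟨hy, h⟩

lemma inE_ge {i : ℕ} {ε : α → ℕ} {y : α} (hy : i ≤ corank y) :
    inE i ε y ↔ ∃ x, x ⋖ y ∧ ε y < ε x := by
  unfold inE
  constructor
  · rintro (⟨h, _⟩ | ⟨_, h⟩)
    · omega
    · exact h
  · intro h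
    exact Or.inr ⟨hy, h⟩

lemma outE_le {i : ℕ} {ε : α → ℕ} {y : α} (hy : corank y ≤ i) :
    outE i ε y ↔ ∃ z, y ⋖ z ∧ ε y < ε z := by
  unfold outE
  constructor
  · rintro (⟨_, h⟩ | ⟨h, _⟩)
    · exact h
    · omega
  · intro h
    exact Or.inl ⟨hy, h⟩

lemma outE_gt {i : ℕ} {ε : α → ℕ} {y : α} (hy : i < corank y) :
    outE i ε y ↔ ∃ z, y ⋖ z ∧ ε y ≤ ε z := by
  unfold outE
  constructor
  · rintro (⟨h, _⟩ | ⟨_, h⟩)
    · omega
    · exact h
  · intro h
    exact Or.inr ⟨hy, h⟩

/-- every element above level `i` covers an element -/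
def HasLower (α : Type) [Fintype α] [PartialOrder α] (i : ℕ) : Prop :=
  ∀ p : α, corank p < i → ∃ t, t ⋖ p

lemma exists_upper (p : α) (hp : 0 < corank p) : ∃ t, p ⋖ t := by
  obtain ⟨y, hy, _⟩ := exists_gt_corank (x := p) (n := 0) hp
  obtain ⟨z, hz, _⟩ := exists_covBy_of_lt hy
  exact ⟨z, hz⟩

/-! ### attached elements and the elements over which we sum -/

/-- an element next to level `i` with an excited neighbour away from level `i` -/
def att (i : ℕ) (ε : α → ℕ) (p : α) : Prop :=
  (corank p + 1 = i ∧ ∃ v, p ⋖ v ∧ 0 < ε v) ∨ (corank p = i + 1 ∧ ∃ w, w ⋖ p ∧ 0 < ε w)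

/-- an element of the level above level `i` covering exactly one element -/
def sglZ (i : ℕ) (p : α) : Prop := corank p + 1 = i ∧ ∃ y, ∀ t, t ⋖ p ↔ t = y

/-- an element of the level below level `i` covered by exactly one element -/
def sglX (i : ℕ) (p : α) : Prop := corank p = i + 1 ∧ ∃ y, ∀ t, p ⋖ t ↔ t = y

/-- a partial matching between elements above and below level `i` having the same two neighbours
in level `i` -/
structure Mat (α : Type) [Fintype α] [PartialOrder α] (i : ℕ) where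
  M : Finset (α × α)
  cz : ∀ m ∈ M, corank m.1 + 1 = i
  cx : ∀ m ∈ M, corank m.2 = i + 1
  two : ∀ m ∈ M, ∃ y y', y ≠ y' ∧ (∀ t, t ⋖ m.1 ↔ t = y ∨ t = y') ∧
    (∀ t, m.2 ⋖ t ↔ t = y ∨ t = y')
  inj1 : ∀ m ∈ M, ∀ m' ∈ M, m.1 = m'.1 → m = m'
  inj2 : ∀ m ∈ M, ∀ m' ∈ M, m.2 = m'.2 → m = m'

variable {i : ℕ}

/-- the pairs of the matching without attached elements -/
noncomputable def Mat.free (m : Mat α i) (ε : α → ℕ) : Finset (α × α) :=
  m.M.filter fun e => ¬ att i ε e.1 ∧ ¬ att i ε e.2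

/-- the single elements which are not attached -/
noncomputable def sgl (i : ℕ) (ε : α → ℕ) : Finset α :=
  univ.filter fun p => (sglZ i p ∨ sglX i p) ∧ ¬ att i ε p

/-- the set of elements over which we sum -/
noncomputable def Mat.rst (m : Mat α i) (ε : α → ℕ) : Finset α :=
  ((m.free ε).image Prod.fst ∪ (m.free ε).image Prod.snd) ∪ sgl i ε

lemma Mat.rst_prop (m : Mat α i) {ε : α → ℕ} {p : α} (hp : p ∈ m.rst ε) :
    ¬ att i ε p ∧ ((corank p + 1 = i) ∨ (corank p = i + 1)) := by
  unfold Mat.rst at hp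
  rw [mem_union, mem_union, mem_image, mem_image] at hp
  rcases hp with (⟨e, he, rfl⟩ | ⟨e, he, rfl⟩) | hp
  · unfold Mat.free at he
    rw [mem_filter] at he
    exact ⟨he.2.1, Or.inl (m.cz e he.1)⟩
  · unfold Mat.free at he
    rw [mem_filter] at he
    exact ⟨he.2.2, Or.inr (m.cx e he.1)⟩
  · unfold sgl at hp
    rw [mem_filter] at hp
    refine ⟨hp.2.2, ?_⟩
    rcases hp.2.1 with h | h
    · exact Or.inl h.1
    · exact Or.inr h.1

/-- the factor of an element above level `i` -/
noncomputable def OmZ (k : α → ℕ) (S : Finset α) (p : α) (a : ℕ) : ℤ[X] :=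
  if (∀ y, y ⋖ p → y ∈ S → a ≤ k y) then (if ∃ y, y ⋖ p ∧ a ≤ k y then X - 1 else X) else 0

/-- the factor of an element below level `i` -/
noncomputable def OmX (k : α → ℕ) (S : Finset α) (p : α) (a : ℕ) : ℤ[X] :=
  if (∀ y, p ⋖ y → y ∉ S → a ≤ k y) then (if ∃ y, p ⋖ y ∧ a ≤ k y then 1 else X) else 0

/-- the factor of an element next to level `i` -/
noncomputable def Om (i : ℕ) (k : α → ℕ) (S : Finset α) (p : α) (a : ℕ) : ℤ[X] :=
  if corank p + 1 = i then OmZ k S p a else OmX k S p a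

section decomposition

variable (hg : Grad α) (hl : HasLower α i) (m : Mat α i) {ε κ : α → ℕ}
  (hred : ∀ p ∈ m.rst ε, ε p = 0) (hκ : ∀ p, κ p ≠ 0 → p ∈ m.rst ε)

include hg in
lemma not_att_x {p w : α} (hp : ¬ att i ε p) (h1 : corank p = i + 1) (hw : w ⋖ p) : ε w = 0 := by
  by_contra h
  exact hp (Or.inr ⟨h1, w, hw, Nat.pos_of_ne_zero h⟩)

include hg in
lemma not_att_z {p v : α} (hp : ¬ att i ε p) (h1 : corank p + 1 = i) (hv : p ⋖ v) : ε v = 0 := by
  by_contra h
  exact hp (Or.inl ⟨h1, v, hv, Nat.pos_of_ne_zero h⟩)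

include hg hκ in
lemma add_eq_of_deep {q : α} (hq : corank q + 1 < i ∨ corank q = i ∨ i + 1 < corank q) :
    (ε + κ) q = ε q := by
  have : κ q = 0 := by
    by_contra h
    have := (m.rst_prop (hκ q h)).2
    omega
  simp [this]

include hκ in
lemma add_eq_of_notMem {q : α} (hq : q ∉ m.rst ε) : (ε + κ) q = ε q := by
  have : κ q = 0 := by
    by_contra h
    exact hq (hκ q h)
  simp [this]

include hred in
lemma add_eq_of_mem {q : α} (hq : q ∈ m.rst ε) : (ε + κ) q = κ q := by
  simp [hred q hq]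

include hg hl hκ hred in
/-- the statuses of the elements away from level `i` and from the set of summation do not change -/
lemma inE_other {p : α} (hp : corank p ≠ i) (hp' : p ∉ m.rst ε) :
    inE i (ε + κ) p ↔ inE i ε p := by
  have hpe := add_eq_of_notMem m hκ hp'
  rcases lt_or_gt_of_ne hp with h | h
  · rw [inE_lt h, inE_lt h, hpe]
    apply or_congr Iff.rfl
    apply exists_congr
    intro x
    apply and_congr_right
    intro hx
    -- `x ⋖ p`
    have h1 := hg x p hx
    by_cases hx' : x ∈ m.rst ε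
    · obtain ⟨h2, h3⟩ := m.rst_prop hx'
      have h4 : corank x + 1 = i := by omega
      have h5 := not_att_z hg h2 h4 hx
      rw [h5]
      simp
    · rw [add_eq_of_notMem m hκ hx']
  · rw [inE_ge h.le, inE_ge h.le, hpe]
    apply exists_congr
    intro x
    apply and_congr_right
    intro hx
    have h1 := hg x p hx
    rw [add_eq_of_deep hg m hκ (q := x) (by omega)]

include hg hl hκ hred in
lemma outE_other {p : α} (hp : corank p ≠ i) (hp' : p ∉ m.rst ε) :
    outE i (ε + κ) p ↔ outE i ε p := by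
  have hpe := add_eq_of_notMem m hκ hp'
  rcases lt_or_gt_of_ne hp with h | h
  · rw [outE_le h.le, outE_le h.le, hpe]
    apply exists_congr
    intro x
    apply and_congr_right
    intro hx
    have h1 := hg p x hx
    rw [add_eq_of_deep hg m hκ (q := x) (by omega)]
  · rw [outE_gt h, outE_gt h, hpe]
    apply exists_congr
    intro x
    apply and_congr_right
    intro hx
    have h1 := hg p x hx
    by_cases hx' : x ∈ m.rst ε
    · obtain ⟨h2, h3⟩ := m.rst_prop hx'
      have h4 : corank x = i + 1 := by omega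
      have h5 := not_att_x hg h2 h4 hx
      rw [h5]
      simp
    · rw [add_eq_of_notMem m hκ hx']

include hg hl hκ hred in
/-- the factor of an element of the set of summation -/
lemma om_rst {p : α} (hp : p ∈ m.rst ε) :
    om (inE i (ε + κ) p) (outE i (ε + κ) p) =
      if corank p + 1 = i then (if ∃ y, y ⋖ p ∧ κ p ≤ ε y then X - 1 else X)
      else (if ∃ y, p ⋖ y ∧ κ p ≤ ε y then 1 else X) := by
  obtain ⟨h2, h3⟩ := m.rst_prop hp
  have hpe := add_eq_of_mem (κ := κ) m hred hp
  by_cases h : corank p + 1 = i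
  · rw [if_pos h]
    have h4 : ¬ outE i (ε + κ) p := by
      rw [outE_le (by omega)]
      rintro ⟨v, hv, h5⟩
      have h6 := hg p v hv
      rw [add_eq_of_deep hg m hκ (q := v) (by omega), not_att_z hg h2 h hv] at h5
      omega
    have h5 : inE i (ε + κ) p ↔ ∃ y, y ⋖ p ∧ κ p ≤ ε y := by
      rw [inE_lt (by omega), hpe]
      constructor
      · rintro (h6 | ⟨y, hy, h6⟩)
        · obtain ⟨y, hy⟩ := hl p (by omega)
          exact ⟨y, hy, by omega⟩
        · have h7 := hg y p hy
          rw [add_eq_of_deep hg m hκ (q := y) (by omega)] at h6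
          exact ⟨y, hy, h6⟩
      · rintro ⟨y, hy, h6⟩
        right
        have h7 := hg y p hy
        refine ⟨y, hy, ?_⟩
        rw [add_eq_of_deep hg m hκ (q := y) (by omega)]
        exact h6
    unfold om
    simp only [h4, h5, if_false]
  · rw [if_neg h]
    have h1 : corank p = i + 1 := by omega
    have h4 : ¬ inE i (ε + κ) p := by
      rw [inE_ge (by omega)]
      rintro ⟨w, hw, h5⟩
      have h6 := hg w p hw
      rw [add_eq_of_deep hg m hκ (q := w) (by omega), not_att_x hg h2 h1 hw] at h5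
      omega
    have h5 : outE i (ε + κ) p ↔ ∃ y, p ⋖ y ∧ κ p ≤ ε y := by
      rw [outE_gt (by omega), hpe]
      apply exists_congr
      intro y
      apply and_congr_right
      intro hy
      have h7 := hg p y hy
      rw [add_eq_of_deep hg m hκ (q := y) (by omega)]
    unfold om
    simp only [h4, h5, if_false]

include hg hκ hred in
lemma not_outE_lev {y : α} (hy : corank y = i) :
    ¬ outE i (ε + κ) y ↔ ¬ outE i ε y ∧ ∀ z ∈ m.rst ε, y ⋖ z → κ z ≤ ε y := by
  rw [outE_lev hy, outE_lev hy, add_eq_of_deep hg m hκ (q := y) (by omega)]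
  constructor
  · intro h
    constructor
    · rintro ⟨z, hz, h1⟩
      exact h ⟨z, hz, by simp only [Pi.add_apply]; omega⟩
    · intro z hz hyz
      by_contra h1
      exact h ⟨z, hyz, by rw [add_eq_of_mem m hred hz]; omega⟩
  · rintro ⟨h1, h2⟩ ⟨z, hz, h3⟩
    by_cases h4 : z ∈ m.rst ε
    · rw [add_eq_of_mem m hred h4] at h3
      have := h2 z h4 hz
      omega
    · rw [add_eq_of_notMem m hκ h4] at h3
      exact h1 ⟨z, hz, h3⟩

include hg hκ hred in
lemma not_inE_lev {y : α} (hy : corank y = i) :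
    ¬ inE i (ε + κ) y ↔ ¬ inE i ε y ∧ ∀ x ∈ m.rst ε, x ⋖ y → κ x ≤ ε y := by
  rw [inE_lev hy, inE_lev hy, add_eq_of_deep hg m hκ (q := y) (by omega)]
  constructor
  · intro h
    constructor
    · rintro ⟨z, hz, h1⟩
      exact h ⟨z, hz, by simp only [Pi.add_apply]; omega⟩
    · intro z hz hyz
      by_contra h1
      exact h ⟨z, hyz, by rw [add_eq_of_mem m hred hz]; omega⟩
  · rintro ⟨h1, h2⟩ ⟨z, hz, h3⟩
    by_cases h4 : z ∈ m.rst ε
    · rw [add_eq_of_mem m hred h4] at h3
      have := h2 z h4 hz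
      omega
    · rw [add_eq_of_notMem m hκ h4] at h3
      exact h1 ⟨z, hz, h3⟩

/-- the constant part of the weight -/
noncomputable def Mat.cst (m : Mat α i) (ε : α → ℕ) : ℤ[X] :=
  ∏ p ∈ univ.filter (fun p : α => corank p ≠ i ∧ p ∉ m.rst ε), om (inE i ε p) (outE i ε p)

include hg hl hκ hred in
/-- **decomposition of the weight** -/
theorem tm_add : tm i (ε + κ) = m.cst ε * ∑ S ∈ (lev α i).powerset,
    if (∀ y ∈ S, ¬ outE i ε y) ∧ (∀ y ∈ lev α i \ S, ¬ inE i ε y) then
      (X - 1) ^ S.card * ∏ p ∈ m.rst ε, Om i ε S p (κ p) else 0 := by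
  rw [tm_eq_prod]
  have hdisj : Disjoint (lev α i) (m.rst ε) := by
    rw [Finset.disjoint_left]
    intro p hp hp'
    rw [mem_lev] at hp
    have := (m.rst_prop hp').2
    omega
  have huniv : (univ : Finset α) = (univ.filter fun p : α => corank p ≠ i ∧ p ∉ m.rst ε) ∪
      (lev α i ∪ m.rst ε) := by
    ext p
    rw [mem_union, mem_union, mem_filter, mem_lev]
    simp only [mem_univ, true_and, true_iff]
    tauto
  have hdisj2 : Disjoint (univ.filter fun p : α => corank p ≠ i ∧ p ∉ m.rst ε)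
      (lev α i ∪ m.rst ε) := by
    rw [Finset.disjoint_left]
    intro p hp hp'
    rw [mem_filter] at hp
    rw [mem_union, mem_lev] at hp'
    tauto
  rw [huniv, Finset.prod_union hdisj2, Finset.prod_union hdisj]
  have h1 : ∏ p ∈ univ.filter (fun p : α => corank p ≠ i ∧ p ∉ m.rst ε),
      om (inE i (ε + κ) p) (outE i (ε + κ) p) = m.cst ε := by
    unfold Mat.cst
    apply Finset.prod_congr rfl
    intro p hp
    rw [mem_filter] at hp
    rw [show inE i (ε + κ) p = inE i ε p from propext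
        (inE_other hg hl m hred hκ hp.2.1 hp.2.2),
      show outE i (ε + κ) p = outE i ε p from propext
        (outE_other hg hl m hred hκ hp.2.1 hp.2.2)]
  rw [h1, prod_om_eq, Finset.sum_mul]
  congr 1
  apply Finset.sum_congr rfl
  intro S hS
  rw [mem_powerset] at hS
  -- the product over the set of summation
  have h2 : ∏ p ∈ m.rst ε, Om i ε S p (κ p) =
      if (∀ p ∈ m.rst ε, (if corank p + 1 = i then (∀ y, y ⋖ p → y ∈ S → κ p ≤ ε y)
        else (∀ y, p ⋖ y → y ∉ S → κ p ≤ ε y))) then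
      ∏ p ∈ m.rst ε, om (inE i (ε + κ) p) (outE i (ε + κ) p) else 0 := by
    have h0 := prod_ite_zero' (m.rst ε)
      (fun p => if corank p + 1 = i then (∀ y, y ⋖ p → y ∈ S → κ p ≤ ε y)
        else (∀ y, p ⋖ y → y ∉ S → κ p ≤ ε y))
      (fun p => om (inE i (ε + κ) p) (outE i (ε + κ) p))
    refine Eq.trans ?_ h0
    apply Finset.prod_congr rfl
    intro p hp
    rw [om_rst hg hl m hred hκ hp]
    unfold Om OmZ OmX
    split_ifs <;> rfl
  rw [h2]
  have h3 : ((∀ y ∈ S, ¬ outE i (ε + κ) y) ∧ (∀ y ∈ lev α i \ S, ¬ inE i (ε + κ) y)) ↔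
      ((∀ y ∈ S, ¬ outE i ε y) ∧ (∀ y ∈ lev α i \ S, ¬ inE i ε y)) ∧
      (∀ p ∈ m.rst ε, (if corank p + 1 = i then (∀ y, y ⋖ p → y ∈ S → κ p ≤ ε y)
        else (∀ y, p ⋖ y → y ∉ S → κ p ≤ ε y))) := by
    constructor
    · rintro ⟨h4, h5⟩
      refine ⟨⟨?_, ?_⟩, ?_⟩
      · intro y hy
        exact ((not_outE_lev hg m hred hκ (mem_lev.1 (hS hy))).1 (h4 y hy)).1
      · intro y hy
        exact ((not_inE_lev hg m hred hκ (mem_lev.1 (mem_sdiff.1 hy).1)).1 (h5 y hy)).1
      · intro p hp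
        split_ifs with h6
        · intro y hy hyS
          exact ((not_outE_lev hg m hred hκ (mem_lev.1 (hS hyS))).1 (h4 y hyS)).2 p hp hy
        · intro y hy hyS
          have h7 := (m.rst_prop hp).2
          have h8 := hg p y hy
          have h9 : y ∈ lev α i \ S := by
            rw [mem_sdiff, mem_lev]
            exact ⟨by omega, hyS⟩
          exact ((not_inE_lev hg m hred hκ (by omega)).1 (h5 y h9)).2 p hp hy
    · rintro ⟨⟨h4, h5⟩, h6⟩
      constructor
      · intro y hy
        rw [not_outE_lev hg m hred hκ (mem_lev.1 (hS hy))]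
        refine ⟨h4 y hy, ?_⟩
        intro z hz hyz
        have h7 := h6 z hz
        have h8 := hg y z hyz
        have h9 := mem_lev.1 (hS hy)
        rw [if_pos (by omega)] at h7
        exact h7 y hyz hy
      · intro y hy
        rw [mem_sdiff, mem_lev] at hy
        rw [not_inE_lev hg m hred hκ hy.1]
        refine ⟨h5 y (by rw [mem_sdiff, mem_lev]; exact hy), ?_⟩
        intro x hx hxy
        have h7 := h6 x hx
        have h8 := hg x y hxy
        rw [if_neg (by omega)] at h7
        exact h7 y hxy hy.2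
  by_cases h4 : ((∀ y ∈ S, ¬ outE i ε y) ∧ (∀ y ∈ lev α i \ S, ¬ inE i ε y)) <;>
    by_cases h5 : (∀ p ∈ m.rst ε, (if corank p + 1 = i then (∀ y, y ⋖ p → y ∈ S → κ p ≤ ε y)
        else (∀ y, p ⋖ y → y ∉ S → κ p ≤ ε y)))
  · rw [if_pos (h3.2 ⟨h4, h5⟩), if_pos h4, if_pos h5]
  · rw [if_neg (fun h => h5 (h3.1 h).2), if_pos h4, if_neg h5]
    simp
  · rw [if_neg (fun h => h4 (h3.1 h).1), if_neg h4]
    simp
  · rw [if_neg (fun h => h4 (h3.1 h).1), if_neg h4]
    simp

end decomposition

end Pool.Gauss
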