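import Pool.Agent.Work.MP_065141_co.Engine

/-!
# The sum over unattached elements is divisible
-/

set_option autoImplicit false
set_option linter.unusedSectionVars false
open scoped Classical
open Finset Polynomial

namespace Pool.Gauss

variable {α : Type} [Fintype α] [PartialOrder α]

/-- the variable `φ` -/
noncomputable def phi (S : Finset α) (y : α) : ℤ[X] := if y ∈ S then X - 1 else -1

/-- evaluation at `φ` -/
noncomputable def EV (S : Finset α) : MvPolynomial α ℤ[X] →+* ℤ[X] := MvPolynomial.eval (phi S)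

lemma dvd_factor (g : ℕ) : (X : ℤ[X]) ∣ (X - 1) * (X - 1) ^ g + (-1) ^ g := by
  have h1 : ((X : ℤ[X]) - 1 - (-1)) ∣ (X - 1) ^ g - (-1) ^ g := sub_dvd_pow_sub_pow _ _ g
  have h2 : ((X : ℤ[X]) - 1 - (-1)) = X := by ring
  rw [h2] at h1
  obtain ⟨c, hc⟩ := h1
  refine ⟨(X - 1) ^ g - c, ?_⟩
  have h3 : (-1 : ℤ[X]) ^ g = (X - 1) ^ g - X * c := by rw [← hc]; ring
  rw [h3]
  ring

/-- sums of polynomials in `φ` are divisible -/
theorem dvd_sum_EV (P : MvPolynomial α ℤ[X]) (Y : Finset α) (a b : α → Prop) :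
    (X : ℤ[X]) ^ (Y.filter fun y => ¬ a y ∧ ¬ b y).card ∣ ∑ S ∈ Y.powerset,
      if (∀ y ∈ S, ¬ b y) ∧ (∀ y ∈ Y \ S, ¬ a y) then (X - 1) ^ S.card * EV S P else 0 := by
  have h1 : (∑ S ∈ Y.powerset,
      if (∀ y ∈ S, ¬ b y) ∧ (∀ y ∈ Y \ S, ¬ a y) then (X - 1) ^ S.card * EV S P else 0) =
      ∑ d ∈ P.support, (P.coeff d * ∏ y ∈ Yᶜ, (-1) ^ d y) * ∑ S ∈ Y.powerset,
      if (∀ y ∈ S, ¬ b y) ∧ (∀ y ∈ Y \ S, ¬ a y) then
        (X - 1) ^ S.card * ∏ y ∈ Y, phi S y ^ d y else (0 : ℤ[X]) := by
    simp_rw [Finset.mul_sum]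
    rw [Finset.sum_comm]
    apply Finset.sum_congr rfl
    intro S hS
    rw [mem_powerset] at hS
    split_ifs with h
    · unfold EV
      rw [MvPolynomial.eval_eq', Finset.mul_sum]
      apply Finset.sum_congr rfl
      intro d _
      rw [← Finset.prod_compl_mul_prod Y]
      have h2 : ∏ y ∈ Yᶜ, phi S y ^ d y = ∏ y ∈ Yᶜ, (-1) ^ d y := by
        apply Finset.prod_congr rfl
        intro y hy
        rw [mem_compl] at hy
        have : y ∉ S := fun h => hy (hS h)
        simp [phi, this]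
      rw [h2]
      ring
    · simp
  rw [h1]
  apply Finset.dvd_sum
  intro d _
  apply Dvd.dvd.mul_left
  have h2 : (∑ S ∈ Y.powerset,
      if (∀ y ∈ S, ¬ b y) ∧ (∀ y ∈ Y \ S, ¬ a y) then
        (X - 1) ^ S.card * ∏ y ∈ Y, phi S y ^ d y else (0 : ℤ[X])) =
      ∏ y ∈ Y, ((if b y then 0 else (X - 1) * (X - 1) ^ d y) + (if a y then 0 else (-1) ^ d y)) := by
    rw [Finset.prod_add]
    apply Finset.sum_congr rfl
    intro S hS
    rw [mem_powerset] at hS
    have h3 : ∏ y ∈ S, (if b y then (0 : ℤ[X]) else (X - 1) * (X - 1) ^ d y) =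
        if ∀ y ∈ S, ¬ b y then ∏ y ∈ S, ((X - 1) * (X - 1) ^ d y) else 0 := by
      refine Eq.trans ?_ (prod_ite_zero' S (fun y => ¬ b y) _)
      apply Finset.prod_congr rfl
      intro y _
      by_cases h : b y <;> simp [h]
    have h4 : ∏ y ∈ Y \ S, (if a y then (0 : ℤ[X]) else (-1) ^ d y) =
        if ∀ y ∈ Y \ S, ¬ a y then ∏ y ∈ Y \ S, (-1) ^ d y else 0 := by
      refine Eq.trans ?_ (prod_ite_zero' (Y \ S) (fun y => ¬ a y) _)
      apply Finset.prod_congr rfl
      intro y _
      by_cases h : a y <;> simp [h]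
    have h5 : ∏ y ∈ Y, phi S y ^ d y =
        (∏ y ∈ S, (X - 1) ^ d y) * ∏ y ∈ Y \ S, (-1) ^ d y := by
      rw [← Finset.prod_sdiff hS, mul_comm]
      congr 1
      · apply Finset.prod_congr rfl
        intro y hy
        simp [phi, hy]
      · apply Finset.prod_congr rfl
        intro y hy
        rw [mem_sdiff] at hy
        simp [phi, hy.2]
    rw [h3, h4, h5]
    by_cases h6 : ∀ y ∈ S, ¬ b y <;> by_cases h7 : ∀ y ∈ Y \ S, ¬ a y
    · rw [if_pos h6, if_pos h7, if_pos ⟨h6, h7⟩, Finset.prod_mul_distrib, prod_const]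
      ring
    · rw [if_neg h7, if_neg (fun h => h7 h.2), mul_zero]
    · rw [if_neg h6, if_neg (fun h => h6 h.1), zero_mul]
    · rw [if_neg h6, if_neg (fun h => h6 h.1), zero_mul]
  rw [h2, ← prod_const, ← Finset.prod_filter_mul_prod_filter_not Y (fun y => ¬ a y ∧ ¬ b y)]
  apply Dvd.dvd.mul_right
  apply Finset.prod_dvd_prod_of_dvd
  intro y hy
  rw [mem_filter] at hy
  rw [if_neg hy.2.1, if_neg hy.2.2]
  exact dvd_factor _

/-! ### generating functions of the elements next to level `i` -/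

section series

variable {R : Type} [CommRing R]

/-- `1 + q + ... + q^m` -/
noncomputable def sI (R : Type) [CommRing R] (m : ℕ) : PowerSeries R :=
  PowerSeries.mk fun j => if j ≤ m then 1 else 0

/-- `q^(m+1) + q^(m+2) + ...` -/
noncomputable def sJ (R : Type) [CommRing R] (m : ℕ) : PowerSeries R :=
  PowerSeries.mk fun j => if j ≤ m then 0 else 1

lemma map_sI {R' : Type} [CommRing R'] (f : R →+* R') (m : ℕ) :
    PowerSeries.map f (sI R m) = sI R' m := by
  ext j
  rw [PowerSeries.coeff_map, sI, sI, PowerSeries.coeff_mk, PowerSeries.coeff_mk]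
  split_ifs <;> simp

lemma map_sJ {R' : Type} [CommRing R'] (f : R →+* R') (m : ℕ) :
    PowerSeries.map f (sJ R m) = sJ R' m := by
  ext j
  rw [PowerSeries.coeff_map, sJ, sJ, PowerSeries.coeff_mk, PowerSeries.coeff_mk]
  split_ifs <;> simp

lemma mk_ite (m : ℕ) (a b : R) (f : ℕ → R) (h1 : ∀ j ≤ m, f j = a) (h2 : ∀ j, m < j → f j = b) :
    PowerSeries.mk f = PowerSeries.C a * sI R m + PowerSeries.C b * sJ R m := by
  ext j
  rw [map_add, PowerSeries.coeff_C_mul, PowerSeries.coeff_C_mul, sI, sJ, PowerSeries.coeff_mk,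
    PowerSeries.coeff_mk, PowerSeries.coeff_mk]
  by_cases h : j ≤ m
  · rw [if_pos h, if_pos h, h1 j h]
    ring
  · rw [if_neg h, if_neg h, h2 j (by omega)]
    ring

end series

variable {i : ℕ}

lemma Om_z {k : α → ℕ} {S : Finset α} {p : α} (h : corank p + 1 = i) :
    Om i k S p = OmZ k S p := by
  funext a
  simp [Om, h]

lemma Om_x {k : α → ℕ} {S : Finset α} {p : α} (h : corank p = i + 1) :
    Om i k S p = OmX k S p := by
  funext a
  unfold Om
  rw [if_neg (by omega)]

/-- the generating function of a matched pair is a polynomial in `φ` -/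
lemma pair_series (m : Mat α i) {e : α × α} (he : e ∈ m.M) (k : α → ℕ) :
    ∃ B : PowerSeries (MvPolynomial α ℤ[X]), ∀ S : Finset α, PowerSeries.map (EV S) B =
      PowerSeries.mk (Om i k S e.1) * PowerSeries.mk (Om i k S e.2) := by
  obtain ⟨y, y', hne, hz, hx, hk⟩ : ∃ y y', y ≠ y' ∧ (∀ t, t ⋖ e.1 ↔ t = y ∨ t = y') ∧
      (∀ t, e.2 ⋖ t ↔ t = y ∨ t = y') ∧ k y ≤ k y' := by
    obtain ⟨y, y', hne, hz, hx⟩ := m.two e he
    rcases le_total (k y) (k y') with h | h
    · exact ⟨y, y', hne, hz, hx, h⟩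
    · exact ⟨y', y, hne.symm, fun t => by rw [hz t, or_comm], fun t => by rw [hx t, or_comm], h⟩
  refine ⟨sI _ (k y) * (PowerSeries.C (MvPolynomial.C (X - 1)) * sI _ (k y') +
    PowerSeries.C (MvPolynomial.C (X - 1) + MvPolynomial.X y * MvPolynomial.X y') *
      sJ _ (k y')), ?_⟩
  intro S
  rw [Om_z (m.cz e he), Om_x (m.cx e he)]
  have hOZ : ∀ a, OmZ k S e.1 a = if (y ∈ S → a ≤ k y) ∧ (y' ∈ S → a ≤ k y') then
      (if a ≤ k y' then X - 1 else X) else 0 := by
    intro a
    unfold OmZ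
    have h1 : (∀ t, t ⋖ e.1 → t ∈ S → a ≤ k t) ↔ (y ∈ S → a ≤ k y) ∧ (y' ∈ S → a ≤ k y') := by
      constructor
      · intro h
        exact ⟨h y ((hz y).2 (Or.inl rfl)), h y' ((hz y').2 (Or.inr rfl))⟩
      · rintro ⟨h1, h2⟩ t ht
        rcases (hz t).1 ht with rfl | rfl
        · exact h1
        · exact h2
    have h2 : (∃ t, t ⋖ e.1 ∧ a ≤ k t) ↔ a ≤ k y' := by
      constructor
      · rintro ⟨t, ht, h⟩
        rcases (hz t).1 ht with rfl | rfl <;> omega
      · intro h
        exact ⟨y', (hz y').2 (Or.inr rfl), h⟩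
    simp only [h1, h2]
  have hOX : ∀ a, OmX k S e.2 a = if (y ∉ S → a ≤ k y) ∧ (y' ∉ S → a ≤ k y') then
      (if a ≤ k y' then 1 else X) else 0 := by
    intro a
    unfold OmX
    have h1 : (∀ t, e.2 ⋖ t → t ∉ S → a ≤ k t) ↔ (y ∉ S → a ≤ k y) ∧ (y' ∉ S → a ≤ k y') := by
      constructor
      · intro h
        exact ⟨h y ((hx y).2 (Or.inl rfl)), h y' ((hx y').2 (Or.inr rfl))⟩
      · rintro ⟨h1, h2⟩ t ht
        rcases (hx t).1 ht with rfl | rfl
        · exact h1
        · exact h2
    have h2 : (∃ t, e.2 ⋖ t ∧ a ≤ k t) ↔ a ≤ k y' := by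
      constructor
      · rintro ⟨t, ht, h⟩
        rcases (hx t).1 ht with rfl | rfl <;> omega
      · intro h
        exact ⟨y', (hx y').2 (Or.inr rfl), h⟩
    simp only [h1, h2]
  have hE : PowerSeries.map (EV S) (sI _ (k y) *
      (PowerSeries.C (MvPolynomial.C (X - 1)) * sI _ (k y') +
      PowerSeries.C (MvPolynomial.C (X - 1) + MvPolynomial.X y * MvPolynomial.X y') *
      sJ _ (k y'))) = sI _ (k y) * (PowerSeries.C (X - 1) * sI _ (k y') +
      PowerSeries.C ((X - 1) + phi S y * phi S y') * sJ _ (k y')) := by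
    rw [map_mul, map_add, map_mul, map_mul, map_sI, map_sI, map_sJ, PowerSeries.map_C,
      PowerSeries.map_C]
    simp [EV]
  rw [hE]
  by_cases h1 : y ∈ S <;> by_cases h2 : y' ∈ S
  · -- both in
    have hZ : PowerSeries.mk (OmZ k S e.1) = PowerSeries.C (X - 1) * sI _ (k y) := by
      have := mk_ite (k y) (X - 1) 0 (OmZ k S e.1) (fun j hj => by
        rw [hOZ, if_pos ⟨fun _ => hj, fun _ => by omega⟩, if_pos (by omega)]) (fun j hj => by
        rw [hOZ, if_neg (fun h => by have := h.1 h1; omega)])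
      rw [this]
      simp
    have hX : PowerSeries.mk (OmX k S e.2) = sI _ (k y') + PowerSeries.C X * sJ _ (k y') := by
      have := mk_ite (k y') 1 X (OmX k S e.2) (fun j hj => by
        rw [hOX, if_pos ⟨fun h => absurd h1 h, fun h => absurd h2 h⟩, if_pos hj]) (fun j hj => by
        rw [hOX, if_pos ⟨fun h => absurd h1 h, fun h => absurd h2 h⟩, if_neg (by omega)])
      rw [this]
      simp
    rw [hZ, hX]
    have h3 : (X - 1 : ℤ[X]) + phi S y * phi S y' = (X - 1) * X := by
      simp only [phi, if_pos h1, if_pos h2]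
      ring
    rw [h3, map_mul]
    ring
  · -- `y` in, `y'` out
    have hZ : PowerSeries.mk (OmZ k S e.1) = PowerSeries.C (X - 1) * sI _ (k y) := by
      have := mk_ite (k y) (X - 1) 0 (OmZ k S e.1) (fun j hj => by
        rw [hOZ, if_pos ⟨fun _ => hj, fun _ => by omega⟩, if_pos (by omega)]) (fun j hj => by
        rw [hOZ, if_neg (fun h => by have := h.1 h1; omega)])
      rw [this]
      simp
    have hX : PowerSeries.mk (OmX k S e.2) = sI _ (k y') := by
      have := mk_ite (k y') 1 0 (OmX k S e.2) (fun j hj => by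
        rw [hOX, if_pos ⟨fun h => absurd h1 h, fun _ => hj⟩, if_pos hj]) (fun j hj => by
        rw [hOX, if_neg (fun h => by have := h.2 h2; omega)])
      rw [this]
      simp
    rw [hZ, hX]
    have h3 : (X - 1 : ℤ[X]) + phi S y * phi S y' = 0 := by
      simp only [phi, if_pos h1, if_neg h2]
      ring
    rw [h3]
    simp
    ring
  · -- `y` out, `y'` in
    have hZ : PowerSeries.mk (OmZ k S e.1) = PowerSeries.C (X - 1) * sI _ (k y') := by
      have := mk_ite (k y') (X - 1) 0 (OmZ k S e.1) (fun j hj => by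
        rw [hOZ, if_pos ⟨fun h => absurd h h1, fun _ => hj⟩, if_pos hj]) (fun j hj => by
        rw [hOZ, if_neg (fun h => by have := h.2 h2; omega)])
      rw [this]
      simp
    have hX : PowerSeries.mk (OmX k S e.2) = sI _ (k y) := by
      have := mk_ite (k y) 1 0 (OmX k S e.2) (fun j hj => by
        rw [hOX, if_pos ⟨fun _ => hj, fun h => absurd h2 h⟩, if_pos (by omega)]) (fun j hj => by
        rw [hOX, if_neg (fun h => by have := h.1 h1; omega)])
      rw [this]
      simp
    rw [hZ, hX]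
    have h3 : (X - 1 : ℤ[X]) + phi S y * phi S y' = 0 := by
      simp only [phi, if_neg h1, if_pos h2]
      ring
    rw [h3]
    simp
    ring
  · -- both out
    have hZ : PowerSeries.mk (OmZ k S e.1) =
        PowerSeries.C (X - 1) * sI _ (k y') + PowerSeries.C X * sJ _ (k y') := by
      exact mk_ite (k y') (X - 1) X (OmZ k S e.1) (fun j hj => by
        rw [hOZ, if_pos ⟨fun h => absurd h h1, fun h => absurd h h2⟩, if_pos hj]) (fun j hj => by
        rw [hOZ, if_pos ⟨fun h => absurd h h1, fun h => absurd h h2⟩, if_neg (by omega)])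
    have hX : PowerSeries.mk (OmX k S e.2) = sI _ (k y) := by
      have := mk_ite (k y) 1 0 (OmX k S e.2) (fun j hj => by
        rw [hOX, if_pos ⟨fun _ => hj, fun _ => by omega⟩, if_pos (by omega)]) (fun j hj => by
        rw [hOX, if_neg (fun h => by have := h.1 h1; omega)])
      rw [this]
      simp
    rw [hZ, hX]
    have h3 : (X - 1 : ℤ[X]) + phi S y * phi S y' = X := by
      simp only [phi, if_neg h1, if_neg h2]
      ring
    rw [h3]
    ring

/-- the generating function of a single element is a polynomial in `φ` -/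
lemma single_series {p : α} (hp : sglZ i p ∨ sglX i p) (k : α → ℕ) :
    ∃ B : PowerSeries (MvPolynomial α ℤ[X]), ∀ S : Finset α, PowerSeries.map (EV S) B =
      PowerSeries.mk (Om i k S p) := by
  rcases hp with ⟨h0, y, hy⟩ | ⟨h0, y, hy⟩
  · refine ⟨PowerSeries.C (MvPolynomial.C (X - 1)) * sI _ (k y) +
      PowerSeries.C (MvPolynomial.C (X - 1) - MvPolynomial.X y) * sJ _ (k y), ?_⟩
    intro S
    have hE : PowerSeries.map (EV S) (PowerSeries.C (MvPolynomial.C (X - 1)) * sI _ (k y) +
        PowerSeries.C (MvPolynomial.C (X - 1) - MvPolynomial.X y) * sJ _ (k y)) =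
        PowerSeries.C (X - 1) * sI _ (k y) + PowerSeries.C ((X - 1) - phi S y) * sJ _ (k y) := by
      rw [map_add, map_mul, map_mul, map_sI, map_sJ, PowerSeries.map_C, PowerSeries.map_C]
      simp [EV]
    rw [hE, Om_z h0]
    have hOZ : ∀ a, OmZ k S p a = if (y ∈ S → a ≤ k y) then
        (if a ≤ k y then X - 1 else X) else 0 := by
      intro a
      unfold OmZ
      have h1 : (∀ t, t ⋖ p → t ∈ S → a ≤ k t) ↔ (y ∈ S → a ≤ k y) := by
        constructor
        · intro h
          exact h y ((hy y).2 rfl)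
        · intro h1 t ht
          rw [(hy t).1 ht]
          exact h1
      have h2 : (∃ t, t ⋖ p ∧ a ≤ k t) ↔ a ≤ k y := by
        constructor
        · rintro ⟨t, ht, h⟩
          rwa [(hy t).1 ht] at h
        · intro h
          exact ⟨y, (hy y).2 rfl, h⟩
      simp only [h1, h2]
    symm
    apply mk_ite
    · intro j hj
      rw [hOZ, if_pos (fun _ => hj), if_pos hj]
    · intro j hj
      rw [hOZ]
      by_cases h1 : y ∈ S
      · rw [if_neg (fun h => by have := h h1; omega)]
        simp [phi, h1]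
      · rw [if_pos (fun h => absurd h h1), if_neg (by omega)]
        simp [phi, h1]
  · refine ⟨PowerSeries.C 1 * sI _ (k y) +
      PowerSeries.C (1 + MvPolynomial.X y) * sJ _ (k y), ?_⟩
    intro S
    have hE : PowerSeries.map (EV S) (PowerSeries.C 1 * sI _ (k y) +
        PowerSeries.C (1 + MvPolynomial.X y) * sJ _ (k y)) =
        PowerSeries.C 1 * sI _ (k y) + PowerSeries.C (1 + phi S y) * sJ _ (k y) := by
      rw [map_add, map_mul, map_mul, map_sI, map_sJ, PowerSeries.map_C, PowerSeries.map_C]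
      simp [EV]
    rw [hE, Om_x h0]
    have hOX : ∀ a, OmX k S p a = if (y ∉ S → a ≤ k y) then
        (if a ≤ k y then 1 else X) else 0 := by
      intro a
      unfold OmX
      have h1 : (∀ t, p ⋖ t → t ∉ S → a ≤ k t) ↔ (y ∉ S → a ≤ k y) := by
        constructor
        · intro h
          exact h y ((hy y).2 rfl)
        · intro h1 t ht
          rw [(hy t).1 ht]
          exact h1
      have h2 : (∃ t, p ⋖ t ∧ a ≤ k t) ↔ a ≤ k y := by
        constructor
        · rintro ⟨t, ht, h⟩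
          rwa [(hy t).1 ht] at h
        · intro h
          exact ⟨y, (hy y).2 rfl, h⟩
      simp only [h1, h2]
    symm
    apply mk_ite
    · intro j hj
      rw [hOX, if_pos (fun _ => hj), if_pos hj]
    · intro j hj
      rw [hOX]
      by_cases h1 : y ∈ S
      · rw [if_pos (fun h => absurd h1 h), if_neg (by omega)]
        simp [phi, h1]
      · rw [if_neg (fun h => by have := h h1; omega)]
        simp [phi, h1]

/-! ### the product over the set of summation -/

lemma Mat.prod_rst (m : Mat α i) (ε : α → ℕ) {R : Type} [CommRing R] (f : α → R) :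
    ∏ p ∈ m.rst ε, f p = (∏ e ∈ m.free ε, f e.1 * f e.2) * ∏ p ∈ sgl i ε, f p := by
  unfold Mat.rst
  rw [Finset.prod_union, Finset.prod_union, Finset.prod_image, Finset.prod_image,
    Finset.prod_mul_distrib]
  · intro e he e' he' h
    exact m.inj2 e (mem_filter.1 he).1 e' (mem_filter.1 he').1 h
  · intro e he e' he' h
    exact m.inj1 e (mem_filter.1 he).1 e' (mem_filter.1 he').1 h
  · rw [Finset.disjoint_left]
    intro p hp hp'
    rw [mem_image] at hp hp'
    obtain ⟨e, he, rfl⟩ := hp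
    obtain ⟨e', he', h⟩ := hp'
    have h1 := m.cz e (mem_filter.1 he).1
    have h2 := m.cx e' (mem_filter.1 he').1
    rw [h] at h2
    omega
  · rw [Finset.disjoint_left]
    intro p hp hp'
    rw [mem_union, mem_image, mem_image] at hp
    unfold sgl at hp'
    rw [mem_filter] at hp'
    rcases hp with ⟨e, he, rfl⟩ | ⟨e, he, rfl⟩
    · have h1 := m.cz e (mem_filter.1 he).1
      obtain ⟨y, y', hne, hz, hx⟩ := m.two e (mem_filter.1 he).1
      rcases hp'.2.1 with ⟨h2, t, ht⟩ | ⟨h2, t, ht⟩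
      · have h3 := (ht y).1 ((hz y).2 (Or.inl rfl))
        have h4 := (ht y').1 ((hz y').2 (Or.inr rfl))
        exact hne (h3.trans h4.symm)
      · omega
    · have h1 := m.cx e (mem_filter.1 he).1
      obtain ⟨y, y', hne, hz, hx⟩ := m.two e (mem_filter.1 he).1
      rcases hp'.2.1 with ⟨h2, t, ht⟩ | ⟨h2, t, ht⟩
      · omega
      · have h3 := (ht y).1 ((hx y).2 (Or.inl rfl))
        have h4 := (ht y').1 ((hx y').2 (Or.inr rfl))
        exact hne (h3.trans h4.symm)

/-- the generating function of the set of summation is a polynomial in `φ` -/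
lemma Mat.rst_series (m : Mat α i) (ε : α → ℕ) (k : α → ℕ) :
    ∃ B : PowerSeries (MvPolynomial α ℤ[X]), ∀ S : Finset α, PowerSeries.map (EV S) B =
      ∏ p ∈ m.rst ε, PowerSeries.mk (Om i k S p) := by
  have h1 : ∀ e : α × α, ∃ B : PowerSeries (MvPolynomial α ℤ[X]), e ∈ m.M → ∀ S : Finset α,
      PowerSeries.map (EV S) B =
      PowerSeries.mk (Om i k S e.1) * PowerSeries.mk (Om i k S e.2) := by
    intro e
    by_cases he : e ∈ m.M
    · obtain ⟨B, hB⟩ := pair_series m he k
      exact ⟨B, fun _ => hB⟩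
    · exact ⟨0, fun h => absurd h he⟩
  have h2 : ∀ p : α, ∃ B : PowerSeries (MvPolynomial α ℤ[X]), (sglZ i p ∨ sglX i p) →
      ∀ S : Finset α, PowerSeries.map (EV S) B = PowerSeries.mk (Om i k S p) := by
    intro p
    by_cases hp : sglZ i p ∨ sglX i p
    · obtain ⟨B, hB⟩ := single_series hp k
      exact ⟨B, fun _ => hB⟩
    · exact ⟨0, fun h => absurd h hp⟩
  choose B1 hB1 using h1
  choose B2 hB2 using h2
  refine ⟨(∏ e ∈ m.free ε, B1 e) * ∏ p ∈ sgl i ε, B2 p, ?_⟩
  intro S
  rw [m.prod_rst ε (fun p => PowerSeries.mk (Om i k S p)), map_mul, map_prod, map_prod]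
  congr 1
  · apply Finset.prod_congr rfl
    intro e he
    exact hB1 e (mem_filter.1 he).1 S
  · apply Finset.prod_congr rfl
    intro p hp
    exact hB2 p (mem_filter.1 hp).2.1 S

/-- **the partial sums are divisible** -/
theorem Mat.dvd_partial (m : Mat α i) (hg : Grad α) (hl : HasLower α i) {ε : α → ℕ}
    (hred : ∀ p ∈ m.rst ε, ε p = 0) (N : ℕ) :
    (X : ℤ[X]) ^ (pkF i ε).card ∣ ∑ κ ∈ (m.rst ε).piAntidiag N, tm i (ε + κ) := by
  obtain ⟨B, hB⟩ := m.rst_series ε ε
  have h1 : ∑ κ ∈ (m.rst ε).piAntidiag N, tm i (ε + κ) =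
      m.cst ε * ∑ S ∈ (lev α i).powerset,
      if (∀ y ∈ S, ¬ outE i ε y) ∧ (∀ y ∈ lev α i \ S, ¬ inE i ε y) then
      (X - 1) ^ S.card * EV S (PowerSeries.coeff N B) else 0 := by
    have h2 : ∀ κ ∈ (m.rst ε).piAntidiag N, tm i (ε + κ) = m.cst ε * ∑ S ∈ (lev α i).powerset,
      if (∀ y ∈ S, ¬ outE i ε y) ∧ (∀ y ∈ lev α i \ S, ¬ inE i ε y) then
      (X - 1) ^ S.card * ∏ p ∈ m.rst ε, Om i ε S p (κ p) else 0 := by
      intro κ hκ
      rw [mem_piAntidiag] at hκ
      exact tm_add hg hl m hred hκ.2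
    rw [Finset.sum_congr rfl h2, ← Finset.mul_sum, Finset.sum_comm]
    congr 1
    apply Finset.sum_congr rfl
    intro S _
    split_ifs with h3
    · rw [← Finset.mul_sum, sum_piAntidiag_eq_coeff, ← hB S, PowerSeries.coeff_map]
    · simp
  rw [h1]
  -- split the free elements
  have h2 : (pkF i ε).card = ((univ.filter fun p : α => corank p ≠ i ∧ p ∉ m.rst ε).filter
      fun p => ¬ inE i ε p ∧ ¬ outE i ε p).card +
      ((lev α i).filter fun y => ¬ inE i ε y ∧ ¬ outE i ε y).card := by
    rw [← card_union_of_disjoint]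
    · congr 1
      ext p
      unfold pkF
      rw [mem_union, mem_filter, mem_filter, mem_filter, mem_filter, mem_lev]
      constructor
      · rintro ⟨_, h3⟩
        by_cases h4 : corank p = i
        · exact Or.inr ⟨h4, h3⟩
        · left
          refine ⟨⟨mem_univ _, h4, ?_⟩, h3⟩
          intro h5
          -- elements of the set of summation are not free
          have h6 := (m.rst_prop h5).2
          rcases h6 with h6 | h6
          · apply h3.1
            rw [inE_lt (by omega), hred p h5]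
            left
            omega
          · apply h3.2
            rw [outE_gt (by omega), hred p h5]
            obtain ⟨t, ht⟩ := exists_upper p (by omega)
            exact ⟨t, ht, Nat.zero_le _⟩
      · rintro (⟨_, h3⟩ | ⟨_, h3⟩)
        · exact ⟨mem_univ _, h3⟩
        · exact ⟨mem_univ _, h3⟩
    · rw [Finset.disjoint_left]
      intro p hp hp'
      rw [mem_filter, mem_filter] at hp
      rw [mem_filter, mem_lev] at hp'
      exact hp.1.2.1 hp'.1
  rw [h2, pow_add]
  apply mul_dvd_mul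
  · unfold Mat.cst
    rw [← Finset.prod_filter_mul_prod_filter_not _ (fun p => ¬ inE i ε p ∧ ¬ outE i ε p),
      ← prod_const]
    apply Dvd.dvd.mul_right
    apply Finset.prod_dvd_prod_of_dvd
    intro p hp
    rw [mem_filter] at hp
    unfold om
    rw [if_neg hp.2.1, if_neg hp.2.2]
  · exact dvd_sum_EV _ _ _ _

end Pool.Gauss
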