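import Pool.Agent.Work.MP_065141_co.Engine2

/-!
# The engine: only reduced energy functions with few free elements matter
-/

set_option autoImplicit false
set_option linter.unusedSectionVars false
open scoped Classical
open Finset Polynomial

namespace Pool.Gauss

variable {α : Type} [Fintype α] [PartialOrder α] {i : ℕ}

/-- reduced energy functions: zero on the set of summation -/
def Mat.Red (m : Mat α i) (ε : α → ℕ) : Prop := ∀ p ∈ m.rst ε, ε p = 0

lemma att_congr {ε ε' : α → ℕ} (hg : Grad α)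
    (h : ∀ q : α, corank q + 1 < i ∨ i + 1 < corank q → ε q = ε' q) (p : α) :
    att i ε p ↔ att i ε' p := by
  unfold att
  constructor
  · rintro (⟨h1, v, hv, h2⟩ | ⟨h1, w, hw, h2⟩)
    · have := hg p v hv
      rw [h v (by omega)] at h2
      exact Or.inl ⟨h1, v, hv, h2⟩
    · have := hg w p hw
      rw [h w (by omega)] at h2
      exact Or.inr ⟨h1, w, hw, h2⟩
  · rintro (⟨h1, v, hv, h2⟩ | ⟨h1, w, hw, h2⟩)
    · have := hg p v hv
      rw [← h v (by omega)] at h2
      exact Or.inl ⟨h1, v, hv, h2⟩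
    · have := hg w p hw
      rw [← h w (by omega)] at h2
      exact Or.inr ⟨h1, w, hw, h2⟩

lemma Mat.rst_congr (m : Mat α i) {ε ε' : α → ℕ} (hg : Grad α)
    (h : ∀ q : α, corank q + 1 < i ∨ i + 1 < corank q → ε q = ε' q) :
    m.rst ε = m.rst ε' := by
  have h1 : ∀ p, att i ε p ↔ att i ε' p := att_congr hg h
  unfold Mat.rst Mat.free sgl
  simp only [h1]

/-- the reduced part -/
noncomputable def Mat.red (m : Mat α i) (ε : α → ℕ) : α → ℕ :=
  fun p => if p ∈ m.rst ε then 0 else ε p

lemma Mat.rst_red (m : Mat α i) (hg : Grad α) (ε : α → ℕ) : m.rst (m.red ε) = m.rst ε := by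
  apply m.rst_congr hg
  intro q hq
  unfold Mat.red
  rw [if_neg]
  intro h
  have := (m.rst_prop h).2
  omega

lemma Mat.Red_red (m : Mat α i) (hg : Grad α) (ε : α → ℕ) : m.Red (m.red ε) := by
  intro p hp
  rw [m.rst_red hg] at hp
  unfold Mat.red
  rw [if_pos hp]

/-- regrouping of a sum according to the reduced parts -/
theorem Mat.sum_red (m : Mat α i) (hg : Grad α) (r : ℕ) (F : (α → ℕ) → ℤ[X]) :
    ∑ ε ∈ (univ : Finset α).piAntidiag r, F ε =
      ∑ s ∈ range (r + 1), ∑ ε ∈ ((univ : Finset α).piAntidiag s).filter (fun ε => m.Red ε),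
        ∑ κ ∈ (m.rst ε).piAntidiag (r - s), F (ε + κ) := by
  rw [Finset.sum_congr rfl fun s _ => Finset.sum_sigma' _ _ _, Finset.sum_sigma']
  symm
  refine Finset.sum_bij' (fun x _ => x.2.1 + x.2.2)
    (fun ε _ => ⟨∑ p, m.red ε p, m.red ε, ε - m.red ε⟩) ?_ ?_ ?_ ?_ ?_
  · rintro ⟨s, ε, κ⟩ hx
    rw [mem_sigma, mem_sigma, mem_filter, mem_piAntidiag, mem_piAntidiag, mem_range] at hx
    obtain ⟨h1, ⟨h2, h3⟩, h4, h5⟩ := hx
    simp only at h1 h2 h3 h4 h5
    rw [mem_piAntidiag]
    refine ⟨?_, fun _ _ => mem_univ _⟩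
    simp only [Pi.add_apply]
    rw [Finset.sum_add_distrib, h2.1]
    have h6 : ∑ p, κ p = ∑ p ∈ m.rst ε, κ p := by
      symm
      apply Finset.sum_subset (subset_univ _)
      intro p _ hp
      by_contra h
      exact hp (h5 p h)
    rw [h6, h4]
    omega
  · intro ε hε
    rw [mem_piAntidiag] at hε
    have h1 : ∀ p, m.red ε p ≤ ε p := by
      intro p
      unfold Mat.red
      split_ifs <;> omega
    have h2 : ∑ p, m.red ε p ≤ r := by
      rw [← hε.1]
      exact Finset.sum_le_sum fun p _ => h1 p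
    rw [mem_sigma, mem_sigma, mem_filter, mem_piAntidiag, mem_piAntidiag, mem_range]
    refine ⟨by simp only; omega, ⟨⟨rfl, fun _ _ => mem_univ _⟩, m.Red_red hg ε⟩, ?_, ?_⟩
    · simp only
      rw [m.rst_red hg]
      have h3 : ∑ p ∈ m.rst ε, (ε - m.red ε) p = ∑ p, (ε - m.red ε) p := by
        apply Finset.sum_subset (subset_univ _)
        intro p _ hp
        simp [Mat.red, hp]
      rw [h3]
      have h4 : ∑ p, (ε - m.red ε) p + ∑ p, m.red ε p = r := by
        rw [← Finset.sum_add_distrib, ← hε.1]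
        apply Finset.sum_congr rfl
        intro p _
        have := h1 p
        simp only [Pi.sub_apply]
        omega
      omega
    · intro p hp
      simp only
      rw [m.rst_red hg]
      by_contra h
      apply hp
      simp [Mat.red, h]
  · rintro ⟨s, ε, κ⟩ hx
    rw [mem_sigma, mem_sigma, mem_filter, mem_piAntidiag, mem_piAntidiag, mem_range] at hx
    obtain ⟨h1, ⟨h2, h3⟩, h4, h5⟩ := hx
    simp only at h1 h2 h3 h4 h5
    have h6 : m.rst (ε + κ) = m.rst ε := by
      apply m.rst_congr hg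
      intro q hq
      have : κ q = 0 := by
        by_contra h
        have := (m.rst_prop (h5 q h)).2
        omega
      simp [this]
    have h7 : m.red (ε + κ) = ε := by
      funext p
      unfold Mat.red
      rw [h6]
      split_ifs with h
      · exact (h3 p h).symm
      · have : κ p = 0 := by
          by_contra h'
          exact h (h5 p h')
        simp [this]
    have h8 : ε + κ - m.red (ε + κ) = κ := by
      rw [h7]
      funext p
      simp
    simp only
    rw [h8, h7, h2.1]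
  · intro ε _
    funext p
    simp only [Pi.add_apply, Pi.sub_apply]
    unfold Mat.red
    split_ifs <;> omega
  · rintro ⟨s, ε, κ⟩ _
    rfl

/-- adding energies on the set of summation to a bad energy function gives weight zero -/
lemma Mat.tm_eq_zero (m : Mat α i) (hg : Grad α) (hl : HasLower α i) {ε κ : α → ℕ}
    (hred : m.Red ε) (hκ : ∀ p, κ p ≠ 0 → p ∈ m.rst ε) (hbad : ¬ GoodE i ε) :
    tm i (ε + κ) = 0 := by
  rw [tm_add hg hl m hred hκ]
  unfold GoodE at hbad
  push Not at hbad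
  obtain ⟨p, h1, h2⟩ := hbad
  by_cases hp : corank p = i
  · rw [Finset.sum_eq_zero, mul_zero]
    intro S hS
    rw [if_neg]
    rintro ⟨h3, h4⟩
    by_cases h5 : p ∈ S
    · exact h3 p h5 h2
    · exact h4 p (by rw [mem_sdiff, mem_lev]; exact ⟨hp, h5⟩) h1
  · by_cases hp' : p ∈ m.rst ε
    · exfalso
      obtain ⟨h3, h4⟩ := m.rst_prop hp'
      have h5 := hred p hp'
      rcases h4 with h4 | h4
      · rw [outE_le (by omega)] at h2
        obtain ⟨v, hv, h6⟩ := h2
        exact h3 (Or.inl ⟨h4, v, hv, by omega⟩)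
      · rw [inE_ge (by omega)] at h1
        obtain ⟨v, hv, h6⟩ := h1
        exact h3 (Or.inr ⟨h4, v, hv, by omega⟩)
    · have : m.cst ε = 0 := by
        unfold Mat.cst
        apply Finset.prod_eq_zero (i := p)
        · rw [mem_filter]
          exact ⟨mem_univ _, hp, hp'⟩
        · simp [om, h1, h2]
      rw [this, zero_mul]

/-- **the engine** -/
theorem Mat.engine (m : Mat α i) {h : Fin (Fintype.card α) → ℕ} (hG : IsGaussianWith α h)
    (hl : HasLower α i) (r n : ℕ) (hn : (lev α i).card = n) (hn2 : 2 ≤ n)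
    (hclass : ∀ ε : α → ℕ, GoodE i ε → m.Red ε → ∑ p, ε p ≤ r → (pkF i ε).card + 2 ≤ n →
      ∑ p, ε p = r ∧ (pkF i ε).card + 2 = n) :
    ∑ ε ∈ ((univ : Finset α).piAntidiag r).filter
      (fun ε => m.Red ε ∧ GoodE i ε ∧ (pkF i ε).card + 2 = n),
      (-1 : ℤ) ^ (inF i ε).card = 0 := by
  have hg := grad hG
  have h1 := root_mult_energy hG hg i r
  rw [m.sum_red hg, hn] at h1
  have h2 : (X : ℤ[X]) ^ (n - 1) ∣ ∑ s ∈ range (r + 1),
      ∑ ε ∈ ((univ : Finset α).piAntidiag s).filter (fun ε => m.Red ε),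
        ∑ κ ∈ (m.rst ε).piAntidiag (r - s), tm i (ε + κ) :=
    (pow_dvd_pow _ (by omega)).trans h1
  -- the terms which are not in the list are divisible
  have h3 : ∀ s ∈ range (r + 1),
      ∀ ε ∈ ((univ : Finset α).piAntidiag s).filter (fun ε => m.Red ε),
      ¬ (s = r ∧ GoodE i ε ∧ (pkF i ε).card + 2 = n) →
      (X : ℤ[X]) ^ (n - 1) ∣ ∑ κ ∈ (m.rst ε).piAntidiag (r - s), tm i (ε + κ) := by
    intro s hs ε hε hne
    rw [mem_filter, mem_piAntidiag] at hε
    rw [mem_range] at hs
    by_cases hgood : GoodE i ε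
    · have h4 : n - 1 ≤ (pkF i ε).card := by
        by_contra h5
        have h6 := hclass ε hgood hε.2 (by rw [hε.1.1]; omega) (by omega)
        exact hne ⟨by rw [← h6.1, hε.1.1], hgood, h6.2⟩
      exact (pow_dvd_pow _ h4).trans (m.dvd_partial hg hl hε.2 _)
    · rw [Finset.sum_eq_zero]
      · exact dvd_zero _
      · intro κ hκ
        rw [mem_piAntidiag] at hκ
        exact m.tm_eq_zero hg hl hε.2 hκ.2 hgood
  have h4 : (X : ℤ[X]) ^ (n - 1) ∣ ∑ ε ∈ ((univ : Finset α).piAntidiag r).filter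
      (fun ε => m.Red ε ∧ GoodE i ε ∧ (pkF i ε).card + 2 = n), tm i ε := by
    rw [Finset.sum_range_succ] at h2
    rw [← Finset.sum_filter_add_sum_filter_not
      (((univ : Finset α).piAntidiag r).filter (fun ε => m.Red ε))
      (fun ε => GoodE i ε ∧ (pkF i ε).card + 2 = n)] at h2
    have h5 : ∀ s ∈ range r, (X : ℤ[X]) ^ (n - 1) ∣
        ∑ ε ∈ ((univ : Finset α).piAntidiag s).filter (fun ε => m.Red ε),
        ∑ κ ∈ (m.rst ε).piAntidiag (r - s), tm i (ε + κ) := by
      intro s hs
      rw [mem_range] at hs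
      apply Finset.dvd_sum
      intro ε hε
      exact h3 s (mem_range.2 (by omega)) ε hε (fun h => by omega)
    have h6 := (Nat.dvd_refl 0)
    have h7 := Finset.dvd_sum h5
    have h8 := (dvd_add_right h7).1 h2
    have h9 : (X : ℤ[X]) ^ (n - 1) ∣ ∑ ε ∈ (((univ : Finset α).piAntidiag r).filter
        (fun ε => m.Red ε)).filter (fun ε => ¬ (GoodE i ε ∧ (pkF i ε).card + 2 = n)),
        ∑ κ ∈ (m.rst ε).piAntidiag (r - r), tm i (ε + κ) := by
      apply Finset.dvd_sum
      intro ε hε
      rw [mem_filter] at hε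
      exact h3 r (mem_range.2 (by omega)) ε hε.1 (fun h => hε.2 h.2)
    have h10 := (dvd_add_left h9).1 h8
    convert h10 using 1
    rw [Finset.filter_filter]
    apply Finset.sum_congr rfl
    intro ε _
    rw [Nat.sub_self, piAntidiag_zero, Finset.sum_singleton, add_zero]
  have h5 : ∑ ε ∈ ((univ : Finset α).piAntidiag r).filter
      (fun ε => m.Red ε ∧ GoodE i ε ∧ (pkF i ε).card + 2 = n), tm i ε =
      X ^ (n - 2) * ∑ ε ∈ ((univ : Finset α).piAntidiag r).filter
      (fun ε => m.Red ε ∧ GoodE i ε ∧ (pkF i ε).card + 2 = n), (X - 1) ^ (inF i ε).card := by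
    rw [Finset.mul_sum]
    apply Finset.sum_congr rfl
    intro ε hε
    rw [mem_filter] at hε
    unfold tm
    rw [if_pos hε.2.2.1, mul_comm]
    congr 2
    have := hε.2.2.2
    omega
  rw [h5] at h4
  have h6 : (X : ℤ[X]) ^ (n - 1) = X ^ (n - 2) * X := by
    rw [← pow_succ]
    congr 1
    omega
  rw [h6] at h4
  have h7 := (mul_dvd_mul_iff_left (pow_ne_zero (n - 2) (X_ne_zero (R := ℤ)))).1 h4
  obtain ⟨c, hc⟩ := h7
  have h8 := congrArg (Polynomial.eval 0) hc
  rw [eval_finsetSum, eval_mul, eval_X, zero_mul] at h8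
  simp only [eval_pow, eval_sub, eval_X, eval_one, zero_sub] at h8
  exact h8

end Pool.Gauss
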