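import Pool.Agent.Work.MP_065141_co.Engine3

/-!
# The engine with `s` missing factors
-/

set_option autoImplicit false
set_option linter.unusedSectionVars false
open scoped Classical
open Finset Polynomial

namespace Pool.Gauss

variable {α : Type} [Fintype α] [PartialOrder α] {i : ℕ}

/-- **the engine**, with `s` missing factors -/
theorem Mat.engine_s (m : Mat α i) {h : Fin (Fintype.card α) → ℕ} (hG : IsGaussianWith α h)
    (hl : HasLower α i) (r n : ℕ) (hn : (lev α i).card = n) (s0 : ℕ) (hs1 : 1 ≤ s0) (hn2 : s0 ≤ n)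
    (hclass : ∀ ε : α → ℕ, GoodE i ε → m.Red ε → ∑ p, ε p ≤ r → (pkF i ε).card + s0 ≤ n →
      ∑ p, ε p = r ∧ (pkF i ε).card + s0 = n) :
    ∑ ε ∈ ((univ : Finset α).piAntidiag r).filter
      (fun ε => m.Red ε ∧ GoodE i ε ∧ (pkF i ε).card + s0 = n),
      (-1 : ℤ) ^ (inF i ε).card = 0 := by
  have hg := grad hG
  have h1 := root_mult_energy hG hg i r
  rw [m.sum_red hg, hn] at h1
  have h2 : (X : ℤ[X]) ^ (n - s0 + 1) ∣ ∑ s ∈ range (r + 1),
      ∑ ε ∈ ((univ : Finset α).piAntidiag s).filter (fun ε => m.Red ε),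
        ∑ κ ∈ (m.rst ε).piAntidiag (r - s), tm i (ε + κ) :=
    (pow_dvd_pow _ (by omega)).trans h1
  -- the terms which are not in the list are divisible
  have h3 : ∀ s ∈ range (r + 1),
      ∀ ε ∈ ((univ : Finset α).piAntidiag s).filter (fun ε => m.Red ε),
      ¬ (s = r ∧ GoodE i ε ∧ (pkF i ε).card + s0 = n) →
      (X : ℤ[X]) ^ (n - s0 + 1) ∣ ∑ κ ∈ (m.rst ε).piAntidiag (r - s), tm i (ε + κ) := by
    intro s hs ε hε hne
    rw [mem_filter, mem_piAntidiag] at hε
    rw [mem_range] at hs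
    by_cases hgood : GoodE i ε
    · have h4 : n - s0 + 1 ≤ (pkF i ε).card := by
        by_contra h5
        have h6 := hclass ε hgood hε.2 (by rw [hε.1.1]; omega) (by omega)
        exact hne ⟨by rw [← h6.1, hε.1.1], hgood, h6.2⟩
      exact (pow_dvd_pow _ h4).trans (m.dvd_partial hg hl hε.2 _)
    · rw [Finset.sum_eq_zero]
      · exact dvd_zero _
      · intro κ hκ
        rw [mem_piAntidiag] at hκ
        exact m.tm_eq_zero hg hl hε.2 hκ.2 hgood
  have h4 : (X : ℤ[X]) ^ (n - s0 + 1) ∣ ∑ ε ∈ ((univ : Finset α).piAntidiag r).filter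
      (fun ε => m.Red ε ∧ GoodE i ε ∧ (pkF i ε).card + s0 = n), tm i ε := by
    rw [Finset.sum_range_succ] at h2
    rw [← Finset.sum_filter_add_sum_filter_not
      (((univ : Finset α).piAntidiag r).filter (fun ε => m.Red ε))
      (fun ε => GoodE i ε ∧ (pkF i ε).card + s0 = n)] at h2
    have h5 : ∀ s ∈ range r, (X : ℤ[X]) ^ (n - s0 + 1) ∣
        ∑ ε ∈ ((univ : Finset α).piAntidiag s).filter (fun ε => m.Red ε),
        ∑ κ ∈ (m.rst ε).piAntidiag (r - s), tm i (ε + κ) := by
      intro s hs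
      rw [mem_range] at hs
      apply Finset.dvd_sum
      intro ε hε
      exact h3 s (mem_range.2 (by omega)) ε hε (fun h => by omega)
    have h6 := (Nat.dvd_refl 0)
    have h7 := Finset.dvd_sum h5
    have h8 := (dvd_add_right h7).1 h2
    have h9 : (X : ℤ[X]) ^ (n - s0 + 1) ∣ ∑ ε ∈ (((univ : Finset α).piAntidiag r).filter
        (fun ε => m.Red ε)).filter (fun ε => ¬ (GoodE i ε ∧ (pkF i ε).card + s0 = n)),
        ∑ κ ∈ (m.rst ε).piAntidiag (r - r), tm i (ε + κ) := by
      apply Finset.dvd_sum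
      intro ε hε
      rw [mem_filter] at hε
      exact h3 r (mem_range.2 (by omega)) ε hε.1 (fun h => hε.2 h.2)
    have h10 := (dvd_add_left h9).1 h8
    convert h10 using 1
    rw [Finset.filter_filter]
    apply Finset.sum_congr rfl
    intro ε _
    rw [Nat.sub_self, piAntidiag_zero, Finset.sum_singleton, add_zero]
  have h5 : ∑ ε ∈ ((univ : Finset α).piAntidiag r).filter
      (fun ε => m.Red ε ∧ GoodE i ε ∧ (pkF i ε).card + s0 = n), tm i ε =
      X ^ (n - s0) * ∑ ε ∈ ((univ : Finset α).piAntidiag r).filter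
      (fun ε => m.Red ε ∧ GoodE i ε ∧ (pkF i ε).card + s0 = n), (X - 1) ^ (inF i ε).card := by
    rw [Finset.mul_sum]
    apply Finset.sum_congr rfl
    intro ε hε
    rw [mem_filter] at hε
    unfold tm
    rw [if_pos hε.2.2.1, mul_comm]
    congr 2
    have := hε.2.2.2
    omega
  rw [h5] at h4
  have h6 : (X : ℤ[X]) ^ (n - s0 + 1) = X ^ (n - s0) * X := by
    rw [← pow_succ]
  rw [h6] at h4
  have h7 := (mul_dvd_mul_iff_left (pow_ne_zero (n - s0) (X_ne_zero (R := ℤ)))).1 h4
  obtain ⟨c, hc⟩ := h7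
  have h8 := congrArg (Polynomial.eval 0) hc
  rw [eval_finsetSum, eval_mul, eval_X, zero_mul] at h8
  simp only [eval_pow, eval_sub, eval_X, eval_one, zero_sub] at h8
  exact h8

end Pool.Gauss
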