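import Pool.Agent.Work.MP_065141_co.RelE

/-!
# Coordinates on the top levels and their extension
-/

set_option autoImplicit false
set_option linter.unusedSectionVars false
open scoped Classical
open Finset

namespace Pool.Gauss

variable {α : Type} [Fintype α] [PartialOrder α]

/-- `f` gives coordinates on the levels `0, ..., i`: cells `(c, d)` of the region `R` with
`c + d ≤ i`; the lower covers of `(c, d)` are `(c + 1, d)` and `(c, d + 1)` -/
structure Top (R : ℕ → ℕ → Prop) (i : ℕ) (f : ℕ → ℕ → α) : Prop where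
  cor : ∀ c d, R c d → c + d ≤ i → corank (f c d) = c + d
  inj : ∀ c d c' d', R c d → R c' d' → c + d ≤ i → c' + d' ≤ i → f c d = f c' d' →
    c = c' ∧ d = d'
  sur : ∀ x : α, corank x ≤ i → ∃ c d, R c d ∧ c + d = corank x ∧ f c d = x
  cov : ∀ c d c' d', R c d → R c' d' → c + d ≤ i → c' + d' ≤ i →
    (f c' d' ⋖ f c d ↔ (c' = c + 1 ∧ d' = d) ∨ (c' = c ∧ d' = d + 1))

/-- the rectangle -/
def Rct (a b : ℕ) (c d : ℕ) : Prop := c < a ∧ d < b

/-- the shifted staircase -/
def Stc (N : ℕ) (c d : ℕ) : Prop := c ≤ d ∧ d < N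

/-- `(c', d')` is the only parent cell of `(c, d)` in the region -/
def OneP (R : ℕ → ℕ → Prop) (c d c' d' : ℕ) : Prop :=
  R c d ∧ R c' d' ∧ ((c = c' + 1 ∧ d = d' ∧ ∀ e, d = e + 1 → ¬ R c e) ∨
    (c = c' ∧ d = d' + 1 ∧ ∀ e, c = e + 1 → ¬ R e d))

namespace Top

variable {R : ℕ → ℕ → Prop} {i : ℕ} {f : ℕ → ℕ → α}

lemma mono (hT : Top R i f) {j : ℕ} (hj : j ≤ i) : Top R j f where
  cor c d h1 h2 := hT.cor c d h1 (by omega)
  inj c d c' d' h1 h2 h3 h4 h5 := hT.inj c d c' d' h1 h2 (by omega) (by omega) h5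
  sur x hx := hT.sur x (by omega)
  cov c d c' d' h1 h2 h3 h4 := hT.cov c d c' d' h1 h2 (by omega) (by omega)

/-- the region may be changed outside the levels in question -/
lemma congr_region {R' : ℕ → ℕ → Prop} (hT : Top R i f)
    (h : ∀ c d, c + d ≤ i → (R c d ↔ R' c d)) : Top R' i f where
  cor c d h1 h2 := hT.cor c d ((h c d h2).2 h1) h2
  inj c d c' d' h1 h2 h3 h4 h5 := hT.inj c d c' d' ((h c d h3).2 h1) ((h c' d' h4).2 h2) h3 h4 h5
  sur x hx := by
    obtain ⟨c, d, h1, h2, h3⟩ := hT.sur x hx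
    exact ⟨c, d, (h c d (by omega)).1 h1, h2, h3⟩
  cov c d c' d' h1 h2 h3 h4 := hT.cov c d c' d' ((h c d h3).2 h1) ((h c' d' h4).2 h2) h3 h4

/-- exchange of the two coordinates -/
lemma swap (hT : Top R i f) : Top (fun c d => R d c) i (fun c d => f d c) where
  cor c d h1 h2 := by rw [hT.cor d c h1 (by omega)]; omega
  inj c d c' d' h1 h2 h3 h4 h5 := by
    have := hT.inj d c d' c' h1 h2 (by omega) (by omega) h5
    exact ⟨this.2, this.1⟩
  sur x hx := by
    obtain ⟨c, d, h1, h2, h3⟩ := hT.sur x hx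
    exact ⟨d, c, h1, by omega, h3⟩
  cov c d c' d' h1 h2 h3 h4 := by
    rw [hT.cov d c d' c' h1 h2 (by omega) (by omega)]
    tauto

/-- upper covers in coordinates -/
lemma mem_Pr (C : Ctx α) (hT : Top R i f) {c d : ℕ} (h : R c d) (hi : c + d ≤ i) {y : α} :
    y ∈ Pr (f c d) ↔ (∃ e, c = e + 1 ∧ R e d ∧ y = f e d) ∨ (∃ e, d = e + 1 ∧ R c e ∧ y = f c e) := by
  rw [Pool.Gauss.mem_Pr]
  constructor
  · intro hy
    have h1 := C.cork hy
    rw [hT.cor c d h hi] at h1
    obtain ⟨c', d', h2, h3, rfl⟩ := hT.sur y (by omega)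
    rw [hT.cov c' d' c d h2 h (by omega) hi] at hy
    rcases hy with ⟨rfl, rfl⟩ | ⟨rfl, rfl⟩
    · exact Or.inl ⟨c', rfl, h2, rfl⟩
    · exact Or.inr ⟨d', rfl, h2, rfl⟩
  · rintro (⟨e, rfl, h2, rfl⟩ | ⟨e, rfl, h2, rfl⟩)
    · rw [hT.cov e d (e + 1) d h2 h (by omega) hi]
      exact Or.inl ⟨rfl, rfl⟩
    · rw [hT.cov c e c (e + 1) h2 h (by omega) hi]
      exact Or.inr ⟨rfl, rfl⟩

/-- lower covers in coordinates -/
lemma mem_Ch (C : Ctx α) (hT : Top R i f) {c d : ℕ} (h : R c d) (hi : c + d < i) {x : α} :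
    x ∈ Ch (f c d) ↔ (R (c + 1) d ∧ x = f (c + 1) d) ∨ (R c (d + 1) ∧ x = f c (d + 1)) := by
  rw [Pool.Gauss.mem_Ch]
  constructor
  · intro hx
    have h1 := C.cork hx
    rw [hT.cor c d h (by omega)] at h1
    obtain ⟨c', d', h2, h3, rfl⟩ := hT.sur x (by omega)
    rw [hT.cov c d c' d' h h2 (by omega) (by omega)] at hx
    rcases hx with ⟨rfl, rfl⟩ | ⟨rfl, rfl⟩
    · exact Or.inl ⟨h2, rfl⟩
    · exact Or.inr ⟨h2, rfl⟩
  · rintro (⟨h2, rfl⟩ | ⟨h2, rfl⟩)
    · rw [hT.cov c d (c + 1) d h h2 (by omega) (by omega)]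
      exact Or.inl ⟨rfl, rfl⟩
    · rw [hT.cov c d c (d + 1) h h2 (by omega) (by omega)]
      exact Or.inr ⟨rfl, rfl⟩

/-- number of upper covers in coordinates -/
lemma card_Pr (C : Ctx α) (hT : Top R i f) {c d : ℕ} (h : R c d) (hi : c + d ≤ i) :
    (Pr (f c d)).card = (if ∃ e, c = e + 1 ∧ R e d then 1 else 0) +
      (if ∃ e, d = e + 1 ∧ R c e then 1 else 0) := by
  have h1 : Pr (f c d) = (if ∃ e, c = e + 1 ∧ R e d then {f (c - 1) d} else ∅) ∪
      (if ∃ e, d = e + 1 ∧ R c e then {f c (d - 1)} else ∅) := by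
    ext y
    rw [hT.mem_Pr C h hi, mem_union]
    apply or_congr
    · split_ifs with h2
      · rw [mem_singleton]
        constructor
        · rintro ⟨e, rfl, _, rfl⟩
          rfl
        · intro hy
          obtain ⟨e, rfl, h3⟩ := h2
          exact ⟨e, rfl, h3, hy⟩
      · constructor
        · rintro ⟨e, h3, h4, _⟩
          exact absurd ⟨e, h3, h4⟩ h2
        · intro hy
          exact absurd hy (notMem_empty _)
    · split_ifs with h2
      · rw [mem_singleton]
        constructor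
        · rintro ⟨e, rfl, _, rfl⟩
          rfl
        · intro hy
          obtain ⟨e, rfl, h3⟩ := h2
          exact ⟨e, rfl, h3, hy⟩
      · constructor
        · rintro ⟨e, h3, h4, _⟩
          exact absurd ⟨e, h3, h4⟩ h2
        · intro hy
          exact absurd hy (notMem_empty _)
  rw [h1]
  split_ifs with h2 h3 h3
  · rw [card_union_of_disjoint, card_singleton, card_singleton]
    rw [disjoint_singleton]
    intro h4
    obtain ⟨e, rfl, h5⟩ := h2
    obtain ⟨e', rfl, h6⟩ := h3
    have := hT.inj _ _ _ _ h5 h6 (by omega) (by omega) h4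
    omega
  · simp
  · simp
  · simp

/-- number of lower covers in coordinates -/
lemma card_Ch (C : Ctx α) (hT : Top R i f) {c d : ℕ} (h : R c d) (hi : c + d < i) :
    (Ch (f c d)).card = (if R (c + 1) d then 1 else 0) + (if R c (d + 1) then 1 else 0) := by
  have h1 : Ch (f c d) = (if R (c + 1) d then {f (c + 1) d} else ∅) ∪
      (if R c (d + 1) then {f c (d + 1)} else ∅) := by
    ext y
    rw [hT.mem_Ch C h hi, mem_union]
    apply or_congr
    · split_ifs with h2
      · rw [mem_singleton]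
        tauto
      · simp [h2]
    · split_ifs with h2
      · rw [mem_singleton]
        tauto
      · simp [h2]
  rw [h1]
  split_ifs with h2 h3 h3
  · rw [card_union_of_disjoint, card_singleton, card_singleton]
    rw [disjoint_singleton]
    intro h4
    have := hT.inj _ _ _ _ h2 h3 (by omega) (by omega) h4
    omega
  · simp
  · simp
  · simp

/-- the region has enough cells -/
lemma exists_cell (hT : Top R i f) (C : Ctx α) {j : ℕ} (hj : j ≤ i) (hj' : j < HT α) :
    ∃ c d, R c d ∧ c + d = j := by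
  obtain ⟨x, hx⟩ := C.exists_lev hj'
  obtain ⟨c, d, h1, h2, _⟩ := hT.sur x (by omega)
  exact ⟨c, d, h1, by omega⟩

/-- sizes of the levels -/
lemma sz_eq (hT : Top R i f) {j : ℕ} (hj : j ≤ i) :
    sz α j = ((range (j + 1)).filter fun c => R c (j - c)).card := by
  unfold sz
  symm
  refine Finset.card_bij (fun c _ => f c (j - c)) ?_ ?_ ?_
  · intro c hc
    rw [mem_filter, mem_range] at hc
    rw [mem_lev, hT.cor c (j - c) hc.2 (by omega)]
    omega
  · intro c hc c' hc' h
    rw [mem_filter, mem_range] at hc hc'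
    exact (hT.inj _ _ _ _ hc.2 hc'.2 (by omega) (by omega) h).1
  · intro x hx
    rw [mem_lev] at hx
    obtain ⟨c, d, h1, h2, h3⟩ := hT.sur x (by omega)
    refine ⟨c, ?_, ?_⟩
    · rw [mem_filter, mem_range]
      have : j - c = d := by omega
      rw [this]
      exact ⟨by omega, h1⟩
    · have : j - c = d := by omega
      rw [this]
      exact h3

/-- multiplicities of the pairs above level `i` -/
lemma mD_eq (C : Ctx α) (hT : Top R i f) (hR2 : ∀ c d, R c (d + 1) → R (c + 1) d → R c d)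
    {c d c' d' : ℕ} (h1 : R c d) (h2 : R c' d') (h3 : c + d = i) (h4 : c' + d' = i)
    (h5 : c < c') : mD i {f c d, f c' d'} = if c' = c + 1 then 1 else 0 := by
  have key : ∀ z : α, corank z + 1 = i → (Ch z = {f c d, f c' d'} ↔
      c' = c + 1 ∧ z = f c (d - 1)) := by
    intro z hz
    obtain ⟨u, v, h6, h7, rfl⟩ := hT.sur z (by omega)
    constructor
    · intro h8
      have m1 : f c d ∈ Ch (f u v) := by rw [h8]; simp
      have m2 : f c' d' ∈ Ch (f u v) := by rw [h8]; simp
      rw [Pool.Gauss.mem_Ch] at m1 m2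
      rw [hT.cov u v c d h6 h1 (by omega) (by omega)] at m1
      rw [hT.cov u v c' d' h6 h2 (by omega) (by omega)] at m2
      have e1 : c = u := by omega
      have e2 : c' = u + 1 := by omega
      have e3 : v = d - 1 := by omega
      subst e1
      exact ⟨e2, by rw [e3]⟩
    · rintro ⟨rfl, h8⟩
      have hd : d = d' + 1 := by omega
      subst hd
      rw [h8, Nat.add_sub_cancel]
      have h9 := hR2 c d' h1 h2
      ext x
      rw [hT.mem_Ch C h9 (by omega), mem_insert, mem_singleton]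
      tauto
  unfold mD
  split_ifs with h6
  · subst h6
    have hd : d = d' + 1 := by omega
    subst hd
    have h9 := hR2 c d' h1 h2
    rw [card_eq_one]
    refine ⟨f c d', ?_⟩
    ext z
    rw [mem_filter, mem_lev', mem_singleton]
    constructor
    · rintro ⟨h10, h11⟩
      have := ((key z h10).1 h11).2
      rwa [Nat.add_sub_cancel] at this
    · rintro rfl
      have h10 : corank (f c d') + 1 = i := by
        rw [hT.cor c d' h9 (by omega)]
        omega
      exact ⟨h10, (key _ h10).2 ⟨rfl, by rw [Nat.add_sub_cancel]⟩⟩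
  · rw [card_eq_zero, filter_eq_empty_iff]
    intro z hz h7
    rw [mem_lev'] at hz
    exact h6 ((key z hz).1 h7).1

end Top

end Pool.Gauss
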