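import Pool.Agent.Work.MP_065141_co.Ext

/-!
# Extension of the coordinates to the next level
-/

set_option autoImplicit false
set_option linter.unusedSectionVars false
open scoped Classical
open Finset

namespace Pool.Gauss

variable {α : Type} [Fintype α] [PartialOrder α]

/-- the parents of the cell `(c, d)` -/
def PP (R : ℕ → ℕ → Prop) (f : ℕ → ℕ → α) (c d : ℕ) (y : α) : Prop :=
  (∃ e, c = e + 1 ∧ R e d ∧ y = f e d) ∨ (∃ e, d = e + 1 ∧ R c e ∧ y = f c e)

lemma OneP.pp {R : ℕ → ℕ → Prop} {f : ℕ → ℕ → α} {c d c' d' : ℕ} (h : OneP R c d c' d') (y : α) :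
    y ∈ ({f c' d'} : Finset α) ↔ PP R f c d y := by
  rw [mem_singleton]
  obtain ⟨h1, h2, h3⟩ := h
  rcases h3 with ⟨rfl, rfl, h3⟩ | ⟨rfl, rfl, h3⟩
  · constructor
    · rintro rfl
      exact Or.inl ⟨c', rfl, h2, rfl⟩
    · rintro (⟨e, h4, h5, rfl⟩ | ⟨e, h4, h5, rfl⟩)
      · have : c' = e := by omega
        rw [this]
      · exact absurd h5 (h3 e h4)
  · constructor
    · rintro rfl
      exact Or.inr ⟨d', rfl, h2, rfl⟩
    · rintro (⟨e, h4, h5, rfl⟩ | ⟨e, h4, h5, rfl⟩)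
      · exact absurd h5 (h3 e h4)
      · have : d' = e := by omega
        rw [this]

/-- extension of the coordinates: level `i` is perfect, the single elements of level `i + 1`
correspond to the cells with one parent -/
theorem Top.extend {R : ℕ → ℕ → Prop} {i : ℕ} {f : ℕ → ℕ → α} (C : Ctx α) (hT : Top R i f)
    (hi : i + 1 < HT α)
    (hR1 : ∀ c d, R c (d + 1) → R (c + 1) d → R c d)
    (hR2 : ∀ c d, R c (d + 1) → R (c + 1) d → R (c + 1) (d + 1))
    (hcell : ∀ c d, R c d → c + d = i + 1 →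
      (∃ e, c = e + 1 ∧ R e d) ∨ (∃ e, d = e + 1 ∧ R c e))
    (hP : Perf α i)
    (hs1 : ∀ c d c' d', c + d = i + 1 → OneP R c d c' d' → ∃ x, Pr x = {f c' d'})
    (hs2 : ∀ x : α, corank x = i + 1 → (Pr x).card = 1 →
      ∃ c d c' d', c + d = i + 1 ∧ OneP R c d c' d' ∧ Pr x = {f c' d'})
    (hs3 : ∀ x x' : α, corank x = i + 1 → (Pr x).card = 1 → Pr x = Pr x' → x = x')
    (hs4 : ∀ c d e d' c' e', OneP R c d c' e' → OneP R e d' c' e' → c + d = i + 1 →
      e + d' = i + 1 → c = e) :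
    ∃ f' : ℕ → ℕ → α, Top R (i + 1) f' ∧ ∀ c d, c + d ≤ i → f' c d = f c d := by
  -- double elements
  have dbl : ∀ x : α, corank x = i + 1 → (Pr x).card = 2 →
      (∃ c d, R c (d + 1) ∧ R (c + 1) d ∧ c + d + 1 = i ∧ Pr x = {f c (d + 1), f (c + 1) d}) ∧
      mC i (Pr x) = 1 := by
    intro x hx h2
    obtain ⟨a, b, hab, hPr⟩ := card_eq_two.1 h2
    have ha : a ∈ Pr x := by rw [hPr]; simp
    have hb : b ∈ Pr x := by rw [hPr]; simp
    have ha' := mem_lev.1 (C.pr_sub hx ha)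
    have hb' := mem_lev.1 (C.pr_sub hx hb)
    obtain ⟨c, d, h3, h4, rfl⟩ := hT.sur a (by omega)
    obtain ⟨c', d', h5, h6, rfl⟩ := hT.sur b (by omega)
    have hpos : 0 < mC i (Pr x) := by
      unfold mC
      exact card_pos.2 ⟨x, mem_filter.2 ⟨mem_lev.2 hx, rfl⟩⟩
    rw [hP _ h2] at hpos ⊢
    rcases Nat.lt_trichotomy c c' with h7 | h7 | h7
    · have h8 := hT.mD_eq C hR1 h3 h5 (by omega) (by omega) h7
      rw [← hPr] at h8
      split_ifs at h8 with h9
      · refine ⟨⟨c, d', ?_, ?_, by omega, ?_⟩, h8⟩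
        · have : d = d' + 1 := by omega
          rwa [← this]
        · rwa [← h9]
        · have : d = d' + 1 := by omega
          rw [hPr, ← this, ← h9]
      · omega
    · exfalso
      apply hab
      have : d = d' := by omega
      rw [h7, this]
    · have h8 := hT.mD_eq C hR1 h5 h3 (by omega) (by omega) h7
      rw [pair_comm, ← hPr] at h8
      split_ifs at h8 with h9
      · refine ⟨⟨c', d, ?_, ?_, by omega, ?_⟩, h8⟩
        · have : d' = d + 1 := by omega
          rwa [← this]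
        · rwa [← h9]
        · have : d' = d + 1 := by omega
          rw [hPr, ← this, ← h9, pair_comm]
      · omega
  have hA : ∀ c d, R c d → c + d = i + 1 → ∃ x, ∀ y, y ∈ Pr x ↔ PP R f c d y := by
    intro c d h1 h2
    by_cases h3 : (∃ e, c = e + 1 ∧ R e d) ∧ (∃ e, d = e + 1 ∧ R c e)
    · obtain ⟨⟨e, rfl, h4⟩, ⟨e', rfl, h5⟩⟩ := h3
      have h6 := hT.mD_eq C hR1 h4 h5 (by omega) (by omega) (by omega)
      rw [if_pos rfl, ← hP] at h6
      · have h7 : 0 < mC i {f e (e' + 1), f (e + 1) e'} := by omega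
        unfold mC at h7
        obtain ⟨x, hx⟩ := card_pos.1 h7
        rw [mem_filter] at hx
        refine ⟨x, fun y => ?_⟩
        rw [hx.2, mem_insert, mem_singleton]
        constructor
        · rintro (rfl | rfl)
          · exact Or.inl ⟨e, rfl, h4, rfl⟩
          · exact Or.inr ⟨e', rfl, h5, rfl⟩
        · rintro (⟨u, h8, _, rfl⟩ | ⟨u, h8, _, rfl⟩)
          · left
            have : u = e := by omega
            rw [this]
          · right
            have : u = e' := by omega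
            rw [this]
      · rw [card_pair]
        intro h7
        have := hT.inj _ _ _ _ h4 h5 (by omega) (by omega) h7
        omega
    · have h4 : ∃ c' d', OneP R c d c' d' := by
        rcases hcell c d h1 h2 with ⟨e, h5, h6⟩ | ⟨e, h5, h6⟩
        · refine ⟨e, d, h1, h6, Or.inl ⟨h5, rfl, fun e' h7 h8 => h3 ⟨⟨e, h5, h6⟩, ⟨e', h7, h8⟩⟩⟩⟩
        · refine ⟨c, e, h1, h6, Or.inr ⟨rfl, h5, fun e' h7 h8 => h3 ⟨⟨e', h7, h8⟩, ⟨e, h5, h6⟩⟩⟩⟩
      obtain ⟨c', d', h5⟩ := h4
      obtain ⟨x, hx⟩ := hs1 c d c' d' h2 h5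
      exact ⟨x, fun y => by rw [hx]; exact h5.pp y⟩
  have hB : ∀ x : α, corank x = i + 1 → ∃ c d, R c d ∧ c + d = i + 1 ∧
      ∀ y, y ∈ Pr x ↔ PP R f c d y := by
    intro x hx
    rcases C.pr_cases (x := x) (by omega) with h1 | h1
    · obtain ⟨c, d, c', d', h2, h3, h4⟩ := hs2 x hx h1
      exact ⟨c, d, h3.1, h2, fun y => by rw [h4]; exact h3.pp y⟩
    · obtain ⟨⟨c, d, h2, h3, h4, h5⟩, _⟩ := dbl x hx h1
      refine ⟨c + 1, d + 1, hR2 c d h2 h3, by omega, fun y => ?_⟩
      rw [h5, mem_insert, mem_singleton]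
      constructor
      · rintro (rfl | rfl)
        · exact Or.inl ⟨c, rfl, h2, rfl⟩
        · exact Or.inr ⟨d, rfl, h3, rfl⟩
      · rintro (⟨u, h8, _, rfl⟩ | ⟨u, h8, _, rfl⟩)
        · left
          have : u = c := by omega
          rw [this]
        · right
          have : u = d := by omega
          rw [this]
  have hC : ∀ x x' : α, corank x = i + 1 → Pr x = Pr x' → corank x' = i + 1 → x = x' := by
    intro x x' hx h1 hx'
    rcases C.pr_cases (x := x) (by omega) with h2 | h2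
    · exact hs3 x x' hx h2 h1
    · have h3 := (dbl x hx h2).2
      unfold mC at h3
      exact card_le_one.1 h3.le x (mem_filter.2 ⟨mem_lev.2 hx, rfl⟩) x'
        (mem_filter.2 ⟨mem_lev.2 hx', h1.symm⟩)
  have hD : ∀ c d c' d', R c d → R c' d' → c + d = i + 1 → c' + d' = i + 1 →
      (∀ y, PP R f c d y ↔ PP R f c' d' y) → c = c' := by
    intro c d c' d' h1 h2 h3 h4 h5
    by_contra hne
    -- every parent of (c,d) is a parent of (c',d')
    have key : ∀ u v, R u v → u + v = i → (∃ e, c = e + 1 ∧ u = e ∧ v = d) ∨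
        (∃ e, d = e + 1 ∧ u = c ∧ v = e) → (∃ e, c' = e + 1 ∧ u = e ∧ v = d') ∨
        (∃ e, d' = e + 1 ∧ u = c' ∧ v = e) := by
      intro u v h6 h7 h8
      have h9 : PP R f c d (f u v) := by
        rcases h8 with ⟨e, h9, rfl, rfl⟩ | ⟨e, h9, rfl, rfl⟩
        · exact Or.inl ⟨u, h9, h6, rfl⟩
        · exact Or.inr ⟨v, h9, h6, rfl⟩
      rw [h5] at h9
      rcases h9 with ⟨e, h10, h11, h12⟩ | ⟨e, h10, h11, h12⟩
      · have := hT.inj _ _ _ _ h6 h11 (by omega) (by omega) h12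
        exact Or.inl ⟨e, h10, this.1, this.2⟩
      · have := hT.inj _ _ _ _ h6 h11 (by omega) (by omega) h12
        exact Or.inr ⟨e, h10, this.1, this.2⟩
    have key' : ∀ u v, R u v → u + v = i → (∃ e, c' = e + 1 ∧ u = e ∧ v = d') ∨
        (∃ e, d' = e + 1 ∧ u = c' ∧ v = e) → (∃ e, c = e + 1 ∧ u = e ∧ v = d) ∨
        (∃ e, d = e + 1 ∧ u = c ∧ v = e) := by
      intro u v h6 h7 h8
      have h9 : PP R f c' d' (f u v) := by
        rcases h8 with ⟨e, h9, rfl, rfl⟩ | ⟨e, h9, rfl, rfl⟩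
        · exact Or.inl ⟨u, h9, h6, rfl⟩
        · exact Or.inr ⟨v, h9, h6, rfl⟩
      rw [← h5] at h9
      rcases h9 with ⟨e, h10, h11, h12⟩ | ⟨e, h10, h11, h12⟩
      · have := hT.inj _ _ _ _ h6 h11 (by omega) (by omega) h12
        exact Or.inl ⟨e, h10, this.1, this.2⟩
      · have := hT.inj _ _ _ _ h6 h11 (by omega) (by omega) h12
        exact Or.inr ⟨e, h10, this.1, this.2⟩
    rcases hcell c d h1 h3 with ⟨e, h6, h7⟩ | ⟨e, h6, h7⟩
    · -- parent (e, d)
      have h8 := key e d h7 (by omega) (Or.inl ⟨e, h6, rfl, rfl⟩)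
      rcases h8 with ⟨e', h9, h10, h11⟩ | ⟨e', h9, h10, h11⟩
      · omega
      · -- (e,d) = (c', e'), the cell (c',d') = (e, d+1)
        subst h10 h11
        apply hne
        refine hs4 c d e d' e d ⟨h1, h7, Or.inl ⟨h6, rfl, fun u h12 h13 => ?_⟩⟩
          ⟨h2, h7, Or.inr ⟨rfl, h9, fun u h12 h13 => ?_⟩⟩ h3 h4
        · have h14 := key c u h13 (by omega) (Or.inr ⟨u, h12, rfl, rfl⟩)
          rcases h14 with ⟨_, _, _, _⟩ | ⟨_, _, _, _⟩ <;> omega
        · have h14 := key' u d' h13 (by omega) (Or.inl ⟨u, h12, rfl, rfl⟩)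
          rcases h14 with ⟨_, _, _, _⟩ | ⟨_, _, _, _⟩ <;> omega
    · have h8 := key c e h7 (by omega) (Or.inr ⟨e, h6, rfl, rfl⟩)
      rcases h8 with ⟨e', h9, h10, h11⟩ | ⟨e', h9, h10, h11⟩
      · -- (c, e) = (e', d'), the cell (c', d') = (c + 1, e)
        subst h10 h11
        apply hne
        refine hs4 c d c' e c e ⟨h1, h7, Or.inr ⟨rfl, h6, fun u h12 h13 => ?_⟩⟩
          ⟨h2, h7, Or.inl ⟨h9, rfl, fun u h12 h13 => ?_⟩⟩ h3 h4
        · have h14 := key u d h13 (by omega) (Or.inl ⟨u, h12, rfl, rfl⟩)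
          rcases h14 with ⟨_, _, _, _⟩ | ⟨_, _, _, _⟩ <;> omega
        · have h14 := key' c' u h13 (by omega) (Or.inr ⟨u, h12, rfl, rfl⟩)
          rcases h14 with ⟨_, _, _, _⟩ | ⟨_, _, _, _⟩ <;> omega
      · omega
  -- the new map
  let f' : ℕ → ℕ → α := fun c d =>
    if h : R c d ∧ c + d = i + 1 then Classical.choose (hA c d h.1 h.2) else f c d
  have f'old : ∀ c d, c + d ≤ i → f' c d = f c d := by
    intro c d h1
    simp only [f']
    rw [dif_neg]
    omega
  have f'new : ∀ c d, R c d → c + d = i + 1 → ∀ y, y ∈ Pr (f' c d) ↔ PP R f c d y := by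
    intro c d h1 h2
    simp only [f']
    rw [dif_pos ⟨h1, h2⟩]
    exact Classical.choose_spec (hA c d h1 h2)
  have f'cor : ∀ c d, R c d → c + d = i + 1 → corank (f' c d) = i + 1 := by
    intro c d h1 h2
    rcases hcell c d h1 h2 with ⟨e, h6, h7⟩ | ⟨e, h6, h7⟩
    · have h3 : f e d ∈ Pr (f' c d) := (f'new c d h1 h2 _).2 (Or.inl ⟨e, h6, h7, rfl⟩)
      rw [Pool.Gauss.mem_Pr] at h3
      rw [C.cork h3, hT.cor e d h7 (by omega)]
      omega
    · have h3 : f c e ∈ Pr (f' c d) := (f'new c d h1 h2 _).2 (Or.inr ⟨e, h6, h7, rfl⟩)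
      rw [Pool.Gauss.mem_Pr] at h3
      rw [C.cork h3, hT.cor c e h7 (by omega)]
      omega
  have cor' : ∀ c d, R c d → c + d ≤ i + 1 → corank (f' c d) = c + d := by
    intro c d h1 h2
    rcases Nat.lt_or_ge i (c + d) with h3 | h3
    · rw [f'cor c d h1 (by omega)]
      omega
    · rw [f'old c d h3]
      exact hT.cor c d h1 h3
  refine ⟨f', ⟨cor', ?_, ?_, ?_⟩, f'old⟩
  · intro c d c' d' h1 h2 h3 h4 h5
    have h6 := cor' c d h1 h3
    have h7 := cor' c' d' h2 h4
    rw [h5] at h6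
    rcases Nat.lt_or_ge i (c + d) with h8 | h8
    · have h9 : c = c' := by
        apply hD c d c' d' h1 h2 (by omega) (by omega)
        intro y
        rw [← f'new c d h1 (by omega), ← f'new c' d' h2 (by omega), h5]
      omega
    · rw [f'old c d h8, f'old c' d' (by omega)] at h5
      exact hT.inj c d c' d' h1 h2 h8 (by omega) h5
  · intro x hx
    rcases Nat.lt_or_ge i (corank x) with h8 | h8
    · obtain ⟨c, d, h1, h2, h3⟩ := hB x (by omega)
      refine ⟨c, d, h1, by omega, ?_⟩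
      apply hC _ _ (f'cor c d h1 h2) _ (by omega)
      ext y
      rw [h3, f'new c d h1 h2]
    · obtain ⟨c, d, h1, h2, h3⟩ := hT.sur x h8
      refine ⟨c, d, h1, h2, ?_⟩
      rw [f'old c d (by omega)]
      exact h3
  · intro c d c' d' h1 h2 h3 h4
    rcases Nat.lt_or_ge i (c + d) with h8 | h8
    · constructor
      · intro h5
        have h6 := C.cork h5
        rw [cor' c d h1 h3, cor' c' d' h2 h4] at h6
        omega
      · omega
    · rcases Nat.lt_or_ge i (c' + d') with h9 | h9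
      · rw [← Pool.Gauss.mem_Pr, f'new c' d' h2 (by omega), f'old c d h8]
        constructor
        · rintro (⟨e, h10, h11, h12⟩ | ⟨e, h10, h11, h12⟩)
          · have := hT.inj _ _ _ _ h1 h11 (by omega) (by omega) h12
            omega
          · have := hT.inj _ _ _ _ h1 h11 (by omega) (by omega) h12
            omega
        · rintro (⟨rfl, rfl⟩ | ⟨rfl, rfl⟩)
          · exact Or.inl ⟨c, rfl, h1, rfl⟩
          · exact Or.inr ⟨d, rfl, h1, rfl⟩
      · rw [f'old c d h8, f'old c' d' h9]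
        exact hT.cov c d c' d' h1 h2 h8 h9

end Pool.Gauss
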