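import Pool.Agent.Work.MP_065141_co.Sym

/-!
# Closure properties, indicator energy functions
-/

set_option autoImplicit false
set_option linter.unusedSectionVars false
set_option linter.unusedVariables false
open scoped Classical
open Finset Polynomial

namespace Pool.Gauss

variable {α : Type} [Fintype α] [PartialOrder α] {i : ℕ}

/-- the neighbours nearer to level `i` -/
noncomputable def bd (i : ℕ) (p : α) : Finset α := univ.filter fun y => fr i y p

lemma mem_bd {p y : α} : y ∈ bd i p ↔ fr i y p := by simp [bd]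

lemma exists_near (hg : Grad α) (hl : HasLower α i) {p : α} (hp : corank p ≠ i) :
    ∃ t, fr i t p := by
  rcases lt_or_gt_of_ne hp with h | h
  · obtain ⟨t, ht⟩ := hl p h
    have := hg t p ht
    exact ⟨t, fr_of_above (by omega) ht⟩
  · obtain ⟨t, ht⟩ := exists_upper p (by omega)
    have := hg p t ht
    exact ⟨t, fr_of_below (by omega) ht⟩

lemma fr_ne (hg : Grad α) {p q : α} (h : fr i p q) : corank q ≠ i := by
  have h1 := fr_ds hg h
  intro h2
  rw [ds_eq_zero.2 h2] at h1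
  omega

lemma bd_lev (hg : Grad α) {p y : α} (hp : ds i p = 1) (hy : y ∈ bd i p) : corank y = i := by
  rw [mem_bd] at hy
  have := fr_ds hg hy
  exact ds_eq_zero.1 (by omega)

/-- all nearer neighbours of an excited element are excited, unless they are in level `i` -/
lemma closure (hg : Grad α) (hl : HasLower α i) {ε : α → ℕ} (hε : GoodE i ε) {p q : α}
    (h : fr i p q) (hp : corank p ≠ i) (hq : 0 < ε q) : 0 < ε p := by
  by_contra h0
  have h1 : ε p = 0 := by omega
  apply (goodS_of_goodE hg hl hε).1 p hp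
  constructor
  · exact ⟨q, h, by omega⟩
  · obtain ⟨t, ht⟩ := exists_near hg hl hp
    exact ⟨t, ht, by omega⟩

lemma att_iff (hg : Grad α) {ε : α → ℕ} {p : α} (hp : ds i p = 1) :
    att i ε p ↔ ∃ q, fr i p q ∧ 0 < ε q := by
  unfold att
  constructor
  · rintro (⟨h1, v, hv, h2⟩ | ⟨h1, w, hw, h2⟩)
    · exact ⟨v, fr_of_above (by omega) hv, h2⟩
    · exact ⟨w, fr_of_below (by omega) hw, h2⟩
  · rintro ⟨q, h1 | h1, h2⟩
    · right
      unfold ds at hp
      exact ⟨by omega, q, h1.2, h2⟩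
    · left
      unfold ds at hp
      exact ⟨by omega, q, h1.2, h2⟩

/-- two dominating neighbours of an element of level `i` are on the same side -/
lemma same_side (hg : Grad α) {ε : α → ℕ} (hε : GoodE i ε) {y p p' : α} (hy : corank y = i)
    (h1 : fr i y p) (h2 : fr i y p') (h3 : ε y < ε p) (h4 : ε y < ε p') :
    (corank p < i ∧ corank p' < i) ∨ (i < corank p ∧ i < corank p') := by
  have h5 := hε y
  rw [inE_lev hy, outE_lev hy] at h5
  rcases h1 with ⟨h1, h6⟩ | ⟨h1, h6⟩ <;> rcases h2 with ⟨h2, h7⟩ | ⟨h2, h7⟩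
  · have := hg p y h6
    have := hg p' y h7
    right
    omega
  · exact absurd ⟨⟨p, h6, h3⟩, ⟨p', h7, h4⟩⟩ h5
  · exact absurd ⟨⟨p', h7, h4⟩, ⟨p, h6, h3⟩⟩ h5
  · have := hg y p h6
    have := hg y p' h7
    left
    omega

lemma mem_Yd {ε : α → ℕ} {y : α} : y ∈ Yd i ε ↔ corank y = i ∧ ∃ p, fr i y p ∧ ε y < ε p := by
  rw [Yd, mem_filter, mem_lev]
  rfl

/-- if every excited element next to level `i` dominates all its neighbours in level `i` then
there is a free element outside level `i` -/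
lemma peak (hg : Grad α) {ε : α → ℕ}
    (h1 : ∃ p, corank p ≠ i ∧ 0 < ε p)
    (h2 : ∀ p y, ds i p = 1 → 0 < ε p → fr i y p → ε y < ε p) : (Fo i ε).Nonempty := by
  obtain ⟨p0, hp0, hp0'⟩ := h1
  set T := univ.filter (fun p : α => corank p ≠ i ∧ 0 < ε p) with hT
  have hTne : T.Nonempty := ⟨p0, by rw [hT, mem_filter]; exact ⟨mem_univ _, hp0, hp0'⟩⟩
  obtain ⟨a, ha, hmax⟩ := Finset.exists_max_image T ε hTne
  set T' := T.filter (fun p => ε p = ε a) with hT'
  have hTne' : T'.Nonempty := ⟨a, by rw [hT', mem_filter]; exact ⟨ha, rfl⟩⟩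
  obtain ⟨b, hb, hmin⟩ := Finset.exists_min_image T' (ds i) hTne'
  rw [hT', mem_filter] at hb
  have hbT := hb.1
  rw [hT, mem_filter] at hbT
  refine ⟨b, ?_⟩
  unfold Fo
  rw [mem_filter]
  refine ⟨mem_univ _, hbT.2.1, ?_, ?_⟩
  · rintro ⟨q, hq1, hq2⟩
    have hq : q ∈ T := by
      rw [hT, mem_filter]
      exact ⟨mem_univ _, fr_ne hg hq1, by omega⟩
    have := hmax q hq
    omega
  · rintro ⟨q, hq1, hq2⟩
    by_cases hq : corank q = i
    · have h3 := fr_ds hg hq1
      rw [ds_eq_zero.2 hq] at h3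
      have := h2 b q h3 hbT.2.2 hq1
      omega
    · have hqT : q ∈ T := by
        rw [hT, mem_filter]
        exact ⟨mem_univ _, hq, by omega⟩
      have h3 := hmax q hqT
      have hqT' : q ∈ T' := by
        rw [hT', mem_filter]
        exact ⟨hqT, by omega⟩
      have h4 := hmin q hqT'
      have h5 := fr_ds hg hq1
      omega

/-! ### energy bookkeeping -/

lemma sum_ge (T : Finset α) (ε : α → ℕ) : ∑ p ∈ T, ε p ≤ ∑ p, ε p :=
  Finset.sum_le_sum_of_subset (subset_univ T)

/-- the indicator function -/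
noncomputable def ind (T : Finset α) : α → ℕ := fun p => if p ∈ T then 1 else 0

lemma ind_mem {T : Finset α} {p : α} (hp : p ∈ T) : ind T p = 1 := if_pos hp
lemma ind_notMem {T : Finset α} {p : α} (hp : p ∉ T) : ind T p = 0 := if_neg hp

lemma sum_ind (T : Finset α) : ∑ p, ind T p = T.card := by
  unfold ind
  rw [Finset.sum_boole]
  simp

lemma card_le_sum {T : Finset α} {ε : α → ℕ} (h : ∀ p ∈ T, 0 < ε p) : T.card ≤ ∑ p, ε p := by
  refine le_trans ?_ (sum_ge T ε)
  rw [Finset.card_eq_sum_ones]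
  exact Finset.sum_le_sum fun p hp => h p hp

lemma eq_ind {T : Finset α} {ε : α → ℕ} (h : ∀ p ∈ T, 0 < ε p) (hs : ∑ p, ε p ≤ T.card) :
    ε = ind T := by
  have h1 : ∑ p ∈ T, ε p + ∑ p ∈ Tᶜ, ε p = ∑ p, ε p := Finset.sum_add_sum_compl T ε
  have h2 : T.card ≤ ∑ p ∈ T, ε p := by
    rw [Finset.card_eq_sum_ones]
    exact Finset.sum_le_sum fun p hp => h p hp
  have h3 : ∑ p ∈ Tᶜ, ε p = 0 := by omega
  have h4 : ∑ p ∈ T, ε p = ∑ p ∈ T, 1 := by rw [← Finset.card_eq_sum_ones]; omega
  funext p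
  by_cases hp : p ∈ T
  · rw [ind_mem hp]
    exact ((Finset.sum_eq_sum_iff_of_le (fun p hp => h p hp)).1 h4.symm p hp).symm
  · rw [ind_notMem hp]
    exact (Finset.sum_eq_zero_iff.1 h3) p (mem_compl.2 hp)

lemma eq_ind_or {T : Finset α} {ε : α → ℕ} (h : ∀ p ∈ T, 0 < ε p)
    (hs : ∑ p, ε p ≤ T.card + 1) : ε = ind T ∨ ∃ t, ε = ind T + ind {t} := by
  rcases Nat.lt_or_ge (∑ p, ε p) (T.card + 1) with h1 | h1
  · exact Or.inl (eq_ind h (by omega))
  · right
    have h2 : ∑ p, ε p = T.card + 1 := by omega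
    have h3 : ∃ t, ind T t < ε t := by
      by_contra h4
      push Not at h4
      have := Finset.sum_le_sum fun p (_ : p ∈ (univ : Finset α)) => h4 p
      rw [sum_ind, h2] at this
      omega
    obtain ⟨t, ht⟩ := h3
    refine ⟨t, ?_⟩
    have h5 : ∀ p, (ind T + ind {t}) p ≤ ε p := by
      intro p
      simp only [Pi.add_apply]
      by_cases hp : p = t
      · rw [hp, ind_mem (mem_singleton_self t)]
        omega
      · rw [ind_notMem (by rwa [mem_singleton] : p ∉ ({t} : Finset α))]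
        by_cases hp' : p ∈ T
        · rw [ind_mem hp']
          have := h p hp'
          omega
        · rw [ind_notMem hp']
          omega
    have h6 : ∑ p, (ind T + ind {t}) p = ∑ p, ε p := by
      simp only [Pi.add_apply]
      rw [Finset.sum_add_distrib, sum_ind, sum_ind, h2, card_singleton]
    funext p
    exact ((Finset.sum_eq_sum_iff_of_le (fun p _ => h5 p)).1 h6 p (mem_univ p)).symm

/-! ### indicator energy functions -/

/-- near-closed sets -/
def NClosed (i : ℕ) (T : Finset α) : Prop := ∀ s ∈ T, ∀ t, fr i t s → corank t ≠ i → t ∈ T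

section indicator

variable (hg : Grad α) (hl : HasLower α i) {T : Finset α} (hT : NClosed i T)
  (hT2 : ∀ y, corank y = i → y ∉ T → ∀ p ∈ T, ∀ p' ∈ T, fr i y p → fr i y p' →
    ¬ (corank p < i ∧ i < corank p'))

lemma ind_pos {T : Finset α} {p : α} : 0 < ind T p ↔ p ∈ T := by
  unfold ind
  split_ifs with h <;> simp [h]

lemma fd_ind {p : α} : fd i (ind T) p ↔ p ∉ T ∧ ∃ s ∈ T, fr i p s := by
  unfold fd
  constructor
  · rintro ⟨q, h1, h2⟩
    by_cases hp : p ∈ T
    · rw [ind_mem hp] at h2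
      unfold ind at h2
      split_ifs at h2 <;> omega
    · rw [ind_notMem hp] at h2
      exact ⟨hp, q, ind_pos.1 h2, h1⟩
  · rintro ⟨hp, s, hs, h1⟩
    exact ⟨s, h1, by rw [ind_mem hs, ind_notMem hp]; omega⟩

lemma nd_ind {p : α} : nd i (ind T) p ↔ ∃ s, fr i s p ∧ (p ∈ T → s ∈ T) := by
  unfold nd
  apply exists_congr
  intro s
  apply and_congr_right
  intro _
  by_cases hp : p ∈ T
  · rw [ind_mem hp]
    constructor
    · intro h _
      exact ind_pos.1 (by omega)
    · intro h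
      rw [ind_mem (h hp)]
  · rw [ind_notMem hp]
    simp [hp]

include hg hl hT hT2 in
lemma ind_goodE : GoodE i (ind T) := by
  apply goodE_of_goodS hg hl
  constructor
  · rintro p hp ⟨h1, _⟩
    rw [fd_ind] at h1
    obtain ⟨h2, s, hs, h3⟩ := h1
    exact h2 (hT s hs p h3 hp)
  · rintro y hy ⟨h1, h2⟩
    rw [inE_lev hy] at h1
    rw [outE_lev hy] at h2
    obtain ⟨x, hx, h1⟩ := h1
    obtain ⟨z, hz, h2⟩ := h2
    by_cases hyT : y ∈ T
    · rw [ind_mem hyT] at h1
      unfold ind at h1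
      split_ifs at h1 <;> omega
    · rw [ind_notMem hyT] at h1 h2
      have h3 := hg x y hx
      have h4 := hg y z hz
      exact hT2 y hy hyT z (ind_pos.1 h2) x (ind_pos.1 h1) (fr_of_above hy.le hz)
        (fr_of_below hy.ge hx) ⟨by omega, by omega⟩

include hT in
lemma ind_Fd : Fd i (ind T) = ∅ := by
  unfold Fd
  rw [Finset.filter_eq_empty_iff]
  rintro p _ ⟨hp, h1⟩
  rw [fd_ind] at h1
  obtain ⟨h2, s, hs, h3⟩ := h1
  exact h2 (hT s hs p h3 hp)

include hg hl in
lemma ind_Fo : Fo i (ind T) = T.filter fun p => corank p ≠ i ∧ ∀ s, fr i s p → s ∉ T := by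
  ext p
  unfold Fo
  rw [mem_filter, mem_filter, fd_ind, nd_ind]
  simp only [mem_univ, true_and]
  constructor
  · rintro ⟨h1, h2, h3⟩
    have hp : p ∈ T := by
      by_contra hp
      obtain ⟨t, ht⟩ := exists_near hg hl h1
      exact h3 ⟨t, ht, fun h => absurd h hp⟩
    exact ⟨hp, h1, fun s hs hsT => h3 ⟨s, hs, fun _ => hsT⟩⟩
  · rintro ⟨hp, h1, h2⟩
    refine ⟨h1, fun h => h.1 hp, ?_⟩
    rintro ⟨s, hs, h3⟩
    exact h2 s hs (h3 hp)

lemma ind_Yd : Yd i (ind T) = (lev α i).filter fun y => y ∉ T ∧ ∃ s ∈ T, fr i y s := by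
  unfold Yd
  ext y
  rw [mem_filter, mem_filter, fd_ind]

lemma ind_Yin : Yin i (ind T) = (lev α i).filter fun y => y ∉ T ∧ ∃ s ∈ T, s ⋖ y := by
  unfold Yin
  ext y
  rw [mem_filter, mem_filter, mem_lev]
  apply and_congr_right
  intro hy
  rw [inE_lev hy]
  constructor
  · rintro ⟨x, hx, h1⟩
    by_cases hyT : y ∈ T
    · rw [ind_mem hyT] at h1
      unfold ind at h1
      split_ifs at h1 <;> omega
    · rw [ind_notMem hyT] at h1
      exact ⟨hyT, x, ind_pos.1 h1, hx⟩
  · rintro ⟨hyT, s, hs, hsy⟩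
    exact ⟨s, hsy, by rw [ind_mem hs, ind_notMem hyT]; omega⟩

end indicator

end Pool.Gauss
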