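import Pool.Agent.Gauss35.Energy

/-!
# The relation at the base `0`

In a Gaussian poset the sum of `(-1) ^ #{y | g < y}` over the elements `g` lying below two
maximal elements and of minimal energy `∑ y ≥ g, corank y` is zero.
-/

set_option autoImplicit false
open scoped Classical
open Finset

namespace Pool.Gauss

variable {α : Type} [Fintype α] [PartialOrder α]

/-- the maximal elements above `x` -/
noncomputable def roots (x : α) : Finset α := (lev α 0).filter fun r => x ≤ r

lemma mem_roots {x r : α} : r ∈ roots x ↔ corank r = 0 ∧ x ≤ r := by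
  rw [roots, mem_filter, mem_lev]

lemma roots_mono {x y : α} (h : x ≤ y) : roots y ⊆ roots x := by
  intro r hr
  rw [mem_roots] at hr ⊢
  exact ⟨hr.1, h.trans hr.2⟩

lemma exists_root (x : α) : (roots x).Nonempty := by
  by_cases h : corank x = 0
  · exact ⟨x, mem_roots.2 ⟨h, le_rfl⟩⟩
  · obtain ⟨y, hy, hy'⟩ := exists_gt_corank (x := x) (n := 0) (by omega)
    exact ⟨y, mem_roots.2 ⟨hy', hy.le⟩⟩

lemma roots_of_lev {x : α} (h : corank x = 0) : roots x = {x} := by
  ext r
  rw [mem_roots, mem_singleton]
  constructor
  · rintro ⟨_, h2⟩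
    rcases eq_or_lt_of_le h2 with h3 | h3
    · exact h3.symm
    · exact absurd h3 (corank_eq_zero.1 h r)
  · rintro rfl
    exact ⟨h, le_rfl⟩

/-- the energy of an element -/
noncomputable def en0 (g : α) : ℕ := ∑ y ∈ univ.filter (fun y => g ≤ y), corank y

/-- `g` lies below two different maximal elements -/
def Join (g : α) : Prop := 2 ≤ (roots g).card

lemma w_ge_of_in {w : α → ℕ} (hw : Good 0 w) {x : α} (hx : x ∈ inS 0 w) : corank x ≤ w x := by
  have hv : VW 0 (inS 0 w) w := by
    rw [VW_iff]
    exact ⟨Subset.refl _, hw⟩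
  obtain ⟨h1, h2, _, _⟩ := hv
  have hs : StrictRev (inS 0 w) (fun y => w y + 1) := by
    constructor
    · intro y _
      show 0 < w y + 1
      omega
    · intro y hy z hz hyz
      have h6 := h2 y hy z hz hyz
      show w z + 1 < w y + 1
      omega
  have h4 := hs.corank_lt h1 x hx
  have h5 : corank x + 1 ≤ w x + 1 := h4
  omega

/-- above an element of value `≥ corank` all values are `≥ corank` -/
lemma w_ge_of_le {w : α → ℕ} (hw : Good 0 w) {g y : α} (hg : corank g ≤ w g) (hy : g ≤ y) :
    corank y ≤ w y := by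
  rcases eq_or_lt_of_le hy with rfl | hy
  · exact hg
  · by_cases h : y ∈ inS 0 w
    · exact w_ge_of_in hw h
    · rw [mem_inS] at h
      push Not at h
      have h1 := h.2 g hy
      have h2 := corank_lt hy
      omega

/-- if every joining element has small value, every maximal element has a free element
in its own part -/
lemma exists_free (hg : Grad α) {w : α → ℕ} (hw : Good 0 w)
    (hJ : ∀ g : α, Join g → w g < corank g) {r : α} (hr : corank r = 0) :
    ∃ x ∈ pkS 0 w, roots x = {r} := by
  -- the candidates
  set S : Finset α := univ.filter fun x => roots x = {r} ∧ corank x ≤ w x with hS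
  have hrS : r ∈ S := by
    rw [hS, mem_filter]
    exact ⟨mem_univ _, roots_of_lev hr, by omega⟩
  obtain ⟨x, hxS, hxmax⟩ := S.exists_max_image w ⟨r, hrS⟩
  have hT : (S.filter fun y => w y = w x).Nonempty := ⟨x, mem_filter.2 ⟨hxS, rfl⟩⟩
  obtain ⟨y, hyT, hymin⟩ := (S.filter fun y => w y = w x).exists_min_image corank hT
  rw [mem_filter] at hyT
  obtain ⟨hyS, hyx⟩ := hyT
  have hy2 := hyS
  rw [hS, mem_filter] at hy2
  obtain ⟨_, hyr, hyw⟩ := hy2
  refine ⟨y, ?_, hyr⟩
  rw [pkS, mem_compl, mem_union]
  rintro (h | h)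
  · -- in
    have h1 := inC_of_inS (good_iff_cover.1 hw) h
    rcases h1 with h1 | ⟨z, hz, h1⟩
    · omega
    · have h2 := hg z y hz
      have hzw : corank z ≤ w z := by omega
      have hz3 : roots z = {r} := by
        have h4 : {r} ⊆ roots z := by
          rw [← hyr]
          exact roots_mono hz.le
        by_contra h5
        have h6 : Join z := by
          have h7 : ({r} : Finset α) ⊂ roots z := by
            rw [Finset.ssubset_iff_subset_ne]
            exact ⟨h4, fun h => h5 h.symm⟩
          have h8 := Finset.card_lt_card h7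
          rw [card_singleton] at h8
          exact h8
        have := hJ z h6
        omega
      have hzS : z ∈ S := by
        rw [hS, mem_filter]
        exact ⟨mem_univ _, hz3, hzw⟩
      have := hxmax z hzS
      omega
  · -- out
    have h1 := outC_of_outS_aux (good_iff_cover.1 hw)
    rw [mem_outS] at h
    obtain ⟨z0, hz0, h3⟩ := h
    obtain ⟨z, hz, h2⟩ := h1 (corank y) y z0 (by omega) hz0 h3
    have h4 := hg y z hz
    have hz3 : roots z = {r} := by
      have h5 : roots z ⊆ {r} := by
        rw [← hyr]
        exact roots_mono hz.le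
      rcases Finset.subset_singleton_iff.1 h5 with h6 | h6
      · exact absurd h6 (exists_root z).ne_empty
      · exact h6
    have hzS : z ∈ S := by
      rw [hS, mem_filter]
      exact ⟨mem_univ _, hz3, by omega⟩
    have h5 := hxmax z hzS
    have h6 : z ∈ S.filter fun y => w y = w x := by
      rw [mem_filter]
      exact ⟨hzS, by omega⟩
    have := hymin z h6
    omega

/-- few free elements force a joining element of large value -/
lemma exists_join (hg : Grad α) {w : α → ℕ} (hw : Good 0 w)
    (hc : (pkS 0 w).card < (lev α 0).card) : ∃ g : α, Join g ∧ corank g ≤ w g := by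
  by_contra h0
  push Not at h0
  have h1 : ∀ r ∈ lev α 0, ∃ x ∈ pkS 0 w, roots x = {r} := fun r hr =>
    exists_free hg hw h0 (mem_lev.1 hr)
  choose! f hf hf' using h1
  have h2 : (lev α 0).card ≤ (pkS 0 w).card := by
    apply Finset.card_le_card_of_injOn f hf
    intro r hr s hs hrs
    have h3 := hf' r hr
    rw [hrs, hf' s hs] at h3
    exact (Finset.singleton_injective h3).symm
  omega

/-- the function of minimal energy attached to `g` -/
noncomputable def wg (g : α) (y : α) : ℕ := if g ≤ y then corank y else 0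

lemma sum_wg (g : α) : ∑ y : α, wg g y = en0 g := by
  rw [en0, Finset.sum_filter]
  rfl

lemma inS_wg {g : α} : inS 0 (wg g) = univ.filter (fun y => g < y) := by
  ext y
  rw [mem_inS, mem_filter]
  constructor
  · rintro (h | ⟨x, hx, h⟩)
    · omega
    · refine ⟨mem_univ _, ?_⟩
      have h1 : g ≤ x := by
        by_contra h2
        rw [wg, wg, if_neg h2] at h
        omega
      exact lt_of_le_of_lt h1 hx
  · rintro ⟨_, h⟩
    right
    refine ⟨g, h, ?_⟩
    rw [wg, wg, if_pos h.le, if_pos le_rfl]
    exact corank_lt h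

lemma mem_outS_wg {g y : α} : y ∈ outS (wg g) ↔ ¬ g ≤ y ∧ corank y ≠ 0 := by
  rw [mem_outS]
  constructor
  · rintro ⟨z, hz, h⟩
    constructor
    · intro h1
      rw [wg, wg, if_pos h1, if_pos (h1.trans hz.le)] at h
      have := corank_lt hz
      omega
    · intro h1
      exact corank_eq_zero.1 h1 z hz
  · rintro ⟨h1, h2⟩
    obtain ⟨z, hz, _⟩ := exists_gt_corank (x := y) (n := 0) (by omega)
    refine ⟨z, hz, ?_⟩
    rw [wg, if_neg h1]
    omega

lemma good_wg (g : α) : Good 0 (wg g) := by
  rw [Good, Finset.disjoint_left]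
  intro y h1 h2
  rw [inS_wg, mem_filter] at h1
  rw [mem_outS_wg] at h2
  exact h2.1 h1.2.le

lemma pkS_wg (g : α) : pkS 0 (wg g) = insert g (lev α 0 \ roots g) := by
  ext y
  rw [pkS, mem_compl, mem_union, inS_wg, mem_filter, mem_outS_wg, mem_insert, mem_sdiff,
    mem_lev, mem_roots]
  constructor
  · intro h
    by_cases h1 : g ≤ y
    · left
      rcases eq_or_lt_of_le h1 with h2 | h2
      · exact h2.symm
      · exact absurd (Or.inl ⟨mem_univ _, h2⟩) h
    · right
      have h2 : corank y = 0 := by
        by_contra h2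
        exact h (Or.inr ⟨h1, h2⟩)
      exact ⟨h2, fun h3 => h1 h3.2⟩
  · rintro (rfl | ⟨h1, h2⟩) h
    · rcases h with ⟨_, h⟩ | ⟨h, _⟩
      · exact lt_irrefl _ h
      · exact h le_rfl
    · rcases h with ⟨_, h⟩ | ⟨_, h⟩
      · exact h2 ⟨h1, h.le⟩
      · exact h h1

lemma card_pkS_wg {g : α} (h : (roots g).card = 2) :
    (pkS 0 (wg g)).card + 1 = (lev α 0).card := by
  have h0 : corank g ≠ 0 := by
    intro h1
    rw [roots_of_lev h1, card_singleton] at h
    omega
  rw [pkS_wg, card_insert_of_notMem, card_sdiff_of_subset, h]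
  · have h1 : (roots g).card ≤ (lev α 0).card := card_le_card (filter_subset _ _)
    omega
  · exact filter_subset _ _
  · rw [mem_sdiff, mem_lev]
    exact fun h1 => h0 h1.1

open Polynomial in
/-- **the relation at the base `0`** -/
theorem base_zero {h : Fin (Fintype.card α) → ℕ} (hG : IsGaussianWith α h) (E : ℕ)
    (hE : ∀ g : α, Join g → E ≤ en0 g)
    (h2 : ∀ g : α, Join g → en0 g = E → (roots g).card = 2) :
    ∑ g ∈ univ.filter (fun g : α => Join g ∧ en0 g = E),
      (-1 : ℤ) ^ (univ.filter (fun y : α => g < y)).card = 0 := by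
  have hg : Grad α := grad hG
  by_cases hne : (univ.filter (fun g : α => Join g ∧ en0 g = E)) = ∅
  · rw [hne, sum_empty]
  obtain ⟨g0, hg0⟩ := Finset.nonempty_iff_ne_empty.2 hne
  rw [mem_filter] at hg0
  have hk := card_pkS_wg (h2 g0 hg0.2.1 hg0.2.2)
  have h1 := root_coeff hG 0 E ((lev α 0).card - 1) (by omega)
  have hw0 : (w0 0 : α → ℕ) = 0 := by
    funext x
    show min (corank x) 0 = 0
    exact Nat.min_zero _
  simp only [hw0, zero_add] at h1
  rw [← h1]
  -- the functions with few free elements
  have key : ∀ w ∈ ((univ : Finset α).piAntidiag E).filter (fun w => Good 0 w),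
      ((X - 1 : ℤ[X]) ^ (inS 0 w).card * X ^ (pkS 0 w).card).coeff ((lev α 0).card - 1) ≠ 0 →
      w ∈ (univ.filter (fun g : α => Join g ∧ en0 g = E)).image wg := by
    intro w hw hne
    rw [mem_filter, mem_piAntidiag] at hw
    have hs : ∑ x : α, w x = E := hw.1.1
    have h3 : (pkS 0 w).card < (lev α 0).card := by
      by_contra h4
      exact hne (coeff_sub_one_mul_lt (by omega))
    obtain ⟨g, hgJ, hgw⟩ := exists_join hg hw.2 h3
    have h4 : ∀ y : α, wg g y ≤ w y := by
      intro y
      rw [wg]
      split_ifs with h5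
      · exact w_ge_of_le hw.2 hgw h5
      · exact Nat.zero_le _
    have h5 : en0 g ≤ E := by
      rw [← sum_wg, ← hs]
      exact Finset.sum_le_sum fun y _ => h4 y
    have h6 : en0 g = E := le_antisymm h5 (hE g hgJ)
    have h7 : ∀ y : α, wg g y = w y := by
      have h8 : ∑ y : α, wg g y = ∑ y : α, w y := by rw [sum_wg, h6, hs]
      intro y
      exact (Finset.sum_eq_sum_iff_of_le fun y _ => h4 y).1 h8 y (mem_univ _)
    rw [mem_image]
    exact ⟨g, mem_filter.2 ⟨mem_univ _, hgJ, h6⟩, funext h7⟩
  symm
  rw [← Finset.sum_subset (s₁ := (univ.filter (fun g : α => Join g ∧ en0 g = E)).image wg)]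
  · rw [Finset.sum_image]
    · apply Finset.sum_congr rfl
      intro g hgm
      rw [mem_filter] at hgm
      have h3 := card_pkS_wg (h2 g hgm.2.1 hgm.2.2)
      have h4 : (lev α 0).card - 1 = (pkS 0 (wg g)).card := by omega
      rw [h4, coeff_sub_one_mul_self, inS_wg]
    · intro g hgm g' hgm' hgg
      have hgm := mem_filter.1 hgm
      have hgm' := mem_filter.1 hgm'
      have pos : ∀ a : α, Join a → 0 < corank a := by
        intro a ha
        by_contra h0
        have : roots a = {a} := roots_of_lev (by omega)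
        rw [Join, this, card_singleton] at ha
        omega
      have aux : ∀ a b : α, Join a → wg a = wg b → b ≤ a := by
        intro a b ha hab
        have h3 := congrFun hab a
        rw [wg, if_pos le_rfl, wg] at h3
        by_contra h4
        rw [if_neg h4] at h3
        have := pos a ha
        omega
      exact le_antisymm (aux g' g hgm'.2.1 hgg.symm) (aux g g' hgm.2.1 hgg)
  · intro w hw
    rw [mem_image] at hw
    obtain ⟨g, hgm, rfl⟩ := hw
    rw [mem_filter] at hgm
    rw [mem_filter, mem_piAntidiag]
    refine ⟨⟨?_, fun _ _ => mem_univ _⟩, good_wg g⟩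
    rw [← hgm.2.2]
    exact sum_wg g
  · intro w hw hnot
    by_contra h3
    exact hnot (key w hw h3)

end Pool.Gauss
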