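import Pool.Agent.Work.MP_065141_co.Ind

/-!
# The relations of order three
-/

set_option autoImplicit false
set_option linter.unusedSectionVars false
set_option linter.unusedVariables false
open scoped Classical
open Finset Polynomial

namespace Pool.Gauss

variable {α : Type} [Fintype α] [PartialOrder α] {i : ℕ}

/-- all elements next to level `i`, except those of `L`, are single or matched -/
def Mat.FullX (m : Mat α i) (L : Finset α) : Prop :=
  ∀ p, ds i p = 1 → p ∈ L ∨ sglZ i p ∨ sglX i p ∨ ∃ e ∈ m.M, p = e.1 ∨ p = e.2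

/-- the exceptional elements are not elements of summation -/
def Mat.Lone (m : Mat α i) (L : Finset α) : Prop :=
  ∀ p ∈ L, ds i p = 1 ∧ (bd i p).card = 2 ∧ (∀ e ∈ m.M, p ≠ e.1 ∧ p ≠ e.2)

lemma card_bd_sgl (hg : Grad α) {p : α} (hp : sglZ i p ∨ sglX i p) : (bd i p).card = 1 := by
  rw [Finset.card_eq_one]
  rcases hp with ⟨h1, y, hy⟩ | ⟨h1, y, hy⟩
  · refine ⟨y, ?_⟩
    ext t
    rw [mem_bd, mem_singleton, ← hy t]
    constructor
    · intro h
      exact (fr_above' hg h (by omega)).2
    · intro h
      have := hg t p h
      exact fr_of_above (by omega) h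
  · refine ⟨y, ?_⟩
    ext t
    rw [mem_bd, mem_singleton, ← hy t]
    constructor
    · intro h
      exact (fr_below' hg h (by omega)).2
    · intro h
      have := hg p t h
      exact fr_of_below (by omega) h

lemma Mat.bd_matched (hg : Grad α) (m : Mat α i) {e : α × α} (he : e ∈ m.M) :
    ∃ y y', y ≠ y' ∧ bd i e.1 = {y, y'} ∧ bd i e.2 = {y, y'} := by
  obtain ⟨y, y', hne, hz, hx⟩ := m.two e he
  have h1 := m.cz e he
  have h2 := m.cx e he
  refine ⟨y, y', hne, ?_, ?_⟩
  · ext t
    rw [mem_bd, mem_insert, mem_singleton, ← hz t]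
    constructor
    · intro h
      exact (fr_above' hg h (by omega)).2
    · intro h
      have := hg t e.1 h
      exact fr_of_above (by omega) h
  · ext t
    rw [mem_bd, mem_insert, mem_singleton, ← hx t]
    constructor
    · intro h
      exact (fr_below' hg h (by omega)).2
    · intro h
      have := hg e.2 t h
      exact fr_of_below (by omega) h

lemma Mat.not_mem_rst_of_lone (hg : Grad α) (m : Mat α i) {L : Finset α} (hL : m.Lone L)
    {ε : α → ℕ} {p : α} (hp : p ∈ L) : p ∉ m.rst ε := by
  intro h
  obtain ⟨h1, h2, h3⟩ := hL p hp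
  unfold Mat.rst at h
  rw [mem_union, mem_union, mem_image, mem_image] at h
  rcases h with (⟨e, he, h4⟩ | ⟨e, he, h4⟩) | h
  · exact (h3 e (mem_filter.1 he).1).1 h4.symm
  · exact (h3 e (mem_filter.1 he).1).2 h4.symm
  · unfold sgl at h
    rw [mem_filter] at h
    have := card_bd_sgl hg h.2.1
    omega

/-- an excited element next to level `i` is attached or exceptional, if the total energy is at
most four -/
lemma Mat.att_of_pos (hg : Grad α) (hl : HasLower α i) (m : Mat α i) {L : Finset α}
    (hF : m.FullX L) {ε : α → ℕ} (hε : GoodE i ε) (hred : m.Red ε) (hs : ∑ p, ε p ≤ 4) {p : α}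
    (hp : ds i p = 1) (hpos : 0 < ε p) : att i ε p ∨ p ∈ L := by
  rcases hF p hp with h | h | h | ⟨e, he, h⟩
  · exact Or.inr h
  · left
    by_contra hatt
    have : p ∈ m.rst ε := by
      unfold Mat.rst
      rw [mem_union]
      right
      unfold sgl
      rw [mem_filter]
      exact ⟨mem_univ _, Or.inl h, hatt⟩
    have := hred p this
    omega
  · left
    by_contra hatt
    have : p ∈ m.rst ε := by
      unfold Mat.rst
      rw [mem_union]
      right
      unfold sgl
      rw [mem_filter]
      exact ⟨mem_univ _, Or.inr h, hatt⟩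
    have := hred p this
    omega
  · left
    by_contra hatt
    -- both partners are excited
    have hboth : 0 < ε e.1 ∧ 0 < ε e.2 ∧ ∃ q, ds i q = 2 ∧ 0 < ε q := by
      have d1 : ds i e.1 = 1 := by
        have := m.cz e he
        unfold ds
        omega
      have d2 : ds i e.2 = 1 := by
        have := m.cx e he
        unfold ds
        omega
      have key : ∀ a : α, ds i a = 1 → att i ε a → 0 < ε a ∧ ∃ q, ds i q = 2 ∧ 0 < ε q := by
        intro a ha h1
        rw [att_iff hg ha] at h1
        obtain ⟨q, hq, hq'⟩ := h1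
        refine ⟨closure hg hl hε hq ?_ hq', q, ?_, hq'⟩
        · intro h2
          rw [ds_eq_zero.2 h2] at ha
          omega
        · rw [fr_ds hg hq, ha]
      by_cases h1 : att i ε e.1 <;> by_cases h2 : att i ε e.2
      · exact ⟨(key _ d1 h1).1, (key _ d2 h2).1, (key _ d1 h1).2⟩
      · rcases h with h | h
        · rw [h] at hatt
          exact absurd h1 hatt
        · rw [h] at hpos
          exact ⟨(key _ d1 h1).1, hpos, (key _ d1 h1).2⟩
      · rcases h with h | h
        · rw [h] at hpos
          exact ⟨hpos, (key _ d2 h2).1, (key _ d2 h2).2⟩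
        · rw [h] at hatt
          exact absurd h2 hatt
      · exfalso
        have : p ∈ m.rst ε := by
          unfold Mat.rst
          rw [mem_union, mem_union]
          left
          rcases h with h | h
          · left
            rw [mem_image]
            exact ⟨e, mem_filter.2 ⟨he, h1, h2⟩, h.symm⟩
          · right
            rw [mem_image]
            exact ⟨e, mem_filter.2 ⟨he, h1, h2⟩, h.symm⟩
        have := hred p this
        omega
    obtain ⟨h1, h2, q, hq, h3⟩ := hboth
    obtain ⟨y, y', hne, hz, hx⟩ := m.bd_matched hg he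
    have c1 := m.cz e he
    have c2 := m.cx e he
    have hy : ∀ t, t ∈ ({y, y'} : Finset α) → corank t = i ∧ 0 < ε t := by
      intro t ht
      have h4 : t ∈ bd i e.1 := by rw [hz]; exact ht
      have h5 : t ∈ bd i e.2 := by rw [hx]; exact ht
      have h6 : corank t = i := bd_lev hg (by unfold ds; omega) h4
      refine ⟨h6, ?_⟩
      by_contra h7
      have := same_side hg hε h6 (mem_bd.1 h4) (mem_bd.1 h5) (by omega) (by omega)
      omega
    have hy1 := hy y (by simp)
    have hy2 := hy y' (by simp)
    have hcard : ({e.1, e.2, q, y, y'} : Finset α).card = 5 := by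
      have n1 : e.1 ≠ e.2 := by intro h; rw [h] at c1; omega
      have n2 : e.1 ≠ q := by
        intro h
        rw [← h] at hq
        unfold ds at hq
        omega
      have n3 : e.2 ≠ q := by
        intro h
        rw [← h] at hq
        unfold ds at hq
        omega
      have n4 : e.1 ≠ y := by intro h; rw [h] at c1; omega
      have n5 : e.1 ≠ y' := by intro h; rw [h] at c1; omega
      have n6 : e.2 ≠ y := by intro h; rw [h] at c2; omega
      have n7 : e.2 ≠ y' := by intro h; rw [h] at c2; omega
      have n8 : q ≠ y := by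
        intro h
        rw [h] at hq
        unfold ds at hq
        omega
      have n9 : q ≠ y' := by
        intro h
        rw [h] at hq
        unfold ds at hq
        omega
      rw [card_insert_of_notMem, card_insert_of_notMem, card_insert_of_notMem,
        card_insert_of_notMem, card_singleton]
      · simpa using hne
      · simp [n8, n9]
      · simp [n3, n6, n7]
      · simp [n1, n2, n4, n5]
    have := card_le_sum (T := ({e.1, e.2, q, y, y'} : Finset α)) (ε := ε) (by
      intro t ht
      simp only [mem_insert, mem_singleton] at ht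
      rcases ht with rfl | rfl | rfl | rfl | rfl
      · exact h1
      · exact h2
      · exact h3
      · exact hy1.2
      · exact hy2.2)
    omega

/-- the excited elements next to level `i` -/
noncomputable def Ax (i : ℕ) (ε : α → ℕ) : Finset α := univ.filter fun p => ds i p = 1 ∧ 0 < ε p

lemma mem_Ax {ε : α → ℕ} {p : α} : p ∈ Ax i ε ↔ ds i p = 1 ∧ 0 < ε p := by simp [Ax]

lemma Yd_subset (hg : Grad α) {ε : α → ℕ} : Yd i ε ⊆ (Ax i ε).biUnion (bd i) := by
  intro y hy
  rw [mem_Yd] at hy
  obtain ⟨h1, p, h2, h3⟩ := hy
  rw [mem_biUnion]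
  refine ⟨p, ?_, mem_bd.2 h2⟩
  rw [mem_Ax, fr_ds hg h2, ds_eq_zero.2 h1]
  exact ⟨rfl, by omega⟩

/-- if level `i` has at least two dominated elements more than there are free elements outside, then
there are two excited elements next to level `i` -/
lemma two_excited (hg : Grad α) (hdeg : ∀ p : α, (bd i p).card ≤ 2) {ε : α → ℕ}
    (h : (Fo i ε).card + 2 ≤ (Yd i ε).card) : ∃ p ∈ Ax i ε, ∃ p' ∈ Ax i ε, p ≠ p' := by
  by_contra hcon
  push Not at hcon
  have h1 : (Yd i ε).Nonempty := by
    rw [← Finset.card_pos]
    omega
  obtain ⟨y, hy⟩ := h1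
  have h2 := Yd_subset hg hy
  rw [mem_biUnion] at h2
  obtain ⟨p, hp, _⟩ := h2
  have h3 : Yd i ε ⊆ bd i p := by
    intro t ht
    have h4 := Yd_subset hg ht
    rw [mem_biUnion] at h4
    obtain ⟨p', hp', h5⟩ := h4
    rw [hcon p hp p' hp']
    exact h5
  have h4 := hdeg p
  have h5 := card_le_card h3
  have h6 : Yd i ε = bd i p := Finset.eq_of_subset_of_card_le h3 (by omega)
  have h7 : (Fo i ε).Nonempty := by
    apply peak hg
    · rw [mem_Ax] at hp
      refine ⟨p, ?_, hp.2⟩
      intro h7
      rw [ds_eq_zero.2 h7] at hp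
      omega
    · intro p' y' hp' hpos hfr
      have h8 : p = p' := hcon p hp p' (mem_Ax.2 ⟨hp', hpos⟩)
      have h9 : y' ∈ Yd i ε := by
        rw [h6, h8]
        exact mem_bd.2 hfr
      rw [mem_Yd] at h9
      obtain ⟨h10, p'', h11, h12⟩ := h9
      have h13 : p'' ∈ Ax i ε := by
        rw [mem_Ax, fr_ds hg h11, ds_eq_zero.2 h10]
        exact ⟨rfl, by omega⟩
      rw [← h8, hcon p hp p'' h13]
      exact h12
  have := Finset.card_pos.2 h7
  omega

end Pool.Gauss
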