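import Pool.Agent.Work.MP_065141_co.Rthree2

/-!
# Three levels of size one: the poset with 16 elements
-/

set_option autoImplicit false
set_option linter.unusedSectionVars false
open scoped Classical
open Finset

namespace Pool.Gauss

variable {α : Type} [Fintype α] [PartialOrder α]

lemma card_eq_sum_sz : Fintype.card α = ∑ l ∈ range (HT α), sz α l := by
  rw [← Finset.card_univ, Finset.card_eq_sum_card_fiberwise (f := corank) (t := range (HT α))
    (fun x _ => by simp [corank_lt_HT])]
  rfl

/-- an isomorphism from a table of covers -/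
lemma iso_of_table (tab : List ℕ) (φ : Fin tab.length → α) (hb : Function.Bijective φ)
    (hP : ∀ j, Pr (φ j) =
      (univ.filter fun k : Fin tab.length => (tab.get j).testBit k = true).image φ)
    {β : Type} [Fintype β] [PartialOrder β] (e : Fin tab.length ≃ β)
    (he : ∀ j k, e j ⋖ e k ↔ (tab.get j).testBit k = true) : Nonempty (α ≃o β) := by
  apply orderIso_of_covBy ((Equiv.ofBijective φ hb).symm.trans e)
  intro x y
  obtain ⟨j, rfl⟩ := hb.2 x
  obtain ⟨k, rfl⟩ := hb.2 y
  have h1 : ∀ j, (Equiv.ofBijective φ hb).symm (φ j) = j := fun j =>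
    Equiv.ofBijective_symm_apply_apply φ hb j
  rw [Equiv.trans_apply, Equiv.trans_apply, h1, h1, he, ← Gauss.mem_Pr, hP, mem_image]
  constructor
  · rintro ⟨k', hk', h2⟩
    rw [← hb.1 h2]
    exact (mem_filter.1 hk').2
  · intro h2
    exact ⟨k, mem_filter.2 ⟨mem_univ _, h2⟩, rfl⟩

/-- the only element of a level of size one -/
lemma Ctx.Pr_of_sz (C : Ctx α) {j : ℕ} (h : sz α j = 1) {x y : α} (hx : corank x = j + 1)
    (hy : corank y = j) : Pr x = {y} := by
  rw [eq_singleton_iff_unique_mem]
  constructor
  · exact Gauss.mem_Pr.2 (C.covBy_of_sz h hx hy)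
  · intro z hz
    have h1 := C.cor_Pr hz
    unfold sz at h
    exact card_le_one.1 h.le z (mem_lev.2 (by omega)) y (mem_lev.2 hy)

lemma eq_of_sz_one {j : ℕ} (h : sz α j = 1) {x y : α} (hx : corank x = j)
    (hy : corank y = j) : x = y := by
  unfold sz at h
  exact card_le_one.1 h.le x (mem_lev.2 hx) y (mem_lev.2 hy)

theorem rthree_E6 (C : Ctx α) {s : ℕ → α} {a b c d e g u p w x : α}
    (hR : R3 3 s a b c d e g) (hu : Pr u = {e, g}) (hp : Pr p = {g})
    (hL : ∀ x : α, corank x = 6 → x = u ∨ x = p) (hw : Pr w = {u}) (hx : Pr x = {u, p})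
    (hL' : ∀ y : α, corank y = 7 → y = w ∨ y = x) :
    Nonempty (α ≃o LowerSet (LowerSet (Fin 2 × Fin 3))) := by
  have h8 := rthree_eight C hR hu hp hL hw hx hL'
  have cs : ∀ l < 3, corank (s l) = l := hR.s_cor
  have cu : corank u = 6 := by
    have := C.cor_Pr (x := u) (y := e) (by rw [hu]; simp)
    have := hR.corE C
    omega
  have cp : corank p = 6 := by
    have := C.cor_Pr (x := p) (y := g) (by rw [hp]; simp)
    have := hR.corG C
    omega
  have cw : corank w = 7 := by
    have := C.cor_Pr (x := w) (y := u) (by rw [hw]; simp)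
    omega
  have cx : corank x = 7 := by
    have := C.cor_Pr (x := x) (y := u) (by rw [hx]; simp)
    omega
  have hup : u ≠ p := by
    rintro rfl
    rw [hu] at hp
    have h2 := congrArg card hp
    rw [card_singleton, card_pair hR.eg] at h2
    omega
  have hwx : w ≠ x := by
    rintro rfl
    rw [hw] at hx
    have h2 := congrArg card hx
    rw [card_singleton, card_pair hup] at h2
    omega
  have sz6 : sz α 6 = 2 := by
    unfold sz
    rw [card_eq_two]
    refine ⟨u, p, hup, ?_⟩
    ext z
    rw [mem_lev, mem_insert, mem_singleton]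
    constructor
    · exact hL z
    · rintro (rfl | rfl)
      · exact cu
      · exact cp
  have lev7 : lev α 7 = {w, x} := by
    ext z
    rw [mem_lev, mem_insert, mem_singleton]
    constructor
    · exact hL' z
    · rintro (rfl | rfl)
      · exact cw
      · exact cx
  have sz7 : sz α 7 = 2 := by
    unfold sz
    rw [lev7, card_pair hwx]
  have sz0 := hR.sz1 C 0 (by omega)
  have sz1 := hR.sz1 C 1 (by omega)
  have sz2 := hR.sz1 C 2 (by omega)
  have sz3 : sz α 3 = 2 := hR.szA C
  have sz4 : sz α 4 = 2 := hR.szC C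
  have sz5 : sz α 5 = 2 := hR.szE C
  have hH1 : HT α ≤ 11 := by
    by_contra hcon
    have := C.sz_unimodal (e := 3) (c := 8) (by omega) (by omega)
    omega
  have hH0 : 7 < HT α := by
    have := corank_lt_HT x
    omega
  have hH : HT α = 11 := by
    have h1 := C.sz_palin hH0
    rw [sz7] at h1
    have h2 : HT α = 8 ∨ HT α = 9 ∨ HT α = 10 ∨ HT α = 11 := by omega
    rcases h2 with h2 | h2 | h2 | h2
    · rw [h2] at h1
      norm_num at h1
      omega
    · rw [h2] at h1
      norm_num at h1
      omega
    · rw [h2] at h1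
      norm_num at h1
      omega
    · exact h2
  have sz9 : sz α 9 = 1 := by
    have h1 := C.sz_palin (j := 1) (by omega)
    rw [hH, sz1] at h1
    exact h1
  have sz10 : sz α 10 = 1 := by
    have h1 := C.sz_palin (j := 0) (by omega)
    rw [hH, sz0] at h1
    exact h1
  obtain ⟨y, cy, hy2, -⟩ := C.one_double hH0 sz7
  have hy : Pr y = {w, x} := by
    apply eq_of_subset_of_card_le
    · intro z hz
      have := C.cor_Pr hz
      rw [mem_insert, mem_singleton]
      exact hL' z (by omega)
    · rw [hy2, card_pair hwx]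
  obtain ⟨y1, cy1⟩ := C.exists_lev (i := 9) (by omega)
  obtain ⟨y2, cy2⟩ := C.exists_lev (i := 10) (by omega)
  have hy1 : Pr y1 = {y} := C.Pr_of_sz h8 cy1 cy
  have hy2' : Pr y2 = {y1} := C.Pr_of_sz sz9 cy2 cy1
  have hs0 : Pr (s 0) = ∅ := by
    rw [eq_empty_iff_forall_notMem]
    intro z hz
    have h1 := C.cor_Pr hz
    have h2 := cs 0 (by omega)
    omega
  have hs1 : Pr (s 1) = {s 0} := hR.s_pr 0 (by omega)
  have hs2 : Pr (s 2) = {s 1} := hR.s_pr 1 (by omega)
  have hPa : Pr a = {s 2} := hR.Pa
  have hPb : Pr b = {s 2} := hR.Pb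
  obtain ⟨e0, he0⟩ := modelE6
  let φ : Fin 16 → α := ![s 0, s 1, s 2, b, a, c, d, e, g, u, p, x, w, y, y1, y2]
  have hsurj : Function.Surjective φ := by
    intro z
    have hz := corank_lt_HT z
    rw [hH] at hz
    have h0 : corank z = 0 ∨ corank z = 1 ∨ corank z = 2 ∨ corank z = 3 ∨ corank z = 4 ∨
      corank z = 5 ∨ corank z = 6 ∨ corank z = 7 ∨ corank z = 8 ∨ corank z = 9 ∨
      corank z = 10 := by omega
    rcases h0 with h | h | h | h | h | h | h | h | h | h | h
    · exact ⟨0, (eq_of_sz_one sz0 h (cs 0 (by omega))).symm⟩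
    · exact ⟨1, (eq_of_sz_one sz1 h (cs 1 (by omega))).symm⟩
    · exact ⟨2, (eq_of_sz_one sz2 h (cs 2 (by omega))).symm⟩
    · rcases hR.La z h with h1 | h1
      · exact ⟨4, h1.symm⟩
      · exact ⟨3, h1.symm⟩
    · rcases hR.Lc z h with h1 | h1
      · exact ⟨5, h1.symm⟩
      · exact ⟨6, h1.symm⟩
    · rcases hR.Le z h with h1 | h1
      · exact ⟨7, h1.symm⟩
      · exact ⟨8, h1.symm⟩
    · rcases hL z h with h1 | h1
      · exact ⟨9, h1.symm⟩
      · exact ⟨10, h1.symm⟩
    · rcases hL' z h with h1 | h1
      · exact ⟨12, h1.symm⟩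
      · exact ⟨11, h1.symm⟩
    · exact ⟨13, (eq_of_sz_one h8 h cy).symm⟩
    · exact ⟨14, (eq_of_sz_one sz9 h cy1).symm⟩
    · exact ⟨15, (eq_of_sz_one sz10 h cy2).symm⟩
  have hcard : Fintype.card (Fin 16) = Fintype.card α := by
    rw [Fintype.card_fin, card_eq_sum_sz, hH]
    simp only [sum_range_succ, sum_range_zero, sz0, sz1, sz2, sz3, sz4, sz5, sz6, sz7, h8, sz9,
      sz10]
  have hbij : Function.Bijective φ :=
    (Fintype.bijective_iff_surjective_and_card φ).2 ⟨hsurj, hcard⟩
  have key : ∀ j : Fin 16, Pr (φ j) =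
      (univ.filter fun k : Fin 16 => (tabE6.get j).testBit k = true).image φ := by
    have T : ∀ (j : Fin 16) (S : Finset (Fin 16)),
        (univ.filter fun k : Fin 16 => (tabE6.get j).testBit k = true) = S →
        Pr (φ j) = S.image φ → Pr (φ j) =
          (univ.filter fun k : Fin 16 => (tabE6.get j).testBit k = true).image φ := by
      intro j S h1 h2
      rw [h1, h2]
    intro j
    fin_cases j
    · exact T 0 ∅ (by decide +kernel) (by rw [image_empty]; exact hs0)
    · exact T 1 {0} (by decide +kernel) (by rw [image_singleton]; exact hs1)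
    · exact T 2 {1} (by decide +kernel) (by rw [image_singleton]; exact hs2)
    · exact T 3 {2} (by decide +kernel) (by rw [image_singleton]; exact hPb)
    · exact T 4 {2} (by decide +kernel) (by rw [image_singleton]; exact hPa)
    · exact T 5 {4, 3} (by decide +kernel) (by rw [image_insert, image_singleton]; exact hR.Pc)
    · exact T 6 {4} (by decide +kernel) (by rw [image_singleton]; exact hR.Pd)
    · exact T 7 {5, 6} (by decide +kernel) (by rw [image_insert, image_singleton]; exact hR.Pe)
    · exact T 8 {5} (by decide +kernel) (by rw [image_singleton]; exact hR.Pg)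
    · exact T 9 {7, 8} (by decide +kernel) (by rw [image_insert, image_singleton]; exact hu)
    · exact T 10 {8} (by decide +kernel) (by rw [image_singleton]; exact hp)
    · exact T 11 {9, 10} (by decide +kernel) (by rw [image_insert, image_singleton]; exact hx)
    · exact T 12 {9} (by decide +kernel) (by rw [image_singleton]; exact hw)
    · exact T 13 {12, 11} (by decide +kernel) (by rw [image_insert, image_singleton]; exact hy)
    · exact T 14 {13} (by decide +kernel) (by rw [image_singleton]; exact hy1)
    · exact T 15 {14} (by decide +kernel) (by rw [image_singleton]; exact hy2')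
  exact iso_of_table tabE6 φ hbij key e0 he0

end Pool.Gauss
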