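import Pool.Agent.Work.MP_065141_co.Rthree2
import Pool.Agent.Work.MP_065141_co.Count2

/-!
# Four levels of size one: the poset with 27 elements
-/

set_option autoImplicit false
set_option linter.unusedSectionVars false
open scoped Classical
open Finset

namespace Pool.Gauss

variable {α : Type} [Fintype α] [PartialOrder α]

/-- all the data of the levels `0, ..., 8` -/
structure R8 (s : ℕ → α) (a b c d e g u p w x w' : α) : Prop where
  top : R3 4 s a b c d e g
  Pu : Pr u = {e, g}
  Pp : Pr p = {g}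
  Lu : ∀ x : α, corank x = 7 → x = u ∨ x = p
  Pw : Pr w = {u}
  Px : Pr x = {u, p}
  Pw' : Pr w' = {p}
  Lw : ∀ y : α, corank y = 8 → y = w ∨ y = x ∨ y = w'

/-! ### one half -/

/-- table of the upper covers in the levels `0, ..., 8` -/
def tabH : List ℕ := [0, 1, 2, 4, 8, 8, 48, 32, 192, 64, 768, 512, 3072, 1024, 2048]

/-- table of the levels -/
def corH : List ℕ := [0, 1, 2, 3, 4, 4, 5, 5, 6, 6, 7, 7, 8, 8, 8]

def tH (j : Fin 15) : ℕ := tabH.get j
def cH (j : Fin 15) : ℕ := corH.get j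

lemma cH_same : ∀ j k : Fin 15, j < k → cH j = cH k → (j = 4 ∧ k = 5) ∨ (j = 6 ∧ k = 7) ∨
    (j = 8 ∧ k = 9) ∨ (j = 10 ∧ k = 11) ∨ (j = 12 ∧ k = 13) ∨ (j = 12 ∧ k = 14) ∨
    (j = 13 ∧ k = 14) := by decide

lemma cH_le : ∀ j : Fin 15, cH j ≤ 8 := by decide

lemma cH_lt : ∀ j : Fin 15, j < 12 → cH j < 8 := by decide

/-- the levels `0, ..., 8` are listed by `E` -/
structure Half (E : Fin 15 → α) : Prop where
  cor : ∀ j, corank (E j) = cH j
  inj : Function.Injective E
  sur : ∀ y, corank y ≤ 8 → ∃ j, E j = y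
  cov : ∀ j k : Fin 15, E j ⋖ E k ↔ (tH j).testBit k = true

/-- the list of the elements -/
def eH (s : ℕ → α) (a b c d e g u p w x w' : α) : Fin 15 → α :=
  ![s 0, s 1, s 2, s 3, b, a, c, d, e, g, u, p, x, w, w']

lemma corank_of_Pr (C : Ctx α) {x y : α} {S : Finset α} (h : Pr x = S) (hy : y ∈ S) :
    corank x = corank y + 1 := by
  rw [← h, Gauss.mem_Pr] at hy
  exact C.cork hy

theorem R8.half (C : Ctx α) {s : ℕ → α} {a b c d e g u p w x w' : α}
    (hR : R8 s a b c d e g u p w x w') : Half (eH s a b c d e g u p w x w') := by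
  have hT := hR.top
  have s0 := hT.s_cor 0 (by omega)
  have s1 := hT.s_cor 1 (by omega)
  have s2 := hT.s_cor 2 (by omega)
  have s3 := hT.s_cor 3 (by omega)
  have ca : corank a = 4 := by
    rw [corank_of_Pr C hT.Pa (mem_singleton_self _), s3]
  have cb : corank b = 4 := by
    rw [corank_of_Pr C hT.Pb (mem_singleton_self _), s3]
  have cc : corank c = 5 := by
    rw [corank_of_Pr C hT.Pc (mem_insert_self _ _), ca]
  have cd : corank d = 5 := by
    rw [corank_of_Pr C hT.Pd (mem_singleton_self _), ca]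
  have ce : corank e = 6 := by
    rw [corank_of_Pr C hT.Pe (mem_insert_self _ _), cc]
  have cg : corank g = 6 := by
    rw [corank_of_Pr C hT.Pg (mem_singleton_self _), cc]
  have cu : corank u = 7 := by
    rw [corank_of_Pr C hR.Pu (mem_insert_self _ _), ce]
  have cp : corank p = 7 := by
    rw [corank_of_Pr C hR.Pp (mem_singleton_self _), cg]
  have cw : corank w = 8 := by
    rw [corank_of_Pr C hR.Pw (mem_singleton_self _), cu]
  have cx : corank x = 8 := by
    rw [corank_of_Pr C hR.Px (mem_insert_self _ _), cu]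
  have cw' : corank w' = 8 := by
    rw [corank_of_Pr C hR.Pw' (mem_singleton_self _), cp]
  have nab : b ≠ a := hT.ab.symm
  have ncd : c ≠ d := by
    rintro rfl
    have h1 : b ∈ ({a} : Finset α) := by
      rw [← hT.Pd, hT.Pc]
      simp
    exact nab (mem_singleton.1 h1)
  have neg : e ≠ g := by
    rintro rfl
    have h1 : d ∈ ({c} : Finset α) := by
      rw [← hT.Pg, hT.Pe]
      simp
    exact ncd (mem_singleton.1 h1).symm
  have nup : u ≠ p := by
    rintro rfl
    have h1 : e ∈ ({g} : Finset α) := by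
      rw [← hR.Pp, hR.Pu]
      simp
    exact neg (mem_singleton.1 h1)
  have nxw : x ≠ w := by
    rintro rfl
    have h1 : p ∈ ({u} : Finset α) := by
      rw [← hR.Pw, hR.Px]
      simp
    exact nup (mem_singleton.1 h1).symm
  have nxw' : x ≠ w' := by
    rintro rfl
    have h1 : u ∈ ({p} : Finset α) := by
      rw [← hR.Pw', hR.Px]
      simp
    exact nup (mem_singleton.1 h1)
  have nww' : w ≠ w' := by
    rintro rfl
    have h1 : u ∈ ({p} : Finset α) := by
      rw [← hR.Pw', hR.Pw]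
      simp
    exact nup (mem_singleton.1 h1)
  have hcor : ∀ j, corank (eH s a b c d e g u p w x w' j) = cH j := by
    intro j
    fin_cases j
    exacts [s0, s1, s2, s3, cb, ca, cc, cd, ce, cg, cu, cp, cx, cw, cw']
  have hlt : ∀ j k : Fin 15, j < k →
      eH s a b c d e g u p w x w' j ≠ eH s a b c d e g u p w x w' k := by
    intro j k hjk he
    have h1 := congrArg corank he
    rw [hcor, hcor] at h1
    rcases cH_same j k hjk h1 with ⟨rfl, rfl⟩ | ⟨rfl, rfl⟩ | ⟨rfl, rfl⟩ | ⟨rfl, rfl⟩ |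
      ⟨rfl, rfl⟩ | ⟨rfl, rfl⟩ | ⟨rfl, rfl⟩
    exacts [nab he, ncd he, neg he, nup he, nxw he, nxw' he, nww' he]
  have hinj : Function.Injective (eH s a b c d e g u p w x w') := by
    intro j k he
    rcases lt_trichotomy j k with h | h | h
    · exact absurd he (hlt j k h)
    · exact h
    · exact absurd he.symm (hlt k j h)
  have hsur : ∀ y, corank y ≤ 8 → ∃ j, eH s a b c d e g u p w x w' j = y := by
    intro y hy
    obtain ⟨n, hn⟩ : ∃ n, n = corank y := ⟨_, rfl⟩
    rw [← hn] at hy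
    interval_cases n
    · have := hT.s_unq y (by omega)
      rw [← hn] at this
      exact ⟨0, this.symm⟩
    · have := hT.s_unq y (by omega)
      rw [← hn] at this
      exact ⟨1, this.symm⟩
    · have := hT.s_unq y (by omega)
      rw [← hn] at this
      exact ⟨2, this.symm⟩
    · have := hT.s_unq y (by omega)
      rw [← hn] at this
      exact ⟨3, this.symm⟩
    · rcases hT.La y hn.symm with rfl | rfl
      exacts [⟨5, rfl⟩, ⟨4, rfl⟩]
    · rcases hT.Lc y hn.symm with rfl | rfl
      exacts [⟨6, rfl⟩, ⟨7, rfl⟩]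
    · rcases hT.Le y hn.symm with rfl | rfl
      exacts [⟨8, rfl⟩, ⟨9, rfl⟩]
    · rcases hR.Lu y hn.symm with rfl | rfl
      exacts [⟨10, rfl⟩, ⟨11, rfl⟩]
    · rcases hR.Lw y hn.symm with rfl | rfl | rfl
      exacts [⟨13, rfl⟩, ⟨12, rfl⟩, ⟨14, rfl⟩]
  have hP0 : Pr (s 0) = ∅ := by
    rw [eq_empty_iff_forall_notMem]
    intro y hy
    rw [Gauss.mem_Pr] at hy
    have := C.cork hy
    omega
  have hpr : ∀ j, Pr (eH s a b c d e g u p w x w' j) =
      (univ.filter fun k : Fin 15 => (tH j).testBit k = true).image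
        (eH s a b c d e g u p w x w') := by
    intro j
    have key : ∀ (j : Fin 15) (S : Finset (Fin 15)),
        (univ.filter fun k : Fin 15 => (tH j).testBit k = true) = S →
        Pr (eH s a b c d e g u p w x w' j) = S.image (eH s a b c d e g u p w x w') →
        Pr (eH s a b c d e g u p w x w' j) =
          (univ.filter fun k : Fin 15 => (tH j).testBit k = true).image
            (eH s a b c d e g u p w x w') := by
      intro j S h1 h2
      rw [h1, h2]
    fin_cases j
    · exact key 0 ∅ (by decide) (by rw [image_empty]; exact hP0)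
    · exact key 1 {0} (by decide) (by rw [image_singleton]; exact hT.s_pr 0 (by omega))
    · exact key 2 {1} (by decide) (by rw [image_singleton]; exact hT.s_pr 1 (by omega))
    · exact key 3 {2} (by decide) (by rw [image_singleton]; exact hT.s_pr 2 (by omega))
    · exact key 4 {3} (by decide) (by rw [image_singleton]; exact hT.Pb)
    · exact key 5 {3} (by decide) (by rw [image_singleton]; exact hT.Pa)
    · exact key 6 {5, 4} (by decide) (by rw [image_insert, image_singleton]; exact hT.Pc)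
    · exact key 7 {5} (by decide) (by rw [image_singleton]; exact hT.Pd)
    · exact key 8 {6, 7} (by decide) (by rw [image_insert, image_singleton]; exact hT.Pe)
    · exact key 9 {6} (by decide) (by rw [image_singleton]; exact hT.Pg)
    · exact key 10 {8, 9} (by decide) (by rw [image_insert, image_singleton]; exact hR.Pu)
    · exact key 11 {9} (by decide) (by rw [image_singleton]; exact hR.Pp)
    · exact key 12 {10, 11} (by decide) (by rw [image_insert, image_singleton]; exact hR.Px)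
    · exact key 13 {10} (by decide) (by rw [image_singleton]; exact hR.Pw)
    · exact key 14 {11} (by decide) (by rw [image_singleton]; exact hR.Pw')
  refine ⟨hcor, hinj, hsur, ?_⟩
  intro j k
  rw [← Gauss.mem_Pr, hpr, mem_image]
  constructor
  · rintro ⟨l, h1, h2⟩
    rw [← hinj h2]
    exact (mem_filter.1 h1).2
  · intro h1
    exact ⟨k, mem_filter.2 ⟨mem_univ _, h1⟩, rfl⟩

/-- sizes of the levels -/
lemma Half.sz_eq {E : Fin 15 → α} (h : Half E) {l : ℕ} (hl : l ≤ 8) :
    sz α l = ((univ : Finset (Fin 15)).filter fun j => cH j = l).card := by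
  unfold sz
  have h1 : lev α l = ((univ : Finset (Fin 15)).filter fun j => cH j = l).image E := by
    ext y
    rw [mem_lev, mem_image]
    constructor
    · intro hy
      obtain ⟨j, rfl⟩ := h.sur y (by omega)
      rw [h.cor] at hy
      exact ⟨j, mem_filter.2 ⟨mem_univ _, hy⟩, rfl⟩
    · rintro ⟨j, h2, rfl⟩
      rw [h.cor]
      exact (mem_filter.1 h2).2
  rw [h1, card_image_of_injective _ h.inj]

/-- sizes: 17 levels -/
theorem R8.HT_eq (C : Ctx α) {s : ℕ → α} {a b c d e g u p w x w' : α}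
    (hR : R8 s a b c d e g u p w x w') : HT α = 17 := by
  have hH := hR.half C
  have h9 := rthree_nine C hR.top hR.Pu hR.Pp hR.Lu hR.Pw hR.Px hR.Pw' hR.Lw
  have h8 : sz α 8 = 3 := by
    rw [hH.sz_eq (by omega)]
    decide
  have hlt : 8 < HT α := by
    have h1 := corank_lt_HT (eH s a b c d e g u p w x w' 12)
    rw [hH.cor] at h1
    exact h1
  have h1 : HT α ≤ 17 := by
    by_contra h
    have := C.sz_unimodal (e := 8) (c := 9) (by omega) (by omega)
    omega
  by_contra h2
  have h3 := C.sz_palin (j := 8) hlt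
  rw [h8] at h3
  obtain ⟨l, hl⟩ : ∃ l, l = HT α - 1 - 8 := ⟨_, rfl⟩
  rw [← hl, hH.sz_eq (by omega)] at h3
  have h4 : l < 8 := by omega
  have h5 : ∀ l : Fin 8, ((univ : Finset (Fin 15)).filter fun j => cH j = l.val).card ≠ 3 := by
    decide
  exact h5 ⟨l, h4⟩ h3

/-! ### both halves -/

/-- index in the dual half -/
def rhL : List ℕ := [0, 0, 0, 0, 0, 0, 0, 0, 0, 0, 0, 0, 0, 0, 0, 10, 11, 8, 9, 6, 7, 4, 5, 3, 2, 1,
  0]

def rh (j : Fin 27) : Fin 15 := Fin.ofNat 15 (rhL.get j)

/-- the position of the dual half in the list of 27 elements -/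
def kapE7 (i1 i2 i3 : Fin 27) : Fin 15 → Fin 27 :=
  ![26, 25, 24, 23, 21, 22, 19, 20, 17, 18, 15, 16, i1, i2, i3]

/-- the list of the elements -/
def eF (E1 : Fin 15 → α) (E2 : Fin 15 → αᵒᵈ) (j : Fin 27) : α :=
  if h : j.val < 15 then E1 ⟨j.val, h⟩ else OrderDual.ofDual (E2 (rh j))

/-- the table conditions -/
abbrev TabOK (i1 i2 i3 : Fin 27) (t : Fin 27 → ℕ) : Prop :=
  (∀ i k : Fin 15, (t (Fin.castLE (by omega) i)).testBit k = (tH i).testBit k) ∧
  (∀ i k : Fin 15, (t (kapE7 i1 i2 i3 k)).testBit (kapE7 i1 i2 i3 i) = (tH i).testBit k) ∧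
  (∀ j k : Fin 27, ¬(j.val < 15 ∧ k.val < 15) → ¬(12 ≤ j.val ∧ 12 ≤ k.val) →
    (t j).testBit k = false) ∧
  (∀ j : Fin 27, 12 ≤ j.val → ∃ i : Fin 15, kapE7 i1 i2 i3 i = j)

theorem glue_table (C : Ctx α) (hH : HT α = 17) {E1 : Fin 15 → α} {E2 : Fin 15 → αᵒᵈ}
    (h1 : Half E1) (h2 : Half E2) {i1 i2 i3 : Fin 27}
    (hi1 : eF E1 E2 i1 = OrderDual.ofDual (E2 12)) (hi2 : eF E1 E2 i2 = OrderDual.ofDual (E2 13))
    (hi3 : eF E1 E2 i3 = OrderDual.ofDual (E2 14)) {t : Fin 27 → ℕ} (ht : TabOK i1 i2 i3 t) :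
    Function.Bijective (eF E1 E2) ∧
      ∀ j k : Fin 27, eF E1 E2 j ⋖ eF E1 E2 k ↔ (t j).testBit k = true := by
  obtain ⟨t1, t2, t3, t4⟩ := ht
  have hA : ∀ i : Fin 15, eF E1 E2 (Fin.castLE (by omega) i) = E1 i := by
    intro i
    unfold eF
    rw [dif_pos (show (Fin.castLE (by omega : 15 ≤ 27) i).val < 15 from i.2)]
    rfl
  have hB : ∀ i : Fin 15, eF E1 E2 (kapE7 i1 i2 i3 i) = OrderDual.ofDual (E2 i) := by
    intro i
    fin_cases i
    exacts [rfl, rfl, rfl, rfl, rfl, rfl, rfl, rfl, rfl, rfl, rfl, rfl, hi1, hi2, hi3]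
  have hcd : ∀ i : Fin 15, corank (OrderDual.ofDual (E2 i)) + cH i = 16 := by
    intro i
    have e1 := C.corank_dual (OrderDual.ofDual (E2 i))
    rw [OrderDual.toDual_ofDual, h2.cor, hH] at e1
    omega
  have hlo : ∀ j : Fin 27, j.val < 12 → corank (eF E1 E2 j) < 8 := by
    intro j hj
    have e1 := hA ⟨j.val, by omega⟩
    have e2 : Fin.castLE (by omega : 15 ≤ 27) (⟨j.val, by omega⟩ : Fin 15) = j := rfl
    rw [e2] at e1
    rw [e1, h1.cor]
    exact cH_lt _ hj
  have hhi : ∀ j : Fin 27, 15 ≤ j.val → 8 < corank (eF E1 E2 j) := by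
    intro j hj
    have e1 : eF E1 E2 j = OrderDual.ofDual (E2 (rh j)) := by
      unfold eF
      rw [dif_neg (by omega)]
    have e2 : ∀ j : Fin 27, 15 ≤ j.val → cH (rh j) < 8 := by decide
    have e3 := hcd (rh j)
    have e4 := e2 j hj
    rw [e1]
    omega
  have hcast : ∀ j : Fin 27, j.val < 15 →
      ∃ i : Fin 15, Fin.castLE (by omega : 15 ≤ 27) i = j := fun j hj => ⟨⟨j.val, hj⟩, rfl⟩
  refine ⟨⟨?_, ?_⟩, ?_⟩
  · intro j k hjk
    by_cases c1 : j.val < 15 ∧ k.val < 15
    · obtain ⟨i, rfl⟩ := hcast j c1.1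
      obtain ⟨l, rfl⟩ := hcast k c1.2
      rw [hA, hA] at hjk
      rw [h1.inj hjk]
    · by_cases c2 : 12 ≤ j.val ∧ 12 ≤ k.val
      · obtain ⟨i, rfl⟩ := t4 j c2.1
        obtain ⟨l, rfl⟩ := t4 k c2.2
        rw [hB, hB] at hjk
        rw [h2.inj (OrderDual.ofDual.injective hjk)]
      · exfalso
        have c3 : (j.val < 12 ∧ 15 ≤ k.val) ∨ (k.val < 12 ∧ 15 ≤ j.val) := by omega
        rcases c3 with ⟨c3, c4⟩ | ⟨c3, c4⟩
        · have e1 := hlo j c3
          have e2 := hhi k c4
          rw [hjk] at e1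
          omega
        · have e1 := hlo k c3
          have e2 := hhi j c4
          rw [hjk] at e2
          omega
  · intro y
    rcases Nat.lt_or_ge 8 (corank y) with c1 | c1
    · have e1 := C.corank_dual y
      obtain ⟨i, hi⟩ := h2.sur (OrderDual.toDual y) (by omega)
      exact ⟨kapE7 i1 i2 i3 i, by rw [hB, hi]; rfl⟩
    · obtain ⟨i, hi⟩ := h1.sur y c1
      exact ⟨_, (hA i).trans hi⟩
  · intro j k
    by_cases c1 : j.val < 15 ∧ k.val < 15
    · obtain ⟨i, rfl⟩ := hcast j c1.1
      obtain ⟨l, rfl⟩ := hcast k c1.2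
      rw [hA, hA, h1.cov, ← t1]
      rfl
    · by_cases c2 : 12 ≤ j.val ∧ 12 ≤ k.val
      · obtain ⟨i, rfl⟩ := t4 j c2.1
        obtain ⟨l, rfl⟩ := t4 k c2.2
        rw [hB, hB, ofDual_covBy_ofDual_iff, h2.cov, t2]
      · rw [t3 j k c1 c2]
        refine iff_of_false ?_ (by simp)
        intro h3
        have h4 := C.cork h3
        have c3 : (j.val < 12 ∧ 15 ≤ k.val) ∨ (k.val < 12 ∧ 15 ≤ j.val) := by omega
        rcases c3 with ⟨c3, c4⟩ | ⟨c3, c4⟩
        · have e1 := hlo j c3
          have e2 := hhi k c4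
          omega
        · have e1 := hlo k c3
          have e2 := hhi j c4
          omega

/-- the two halves fit together in six ways; five of them are not Gaussian -/
theorem rthree_glue7 (C : Ctx α) {s : ℕ → α} {a b c d e g u p w x w' : α}
    (hR : R8 s a b c d e g u p w x w') {s' : ℕ → αᵒᵈ} {a' b' c' d' e' g' u' p' v z v' : αᵒᵈ}
    (hR' : R8 s' a' b' c' d' e' g' u' p' v z v') (hH : HT α = 17) :
    Nonempty (α ≃o LowerSet (LowerSet (LowerSet (Fin 2 × Fin 3)))) := by
  have h1 := hR.half C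
  have h2 := hR'.half C.dual
  obtain ⟨h, hG⟩ := C.gauss
  have hmid : ∀ y : αᵒᵈ, corank y = 8 →
      OrderDual.ofDual y = w ∨ OrderDual.ofDual y = x ∨ OrderDual.ofDual y = w' := by
    intro y hy
    have e1 := C.corank_dual (OrderDual.ofDual y)
    rw [OrderDual.toDual_ofDual, hy, hH] at e1
    exact hR.Lw _ (by omega)
  have hz := hmid z (h2.cor 12)
  have hv := hmid v (h2.cor 13)
  have hv' := hmid v' (h2.cor 14)
  have nzv : OrderDual.ofDual z ≠ OrderDual.ofDual v := fun h3 => by
    have h4 : (12 : Fin 15) = 13 := h2.inj (OrderDual.ofDual.injective h3)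
    exact absurd h4 (by decide)
  have nzv' : OrderDual.ofDual z ≠ OrderDual.ofDual v' := fun h3 => by
    have h4 : (12 : Fin 15) = 14 := h2.inj (OrderDual.ofDual.injective h3)
    exact absurd h4 (by decide)
  have nvv' : OrderDual.ofDual v ≠ OrderDual.ofDual v' := fun h3 => by
    have h4 : (13 : Fin 15) = 14 := h2.inj (OrderDual.ofDual.injective h3)
    exact absurd h4 (by decide)
  have bad : ∀ (i1 i2 i3 : Fin 27) (p0 q0 : ℕ), (p0, q0) ∈ [(20480, 12288), (12288, 24576),
      (24576, 12288), (20480, 24576), (24576, 20480)] →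
      TabOK i1 i2 i3 (fun j => (tabE7 p0 q0).get j) →
      eF (eH s a b c d e g u p w x w') (eH s' a' b' c' d' e' g' u' p' v z v') i1 =
        OrderDual.ofDual z →
      eF (eH s a b c d e g u p w x w') (eH s' a' b' c' d' e' g' u' p' v z v') i2 =
        OrderDual.ofDual v →
      eF (eH s a b c d e g u p w x w') (eH s' a' b' c' d' e' g' u' p' v z v') i3 =
        OrderDual.ofDual v' → False := by
    intro i1 i2 i3 p0 q0 hpq hok e1 e2 e3
    obtain ⟨hb, hc⟩ := glue_table C hH h1 h2 e1 e2 e3 hok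
    exact not_gaussian_E7 hG p0 q0 hpq (Equiv.ofBijective _ hb) hc
  rcases hz with hz | hz | hz <;> rcases hv with hv | hv | hv <;>
    rcases hv' with hv' | hv' | hv'
  all_goals first
    | exact absurd (hz.trans hv.symm) nzv
    | exact absurd (hz.trans hv'.symm) nzv'
    | exact absurd (hv.trans hv'.symm) nvv'
    | skip
  · -- z = w, v = x, v' = w'
    exact (bad 13 12 14 12288 24576 (by decide) (by decide +kernel) hz.symm hv.symm hv'.symm).elim
  · -- z = w, v = w', v' = x
    exact (bad 13 14 12 24576 12288 (by decide) (by decide +kernel) hz.symm hv.symm hv'.symm).elim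
  · -- z = x, v = w, v' = w'
    obtain ⟨hb, hc⟩ := glue_table C hH h1 h2 (i1 := 12) (i2 := 13) (i3 := 14) hz.symm hv.symm
      hv'.symm (t := fun j => tabE7'.get j) (by decide +kernel)
    obtain ⟨e0, he0⟩ := modelE7
    refine orderIso_of_covBy ((Equiv.ofBijective _ hb).symm.trans e0) ?_
    intro y y'
    obtain ⟨j, rfl⟩ := (Equiv.ofBijective _ hb).surjective y
    obtain ⟨k, rfl⟩ := (Equiv.ofBijective _ hb).surjective y'
    rw [Equiv.trans_apply, Equiv.trans_apply, Equiv.symm_apply_apply, Equiv.symm_apply_apply]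
    exact (hc j k).trans (he0 j k).symm
  · -- z = x, v = w', v' = w
    exact (bad 12 14 13 20480 12288 (by decide) (by decide +kernel) hz.symm hv.symm hv'.symm).elim
  · -- z = w', v = w, v' = x
    exact (bad 14 13 12 24576 20480 (by decide) (by decide +kernel) hz.symm hv.symm hv'.symm).elim
  · -- z = w', v = x, v' = w
    exact (bad 14 12 13 20480 24576 (by decide) (by decide +kernel) hz.symm hv.symm hv'.symm).elim

end Pool.Gauss
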