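import Pool.Agent.Work.MP_065141_co.Rtwo1
import Pool.Agent.Work.MP_065141_co.Count2

/-!
# Sizes 1, 1, 2: gluing, the mirrored poset with 15 elements
-/

set_option autoImplicit false
set_option linter.unusedSectionVars false
open scoped Classical
open Finset

namespace Pool.Gauss

variable {α : Type} [Fintype α] [PartialOrder α]

/-- gluing the two halves -/
theorem rtwo_glue (C : Ctx α) {N : ℕ} (hN : 1 ≤ N) (hH : HT α = 2 * N - 1)
    {f : ℕ → ℕ → α} (hT : Top (Stc N) (N - 1) f)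
    {g : ℕ → ℕ → αᵒᵈ} (hT' : Top (Stc N) (N - 1) g)
    (hfg : ∀ c d, c ≤ d → c + d = N - 1 → OrderDual.ofDual (g c d) = f c d) :
    ∃ r : ℕ, Nonempty (α ≃o LowerSet (Fin 2 × Fin r)) := by
  let F : ℕ → ℕ → α := fun c d => if c + d ≤ N - 1 then f c d else
    OrderDual.ofDual (g (N - 1 - d) (N - 1 - c))
  have hF1 : ∀ c d, c + d ≤ N - 1 → F c d = f c d := by
    intro c d h
    simp only [F, if_pos h]
  have hF2 : ∀ c d, c ≤ d → N - 1 ≤ c + d → d ≤ N - 1 →
      F c d = OrderDual.ofDual (g (N - 1 - d) (N - 1 - c)) := by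
    intro c d h1 h2 h3
    by_cases h4 : c + d ≤ N - 1
    · rw [hF1 c d h4]
      have e1 : N - 1 - d = c := by omega
      have e2 : N - 1 - c = d := by omega
      rw [e1, e2, hfg c d h1 (by omega)]
    · simp only [F, if_neg h4]
  have hcor : ∀ c d, c ≤ d → d ≤ N - 1 → corank (F c d) = c + d := by
    intro c d h1 h2
    by_cases h4 : c + d ≤ N - 1
    · rw [hF1 c d h4, hT.cor c d ⟨h1, by omega⟩ h4]
    · have h5 := C.corank_dual (F c d)
      have h6 : OrderDual.toDual (F c d) = g (N - 1 - d) (N - 1 - c) := by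
        rw [hF2 c d h1 (by omega) h2]
        rfl
      rw [h6, hT'.cor _ _ ⟨by omega, by omega⟩ (by omega), hH] at h5
      omega
  have hinj : ∀ c d c' d', c ≤ d → d ≤ N - 1 → c' ≤ d' → d' ≤ N - 1 → F c d = F c' d' →
      c = c' ∧ d = d' := by
    intro c d c' d' h1 h2 h3 h4 h5
    have h6 := hcor c d h1 h2
    rw [h5, hcor c' d' h3 h4] at h6
    by_cases h7 : c + d ≤ N - 1
    · rw [hF1 c d h7, hF1 c' d' (by omega)] at h5
      exact hT.inj c d c' d' ⟨h1, by omega⟩ ⟨h3, by omega⟩ h7 (by omega) h5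
    · rw [hF2 c d h1 (by omega) h2, hF2 c' d' h3 (by omega) h4] at h5
      have h8 := hT'.inj _ _ _ _ ⟨by omega, by omega⟩ ⟨by omega, by omega⟩ (by omega) (by omega)
        (OrderDual.ofDual.injective h5)
      omega
  have hsur : ∀ x : α, ∃ c d, c ≤ d ∧ d ≤ N - 1 ∧ F c d = x := by
    intro x
    by_cases h1 : corank x ≤ N - 1
    · obtain ⟨c, d, h2, h3, h4⟩ := hT.sur x h1
      refine ⟨c, d, h2.1, by have := h2.2; omega, ?_⟩
      rw [hF1 c d (by omega), h4]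
    · have h5 := C.corank_dual x
      have h6 := corank_lt_HT x
      obtain ⟨c, d, h2, h3, h4⟩ := hT'.sur (OrderDual.toDual x) (by omega)
      have h7 := h2.1
      have h8 := h2.2
      refine ⟨N - 1 - d, N - 1 - c, by omega, by omega, ?_⟩
      rw [hF2 _ _ (by omega) (by omega) (by omega)]
      have e1 : N - 1 - (N - 1 - c) = c := by omega
      have e2 : N - 1 - (N - 1 - d) = d := by omega
      rw [e1, e2, h4]
      rfl
  have hcov : ∀ c d c' d', c ≤ d → d ≤ N - 1 → c' ≤ d' → d' ≤ N - 1 →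
      (F c d ⋖ F c' d' ↔ (c = c' + 1 ∧ d = d') ∨ (c = c' ∧ d = d' + 1)) := by
    intro c d c' d' h1 h2 h3 h4
    by_cases h5 : c + d ≤ N - 1 ∧ c' + d' ≤ N - 1
    · rw [hF1 c d h5.1, hF1 c' d' h5.2]
      exact hT.cov c' d' c d ⟨h3, by omega⟩ ⟨h1, by omega⟩ h5.2 h5.1
    · by_cases h6 : N - 1 ≤ c + d ∧ N - 1 ≤ c' + d'
      · rw [hF2 c d h1 h6.1 h2, hF2 c' d' h3 h6.2 h4, ofDual_covBy_ofDual_iff,
          hT'.cov _ _ _ _ ⟨by omega, by omega⟩ ⟨by omega, by omega⟩ (by omega) (by omega)]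
        omega
      · constructor
        · intro h7
          have h8 := C.cork h7
          rw [hcor c d h1 h2, hcor c' d' h3 h4] at h8
          omega
        · intro h7
          omega
  let φ : {p : ℕ × ℕ // p.1 ≤ p.2 ∧ p.2 ≤ N - 1} → α := fun p => F p.1.1 p.1.2
  have hφ : Function.Bijective φ := by
    constructor
    · intro p q hpq
      have := hinj _ _ _ _ p.2.1 p.2.2 q.2.1 q.2.2 hpq
      exact Subtype.ext (Prod.ext this.1 this.2)
    · intro x
      obtain ⟨c, d, h1, h2, h3⟩ := hsur x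
      exact ⟨⟨(c, d), h1, h2⟩, h3⟩
  refine ⟨N - 1, modelStair (N - 1) (Equiv.ofBijective φ hφ).symm ?_⟩
  intro x y
  have hx : x = φ ((Equiv.ofBijective φ hφ).symm x) :=
    ((Equiv.ofBijective φ hφ).apply_symm_apply x).symm
  have hy : y = φ ((Equiv.ofBijective φ hφ).symm y) :=
    ((Equiv.ofBijective φ hφ).apply_symm_apply y).symm
  set p := (Equiv.ofBijective φ hφ).symm x
  set q := (Equiv.ofBijective φ hφ).symm y
  rw [hx, hy]
  exact hcov _ _ _ _ p.2.1 p.2.2 q.2.1 q.2.2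

/-- cells of the upper half in the table `tabT5` -/
def cu5 : List (ℕ × ℕ) := [(0, 0), (0, 1), (0, 2), (1, 1), (0, 3), (1, 2), (0, 4), (1, 3), (2, 2),
  (9, 9), (9, 9), (9, 9), (9, 9), (9, 9), (9, 9)]

/-- cells of the lower half in the table `tabT5` -/
def cl5 : List (ℕ × ℕ) := [(9, 9), (9, 9), (9, 9), (9, 9), (9, 9), (9, 9), (2, 2), (1, 3), (0, 4),
  (1, 2), (0, 3), (0, 2), (1, 1), (0, 1), (0, 0)]

def cU (j : Fin 15) : ℕ × ℕ := cu5.get j
def cL (j : Fin 15) : ℕ × ℕ := cl5.get j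

lemma cU_ok : ∀ j : Fin 15, j.val ≤ 8 → (cU j).1 ≤ (cU j).2 ∧ (cU j).2 < 5 ∧
    (cU j).1 + (cU j).2 ≤ 4 ∧ ((cU j).1 + (cU j).2 = 4 ↔ 6 ≤ j.val) := by decide

lemma cL_ok : ∀ j : Fin 15, 6 ≤ j.val → (cL j).1 ≤ (cL j).2 ∧ (cL j).2 < 5 ∧
    (cL j).1 + (cL j).2 ≤ 4 ∧ ((cL j).1 + (cL j).2 = 4 ↔ j.val ≤ 8) := by decide

lemma cM_ok : ∀ j : Fin 15, 6 ≤ j.val → j.val ≤ 8 → (cL j).1 ≤ 2 ∧ (cL j).2 = 4 - (cL j).1 ∧
    (cU j).1 = 2 - (cL j).1 ∧ (cU j).2 = 2 + (cL j).1 := by decide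

lemma cU_inj : ∀ j k : Fin 15, j.val ≤ 8 → k.val ≤ 8 → (cU j).1 = (cU k).1 →
    (cU j).2 = (cU k).2 → j = k := by decide

lemma cL_inj : ∀ j k : Fin 15, 6 ≤ j.val → 6 ≤ k.val → (cL j).1 = (cL k).1 →
    (cL j).2 = (cL k).2 → j = k := by decide

lemma cU_sur : ∀ c d : Fin 5, c.val ≤ d.val → c.val + d.val ≤ 4 → ∃ j : Fin 15, j.val ≤ 8 ∧
    (cU j).1 = c.val ∧ (cU j).2 = d.val := by decide

lemma cL_sur : ∀ c d : Fin 5, c.val ≤ d.val → c.val + d.val ≤ 4 → ∃ j : Fin 15, 6 ≤ j.val ∧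
    (cL j).1 = c.val ∧ (cL j).2 = d.val := by decide

lemma cT_up : ∀ j k : Fin 15, j.val ≤ 8 → k.val ≤ 8 →
    (((cU j).1 = (cU k).1 + 1 ∧ (cU j).2 = (cU k).2) ∨
      ((cU j).1 = (cU k).1 ∧ (cU j).2 = (cU k).2 + 1) ↔
      (tabT5.get j).testBit k = true) := by decide

lemma cT_dn : ∀ j k : Fin 15, 6 ≤ j.val → 6 ≤ k.val →
    (((cL k).1 = (cL j).1 + 1 ∧ (cL k).2 = (cL j).2) ∨
      ((cL k).1 = (cL j).1 ∧ (cL k).2 = (cL j).2 + 1) ↔
      (tabT5.get j).testBit k = true) := by decide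

lemma cT_no : ∀ j k : Fin 15, (j.val < 6 ∧ 8 < k.val) ∨ (k.val < 6 ∧ 8 < j.val) →
    ¬ (tabT5.get j).testBit k = true := by decide

/-- the mirrored poset with 15 elements is not Gaussian (`U_2(1)`) -/
theorem rtwo_mirror5 (C : Ctx α) (hH : HT α = 9)
    {f : ℕ → ℕ → α} (hT : Top (Stc 5) 4 f) {g : ℕ → ℕ → αᵒᵈ} (hT' : Top (Stc 5) 4 g)
    (hfg : ∀ c ≤ 2, OrderDual.ofDual (g c (4 - c)) = f (2 - c) (2 + c)) : False := by
  obtain ⟨h, hG⟩ := C.gauss
  let E : Fin 15 → α := fun j => if j.val ≤ 8 then f (cU j).1 (cU j).2 else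
    OrderDual.ofDual (g (cL j).1 (cL j).2)
  have hE1 : ∀ j : Fin 15, j.val ≤ 8 → E j = f (cU j).1 (cU j).2 := by
    intro j hj
    simp only [E, if_pos hj]
  have hE2 : ∀ j : Fin 15, 6 ≤ j.val → E j = OrderDual.ofDual (g (cL j).1 (cL j).2) := by
    intro j hj
    by_cases hj' : j.val ≤ 8
    · obtain ⟨h1, h2, h3, h4⟩ := cM_ok j hj hj'
      rw [hE1 j hj', h2, h3, h4, hfg _ h1]
    · simp only [E, if_neg hj']
  have hcu : ∀ j : Fin 15, j.val ≤ 8 → corank (E j) = (cU j).1 + (cU j).2 := by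
    intro j hj
    obtain ⟨h1, h2, h3, _⟩ := cU_ok j hj
    rw [hE1 j hj, hT.cor _ _ ⟨h1, h2⟩ h3]
  have hcl : ∀ j : Fin 15, 6 ≤ j.val → corank (E j) + ((cL j).1 + (cL j).2) = 8 := by
    intro j hj
    obtain ⟨h1, h2, h3, _⟩ := cL_ok j hj
    have h5 := C.corank_dual (E j)
    have h6 : OrderDual.toDual (E j) = g (cL j).1 (cL j).2 := by
      rw [hE2 j hj]
      rfl
    rw [h6, hT'.cor _ _ ⟨h1, h2⟩ h3, hH] at h5
    omega
  have hlo : ∀ j : Fin 15, j.val < 6 → corank (E j) < 4 := by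
    intro j hj
    have h1 := hcu j (by omega)
    have h2 := cU_ok j (by omega)
    omega
  have hhi : ∀ j : Fin 15, 8 < j.val → 4 < corank (E j) := by
    intro j hj
    have h1 := hcl j (by omega)
    have h2 := cL_ok j (by omega)
    omega
  have hmid : ∀ j : Fin 15, 6 ≤ j.val → j.val ≤ 8 → corank (E j) = 4 := by
    intro j hj hj'
    have h1 := hcu j (by omega)
    have h2 := cU_ok j (by omega)
    omega
  have hbij : Function.Bijective E := by
    constructor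
    · intro j k hjk
      have h1 := congrArg corank hjk
      by_cases h2 : j.val ≤ 8
      · by_cases h3 : k.val ≤ 8
        · obtain ⟨a1, a2, a3, _⟩ := cU_ok j h2
          obtain ⟨b1, b2, b3, _⟩ := cU_ok k h3
          rw [hE1 j h2, hE1 k h3] at hjk
          have := hT.inj _ _ _ _ ⟨a1, a2⟩ ⟨b1, b2⟩ a3 b3 hjk
          exact cU_inj j k h2 h3 this.1 this.2
        · have h4 := hhi k (by omega)
          rcases Nat.lt_or_ge j.val 6 with h5 | h5
          · have := hlo j h5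
            omega
          · have := hmid j h5 h2
            omega
      · have h4 := hhi j (by omega)
        have h3 : 8 < k.val := by
          by_contra h3
          rcases Nat.lt_or_ge k.val 6 with h5 | h5
          · have := hlo k h5
            omega
          · have := hmid k h5 (by omega)
            omega
        obtain ⟨a1, a2, a3, _⟩ := cL_ok j (by omega)
        obtain ⟨b1, b2, b3, _⟩ := cL_ok k (by omega)
        rw [hE2 j (by omega), hE2 k (by omega)] at hjk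
        have := hT'.inj _ _ _ _ ⟨a1, a2⟩ ⟨b1, b2⟩ a3 b3 (OrderDual.ofDual.injective hjk)
        exact cL_inj j k (by omega) (by omega) this.1 this.2
    · intro x
      by_cases h1 : corank x ≤ 4
      · obtain ⟨c, d, h2, h3, h4⟩ := hT.sur x h1
        obtain ⟨j, h5, h6, h7⟩ := cU_sur ⟨c, lt_of_le_of_lt h2.1 h2.2⟩ ⟨d, h2.2⟩ h2.1
          (by simp only; omega)
        simp only at h6 h7
        exact ⟨j, by rw [hE1 j h5, h6, h7, h4]⟩
      · have h5 := C.corank_dual x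
        obtain ⟨c, d, h2, h3, h4⟩ := hT'.sur (OrderDual.toDual x) (by omega)
        obtain ⟨j, h5, h6, h7⟩ := cL_sur ⟨c, lt_of_le_of_lt h2.1 h2.2⟩ ⟨d, h2.2⟩ h2.1
          (by simp only; omega)
        simp only at h6 h7
        refine ⟨j, ?_⟩
        rw [hE2 j h5, h6, h7, h4]
        rfl
  refine not_gaussian_T5 hG (Equiv.ofBijective E hbij) ?_
  intro j k
  change E j ⋖ E k ↔ (tabT5.get j).testBit k = true
  have hj15 : j.val < 15 := j.2
  by_cases h1 : j.val ≤ 8 ∧ k.val ≤ 8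
  · obtain ⟨a1, a2, a3, _⟩ := cU_ok j h1.1
    obtain ⟨b1, b2, b3, _⟩ := cU_ok k h1.2
    rw [hE1 j h1.1, hE1 k h1.2, ← cT_up j k h1.1 h1.2]
    exact hT.cov _ _ _ _ ⟨b1, b2⟩ ⟨a1, a2⟩ b3 a3
  · by_cases h2 : 6 ≤ j.val ∧ 6 ≤ k.val
    · obtain ⟨a1, a2, a3, _⟩ := cL_ok j h2.1
      obtain ⟨b1, b2, b3, _⟩ := cL_ok k h2.2
      rw [hE2 j h2.1, hE2 k h2.2, ofDual_covBy_ofDual_iff, ← cT_dn j k h2.1 h2.2]
      exact hT'.cov _ _ _ _ ⟨a1, a2⟩ ⟨b1, b2⟩ a3 b3
    · have h3 : (j.val < 6 ∧ 8 < k.val) ∨ (k.val < 6 ∧ 8 < j.val) := by omega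
      refine iff_of_false ?_ (cT_no j k h3)
      intro h4
      have h5 := C.cork h4
      rcases h3 with h3 | h3
      · have := hlo j h3.1
        have := hhi k h3.2
        omega
      · have := hlo k h3.1
        have := hhi j h3.2
        omega

end Pool.Gauss
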