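import Pool.Agent.Work.MP_065141_co.Rtwo1

/-!
# Sizes 1, 1, 2: even levels
-/

set_option autoImplicit false
set_option linter.unusedSectionVars false
open scoped Classical
open Finset

namespace Pool.Gauss

variable {α : Type} [Fintype α] [PartialOrder α]

/-! ### a single defect in a level with three elements -/

lemma eta_three {i : ℕ} {s t k : α} (hD : Defect i s t k) (h3 : sz α i = 3) {g : Finset α}
    (hg : g ⊆ lev α i) (hg2 : g.card = 2) : eta s t k g = 0 := by
  have hl : lev α i = {s, t, k} := by
    symm
    apply eq_of_subset_of_card_le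
    · intro x hx
      simp only [mem_insert, mem_singleton] at hx
      rcases hx with rfl | rfl | rfl
      · exact mem_lev.2 hD.hs
      · exact mem_lev.2 hD.ht
      · exact mem_lev.2 hD.hk
    · have h4 : (lev α i).card = 3 := h3
      rw [h4, card_eq_three.2 ⟨s, t, k, hD.st, hD.sk, hD.tk, rfl⟩]
  rw [eta_val]
  by_cases hk : k ∈ g
  · rw [if_pos hk]
  · rw [if_neg hk]
    have h4 : g = {s, t} := by
      apply eq_of_subset_of_card_le
      · intro x hx
        have h5 := hg hx
        rw [hl] at h5
        simp only [mem_insert, mem_singleton] at h5 ⊢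
        rcases h5 with h5 | h5 | h5
        · exact Or.inl h5
        · exact Or.inr h5
        · rw [h5] at hx
          exact absurd hx hk
      · rw [hg2, card_pair hD.st]
    rw [h4]
    simp

lemma Ctx.Pr2_sub (C : Ctx α) {w : α} {i : ℕ} (hw : corank w = i + 2) : Pr2 w ⊆ lev α i := by
  intro y hy
  rw [mem_Pr2] at hy
  obtain ⟨z, h1, h2⟩ := hy
  have := C.cork h1
  have := C.cork h2
  rw [mem_lev]
  omega

lemma Ctx.Ch2_sub (C : Ctx α) {v : α} {i : ℕ} (hv : corank v + 2 = i) : Ch2 v ⊆ lev α i := by
  intro y hy
  rw [mem_Ch2] at hy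
  obtain ⟨z, h1, h2⟩ := hy
  have := C.cork h1
  have := C.cork h2
  rw [mem_lev]
  omega

/-- a single defect is impossible in a level with three elements -/
theorem Ctx.no_defect_three (C : Ctx α) {i : ℕ} (hi0 : 0 < i) (hi : i < HT α) {s t k : α}
    (hD : Defect i s t k) (h3 : sz α i = 3)
    (hup : ∀ v : α, corank v + 2 = i → (Ch v).card = 2 → (Ch2 v).card ≤ 3) : False := by
  obtain ⟨_, h1⟩ := C.RD hi0 hi hD hup
  rw [Finset.sum_eq_zero, Finset.sum_eq_zero] at h1
  · omega
  · intro v hv
    rw [mem_QEv] at hv
    exact eta_three hD h3 (C.Ch2_sub hv.1) hv.2.2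
  · intro w hw
    rw [mem_PEv] at hw
    exact eta_three hD h3 (C.Pr2_sub hw.1) hw.2.2

/-! ### the even level as a path -/

section Even

variable {N m i : ℕ} {f : ℕ → ℕ → α}

/-- the elements of level `2m` from the diagonal to the arm -/
def evy (f : ℕ → ℕ → α) (m j : ℕ) : α := f (m - j) (m + j)

/-- the elements of level `2m - 1` from the diagonal to the arm, `j = 1, ..., m` -/
def evu (f : ℕ → ℕ → α) (m j : ℕ) : α := f (m - j) (m + j - 1)

lemma stc_hR1 {N : ℕ} : ∀ c d, Stc N c (d + 1) → Stc N (c + 1) d → Stc N c d := by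
  intro c d h1 h2
  unfold Stc at *
  omega

lemma stc_hR2 {N : ℕ} : ∀ c d, Stc N c (d + 1) → Stc N (c + 1) d → Stc N (c + 1) (d + 1) := by
  intro c d h1 h2
  unfold Stc at *
  omega

lemma even_PL (C : Ctx α) (hT : Top (Stc N) (2 * m) f) (hN : 2 * m < N) :
    PL (2 * m) m (evy f m) where
  cor j hj := by
    unfold evy
    rw [hT.cor _ _ ⟨by omega, by omega⟩ (by omega)]
    omega
  inj j hj j' hj' he := by
    unfold evy at he
    have := hT.inj _ _ _ _ ⟨by omega, by omega⟩ ⟨by omega, by omega⟩ (by omega) (by omega) he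
    omega
  sur x hx := by
    obtain ⟨c, d, h1, h2, rfl⟩ := hT.sur x (by omega)
    unfold Stc at h1
    refine ⟨m - c, by omega, ?_⟩
    unfold evy
    congr 1 <;> omega
  mD j j' h1 h2 := by
    unfold evy
    rw [pair_comm, hT.mD_eq C stc_hR1 ⟨by omega, by omega⟩ ⟨by omega, by omega⟩ (by omega)
      (by omega) (by omega)]
    congr 1
    apply propext
    omega

lemma evu_inj (hT : Top (Stc N) i f) (hi : 2 * m ≤ i + 1) (hN : 2 * m ≤ N) {j j' : ℕ} (h1 : 1 ≤ j)
    (h2 : j ≤ m) (h3 : 1 ≤ j') (h4 : j' ≤ m) (he : evu f m j = evu f m j') : j = j' := by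
  unfold evu at he
  have := hT.inj _ _ _ _ ⟨by omega, by omega⟩ ⟨by omega, by omega⟩ (by omega) (by omega) he
  omega

lemma evy_Pr_zero (C : Ctx α) (hT : Top (Stc N) (2 * m) f) (hN : 2 * m < N) (hm : 1 ≤ m) :
    Pr (evy f m 0) = {evu f m 1} := by
  obtain ⟨m', rfl⟩ : ∃ m', m = m' + 1 := ⟨m - 1, by omega⟩
  have := stc_Pr_diag C hT (c := m') (by omega) (by omega)
  unfold evy evu
  rw [show m' + 1 - 0 = m' + 1 from by omega, show m' + 1 + 0 = m' + 1 from by omega, this]
  congr 1

lemma evy_Pr_last (C : Ctx α) (hT : Top (Stc N) (2 * m) f) (hN : 2 * m < N) (hm : 1 ≤ m) :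
    Pr (evy f m m) = {evu f m m} := by
  have := stc_Pr_arm C hT (d := 2 * m - 1) (by omega) (by omega)
  unfold evy evu
  rw [show m - m = 0 from by omega, show m + m = 2 * m - 1 + 1 from by omega, this]
  congr 1

lemma evy_Pr_mid (C : Ctx α) (hT : Top (Stc N) (2 * m) f) (hN : 2 * m < N) {j : ℕ} (h1 : 0 < j)
    (h2 : j < m) : Pr (evy f m j) = {evu f m j, evu f m (j + 1)} := by
  have := stc_Pr_mid C hT (c := m - j - 1) (d := m + j - 1) (by omega) (by omega) (by omega)
  unfold evy evu
  rw [show m - j = m - j - 1 + 1 from by omega, show m + j = m + j - 1 + 1 from by omega, this,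
    pair_comm, show m + (j + 1) - 1 = m + j - 1 + 1 from by omega]
  congr 1

/-- the pairs which may occur below an even level -/
theorem even_allowed (C : Ctx α) (hm : 2 ≤ m) (hT : Top (Stc N) (2 * m) f) (hN : 2 * m < N)
    (hcl : Clean α (2 * m - 1)) {w : α} (hw : corank w = 2 * m + 1) (hw2 : (Pr w).card = 2) :
    (∃ j < m, Pr w = {evy f m j, evy f m (j + 1)}) ∨ Pr w = {evy f m 0, evy f m m} := by
  have hPL := even_PL C hT hN
  obtain ⟨j, j', h1, h2, h3⟩ := hPL.pair hw2 (C.pr_sub (i := 2 * m) (by omega))
  have hc := hcl.1 w (by omega) hw2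
  have hu : ∀ {a b : ℕ}, 1 ≤ a → a ≤ m → 1 ≤ b → b ≤ m → a ≠ b → evu f m a ≠ evu f m b :=
    fun ha ha' hb hb' hab he => hab (evu_inj hT (by omega) (by omega) ha ha' hb hb' he)
  by_cases h4 : j' = j + 1
  · left
    exact ⟨j, by omega, by rw [h3, h4]⟩
  by_cases h5 : j = 0
  · by_cases h6 : j' = m
    · right
      rw [h3, h5, h6]
    · exfalso
      subst h5
      have p0 := evy_Pr_zero C hT hN (by omega)
      have pj := evy_Pr_mid C hT hN (j := j') (by omega) (by omega)
      have h7 : Pr2 w = {evu f m 1, evu f m j', evu f m (j' + 1)} := by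
        rw [Pr2_of_pair h3, p0, pj]
        rfl
      have h8 : (Pr2 w).card = 3 := by
        rw [h7]
        exact card_eq_three.2 ⟨_, _, _, hu (by omega) (by omega) (by omega) (by omega) (by omega),
          hu (by omega) (by omega) (by omega) (by omega) (by omega),
          hu (by omega) (by omega) (by omega) (by omega) (by omega), rfl⟩
      have h9 := hc.2 h8 (evy f m 0) (by rw [h3]; simp)
      rw [p0, card_singleton] at h9
      omega
  · exfalso
    have pj := evy_Pr_mid C hT hN (j := j) (by omega) (by omega)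
    by_cases h6 : j' = m
    · subst h6
      have p0 := evy_Pr_last C hT hN (by omega)
      have h7 : Pr2 w = {evu f j' j, evu f j' (j + 1), evu f j' j'} := by
        rw [Pr2_of_pair h3, p0, pj]
        ext x
        simp only [mem_union, mem_insert, mem_singleton]
        tauto
      have h8 : (Pr2 w).card = 3 := by
        rw [h7]
        exact card_eq_three.2 ⟨_, _, _, hu (by omega) (by omega) (by omega) (by omega) (by omega),
          hu (by omega) (by omega) (by omega) (by omega) (by omega),
          hu (by omega) (by omega) (by omega) (by omega) (by omega), rfl⟩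
      have h9 := hc.2 h8 (evy f j' j') (by rw [h3]; simp)
      rw [p0, card_singleton] at h9
      omega
    · have pj' := evy_Pr_mid C hT hN (j := j') (by omega) (by omega)
      have h7 : Pr2 w = {evu f m j, evu f m (j + 1), evu f m j', evu f m (j' + 1)} := by
        rw [Pr2_of_pair h3, pj, pj']
        ext x
        simp only [mem_union, mem_insert, mem_singleton]
        tauto
      have h8 : 4 ≤ (Pr2 w).card := by
        rw [h7, card_insert_of_notMem, card_insert_of_notMem, card_pair]
        · exact hu (by omega) (by omega) (by omega) (by omega) (by omega)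
        · simp only [mem_insert, mem_singleton, not_or]
          exact ⟨hu (by omega) (by omega) (by omega) (by omega) (by omega),
            hu (by omega) (by omega) (by omega) (by omega) (by omega)⟩
        · simp only [mem_insert, mem_singleton, not_or]
          exact ⟨hu (by omega) (by omega) (by omega) (by omega) (by omega),
            hu (by omega) (by omega) (by omega) (by omega) (by omega),
            hu (by omega) (by omega) (by omega) (by omega) (by omega)⟩
      have := hc.1
      omega

/-- the number of elements above with three grandchildren -/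
lemma even_n3up (C : Ctx α) (hm : 3 ≤ m) (hT : Top (Stc N) (2 * m) f) (hN : 2 * m < N) :
    m - 2 ≤ n3up α (2 * m - 1) := by
  unfold n3up
  rw [← card_range (m - 2)]
  apply card_le_card_of_injOn (fun c => f c (2 * m - 3 - c))
  · intro c hc
    rw [mem_coe, mem_range] at hc
    rw [mem_coe, mem_filter]
    have e1 := stc_Ch_mid C hT (c := c) (d := 2 * m - 3 - c) (by omega) (by omega) (by omega)
    have e2 := stc_Ch_mid C hT (c := c + 1) (d := 2 * m - 3 - c) (by omega) (by omega) (by omega)
    have e3 := stc_Ch_mid C hT (c := c) (d := 2 * m - 3 - c + 1) (by omega) (by omega) (by omega)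
    refine ⟨mem_univ _, ?_, ?_, ?_⟩
    · rw [hT.cor _ _ ⟨by omega, by omega⟩ (by omega)]
      omega
    · rw [e1, card_pair]
      intro he
      have := hT.inj _ _ _ _ ⟨by omega, by omega⟩ ⟨by omega, by omega⟩ (by omega) (by omega) he
      omega
    · have e4 : Ch2 (f c (2 * m - 3 - c)) = {f (c + 1 + 1) (2 * m - 3 - c),
          f (c + 1) (2 * m - 3 - c + 1), f c (2 * m - 3 - c + 1 + 1)} := by
        rw [Ch2_of_pair e1, e2, e3]
        ext x
        simp only [mem_union, mem_insert, mem_singleton]
        tauto
      rw [e4]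
      refine card_eq_three.2 ⟨_, _, _, ?_, ?_, ?_, rfl⟩
      · intro he
        have := hT.inj _ _ _ _ ⟨by omega, by omega⟩ ⟨by omega, by omega⟩ (by omega) (by omega) he
        omega
      · intro he
        have := hT.inj _ _ _ _ ⟨by omega, by omega⟩ ⟨by omega, by omega⟩ (by omega) (by omega) he
        omega
      · intro he
        have := hT.inj _ _ _ _ ⟨by omega, by omega⟩ ⟨by omega, by omega⟩ (by omega) (by omega) he
        omega
  · intro c hc c' hc' he
    rw [mem_coe, mem_range] at hc hc'
    exact (hT.inj _ _ _ _ ⟨by omega, by omega⟩ ⟨by omega, by omega⟩ (by omega) (by omega) he).1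

/-- the number of elements below with three grandparents -/
lemma even_n3dn (C : Ctx α) (hm : 2 ≤ m) (hT : Top (Stc N) (2 * m) f) (hN : 2 * m < N)
    (hcl : Clean α (2 * m - 1)) :
    n3dn α (2 * m - 1) ≤ ∑ j ∈ Ico 1 (m - 1), mC (2 * m) {evy f m j, evy f m (j + 1)} := by
  unfold n3dn mC
  refine le_trans (card_le_card ?_) card_biUnion_le
  intro w hw
  rw [mem_filter] at hw
  obtain ⟨_, h1, h2, h3⟩ := hw
  rw [mem_biUnion]
  rcases even_allowed C hm hT hN hcl (w := w) (by omega) h2 with ⟨j, hj, h4⟩ | h4
  · by_cases hj0 : j = 0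
    · exfalso
      subst hj0
      rw [Pr2_of_pair h4, evy_Pr_zero C hT hN (by omega),
        evy_Pr_mid C hT hN (j := 0 + 1) (by omega) (by omega)] at h3
      have : ({evu f m 1} ∪ {evu f m (0 + 1), evu f m (0 + 1 + 1)} : Finset α) =
          {evu f m (0 + 1), evu f m (0 + 1 + 1)} := by
        ext x
        simp only [mem_union, mem_insert, mem_singleton, zero_add]
        tauto
      rw [this] at h3
      have := card_le_two (a := evu f m (0 + 1)) (b := evu f m (0 + 1 + 1))
      omega
    · by_cases hjm : j + 1 = m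
      · exfalso
        have p1 := evy_Pr_mid C hT hN (j := j) (by omega) (by omega)
        have p2 := evy_Pr_last C hT hN (by omega)
        rw [Pr2_of_pair h4, p1, hjm, p2] at h3
        have : ({evu f m j, evu f m m} ∪ {evu f m m} : Finset α) = {evu f m j, evu f m m} := by
          ext x
          simp only [mem_union, mem_insert, mem_singleton]
          tauto
        rw [this] at h3
        have := card_le_two (a := evu f m j) (b := evu f m m)
        omega
      · refine ⟨j, mem_Ico.2 ⟨by omega, by omega⟩, ?_⟩
        rw [mem_filter, mem_lev]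
        exact ⟨by omega, h4⟩
  · exfalso
    rw [Pr2_of_pair h4, evy_Pr_zero C hT hN (by omega), evy_Pr_last C hT hN (by omega)] at h3
    have : ({evu f m 1} ∪ {evu f m m} : Finset α) = {evu f m 1, evu f m m} := rfl
    rw [this] at h3
    have := card_le_two (a := evu f m 1) (b := evu f m m)
    omega

end Even

/-- even levels with continuing arm: perfect, or the tip pair -/
theorem rtwo_even (C : Ctx α) (h1 : sz α 1 = 1) {m : ℕ} (hm : 2 ≤ m) {f : ℕ → ℕ → α}
    (hT : Top (Stc (2 * m + 1)) (2 * m) f) (hP : ∀ j < 2 * m, Perf α j)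
    (hi : 2 * m + 1 < HT α) (harm : ∃ x : α, Pr x = {f 0 (2 * m)}) :
    (∃ x : α, Pr x = {f 0 (2 * m)} ∧ ∀ x' : α, corank x' = 2 * m + 1 → (Pr x').card = 1 →
      x' = x) ∧
    (Perf α (2 * m) ∨ (3 ≤ m ∧ Defect (2 * m) (f 1 (2 * m - 1)) (f m m) (f 0 (2 * m)) ∧
      (Ch (f 1 (2 * m - 1))).card = 1)) := by
  have hN : 2 * m < 2 * m + 1 := by omega
  have hPL := even_PL C hT hN
  obtain ⟨x0, hx0⟩ := harm
  have hx0c : corank x0 = 2 * m + 1 := by
    have h2 : f 0 (2 * m) ∈ Pr x0 := by rw [hx0]; simp
    rw [Gauss.mem_Pr] at h2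
    rw [C.cork h2, hT.cor 0 (2 * m) ⟨by omega, by omega⟩ (by omega)]
    omega
  have hszi := hPL.sz_eq
  have h2 := C.sgl_pr (i := 2 * m) (by omega)
  have h3 := C.sgl_ch (i := 2 * m) (by omega)
  have h4 := rtwo_sz_le C h1 (2 * m + 1)
  have h5 : 0 < ((lev α (2 * m + 1)).filter fun x => (Pr x).card = 1).card :=
    card_pos.2 ⟨x0, mem_filter.2 ⟨mem_lev.2 hx0c, by rw [hx0, card_singleton]⟩⟩
  have h6 : ((lev α (2 * m + 1)).filter fun x => (Pr x).card = 1).card = 1 := by omega
  have h7 : ((lev α (2 * m)).filter fun x => (Ch x).card = 1).card = 1 := by omega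
  have huniq : ∀ x' : α, corank x' = 2 * m + 1 → (Pr x').card = 1 → x' = x0 := by
    intro x' h8 h9
    exact card_le_one.1 h6.le x' (mem_filter.2 ⟨mem_lev.2 h8, h9⟩) x0
      (mem_filter.2 ⟨mem_lev.2 hx0c, by rw [hx0, card_singleton]⟩)
  refine ⟨⟨x0, hx0, huniq⟩, ?_⟩
  obtain ⟨S, hS⟩ := card_pos.1 (by omega :
    0 < ((lev α (2 * m)).filter fun x => (Ch x).card = 1).card)
  have hS0 := hS
  rw [mem_filter, mem_lev] at hS
  have hS' : ∀ S' : α, corank S' = 2 * m → (Ch S').card = 1 → S' = S := by
    intro S' h8 h9
    exact card_le_one.1 h7.le S' (mem_filter.2 ⟨mem_lev.2 h8, h9⟩) S hS0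
  have ym : evy f m m = f 0 (2 * m) := by
    unfold evy
    congr 1 <;> omega
  have y0 : evy f m 0 = f m m := by
    unfold evy
    congr 1
  rcases hPL.one_one C (by omega) (by omega) hi (x0 := x0) (S := S) (by rw [hx0, ym]) huniq hS.1
    hS.2 hS' with ⟨_, h8⟩ | ⟨hS1, k, hD⟩
  · exact Or.inl h8
  · have hfa := rtwo_facts C h1 (i := 2 * m) (by omega) (by omega) hT
    obtain ⟨_, hQ, _, _, hPe, _, hup⟩ := hfa
    have hPe1 := hPe (m - 1) (by omega)
    have hQ1 := hQ (m - 1) (by omega)
    rw [show 2 * (m - 1) + 1 = 2 * m - 1 from by omega] at hPe1 hQ1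
    obtain ⟨hcl, hN3⟩ := C.R0 (i := 2 * m - 1) (by omega) (hP _ (by omega)) hPe1 hQ1
    -- m = 2
    by_cases hm2 : m = 2
    · exfalso
      subst hm2
      exact C.no_defect_three (by omega) (by omega) hD hszi
        (fun v hv hv2 => hup v (by omega) hv2)
    -- k
    obtain ⟨w, hw, hw2⟩ := exists_of_mC_pos hD.mC_pos
    have hk0 : k = evy f m 1 ∨ k = evy f m m := by
      have e0 : ∀ {a : ℕ}, a ≤ m → evy f m 0 = evy f m a → a = 0 :=
        fun ha he => (hPL.inj 0 (by omega) _ ha he).symm
      have htk := hD.tk
      rcases even_allowed C hm hT hN hcl hw (by rw [hw2, card_pair hD.tk]) with ⟨j, hj, h9⟩ | h9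
      · rw [hw2] at h9
        have m1 : evy f m 0 ∈ ({evy f m j, evy f m (j + 1)} : Finset α) := by rw [← h9]; simp
        have m2 : k ∈ ({evy f m j, evy f m (j + 1)} : Finset α) := by rw [← h9]; simp
        rw [mem_insert, mem_singleton] at m1 m2
        have hj0 : j = 0 := by
          rcases m1 with m1 | m1
          · exact e0 (by omega) m1
          · have := e0 (by omega) m1
            omega
        subst hj0
        rcases m2 with m2 | m2
        · exact absurd m2.symm htk
        · exact Or.inl m2
      · rw [hw2] at h9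
        have m2 : k ∈ ({evy f m 0, evy f m m} : Finset α) := by rw [← h9]; simp
        rw [mem_insert, mem_singleton] at m2
        rcases m2 with m2 | m2
        · exact absurd m2.symm htk
        · exact Or.inr m2
    obtain ⟨j, hj, hSk⟩ := hPL.nbr C hD
    have mS : S ∈ ({evy f m j, evy f m (j + 1)} : Finset α) := by rw [← hSk]; simp
    have mk : k ∈ ({evy f m j, evy f m (j + 1)} : Finset α) := by rw [← hSk]; simp
    have hSk' := hD.sk
    rw [mem_insert, mem_singleton] at mS mk
    rcases hk0 with hk | hk
    · exfalso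
      -- k = y 1, S = y 2
      have hS2 : S = evy f m 2 ∧ j = 1 := by
        rw [hk] at mk
        rcases mk with mk | mk
        · have e1 := hPL.inj _ (by omega) _ (by omega) mk
          subst e1
          rcases mS with mS | mS
          · exact absurd (mS.trans hk.symm) hSk'
          · exact ⟨mS, rfl⟩
        · have e1 := hPL.inj _ (by omega) _ (by omega) mk
          have e2 : j = 0 := by omega
          subst e2
          rcases mS with mS | mS
          · exact absurd mS hS1
          · exact absurd (mS.trans hk.symm) hSk'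
      obtain ⟨hS2, rfl⟩ := hS2
      have n1 := even_n3up C (by omega) hT hN
      have n2 := even_n3dn C hm hT hN hcl
      have key : ∀ j ∈ Ico 1 (m - 1), mC (2 * m) {evy f m j, evy f m (j + 1)} =
          if 1 < j then 1 else 0 := by
        intro j hj
        rw [mem_Ico] at hj
        have h9 := hD.eq {evy f m j, evy f m (j + 1)} (card_pair (hPL.ne (by omega) (by omega)
          (by omega)))
        rw [hPL.mD j (j + 1) (by omega) (by omega), if_pos rfl, hk, hS2] at h9
        rw [if_neg (c := {evy f m j, evy f m (j + 1)} = {evy f m 0, evy f m 1})] at h9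
        · by_cases hj1 : j = 1
          · subst hj1
            rw [if_pos (pair_comm _ _)] at h9
            rw [if_neg (by omega)]
            omega
          · rw [if_neg] at h9
            · rw [if_pos (by omega)]
              omega
            · intro h10
              rw [pair_comm (evy f m 2)] at h10
              have := hPL.pair_inj (by omega) (by omega) (by omega) (by omega) h10
              omega
        · intro h10
          have := hPL.pair_inj (by omega) (by omega) (by omega) (by omega) h10
          omega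
      rw [Finset.sum_congr rfl key] at n2
      have h11 : ∑ j ∈ Ico 1 (m - 1), (if 1 < j then 1 else 0) = m - 3 := by
        rw [Finset.sum_ite, Finset.sum_const, Finset.sum_const_zero, smul_eq_mul, mul_one, add_zero]
        have : (Ico 1 (m - 1)).filter (fun j => 1 < j) = Ico 2 (m - 1) := by
          ext j
          rw [mem_filter, mem_Ico, mem_Ico]
          omega
        rw [this, Nat.card_Ico]
        omega
      rw [h11] at n2
      omega
    · -- k = y m, S = y (m - 1)
      right
      have hS2 : S = evy f m (m - 1) := by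
        rw [hk] at mk
        rcases mk with mk | mk
        · have e1 := hPL.inj _ (by omega) _ (by omega) mk
          omega
        · have e1 := hPL.inj _ (by omega) _ (by omega) mk
          rcases mS with mS | mS
          · rw [mS]
            congr 1
            omega
          · exact absurd (mS.trans (mk.symm.trans hk.symm)) hSk'
      have hS3 : S = f 1 (2 * m - 1) := by
        rw [hS2]
        unfold evy
        congr 1 <;> omega
      rw [← hS3, ← y0, ← ym, ← hk]
      exact ⟨by omega, hD, hS.2⟩

end Pool.Gauss
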