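import Pool.Agent.Work.MP_065141_co.Rtwo1

/-!
# Sizes 1, 1, 2: the second alternative for even levels
-/

set_option autoImplicit false
set_option linter.unusedSectionVars false
open scoped Classical
open Finset

namespace Pool.Gauss

variable {α : Type} [Fintype α] [PartialOrder α]

/-! ### small filters -/

lemma kill_le (C : Ctx α) {N i : ℕ} {f : ℕ → ℕ → α} (hT : Top (Stc N) i f) :
    ∀ (n c d c' d' : ℕ), Stc N c d → Stc N c' d' → c + d ≤ i → c' ≤ c → d' ≤ d →
      c + d = c' + d' + n → f c d ≤ f c' d' := by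
  intro n
  induction n with
  | zero =>
    intro c d c' d' _ _ _ h1 h2 h3
    have e1 : c = c' := by omega
    have e2 : d = d' := by omega
    rw [e1, e2]
  | succ n ih =>
    intro c d c' d' h h' hi h1 h2 h3
    unfold Stc at h h'
    rcases Nat.lt_or_ge c' c with h4 | h4
    · obtain ⟨e, rfl⟩ : ∃ e, c = e + 1 := ⟨c - 1, by omega⟩
      have h5 : Stc N e d := ⟨by omega, by omega⟩
      have h6 : f (e + 1) d ⋖ f e d :=
        (hT.cov e d (e + 1) d h5 h (by omega) (by omega)).2 (Or.inl ⟨rfl, rfl⟩)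
      exact h6.le.trans (ih e d c' d' h5 h' (by omega) (by omega) h2 (by omega))
    · obtain ⟨e, rfl⟩ : ∃ e, d = e + 1 := ⟨d - 1, by omega⟩
      have h5 : Stc N c e := ⟨by omega, by omega⟩
      have h6 : f c (e + 1) ⋖ f c e :=
        (hT.cov c e c (e + 1) h5 h (by omega) (by omega)).2 (Or.inr ⟨rfl, rfl⟩)
      exact h6.le.trans (ih c e c' d' h5 h' (by omega) h1 (by omega) (by omega))

lemma kill_le' (C : Ctx α) {N i : ℕ} {f : ℕ → ℕ → α} (hT : Top (Stc N) i f) :
    ∀ (n c d c' d' : ℕ), Stc N c d → Stc N c' d' → c + d ≤ i → c' + d' ≤ i → c + d ≤ n →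
      f c d ≤ f c' d' → c' ≤ c ∧ d' ≤ d := by
  intro n
  induction n with
  | zero =>
    intro c d c' d' h h' hi hi' hn hle
    rcases hle.lt_or_eq with h1 | h1
    · have h2 := corank_lt h1
      rw [hT.cor c d h hi, hT.cor c' d' h' hi'] at h2
      omega
    · have := hT.inj c d c' d' h h' hi hi' h1
      omega
  | succ n ih =>
    intro c d c' d' h h' hi hi' hn hle
    rcases hle.lt_or_eq with h1 | h1
    · obtain ⟨z, hz, hz'⟩ := exists_covBy_of_lt h1
      rw [← Gauss.mem_Pr, hT.mem_Pr C h hi] at hz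
      rcases hz with ⟨e, rfl, h2, rfl⟩ | ⟨e, rfl, h2, rfl⟩
      · have := ih e d c' d' h2 h' (by omega) hi' (by omega) hz'
        omega
      · have := ih c e c' d' h2 h' (by omega) hi' (by omega) hz'
        omega
    · have := hT.inj c d c' d' h h' hi hi' h1
      omega

lemma kill_us {x a : α} (B : Finset α) (hxa : x < a) (hB : ∀ b ∈ B, x < b)
    (hB' : ∀ b ∈ B, ¬ a ≤ b) : 1 + us a + B.card ≤ us x := by
  unfold us
  have h1 : Disjoint (univ.filter fun y => a ≤ y) B := by
    rw [Finset.disjoint_left]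
    intro y hy hyB
    rw [mem_filter] at hy
    exact hB' y hyB hy.2
  have h2 : Disjoint ({x} : Finset α) ((univ.filter fun y => a ≤ y) ∪ B) := by
    rw [disjoint_singleton_left, mem_union, mem_filter]
    rintro (h | h)
    · exact absurd (hxa.trans_le h.2) (lt_irrefl _)
    · exact absurd (hB x h) (lt_irrefl _)
  have h3 : ({x} : Finset α) ∪ ((univ.filter fun y => a ≤ y) ∪ B) ⊆
      univ.filter fun y => x ≤ y := by
    intro y hy
    rw [mem_union, mem_union, mem_singleton, mem_filter] at hy
    rw [mem_filter]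
    refine ⟨mem_univ _, ?_⟩
    rcases hy with rfl | h | h
    · exact le_rfl
    · exact hxa.le.trans h.2
    · exact (hB y h).le
  have h4 := card_le_card h3
  rw [card_union_of_disjoint h2, card_union_of_disjoint h1, card_singleton] at h4
  omega

lemma kill_csz (c d : ℕ) : ∃ T, 2 * T = c * (c + 1) ∧ csz c d = (c + 1) * (d + 1) - T := by
  obtain ⟨T, hT⟩ := (Nat.even_mul_succ_self c).two_dvd
  refine ⟨T, hT.symm, ?_⟩
  unfold csz
  rw [hT, Nat.mul_div_cancel_left T (by norm_num)]

lemma kill_cell {m c d : ℕ} (hm : 3 ≤ m) (h1 : 1 ≤ c) (h2 : c ≤ d) (h3 : 2 * m < c + d) :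
    2 * m + 4 < csz c d := by
  obtain ⟨T, hT, hc⟩ := kill_csz c d
  rw [hc]
  have key : 2 * (2 * m + 4) + c * (c + 1) < 2 * ((c + 1) * (d + 1)) := by
    obtain ⟨e, rfl⟩ : ∃ e, d = c + e := ⟨d - c, by omega⟩
    have h4 : c * (c + 1) + 4 < 2 * (c * (c + e)) := by
      rcases Nat.lt_or_ge c 4 with h5 | h5
      · interval_cases c <;> omega
      · nlinarith
    nlinarith
  omega

/-! ### the element above -/

lemma kill_top_congr {R : ℕ → ℕ → Prop} {i : ℕ} {f f' : ℕ → ℕ → α} (hT : Top R i f)
    (h : ∀ c d, c + d ≤ i → f' c d = f c d) : Top R i f' where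
  cor c d h1 h2 := by rw [h c d h2]; exact hT.cor c d h1 h2
  inj c d c' d' h1 h2 h3 h4 h5 := by
    rw [h c d h3, h c' d' h4] at h5
    exact hT.inj c d c' d' h1 h2 h3 h4 h5
  sur x hx := by
    obtain ⟨c, d, h1, h2, h3⟩ := hT.sur x hx
    exact ⟨c, d, h1, h2, by rw [h c d (by omega)]; exact h3⟩
  cov c d c' d' h1 h2 h3 h4 := by
    rw [h c d h3, h c' d' h4]
    exact hT.cov c d c' d' h1 h2 h3 h4

lemma kill_pair_inj {n : ℕ} {X : ℕ → α} (hinj : ∀ j ≤ n, ∀ j' ≤ n, X j = X j' → j = j')
    {j j' l l' : ℕ} (h1 : j < j') (h2 : j' ≤ n) (h3 : l < l') (h4 : l' ≤ n)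
    (he : ({X j, X j'} : Finset α) = {X l, X l'}) : j = l ∧ j' = l' := by
  have m1 : X j ∈ ({X l, X l'} : Finset α) := by rw [← he]; simp
  have m2 : X j' ∈ ({X l, X l'} : Finset α) := by rw [← he]; simp
  rw [mem_insert, mem_singleton] at m1 m2
  rcases m1 with m1 | m1
  · have e1 := hinj _ (by omega) _ (by omega) m1
    rcases m2 with m2 | m2
    · have e2 := hinj _ (by omega) _ (by omega) m2
      omega
    · have e2 := hinj _ (by omega) _ (by omega) m2
      omega
  · have e1 := hinj _ (by omega) _ (by omega) m1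
    rcases m2 with m2 | m2
    · have e2 := hinj _ (by omega) _ (by omega) m2
      omega
    · have e2 := hinj _ (by omega) _ (by omega) m2
      omega

/-- level `2m` in coordinates is a path -/
lemma kill_pl {m : ℕ} (C : Ctx α) {f : ℕ → ℕ → α} (hT : Top (Stc (2 * m + 1)) (2 * m) f) :
    PL (2 * m) m (fun j => f (m - j) (m + j)) where
  cor j hj := by
    show corank (f (m - j) (m + j)) = 2 * m
    rw [hT.cor (m - j) (m + j) ⟨by omega, by omega⟩ (by omega)]
    omega
  inj j hj j' hj' he := by
    have := hT.inj (m - j) (m + j) (m - j') (m + j') ⟨by omega, by omega⟩ ⟨by omega, by omega⟩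
      (by omega) (by omega) he
    omega
  sur x hx := by
    obtain ⟨c, d, h1, h2, h3⟩ := hT.sur x (by omega)
    unfold Stc at h1
    refine ⟨m - c, by omega, ?_⟩
    show x = f (m - (m - c)) (m + (m - c))
    have e1 : m - (m - c) = c := by omega
    have e2 : m + (m - c) = d := by omega
    rw [e1, e2, h3]
  mD j j' h1 h2 := by
    show mD (2 * m) {f (m - j) (m + j), f (m - j') (m + j')} = _
    rw [pair_comm, hT.mD_eq C (fun c d h3 h4 => by unfold Stc at *; omega) ⟨by omega, by omega⟩
      ⟨by omega, by omega⟩ (by omega) (by omega) (by omega)]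
    congr 1
    apply propext
    omega

/-- the two levels `2m` and `2m + 1` -/
structure KD (m : ℕ) (y X : ℕ → α) : Prop where
  hm : 3 ≤ m
  ply : PL (2 * m) m y
  cor : ∀ q ≤ m, corank (X q) = 2 * m + 1
  inj : ∀ q ≤ m, ∀ q' ≤ m, X q = X q' → q = q'
  sur : ∀ x : α, corank x = 2 * m + 1 → ∃ q ≤ m, x = X q
  p0 : Pr (X 0) = {y m}
  p1 : Pr (X 1) = {y 0, y m}
  p2 : ∀ q, q + 2 ≤ m → Pr (X (q + 2)) = {y q, y (q + 1)}

lemma kill_exists (C : Ctx α) {m : ℕ} (hm : 3 ≤ m) {y : ℕ → α} (hy : PL (2 * m) m y) {x0 : α}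
    (hx0 : Pr x0 = {y m})
    (hx0' : ∀ x' : α, corank x' = 2 * m + 1 → (Pr x').card = 1 → x' = x0)
    (hD : Defect (2 * m) (y (m - 1)) (y 0) (y m)) :
    ∃ X : ℕ → α, KD m y X ∧ X 0 = x0 := by
  have hmC : ∀ a b, a < b → b ≤ m → mC (2 * m) {y a, y b} =
      if (b = a + 1 ∧ b < m) ∨ (a = 0 ∧ b = m) then 1 else 0 := by
    intro a b hab hb
    have h1 := hD.eq {y a, y b} (card_pair (hy.ne (by omega) hb (by omega)))
    rw [hy.mD a b hab hb] at h1
    have e1 : (({y a, y b} : Finset α) = {y (m - 1), y m}) ↔ (a = m - 1 ∧ b = m) := by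
      constructor
      · intro h
        exact hy.pair_inj hab hb (by omega) le_rfl h
      · rintro ⟨rfl, rfl⟩
        rfl
    have e2 : (({y a, y b} : Finset α) = {y 0, y m}) ↔ (a = 0 ∧ b = m) := by
      constructor
      · intro h
        exact hy.pair_inj hab hb (by omega) le_rfl h
      · rintro ⟨rfl, rfl⟩
        rfl
    simp only [e1, e2] at h1
    split_ifs at h1 ⊢ <;> omega
  have hcx0 : corank x0 = 2 * m + 1 := by
    have h1 : y m ∈ Pr x0 := by rw [hx0]; simp
    rw [mem_Pr] at h1
    rw [C.cork h1, hy.cor m le_rfl]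
  have hex : ∀ a b, a < b → b ≤ m → ((b = a + 1 ∧ b < m) ∨ (a = 0 ∧ b = m)) →
      ∃ x : α, corank x = 2 * m + 1 ∧ Pr x = {y a, y b} := by
    intro a b hab hb h
    apply exists_of_mC_pos
    rw [hmC a b hab hb, if_pos h]
    norm_num
  have huniq : ∀ a b, a < b → b ≤ m → ∀ x x' : α, corank x = 2 * m + 1 → corank x' = 2 * m + 1 →
      Pr x = {y a, y b} → Pr x' = {y a, y b} → x = x' := by
    intro a b hab hb x x' h1 h2 h3 h4
    have h5 : mC (2 * m) {y a, y b} ≤ 1 := by
      rw [hmC a b hab hb]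
      split_ifs <;> omega
    unfold mC at h5
    exact card_le_one.1 h5 x (mem_filter.2 ⟨mem_lev.2 h1, h3⟩) x' (mem_filter.2 ⟨mem_lev.2 h2, h4⟩)
  have hX : ∀ q, ∃ x : α, (q = 0 → x = x0) ∧ (q = 1 → corank x = 2 * m + 1 ∧ Pr x = {y 0, y m}) ∧
      (∀ r, q = r + 2 → q ≤ m → corank x = 2 * m + 1 ∧ Pr x = {y r, y (r + 1)}) := by
    intro q
    rcases q with _ | _ | r
    · exact ⟨x0, fun _ => rfl, fun h => absurd h (by norm_num), fun r h => absurd h (by omega)⟩
    · obtain ⟨x, h1, h2⟩ := hex 0 m (by omega) le_rfl (Or.inr ⟨rfl, rfl⟩)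
      exact ⟨x, fun h => absurd h (by norm_num), fun _ => ⟨h1, h2⟩, fun r h => absurd h (by omega)⟩
    · by_cases hr : r + 1 + 1 ≤ m
      · obtain ⟨x, h1, h2⟩ := hex r (r + 1) (by omega) (by omega) (Or.inl ⟨rfl, by omega⟩)
        refine ⟨x, fun h => absurd h (by omega), fun h => absurd h (by omega), fun r' h _ => ?_⟩
        have : r' = r := by omega
        rw [this]
        exact ⟨h1, h2⟩
      · exact ⟨x0, fun _ => rfl, fun h => absurd h (by omega), fun r' h h' => absurd h' hr⟩
  choose X hX0 hX1 hX2 using hX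
  have c0 : X 0 = x0 := hX0 0 rfl
  have p0 : Pr (X 0) = {y m} := by rw [c0]; exact hx0
  obtain ⟨c1, p1⟩ := hX1 1 rfl
  have cp2 : ∀ q, q + 2 ≤ m → corank (X (q + 2)) = 2 * m + 1 ∧ Pr (X (q + 2)) = {y q, y (q + 1)} :=
    fun q hq => hX2 (q + 2) q rfl hq
  refine ⟨X, ⟨hm, hy, ?_, ?_, ?_, p0, p1, fun q hq => (cp2 q hq).2⟩, c0⟩
  · intro q hq
    rcases q with _ | _ | r
    · rw [c0]; exact hcx0
    · exact c1
    · exact (cp2 r hq).1
  · have hc0 : (Pr (X 0)).card = 1 := by rw [p0, card_singleton]
    have hc1 : (Pr (X 1)).card = 2 := by rw [p1, card_pair (hy.ne (by omega) le_rfl (by omega))]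
    have hc2 : ∀ r, r + 2 ≤ m → (Pr (X (r + 2))).card = 2 := fun r hr => by
      rw [(cp2 r hr).2, card_pair (hy.ne (by omega) (by omega) (by omega))]
    intro q hq q' hq' he
    rcases q with _ | _ | r <;> rcases q' with _ | _ | r'
    · rfl
    · exfalso
      have : X 0 = X 1 := he
      rw [this, hc1] at hc0
      omega
    · exfalso
      have h1 := hc2 r' hq'
      have : X 0 = X (r' + 2) := he
      rw [← this] at h1
      omega
    · exfalso
      have : X 1 = X 0 := he
      rw [← this, hc1] at hc0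
      omega
    · rfl
    · exfalso
      have h1 := (cp2 r' hq').2
      have h2 : X 1 = X (r' + 2) := he
      rw [← h2, p1] at h1
      have := hy.pair_inj (by omega) le_rfl (by omega) (by omega) h1
      omega
    · exfalso
      have h1 := hc2 r hq
      have : X (r + 2) = X 0 := he
      rw [this] at h1
      omega
    · exfalso
      have h1 := (cp2 r hq).2
      have h2 : X (r + 2) = X 1 := he
      rw [h2, p1] at h1
      have := hy.pair_inj (by omega) le_rfl (by omega) (by omega) h1
      omega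
    · have h1 := (cp2 r hq).2
      have h2 := (cp2 r' hq').2
      have h3 : X (r + 2) = X (r' + 2) := he
      rw [h3, h2] at h1
      have := hy.pair_inj (by omega) (by omega) (by omega) (by omega) h1
      omega
  · intro x hx
    rcases C.pr_cases (x := x) (by omega) with h1 | h1
    · exact ⟨0, by omega, by rw [c0]; exact hx0' x hx h1⟩
    · obtain ⟨a, b, hab, hb, h2⟩ := hy.pair h1 (C.pr_sub hx)
      have h3 : 0 < mC (2 * m) {y a, y b} := mC_pos_of hx h2
      rw [hmC a b hab hb] at h3
      split_ifs at h3 with h4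
      · rcases h4 with ⟨rfl, h5⟩ | ⟨rfl, rfl⟩
        · refine ⟨a + 2, by omega, ?_⟩
          exact huniq a (a + 1) hab hb x _ hx (cp2 a (by omega)).1 h2 (cp2 a (by omega)).2
        · exact ⟨1, by omega, huniq 0 b hab hb x _ hx c1 h2 p1⟩
      · omega

namespace KD

variable {m : ℕ} {y X : ℕ → α}

lemma ne (K : KD m y X) {a b : ℕ} (ha : a ≤ m) (hb : b ≤ m) (h : a ≠ b) : X a ≠ X b :=
  fun h' => h (K.inj a ha b hb h')

/-- incidence between the two levels -/
lemma inc (K : KD m y X) {j q : ℕ} (hj : j ≤ m) (hq : q ≤ m) : y j ∈ Pr (X q) ↔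
    (q = 0 ∧ j = m) ∨ (q = 1 ∧ (j = 0 ∨ j = m)) ∨ (2 ≤ q ∧ (j + 2 = q ∨ j + 1 = q)) := by
  have hm := K.hm
  have e : ∀ j' ≤ m, (y j = y j' ↔ j = j') := fun j' hj' =>
    ⟨fun h => K.ply.inj j hj j' hj' h, fun h => by rw [h]⟩
  rcases q with _ | _ | r
  · rw [K.p0, mem_singleton, e m le_rfl]
    omega
  · show y j ∈ Pr (X 1) ↔ _
    rw [K.p1, mem_insert, mem_singleton, e 0 (by omega), e m le_rfl]
    omega
  · show y j ∈ Pr (X (r + 2)) ↔ _
    rw [K.p2 r hq, mem_insert, mem_singleton, e r (by omega), e (r + 1) (by omega)]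
    omega

lemma mem_Ch (C : Ctx α) (K : KD m y X) {j : ℕ} (hj : j ≤ m) {x : α} : x ∈ Ch (y j) ↔
    ∃ q ≤ m, x = X q ∧ ((q = 0 ∧ j = m) ∨ (q = 1 ∧ (j = 0 ∨ j = m)) ∨
      (2 ≤ q ∧ (j + 2 = q ∨ j + 1 = q))) := by
  constructor
  · intro h
    have h1 := C.cork (Gauss.mem_Ch.1 h)
    rw [K.ply.cor j hj] at h1
    obtain ⟨q, hq, rfl⟩ := K.sur x h1
    rw [← mem_Pr_iff, K.inc hj hq] at h
    exact ⟨q, hq, rfl, h⟩
  · rintro ⟨q, hq, rfl, h⟩
    rw [← mem_Pr_iff, K.inc hj hq]
    exact h

lemma ch_m (C : Ctx α) (K : KD m y X) : Ch (y m) = {X 0, X 1} := by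
  have hm := K.hm
  ext x
  rw [K.mem_Ch C le_rfl, mem_insert, mem_singleton]
  constructor
  · rintro ⟨q, hq, rfl, h⟩
    have : q = 0 ∨ q = 1 := by omega
    rcases this with rfl | rfl
    · exact Or.inl rfl
    · exact Or.inr rfl
  · rintro (rfl | rfl)
    · exact ⟨0, by omega, rfl, by omega⟩
    · exact ⟨1, by omega, rfl, by omega⟩

lemma ch_tip (C : Ctx α) (K : KD m y X) : Ch (y (m - 1)) = {X m} := by
  have hm := K.hm
  ext x
  rw [K.mem_Ch C (by omega), mem_singleton]
  constructor
  · rintro ⟨q, hq, rfl, h⟩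
    have : q = m := by omega
    rw [this]
  · rintro rfl
    exact ⟨m, le_rfl, rfl, by omega⟩

lemma ch_mid (C : Ctx α) (K : KD m y X) {j : ℕ} (hj : j + 2 ≤ m) :
    Ch (y j) = {X (j + 1), X (j + 2)} := by
  have hm := K.hm
  ext x
  rw [K.mem_Ch C (by omega), mem_insert, mem_singleton]
  constructor
  · rintro ⟨q, hq, rfl, h⟩
    have : q = j + 1 ∨ q = j + 2 := by omega
    rcases this with rfl | rfl
    · exact Or.inl rfl
    · exact Or.inr rfl
  · rintro (rfl | rfl)
    · exact ⟨j + 1, by omega, rfl, by omega⟩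
    · exact ⟨j + 2, by omega, rfl, by omega⟩

/-- which pairs are children pairs -/
lemma ch_pair_iff (C : Ctx α) (K : KD m y X) {j a b : ℕ} (hj : j ≤ m) (hab : a < b) (hb : b ≤ m) :
    Ch (y j) = {X a, X b} ↔ (b = a + 1 ∧ ((a = 0 ∧ j = m) ∨ a = j + 1)) := by
  have hm := K.hm
  rcases Nat.lt_or_ge (j + 1) m with h | h
  · rw [K.ch_mid C (by omega)]
    constructor
    · intro he
      have := kill_pair_inj K.inj (by omega) (by omega) hab hb he
      omega
    · intro he
      have e1 : a = j + 1 := by omega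
      have e2 : b = j + 2 := by omega
      rw [e1, e2]
  · rcases Nat.lt_or_ge j m with h' | h'
    · have e : j = m - 1 := by omega
      rw [e, K.ch_tip C]
      constructor
      · intro he
        exfalso
        have h1 := congrArg Finset.card he
        rw [card_singleton, card_pair (K.ne (by omega) hb (by omega))] at h1
        omega
      · intro he
        omega
    · have e : j = m := by omega
      rw [e, K.ch_m C]
      constructor
      · intro he
        have := kill_pair_inj K.inj (by omega) (by omega) hab hb he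
        omega
      · intro he
        have e1 : a = 0 := by omega
        have e2 : b = 1 := by omega
        rw [e1, e2]

lemma plX (C : Ctx α) (K : KD m y X) : PL (2 * m + 1) m X where
  cor := K.cor
  inj := K.inj
  sur := K.sur
  mD a b hab hb := by
    have hm := K.hm
    have key : ∀ z : α, corank z + 1 = 2 * m + 1 → (Ch z = {X a, X b} ↔
        (b = a + 1 ∧ z = y (if a = 0 then m else a - 1))) := by
      intro z hz
      obtain ⟨j, hj, rfl⟩ := K.ply.sur z (by omega)
      rw [K.ch_pair_iff C hj hab hb]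
      have e : y j = y (if a = 0 then m else a - 1) ↔ j = (if a = 0 then m else a - 1) := by
        constructor
        · intro h
          refine K.ply.inj j hj _ ?_ h
          split_ifs <;> omega
        · intro h
          rw [← h]
      rw [e]
      split_ifs <;> omega
    unfold mD
    split_ifs with h
    · rw [card_eq_one]
      refine ⟨y (if a = 0 then m else a - 1), ?_⟩
      have hle : (if a = 0 then m else a - 1) ≤ m := by split_ifs <;> omega
      ext z
      rw [mem_filter, mem_lev', mem_singleton]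
      constructor
      · rintro ⟨h1, h2⟩
        exact ((key z h1).1 h2).2
      · rintro rfl
        have h1 : corank (y (if a = 0 then m else a - 1)) + 1 = 2 * m + 1 := by
          rw [K.ply.cor _ hle]
        exact ⟨h1, (key _ h1).2 ⟨h, rfl⟩⟩
    · rw [card_eq_zero, filter_eq_empty_iff]
      intro z hz h2
      rw [mem_lev'] at hz
      exact h ((key z hz).1 h2).1

end KD


lemma kill_row (C : Ctx α) {m : ℕ} (hm : 3 ≤ m) {f : ℕ → ℕ → α}
    (hT : Top (Stc (2 * m + 1)) (2 * m) f) {v : α} (hv : corank v + 2 = 2 * m + 1) :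
    ∃ j, 1 ≤ j ∧ j ≤ m ∧ Ch v = {f (m - (j - 1)) (m + (j - 1)), f (m - j) (m + j)} := by
  obtain ⟨c, d, h1, h2, rfl⟩ := hT.sur v (by omega)
  unfold Stc at h1
  refine ⟨m - c, by omega, by omega, ?_⟩
  rw [stc_Ch_mid C hT (by omega) (by omega) (by omega)]
  have e1 : m - (m - c - 1) = c + 1 := by omega
  have e2 : m + (m - c - 1) = d := by omega
  have e3 : m - (m - c) = c := by omega
  have e4 : m + (m - c) = d + 1 := by omega
  rw [e1, e2, e3, e4]

lemma kill_Q1 (C : Ctx α) {m : ℕ} (hm : 3 ≤ m) {f : ℕ → ℕ → α}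
    (hT : Top (Stc (2 * m + 1)) (2 * m) f) : QEv α (2 * m + 1) = ∅ := by
  rw [← not_nonempty_iff_eq_empty]
  rintro ⟨v, hv⟩
  rw [mem_QEv] at hv
  obtain ⟨j, h1, h2, h3⟩ := kill_row C hm hT hv.1
  have h4 := hv.2.1
  rw [h3, card_pair ((kill_pl C hT).ne (by omega) h2 (by omega))] at h4
  omega

lemma kill_hup (C : Ctx α) {m : ℕ} {f : ℕ → ℕ → α} {X : ℕ → α}
    (hT : Top (Stc (2 * m + 1)) (2 * m) f) (K : KD m (fun j => f (m - j) (m + j)) X)
    {v : α} (hv : corank v + 2 = 2 * m + 1) : (Ch2 v).card ≤ 3 := by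
  have hm := K.hm
  obtain ⟨j, h1, h2, h3⟩ := kill_row C hm hT hv
  rw [Ch2_of_pair h3]
  have c1 : Ch (f (m - m) (m + m)) = {X 0, X 1} :=
    KD.ch_m (m := m) (y := fun j => f (m - j) (m + j)) C K
  have c2 : Ch (f (m - (m - 1)) (m + (m - 1))) = {X m} :=
    KD.ch_tip (m := m) (y := fun j => f (m - j) (m + j)) C K
  have c3 : ∀ j, j + 2 ≤ m → Ch (f (m - j) (m + j)) = {X (j + 1), X (j + 2)} :=
    fun j hj => KD.ch_mid (m := m) (y := fun j => f (m - j) (m + j)) C K hj
  rcases Nat.lt_or_ge (j + 1) m with h | h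
  · rw [c3 (j - 1) (by omega), c3 j (by omega)]
    have e1 : j - 1 + 1 = j := by omega
    have e2 : j - 1 + 2 = j + 1 := by omega
    rw [e1, e2]
    refine (card_le_card (t := {X j, X (j + 1), X (j + 2)}) ?_).trans card_le_three
    intro x hx
    simp only [mem_union, mem_insert, mem_singleton] at hx ⊢
    tauto
  · rcases Nat.lt_or_ge j m with h' | h'
    · have e : j = m - 1 := by omega
      rw [e, c2, c3 (m - 1 - 1) (by omega)]
      have e1 : m - 1 - 1 + 1 = m - 1 := by omega
      have e2 : m - 1 - 1 + 2 = m := by omega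
      rw [e1, e2]
      refine (card_le_card (t := {X (m - 1), X m, X m}) ?_).trans card_le_three
      intro x hx
      simp only [mem_union, mem_insert, mem_singleton] at hx ⊢
      tauto
    · have e : j = m := by omega
      rw [e, c1, c2]
      refine (card_le_card (t := {X m, X 0, X 1}) ?_).trans card_le_three
      intro x hx
      simp only [mem_union, mem_insert, mem_singleton] at hx ⊢
      tauto

/-- the first step: exactly one new diagonal element `w`, under `X p` -/
lemma kill_F (C : Ctx α) (h1 : sz α 1 = 1) {m : ℕ} {f : ℕ → ℕ → α} {X : ℕ → α}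
    (hT : Top (Stc (2 * m + 1)) (2 * m) f) (K : KD m (fun j => f (m - j) (m + j)) X)
    (hi : 2 * m + 1 < HT α)
    (hx0' : ∀ x' : α, corank x' = 2 * m + 1 → (Pr x').card = 1 → x' = X 0)
    (hD : Defect (2 * m) (f (m - (m - 1)) (m + (m - 1))) (f (m - 0) (m + 0)) (f (m - m) (m + m))) :
    ∃ (w : α) (p : ℕ), 1 ≤ p ∧ p < m ∧ p ≠ 2 ∧ corank w = 2 * m + 2 ∧ Pr w = {X p} ∧
      PEv α (2 * m) = {w} ∧ (∀ w' : α, corank w' = 2 * m + 2 → ∀ a b, 1 ≤ a → a < b → b ≤ m →
        Pr w' = {X a, X b} → b = a + 1) := by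
  have hm := K.hm
  set y : ℕ → α := fun j => f (m - j) (m + j) with hy
  have hDy : Defect (2 * m) (y (m - 1)) (y 0) (y m) := hD
  obtain ⟨f1, f2, f3, f4, f5, f6, f7⟩ := rtwo_facts C h1 (i := 2 * m) (by omega) (by omega) hT
  -- the Q-event
  have hQ : QEv α (2 * m) = {f (m - 1) (m - 1)} := by
    have := f1 (m - 1) (by omega)
    have e : 2 * (m - 1) + 2 = 2 * m := by omega
    rwa [e] at this
  have hQ2 : Ch2 (f (m - 1) (m - 1)) = {y 0, y 1} := by
    rw [Ch2_of_single (stc_Ch_diag C hT (c := m - 1) (by omega) (by omega)),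
      stc_Ch_mid C hT (by omega) (by omega) (by omega)]
    have e1 : m - 1 + 1 = m := by omega
    have e2 : m - 1 + 1 + 1 = m + 1 := by omega
    rw [e2, e1]
    rfl
  have hP : ∀ q, q ≤ m → (Pr (X q)).card = if q = 0 then 1 else 2 := by
    intro q hq
    rcases q with _ | _ | r
    · rw [K.p0, card_singleton, if_pos rfl]
    · show (Pr (X 1)).card = _
      rw [K.p1, card_pair (K.ply.ne (by omega) le_rfl (by omega)), if_neg (by omega)]
    · show (Pr (X (r + 2))).card = _
      rw [K.p2 r hq, card_pair (K.ply.ne (by omega) (by omega) (by omega)), if_neg (by omega)]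
  -- F is empty
  have hF : FFv α (2 * m) = ∅ := by
    rw [← not_nonempty_iff_eq_empty]
    rintro ⟨⟨a, b⟩, hab⟩
    rw [mem_FFv] at hab
    obtain ⟨k1, k2, k3, k4, k5⟩ := hab
    simp only at k1 k2 k3 k4 k5
    obtain ⟨q, hq, rfl⟩ := K.sur a k1
    obtain ⟨q', hq', rfl⟩ := K.sur b k2
    apply k3
    have k6 : ∀ j ≤ m, (y j ∈ Pr (X q) ↔ y j ∈ Pr (X q')) := fun j _ => by rw [k4]
    have k7 := hP q hq
    rw [k5] at k7
    have k8 := hP q' hq'
    rw [← k4, k5] at k8
    have hq0 : q ≠ 0 := by rintro rfl; simp at k7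
    have hq0' : q' ≠ 0 := by rintro rfl; simp at k8
    have e : q = q' := by
      rcases q with _ | _ | r <;> rcases q' with _ | _ | r'
      · omega
      · omega
      · omega
      · omega
      · omega
      · have k9 := k6 m le_rfl
        rw [K.inc le_rfl hq, K.inc le_rfl hq'] at k9
        omega
      · omega
      · have k9 := k6 m le_rfl
        rw [K.inc le_rfl hq, K.inc le_rfl hq'] at k9
        omega
      · have k9 := k6 r (by omega)
        have k10 := k6 (r + 1) (by omega)
        rw [K.inc (by omega) hq, K.inc (by omega) hq'] at k9 k10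
        omega
    rw [e]
  -- E is empty
  have hE : EEv α (2 * m) = ∅ := by
    rw [← not_nonempty_iff_eq_empty]
    rintro ⟨x, hx⟩
    rw [mem_EEv] at hx
    obtain ⟨k1, k2, k3⟩ := hx
    have k4 := hx0' x k1 k2
    subst k4
    have k5 := k3 (y m) (by rw [K.p0]; simp)
    have k6 : Ch (y m) = {X 0, X 1} := K.ch_m C
    rw [k6, card_pair (K.ne (by omega) (by omega) (by omega))] at k5
    omega
  have hE1 := C.E1 (j := 2 * m) hi
  rw [kill_Q1 C hm hT, hF, hE, card_empty, card_empty, h1] at hE1
  have hPE : (PEv α (2 * m)).card = 1 := by omega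
  obtain ⟨w, hw⟩ := card_eq_one.1 hPE
  have hwm : w ∈ PEv α (2 * m) := by rw [hw]; simp
  rw [mem_PEv] at hwm
  obtain ⟨w1, w2, w3⟩ := hwm
  obtain ⟨z, hz⟩ := card_eq_one.1 w2
  have hzc : corank z = 2 * m + 1 := by
    have : z ∈ Pr w := by rw [hz]; simp
    have := C.cork (mem_Pr.1 this)
    omega
  obtain ⟨p, hp, rfl⟩ := K.sur z hzc
  have hp2 : Pr2 w = Pr (X p) := Pr2_of_single hz
  rw [hp2, hP p hp] at w3
  have hp0 : p ≠ 0 := by
    rintro rfl
    simp at w3
  have hRD := C.RD (i := 2 * m) (by omega) (by omega) hDy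
    (fun v hv hv2 => f7 v (by omega) hv2)
  rw [hw, hQ, sum_singleton, sum_singleton, hp2, hQ2] at hRD
  have heta1 : eta (y (m - 1)) (y 0) (y m) {y 0, y 1} = -1 := by
    rw [eta_val, if_neg, if_neg, if_pos]
    · norm_num
    · simp
    · rw [mem_insert, mem_singleton]
      rintro (h | h)
      · exact K.ply.ne (by omega) (by omega) (by omega) h
      · exact K.ply.ne (by omega) (by omega) (by omega) h
    · rw [mem_insert, mem_singleton]
      rintro (h | h)
      · exact K.ply.ne (by omega) (by omega) (by omega) h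
      · exact K.ply.ne (by omega) (by omega) (by omega) h
  rw [heta1] at hRD
  have heta0 : eta (y (m - 1)) (y 0) (y m) (Pr (X p)) = 0 := by
    have := hRD.2
    omega
  have hp2' : p ≠ 2 := by
    rintro rfl
    have k1 : Pr (X 2) = {y 0, y 1} := K.p2 0 (by omega)
    rw [k1, heta1] at heta0
    norm_num at heta0
  have hpm : p ≠ m := by
    rintro rfl
    have i1 : y p ∉ Pr (X p) := by
      rw [K.inc le_rfl le_rfl]
      omega
    have i2 : y (p - 1) ∈ Pr (X p) := by
      rw [K.inc (by omega) le_rfl]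
      omega
    have i3 : y 0 ∉ Pr (X p) := by
      rw [K.inc (by omega) le_rfl]
      omega
    rw [eta_val, if_neg i1, if_pos i2, if_neg i3] at heta0
    norm_num at heta0
  refine ⟨w, p, by omega, by omega, hp2', w1, hz, hw, ?_⟩
  intro w' hw' a b ha hab hb hPw
  have k1 := hRD.1 w' hw' (by rw [hPw, card_pair (K.ne (by omega) hb (by omega))])
  rw [Pr2_of_pair hPw] at k1
  by_contra hne
  have k2 : Disjoint (Pr (X a)) (Pr (X b)) := by
    rw [Finset.disjoint_left]
    intro z hz1 hz2
    have hz3 : corank z = 2 * m := by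
      have := C.cork (mem_Pr.1 hz1)
      rw [K.cor a (by omega)] at this
      omega
    obtain ⟨j, hj, rfl⟩ := K.ply.sur z hz3
    rw [K.inc hj (by omega)] at hz1 hz2
    omega
  rw [card_union_of_disjoint k2, hP a (by omega), hP b hb, if_neg (by omega), if_neg (by omega)]
    at k1
  omega

/-- the filters of the elements of level `2m + 1` other than the tip are large -/
lemma kill_usb (C : Ctx α) {m : ℕ} {f : ℕ → ℕ → α} {X : ℕ → α}
    (hT : Top (Stc (2 * m + 1)) (2 * m) f) (K : KD m (fun j => f (m - j) (m + j)) X)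
    {q : ℕ} (hq0 : q ≠ 0) (hq : q ≤ m) : 4 * m + 1 < us (X q) := by
  have hm := K.hm
  rcases q with _ | _ | r
  · exact absurd rfl hq0
  · show 4 * m + 1 < us (X 1)
    have hp : Pr (X 1) = {f (m - 0) (m + 0), f (m - m) (m + m)} := K.p1
    have e0 : f (m - 0) (m + 0) = f m m := rfl
    have em : f (m - m) (m + m) = f 0 (2 * m) := by
      congr 1 <;> omega
    rw [e0, em] at hp
    have k1 : X 1 ⋖ f m m := by rw [← mem_Pr, hp]; simp
    have k2 : X 1 ⋖ f 0 (2 * m) := by rw [← mem_Pr, hp]; simp
    have k3 := kill_us (x := X 1) (a := f m m)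
      ((range m).image fun e => f 0 (m + 1 + e)) k1.lt ?_ ?_
    · rw [card_image_of_injOn, card_range, us_eq C hT (c := m) (d := m) ⟨le_rfl, by omega⟩
        (by omega)] at k3
      · obtain ⟨T, hT1, hT2⟩ := kill_csz m m
        rw [hT2] at k3
        have k4 : 2 * (4 * m + 1) + m * (m + 1) < 2 * (1 + m) + 2 * ((m + 1) * (m + 1)) := by
          nlinarith
        omega
      · intro e he e' he' h
        rw [mem_coe, mem_range] at he he'
        have := hT.inj _ _ _ _ (show Stc (2 * m + 1) 0 (m + 1 + e) from ⟨by omega, by omega⟩)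
          (show Stc (2 * m + 1) 0 (m + 1 + e') from ⟨by omega, by omega⟩) (by omega) (by omega) h
        omega
    · intro b hb
      rw [mem_image] at hb
      obtain ⟨e, he, rfl⟩ := hb
      rw [mem_range] at he
      refine k2.lt.trans_le ?_
      exact kill_le C hT (2 * m - (m + 1 + e)) 0 (2 * m) 0 (m + 1 + e) ⟨by omega, by omega⟩
        ⟨by omega, by omega⟩ (by omega) le_rfl (by omega) (by omega)
    · intro b hb hab
      rw [mem_image] at hb
      obtain ⟨e, he, rfl⟩ := hb
      rw [mem_range] at he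
      have := kill_le' C hT (2 * m) m m 0 (m + 1 + e) ⟨by omega, by omega⟩
        ⟨by omega, by omega⟩ (by omega) (by omega) (by omega) hab
      omega
  · show 4 * m + 1 < us (X (r + 2))
    have hr : r + 2 ≤ m := hq
    have hp : Pr (X (r + 2)) = {f (m - r) (m + r), f (m - (r + 1)) (m + (r + 1))} := K.p2 r hr
    have k1 : X (r + 2) ⋖ f (m - r) (m + r) := by rw [← mem_Pr, hp]; simp
    have k2 : X (r + 2) ⋖ f (m - (r + 1)) (m + (r + 1)) := by rw [← mem_Pr, hp]; simp
    have k3 := kill_us (x := X (r + 2)) (a := f (m - r) (m + r))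
      ((range (m - r)).image fun e => f e (m + (r + 1))) k1.lt ?_ ?_
    · rw [card_image_of_injOn, card_range, us_eq C hT (c := m - r) (d := m + r)
        ⟨by omega, by omega⟩ (by omega)] at k3
      · obtain ⟨T, hT1, hT2⟩ := kill_csz (m - r) (m + r)
        rw [hT2] at k3
        obtain ⟨c, hc⟩ : ∃ c, m = r + (c + 2) := ⟨m - r - 2, by omega⟩
        have e1 : m - r = c + 2 := by omega
        rw [e1] at k3 hT1
        have k4 : 2 * (4 * m + 1) + (c + 2) * (c + 2 + 1) <
            2 * (1 + (c + 2)) + 2 * ((c + 2 + 1) * (m + r + 1)) := by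
          rw [hc]
          have : 1 ≤ r + c := by omega
          nlinarith [Nat.zero_le (r * c), Nat.zero_le (c * c)]
        omega
      · intro e he e' he' h
        rw [mem_coe, mem_range] at he he'
        have := hT.inj _ _ _ _ (show Stc (2 * m + 1) e (m + (r + 1)) from ⟨by omega, by omega⟩)
          (show Stc (2 * m + 1) e' (m + (r + 1)) from ⟨by omega, by omega⟩) (by omega) (by omega) h
        omega
    · intro b hb
      rw [mem_image] at hb
      obtain ⟨e, he, rfl⟩ := hb
      rw [mem_range] at he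
      refine k2.lt.trans_le ?_
      exact kill_le C hT (m - (r + 1) - e) (m - (r + 1)) (m + (r + 1)) e (m + (r + 1))
        ⟨by omega, by omega⟩ ⟨by omega, by omega⟩ (by omega) (by omega) le_rfl (by omega)
    · intro b hb hab
      rw [mem_image] at hb
      obtain ⟨e, he, rfl⟩ := hb
      rw [mem_range] at he
      have := kill_le' C hT (2 * m) (m - r) (m + r) e (m + (r + 1)) ⟨by omega, by omega⟩
        ⟨by omega, by omega⟩ (by omega) (by omega) (by omega) hab
      omega

lemma kill_st (N l : ℕ) : st N l = l / 2 + 1 - (l + 1 - N) := by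
  unfold st
  have h1 : ((range (l + 1)).filter fun c => c ≤ l - c ∧ l - c < N) =
      Finset.Icc (l + 1 - N) (l / 2) := by
    ext c
    rw [mem_filter, mem_range, mem_Icc]
    omega
  rw [h1, Nat.card_Icc]

/-- the arm stops -/
lemma kill_K2 (C : Ctx α) {m : ℕ} {f : ℕ → ℕ → α} {X : ℕ → α}
    (hT : Top (Stc (2 * m + 1)) (2 * m) f) (K : KD m (fun j => f (m - j) (m + j)) X)
    (hx0' : ∀ x' : α, corank x' = 2 * m + 1 → (Pr x').card = 1 → x' = X 0)
    (harm : ∀ u : α, Pr u ≠ {X 0}) : False := by
  have hm := K.hm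
  have em : f (m - m) (m + m) = f 0 (2 * m) := by
    congr 1 <;> omega
  have hp0 : Pr (X 0) = {f 0 (2 * m)} := by rw [← em]; exact K.p0
  set f' : ℕ → ℕ → α := fun c d => if c = 0 ∧ d = 2 * m + 1 then X 0 else f c d with hf'
  have hf1 : f' 0 (2 * m + 1) = X 0 := by simp [hf']
  have hf2 : ∀ c d, c + d ≤ 2 * m → f' c d = f c d := by
    intro c d h
    simp only [hf']
    rw [if_neg (by omega)]
  have hA : ArmTop (2 * m + 2) (2 * m) f' := by
    refine ⟨?_, ?_, ?_, ?_⟩
    · apply kill_top_congr _ hf2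
      exact hT.congr_region fun c d h => by unfold Stc; omega
    · intro d h2 h3
      have e : d = 2 * m + 1 := by omega
      rw [e, hf1]
      exact K.cor 0 (by omega)
    · intro d h2 h3
      have e : d = 2 * m + 1 := by omega
      rw [e, hf1, Nat.add_sub_cancel, hf2 0 (2 * m) (by omega), hp0]
    · intro x d h2 h3 hx
      rcases Nat.lt_or_ge (2 * m) d with h4 | h4
      · exfalso
        have e : d = 2 * m + 1 := by omega
        rw [e, hf1] at hx
        exact harm x hx
      · have e : d = 2 * m := by omega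
        rw [e, hf2 0 (2 * m) (by omega)] at hx
        have h5 : f 0 (2 * m) ∈ Pr x := by rw [hx]; simp
        have h6 := C.cork (mem_Pr.1 h5)
        rw [hT.cor 0 (2 * m) ⟨by omega, by omega⟩ (by omega)] at h6
        refine ⟨by omega, ?_⟩
        rw [e, hf1]
        exact hx0' x (by omega) (by rw [hx, card_singleton])
  have hK : ∀ y : α, corank y = 2 * m + 1 → (2 * m + 1 < 2 * m + 2 → y ≠ f' 0 (2 * m + 1)) →
      4 * m + 1 < us y := by
    intro y hy hne
    obtain ⟨q, hq, rfl⟩ := K.sur y hy
    apply kill_usb C hT K _ hq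
    rintro rfl
    exact hne (by omega) hf1.symm
  have hsz := sizes_of_arm C (K := 2 * m + 4) (by omega) hA
    (fun y hy hne => by have := hK y hy hne; omega)
    (fun c d h1 h2 _ h3 => kill_cell hm h1 h2 h3)
  have s1 := hsz (2 * m + 3) (by omega)
  have s2 := hsz (2 * m + 2) (by omega)
  rw [kill_st] at s1 s2
  -- the number of levels
  have hH1 : 2 * m + 3 < HT α := by
    by_contra h
    have := sz_eq_zero (α := α) (i := 2 * m + 3) (by omega)
    omega
  have hH2 : HT α ≤ 4 * m + 5 := by
    by_contra h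
    have := C.sz_unimodal (e := 2 * m + 2) (c := 2 * m + 3) (by omega) (by omega)
    omega
  have p1 := C.sz_palin (j := 2 * m + 3) (by omega)
  have p2 := C.sz_palin (j := 2 * m + 2) (by omega)
  rw [hsz (HT α - 1 - (2 * m + 3)) (by omega), kill_st] at p1
  rw [hsz (HT α - 1 - (2 * m + 2)) (by omega), kill_st] at p2
  have hH : HT α = 4 * m + 3 := by omega
  refine false_of_arm C (m := m) (N := 2 * m + 2) hm (Or.inr rfl) hA hK fun l => ?_
  rcases Nat.lt_or_ge l (2 * m + 4) with h2 | h2
  · exact hsz l h2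
  · rcases Nat.lt_or_ge l (HT α) with h3 | h3
    · have p3 := C.sz_palin (j := l) h3
      rw [hsz (HT α - 1 - l) (by omega), kill_st] at p3
      rw [kill_st]
      omega
    · rw [sz_eq_zero h3, kill_st]
      omega

/-- the arm continues -/
lemma kill_K1 (C : Ctx α) (h1 : sz α 1 = 1) {m : ℕ} {f : ℕ → ℕ → α} {X : ℕ → α}
    (hT : Top (Stc (2 * m + 1)) (2 * m) f) (K : KD m (fun j => f (m - j) (m + j)) X)
    (hi : 2 * m + 1 < HT α)
    (hx0' : ∀ x' : α, corank x' = 2 * m + 1 → (Pr x').card = 1 → x' = X 0)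
    {w : α} {p : ℕ} (hp1 : 1 ≤ p) (hpm : p < m) (hp2 : p ≠ 2) (hw : corank w = 2 * m + 2)
    (hwp : Pr w = {X p})
    (hall : ∀ w' : α, corank w' = 2 * m + 2 → ∀ a b, 1 ≤ a → a < b → b ≤ m →
        Pr w' = {X a, X b} → b = a + 1)
    {u : α} (hu : Pr u = {X 0}) : False := by
  have hm := K.hm
  have hpl : PL (2 * m + 1) m X := K.plX C
  have em : f (m - m) (m + m) = f 0 (2 * m) := by
    congr 1 <;> omega
  have hp0 : Pr (X 0) = {f 0 (2 * m)} := by rw [← em]; exact K.p0
  have hH2 : 2 * m + 1 + 1 < HT α := by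
    have := corank_lt_HT w
    omega
  have hcu : corank u = 2 * m + 2 := by
    have h2 : X 0 ∈ Pr u := by rw [hu]; simp
    rw [C.cork (mem_Pr.1 h2), K.cor 0 (by omega)]
  have huw : u ≠ w := by
    rintro rfl
    rw [hu] at hwp
    exact K.ne (by omega) (by omega) (by omega) (singleton_injective hwp)
  have hszX : sz α (2 * m + 1) = m + 1 := hpl.sz_eq
  have hsing : sz α (2 * m + 2) = m + 2 ∧
      ∀ x : α, corank x = 2 * m + 2 → (Pr x).card = 1 → x = u ∨ x = w := by
    have h2 := C.sgl_pr (i := 2 * m + 1) hi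
    have h3 := rtwo_sz_le C h1 (2 * m + 2)
    have h4 : ({u, w} : Finset α) ⊆
        (lev α (2 * m + 1 + 1)).filter fun x => (Pr x).card = 1 := by
      intro x hx
      rw [mem_insert, mem_singleton] at hx
      rw [mem_filter, mem_lev]
      rcases hx with rfl | rfl
      · exact ⟨hcu, by rw [hu, card_singleton]⟩
      · exact ⟨hw, by rw [hwp, card_singleton]⟩
    have h5 := card_le_card h4
    rw [card_pair huw] at h5
    have h6 : sz α (2 * m + 1 + 1) = sz α (2 * m + 2) := rfl
    refine ⟨by omega, fun x hx hx1 => ?_⟩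
    have h7 := eq_of_subset_of_card_le h4 (by rw [card_pair huw]; omega)
    have h8 : x ∈ (lev α (2 * m + 1 + 1)).filter fun x => (Pr x).card = 1 :=
      mem_filter.2 ⟨mem_lev.2 hx, hx1⟩
    rw [← h7, mem_insert, mem_singleton] at h8
    exact h8
  obtain ⟨hsz2, hsing⟩ := hsing
  have hCh : ∀ q ≤ m, (Ch (X q)).card = 2 := by
    intro q hq
    have h2 := C.sgl_ch (i := 2 * m + 1) hH2
    have h6 : sz α (2 * m + 1 + 1) = sz α (2 * m + 2) := rfl
    have h3 : ((lev α (2 * m + 1)).filter fun x => (Ch x).card = 1).card = 0 := by omega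
    rw [card_eq_zero, filter_eq_empty_iff] at h3
    rcases C.ch_cases (x := X q) (by rw [K.cor q hq]; exact hH2) with h4 | h4
    · exact absurd h4 (h3 (mem_lev.2 (K.cor q hq)))
    · exact h4
  have hsg : ∀ q ≤ m, sg1 (X q) = (if q = 0 then 1 else 0) + (if q = p then 1 else 0) := by
    intro q hq
    unfold sg1
    have h2 : (Ch (X q)).filter (fun x => (Pr x).card = 1) =
        (if q = 0 then {u} else ∅) ∪ (if q = p then {w} else ∅) := by
      ext x
      rw [mem_filter, mem_union]
      constructor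
      · rintro ⟨h2, h3⟩
        have h4 := C.cork (Gauss.mem_Ch.1 h2)
        rw [K.cor q hq] at h4
        rw [← mem_Pr_iff] at h2
        rcases hsing x (by omega) h3 with rfl | rfl
        · left
          rw [hu, mem_singleton] at h2
          rw [if_pos (K.inj q hq 0 (by omega) h2)]
          simp
        · right
          rw [hwp, mem_singleton] at h2
          rw [if_pos (K.inj q hq p (by omega) h2)]
          simp
      · rintro (h2 | h2)
        · split_ifs at h2 with h3
          · rw [mem_singleton] at h2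
            subst h2
            subst h3
            exact ⟨by rw [← mem_Pr_iff, hu]; simp, by rw [hu, card_singleton]⟩
          · exact absurd h2 (notMem_empty _)
        · split_ifs at h2 with h3
          · rw [mem_singleton] at h2
            subst h2
            subst h3
            exact ⟨by rw [← mem_Pr_iff, hwp]; simp, by rw [hwp, card_singleton]⟩
          · exact absurd h2 (notMem_empty _)
    rw [h2]
    split_ifs with h3 h4 h4
    · omega
    · simp
    · simp
    · simp
  have hbC : ∀ q ≤ m, bC (X q) + (if q = 0 then 1 else 0) + (if q = p then 1 else 0) = 2 := by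
    intro q hq
    have h2 := C.bC_add_sg1 (X q)
    rw [hsg q hq, hCh q hq] at h2
    omega
  have haD : ∀ q ≤ m, aD (X q) = (if 0 < q then 1 else 0) + (if q < m then 1 else 0) :=
    fun q hq => hpl.aD_eq C hq
  -- the defect
  obtain ⟨k, hk⟩ := C.defect_of_deg (i := 2 * m + 1) (by omega) hi (s := X p) (t := X m)
    (K.cor p (by omega)) (K.cor m le_rfl) (K.ne (by omega) le_rfl (by omega))
    (by
      have h2 := hbC p (by omega)
      have h3 := haD p (by omega)
      rw [if_neg (by omega), if_pos rfl] at h2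
      rw [if_pos (by omega), if_pos (by omega)] at h3
      omega)
    (by
      have h2 := hbC m le_rfl
      have h3 := haD m le_rfl
      rw [if_neg (by omega), if_neg (by omega)] at h2
      rw [if_pos (by omega), if_neg (by omega)] at h3
      omega)
    (by
      intro z hz hz1 hz2
      obtain ⟨q, hq, rfl⟩ := K.sur z hz
      have hqp : q ≠ p := by rintro rfl; exact hz1 rfl
      have hqm : q ≠ m := by rintro rfl; exact hz2 rfl
      have h2 := hbC q hq
      have h3 := haD q hq
      rw [if_neg hqp] at h2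
      rw [if_pos (show q < m by omega)] at h3
      split_ifs at h2 h3 <;> omega)
  obtain ⟨c, hc, rfl⟩ := K.sur k hk.hk
  have hcm : c ≠ m := by
    rintro rfl
    exact hk.tk rfl
  have hnb : c = p + 1 ∨ c + 1 = p := by
    obtain ⟨j, hj, he⟩ := hpl.nbr C hk
    rcases Nat.lt_trichotomy p c with h2 | h2 | h2
    · have := kill_pair_inj K.inj h2 hc (by omega) (by omega) he
      omega
    · subst h2
      exact absurd rfl hk.sk
    · rw [pair_comm] at he
      have := kill_pair_inj K.inj h2 (by omega) (by omega) (by omega) he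
      omega
  have hcase : (c = 0 ∧ p = 1) ∨ (c + 1 = m ∧ c = p + 1) := by
    rcases Nat.eq_zero_or_pos c with h2 | h2
    · left
      omega
    · right
      obtain ⟨w', hw1, hw2⟩ := exists_of_mC_pos hk.mC_pos
      rw [pair_comm] at hw2
      have := hall w' hw1 c m h2 (by omega) le_rfl hw2
      omega
  -- the relation E1 at level 2m + 1
  have hE1 := C.E1 (j := 2 * m + 1) hH2
  have hE : EEv α (2 * m + 1) = ∅ := by
    rw [← not_nonempty_iff_eq_empty]
    rintro ⟨x, hx⟩
    rw [mem_EEv] at hx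
    obtain ⟨k1, k2, k3⟩ := hx
    obtain ⟨z, hz⟩ := card_eq_one.1 k2
    have hzm : z ∈ Pr x := by rw [hz]; simp
    have h2 := C.cork (mem_Pr.1 hzm)
    obtain ⟨q, hq, rfl⟩ := K.sur z (by omega)
    have h3 := k3 _ hzm
    rw [hCh q hq] at h3
    omega
  rw [hE, card_empty, h1] at hE1
  have hchtip : Ch (f (m - (m - 1)) (m + (m - 1))) = {X m} :=
    KD.ch_tip (m := m) (y := fun j => f (m - j) (m + j)) C K
  have hctip : corank (f (m - (m - 1)) (m + (m - 1))) = 2 * m := K.ply.cor (m - 1) (by omega)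
  have hQtip : f (m - (m - 1)) (m + (m - 1)) ∈ QEv α (2 * m + 1 + 1) := by
    rw [mem_QEv]
    refine ⟨by omega, by rw [hchtip, card_singleton], ?_⟩
    rw [Ch2_of_single hchtip]
    exact hCh m le_rfl
  rcases hcase with ⟨rfl, rfl⟩ | ⟨hc1, rfl⟩
  · -- `k = X 0`
    have hF : FFv α (2 * m + 1) = ∅ := by
      rw [← not_nonempty_iff_eq_empty]
      rintro ⟨⟨a, b⟩, hab⟩
      rw [mem_FFv] at hab
      obtain ⟨k1, k2, k3, k4, k5⟩ := hab
      simp only at k1 k2 k3 k4 k5
      obtain ⟨j, j', hj, hj', hg⟩ := hpl.pair k5 (C.pr_sub k1)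
      have h2 := hk.eq (Pr a) k5
      rw [hg, hpl.mD j j' hj hj'] at h2
      have h3 : (({X j, X j'} : Finset α) = {X m, X 0}) → (j = 0 ∧ j' = m) := by
        intro he
        rw [pair_comm (X m)] at he
        exact kill_pair_inj K.inj hj hj' (by omega) le_rfl he
      have h4 : mC (2 * m + 1) {X j, X j'} ≤ 1 := by
        by_cases h5 : (({X j, X j'} : Finset α) = {X m, X 0})
        · have := h3 h5
          rw [if_neg (show ¬ j' = j + 1 by omega)] at h2
          split_ifs at h2 <;> omega
        · rw [if_neg h5] at h2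
          split_ifs at h2 <;> omega
      rw [← hg] at h4
      unfold mC at h4
      exact k3 (card_le_one.1 h4 a (mem_filter.2 ⟨mem_lev.2 k1, rfl⟩) b
        (mem_filter.2 ⟨mem_lev.2 k2, k4.symm⟩))
    rw [hF, card_empty] at hE1
    have h2 : 0 < (QEv α (2 * m + 1 + 1)).card := card_pos.2 ⟨_, hQtip⟩
    have hP : PEv α (2 * m + 1) = ∅ := card_eq_zero.1 (by omega)
    have hRD := (C.RD (i := 2 * m + 1) (by omega) hi hk
      (fun v hv _ => kill_hup C hT K hv)).2
    rw [hP, kill_Q1 C hm hT, sum_empty, sum_empty] at hRD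
    norm_num at hRD
  · -- `k = X (m - 1)`
    have hmC : 1 < mC (2 * m + 1) {X (p + 1), X (p + 1 + 1)} := by
      have h2 := hk.eq {X (p + 1), X (p + 1 + 1)}
        (card_pair (K.ne (by omega) (by omega) (by omega)))
      rw [hpl.mD (p + 1) (p + 1 + 1) (by omega) (by omega), if_pos rfl, if_neg, if_pos] at h2
      · omega
      · rw [pair_comm, hc1]
      · intro he
        have := kill_pair_inj K.inj (by omega) (by omega) (by omega) (by omega) he
        omega
    have hF : 0 < (FFv α (2 * m + 1)).card := by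
      unfold mC at hmC
      obtain ⟨a, ha, b, hb, hab⟩ := one_lt_card.1 hmC
      rw [mem_filter, mem_lev] at ha hb
      apply card_pos.2
      refine ⟨(a, b), mem_FFv.2 ⟨ha.1, hb.1, hab, ?_, ?_⟩⟩
      · show Pr a = Pr b
        rw [ha.2, hb.2]
      · show (Pr a).card = 2
        rw [ha.2, card_pair (K.ne (by omega) (by omega) (by omega))]
    have hQ : (QEv α (2 * m + 1 + 1)).card ≤ 1 := by
      rw [card_le_one]
      have key : ∀ v ∈ QEv α (2 * m + 1 + 1), v = f (m - (m - 1)) (m + (m - 1)) := by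
        intro v hv
        rw [mem_QEv] at hv
        obtain ⟨j, hj, rfl⟩ := K.ply.sur v (by omega)
        have h2 := hv.2.1
        rcases Nat.lt_or_ge (j + 1) m with h3 | h3
        · exfalso
          have h4 : Ch (f (m - j) (m + j)) = {X (j + 1), X (j + 2)} :=
            KD.ch_mid (m := m) (y := fun j => f (m - j) (m + j)) C K (by omega)
          rw [h4, card_pair (K.ne (by omega) (by omega) (by omega))] at h2
          omega
        · rcases Nat.lt_or_ge j m with h5 | h5
          · have e : j = m - 1 := by omega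
            rw [e]
          · exfalso
            have e : j = m := by omega
            have h4 : Ch (f (m - m) (m + m)) = {X 0, X 1} :=
              KD.ch_m (m := m) (y := fun j => f (m - j) (m + j)) C K
            rw [e, h4, card_pair (K.ne (by omega) (by omega) (by omega))] at h2
            omega
      intro a ha b hb
      rw [key a ha, key b hb]
    have hP : 0 < (PEv α (2 * m + 1)).card := by omega
    obtain ⟨w', hw'⟩ := card_pos.1 hP
    rw [mem_PEv] at hw'
    obtain ⟨v1, v2, v3⟩ := hw'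
    have hH3 : 2 * m + 3 < HT α := by
      have := corank_lt_HT w'
      omega
    have hS3 := C.sgl_pr (i := 2 * m + 2) (by omega)
    have hsz3 := rtwo_sz_le C h1 (2 * m + 3)
    have h6 : sz α (2 * m + 2 + 1) = sz α (2 * m + 3) := rfl
    have hS3' : 0 < ((lev α (2 * m + 2 + 1)).filter fun x => (Pr x).card = 1).card :=
      card_pos.2 ⟨w', mem_filter.2 ⟨mem_lev.2 (by omega), v2⟩⟩
    have hS3'' : ((lev α (2 * m + 2 + 1)).filter fun x => (Pr x).card = 1).card ≤ 1 := by omega
    have hsz3' : sz α (2 * m + 3) = m + 2 := by omega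
    have hstop : ∀ x : α, Pr x ≠ {u} := by
      intro x hx
      have h2 : u ∈ Pr x := by rw [hx]; simp
      have h3 := C.cork (mem_Pr.1 h2)
      have h4 : x = w' := card_le_one.1 hS3'' x
        (mem_filter.2 ⟨mem_lev.2 (by omega), by rw [hx, card_singleton]⟩) w'
        (mem_filter.2 ⟨mem_lev.2 (by omega), v2⟩)
      rw [← h4, Pr2_of_single hx, hu, card_singleton] at v3
      omega
    set f' : ℕ → ℕ → α := fun c d => if c = 0 ∧ d = 2 * m + 1 then X 0 else
      if c = 0 ∧ d = 2 * m + 2 then u else f c d with hf'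
    have hf1 : f' 0 (2 * m + 1) = X 0 := by simp [hf']
    have hf3 : f' 0 (2 * m + 2) = u := by simp [hf']
    have hf2 : ∀ c d, c + d ≤ 2 * m → f' c d = f c d := by
      intro c d h
      simp only [hf']
      rw [if_neg (by omega), if_neg (by omega)]
    have hA : ArmTop (2 * m + 3) (2 * m) f' := by
      refine ⟨?_, ?_, ?_, ?_⟩
      · apply kill_top_congr _ hf2
        exact hT.congr_region fun c d h => by unfold Stc; omega
      · intro d h2 h3
        rcases Nat.lt_or_ge (2 * m + 1) d with h4 | h4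
        · have e : d = 2 * m + 2 := by omega
          rw [e, hf3]
          exact hcu
        · have e : d = 2 * m + 1 := by omega
          rw [e, hf1]
          exact K.cor 0 (by omega)
      · intro d h2 h3
        rcases Nat.lt_or_ge (2 * m + 1) d with h4 | h4
        · have e : d = 2 * m + 2 := by omega
          have e2 : 2 * m + 2 - 1 = 2 * m + 1 := by omega
          rw [e, hf3, e2, hf1, hu]
        · have e : d = 2 * m + 1 := by omega
          rw [e, hf1, Nat.add_sub_cancel, hf2 0 (2 * m) (by omega), hp0]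
      · intro x d h2 h3 hx
        rcases Nat.lt_or_ge (2 * m + 1) d with h4 | h4
        · exfalso
          have e : d = 2 * m + 2 := by omega
          rw [e, hf3] at hx
          exact hstop x hx
        · rcases Nat.lt_or_ge (2 * m) d with h5 | h5
          · have e : d = 2 * m + 1 := by omega
            rw [e, hf1] at hx
            have h7 : X 0 ∈ Pr x := by rw [hx]; simp
            have h8 := C.cork (mem_Pr.1 h7)
            rw [K.cor 0 (by omega)] at h8
            refine ⟨by omega, ?_⟩
            rw [e]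
            show x = f' 0 (2 * m + 2)
            rw [hf3]
            rcases hsing x (by omega) (by rw [hx, card_singleton]) with h9 | h9
            · exact h9
            · exfalso
              rw [h9, hwp] at hx
              exact K.ne (by omega) (by omega) (by omega) (singleton_injective hx)
          · have e : d = 2 * m := by omega
            rw [e, hf2 0 (2 * m) (by omega)] at hx
            have h7 : f 0 (2 * m) ∈ Pr x := by rw [hx]; simp
            have h8 := C.cork (mem_Pr.1 h7)
            rw [hT.cor 0 (2 * m) ⟨by omega, by omega⟩ (by omega)] at h8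
            refine ⟨by omega, ?_⟩
            rw [e, hf1]
            exact hx0' x (by omega) (by rw [hx, card_singleton])
    have hsz := sizes_of_arm C (K := 2 * m + 4) (by omega) hA
      (fun y hy hne => by
        obtain ⟨q, hq, rfl⟩ := K.sur y hy
        have h9 := kill_usb C hT K (q := q) (by
          rintro rfl
          exact hne (by omega) hf1.symm) hq
        omega)
      (fun c d h1 h2 _ h3 => kill_cell hm h1 h2 h3) (2 * m + 3) (by omega)
    rw [kill_st] at hsz
    omega

/-- the second alternative is impossible -/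
theorem rtwo_kill (C : Ctx α) (h1 : sz α 1 = 1) {m : ℕ} (hm : 3 ≤ m) {f : ℕ → ℕ → α}
    (hT : Top (Stc (2 * m + 1)) (2 * m) f) (hP : ∀ j < 2 * m, Perf α j)
    (hi : 2 * m + 1 < HT α) {x0 : α} (hx0 : Pr x0 = {f 0 (2 * m)})
    (hx0' : ∀ x' : α, corank x' = 2 * m + 1 → (Pr x').card = 1 → x' = x0)
    (hD : Defect (2 * m) (f 1 (2 * m - 1)) (f m m) (f 0 (2 * m)))
    (hS : (Ch (f 1 (2 * m - 1))).card = 1) : False := by
  have e1 : f 1 (2 * m - 1) = f (m - (m - 1)) (m + (m - 1)) := by congr 1 <;> omega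
  have e2 : f m m = f (m - 0) (m + 0) := rfl
  have e3 : f 0 (2 * m) = f (m - m) (m + m) := by congr 1 <;> omega
  rw [e1, e2, e3] at hD
  rw [e3] at hx0
  obtain ⟨X, K, hX0⟩ := kill_exists C hm (kill_pl C hT) hx0 hx0' hD
  subst hX0
  obtain ⟨w, p, k1, k2, k3, k4, k5, k6, k7⟩ := kill_F C h1 hT K hi hx0' hD
  by_cases harm : ∃ u : α, Pr u = {X 0}
  · obtain ⟨u, hu⟩ := harm
    exact kill_K1 C h1 hT K hi hx0' k1 k2 k3 k4 k5 k7 hu
  · push Not at harm
    exact kill_K2 C hT K hx0' harm

end Pool.Gauss
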