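import Pool.Agent.Work.MP_065141_co.Rtwo2

/-!
# Sizes 1, 1, 2: odd levels
-/

set_option autoImplicit false
set_option linter.unusedSectionVars false
open scoped Classical
open Finset

namespace Pool.Gauss

variable {α : Type} [Fintype α] [PartialOrder α]

lemma st_val {N l : ℕ} (hN : 1 ≤ N) : st N l = l / 2 + 1 - (l + 1 - N) := by
  unfold st
  have : (range (l + 1)).filter (fun c => c ≤ l - c ∧ l - c < N) = Ico (l + 1 - N) (l / 2 + 1) := by
    ext c
    rw [mem_filter, mem_range, mem_Ico]
    omega
  rw [this, Nat.card_Ico]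

lemma two_csz {c d : ℕ} (h : c ≤ d) : 2 * csz c d = (c + 1) * (2 * d + 2 - c) := by
  unfold csz
  have h1 : 2 ∣ c * (c + 1) := (Nat.even_mul_succ_self c).two_dvd
  obtain ⟨k, hk⟩ := h1
  rw [hk, Nat.mul_div_cancel_left k (by omega)]
  obtain ⟨e, rfl⟩ : ∃ e, d = c + e := ⟨d - c, by omega⟩
  have h2 : 2 * (c + e) + 2 - c = c + 2 * e + 2 := by omega
  have h3 : k ≤ (c + 1) * (c + e + 1) := by nlinarith
  rw [h2]
  zify [h3]
  have h4 : (c : ℤ) * (c + 1) = 2 * k := by exact_mod_cast hk
  nlinarith

/-- the filter of a lower cover is larger -/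
lemma us_covBy {x y : α} (h : x < y) : us y + 1 ≤ us x := by
  unfold us
  have h1 : (univ.filter fun z => y ≤ z).card + 1 = (insert x (univ.filter fun z => y ≤ z)).card := by
    rw [card_insert_of_notMem]
    rw [mem_filter]
    rintro ⟨_, h2⟩
    exact absurd h (not_lt_of_ge h2)
  rw [h1]
  apply card_le_card
  intro z hz
  rw [mem_insert, mem_filter] at hz
  rw [mem_filter]
  refine ⟨mem_univ _, ?_⟩
  rcases hz with rfl | hz
  · exact le_rfl
  · exact h.le.trans hz.2

section Odd

variable {N m i : ℕ} {f : ℕ → ℕ → α}

lemma odd_PL (C : Ctx α) (hT : Top (Stc N) (2 * m - 1) f) (hN : 2 * m ≤ N) (hm : 1 ≤ m) :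
    PL (2 * m - 1) (m - 1) (fun j => evu f m (j + 1)) where
  cor j hj := by
    unfold evu
    rw [hT.cor _ _ ⟨by omega, by omega⟩ (by omega)]
    omega
  inj j hj j' hj' he := by
    have := evu_inj hT (by omega) (by omega) (by omega) (by omega) (by omega) (by omega) he
    omega
  sur x hx := by
    obtain ⟨c, d, h1, h2, rfl⟩ := hT.sur x (by omega)
    unfold Stc at h1
    refine ⟨m - c - 1, by omega, ?_⟩
    unfold evu
    congr 1 <;> omega
  mD j j' h1 h2 := by
    unfold evu
    rw [pair_comm, hT.mD_eq C stc_hR1 ⟨by omega, by omega⟩ ⟨by omega, by omega⟩ (by omega)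
      (by omega) (by omega)]
    congr 1
    apply propext
    omega

lemma evu_Pr_mid (C : Ctx α) (hT : Top (Stc N) i f) (hi : 2 * m ≤ i + 1) (hN : 2 * m ≤ N) {j : ℕ}
    (h1 : 0 < j) (h2 : j < m) :
    Pr (evu f m j) = {evy f (m - 1) (j - 1), evy f (m - 1) j} := by
  have := stc_Pr_mid C hT (c := m - j - 1) (d := m + j - 2) (by omega) (by omega) (by omega)
  unfold evy evu
  rw [show m - j = m - j - 1 + 1 from by omega, show m + j - 1 = m + j - 2 + 1 from by omega, this,
    pair_comm, show m - 1 - (j - 1) = m - j - 1 + 1 from by omega,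
    show m - 1 + (j - 1) = m + j - 2 from by omega, show m - 1 - j = m - j - 1 from by omega,
    show m - 1 + j = m + j - 2 + 1 from by omega]

lemma evu_Pr_last (C : Ctx α) (hT : Top (Stc N) i f) (hi : 2 * m ≤ i + 1) (hN : 2 * m ≤ N)
    (hm : 2 ≤ m) : Pr (evu f m m) = {evy f (m - 1) (m - 1)} := by
  have := stc_Pr_arm C hT (d := 2 * m - 2) (by omega) (by omega)
  unfold evy evu
  rw [show m - m = 0 from by omega, show m + m - 1 = 2 * m - 2 + 1 from by omega, this,
    show m - 1 - (m - 1) = 0 from by omega, show m - 1 + (m - 1) = 2 * m - 2 from by omega]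

/-- the pairs which may occur below an odd level -/
theorem odd_allowed (C : Ctx α) (hm : 2 ≤ m) (hT : Top (Stc N) (2 * m - 1) f) (hN : 2 * m ≤ N)
    (hcl : Clean α (2 * m - 2)) {w : α} (hw : corank w = 2 * m) (hw2 : (Pr w).card = 2) :
    ∃ j, 1 ≤ j ∧ j < m ∧ Pr w = {evu f m j, evu f m (j + 1)} := by
  have hPL := odd_PL C hT hN (by omega)
  obtain ⟨j, j', h1, h2, h3⟩ := hPL.pair hw2 (C.pr_sub (i := 2 * m - 1) (by omega))
  have hc := hcl.1 w (by omega) hw2
  have hPL' := even_PL (m := m - 1) C (hT.mono (by omega)) (by omega)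
  have hv : ∀ {a b : ℕ}, a ≤ m - 1 → b ≤ m - 1 → a ≠ b → evy f (m - 1) a ≠ evy f (m - 1) b :=
    fun ha hb hab he => hab (hPL'.inj _ ha _ hb he)
  by_cases h4 : j' = j + 1
  · exact ⟨j + 1, by omega, by omega, by rw [h3, h4]⟩
  exfalso
  have pj := evu_Pr_mid C hT (by omega) hN (j := j + 1) (by omega) (by omega)
  rw [show j + 1 - 1 = j from by omega] at pj
  by_cases h6 : j' + 1 = m
  · have p0 := evu_Pr_last C hT (by omega) hN hm
    have h7 : Pr2 w = {evy f (m - 1) j, evy f (m - 1) (j + 1), evy f (m - 1) (m - 1)} := by
      rw [Pr2_of_pair h3, pj, h6, p0]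
      ext x
      simp only [mem_union, mem_insert, mem_singleton]
      tauto
    have h8 : (Pr2 w).card = 3 := by
      rw [h7]
      exact card_eq_three.2 ⟨_, _, _, hv (by omega) (by omega) (by omega),
        hv (by omega) (by omega) (by omega), hv (by omega) (by omega) (by omega), rfl⟩
    have h9 := hc.2 h8 (evu f m (j' + 1)) (by rw [h3]; simp)
    rw [h6, p0, card_singleton] at h9
    omega
  · have pj' := evu_Pr_mid C hT (by omega) hN (j := j' + 1) (by omega) (by omega)
    rw [show j' + 1 - 1 = j' from by omega] at pj'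
    have h7 : Pr2 w = {evy f (m - 1) j, evy f (m - 1) (j + 1), evy f (m - 1) j',
        evy f (m - 1) (j' + 1)} := by
      rw [Pr2_of_pair h3, pj, pj']
      ext x
      simp only [mem_union, mem_insert, mem_singleton]
      tauto
    have h8 : 4 ≤ (Pr2 w).card := by
      rw [h7, card_insert_of_notMem, card_insert_of_notMem, card_pair]
      · exact hv (by omega) (by omega) (by omega)
      · simp only [mem_insert, mem_singleton, not_or]
        exact ⟨hv (by omega) (by omega) (by omega), hv (by omega) (by omega) (by omega)⟩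
      · simp only [mem_insert, mem_singleton, not_or]
        exact ⟨hv (by omega) (by omega) (by omega), hv (by omega) (by omega) (by omega),
          hv (by omega) (by omega) (by omega)⟩
    have := hc.1
    omega

end Odd

/-- if the arm stops at level `2m - 1`: sizes -/
lemma odd_sizes (C : Ctx α) {m : ℕ} (hm : 3 ≤ m) {f : ℕ → ℕ → α}
    (hT : Top (Stc (2 * m)) (2 * m - 1) f) (harm : ∀ x : α, Pr x ≠ {f 0 (2 * m - 1)}) :
    ∀ l < 2 * m + 2, sz α l = st (2 * m) l := by
  apply sizes_of_arm C (N := 2 * m) (i := 2 * m - 1) (K := 2 * m + 2) (by omega) (f := f)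
  · refine ⟨hT, fun d h1 h2 => by omega, fun d h1 h2 => by omega, fun x d h1 h2 h3 => ?_⟩
    have : d = 2 * m - 1 := by omega
    subst this
    exact absurd h3 (harm x)
  · intro y hy _
    -- a parent which is not the arm
    have h1 : ∃ z ∈ Pr y, z ≠ f 0 (2 * m - 1) := by
      by_contra hcon
      push Not at hcon
      apply harm y
      apply Finset.eq_singleton_iff_unique_mem.2
      obtain ⟨z, hz⟩ := card_pos.1 (C.pr_pos (x := y) (by omega))
      have := hcon z hz
      rw [this] at hz
      exact ⟨hz, hcon⟩
    obtain ⟨z, hz, hz2⟩ := h1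
    rw [Gauss.mem_Pr] at hz
    have hzc := C.cork hz
    obtain ⟨c, d, h2, h3, rfl⟩ := hT.sur z (by omega)
    have h4 := us_covBy hz.lt
    rw [us_eq C hT h2 (by omega)] at h4
    unfold Stc at h2
    have hc : 1 ≤ c := by
      by_contra hcon
      apply hz2
      have e1 : c = 0 := by omega
      have e2 : d = 2 * m - 1 := by omega
      rw [e1, e2]
    have h5 := two_csz h2.1
    have e3 : 2 * d + 2 - c = 4 * m - 3 * c := by omega
    have e4 : 3 * c ≤ 4 * m := by omega
    rw [e3] at h5
    have h6 : 4 * m + 4 ≤ (c + 1) * (4 * m - 3 * c) := by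
      have e5 : c + 1 ≤ m := by omega
      zify [e4]
      have h7 : (c : ℤ) + 1 ≤ m := by exact_mod_cast e5
      have h8 : (1 : ℤ) ≤ c := by exact_mod_cast hc
      have h9 : (3 : ℤ) ≤ m := by exact_mod_cast hm
      rcases eq_or_lt_of_le h8 with h10 | h10
      · rw [← h10]
        linarith
      · have h11 : (2 : ℤ) ≤ c := h10
        nlinarith [mul_le_mul h11 h9 (by linarith) (by linarith : (0 : ℤ) ≤ c),
          mul_nonneg (by linarith : (0 : ℤ) ≤ (c : ℤ) - 2) (by linarith : (0 : ℤ) ≤ (m : ℤ) - 1 - c)]
    omega
  · intro c d hc hcd hd hi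
    have h5 := two_csz hcd
    have h6 : 4 * m + 6 ≤ (c + 1) * (2 * d + 2 - c) := by
      rcases Nat.lt_or_ge c 2 with h7 | h7
      · have e1 : c = 1 := by omega
        subst e1
        omega
      · have e3 : d + 2 ≤ 2 * d + 2 - c := by omega
        refine le_trans ?_ (Nat.mul_le_mul_left (c + 1) e3)
        have e4 : 2 * m ≤ c + d := by omega
        nlinarith [mul_le_mul h7 (by omega : 2 ≤ d) (by omega) (by omega : 0 ≤ c),
          Nat.mul_le_mul h7 (by omega : 2 ≤ d),
          mul_nonneg (by omega : 0 ≤ c - 2) (by omega : 0 ≤ d - 2)]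
    omega

/-- with exactly two single elements in level `i + 1` -/
lemma Ctx.sg1_eq_two (C : Ctx α) {i : ℕ} {x0 x1 t0 t1 y : α} (hy : corank y = i)
    (hne : x0 ≠ x1) (ht0 : Pr x0 = {t0}) (ht1 : Pr x1 = {t1})
    (hx0 : ∀ x' : α, corank x' = i + 1 → (Pr x').card = 1 → x' = x0 ∨ x' = x1) :
    sg1 y = (if y = t0 then 1 else 0) + (if y = t1 then 1 else 0) := by
  unfold sg1
  have h1 : (Ch y).filter (fun x => (Pr x).card = 1) =
      (if y = t0 then {x0} else ∅) ∪ (if y = t1 then {x1} else ∅) := by
    ext x
    rw [mem_filter, mem_union]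
    constructor
    · rintro ⟨h2, h3⟩
      have h4 := C.cork (Gauss.mem_Ch.1 h2)
      rw [← mem_Pr_iff] at h2
      rcases hx0 x (by omega) h3 with rfl | rfl
      · left
        rw [ht0, mem_singleton] at h2
        rw [if_pos h2, mem_singleton]
      · right
        rw [ht1, mem_singleton] at h2
        rw [if_pos h2, mem_singleton]
    · rintro (h2 | h2)
      · split_ifs at h2 with h3
        · rw [mem_singleton] at h2
          subst h2
          rw [← mem_Pr_iff, ht0, mem_singleton, card_singleton]
          exact ⟨h3, rfl⟩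
        · exact absurd h2 (notMem_empty _)
      · split_ifs at h2 with h3
        · rw [mem_singleton] at h2
          subst h2
          rw [← mem_Pr_iff, ht1, mem_singleton, card_singleton]
          exact ⟨h3, rfl⟩
        · exact absurd h2 (notMem_empty _)
  rw [h1]
  split_ifs with h2 h3 h3
  · rw [card_union_of_disjoint, card_singleton, card_singleton]
    rw [disjoint_singleton]
    exact hne
  · simp
  · simp
  · simp

/-- odd levels -/
theorem rtwo_odd (C : Ctx α) (h1 : sz α 1 = 1) {m : ℕ} (hm : 2 ≤ m) {f : ℕ → ℕ → α}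
    (hT : Top (Stc (2 * m)) (2 * m - 1) f) (hP : ∀ j < 2 * m - 1, Perf α j)
    (hi : 2 * m < HT α) :
    Perf α (2 * m - 1) ∧
    (∃ w : α, Pr w = {f (m - 1) m} ∧ ∀ w' : α, corank w' = 2 * m → (Pr w').card = 1 →
      w' = w ∨ Pr w' = {f 0 (2 * m - 1)}) ∧
    (∀ x x' : α, Pr x = {f 0 (2 * m - 1)} → Pr x' = {f 0 (2 * m - 1)} → x = x') := by
  have hN : 2 * m ≤ 2 * m := le_rfl
  have hii : 2 * m - 1 + 1 = 2 * m := by omega
  have hPL := odd_PL C hT hN (by omega)
  have hszi := hPL.sz_eq
  obtain ⟨hQe, hQo, hE, hF, hPo, hPe, hup⟩ := rtwo_facts C h1 (i := 2 * m - 1) (by omega)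
    (by omega) (by rw [hii]; exact hT)
  have hPE := hPe (m - 2) (by omega)
  have hQE := hQe (m - 2) (by omega)
  rw [show 2 * (m - 2) + 2 = 2 * m - 2 from by omega] at hPE hQE
  obtain ⟨w0, hw0⟩ := card_eq_one.1 hPE
  have hw0m : w0 ∈ PEv α (2 * m - 2) := by rw [hw0]; simp
  rw [mem_PEv] at hw0m
  obtain ⟨hw0c, hw01, hw02⟩ := hw0m
  obtain ⟨x, hx⟩ := card_eq_one.1 hw01
  rw [Pr2_of_single hx] at hw02
  have hxc : corank x = 2 * m - 1 := by
    have h2 : x ∈ Pr w0 := by rw [hx]; simp
    rw [Gauss.mem_Pr] at h2
    have := C.cork h2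
    omega
  obtain ⟨P, hP1, hPm, hxP⟩ : ∃ P, 1 ≤ P ∧ P ≤ m ∧ x = evu f m P := by
    obtain ⟨P', hP', h2⟩ := hPL.sur x hxc
    exact ⟨P' + 1, by omega, by omega, h2⟩
  subst hxP
  have hcorU : ∀ j, 1 ≤ j → j ≤ m → corank (evu f m j) = 2 * m - 1 := by
    intro j h2 h3
    have := hPL.cor (j - 1) (by omega)
    rwa [show j - 1 + 1 = j from by omega] at this
  have hsurU : ∀ x : α, corank x = 2 * m - 1 → ∃ j, 1 ≤ j ∧ j ≤ m ∧ x = evu f m j := by
    intro x h2
    obtain ⟨P', hP', h3⟩ := hPL.sur x h2
    exact ⟨P' + 1, by omega, by omega, h3⟩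
  have hinjU : ∀ {j j' : ℕ}, 1 ≤ j → j ≤ m → 1 ≤ j' → j' ≤ m → evu f m j = evu f m j' → j = j' :=
    fun h2 h3 h4 h5 h6 => evu_inj hT (by omega) (by omega) h2 h3 h4 h5 h6
  have hlast : evu f m m = f 0 (2 * m - 1) := by
    unfold evu
    congr 1 <;> omega
  have hPrl := evu_Pr_last C hT (by omega) hN hm
  have hPm' : P < m := by
    rcases eq_or_lt_of_le hPm with h2 | h2
    · rw [h2, hPrl, card_singleton] at hw02
      omega
    · exact h2
  -- R0b
  have hPL' := even_PL (m := m - 1) C (hT.mono (by omega)) (by omega)
  have hvinj : ∀ {a b : ℕ}, a ≤ m - 1 → b ≤ m - 1 → evy f (m - 1) a = evy f (m - 1) b → a = b :=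
    fun ha hb he => hPL'.inj _ ha _ hb he
  obtain ⟨hcl, hnd⟩ := C.R0b (i := 2 * m - 2) (by omega) (hP _ (by omega)) hw0 hQE
  have hCh2 : Ch2 (f (m - 2) (m - 2)) = {evy f (m - 1) 0, evy f (m - 1) 1} := by
    rw [Ch2_of_single (stc_Ch_diag C hT (by omega) (by omega)),
      stc_Ch_mid C hT (by omega) (by omega) (by omega)]
    unfold evy
    rw [show m - 2 + 1 = m - 1 from by omega, show m - 1 - 0 = m - 1 from by omega,
      show m - 1 + 0 = m - 1 from by omega, show m - 1 - 1 = m - 2 from by omega]
  have hP2 : P ≤ 2 := by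
    rw [Pr2_of_single hx, evu_Pr_mid C hT (by omega) hN (by omega) hPm', hCh2] at hnd
    by_contra hcon
    apply hnd
    rw [Finset.disjoint_left]
    intro z hz hz'
    rw [mem_insert, mem_singleton] at hz hz'
    rcases hz with rfl | rfl
    · rcases hz' with h2 | h2
      · have := hvinj (by omega) (by omega) h2
        omega
      · have := hvinj (by omega) (by omega) h2
        omega
    · rcases hz' with h2 | h2
      · have := hvinj (by omega) (by omega) h2
        omega
      · have := hvinj (by omega) (by omega) h2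
        omega
  have hall : ∀ w : α, corank w = 2 * m → (Pr w).card = 2 →
      ∃ j, 1 ≤ j ∧ j < m ∧ Pr w = {evu f m j, evu f m (j + 1)} :=
    fun w h2 h3 => odd_allowed C hm hT hN hcl h2 h3
  -- sizes
  have s1 := C.sgl_pr (i := 2 * m - 1) (by omega)
  have s2 := C.sgl_ch (i := 2 * m - 1) (by omega)
  rw [hii] at s1 s2
  have s3 := rtwo_sz_le C h1 (2 * m)
  -- the other single elements
  have hoth : ∀ w' : α, corank w' = 2 * m → (Pr w').card = 1 → w' = w0 ∨
      Pr w' = {evu f m m} := by
    intro w' h2 h3
    obtain ⟨x', hx'⟩ := card_eq_one.1 h3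
    have hxc' : corank x' = 2 * m - 1 := by
      have h2 : x' ∈ Pr w' := by rw [hx']; simp
      rw [Gauss.mem_Pr] at h2
      have := C.cork h2
      omega
    obtain ⟨j, h4, h5, rfl⟩ := hsurU x' hxc'
    rcases eq_or_lt_of_le h5 with h6 | h6
    · right
      rw [hx', h6]
    · left
      have h7 : w' ∈ PEv α (2 * m - 2) := by
        rw [mem_PEv]
        refine ⟨by omega, h3, ?_⟩
        rw [Pr2_of_single hx', evu_Pr_mid C hT (by omega) hN (by omega) h6, card_pair]
        intro h8
        have := hvinj (by omega) (by omega) h8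
        omega
      rw [hw0, mem_singleton] at h7
      exact h7
  have hw0A : w0 ∈ (lev α (2 * m)).filter fun x => (Pr x).card = 1 :=
    mem_filter.2 ⟨mem_lev.2 (by omega), hw01⟩
  have hcA : ∀ x : α, Pr x = {f 0 (2 * m - 1)} →
      x ∈ ((lev α (2 * m)).filter fun x => (Pr x).card = 1) ∧ x ≠ w0 := by
    intro x h2
    rw [← hlast] at h2
    constructor
    · rw [mem_filter, mem_lev, h2, card_singleton]
      have h3 : evu f m m ∈ Pr x := by rw [h2]; simp
      rw [Gauss.mem_Pr] at h3
      have := C.cork h3
      have := hcorU m (by omega) le_rfl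
      exact ⟨by omega, rfl⟩
    · rintro rfl
      rw [hx] at h2
      have := hinjU (by omega) (by omega) (by omega) le_rfl (singleton_injective h2)
      omega
  have huniq : ∀ x x' : α, Pr x = {f 0 (2 * m - 1)} → Pr x' = {f 0 (2 * m - 1)} → x = x' := by
    intro x x' h2 h3
    by_contra h4
    have h5 : ({x, x', w0} : Finset α) ⊆ (lev α (2 * m)).filter fun x => (Pr x).card = 1 := by
      intro z hz
      simp only [mem_insert, mem_singleton] at hz
      rcases hz with rfl | rfl | rfl
      · exact (hcA z h2).1
      · exact (hcA z h3).1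
      · exact hw0A
    have h6 := card_le_card h5
    rw [card_eq_three.2 ⟨x, x', w0, h4, (hcA x h2).2, (hcA x' h3).2, rfl⟩] at h6
    omega
  suffices hmain : Perf α (2 * m - 1) ∧ P = 1 by
    refine ⟨hmain.1, ⟨w0, ?_, ?_⟩, huniq⟩
    · rw [hx, hmain.2]
      unfold evu
      congr 1
    · intro w' h2 h3
      rw [← hlast]
      exact hoth w' h2 h3
  by_cases harm : ∃ w1 : α, Pr w1 = {f 0 (2 * m - 1)}
  · -- the arm continues
    obtain ⟨w1, hw1⟩ := harm
    have hw1A := hcA w1 hw1
    have hw1' : Pr w1 = {evu f m m} := by rw [hlast]; exact hw1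
    have h5 : ({w0, w1} : Finset α) ⊆ (lev α (2 * m)).filter fun x => (Pr x).card = 1 := by
      intro z hz
      simp only [mem_insert, mem_singleton] at hz
      rcases hz with rfl | rfl
      · exact hw0A
      · exact hw1A.1
    have h6 := card_le_card h5
    rw [card_pair hw1A.2.symm] at h6
    have hB : ((lev α (2 * m - 1)).filter fun x => (Ch x).card = 1) = ∅ := by
      rw [← card_eq_zero]
      omega
    have hch : ∀ u : α, corank u = 2 * m - 1 → (Ch u).card = 2 := by
      intro u hu
      rcases C.ch_cases (x := u) (by omega) with h7 | h7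
      · exfalso
        have h8 : u ∈ ((lev α (2 * m - 1)).filter fun x => (Ch x).card = 1) :=
          mem_filter.2 ⟨mem_lev.2 hu, h7⟩
        rw [hB] at h8
        exact notMem_empty _ h8
      · exact h7
    have hdev : ∀ j, 1 ≤ j → j ≤ m → bC (evu f m j) + (if j = P then 1 else 0) =
        aD (evu f m j) + (if j = 1 then 1 else 0) := by
      intro j h7 h8
      have h9 := C.bC_add_sg1 (evu f m j)
      rw [C.sg1_eq_two (hcorU j h7 h8) hw1A.2.symm hx hw1'
        (fun x' h10 h11 => ?_), hch _ (hcorU j h7 h8)] at h9
      · have h10 := hPL.aD_eq C (j := j - 1) (by omega)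
        rw [show j - 1 + 1 = j from by omega] at h10
        rw [h10]
        have e1 : (evu f m j = evu f m P) ↔ j = P :=
          ⟨fun h => hinjU h7 h8 (by omega) (by omega) h, fun h => by rw [h]⟩
        have e2 : (evu f m j = evu f m m) ↔ j = m :=
          ⟨fun h => hinjU h7 h8 (by omega) (by omega) h, fun h => by rw [h]⟩
        simp only [e1, e2] at h9
        split_ifs at h9 ⊢ <;> omega
      · rw [hii] at h10
        rcases hoth x' h10 h11 with h12 | h12
        · exact Or.inl h12
        · rw [hlast] at h12
          exact Or.inr (huniq _ _ h12 hw1)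
    by_cases hP11 : P = 1
    · refine ⟨C.perf_of_deg (by omega) (by omega) fun u hu => ?_, hP11⟩
      obtain ⟨j, h7, h8, rfl⟩ := hsurU u hu
      have := hdev j h7 h8
      rw [hP11] at this
      omega
    · exfalso
      have hP22 : P = 2 := by omega
      subst hP22
      have hs12 : evu f m 2 ≠ evu f m 1 := fun h => by
        have := hinjU (by omega) (by omega) (by omega) (by omega) h
        omega
      obtain ⟨k, hD⟩ := C.defect_of_deg (i := 2 * m - 1) (by omega) (by omega)
        (hcorU 2 (by omega) (by omega)) (hcorU 1 (by omega) (by omega)) hs12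
        (by
          have := hdev 2 (by omega) (by omega)
          rw [if_pos rfl, if_neg (by omega)] at this
          omega)
        (by
          have := hdev 1 (by omega) (by omega)
          rw [if_neg (by omega), if_pos rfl] at this
          omega)
        (by
          intro u hu h9 h10
          obtain ⟨j, h7, h8, rfl⟩ := hsurU u hu
          have := hdev j h7 h8
          rw [if_neg (fun h => h9 (by rw [h])), if_neg (fun h => h10 (by rw [h]))] at this
          omega)
      obtain ⟨w, hw, hw2⟩ := exists_of_mC_pos hD.mC_pos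
      obtain ⟨j, h9, h10, h11⟩ := hall w (by omega) (by rw [hw2, card_pair hD.tk])
      rw [hw2] at h11
      have m1 : evu f m 1 ∈ ({evu f m j, evu f m (j + 1)} : Finset α) := by rw [← h11]; simp
      have m2 : k ∈ ({evu f m j, evu f m (j + 1)} : Finset α) := by rw [← h11]; simp
      rw [mem_insert, mem_singleton] at m1 m2
      have hj : j = 1 := by
        rcases m1 with m1 | m1
        · exact (hinjU (by omega) (by omega) (by omega) (by omega) m1).symm
        · have := hinjU (by omega) (by omega) (by omega) (by omega) m1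
          omega
      subst hj
      rcases m2 with m2 | m2
      · exact hD.tk m2.symm
      · exact hD.sk m2.symm
  · -- the arm stops
    push Not at harm
    have hA : ∀ x' : α, corank x' = 2 * m - 1 + 1 → (Pr x').card = 1 → x' = w0 := by
      intro x' h10 h11
      rw [hii] at h10
      rcases hoth x' h10 h11 with h12 | h12
      · exact h12
      · rw [hlast] at h12
        exact absurd h12 (harm x')
    have hA1 : ((lev α (2 * m)).filter fun x => (Pr x).card = 1).card = 1 := by
      rw [card_eq_one]
      refine ⟨w0, ?_⟩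
      ext x'
      rw [mem_singleton]
      constructor
      · intro h2
        rw [mem_filter, mem_lev] at h2
        exact hA x' (by omega) h2.2
      · rintro rfl
        exact hw0A
    have hB1 : ((lev α (2 * m - 1)).filter fun x => (Ch x).card = 1).card = 1 := by omega
    obtain ⟨S, hS⟩ := card_eq_one.1 hB1
    have hSm : S ∈ ((lev α (2 * m - 1)).filter fun x => (Ch x).card = 1) := by rw [hS]; simp
    rw [mem_filter, mem_lev] at hSm
    have hS' : ∀ S' : α, corank S' = 2 * m - 1 → (Ch S').card = 1 → S' = S := by
      intro S' h8 h9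
      have : S' ∈ ((lev α (2 * m - 1)).filter fun x => (Ch x).card = 1) :=
        mem_filter.2 ⟨mem_lev.2 h8, h9⟩
      rwa [hS, mem_singleton] at this
    obtain ⟨PS, hPS1, hPS2, hPS⟩ := hsurU S hSm.1
    have hdev : ∀ j, 1 ≤ j → j ≤ m → bC (evu f m j) + (if j = PS then 1 else 0) +
        (if j = P then 1 else 0) =
        aD (evu f m j) + (if j = 1 then 1 else 0) + (if j = m then 1 else 0) := by
      intro j h7 h8
      have h9 := hPL.dev C (by omega) (by omega) hx hA hSm.2 hS' (u := evu f m j) (hcorU j h7 h8)
      rw [hPS, show m - 1 + 1 = m from by omega, zero_add] at h9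
      have e1 : ∀ {a : ℕ}, 1 ≤ a → a ≤ m → ((evu f m j = evu f m a) ↔ j = a) := fun ha ha' =>
        ⟨fun h => hinjU h7 h8 ha ha' h, fun h => by rw [h]⟩
      simp only [e1 hPS1 hPS2, e1 hP1 hPm, e1 (le_refl 1) (by omega : 1 ≤ m),
        e1 (by omega : 1 ≤ m) (le_refl m)] at h9
      exact h9
    -- consequences of the sizes (m ≥ 3)
    have hE1 : 3 ≤ m → (QEv α (2 * m)).card + (EEv α (2 * m - 1)).card =
        1 + (FFv α (2 * m - 1)).card / 2 ∧ 2 ∣ (FFv α (2 * m - 1)).card := by
      intro hm3
      have h2 := odd_sizes C hm3 hT harm (2 * m + 1) (by omega)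
      rw [st_val (by omega)] at h2
      have h3 : 2 * m + 1 < HT α := by
        by_contra hcon
        have := sz_eq_zero (α := α) (i := 2 * m + 1) (by omega)
        omega
      have h4 := C.sgl_pr (i := 2 * m) (by omega)
      have h5 : PEv α (2 * m - 1) = ∅ := by
        have h6 : ((lev α (2 * m + 1)).filter fun x => (Pr x).card = 1) = ∅ := by
          rw [← card_eq_zero]
          omega
        rw [eq_empty_iff_forall_notMem]
        intro w hw
        rw [mem_PEv] at hw
        have h7 : w ∈ ((lev α (2 * m + 1)).filter fun x => (Pr x).card = 1) :=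
          mem_filter.2 ⟨mem_lev.2 (by omega), hw.2.1⟩
        rw [h6] at h7
        exact notMem_empty _ h7
      have h8 := C.E1 (j := 2 * m - 1) (by omega)
      rw [h5, h1, hii, card_empty] at h8
      omega
    have hQ2m : ∀ v ∈ QEv α (2 * m), v = f (m - 1) (m - 1) ∧ (Ch (evu f m 1)).card = 2 := by
      intro v hv
      rw [mem_QEv] at hv
      obtain ⟨h2, h3, h4⟩ := hv
      obtain ⟨c, d, h5, h6, rfl⟩ := hT.sur v (by omega)
      have h7 := h5
      unfold Stc at h7
      rw [stc_card_Ch C hT h5 (by omega), if_pos (c := d + 1 < 2 * m) (by omega)] at h3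
      have h8 : ¬ c < d := by
        intro h8
        rw [if_pos h8] at h3
        omega
      have e1 : c = m - 1 := by omega
      have e2 : d = m - 1 := by omega
      subst e1 e2
      refine ⟨rfl, ?_⟩
      rw [Ch2_of_single (stc_Ch_diag C hT (by omega) (by omega))] at h4
      unfold evu
      rw [show m + 1 - 1 = m - 1 + 1 from by omega]
      exact h4
    have hQ2c : (QEv α (2 * m)).card ≤ 1 := by
      rw [card_le_one]
      intro a ha b hb
      rw [(hQ2m a ha).1, (hQ2m b hb).1]
    have hEm : ∀ x' ∈ EEv α (2 * m - 1), x' = w0 ∧ (Ch (evu f m P)).card = 1 := by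
      intro x' hx'
      rw [mem_EEv] at hx'
      have h2 := hA x' hx'.1 hx'.2.1
      subst h2
      exact ⟨rfl, hx'.2.2 _ (by rw [hx]; simp)⟩
    have hEc : (EEv α (2 * m - 1)).card ≤ 1 := by
      rw [card_le_one]
      intro a ha b hb
      rw [(hEm a ha).1, (hEm b hb).1]
    by_cases hP11 : P = 1
    · refine ⟨?_, hP11⟩
      subst hP11
      by_cases hSl : PS = m
      · apply C.perf_of_deg (by omega) (by omega)
        intro u hu
        obtain ⟨j, h7, h8, rfl⟩ := hsurU u hu
        have := hdev j h7 h8
        rw [hSl] at this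
        omega
      · exfalso
        have hne : evu f m PS ≠ evu f m m := fun h => hSl (hinjU hPS1 hPS2 (by omega) le_rfl h)
        obtain ⟨k, hD⟩ := C.defect_of_deg (i := 2 * m - 1) (by omega) (by omega)
          (hcorU PS hPS1 hPS2) (hcorU m (by omega) (by omega)) hne
          (by
            have := hdev PS hPS1 hPS2
            rw [if_pos rfl, if_neg (c := PS = m) hSl] at this
            omega)
          (by
            have := hdev m (by omega) (by omega)
            rw [if_neg (c := m = PS) (by omega), if_pos (c := m = m) rfl] at this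
            omega)
          (by
            intro u hu h9 h10
            obtain ⟨j, h7, h8, rfl⟩ := hsurU u hu
            have := hdev j h7 h8
            rw [if_neg (c := j = PS) (fun h => h9 (by rw [h])),
              if_neg (c := j = m) (fun h => h10 (by rw [h]))] at this
            omega)
        obtain ⟨w, hw, hw2⟩ := exists_of_mC_pos hD.mC_pos
        obtain ⟨j, h9, h10, h11⟩ := hall w (by omega) (by rw [hw2, card_pair hD.tk])
        rw [hw2] at h11
        have m1 : evu f m m ∈ ({evu f m j, evu f m (j + 1)} : Finset α) := by rw [← h11]; simp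
        have m2 : k ∈ ({evu f m j, evu f m (j + 1)} : Finset α) := by rw [← h11]; simp
        rw [mem_insert, mem_singleton] at m1 m2
        have hj : j = m - 1 := by
          rcases m1 with m1 | m1
          · have := hinjU (by omega) (by omega) (by omega) (by omega) m1
            omega
          · have := hinjU (by omega) (by omega) (by omega) (by omega) m1
            omega
        subst hj
        have hk : k = evu f m (m - 1) := by
          rcases m2 with m2 | m2
          · exact m2
          · rw [show m - 1 + 1 = m from by omega] at m2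
            exact absurd m2.symm hD.tk
        -- m ≥ 3
        have hm3 : 3 ≤ m := by
          by_contra hcon
          have hm2 : m = 2 := by omega
          subst hm2
          have : PS = 1 := by omega
          apply hD.sk
          rw [hk, this]
        obtain ⟨h12, _⟩ := hE1 hm3
        -- two elements with the same upper covers
        have h13 : 2 ≤ (FFv α (2 * m - 1)).card / 2 * 2 := by
          have h14 := hD.eq {evu f m m, k} (card_pair hD.tk)
          rw [if_pos rfl, if_neg (c := ({evu f m m, k} : Finset α) = {evu f m PS, k})] at h14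
          · have h15 : mD (2 * m - 1) {evu f m m, k} = 1 := by
              have := hPL.mD (m - 2) (m - 1) (by omega) (by omega)
              rw [if_pos (by omega), show m - 2 + 1 = m - 1 from by omega,
                show m - 1 + 1 = m from by omega] at this
              rw [hk, pair_comm]
              exact this
            have h16 : mC (2 * m - 1) {evu f m m, k} = 2 := by omega
            unfold mC at h16
            obtain ⟨a, b, hab, h17⟩ := card_eq_two.1 h16
            have ha : a ∈ ((lev α (2 * m - 1 + 1)).filter fun x => Pr x = {evu f m m, k}) := by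
              rw [h17]; simp
            have hb : b ∈ ((lev α (2 * m - 1 + 1)).filter fun x => Pr x = {evu f m m, k}) := by
              rw [h17]; simp
            rw [mem_filter, mem_lev] at ha hb
            have h18 : ({(a, b), (b, a)} : Finset (α × α)) ⊆ FFv α (2 * m - 1) := by
              intro p hp
              rw [mem_insert, mem_singleton] at hp
              rcases hp with rfl | rfl
              · rw [mem_FFv]
                exact ⟨ha.1, hb.1, hab, ha.2.trans hb.2.symm, by rw [ha.2, card_pair hD.tk]⟩
              · rw [mem_FFv]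
                exact ⟨hb.1, ha.1, hab.symm, hb.2.trans ha.2.symm, by
                  rw [hb.2, card_pair hD.tk]⟩
            have h19 := card_le_card h18
            rw [card_pair] at h19
            · omega
            · intro h20
              exact hab (congrArg Prod.fst h20)
          · intro h20
            have h21 : evu f m m ∈ ({evu f m PS, k} : Finset α) := by rw [← h20]; simp
            rw [mem_insert, mem_singleton] at h21
            rcases h21 with h21 | h21
            · exact hne h21.symm
            · exact hD.tk h21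
        have h14 : 0 < (QEv α (2 * m)).card ∧ 0 < (EEv α (2 * m - 1)).card := by omega
        obtain ⟨v, hv⟩ := card_pos.1 h14.1
        obtain ⟨x', hx'⟩ := card_pos.1 h14.2
        have h15 := (hQ2m v hv).2
        have h16 := (hEm x' hx').2
        omega
    · exfalso
      have hP22 : P = 2 := by omega
      subst hP22
      have hm3 : 3 ≤ m := by omega
      have hle : bC (evu f m 1) ≤ bC (evu f m 2) := by
        unfold bC
        apply card_le_card
        intro z hz
        rw [mem_filter] at hz ⊢
        refine ⟨?_, hz.2⟩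
        have h2 := C.cork (Gauss.mem_Ch.1 hz.1)
        have h3 := hcorU 1 (by omega) (by omega)
        obtain ⟨j, h9, h10, h11⟩ := hall z (by omega) hz.2
        have h4 := hz.1
        rw [← mem_Pr_iff, h11, mem_insert, mem_singleton] at h4
        have hj : j = 1 := by
          rcases h4 with h4 | h4
          · exact (hinjU (by omega) (by omega) (by omega) (by omega) h4).symm
          · have := hinjU (by omega) (by omega) (by omega) (by omega) h4
            omega
        subst hj
        rw [← mem_Pr_iff, h11]
        simp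
      have d1 := hdev 1 (by omega) (by omega)
      have d2 := hdev 2 (by omega) (by omega)
      have a1 := hPL.aD_eq C (j := 0) (by omega)
      have a2 := hPL.aD_eq C (j := 1) (by omega)
      simp only [zero_add] at a1
      rw [show 1 + 1 = 2 from rfl] at a2
      rw [a1] at d1
      rw [a2] at d2
      have hPSS : PS = 1 := by
        by_contra hne
        rw [if_neg (c := 1 = PS) (fun h => hne h.symm), if_neg (c := 1 = 2) (by decide),
          if_neg (c := 0 < 0) (by decide), if_pos (c := 0 < m - 1) (by omega),
          if_pos (c := 1 = 1) rfl, if_neg (c := 1 = m) (by omega)] at d1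
        rw [if_pos (c := 2 = 2) rfl, if_pos (c := 0 < 1) (by decide),
          if_pos (c := 1 < m - 1) (by omega), if_neg (c := 2 = 1) (by decide),
          if_neg (c := 2 = m) (by omega)] at d2
        omega
      subst hPSS
      have h2 : (Ch (evu f m 1)).card = 1 := by rw [← hPS]; exact hSm.2
      have h3 : QEv α (2 * m) = ∅ := by
        rw [eq_empty_iff_forall_notMem]
        intro v hv
        have := (hQ2m v hv).2
        omega
      have h4 : EEv α (2 * m - 1) = ∅ := by
        rw [eq_empty_iff_forall_notMem]
        intro x' hx'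
        have h5 := (hEm x' hx').2
        have h6 := hS' _ (hcorU 2 (by omega) (by omega)) h5
        rw [hPS] at h6
        have := hinjU (by omega) (by omega) (by omega) (by omega) h6
        omega
      obtain ⟨h12, _⟩ := hE1 hm3
      rw [h3, h4] at h12
      simp only [card_empty] at h12
      omega

end Pool.Gauss
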