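import Pool.Agent.Work.MP_065141_co.Rtwo1
import Pool.Agent.Work.MP_065141_co.Rtwo2
import Pool.Agent.Work.MP_065141_co.Rtwo3
import Pool.Agent.Work.MP_065141_co.Rtwo4

/-!
# Sizes 1, 1, 2: the upper half, number of levels
-/

set_option autoImplicit false
set_option linter.unusedSectionVars false
open scoped Classical
open Finset

namespace Pool.Gauss

variable {α : Type} [Fintype α] [PartialOrder α]

lemma r6_perf_of_sz (C : Ctx α) {i : ℕ} (h : sz α i = 1) : Perf α i := by
  intro s hs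
  have h1 : ¬ s ⊆ lev α i := by
    intro h2
    have h3 := card_le_card h2
    unfold sz at h
    omega
  rw [C.mC_zero h1, C.mD_zero h1]

lemma r6_oneP_even {N m c d c' d' : ℕ} (h : c + d = 2 * m + 1) (h1 : OneP (Stc N) c d c' d') :
    c = 0 ∧ d = 2 * m + 1 ∧ c' = 0 ∧ d' = 2 * m := by
  obtain ⟨h2, h3, h4⟩ := h1
  unfold Stc at *
  rcases h4 with ⟨h5, h6, h7⟩ | ⟨h5, h6, h7⟩
  · exfalso
    have h8 := h7 (d - 1) (by omega)
    omega
  · rcases Nat.eq_zero_or_pos c with h8 | h8
    · omega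
    · exfalso
      have h9 := h7 (c - 1) (by omega)
      omega

lemma r6_oneP_odd {N m c d c' d' : ℕ} (h : c + d = 2 * m) (h1 : OneP (Stc N) c d c' d') :
    (c = 0 ∧ d = 2 * m ∧ c' = 0 ∧ d' = 2 * m - 1) ∨ (c = m ∧ d = m ∧ c' = m - 1 ∧ d' = m) := by
  obtain ⟨h2, h3, h4⟩ := h1
  unfold Stc at *
  rcases h4 with ⟨h5, h6, h7⟩ | ⟨h5, h6, h7⟩
  · have h8 := h7 (d - 1)
    omega
  · rcases Nat.eq_zero_or_pos c with h8 | h8
    · omega
    · exfalso
      have h9 := h7 (c - 1) (by omega)
      omega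

lemma r6_hcell {N i : ℕ} (hi : 1 ≤ i) : ∀ c d, Stc N c d → c + d = i →
    (∃ e, c = e + 1 ∧ Stc N e d) ∨ (∃ e, d = e + 1 ∧ Stc N c e) := by
  intro c d h1 h2
  unfold Stc at *
  rcases Nat.eq_zero_or_pos c with h3 | h3
  · exact Or.inr ⟨d - 1, by omega, by omega⟩
  · exact Or.inl ⟨c - 1, by omega, by omega⟩

/-- extension across an even level -/
theorem r6_ext_even (C : Ctx α) {m : ℕ} {f : ℕ → ℕ → α}
    (hT : Top (Stc (2 * m + 1)) (2 * m) f) (hi : 2 * m + 1 < HT α) (hP : Perf α (2 * m))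
    {x0 : α} (hx0 : Pr x0 = {f 0 (2 * m)})
    (hu : ∀ x' : α, corank x' = 2 * m + 1 → (Pr x').card = 1 → x' = x0) :
    ∃ f' : ℕ → ℕ → α, Top (Stc (2 * m + 2)) (2 * m + 1) f' ∧
      ∀ c d, c + d ≤ 2 * m → f' c d = f c d := by
  have hT' : Top (Stc (2 * m + 2)) (2 * m) f :=
    hT.congr_region (fun c d h => by unfold Stc; omega)
  refine Top.extend C hT' hi stc_hR1 stc_hR2 (r6_hcell (by omega)) hP ?_ ?_ ?_ ?_
  · intro c d c' d' h1 h2
    obtain ⟨_, _, rfl, rfl⟩ := r6_oneP_even h1 h2
    exact ⟨x0, hx0⟩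
  · intro x hx h2
    refine ⟨0, 2 * m + 1, 0, 2 * m, by omega, ?_, ?_⟩
    · refine ⟨⟨by omega, by omega⟩, ⟨by omega, by omega⟩, Or.inr ⟨rfl, rfl, ?_⟩⟩
      intro e he
      omega
    · rw [hu x hx h2, hx0]
  · intro x x' hx h2 h3
    have h4 : corank x' = 2 * m + 1 := by
      obtain ⟨y, hy⟩ := card_pos.1 (by omega : 0 < (Pr x).card)
      have h5 := C.cork (Gauss.mem_Pr.1 hy)
      rw [h3] at hy
      have h6 := C.cork (Gauss.mem_Pr.1 hy)
      omega
    rw [hu x hx h2, hu x' h4 (by rw [← h3]; exact h2)]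
  · intro c d e d' c' e' h1 h2 h3 h4
    have h5 := r6_oneP_even h3 h1
    have h6 := r6_oneP_even h4 h2
    omega

/-- extension across an odd level -/
theorem r6_ext_odd (C : Ctx α) {N m : ℕ} (hm : 2 ≤ m) (hN : 2 * m ≤ N) {f : ℕ → ℕ → α}
    (hT : Top (Stc (2 * m)) (2 * m - 1) f) (hi : 2 * m < HT α) (hP : Perf α (2 * m - 1))
    {w : α} (hw : Pr w = {f (m - 1) m})
    (hw' : ∀ w' : α, corank w' = 2 * m → (Pr w').card = 1 → w' = w ∨ Pr w' = {f 0 (2 * m - 1)})
    (hu : ∀ x x' : α, Pr x = {f 0 (2 * m - 1)} → Pr x' = {f 0 (2 * m - 1)} → x = x')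
    (harm : N = 2 * m ∧ (∀ x : α, Pr x ≠ {f 0 (2 * m - 1)}) ∨
      2 * m < N ∧ ∃ x : α, Pr x = {f 0 (2 * m - 1)}) :
    ∃ f' : ℕ → ℕ → α, Top (Stc N) (2 * m) f' ∧
      ∀ c d, c + d ≤ 2 * m - 1 → f' c d = f c d := by
  have hT' : Top (Stc N) (2 * m - 1) f :=
    hT.congr_region (fun c d h => by unfold Stc; omega)
  have e1 : 2 * m - 1 + 1 = 2 * m := by omega
  have hne : f (m - 1) m ≠ f 0 (2 * m - 1) := by
    intro h
    have := hT.inj _ _ _ _ ⟨by omega, by omega⟩ ⟨by omega, by omega⟩ (by omega) (by omega) h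
    omega
  have key := Top.extend C hT' (by omega) stc_hR1 stc_hR2 (r6_hcell (by omega)) hP ?_ ?_ ?_ ?_
  · rw [e1] at key
    exact key
  · intro c d c' d' h1 h2
    have h0 := h2.1
    rcases r6_oneP_odd (m := m) (by omega) h2 with ⟨h3, h4, rfl, rfl⟩ | ⟨h3, h4, rfl, rfl⟩
    · unfold Stc at h0
      rcases harm with ⟨h5, h6⟩ | ⟨h5, h6⟩
      · omega
      · exact h6
    · exact ⟨w, hw⟩
  · intro x hx h2
    rw [e1] at hx
    rcases hw' x hx h2 with h3 | h3
    · refine ⟨m, m, m - 1, m, by omega, ?_, ?_⟩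
      · refine ⟨⟨by omega, by omega⟩, ⟨by omega, by omega⟩, Or.inl ⟨by omega, rfl, ?_⟩⟩
        intro e he h4
        unfold Stc at h4
        omega
      · rw [h3, hw]
    · rcases harm with ⟨h5, h6⟩ | ⟨h5, h6⟩
      · exact absurd h3 (h6 x)
      · refine ⟨0, 2 * m, 0, 2 * m - 1, by omega, ?_, h3⟩
        refine ⟨⟨by omega, by omega⟩, ⟨by omega, by omega⟩, Or.inr ⟨rfl, by omega, ?_⟩⟩
        intro e he
        omega
  · intro x x' hx h2 h3
    rw [e1] at hx
    have h4 : corank x' = 2 * m := by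
      obtain ⟨y, hy⟩ := card_pos.1 (by omega : 0 < (Pr x).card)
      have h5 := C.cork (Gauss.mem_Pr.1 hy)
      rw [h3] at hy
      have h6 := C.cork (Gauss.mem_Pr.1 hy)
      omega
    rcases hw' x hx h2 with h5 | h5
    · rcases hw' x' h4 (by rw [← h3]; exact h2) with h6 | h6
      · rw [h5, h6]
      · exfalso
        rw [h5, hw, h6] at h3
        exact hne (singleton_injective h3)
    · exact hu x x' h5 (by rw [← h3]; exact h5)
  · intro c d e d' c' e' h1 h2 h3 h4
    have h5 := r6_oneP_odd (m := m) (by omega) h1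
    have h6 := r6_oneP_odd (m := m) (by omega) h2
    omega

/-- iteration -/
theorem r6_step (C : Ctx α) (h1 : sz α 1 = 1) : ∀ (n i : ℕ), HT α - i = n → 3 ≤ i → i < HT α →
    ∀ f : ℕ → ℕ → α, Top (Stc (i + 1)) i f → (∀ j < i, Perf α j) →
      ∃ (N : ℕ) (f : ℕ → ℕ → α), 4 ≤ N ∧ N ≤ HT α ∧ Top (Stc N) (N - 1) f ∧
        (∀ j, j + 1 < N → Perf α j) ∧ ∀ x : α, Pr x ≠ {f 0 (N - 1)} := by
  intro n
  induction n with
  | zero =>
    intro i h2 h3 h4
    omega
  | succ n ih =>
    intro i h2 h3 h4 f hT hP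
    by_cases harm : ∃ x : α, Pr x = {f 0 i}
    · obtain ⟨x, hx⟩ := harm
      have hxc : corank x = i + 1 := by
        have h5 : f 0 i ∈ Pr x := by rw [hx]; simp
        rw [C.cork (Gauss.mem_Pr.1 h5), hT.cor 0 i ⟨by omega, by omega⟩ (by omega)]
        omega
      have hi := corank_lt_HT x
      rw [hxc] at hi
      suffices hs : Perf α i ∧ ∃ f' : ℕ → ℕ → α, Top (Stc (i + 2)) (i + 1) f' by
        obtain ⟨hPi, f', hT'⟩ := hs
        refine ih (i + 1) (by omega) (by omega) hi f' hT' ?_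
        intro j hj
        rcases Nat.lt_succ_iff_lt_or_eq.1 hj with h5 | h5
        · exact hP j h5
        · rw [h5]
          exact hPi
      rcases Nat.even_or_odd' i with ⟨m, h5 | h5⟩
      · subst h5
        obtain ⟨⟨x0, hx0, hu⟩, h6⟩ := rtwo_even C h1 (by omega) hT hP hi ⟨x, hx⟩
        have hPi : Perf α (2 * m) := by
          rcases h6 with h6 | ⟨h6, h7, h8⟩
          · exact h6
          · exact (rtwo_kill C h1 h6 hT hP hi hx0 hu h7 h8).elim
        obtain ⟨f', hf', _⟩ := r6_ext_even C hT hi hPi hx0 hu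
        exact ⟨hPi, f', hf'⟩
      · have e : i = 2 * (m + 1) - 1 := by omega
        subst e
        have e1 : 2 * (m + 1) - 1 + 1 = 2 * (m + 1) := by omega
        have e2 : 2 * (m + 1) - 1 + 2 = 2 * (m + 1) + 1 := by omega
        rw [e1] at hT hi
        rw [e1, e2]
        obtain ⟨hPi, ⟨w, hw, hw'⟩, hu⟩ := rtwo_odd C h1 (m := m + 1) (by omega) hT hP hi
        obtain ⟨f', hf', _⟩ := r6_ext_odd C (N := 2 * (m + 1) + 1) (by omega) (by omega) hT hi hPi
          hw hw' hu (Or.inr ⟨by omega, x, hx⟩)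
        exact ⟨hPi, f', hf'⟩
    · push Not at harm
      refine ⟨i + 1, f, by omega, by omega, ?_, ?_, ?_⟩
      · exact hT
      · intro j hj
        exact hP j (by omega)
      · exact harm

/-- levels 2 and 3 -/
theorem r6_base (C : Ctx α) (h1 : sz α 1 = 1) (h2 : sz α 2 = 2) {f : ℕ → ℕ → α}
    (hT : Top (Stc 3) 2 f) {x : α} (hx : Pr x = {f 0 2}) :
    3 < HT α ∧ Perf α 2 ∧ ∃ f' : ℕ → ℕ → α, Top (Stc 4) 3 f' := by
  have hxc : corank x = 3 := by
    have h5 : f 0 2 ∈ Pr x := by rw [hx]; simp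
    rw [C.cork (Gauss.mem_Pr.1 h5), hT.cor 0 2 ⟨by omega, by omega⟩ (by omega)]
  have hi := corank_lt_HT x
  rw [hxc] at hi
  have hT' : Top (Stc (2 * 1 + 1)) (2 * 1) f := hT
  have hPL := even_PL C hT' (by omega)
  have h3 := C.sgl_pr (i := 2) (by omega)
  have h4 := C.sgl_ch (i := 2) (by omega)
  have h5 := rtwo_sz_le C h1 3
  simp only [Nat.reduceAdd] at h3 h4
  have h6 : 0 < ((lev α 3).filter fun x => (Pr x).card = 1).card :=
    card_pos.2 ⟨x, mem_filter.2 ⟨mem_lev.2 hxc, by rw [hx, card_singleton]⟩⟩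
  have h7 : ((lev α 3).filter fun x => (Pr x).card = 1).card = 1 := by omega
  have h8 : ((lev α 2).filter fun x => (Ch x).card = 1).card = 1 := by omega
  have huniq : ∀ x' : α, corank x' = 3 → (Pr x').card = 1 → x' = x := by
    intro x' h9 h10
    exact card_le_one.1 h7.le x' (mem_filter.2 ⟨mem_lev.2 h9, h10⟩) x
      (mem_filter.2 ⟨mem_lev.2 hxc, by rw [hx, card_singleton]⟩)
  obtain ⟨S, hS⟩ := card_pos.1 (by omega :
    0 < ((lev α 2).filter fun x => (Ch x).card = 1).card)
  have hS0 := hS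
  rw [mem_filter, mem_lev] at hS
  have hS' : ∀ S' : α, corank S' = 2 → (Ch S').card = 1 → S' = S := by
    intro S' h9 h10
    exact card_le_one.1 h8.le S' (mem_filter.2 ⟨mem_lev.2 h9, h10⟩) S hS0
  have hP : Perf α 2 := by
    rcases hPL.one_one C (by omega) (by omega) (by omega) (x0 := x) (S := S) hx huniq hS.1
      hS.2 hS' with ⟨_, h9⟩ | ⟨_, k, hD⟩
    · exact h9
    · exfalso
      have h10 : ({S, evy f 1 0, k} : Finset α).card = 3 := card_eq_three.2
        ⟨_, _, _, hD.st, hD.sk, hD.tk, rfl⟩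
      have h11 : ({S, evy f 1 0, k} : Finset α) ⊆ lev α 2 := by
        intro z hz
        rw [mem_insert, mem_insert, mem_singleton] at hz
        rw [mem_lev]
        rcases hz with rfl | rfl | rfl
        · exact hD.hs
        · exact hD.ht
        · exact hD.hk
      have h12 := card_le_card h11
      unfold sz at h2
      omega
  obtain ⟨f', hf', _⟩ := r6_ext_even C hT' (by omega) hP hx huniq
  exact ⟨hi, hP, f', hf'⟩

/-- the upper half -/
theorem rtwo_top (C : Ctx α) (h1 : sz α 1 = 1) (h2 : sz α 2 = 2) :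
    ∃ (N : ℕ) (f : ℕ → ℕ → α), 3 ≤ N ∧ N ≤ HT α ∧ Top (Stc N) (N - 1) f ∧
      (∀ j, j + 1 < N → Perf α j) ∧ (∀ x : α, Pr x ≠ {f 0 (N - 1)}) ∧
      (N = 3 → ∀ x : α, Pr x ≠ {f 1 1}) := by
  obtain ⟨f, hT⟩ := rtwo_start C h1 h2
  have hP0 : Perf α 0 := r6_perf_of_sz C C.one
  have hP1 : Perf α 1 := r6_perf_of_sz C h1
  have main : ∀ f : ℕ → ℕ → α, Top (Stc 3) 2 f → (∃ x : α, Pr x = {f 0 2}) →
      ∃ (N : ℕ) (f : ℕ → ℕ → α), 3 ≤ N ∧ N ≤ HT α ∧ Top (Stc N) (N - 1) f ∧
      (∀ j, j + 1 < N → Perf α j) ∧ (∀ x : α, Pr x ≠ {f 0 (N - 1)}) ∧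
      (N = 3 → ∀ x : α, Pr x ≠ {f 1 1}) := by
    rintro f hT ⟨x, hx⟩
    obtain ⟨h3, hP2, f', hT'⟩ := r6_base C h1 h2 hT hx
    obtain ⟨N, f'', h4, h5, h6, h7, h8⟩ := r6_step C h1 _ 3 rfl le_rfl h3 f' hT' (by
      intro j hj
      interval_cases j
      · exact hP0
      · exact hP1
      · exact hP2)
    exact ⟨N, f'', by omega, h5, h6, h7, h8, fun h9 => by omega⟩
  by_cases hA : ∃ x : α, Pr x = {f 0 2}
  · exact main f hT hA
  · by_cases hB : ∃ x : α, Pr x = {f 1 1}
    · exact main _ (rtwo_swap2 hT) (by simpa using hB)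
    · push Not at hA hB
      refine ⟨3, f, le_rfl, ?_, hT, ?_, hA, fun _ => hB⟩
      · have h3 := corank_lt_HT (f 0 2)
        rw [hT.cor 0 2 ⟨by omega, by omega⟩ (by omega)] at h3
        omega
      · intro j hj
        have h3 : j = 0 ∨ j = 1 := by omega
        rcases h3 with rfl | rfl
        · exact hP0
        · exact hP1

/-! ### sizes -/

lemma r6_st (N l : ℕ) : st N l = l / 2 + 1 - (l + 1 - N) := by
  unfold st
  rw [← Nat.card_Ico]
  congr 1
  ext c
  rw [mem_filter, mem_range, mem_Ico]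
  omega

lemma r6_csz (c e : ℕ) : 2 * csz c (c + e) = (c + 1) * (c + 2 + 2 * e) := by
  unfold csz
  obtain ⟨k, hk⟩ := Nat.even_mul_succ_self c
  have h1 : (c + 1) * (c + e + 1) = c * (c + 1) + (c + 1) * (e + 1) := by ring
  have h2 : (c + 1) * (c + 2 + 2 * e) = c * (c + 1) + 2 * ((c + 1) * (e + 1)) := by ring
  rw [h1, h2, hk]
  have h3 : (k + k) / 2 = k := by omega
  rw [h3]
  omega

lemma r6_us {y p : α} (h : p ∈ Pr y) : us p < us y := by
  have h1 := Gauss.mem_Pr.1 h
  unfold us
  apply card_lt_card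
  rw [Finset.ssubset_iff_of_subset]
  · refine ⟨y, mem_filter.2 ⟨mem_univ _, le_rfl⟩, ?_⟩
    intro h2
    rw [mem_filter] at h2
    exact absurd h1.lt (not_lt_of_ge h2.2)
  · intro z hz
    rw [mem_filter] at hz ⊢
    exact ⟨mem_univ _, h1.le.trans hz.2⟩

/-- a parent which is not on the arm -/
lemma r6_parent (C : Ctx α) {N i : ℕ} {f : ℕ → ℕ → α} (hT : Top (Stc N) i f) {y : α}
    (hy : corank y = i + 1) (h : Pr y ≠ {f 0 i}) :
    ∃ c d, 1 ≤ c ∧ c ≤ d ∧ d < N ∧ c + d = i ∧ csz c d < us y := by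
  have h1 : ∃ p ∈ Pr y, p ≠ f 0 i := by
    by_contra hcon
    push Not at hcon
    apply h
    obtain ⟨z, hz⟩ := card_pos.1 (C.pr_pos (x := y) (by omega))
    ext p
    rw [mem_singleton]
    constructor
    · intro hp
      exact hcon p hp
    · rintro rfl
      rw [← hcon z hz]
      exact hz
  obtain ⟨p, hp, hp'⟩ := h1
  have h2 := C.cork (Gauss.mem_Pr.1 hp)
  obtain ⟨c, d, h3, h4, h5⟩ := hT.sur p (by omega)
  have h6 := h3
  unfold Stc at h6
  refine ⟨c, d, ?_, h6.1, h6.2, by omega, ?_⟩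
  · by_contra hc
    have h7 : c = 0 := by omega
    subst h7
    apply hp'
    rw [← h5]
    congr 1
    omega
  · rw [← us_eq C hT h3 (by omega), h5]
    exact r6_us hp

lemma r6_arm {N : ℕ} (hN : 1 ≤ N) {f : ℕ → ℕ → α} (hT : Top (Stc N) (N - 1) f)
    (harm : ∀ x : α, Pr x ≠ {f 0 (N - 1)}) : ArmTop N (N - 1) f where
  top := hT
  cor d h1 h2 := by omega
  pr d h1 h2 := by omega
  sgl x d h1 h2 h3 := by
    have h4 : d = N - 1 := by omega
    subst h4
    exact absurd h3 (harm x)

lemma r6_low {N i : ℕ} {f : ℕ → ℕ → α} (hT : Top (Stc N) i f) {l : ℕ} (hl : l ≤ i) :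
    sz α l = st N l := by
  rw [hT.sz_eq hl]
  unfold st Stc
  congr!

/-- sizes up to the first decrease -/
lemma r6_sizes (C : Ctx α) {N K : ℕ} (hN : 1 ≤ N) {f : ℕ → ℕ → α}
    (hT : Top (Stc N) (N - 1) f) (harm : ∀ x : α, Pr x ≠ {f 0 (N - 1)})
    (h1 : ∀ c e, 1 ≤ c → c + (c + e) = N - 1 → K ≤ csz c (c + e))
    (h2 : ∀ c e, 1 ≤ c → c + e < N → N ≤ c + (c + e) → K < csz c (c + e)) :
    ∀ l < K, sz α l = st N l := by
  refine sizes_of_arm C hN (r6_arm hN hT harm) ?_ ?_
  · intro y hy _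
    obtain ⟨c, d, h3, h4, h5, h6, h7⟩ := r6_parent C hT hy (harm y)
    obtain ⟨e, rfl⟩ := Nat.exists_eq_add_of_le h4
    have := h1 c e h3 h6
    omega
  · intro c d h3 h4 h5 h6
    obtain ⟨e, rfl⟩ := Nat.exists_eq_add_of_le h4
    exact h2 c e h3 h5 (by omega)

/-- pinning down the number of levels -/
lemma r6_pin (C : Ctx α) {N : ℕ} (hN : 3 ≤ N)
    (h : ∀ l ≤ N, sz α l = st N l) (h' : ∀ m, N = 2 * m → sz α (N + 1) = st N (N + 1)) :
    HT α = 2 * N - 1 ∧ ∀ l, sz α l = st N l := by
  simp only [r6_st] at h h' ⊢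
  have hH : HT α = 2 * N - 1 := by
    have pos : ∀ l, 0 < sz α l → l < HT α := by
      intro l hl
      by_contra hcon
      rw [sz_eq_zero (by omega)] at hl
      omega
    have hNpos : N < HT α := by
      apply pos
      rw [h N le_rfl]
      omega
    rcases Nat.even_or_odd' N with ⟨m, hm | hm⟩
    · have e1 := h' m hm
      have e2 : N + 1 < HT α := by
        apply pos
        rw [e1]
        omega
      have e3 : HT α ≤ 2 * N + 1 := by
        by_contra hcon
        have := C.sz_unimodal (e := N) (c := N + 1) (by omega) (by omega)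
        rw [h N le_rfl, e1] at this
        omega
      have e4 := C.sz_palin (j := N + 1) e2
      have e5 := C.sz_palin (j := N) hNpos
      rw [e1, h (HT α - 1 - (N + 1)) (by omega)] at e4
      rw [h N le_rfl, h (HT α - 1 - N) (by omega)] at e5
      omega
    · have e3 : HT α ≤ 2 * N - 1 := by
        by_contra hcon
        have := C.sz_unimodal (e := N - 1) (c := N) (by omega) (by omega)
        rw [h N le_rfl, h (N - 1) (by omega)] at this
        omega
      have e4 := C.sz_palin (j := N - 1) (by omega)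
      rw [h (N - 1) (by omega), h (HT α - 1 - (N - 1)) (by omega)] at e4
      omega
  refine ⟨hH, ?_⟩
  intro l
  rcases Nat.lt_or_ge l N with h1 | h1
  · exact h l h1.le
  · rcases Nat.lt_or_ge l (HT α) with h2 | h2
    · have h3 := C.sz_palin (j := l) h2
      rw [← h3, h (HT α - 1 - l) (by omega)]
      omega
    · rw [sz_eq_zero h2]
      omega

/-- the number of levels and the sizes -/
theorem rtwo_sizes (C : Ctx α) (h1 : sz α 1 = 1) {N : ℕ} (hN : 3 ≤ N) (hN' : N ≤ HT α)
    {f : ℕ → ℕ → α} (hT : Top (Stc N) (N - 1) f) (hP : ∀ j, j + 1 < N → Perf α j)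
    (harm : ∀ x : α, Pr x ≠ {f 0 (N - 1)}) (h3 : N = 3 → ∀ x : α, Pr x ≠ {f 1 1}) :
    HT α = 2 * N - 1 ∧ ∀ l, sz α l = st N l := by
  have hlow : ∀ l < N, sz α l = st N l := fun l hl => r6_low hT (by omega)
  have hlow2 : ∀ l < N, sz α l = l / 2 + 1 := fun l hl => by
    rw [hlow l hl, r6_st]
    omega
  rcases Nat.lt_or_ge N 5 with h5 | h5
  · rcases Nat.lt_or_ge N 4 with h4 | h4
    · -- N = 3
      have e : N = 3 := by omega
      subst e
      apply r6_pin C (by omega)
      · intro l hl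
        rcases Nat.lt_or_ge l 3 with h6 | h6
        · exact hlow l h6
        · have e2 : l = 3 := by omega
          subst e2
          have e3 := C.sgl_pr (i := 2) (by omega)
          have e4 : ((lev α 3).filter fun x => (Pr x).card = 1).card = 0 := by
            rw [card_eq_zero, filter_eq_empty_iff]
            intro x hx h7
            rw [mem_lev] at hx
            obtain ⟨a, ha⟩ := card_eq_one.1 h7
            have h8 : a ∈ Pr x := by rw [ha]; simp
            have h9 := C.cork (Gauss.mem_Pr.1 h8)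
            obtain ⟨c, d, h10, h11, h12⟩ := hT.sur a (by omega)
            unfold Stc at h10
            have h13 : (c = 0 ∧ d = 2) ∨ (c = 1 ∧ d = 1) := by omega
            rcases h13 with ⟨rfl, rfl⟩ | ⟨rfl, rfl⟩
            · exact harm x (by rw [ha, ← h12])
            · exact h3 rfl x (by rw [ha, ← h12])
          rw [hlow2 2 (by omega)] at e3
          simp only [Nat.reduceAdd] at e3
          rw [r6_st]
          omega
      · intro m hm
        omega
    · -- N = 4
      have e : N = 4 := by omega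
      subst e
      have hH4 : 4 < HT α := by
        by_contra hcon
        have e1 := C.sz_palin (j := 0) (by omega)
        rw [show HT α - 1 - 0 = 3 from by omega, hlow2 3 (by omega), hlow2 0 (by omega)] at e1
        omega
      obtain ⟨hPi, ⟨w, hw, hw'⟩, hu⟩ := rtwo_odd C h1 (m := 2) (by omega) hT
        (fun j hj => hP j (by omega)) hH4
      obtain ⟨f', hT', hf'⟩ := r6_ext_odd C (N := 4) (m := 2) (by omega) (by omega) hT hH4 hPi
        hw hw' hu (Or.inl ⟨rfl, harm⟩)
      have hA : ArmTop 4 4 f' := by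
        refine ⟨hT', ?_, ?_, ?_⟩
        · intro d h6 h7
          omega
        · intro d h6 h7
          omega
        · intro x d h6 h7
          omega
      have hs := sizes_of_arm C (K := 6) (by omega) hA ?_ ?_
      · apply r6_pin C (by omega)
        · intro l hl
          exact hs l (by omega)
        · intro m hm
          exact hs 5 (by omega)
      · intro y hy _
        obtain ⟨z, hz⟩ := card_pos.1 (C.pr_pos (x := y) (by omega))
        have h6 := C.cork (Gauss.mem_Pr.1 hz)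
        obtain ⟨c, d, h7, h8, h9⟩ := hT'.sur z (by omega)
        have h10 := r6_us hz
        rw [← h9, us_eq C hT' h7 (by omega)] at h10
        unfold Stc at h7
        have h13 : (c = 1 ∧ d = 3) ∨ (c = 2 ∧ d = 2) := by omega
        rcases h13 with ⟨rfl, rfl⟩ | ⟨rfl, rfl⟩
        · unfold csz at h10
          omega
        · unfold csz at h10
          omega
      · intro c d h6 h7 h8 h9
        have h13 : (c = 2 ∧ d = 3) ∨ (c = 3 ∧ d = 3) := by omega
        rcases h13 with ⟨rfl, rfl⟩ | ⟨rfl, rfl⟩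
        · unfold csz
          norm_num
        · unfold csz
          norm_num
  · rcases Nat.even_or_odd' N with ⟨m, hm | hm⟩
    · have hs := r6_sizes C (K := N + 2) (by omega) hT harm ?_ ?_
      · apply r6_pin C (by omega)
        · intro l hl
          exact hs l (by omega)
        · intro m hm
          exact hs _ (by omega)
      · intro c e h6 h7
        have h8 := r6_csz c e
        have h9 : (c + 1) * (c + 2 + 2 * e) = c * c + 2 * (c * e) + 3 * c + 2 * e + 2 := by ring
        rw [h9] at h8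
        rcases Nat.lt_or_ge c 3 with h10 | h10
        · interval_cases c
          · omega
          · omega
        · have h11 : 3 * c ≤ c * c := Nat.mul_le_mul_right c h10
          have h12 : 3 * e ≤ c * e := Nat.mul_le_mul_right e h10
          omega
      · intro c e h6 h7 h7'
        have h8 := r6_csz c e
        have h9 : (c + 1) * (c + 2 + 2 * e) = c * c + 2 * (c * e) + 3 * c + 2 * e + 2 := by ring
        rw [h9] at h8
        rcases Nat.lt_or_ge c 3 with h10 | h10
        · interval_cases c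
          · omega
          · omega
        · have h11 : 3 * c ≤ c * c := Nat.mul_le_mul_right c h10
          have h12 : 3 * e ≤ c * e := Nat.mul_le_mul_right e h10
          omega
    · have hs := r6_sizes C (K := N + 1) (by omega) hT harm ?_ ?_
      · apply r6_pin C (by omega)
        · intro l hl
          exact hs l (by omega)
        · intro m' hm'
          omega
      · intro c e h6 h7
        have h8 := r6_csz c e
        have h9 : (c + 1) * (c + 2 + 2 * e) = c * c + 2 * (c * e) + 3 * c + 2 * e + 2 := by ring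
        rw [h9] at h8
        rcases Nat.lt_or_ge c 3 with h10 | h10
        · interval_cases c
          · omega
          · omega
        · have h11 : 3 * c ≤ c * c := Nat.mul_le_mul_right c h10
          have h12 : 3 * e ≤ c * e := Nat.mul_le_mul_right e h10
          omega
      · intro c e h6 h7 h7'
        have h8 := r6_csz c e
        have h9 : (c + 1) * (c + 2 + 2 * e) = c * c + 2 * (c * e) + 3 * c + 2 * e + 2 := by ring
        rw [h9] at h8
        rcases Nat.lt_or_ge c 3 with h10 | h10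
        · interval_cases c
          · omega
          · omega
        · have h11 : 3 * c ≤ c * c := Nat.mul_le_mul_right c h10
          have h12 : 3 * e ≤ c * e := Nat.mul_le_mul_right e h10
          omega

end Pool.Gauss
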