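import Pool.Agent.Work.MP_065141_co.Rtwo2

/-!
# Sizes 1, 1, 2: the middle level
-/

set_option autoImplicit false
set_option linter.unusedSectionVars false
set_option linter.unusedVariables false
open scoped Classical
open Finset

namespace Pool.Gauss

attribute [-instance] OrderDual.instDecidableEq

variable {α : Type} [Fintype α] [PartialOrder α]

/-! ### translation to the dual poset -/

/-- a set of elements, in the dual poset -/
def DF (s : Finset α) : Finset αᵒᵈ := s.map OrderDual.toDual.toEmbedding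

lemma mem_DF {s : Finset α} {x : αᵒᵈ} : x ∈ DF s ↔ OrderDual.ofDual x ∈ s := by
  unfold DF
  rw [mem_map_equiv]
  rfl

lemma card_DF (s : Finset α) : (DF s).card = s.card := card_map _

lemma DF_inj {s t : Finset α} (h : DF s = DF t) : s = t := by
  ext x
  have : OrderDual.toDual x ∈ DF s ↔ OrderDual.toDual x ∈ DF t := by rw [h]
  rwa [mem_DF, mem_DF] at this

lemma DF_pair (a b : α) : DF {a, b} = {OrderDual.toDual a, OrderDual.toDual b} := by
  ext x
  rw [mem_DF, mem_insert, mem_singleton, mem_insert, mem_singleton]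
  rfl

lemma Ch_DF (x : α) : Ch (OrderDual.toDual x) = DF (Pr x) := by
  ext y
  rw [mem_DF, mem_Ch, Gauss.mem_Pr]
  exact toDual_covBy_toDual_iff (a := x) (b := OrderDual.ofDual y)

lemma Pr_DF (x : α) : Pr (OrderDual.toDual x) = DF (Ch x) := by
  ext y
  rw [mem_DF, Gauss.mem_Pr, mem_Ch]
  exact toDual_covBy_toDual_iff (a := OrderDual.ofDual y) (b := x)

lemma Ch2_DF (x : α) : Ch2 (OrderDual.toDual x) = DF (Pr2 x) := by
  ext y
  rw [mem_DF, mem_Ch2, mem_Pr2]
  constructor
  · rintro ⟨z, h1, h2⟩
    exact ⟨OrderDual.ofDual z,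
      (toDual_covBy_toDual_iff (a := x) (b := OrderDual.ofDual z)).1 h1,
      (toDual_covBy_toDual_iff (a := OrderDual.ofDual z) (b := OrderDual.ofDual y)).1 h2⟩
  · rintro ⟨z, h1, h2⟩
    exact ⟨OrderDual.toDual z,
      (toDual_covBy_toDual_iff (a := x) (b := z)).2 h1,
      (toDual_covBy_toDual_iff (a := z) (b := OrderDual.ofDual y)).2 h2⟩

lemma Ctx.mC_DF (C : Ctx α) {i i' : ℕ} (h : i + i' + 1 = HT α) (s : Finset α) :
    mD i' (DF s) = mC i s := by
  unfold mD mC
  refine (congrArg card ?_).trans (card_map OrderDual.toDual.toEmbedding)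
  ext x
  rw [mem_filter, mem_lev', mem_map_equiv, mem_filter, mem_lev]
  have h1 := C.corank_dual (OrderDual.ofDual x)
  have h2 : Ch (OrderDual.toDual (OrderDual.ofDual x)) = DF (Pr (OrderDual.ofDual x)) :=
    Ch_DF (OrderDual.ofDual x)
  have h3 : corank (OrderDual.toDual (OrderDual.ofDual x)) = corank x := rfl
  have h4 : OrderDual.toDual.symm x = OrderDual.ofDual x := rfl
  rw [OrderDual.toDual_ofDual] at h2
  rw [h2, h4]
  constructor
  · rintro ⟨h5, h6⟩
    exact ⟨by omega, DF_inj h6⟩
  · rintro ⟨h5, h6⟩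
    exact ⟨by omega, by rw [h6]⟩

lemma Ctx.PEv_DF (C : Ctx α) {i i' : ℕ} (h : i + i' + 1 = HT α) (w : α) :
    OrderDual.toDual w ∈ QEv αᵒᵈ i' ↔ w ∈ PEv α i := by
  rw [mem_QEv, mem_PEv, Ch_DF, Ch2_DF, card_DF, card_DF]
  have h1 := C.corank_dual w
  constructor
  · rintro ⟨h5, h6⟩
    exact ⟨by omega, h6⟩
  · rintro ⟨h5, h6⟩
    exact ⟨by omega, h6⟩


/-- a Hamiltonian path in a cycle -/
lemma cyc_path {m : ℕ} (hm : 2 ≤ m) {σ : ℕ → ℕ} (h1 : ∀ j ≤ m, σ j ≤ m)
    (h2 : ∀ j ≤ m, ∀ j' ≤ m, σ j = σ j' → j = j')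
    (h3 : ∀ j < m, σ (j + 1) = σ j + 1 ∨ σ j = σ (j + 1) + 1 ∨ (σ j = 0 ∧ σ (j + 1) = m) ∨
      (σ j = m ∧ σ (j + 1) = 0)) :
    (∀ j ≤ m, σ j = if σ 0 + j ≤ m then σ 0 + j else σ 0 + j - (m + 1)) ∨
    (∀ j ≤ m, σ j = if j ≤ σ 0 then σ 0 - j else σ 0 + m + 1 - j) := by
  have a0 := h1 0 (by omega)
  have a1 := h1 1 (by omega)
  have h0 : (σ 1 = if σ 0 + 1 ≤ m then σ 0 + 1 else σ 0 + 1 - (m + 1)) ∨
      (σ 1 = if 1 ≤ σ 0 then σ 0 - 1 else σ 0 + m + 1 - 1) := by
    have := h3 0 (by omega)
    rw [zero_add] at this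
    split_ifs <;> omega
  rcases h0 with h0 | h0
  · left
    have key : ∀ j, j + 1 ≤ m → (σ j = if σ 0 + j ≤ m then σ 0 + j else σ 0 + j - (m + 1)) ∧
        (σ (j + 1) = if σ 0 + (j + 1) ≤ m then σ 0 + (j + 1) else σ 0 + (j + 1) - (m + 1)) := by
      intro j
      induction j with
      | zero =>
        intro _
        refine ⟨?_, h0⟩
        rw [if_pos (by omega)]
        rfl
      | succ j ih =>
        intro hj
        obtain ⟨e1, e2⟩ := ih (by omega)
        refine ⟨e2, ?_⟩
        have e3 := h3 (j + 1) (by omega)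
        have e4 : σ (j + 1 + 1) ≠ σ j := fun h => by
          have := h2 _ (by omega) _ (by omega) h
          omega
        have e5 := h1 (j + 1 + 1) (by omega)
        split_ifs at * <;> omega
    intro j hj
    rcases Nat.eq_zero_or_pos j with rfl | hj0
    · rw [if_pos (by omega)]
      rfl
    · have := (key (j - 1) (by omega)).2
      rwa [show j - 1 + 1 = j from by omega] at this
  · right
    have key : ∀ j, j + 1 ≤ m → (σ j = if j ≤ σ 0 then σ 0 - j else σ 0 + m + 1 - j) ∧
        (σ (j + 1) = if j + 1 ≤ σ 0 then σ 0 - (j + 1) else σ 0 + m + 1 - (j + 1)) := by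
      intro j
      induction j with
      | zero =>
        intro _
        refine ⟨?_, h0⟩
        rw [if_pos (by omega)]
        rfl
      | succ j ih =>
        intro hj
        obtain ⟨e1, e2⟩ := ih (by omega)
        refine ⟨e2, ?_⟩
        have e3 := h3 (j + 1) (by omega)
        have e4 : σ (j + 1 + 1) ≠ σ j := fun h => by
          have := h2 _ (by omega) _ (by omega) h
          omega
        have e5 := h1 (j + 1 + 1) (by omega)
        split_ifs at * <;> omega
    intro j hj
    rcases Nat.eq_zero_or_pos j with rfl | hj0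
    · rw [if_pos (by omega)]
      rfl
    · have := (key (j - 1) (by omega)).2
      rwa [show j - 1 + 1 = j from by omega] at this

lemma csz_bound {m c : ℕ} (hm : 3 ≤ m) (hc : 2 ≤ c) (hcm : c ≤ m) :
    4 * m + 1 < 1 + ((c + 1) * (2 * m - c + 1) - c * (c + 1) / 2) + c := by
  obtain ⟨a, rfl⟩ : ∃ a, c = a + 2 := ⟨c - 2, by omega⟩
  obtain ⟨b, rfl⟩ : ∃ b, m = a + 2 + b := ⟨m - (a + 2), by omega⟩
  have h1 : 2 * (a + 2 + b) - (a + 2) + 1 = a + 2 * b + 3 := by omega
  rw [h1]
  obtain ⟨k, hk⟩ : ∃ k, (a + 2) * (a + 2 + 1) = 2 * k := by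
    obtain ⟨k, hk⟩ := Nat.even_mul_succ_self (a + 2)
    exact ⟨k, by omega⟩
  rw [hk, Nat.mul_div_cancel_left _ (by norm_num)]
  have h2 : 4 * (a + 2 + b) + 1 + k < 1 + (a + 2 + 1) * (a + 2 * b + 3) + (a + 2) := by
    nlinarith
  omega

lemma csz_bound0 {m : ℕ} (hm : 3 ≤ m) :
    4 * m + 1 < 1 + ((m + 1) * (m + 1) - m * (m + 1) / 2) + m := by
  obtain ⟨b, rfl⟩ : ∃ b, m = b + 3 := ⟨m - 3, by omega⟩
  obtain ⟨k, hk⟩ : ∃ k, (b + 3) * (b + 3 + 1) = 2 * k := by
    obtain ⟨k, hk⟩ := Nat.even_mul_succ_self (b + 3)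
    exact ⟨k, by omega⟩
  rw [hk, Nat.mul_div_cancel_left _ (by norm_num)]
  have h2 : 4 * (b + 3) + 1 + k < 1 + (b + 3 + 1) * (b + 3 + 1) + (b + 3) := by
    nlinarith
  omega

/-! ### principal filters in coordinates -/

section Up

variable {N i : ℕ} {f : ℕ → ℕ → α}

lemma up_coord (C : Ctx α) (hT : Top (Stc N) i f) {c d : ℕ} (h : Stc N c d) (hi : c + d ≤ i)
    {y : α} (hy : f c d ≤ y) : ∃ c' d', c' ≤ c ∧ d' ≤ d ∧ Stc N c' d' ∧ y = f c' d' := by
  induction hn : c + d using Nat.strong_induction_on generalizing c d with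
  | _ n ih =>
    rcases hy.eq_or_lt with h1 | h1
    · exact ⟨c, d, le_rfl, le_rfl, h, h1.symm⟩
    · obtain ⟨z, h2, h3⟩ := exists_covBy_of_lt h1
      rw [← Gauss.mem_Pr, hT.mem_Pr C h hi] at h2
      rcases h2 with ⟨e, rfl, h4, rfl⟩ | ⟨e, rfl, h4, rfl⟩
      · obtain ⟨c', d', h5, h6, h7, h8⟩ := ih (e + d) (by omega) h4 (by omega) h3 rfl
        exact ⟨c', d', by omega, h6, h7, h8⟩
      · obtain ⟨c', d', h5, h6, h7, h8⟩ := ih (c + e) (by omega) h4 (by omega) h3 rfl
        exact ⟨c', d', h5, by omega, h7, h8⟩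

lemma up_mono (hT : Top (Stc N) i f) {c d c' d' : ℕ} (h : Stc N c d)
    (h' : Stc N c' d') (hi : c + d ≤ i) (hc : c' ≤ c) (hd : d' ≤ d) : f c d ≤ f c' d' := by
  induction hn : c + d using Nat.strong_induction_on generalizing c d with
  | _ n ih =>
    unfold Stc at h h'
    by_cases h1 : c' < c
    · obtain ⟨e, rfl⟩ : ∃ e, c = e + 1 := ⟨c - 1, by omega⟩
      have h2 : f (e + 1) d ⋖ f e d := by
        rw [hT.cov e d (e + 1) d ⟨by omega, by omega⟩ ⟨by omega, by omega⟩ (by omega) (by omega)]
        exact Or.inl ⟨rfl, rfl⟩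
      exact h2.le.trans (ih (e + d) (by omega) ⟨by omega, by omega⟩ (by omega) (by omega) hd rfl)
    · by_cases h3 : d' < d
      · obtain ⟨e, rfl⟩ : ∃ e, d = e + 1 := ⟨d - 1, by omega⟩
        have h2 : f c (e + 1) ⋖ f c e := by
          rw [hT.cov c e c (e + 1) ⟨by omega, by omega⟩ ⟨by omega, by omega⟩ (by omega) (by omega)]
          exact Or.inr ⟨rfl, rfl⟩
        exact h2.le.trans (ih (c + e) (by omega) ⟨by omega, by omega⟩ (by omega) hc (by omega) rfl)
      · have e1 : c' = c := by omega
        have e2 : d' = d := by omega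
        rw [e1, e2]

/-- the principal filter of an element below two coordinates -/
lemma us_two (C : Ctx α) (hT : Top (Stc N) i f) {a b c d u v : ℕ} (h1 : Stc N a b)
    (h2 : Stc N c d) (h3 : Stc N u v) (hab : a + b ≤ i) (hcd : c + d ≤ i)
    (hu : u = min a c) (hv : v = min b d) {y : α} (hy1 : f a b ∈ Pr y) (hy2 : f c d ∈ Pr y) :
    1 + csz a b + csz c d ≤ us y + csz u v := by
  have key : ∀ x : α, us x = (univ.filter fun y => x ≤ y).card := fun _ => rfl
  have huv : u + v ≤ i := by omega
  rw [← us_eq C hT h1 hab, ← us_eq C hT h2 hcd, ← us_eq C hT h3 huv]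
  simp only [key]
  rw [Gauss.mem_Pr] at hy1 hy2
  have h4 : insert y ((univ.filter fun z => f a b ≤ z) ∪ (univ.filter fun z => f c d ≤ z)) ⊆
      univ.filter fun z => y ≤ z := by
    intro z hz
    rw [mem_insert, mem_union, mem_filter, mem_filter] at hz
    rw [mem_filter]
    refine ⟨mem_univ _, ?_⟩
    rcases hz with rfl | ⟨_, hz⟩ | ⟨_, hz⟩
    · exact le_rfl
    · exact hy1.le.trans hz
    · exact hy2.le.trans hz
  have h5 := card_le_card h4
  rw [card_insert_of_notMem] at h5
  · have h6 := card_union_add_card_inter (univ.filter fun z => f a b ≤ z)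
      (univ.filter fun z => f c d ≤ z)
    have h7 : ((univ.filter fun z => f a b ≤ z) ∩ (univ.filter fun z => f c d ≤ z)) ⊆
        univ.filter fun z => f u v ≤ z := by
      intro z hz
      rw [mem_inter, mem_filter, mem_filter] at hz
      obtain ⟨c1, d1, h8, h9, h10, h11⟩ := up_coord C hT h1 hab hz.1.2
      obtain ⟨c2, d2, h12, h13, h14, h15⟩ := up_coord C hT h2 hcd hz.2.2
      have h16 := hT.inj c1 d1 c2 d2 h10 h14 (by omega) (by omega) (h11.symm.trans h15)
      rw [mem_filter, h11]
      exact ⟨mem_univ _, up_mono hT h3 h10 huv (by omega) (by omega)⟩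
    have h17 := card_le_card h7
    omega
  · rw [mem_union, mem_filter, mem_filter]
    rintro (⟨_, h6⟩ | ⟨_, h6⟩)
    · exact absurd (hy1.lt.trans_le h6) (lt_irrefl _)
    · exact absurd (hy2.lt.trans_le h6) (lt_irrefl _)

/-- the arm is too short -/
theorem middle_kill (C : Ctx α) {m : ℕ} (hm : 3 ≤ m) (hsz : ∀ l, sz α l = st (2 * m + 1) l)
    (hT : Top (Stc (2 * m + 1)) (2 * m) f)
    (hpr : ∀ x : α, corank x = 2 * m + 1 → Pr x = {evy f m 0, evy f m m} ∨
      ∃ j, j + 1 < m ∧ Pr x = {evy f m j, evy f m (j + 1)}) : False := by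
  have hPL := even_PL C hT (by omega)
  refine false_of_arm C hm (N := 2 * m + 1) (Or.inl rfl) (f := f) ⟨hT, ?_, ?_, ?_⟩ ?_ hsz
  · intro d h1 h2
    omega
  · intro d h1 h2
    omega
  · intro x d h1 h2 h3
    exfalso
    have hd : d = 2 * m := by omega
    subst hd
    have h4 : f 0 (2 * m) ∈ Pr x := by rw [h3]; simp
    have h5 : corank x = 2 * m + 1 := by
      rw [Gauss.mem_Pr] at h4
      rw [C.cork h4, hT.cor 0 (2 * m) ⟨by omega, by omega⟩ (by omega)]
      omega
    have h6 : (Pr x).card = 2 := by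
      rcases hpr x h5 with h6 | ⟨j, hj, h6⟩
      · rw [h6, card_pair (hPL.ne (by omega) (by omega) (by omega))]
      · rw [h6, card_pair (hPL.ne (by omega) (by omega) (by omega))]
    rw [h3, card_singleton] at h6
    omega
  · intro y hy _
    rcases hpr y hy with h6 | ⟨j, hj, h6⟩
    · have h7 := us_two C hT (a := m) (b := m) (c := 0) (d := 2 * m) (u := 0) (v := m)
        ⟨by omega, by omega⟩ ⟨by omega, by omega⟩ ⟨by omega, by omega⟩ (by omega) (by omega)
        (by omega) (by omega) (y := y) (by rw [h6]; simp [evy]) (by rw [h6]; simp [evy, two_mul])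
      have h8 := csz_bound0 hm
      have h9 : csz 0 (2 * m) = 2 * m + 1 := by simp [csz]
      have h10 : csz 0 m = m + 1 := by simp [csz]
      have h11 : csz m m = (m + 1) * (m + 1) - m * (m + 1) / 2 := rfl
      omega
    · have h7 := us_two C hT (a := m - j) (b := m + j) (c := m - (j + 1)) (d := m + (j + 1))
        (u := m - (j + 1)) (v := m + j)
        ⟨by omega, by omega⟩ ⟨by omega, by omega⟩ ⟨by omega, by omega⟩ (by omega) (by omega)
        (by omega) (by omega) (y := y) (by rw [h6]; simp [evy]) (by rw [h6]; simp [evy])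
      obtain ⟨c, hc⟩ : ∃ c, c = m - j := ⟨_, rfl⟩
      have h8 := csz_bound (c := c) hm (by omega) (by omega)
      have h9 : csz (m - j) (m + j) = (c + 1) * (2 * m - c + 1) - c * (c + 1) / 2 := by
        unfold csz
        rw [← hc, show m + j = 2 * m - c from by omega]
      have h10 : csz (m - (j + 1)) (m + (j + 1)) = csz (m - (j + 1)) (m + j) + c := by
        unfold csz
        have e1 : m - (j + 1) + 1 = c := by omega
        have e2 : m + (j + 1) + 1 = (m + j + 1) + 1 := by omega
        rw [e1, e2, mul_add c (m + j + 1) 1, mul_one]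
        have e3 : (m - (j + 1)) * c / 2 ≤ c * (m + j + 1) := by
          have e4 : (m - (j + 1)) * c ≤ c * (m + j + 1) := by
            rw [mul_comm]
            exact Nat.mul_le_mul_left _ (by omega)
          exact (Nat.div_le_self _ _).trans e4
        omega
      omega

end Up

/-! ### the middle level -/

lemma PL.pair_eq {i n : ℕ} {y : ℕ → α} (h : PL i n y) {a b c d : ℕ} (ha : a ≤ n) (hb : b ≤ n)
    (hc : c ≤ n) (hd : d ≤ n) (hab : a ≠ b) (he : ({y a, y b} : Finset α) = {y c, y d}) :
    (a = c ∧ b = d) ∨ (a = d ∧ b = c) := by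
  have m1 : y a ∈ ({y c, y d} : Finset α) := by rw [← he]; simp
  have m2 : y b ∈ ({y c, y d} : Finset α) := by rw [← he]; simp
  rw [mem_insert, mem_singleton] at m1 m2
  rcases m1 with m1 | m1
  · have e1 := h.inj _ ha _ hc m1
    rcases m2 with m2 | m2
    · have e2 := h.inj _ hb _ hc m2
      omega
    · have e2 := h.inj _ hb _ hd m2
      omega
  · have e1 := h.inj _ ha _ hd m1
    rcases m2 with m2 | m2
    · have e2 := h.inj _ hb _ hc m2
      omega
    · have e2 := h.inj _ hb _ hd m2
      omega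

section Mid

variable {m : ℕ} {f : ℕ → ℕ → α}

/-- elements just above the middle level -/
lemma mid_Ch (C : Ctx α) (hT : Top (Stc (2 * m + 1)) (2 * m) f) (_hm : 1 ≤ m) {z : α}
    (hz : corank z + 1 = 2 * m) : ∃ a < m, Ch z = {evy f m a, evy f m (a + 1)} := by
  obtain ⟨c, d, h1, h2, rfl⟩ := hT.sur z (by omega)
  unfold Stc at h1
  refine ⟨m - 1 - c, by omega, ?_⟩
  rw [stc_Ch_mid C hT (c := c) (d := d) (by omega) (by omega) (by omega)]
  unfold evy
  rw [show m - (m - 1 - c) = c + 1 from by omega, show m + (m - 1 - c) = d from by omega,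
    show m - (m - 1 - c + 1) = c from by omega, show m + (m - 1 - c + 1) = d + 1 from by omega]

/-- the only Q-event -/
lemma mid_QEv (C : Ctx α) (h1 : sz α 1 = 1) (hT : Top (Stc (2 * m + 1)) (2 * m) f) (hm : 2 ≤ m)
    (hH : 2 * m < HT α) :
    QEv α (2 * m) = {f (m - 1) (m - 1)} ∧ Ch2 (f (m - 1) (m - 1)) = {evy f m 0, evy f m 1} := by
  obtain ⟨hQ, _⟩ := rtwo_facts C h1 (i := 2 * m) (by omega) hH hT
  have h2 := hQ (m - 1) (by omega)
  rw [show 2 * (m - 1) + 2 = 2 * m from by omega] at h2
  refine ⟨h2, ?_⟩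
  have h3 := stc_Ch_diag C hT (c := m - 1) (by omega) (by omega)
  rw [Ch2_of_single h3, stc_Ch_mid C hT (by omega) (by omega) (by omega)]
  unfold evy
  rw [show m - 0 = m - 1 + 1 from by omega, show m + 0 = m - 1 + 1 from by omega,
    show m + 1 = m - 1 + 1 + 1 from by omega]

lemma defectR {y : ℕ → α} (C : Ctx α) (h : PL (2 * m) m y) (hm : 2 ≤ m)
    (hR : ∀ a b, a < b → b ≤ m → mC (2 * m) {y a, y b} =
      if b < m then (if b = a + 1 then 1 else 0) else (if a = 0 then 1 else 0)) :
    Defect (2 * m) (y (m - 1)) (y 0) (y m) where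
  hs := h.cor _ (by omega)
  ht := h.cor _ (by omega)
  hk := h.cor _ (by omega)
  st := h.ne (by omega) (by omega) (by omega)
  sk := h.ne (by omega) (by omega) (by omega)
  tk := h.ne (by omega) (by omega) (by omega)
  eq g hg := by
    by_cases hgl : g ⊆ lev α (2 * m)
    · obtain ⟨a, b, h1, h2, rfl⟩ := h.pair hg hgl
      have e1 : ({y a, y b} : Finset α) = {y (m - 1), y m} ↔ a = m - 1 ∧ b = m := by
        constructor
        · intro h3
          exact h.pair_inj h1 h2 (by omega) (by omega) h3
        · rintro ⟨rfl, rfl⟩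
          rfl
      have e2 : ({y a, y b} : Finset α) = {y 0, y m} ↔ a = 0 ∧ b = m := by
        constructor
        · intro h3
          exact h.pair_inj h1 h2 (by omega) (by omega) h3
        · rintro ⟨rfl, rfl⟩
          rfl
      simp only [e1, e2]
      rw [hR a b h1 h2, h.mD a b h1 h2]
      split_ifs <;> omega
    · rw [C.mC_zero hgl, C.mD_zero hgl, if_neg, if_neg]
      · intro h3
        apply hgl
        rw [h3]
        intro x hx
        rw [mem_insert, mem_singleton] at hx
        rcases hx with rfl | rfl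
        · exact mem_lev.2 (h.cor _ (by omega))
        · exact mem_lev.2 (h.cor _ (by omega))
      · intro h3
        apply hgl
        rw [h3]
        intro x hx
        rw [mem_insert, mem_singleton] at hx
        rcases hx with rfl | rfl
        · exact mem_lev.2 (h.cor _ (by omega))
        · exact mem_lev.2 (h.cor _ (by omega))

lemma defectL {y : ℕ → α} (C : Ctx α) (h : PL (2 * m) m y) (hm : 2 ≤ m)
    (hL : ∀ a b, a < b → b ≤ m → mC (2 * m) {y a, y b} =
      if a = 0 then (if b = m then 1 else 0) else (if b = a + 1 then 1 else 0)) :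
    Defect (2 * m) (y 1) (y m) (y 0) where
  hs := h.cor _ (by omega)
  ht := h.cor _ (by omega)
  hk := h.cor _ (by omega)
  st := h.ne (by omega) (by omega) (by omega)
  sk := h.ne (by omega) (by omega) (by omega)
  tk := h.ne (by omega) (by omega) (by omega)
  eq g hg := by
    by_cases hgl : g ⊆ lev α (2 * m)
    · obtain ⟨a, b, h1, h2, rfl⟩ := h.pair hg hgl
      have e1 : ({y a, y b} : Finset α) = {y 1, y 0} ↔ a = 0 ∧ b = 1 := by
        rw [pair_comm (y 1)]
        constructor
        · intro h3
          exact h.pair_inj h1 h2 (by omega) (by omega) h3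
        · rintro ⟨rfl, rfl⟩
          rfl
      have e2 : ({y a, y b} : Finset α) = {y m, y 0} ↔ a = 0 ∧ b = m := by
        rw [pair_comm (y m)]
        constructor
        · intro h3
          exact h.pair_inj h1 h2 (by omega) (by omega) h3
        · rintro ⟨rfl, rfl⟩
          rfl
      simp only [e1, e2]
      rw [hL a b h1 h2, h.mD a b h1 h2]
      split_ifs <;> omega
    · rw [C.mC_zero hgl, C.mD_zero hgl, if_neg, if_neg]
      · intro h3
        apply hgl
        rw [h3]
        intro x hx
        rw [mem_insert, mem_singleton] at hx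
        rcases hx with rfl | rfl
        · exact mem_lev.2 (h.cor _ (by omega))
        · exact mem_lev.2 (h.cor _ (by omega))
      · intro h3
        apply hgl
        rw [h3]
        intro x hx
        rw [mem_insert, mem_singleton] at hx
        rcases hx with rfl | rfl
        · exact mem_lev.2 (h.cor _ (by omega))
        · exact mem_lev.2 (h.cor _ (by omega))

end Mid

/-- middle level, `N` odd: the bottom coordinates `g` match the top coordinates `f`, or they are
mirrored in the case of five levels up to the middle -/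
theorem rtwo_middle (C : Ctx α) (h1 : sz α 1 = 1) {m : ℕ} (hm : 1 ≤ m)
    (hH : HT α = 4 * m + 1) (hsz : ∀ l, sz α l = st (2 * m + 1) l)
    {f : ℕ → ℕ → α} (hT : Top (Stc (2 * m + 1)) (2 * m) f) (hP : ∀ j < 2 * m, Perf α j)
    {g : ℕ → ℕ → αᵒᵈ} (hT' : Top (Stc (2 * m + 1)) (2 * m) g)
    (hP' : ∀ j < 2 * m, Perf αᵒᵈ j) :
    (∀ c d, c ≤ d → c + d = 2 * m → OrderDual.ofDual (g c d) = f c d) ∨
    (m ≤ 2 ∧ ∀ c ≤ m, OrderDual.ofDual (g c (2 * m - c)) = f (m - c) (m + c)) := by
  have hPL := even_PL C hT (by omega)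
  have hPL' := even_PL C.dual hT' (by omega)
  set Y : ℕ → α := evy f m with hY
  set Z : ℕ → α := fun j => OrderDual.ofDual (evy g m j) with hZ
  have hZd : ∀ j, OrderDual.toDual (Z j) = evy g m j := fun j => rfl
  have hZc : ∀ j ≤ m, corank (Z j) = 2 * m := by
    intro j hj
    have e1 := C.corank_dual (Z j)
    have e2 := hPL'.cor j hj
    rw [hZd, e2] at e1
    omega
  have hZi : ∀ j ≤ m, ∀ j' ≤ m, Z j = Z j' → j = j' := by
    intro j hj j' hj' he
    exact hPL'.inj j hj j' hj' he
  have hC : ∀ j j', j < j' → j' ≤ m → mC (2 * m) {Z j, Z j'} = if j' = j + 1 then 1 else 0 := by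
    intro j j' hj hj'
    rw [← C.mC_DF (i' := 2 * m) (by omega), DF_pair, hZd, hZd]
    exact hPL'.mD j j' hj hj'
  have hCC : ∀ u v, u ≤ m → v ≤ m → u ≠ v → mC (2 * m) {Z u, Z v} =
      if u = v + 1 ∨ v = u + 1 then 1 else 0 := by
    intro u v hu hv huv
    rcases Nat.lt_or_ge u v with h2 | h2
    · rw [hC u v h2 hv]
      split_ifs <;> omega
    · rw [pair_comm, hC v u (by omega) hu]
      split_ifs <;> omega
  have left_of : (∀ j ≤ m, Z j = Y j) →
      ∀ c d, c ≤ d → c + d = 2 * m → OrderDual.ofDual (g c d) = f c d := by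
    intro h2 c d hcd hs
    have h3 := h2 (m - c) (by omega)
    simp only [hZ, hY, evy] at h3
    rwa [show m - (m - c) = c from by omega, show m + (m - c) = d from by omega] at h3
  have right_of : (∀ j ≤ m, Z j = Y (m - j)) →
      ∀ c ≤ m, OrderDual.ofDual (g c (2 * m - c)) = f (m - c) (m + c) := by
    intro h2 c hc
    have h3 := h2 (m - c) (by omega)
    simp only [hZ, hY, evy] at h3
    rwa [show m - (m - c) = c from by omega, show m + (m - c) = 2 * m - c from by omega] at h3
  have hσ : ∀ j, ∃ l, j ≤ m → l ≤ m ∧ Z j = Y l := by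
    intro j
    by_cases hj : j ≤ m
    · obtain ⟨l, hl, h2⟩ := hPL.sur (Z j) (hZc j hj)
      exact ⟨l, fun _ => ⟨hl, h2⟩⟩
    · exact ⟨0, fun h => absurd h hj⟩
  choose σ hσ using hσ
  have hσi : ∀ j ≤ m, ∀ j' ≤ m, σ j = σ j' → j = j' := by
    intro j hj j' hj' he
    apply hZi j hj j' hj'
    rw [(hσ j hj).2, (hσ j' hj').2, he]
  by_cases hm1 : m = 1
  · subst hm1
    have a0 := hσ 0 (by omega)
    have a1 := hσ 1 (by omega)
    have a2 := hσi 0 (by omega) 1 (by omega)
    by_cases h2 : σ 0 = 0
    · left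
      apply left_of
      intro j hj
      have h3 : σ 1 = 1 := by omega
      interval_cases j
      · rw [a0.2, h2]
      · rw [a1.2, h3]
    · right
      refine ⟨by omega, right_of ?_⟩
      intro j hj
      have h3 : σ 0 = 1 := by omega
      have h4 : σ 1 = 0 := by omega
      interval_cases j
      · rw [a0.2, h3]
      · rw [a1.2, h4]
  have hm2 : 2 ≤ m := by omega
  have hfa := rtwo_facts C h1 (i := 2 * m) (by omega) (by omega) hT
  obtain ⟨_, hQ, _, _, hPe, _, hup⟩ := hfa
  have hPe1 := hPe (m - 1) (by omega)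
  have hQ1 := hQ (m - 1) (by omega)
  rw [show 2 * (m - 1) + 1 = 2 * m - 1 from by omega] at hPe1 hQ1
  obtain ⟨hcl, hN3⟩ := C.R0 (i := 2 * m - 1) (by omega) (hP _ (by omega)) hPe1 hQ1
  have hadj : ∀ j < m, σ (j + 1) = σ j + 1 ∨ σ j = σ (j + 1) + 1 ∨ (σ j = 0 ∧ σ (j + 1) = m) ∨
      (σ j = m ∧ σ (j + 1) = 0) := by
    intro j hj
    obtain ⟨w, hw, hw2⟩ := exists_of_mC_pos (i := 2 * m) (g := {Z j, Z (j + 1)}) (by
      rw [hC j (j + 1) (by omega) (by omega), if_pos rfl]
      omega)
    have a0 := hσ j (by omega)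
    have a1 := hσ (j + 1) (by omega)
    have a2 : σ j ≠ σ (j + 1) := fun h => by
      have := hσi j (by omega) (j + 1) (by omega) h
      omega
    have hcard : (Pr w).card = 2 := by
      rw [hw2, card_pair]
      intro h
      have := hZi j (by omega) (j + 1) (by omega) h
      omega
    rw [a0.2, a1.2] at hw2
    rcases even_allowed C hm2 hT (by omega) hcl (w := w) (by omega) hcard with ⟨a, ha, h3⟩ | h3
    · rw [hw2] at h3
      have := hPL.pair_eq a0.1 a1.1 (by omega) (by omega) a2 h3
      omega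
    · rw [hw2] at h3
      have := hPL.pair_eq a0.1 a1.1 (by omega) (by omega) a2 h3
      omega
  -- every pair between the tips occurs below
  have hτ : ∀ l ≤ m, ∃ j ≤ m, σ j = l := by
    intro l hl
    have e1 := C.corank_dual (Y l)
    rw [hPL.cor l hl] at e1
    obtain ⟨j, hj, h2⟩ := hPL'.sur (OrderDual.toDual (Y l)) (by omega)
    refine ⟨j, hj, ?_⟩
    have h3 : Y l = Z j := h2
    have a0 := hσ j hj
    exact hPL.inj _ a0.1 _ hl (a0.2.symm.trans h3.symm)
  have hle1 : ∀ a b, a < b → b ≤ m → mC (2 * m) {Y a, Y b} ≤ 1 := by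
    intro a b hab hb
    obtain ⟨j, hj, hja⟩ := hτ a (by omega)
    obtain ⟨j', hj', hjb⟩ := hτ b hb
    have a0 := hσ j hj
    have a1 := hσ j' hj'
    rw [← hja, ← hjb, ← a0.2, ← a1.2, hCC j j' hj hj' (fun h => by rw [h] at hja; omega)]
    split_ifs <;> omega
  have hin : ∀ c, 1 ≤ c → c + 2 ≤ m → mC (2 * m) {Y c, Y (c + 1)} ≠ 0 := by
    intro c hc hcm h0
    have n1 := even_n3up C (by omega) hT (by omega)
    have n2 := even_n3dn C hm2 hT (by omega) hcl
    have n3 : ∑ j ∈ Ico 1 (m - 1), mC (2 * m) {evy f m j, evy f m (j + 1)} ≤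
        ∑ j ∈ Ico 1 (m - 1), (if j = c then 0 else 1) := by
      apply Finset.sum_le_sum
      intro j hj
      rw [mem_Ico] at hj
      split_ifs with h2
      · rw [h2]
        exact h0.le
      · exact hle1 j (j + 1) (by omega) (by omega)
    have n4 : ∑ j ∈ Ico 1 (m - 1), (if j = c then 0 else 1) + 1 = m - 2 := by
      have n5 : ∑ j ∈ Ico 1 (m - 1), ((if j = c then 0 else 1) + (if j = c then 1 else 0)) =
          m - 2 := by
        rw [Finset.sum_congr rfl (g := fun _ => 1)]
        · rw [Finset.sum_const, Nat.card_Ico, smul_eq_mul]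
          omega
        · intro j _
          split_ifs <;> rfl
      rw [Finset.sum_add_distrib, Finset.sum_ite_eq', if_pos (mem_Ico.2 ⟨hc, by omega⟩)] at n5
      exact n5
    omega
  -- events at the middle level
  obtain ⟨q1, q2⟩ := mid_QEv C h1 hT hm2 (by omega)
  obtain ⟨p1, p2⟩ := mid_QEv C.dual (by rw [C.sz_dual]; exact h1) hT' hm2 (by
    rw [C.HT_dual]; omega)
  obtain ⟨w0, hw0⟩ : ∃ w0 : α, OrderDual.toDual w0 = g (m - 1) (m - 1) :=
    ⟨OrderDual.ofDual (g (m - 1) (m - 1)), rfl⟩
  have hPEv : PEv α (2 * m) = {w0} := by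
    ext w
    rw [← C.PEv_DF (i' := 2 * m) (by omega), p1, mem_singleton, mem_singleton, ← hw0]
    exact Iff.rfl
  have hPr2 : Pr2 w0 = {Z 0, Z 1} := by
    apply DF_inj
    rw [← Ch2_DF, hw0, p2, DF_pair, hZd, hZd]
  have hZne : ∀ {u v : ℕ}, u ≤ m → v ≤ m → u ≠ v → Z u ≠ Z v := fun hu hv huv h =>
    huv (hZi _ hu _ hv h)
  have hRD : ∀ {s t k : α}, Defect (2 * m) s t k →
      eta s t k {Z 0, Z 1} - eta s t k {Y 0, Y 1} = 1 := by
    intro s t k hD
    have h2 := (C.RD (by omega) (by omega) hD (fun v hv hv2 => hup v (by omega) hv2)).2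
    rw [hPEv, q1, Finset.sum_singleton, Finset.sum_singleton, hPr2, q2] at h2
    exact h2
  have hmemY : ∀ {a b c : ℕ}, a ≤ m → b ≤ m → c ≤ m → (Y a ∈ ({Y b, Y c} : Finset α) ↔
      a = b ∨ a = c) := by
    intro a b c ha hb hc
    rw [mem_insert, mem_singleton]
    constructor
    · rintro (h | h)
      · exact Or.inl (hPL.inj _ ha _ hb h)
      · exact Or.inr (hPL.inj _ ha _ hc h)
    · rintro (rfl | rfl)
      · exact Or.inl rfl
      · exact Or.inr rfl
  have hZ0 := hσ 0 (by omega)
  have hZ1 := hσ 1 (by omega)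
  have hZm := hσ m le_rfl
  rcases cyc_path hm2 (fun j hj => (hσ j hj).1) hσi hadj with hf | hf
  · by_cases r0 : σ 0 = 0
    · left
      apply left_of
      intro j hj
      rw [(hσ j hj).2, hf j hj, r0, if_pos (by omega), zero_add]
    by_cases rm : σ 0 = m
    · exfalso
      -- rotR, Z 0 = Y m, Z (j + 1) = Y j
      have hYZ : ∀ a < m, Y a = Z (a + 1) := by
        intro a ha
        rw [(hσ (a + 1) (by omega)).2, hf (a + 1) (by omega), rm, if_neg (by omega)]
        congr 1
        omega
      have hYm : Y m = Z 0 := by rw [hZ0.2, rm]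
      have hD := defectR C hPL hm2 (by
        intro a b hab hb
        by_cases hb2 : b < m
        · rw [if_pos hb2, hYZ a (by omega), hYZ b hb2, hCC _ _ (by omega) (by omega) (by omega)]
          split_ifs <;> omega
        · have hbm : b = m := by omega
          rw [if_neg hb2, hbm, hYZ a (by omega), hYm,
            hCC (a + 1) 0 (by omega) (by omega) (by omega)]
          exact if_congr (by omega) rfl rfl)
      have h2 := hRD hD
      rw [← hYm, ← hYZ 0 (by omega), eta_val, eta_val] at h2
      simp only [hmemY (show m ≤ m from le_rfl) (show m ≤ m from le_rfl) (show 0 ≤ m by omega),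
        hmemY (show m ≤ m from le_rfl) (show 0 ≤ m by omega) (show 1 ≤ m by omega),
        hmemY (show m - 1 ≤ m by omega) (show 0 ≤ m by omega) (show 1 ≤ m by omega),
        hmemY (show 0 ≤ m by omega) (show 0 ≤ m by omega) (show 1 ≤ m by omega)] at h2
      have hm3 : 3 ≤ m := by
        by_contra h3
        have h4 : m = 2 := by omega
        subst h4
        simp at h2
      refine middle_kill C hm3 hsz hT fun x hx => ?_
      have e1 := C.corank_dual x
      obtain ⟨a, ha, h3⟩ := mid_Ch C.dual hT' hm (z := OrderDual.toDual x) (by omega)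
      rw [Ch_DF, ← hZd, ← hZd, ← DF_pair] at h3
      have h4 := DF_inj h3
      rw [h4]
      rcases Nat.eq_zero_or_pos a with rfl | ha0
      · left
        rw [zero_add, ← hYm, ← hYZ 0 (by omega), pair_comm]
      · right
        refine ⟨a - 1, by omega, ?_⟩
        have e2 := hYZ (a - 1) (by omega)
        have e3 := hYZ a ha
        rw [show a - 1 + 1 = a from by omega] at e2
        rw [show a - 1 + 1 = a from by omega]
        change _ = ({Y (a - 1), Y a} : Finset α)
        rw [e2, e3]
    by_cases r1 : σ 0 = 1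
    · exfalso
      -- rotL, Z m = Y 0, Z j = Y (j + 1)
      have hYZ : ∀ a, 1 ≤ a → a ≤ m → Y a = Z (a - 1) := by
        intro a ha ha'
        rw [(hσ (a - 1) (by omega)).2, hf (a - 1) (by omega), r1, if_pos (by omega)]
        congr 1
        omega
      have hYm : Y 0 = Z m := by
        rw [hZm.2, hf m le_rfl, r1, if_neg (by omega)]
        congr 1
        omega
      have hD := defectL C hPL hm2 (by
        intro a b hab hb
        by_cases ha2 : a = 0
        · rw [if_pos ha2, ha2, hYm, hYZ b (by omega) hb, hCC _ _ (by omega) (by omega) (by omega)]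
          split_ifs <;> omega
        · rw [if_neg ha2, hYZ a (by omega) (by omega), hYZ b (by omega) hb,
            hCC _ _ (by omega) (by omega) (by omega)]
          split_ifs <;> omega)
      have h2 := hRD hD
      have e0 : Z 0 = Y 1 := (hYZ 1 le_rfl (by omega)).symm
      have e1 : Z 1 = Y 2 := (hYZ 2 (by omega) (by omega)).symm
      rw [e0, e1, eta_val, eta_val] at h2
      simp only [hmemY (show 0 ≤ m by omega) (show 1 ≤ m by omega) (show 2 ≤ m by omega),
        hmemY (show 1 ≤ m by omega) (show 1 ≤ m by omega) (show 2 ≤ m by omega),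
        hmemY (show m ≤ m from le_rfl) (show 1 ≤ m by omega) (show 2 ≤ m by omega),
        hmemY (show 0 ≤ m by omega) (show 0 ≤ m by omega) (show 1 ≤ m by omega)] at h2
      have hm3 : 3 ≤ m := by
        by_contra h3
        have h4 : m = 2 := by omega
        subst h4
        simp at h2
      refine middle_kill C.dual hm3 (fun l => by rw [C.sz_dual]; exact hsz l) hT' fun x hx => ?_
      have e2 := C.corank_dual (OrderDual.ofDual x)
      have e3 : corank (OrderDual.toDual (OrderDual.ofDual x)) = corank x := rfl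
      obtain ⟨a, ha, h3⟩ := mid_Ch C hT hm (z := OrderDual.ofDual x) (by omega)
      have h4 : Pr x = DF (Ch (OrderDual.ofDual x)) := Pr_DF (OrderDual.ofDual x)
      rw [h4, h3]
      rcases Nat.eq_zero_or_pos a with rfl | ha0
      · left
        change DF {Y 0, Y (0 + 1)} = _
        rw [zero_add, hYm, ← e0, DF_pair, hZd, hZd, pair_comm]
      · right
        refine ⟨a - 1, by omega, ?_⟩
        change DF {Y a, Y (a + 1)} = _
        rw [hYZ a ha0 (by omega), hYZ (a + 1) (by omega) (by omega), DF_pair, hZd, hZd]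
        rw [show a + 1 - 1 = a - 1 + 1 from by omega]
    · exfalso
      apply hin (σ 0 - 1) (by omega) (by omega)
      have e1 : Y (σ 0 - 1) = Z m := by
        rw [hZm.2, hf m le_rfl, if_neg (by omega)]
        congr 1
        omega
      have e2 : Y (σ 0 - 1 + 1) = Z 0 := by
        rw [hZ0.2]
        congr 1
        omega
      rw [e1, e2, hCC _ _ le_rfl (by omega) (by omega), if_neg (by omega)]
  · by_cases rm : σ 0 = m
    · -- mirrored
      have hmir : ∀ j ≤ m, Z j = Y (m - j) := by
        intro j hj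
        rw [(hσ j hj).2, hf j hj, rm, if_pos hj]
      by_cases hm3 : m ≤ 2
      · exact Or.inr ⟨hm3, right_of hmir⟩
      · exfalso
        have hPf : Perf α (2 * m) := by
          intro s hs
          by_cases hsl : s ⊆ lev α (2 * m)
          · obtain ⟨a, b, h2, h3, rfl⟩ := hPL.pair hs hsl
            have e1 : Y a = Z (m - a) := by
              rw [hmir (m - a) (by omega)]
              congr 1
              omega
            have e2 : Y b = Z (m - b) := by
              rw [hmir (m - b) (by omega)]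
              congr 1
              omega
            rw [hPL.mD a b h2 h3]
            change mC (2 * m) {Y a, Y b} = _
            rw [e1, e2, hCC _ _ (by omega) (by omega) (by omega)]
            split_ifs <;> omega
          · rw [C.mC_zero hsl, C.mD_zero hsl]
        have h2 := (C.R0b (by omega) hPf hPEv q1).2
        apply h2
        rw [hPr2, q2, hmir 0 (by omega), hmir 1 (by omega), Finset.disjoint_left]
        intro x hx hx'
        rw [mem_insert, mem_singleton] at hx
        rcases hx with rfl | rfl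
        · have := (hmemY (by omega) (by omega) (by omega)).1 hx'
          omega
        · have := (hmemY (by omega) (by omega) (by omega)).1 hx'
          omega
    by_cases r0 : σ 0 = 0
    · exfalso
      -- rotL, Z 0 = Y 0, Z j = Y (m + 1 - j)
      have hYZ : ∀ a, 1 ≤ a → a ≤ m → Y a = Z (m + 1 - a) := by
        intro a ha ha'
        rw [(hσ (m + 1 - a) (by omega)).2, hf (m + 1 - a) (by omega), r0, if_neg (by omega)]
        congr 1
        omega
      have hYm : Y 0 = Z 0 := by rw [hZ0.2, r0]
      have hD := defectL C hPL hm2 (by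
        intro a b hab hb
        by_cases ha2 : a = 0
        · rw [if_pos ha2, ha2, hYm, hYZ b (by omega) hb,
            hCC 0 (m + 1 - b) (by omega) (by omega) (by omega)]
          exact if_congr (by omega) rfl rfl
        · rw [if_neg ha2, hYZ a (by omega) (by omega), hYZ b (by omega) hb,
            hCC _ _ (by omega) (by omega) (by omega)]
          split_ifs <;> omega)
      have h2 := hRD hD
      have e1 : Z 1 = Y m := by
        rw [hYZ m (by omega) le_rfl]
        congr 1
        omega
      rw [← hYm, e1, eta_val, eta_val] at h2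
      simp at h2
    by_cases r1 : σ 0 = m - 1
    · exfalso
      -- rotR, Z m = Y m, Z j = Y (m - 1 - j)
      have hYZ : ∀ a < m, Y a = Z (m - 1 - a) := by
        intro a ha
        rw [(hσ (m - 1 - a) (by omega)).2, hf (m - 1 - a) (by omega), r1, if_pos (by omega)]
        congr 1
        omega
      have hYm : Y m = Z m := by
        rw [hZm.2, hf m le_rfl, r1, if_neg (by omega)]
        congr 1
        omega
      have hD := defectR C hPL hm2 (by
        intro a b hab hb
        by_cases hb2 : b < m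
        · rw [if_pos hb2, hYZ a (by omega), hYZ b hb2, hCC _ _ (by omega) (by omega) (by omega)]
          split_ifs <;> omega
        · rw [if_neg hb2, show b = m from by omega, hYZ a (by omega), hYm,
            hCC _ _ (by omega) (by omega) (by omega)]
          split_ifs <;> omega)
      have h2 := hRD hD
      have e0 : Z 0 = Y (m - 1) := by
        rw [hYZ (m - 1) (by omega)]
        congr 1
        omega
      have e1 : Z 1 = Y (m - 2) := by
        rw [hYZ (m - 2) (by omega)]
        congr 1
        omega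
      rw [e0, e1, eta_val, eta_val] at h2
      simp only [hmemY (show m ≤ m from le_rfl) (show m - 1 ≤ m by omega) (show m - 2 ≤ m by omega),
        hmemY (show m ≤ m from le_rfl) (show 0 ≤ m by omega) (show 1 ≤ m by omega),
        hmemY (show m - 1 ≤ m by omega) (show 0 ≤ m by omega) (show 1 ≤ m by omega),
        hmemY (show m - 1 ≤ m by omega) (show m - 1 ≤ m by omega) (show m - 2 ≤ m by omega),
        hmemY (show 0 ≤ m by omega) (show m - 1 ≤ m by omega) (show m - 2 ≤ m by omega),
        hmemY (show 0 ≤ m by omega) (show 0 ≤ m by omega) (show 1 ≤ m by omega)] at h2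
      rcases Nat.lt_or_ge 2 m with h4 | h4
      · have c1 : ¬(m = m - 1 ∨ m = m - 2) := by omega
        have c2 : ¬(m = 0 ∨ m = 1) := by omega
        have c3 : ¬(0 = m - 1 ∨ 0 = m - 2) := by omega
        have c4 : ¬(m - 1 = 0 ∨ m - 1 = 1) := by omega
        simp only [c1, c2, c3, c4, true_or, if_true, if_false] at h2
        omega
      · have h5 : m = 2 := by omega
        subst h5
        norm_num at h2
    · exfalso
      apply hin (σ 0) (by omega) (by omega)
      have e1 : Y (σ 0) = Z 0 := hZ0.2.symm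
      have e2 : Y (σ 0 + 1) = Z m := by
        rw [hZm.2, hf m le_rfl, if_neg (by omega)]
        congr 1
        omega
      rw [e1, e2, hCC _ _ (by omega) le_rfl (by omega), if_neg (by omega)]

/-- the coordinates of level `2m - 1` -/
lemma mid_odd_PL {N m : ℕ} {f : ℕ → ℕ → α} (C : Ctx α) (hT : Top (Stc N) (2 * m - 1) f)
    (hN : 2 * m ≤ N) (hm : 1 ≤ m) : PL (2 * m - 1) (m - 1) (fun j => f (m - 1 - j) (m + j)) where
  cor j hj := by
    rw [hT.cor _ _ ⟨by omega, by omega⟩ (by omega)]
    omega
  inj j hj j' hj' he := by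
    have := hT.inj _ _ _ _ ⟨by omega, by omega⟩ ⟨by omega, by omega⟩ (by omega) (by omega) he
    omega
  sur x hx := by
    obtain ⟨c, d, h1, h2, rfl⟩ := hT.sur x (by omega)
    unfold Stc at h1
    refine ⟨m - 1 - c, by omega, ?_⟩
    have e1 : m - 1 - (m - 1 - c) = c := by omega
    have e2 : m + (m - 1 - c) = d := by omega
    simp only [e1, e2]
  mD j j' h1 h2 := by
    rw [pair_comm, hT.mD_eq C stc_hR1 ⟨by omega, by omega⟩ ⟨by omega, by omega⟩ (by omega)
      (by omega) (by omega)]
    congr 1
    apply propext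
    omega

/-- two Hamiltonian paths with the same start agree -/
lemma PL.match_eq {i n : ℕ} {y z : ℕ → α} (h : PL i n y) (hz : ∀ j ≤ n, corank (z j) = i)
    (hzi : ∀ j ≤ n, ∀ j' ≤ n, z j = z j' → j = j')
    (hzD : ∀ j < n, Gauss.mD i {z j, z (j + 1)} ≠ 0) (h0 : z 0 = y 0) : ∀ j ≤ n, z j = y j := by
  intro j
  induction j using Nat.strong_induction_on with
  | _ j ih =>
    intro hj
    rcases Nat.eq_zero_or_pos j with rfl | hj0
    · exact h0
    · obtain ⟨k, rfl⟩ : ∃ k, j = k + 1 := ⟨j - 1, by omega⟩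
      have h1 := hzD k (by omega)
      have hk := ih k (by omega) (by omega)
      obtain ⟨l, hl, h2⟩ := h.sur (z (k + 1)) (hz _ hj)
      rw [h2] at h1 ⊢
      rw [hk] at h1
      have h3 : l ≠ k := by
        rintro rfl
        have := hzi _ hj _ (by omega) (h2.trans hk.symm)
        omega
      rcases Nat.lt_or_ge l k with h4 | h4
      · rw [pair_comm, h.mD l k h4 (by omega)] at h1
        have h5 : k = l + 1 := by
          by_contra h6
          rw [if_neg h6] at h1
          exact h1 rfl
        have := hzi _ hj _ (by omega) (h2.trans (ih l (by omega) (by omega)).symm)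
        omega
      · rw [h.mD k l (by omega) hl] at h1
        have h5 : l = k + 1 := by
          by_contra h6
          rw [if_neg h6] at h1
          exact h1 rfl
        rw [h5]

/-- middle level, `N` even -/
theorem rtwo_middle' (C : Ctx α) (h1 : sz α 1 = 1) {m : ℕ} (hm : 2 ≤ m)
    (hH : HT α = 4 * m - 1)
    {f : ℕ → ℕ → α} (hT : Top (Stc (2 * m)) (2 * m - 1) f) (hP : ∀ j < 2 * m, Perf α j)
    {g : ℕ → ℕ → αᵒᵈ} (hT' : Top (Stc (2 * m)) (2 * m - 1) g)
    (hP' : ∀ j < 2 * m, Perf αᵒᵈ j) (hw : ∃ w : αᵒᵈ, Pr w = {g (m - 1) m}) :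
    ∀ c d, c ≤ d → c + d = 2 * m - 1 → OrderDual.ofDual (g c d) = f c d := by
  have hPL := mid_odd_PL C hT le_rfl (by omega)
  have hPL' := mid_odd_PL C.dual hT' le_rfl (by omega)
  obtain ⟨w, hw⟩ := hw
  have key : ∀ j ≤ m - 1, OrderDual.ofDual (g (m - 1 - j) (m + j)) = f (m - 1 - j) (m + j) := by
    refine hPL.match_eq (z := fun j => OrderDual.ofDual (g (m - 1 - j) (m + j))) ?_ ?_ ?_ ?_
    · intro j hj
      have e1 := C.corank_dual (OrderDual.ofDual (g (m - 1 - j) (m + j)))
      have e2 : corank (OrderDual.toDual (OrderDual.ofDual (g (m - 1 - j) (m + j)))) =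
        2 * m - 1 := hPL'.cor j hj
      rw [e2] at e1
      omega
    · intro j hj j' hj' he
      exact hPL'.inj j hj j' hj' he
    · intro j hj h2
      have h3 := hPL'.mD j (j + 1) (by omega) (by omega)
      rw [if_pos rfl] at h3
      have h4 := C.mC_DF (i := 2 * m - 1) (i' := 2 * m - 1) (by omega)
        {OrderDual.ofDual (g (m - 1 - j) (m + j)),
          OrderDual.ofDual (g (m - 1 - (j + 1)) (m + (j + 1)))}
      rw [DF_pair] at h4
      have h5 := hP (2 * m - 1) (by omega) {OrderDual.ofDual (g (m - 1 - j) (m + j)),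
          OrderDual.ofDual (g (m - 1 - (j + 1)) (m + (j + 1)))} (by
            rw [card_pair]
            intro h6
            have := hPL'.inj j (by omega) (j + 1) (by omega) h6
            omega)
      rw [← h4, h2] at h5
      rw [OrderDual.toDual_ofDual, OrderDual.toDual_ofDual] at h5
      rw [h3] at h5
      omega
    · have h2 : Pr (OrderDual.toDual (OrderDual.ofDual w)) = DF (Ch (OrderDual.ofDual w)) :=
        Pr_DF (OrderDual.ofDual w)
      rw [OrderDual.toDual_ofDual, hw] at h2
      have h3 : Ch (OrderDual.ofDual w) = {OrderDual.ofDual (g (m - 1) m)} := by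
        ext x
        have h4 : OrderDual.toDual x ∈ DF (Ch (OrderDual.ofDual w)) ↔
            x ∈ Ch (OrderDual.ofDual w) := mem_DF
        rw [← h4, ← h2, mem_singleton, mem_singleton]
        exact Iff.rfl
      have h5 : OrderDual.ofDual (g (m - 1) m) ∈ Ch (OrderDual.ofDual w) := by
        rw [h3]
        exact mem_singleton_self _
      rw [Gauss.mem_Ch] at h5
      have h6 := C.cork h5
      have e1 := C.corank_dual (OrderDual.ofDual (g (m - 1) m))
      have e2 : corank (OrderDual.toDual (OrderDual.ofDual (g (m - 1) m))) = 2 * m - 1 :=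
        hPL'.cor 0 (by omega)
      rw [e2] at e1
      obtain ⟨c, d, h7, h8, h9⟩ := hT.sur (OrderDual.ofDual w) (by omega)
      have h10 : (Ch (OrderDual.ofDual w)).card = 1 := by rw [h3, card_singleton]
      rw [← h9, stc_card_Ch C hT h7 (by omega)] at h10
      unfold Stc at h7
      have h12 : c = d := by
        by_contra h13
        rw [if_pos (by omega), if_pos (by omega)] at h10
        omega
      subst h12
      have h13 : c = m - 1 := by omega
      subst h13
      rw [← h9, stc_Ch_diag C hT (by omega) (by omega)] at h3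
      have h14 := singleton_inj.1 h3
      rw [show m - 1 + 1 = m from by omega] at h14
      exact h14.symm
  intro c d hcd hs
  have h2 := key (m - 1 - c) (by omega)
  rwa [show m - 1 - (m - 1 - c) = c from by omega, show m + (m - 1 - c) = d from by omega] at h2

end Pool.Gauss
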