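import Pool.Agent.Work.MP_065141_co.Rtwo1
import Pool.Agent.Work.MP_065141_co.Rtwo5
import Pool.Agent.Work.MP_065141_co.Rtwo6
import Pool.Agent.Work.MP_065141_co.Rtwo7

/-!
# The case of sizes 1, 1, 2: the shifted staircases
-/

set_option autoImplicit false
set_option linter.unusedSectionVars false
open scoped Classical
open Finset

namespace Pool.Gauss

variable {α : Type} [Fintype α] [PartialOrder α]

theorem rtwo (C : Ctx α) (h1 : sz α 1 = 1) (h2 : sz α 2 = 2) :
    ∃ r : ℕ, Nonempty (α ≃o LowerSet (Fin 2 × Fin r)) := by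
  obtain ⟨N, f, hN3, hN, hT, hP, harm, h3⟩ := rtwo_top C h1 h2
  obtain ⟨hH, hsz⟩ := rtwo_sizes C h1 hN3 hN hT hP harm h3
  have C' := C.dual
  have h1' : sz αᵒᵈ 1 = 1 := by rw [C.sz_dual, h1]
  have h2' : sz αᵒᵈ 2 = 2 := by rw [C.sz_dual, h2]
  obtain ⟨N', g, hN3', hN', hT', hP', harm', h3'⟩ := rtwo_top C' h1' h2'
  obtain ⟨hH', hsz'⟩ := rtwo_sizes C' h1' hN3' hN' hT' hP' harm' h3'
  rw [C.HT_dual] at hH'
  have hNN : N' = N := by omega
  subst hNN
  rcases Nat.even_or_odd' N' with ⟨m, hm | hm⟩
  · subst hm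
    have hp := rtwo_odd C h1 (m := m) (by omega) hT (fun j hj => hP j (by omega)) (by omega)
    have hp' := rtwo_odd C' h1' (m := m) (by omega) hT' (fun j hj => hP' j (by omega))
      (by rw [C.HT_dual]; omega)
    obtain ⟨w, hw, _⟩ := hp'.2.1
    have hmid := rtwo_middle' C h1 (m := m) (by omega) (by omega) hT
      (fun j hj => by
        rcases Nat.lt_or_ge j (2 * m - 1) with h4 | h4
        · exact hP j (by omega)
        · have : j = 2 * m - 1 := by omega
          rw [this]
          exact hp.1) hT'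
      (fun j hj => by
        rcases Nat.lt_or_ge j (2 * m - 1) with h4 | h4
        · exact hP' j (by omega)
        · have : j = 2 * m - 1 := by omega
          rw [this]
          exact hp'.1) ⟨w, hw⟩
    exact rtwo_glue C (N := 2 * m) (by omega) hH hT hT' hmid
  · subst hm
    have e1 : 2 * m + 1 - 1 = 2 * m := by omega
    rw [e1] at hT hT'
    rcases rtwo_middle C h1 (m := m) (by omega) (by omega) hsz hT (fun j hj => hP j (by omega)) hT'
      (fun j hj => hP' j (by omega)) with hmid | ⟨hm2, hmid⟩
    · exact rtwo_glue C (N := 2 * m + 1) (by omega) hH (by rw [e1]; exact hT)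
        (by rw [e1]; exact hT') (fun c d h4 h5 => hmid c d h4 (by omega))
    · have hm1 : m = 1 ∨ m = 2 := by omega
      rcases hm1 with rfl | rfl
      · have hsw := rtwo_swap2 hT'
        refine rtwo_glue C (N := 3) (by omega) hH hT hsw ?_
        intro c d h4 h5
        have h6 : (c = 0 ∧ d = 2) ∨ (c = 1 ∧ d = 1) := by omega
        rcases h6 with ⟨rfl, rfl⟩ | ⟨rfl, rfl⟩
        · have := hmid 1 (by omega)
          simpa using this
        · have := hmid 0 (by omega)
          simpa using this
      · exact absurd (rtwo_mirror5 C (by omega) hT hT' (fun c hc => hmid c hc)) (fun h => h)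

end Pool.Gauss
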