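import Pool.Agent.Work.MP_065141_co.Rone
import Pool.Agent.Work.MP_065141_co.Rtwo
import Pool.Agent.Work.MP_065141_co.Rthree4
import Pool.Agent.Work.MP_065141_co.Rthree5

/-!
# Classification of the connected Gaussian posets with one maximal element
-/

set_option autoImplicit false
set_option linter.unusedSectionVars false
open scoped Classical
open Finset

namespace Pool.Gauss

variable {α : Type} [Fintype α] [PartialOrder α]

/-- all the data of the levels `0, ..., 8` from the sizes -/
theorem exists_R8 (C : Ctx α) (h1 : ∀ l < 4, sz α l = 1) (h2 : sz α 4 = 2) (h3 : sz α 5 = 2)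
    (h8 : sz α 8 = 3) : ∃ (s : ℕ → α) (a b c d e g u p w x w' : α),
      R8 s a b c d e g u p w x w' := by
  obtain ⟨s, a, b, c, d, e, g, hR⟩ := rthree_start C (r := 4) (by omega) h1 h2 h3
  obtain ⟨_, u, p, hu, hp, hL⟩ := rthree_p C hR
  have hH : 4 + 4 < HT α := by
    by_contra hcon
    rw [sz_eq_zero (by omega)] at h8
    omega
  obtain ⟨w, x, hw, hx, hLw, _⟩ := rthree_lev4 C hR hH hu hp hL
  have hup : u ≠ p := by
    rintro rfl
    rw [hu] at hp
    have h2 := congrArg card hp
    rw [card_singleton, card_pair hR.eg] at h2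
    omega
  have hwx : w ≠ x := by
    rintro rfl
    rw [hw] at hx
    have h2 := congrArg card hx
    rw [card_singleton, card_pair hup] at h2
    omega
  have hcu : corank u = 7 := by
    have := C.cor_Pr (x := u) (y := e) (by rw [hu]; simp)
    have := hR.corE C
    omega
  have hcw : corank w = 8 := by
    have := C.cor_Pr (x := w) (y := u) (by rw [hw]; simp)
    omega
  have hcx : corank x = 8 := by
    have := C.cor_Pr (x := x) (y := u) (by rw [hx]; simp)
    omega
  have h8' : (lev α 8).card = 3 := h8
  obtain ⟨w', hw', hne⟩ : ∃ w' ∈ lev α 8, w' ∉ ({w, x} : Finset α) := by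
    by_contra hcon
    push Not at hcon
    have h4 := card_le_card (s := lev α 8) (t := {w, x}) hcon
    rw [card_pair hwx] at h4
    omega
  rw [mem_lev] at hw'
  rw [mem_insert, mem_singleton, not_or] at hne
  have hPw' : Pr w' = {p} := by
    rcases hLw w' hw' with h4 | h4 | h4
    · exact absurd h4 hne.1
    · exact absurd h4 hne.2
    · exact h4
  refine ⟨s, a, b, c, d, e, g, u, p, w, x, w', hR, hu, hp, hL, hw, hx, hPw', fun y hy => ?_⟩
  by_contra hcon
  push Not at hcon
  have h4 : ({y, w, x, w'} : Finset α) ⊆ lev α 8 := by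
    intro z hz
    simp only [mem_insert, mem_singleton] at hz
    rcases hz with rfl | rfl | rfl | rfl
    · exact mem_lev.2 hy
    · exact mem_lev.2 hcw
    · exact mem_lev.2 hcx
    · exact mem_lev.2 hw'
  have h5 := card_le_card h4
  rw [card_insert_of_notMem, card_eq_three.2 ⟨w, x, w', hwx, (Ne.symm hne.1), (Ne.symm hne.2),
    rfl⟩] at h5
  · omega
  · simp only [mem_insert, mem_singleton, not_or]
    exact hcon

theorem rthree (C : Ctx α) {r : ℕ} (hr : 3 ≤ r) (h1 : ∀ l < r, sz α l = 1) (h2 : sz α r = 2) :
    (∃ r : ℕ, Nonempty (α ≃o (Fin r ⊕ₗ ((Fin 2 × Fin 2) ⊕ₗ Fin r)))) ∨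
      Nonempty (α ≃o LowerSet (LowerSet (Fin 2 × Fin 3))) ∨
      Nonempty (α ≃o LowerSet (LowerSet (LowerSet (Fin 2 × Fin 3)))) := by
  have hrH : r < HT α := by
    by_contra hcon
    rw [sz_eq_zero (by omega)] at h2
    omega
  have hrH1 : r + 1 < HT α := by
    by_contra hcon
    have h3 := C.sz_palin hrH
    rw [show HT α - 1 - r = 0 from by omega, h2, h1 0 (by omega)] at h3
    omega
  have h3 := C.sz_pos hrH1
  have h4 := rthree_sz_le C (r := r) (by omega) (by omega) h1 (r + 1)
  have h5 : (r + 1) / r = 1 := by
    rw [Nat.div_eq_iff (by omega)]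
    omega
  rw [h5] at h4
  have h6 : sz α (r + 1) = 1 ∨ sz α (r + 1) = 2 := by omega
  rcases h6 with h6 | h6
  · exact Or.inl (rthree_small C (by omega) h1 h2 h6)
  · right
    obtain ⟨s, a, b, c, d, e, g, hR⟩ := rthree_start C hr h1 h2 h6
    obtain ⟨_, u, p, hu, hp, hL⟩ := rthree_p C hR
    rcases rthree_four C hR hu hp hL with ⟨rfl, h7⟩ | ⟨rfl, h8⟩
    · left
      have hH : 3 + 4 < HT α := by
        by_contra hcon
        rw [sz_eq_zero (by omega)] at h7
        omega
      obtain ⟨w, x, hw, hx, hLw, _⟩ := rthree_lev4 C hR hH hu hp hL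
      have hup : u ≠ p := by
        rintro rfl
        rw [hu] at hp
        have h2 := congrArg card hp
        rw [card_singleton, card_pair hR.eg] at h2
        omega
      have hwx : w ≠ x := by
        rintro rfl
        rw [hw] at hx
        have h2 := congrArg card hx
        rw [card_singleton, card_pair hup] at h2
        omega
      have hcu : corank u = 6 := by
        have := C.cor_Pr (x := u) (y := e) (by rw [hu]; simp)
        have := hR.corE C
        omega
      have hcw : corank w = 7 := by
        have := C.cor_Pr (x := w) (y := u) (by rw [hw]; simp)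
        omega
      have hcx : corank x = 7 := by
        have := C.cor_Pr (x := x) (y := u) (by rw [hx]; simp)
        omega
      have h7' : (lev α 7).card = 2 := h7
      refine rthree_E6 C hR hu hp hL hw hx fun y hy => ?_
      by_contra hcon
      push Not at hcon
      have h4 : ({y, w, x} : Finset α) ⊆ lev α 7 := by
        intro z hz
        simp only [mem_insert, mem_singleton] at hz
        rcases hz with rfl | rfl | rfl
        · exact mem_lev.2 hy
        · exact mem_lev.2 hcw
        · exact mem_lev.2 hcx
      have h5 := card_le_card h4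
      rw [card_eq_three.2 ⟨y, w, x, hcon.1, hcon.2, hwx, rfl⟩] at h5
      omega
    · right
      obtain ⟨s, a, b, c, d, e, g, u, p, w, x, w', hR8⟩ := exists_R8 C h1 h2 h6 h8
      obtain ⟨s', a', b', c', d', e', g', u', p', v, z, v', hR8'⟩ := exists_R8 C.dual
        (fun l hl => by rw [C.sz_dual]; exact h1 l hl) (by rw [C.sz_dual]; exact h2)
        (by rw [C.sz_dual]; exact h6) (by rw [C.sz_dual]; exact h8)
      exact rthree_glue7 C hR8 hR8' (hR8.HT_eq C)

/-- **one maximal element** -/
theorem classify_one (C : Ctx α) :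
    (∃ r s : ℕ, Nonempty (α ≃o (Fin r × Fin s))) ∨
      (∃ r : ℕ, Nonempty (α ≃o LowerSet (Fin 2 × Fin r))) ∨
      (∃ r : ℕ, Nonempty (α ≃o (Fin r ⊕ₗ ((Fin 2 × Fin 2) ⊕ₗ Fin r)))) ∨
      Nonempty (α ≃o LowerSet (LowerSet (Fin 2 × Fin 3))) ∨
      Nonempty (α ≃o LowerSet (LowerSet (LowerSet (Fin 2 × Fin 3)))) := by
  have hex : ∃ l, sz α l ≠ 1 := ⟨HT α, by rw [sz_eq_zero le_rfl]; omega⟩
  obtain ⟨r, hr, hmin⟩ : ∃ r, sz α r ≠ 1 ∧ ∀ l < r, sz α l = 1 := by
    refine ⟨Nat.find hex, Nat.find_spec hex, fun l hl => ?_⟩
    have := Nat.find_min hex hl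
    push Not at this
    exact this
  have hr0 : 0 < r := by
    rcases Nat.eq_zero_or_pos r with h | h
    · rw [h] at hr
      exact absurd C.one hr
    · exact h
  rcases Nat.lt_or_ge r (HT α) with hrH | hrH
  · have h1 := C.dbl_ch (i := r - 1) (by omega)
    rw [show r - 1 + 1 = r from by omega] at h1
    have h2 : ((lev α (r - 1)).filter fun x => (Ch x).card = 2).card ≤ (lev α (r - 1)).card :=
      card_le_card (filter_subset _ _)
    have h3 : (lev α (r - 1)).card = 1 := hmin (r - 1) (by omega)
    have h4 : sz α r = 2 := by omega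
    have h5 : r = 1 ∨ r = 2 ∨ 3 ≤ r := by omega
    rcases h5 with rfl | rfl | h5
    · exact Or.inl (rone C h4)
    · exact Or.inr (Or.inl (rtwo C (hmin 1 (by omega)) h4))
    · exact Or.inr (Or.inr (rthree C h5 hmin h4))
  · left
    have hrH' : r = HT α := by
      rcases eq_or_lt_of_le hrH with h | h
      · exact h.symm
      · have := hmin (HT α) h
        rw [sz_eq_zero le_rfl] at this
        omega
    subst hrH'
    have hcov : ∀ x y : α, corank x = corank y + 1 → x ⋖ y := fun x y hxy =>
      C.covBy_of_sz (hmin _ (corank_lt_HT y)) hxy rfl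
    have hlt : ∀ x y : α, x < y ↔ corank y < corank x := by
      intro x y
      constructor
      · exact corank_lt
      · intro h4
        have key : ∀ n : ℕ, ∀ x : α, corank x = corank y + n + 1 → x < y := by
          intro n
          induction n with
          | zero => exact fun x hx => (hcov x y (by omega)).lt
          | succ n ih =>
            intro x hx
            obtain ⟨z, hz⟩ := card_pos.1 (C.pr_pos (x := x) (by omega))
            have h5 := C.cor_Pr hz
            exact (Gauss.mem_Pr.1 hz).lt.trans (ih z (by omega))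
        exact key (corank x - corank y - 1) x (by omega)
    refine ⟨1, HT α, modelChain (HT α) hlt fun v => ?_⟩
    split_ifs with h
    · exact hmin v h
    · exact sz_eq_zero (α := α) (by omega)

end Pool.Gauss
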