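import Pool.Agent.Work.MP_065141_co.Cfg

/-!
# The leading relation at a level

For every `J ≥ 1` the signed number of matchings with `J` elements, formed by the pairs of children
of the elements above level `i` and the pairs of parents of the elements below level `i`, is zero.
-/

set_option autoImplicit false
set_option linter.unusedSectionVars false
set_option linter.unusedVariables false
open scoped Classical
open Finset Polynomial

namespace Pool.Gauss

variable {α : Type} [Fintype α] [PartialOrder α] {i : ℕ}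

/-- the elements which dominate a nearer neighbour -/
noncomputable def Psh (i : ℕ) (ε : α → ℕ) : Finset α :=
  univ.filter fun q => ∃ p, fr i p q ∧ ε p < ε q

lemma mem_Psh {ε : α → ℕ} {q : α} : q ∈ Psh i ε ↔ ∃ p, fr i p q ∧ ε p < ε q := by
  simp [Psh]

/-- the loss of free elements is at most the number of dominating elements -/
theorem loss_le (hg : Grad α) (hl : HasLower α i) (hdeg : ∀ p : α, (bd i p).card ≤ 2)
    {ε : α → ℕ} (hε : GoodE i ε) :
    (Yd i ε).card ≤ (Fo i ε).card + (Psh i ε).card := by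
  set Act : Finset α := univ.filter fun q => corank q ≠ i ∧ ¬ nd i ε q with hAct
  have hS := goodS_of_goodE hg hl hε
  -- the dominated elements
  have h1 : (Yd i ε ∪ Fd i ε).card = (Yd i ε).card + (Fd i ε).card := by
    apply card_union_of_disjoint
    rw [Finset.disjoint_left]
    intro p hp hp'
    rw [mem_Yd] at hp
    rw [Fd, mem_filter] at hp'
    exact hp'.2.1 hp.1
  have h2 : Act.card = (Fd i ε).card + (Fo i ε).card := by
    rw [← card_union_of_disjoint]
    · congr 1
      ext p
      rw [hAct, mem_filter, mem_union, Fd, Fo, mem_filter, mem_filter]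
      simp only [mem_univ, true_and]
      have := hS.1 p
      tauto
    · rw [Finset.disjoint_left]
      intro p hp hp'
      rw [Fd, mem_filter] at hp
      rw [Fo, mem_filter] at hp'
      exact hp'.2.2.1 hp.2.2
  have h3 : Yd i ε ∪ Fd i ε ⊆
      (Psh i ε).biUnion fun q => (bd i q).filter fun p => ε p < ε q := by
    intro p hp
    have h4 : fd i ε p := by
      rw [mem_union] at hp
      rcases hp with hp | hp
      · rw [mem_Yd] at hp
        exact hp.2
      · rw [Fd, mem_filter] at hp
        exact hp.2.2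
    obtain ⟨q, hq, hq'⟩ := h4
    rw [mem_biUnion]
    exact ⟨q, mem_Psh.2 ⟨p, hq, hq'⟩, mem_filter.2 ⟨mem_bd.2 hq, hq'⟩⟩
  have h4 : ∀ q ∈ Psh i ε, ((bd i q).filter fun p => ε p < ε q).card ≤
      1 + if q ∈ Act then 1 else 0 := by
    intro q hq
    have h5 := hdeg q
    have h6 : ((bd i q).filter fun p => ε p < ε q).card ≤ (bd i q).card := card_filter_le _ _
    split_ifs with h7
    · omega
    · obtain ⟨p, hp, _⟩ := mem_Psh.1 hq
      have h8 : nd i ε q := by
        by_contra h9
        exact h7 (by rw [hAct, mem_filter]; exact ⟨mem_univ _, fr_ne hg hp, h9⟩)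
      obtain ⟨t, ht, ht'⟩ := h8
      have h9 : ((bd i q).filter fun p => ε p < ε q) ⊆ (bd i q).erase t := by
        intro s hs
        rw [mem_filter] at hs
        rw [mem_erase]
        refine ⟨?_, hs.1⟩
        rintro rfl
        omega
      have h10 := card_le_card h9
      rw [card_erase_of_mem (mem_bd.2 ht)] at h10
      omega
  have h5 : (Yd i ε).card + (Fd i ε).card ≤ (Psh i ε).card + Act.card := by
    rw [← h1]
    calc (Yd i ε ∪ Fd i ε).card ≤ ((Psh i ε).biUnion fun q =>
          (bd i q).filter fun p => ε p < ε q).card := card_le_card h3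
      _ ≤ ∑ q ∈ Psh i ε, ((bd i q).filter fun p => ε p < ε q).card := card_biUnion_le
      _ ≤ ∑ q ∈ Psh i ε, (1 + if q ∈ Act then 1 else 0) := Finset.sum_le_sum h4
      _ = (Psh i ε).card + ((Psh i ε).filter fun q => q ∈ Act).card := by
          rw [Finset.sum_add_distrib, ← Finset.card_eq_sum_ones, Finset.sum_boole]
          simp
      _ ≤ (Psh i ε).card + Act.card := by
          apply Nat.add_le_add_left
          apply card_le_card
          intro q hq
          exact (mem_filter.1 hq).2
  omega

lemma card_Psh_le {ε : α → ℕ} : (Psh i ε).card ≤ ∑ p, ε p := by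
  apply card_le_sum
  intro p hp
  obtain ⟨q, _, hq⟩ := mem_Psh.1 hp
  omega

/-- the sets of double elements next to level `i` with disjoint pairs -/
def Mch (i : ℕ) (A : Finset α) : Prop :=
  (∀ p ∈ A, ds i p = 1 ∧ (bd i p).card = 2) ∧
    ∀ p ∈ A, ∀ p' ∈ A, p ≠ p' → Disjoint (bd i p) (bd i p')

lemma Mch.card_biUnion {A : Finset α} (hA : Mch i A) : (A.biUnion (bd i)).card = 2 * A.card := by
  rw [Finset.card_biUnion (fun p hp p' hp' h => hA.2 p hp p' hp' h),
    Finset.sum_congr rfl fun p hp => (hA.1 p hp).2, Finset.sum_const, smul_eq_mul, mul_comm]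

lemma Mch.two_card_le (hg : Grad α) {A : Finset α} (hA : Mch i A) :
    2 * A.card ≤ (lev α i).card := by
  rw [← hA.card_biUnion]
  apply card_le_card
  intro y hy
  rw [mem_biUnion] at hy
  obtain ⟨p, hp, hy⟩ := hy
  exact mem_lev.2 (bd_lev hg (hA.1 p hp).1 hy)

lemma Mch.mono {A B : Finset α} (hA : Mch i A) (hB : B ⊆ A) : Mch i B :=
  ⟨fun p hp => hA.1 p (hB hp), fun p hp p' hp' => hA.2 p (hB hp) p' (hB hp')⟩

/-- good energy functions of maximal loss -/
theorem mch_of_loss (hg : Grad α) (hl : HasLower α i) (hdeg : ∀ p : α, (bd i p).card ≤ 2)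
    {ε : α → ℕ} (hε : GoodE i ε) (hloss : ∑ p, ε p + (Fo i ε).card ≤ (Yd i ε).card) :
    ∃ A, Mch i A ∧ ε = ind A := by
  have h1 := loss_le hg hl hdeg hε
  have h2 := card_Psh_le (i := i) (ε := ε)
  have hpos : ∀ p ∈ Psh i ε, 0 < ε p := by
    intro p hp
    obtain ⟨q, _, hq⟩ := mem_Psh.1 hp
    omega
  have h3 : ε = ind (Psh i ε) := eq_ind hpos (by omega)
  have hds : ∀ q ∈ Psh i ε, ds i q = 1 := by
    intro q hq
    obtain ⟨p, hp, hp'⟩ := mem_Psh.1 hq
    have h4 := fr_ds hg hp
    by_contra h5
    have h6 : corank p ≠ i := by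
      intro h7
      rw [ds_eq_zero.2 h7] at h4
      omega
    have h7 := closure hg hl hε hp h6 (hpos q hq)
    have h8 : ε q = 1 := by
      rw [h3, ind_mem hq]
    omega
  set A := Psh i ε with hA
  have hQ : ∀ q ∈ (∅ : Finset α), ds i q = 2 := by simp
  have hZ : ∀ y ∈ (∅ : Finset α), corank y = i := by simp
  have hQA : ∀ q ∈ (∅ : Finset α), bd i q ⊆ A := by simp
  have he : ∅ ∪ A ∪ ∅ = A := by rw [empty_union, union_empty]
  have hFo := cfg_Fo hg hl hQ hds hZ hQA
  have hYd := cfg_Yd hg hQ hds hZ
  rw [he] at hFo hYd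
  rw [← h3] at hFo hYd
  have hFo' : (A.filter fun p => Disjoint (bd i p) (∅ : Finset α)) = A :=
    Finset.filter_true_of_mem fun p _ => Finset.disjoint_empty_right _
  rw [hFo'] at hFo
  rw [sdiff_empty] at hYd
  have hcard : (A.biUnion (bd i)).card = 2 * A.card := by
    have h4 : (A.biUnion (bd i)).card ≤ ∑ p ∈ A, (bd i p).card := card_biUnion_le
    have h5 : ∑ p ∈ A, (bd i p).card ≤ ∑ p ∈ A, 2 := Finset.sum_le_sum fun p _ => hdeg p
    rw [Finset.sum_const, smul_eq_mul] at h5
    have h6 : ∑ p, ε p = A.card := by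
      conv_lhs => rw [h3]
      exact sum_ind A
    have h7 : (Fo i ε).card = A.card := by rw [hFo]
    have h8 : (Yd i ε).card = (A.biUnion (bd i)).card := by rw [hYd]
    omega
  have herase : ∀ b ∈ A, ((A.erase b).biUnion (bd i)).card ≤ 2 * (A.card - 1) := by
    intro b hb
    have h4 : ((A.erase b).biUnion (bd i)).card ≤ ∑ p ∈ A.erase b, (bd i p).card :=
      card_biUnion_le
    have h5 : ∑ p ∈ A.erase b, (bd i p).card ≤ ∑ p ∈ A.erase b, 2 :=
      Finset.sum_le_sum fun p _ => hdeg p
    rw [Finset.sum_const, smul_eq_mul, card_erase_of_mem hb] at h5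
    omega
  refine ⟨A, ⟨fun p hp => ⟨hds p hp, ?_⟩, ?_⟩, h3⟩
  · have h4 : A.biUnion (bd i) ⊆ (A.erase p).biUnion (bd i) ∪ bd i p := by
      intro y hy
      rw [mem_biUnion] at hy
      obtain ⟨q, hq, hy⟩ := hy
      rw [mem_union, mem_biUnion]
      by_cases h5 : q = p
      · right
        rw [← h5]
        exact hy
      · left
        exact ⟨q, mem_erase.2 ⟨h5, hq⟩, hy⟩
    have h5 := (card_le_card h4).trans (card_union_le _ _)
    have h6 := herase p hp
    have h7 := hdeg p
    have h8 := Finset.card_pos.2 ⟨p, hp⟩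
    omega
  · intro a ha b hb hab
    rw [Finset.disjoint_left]
    intro y hya hyb
    have h4 : A.biUnion (bd i) ⊆ (A.erase b).biUnion (bd i) ∪ (bd i b).erase y := by
      intro t ht
      rw [mem_biUnion] at ht
      obtain ⟨q, hq, ht⟩ := ht
      rw [mem_union, mem_biUnion, mem_erase]
      by_cases h5 : q = b
      · by_cases h6 : t = y
        · left
          exact ⟨a, mem_erase.2 ⟨hab, ha⟩, by rw [h6]; exact hya⟩
        · right
          exact ⟨h6, by rw [← h5]; exact ht⟩
      · left
        exact ⟨q, mem_erase.2 ⟨h5, hq⟩, ht⟩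
    have h5 := (card_le_card h4).trans (card_union_le _ _)
    rw [card_erase_of_mem hyb] at h5
    have h6 := herase b hb
    have h7 := hdeg b
    have h8 := Finset.card_pos.2 ⟨b, hb⟩
    omega

/-- the energy functions of the matchings -/
lemma Mch.data (hg : Grad α) (hl : HasLower α i) {A : Finset α} (hA : Mch i A) :
    GoodE i (ind A) ∧ (pkF i (ind A)).card + A.card = (lev α i).card ∧
      (-1 : ℤ) ^ (inF i (ind A)).card = (-1) ^ (low α i).card *
        (-1) ^ (A.filter fun p => corank p < i).card := by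
  have hQ : ∀ q ∈ (∅ : Finset α), ds i q = 2 := by simp
  have hds : ∀ p ∈ A, ds i p = 1 := fun p hp => (hA.1 p hp).1
  have hZ : ∀ y ∈ (∅ : Finset α), corank y = i := by simp
  have hQA : ∀ q ∈ (∅ : Finset α), bd i q ⊆ A := by simp
  have hside : ∀ p ∈ A, ∀ p' ∈ A, corank p < i → i < corank p' →
      ∀ y, y ∈ bd i p → y ∈ bd i p' → y ∈ (∅ : Finset α) := by
    intro p hp p' hp' h1 h2 y hy hy'
    exfalso
    have h3 : p ≠ p' := by
      rintro rfl
      omega
    exact Finset.disjoint_left.1 (hA.2 p hp p' hp' h3) hy hy'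
  have he : ∅ ∪ A ∪ ∅ = A := by rw [empty_union, union_empty]
  have h1 := cfg_good hg hl hQ hds hZ hQA hside
  have h2 := cfg_free hg hl hQ hds hZ hQA hside rfl
  rw [he] at h1 h2
  have h3 := hA.card_biUnion
  refine ⟨h1, by omega, ?_⟩
  rw [h2.2, (hA.mono (filter_subset _ _)).card_biUnion, pow_mul (-1 : ℤ) 2]
  norm_num

/-- **the leading relation**: the signed numbers of matchings vanish -/
theorem lead {h : Fin (Fintype.card α) → ℕ} (hG : IsGaussianWith α h) (hl : HasLower α i)
    (hdeg : ∀ p : α, (bd i p).card ≤ 2) {J : ℕ} (hJ : 1 ≤ J) :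
    ∑ A ∈ (univ : Finset (Finset α)).filter (fun A => Mch i A ∧ A.card = J),
      (-1 : ℤ) ^ (A.filter fun p => corank p < i).card = 0 := by
  have hg := grad hG
  rcases Nat.lt_or_ge (lev α i).card J with hJn | hJn
  · rw [Finset.filter_false_of_mem, Finset.sum_empty]
    rintro A _ ⟨h1, h2⟩
    have := h1.two_card_le hg
    omega
  have h1 := root_mult_energy hG hg i J
  have h2 := Polynomial.X_pow_dvd_iff.1 h1 ((lev α i).card - J) (by omega)
  rw [Polynomial.finsetSum_coeff] at h2
  have key : ∀ ε : α → ℕ, ε ∈ (univ : Finset α).piAntidiag J →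
      (tm i ε).coeff ((lev α i).card - J) ≠ 0 →
      ε ∈ ((univ : Finset (Finset α)).filter (fun A => Mch i A ∧ A.card = J)).image ind := by
    intro ε hε hne
    rw [mem_piAntidiag] at hε
    by_cases hgood : GoodE i ε
    · rw [tm, if_pos hgood] at hne
      have h3 : (pkF i ε).card ≤ (lev α i).card - J := by
        by_contra h4
        exact hne (coeff_sub_one_mul_lt (by omega))
      have h4 := card_pkF hg hl hgood
      have h5 := loss_le hg hl hdeg hgood
      have h6 := card_Psh_le (i := i) (ε := ε)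
      have h7 : ∑ p, ε p = J := hε.1
      obtain ⟨A, hA, hA'⟩ := mch_of_loss hg hl hdeg hgood (by omega)
      rw [mem_image]
      refine ⟨A, ?_, hA'.symm⟩
      rw [mem_filter]
      refine ⟨mem_univ _, hA, ?_⟩
      rw [← h7, hA', sum_ind]
    · rw [tm, if_neg hgood, coeff_zero] at hne
      exact absurd rfl hne
  rw [← Finset.sum_subset (s₁ := ((univ : Finset (Finset α)).filter
      (fun A => Mch i A ∧ A.card = J)).image ind)] at h2
  · rw [Finset.sum_image (fun A _ B _ hAB => ind_inj hAB)] at h2
    have h3 : ∀ A ∈ (univ : Finset (Finset α)).filter (fun A => Mch i A ∧ A.card = J),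
        (tm i (ind A)).coeff ((lev α i).card - J) =
          (-1) ^ (low α i).card * (-1) ^ (A.filter fun p => corank p < i).card := by
      intro A hA
      rw [mem_filter] at hA
      obtain ⟨h4, h5, h6⟩ := hA.2.1.data hg hl
      rw [tm, if_pos h4, ← h6]
      have h7 : (lev α i).card - J = (pkF i (ind A)).card := by
        have := hA.2.2
        omega
      rw [h7, coeff_sub_one_mul_self]
    rw [Finset.sum_congr rfl h3, ← Finset.mul_sum] at h2
    rcases mul_eq_zero.1 h2 with h4 | h4
    · exact absurd h4 (pow_ne_zero _ (by norm_num))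
    · exact h4
  · intro ε hε
    rw [mem_image] at hε
    obtain ⟨A, hA, rfl⟩ := hε
    rw [mem_filter] at hA
    rw [mem_piAntidiag]
    exact ⟨by rw [sum_ind]; exact hA.2.2, fun _ _ => mem_univ _⟩
  · intro ε hε hnot
    by_contra h3
    exact hnot (key ε hε h3)

end Pool.Gauss
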