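import Pool.Agent.Gauss35.Second6
import Pool.Agent.Work.MP_065141_co.Arith

/-!
# Local language: upper covers, lower covers, levels
-/

set_option autoImplicit false
set_option linter.unusedSectionVars false
open scoped Classical
open Finset

namespace Pool.Gauss

variable {α : Type} [Fintype α] [PartialOrder α]

/-- the standing assumptions: connected, Gaussian, one maximal element -/
structure Ctx (α : Type) [Fintype α] [PartialOrder α] : Prop where
  gauss : ∃ h : Fin (Fintype.card α) → ℕ, IsGaussianWith α h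
  conn : Conn α
  one : (lev α 0).card = 1

/-- upper covers -/
noncomputable def Pr (x : α) : Finset α := univ.filter fun y => x ⋖ y

/-- lower covers -/
noncomputable def Ch (x : α) : Finset α := univ.filter fun y => y ⋖ x

/-- upper covers of upper covers -/
noncomputable def Pr2 (x : α) : Finset α := (Pr x).biUnion Pr

/-- lower covers of lower covers -/
noncomputable def Ch2 (x : α) : Finset α := (Ch x).biUnion Ch

variable (α) in
/-- level sizes -/
noncomputable def sz (i : ℕ) : ℕ := (lev α i).card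

variable (α) in
/-- number of levels (for a nonempty poset) -/
noncomputable def HT : ℕ := (univ : Finset α).sup corank + 1

lemma mem_Pr {x y : α} : y ∈ Pr x ↔ x ⋖ y := by simp [Pr]
lemma mem_Ch {x y : α} : y ∈ Ch x ↔ y ⋖ x := by simp [Ch]
lemma mem_Pr_iff {x y : α} : y ∈ Pr x ↔ x ∈ Ch y := by rw [mem_Pr, mem_Ch]

lemma mem_Pr2 {x y : α} : y ∈ Pr2 x ↔ ∃ z, x ⋖ z ∧ z ⋖ y := by
  unfold Pr2
  rw [mem_biUnion]
  constructor
  · rintro ⟨z, h1, h2⟩
    exact ⟨z, mem_Pr.1 h1, mem_Pr.1 h2⟩
  · rintro ⟨z, h1, h2⟩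
    exact ⟨z, mem_Pr.2 h1, mem_Pr.2 h2⟩

lemma mem_Ch2 {x y : α} : y ∈ Ch2 x ↔ ∃ z, z ⋖ x ∧ y ⋖ z := by
  unfold Ch2
  rw [mem_biUnion]
  constructor
  · rintro ⟨z, h1, h2⟩
    exact ⟨z, mem_Ch.1 h1, mem_Ch.1 h2⟩
  · rintro ⟨z, h1, h2⟩
    exact ⟨z, mem_Ch.2 h1, mem_Ch.2 h2⟩

lemma corank_lt_HT (x : α) : corank x < HT α := by
  unfold HT
  have := Finset.le_sup (f := corank) (mem_univ x)
  omega

lemma sz_eq_zero {i : ℕ} (h : HT α ≤ i) : sz α i = 0 := by
  unfold sz
  rw [card_eq_zero, ← not_nonempty_iff_eq_empty]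
  rintro ⟨x, hx⟩
  rw [mem_lev] at hx
  have := corank_lt_HT x
  omega

namespace Ctx

variable (C : Ctx α)
include C

lemma grd : Grad α := by
  obtain ⟨h, hG⟩ := C.gauss
  exact grad hG

lemma cork {x y : α} (h : x ⋖ y) : corank x = corank y + 1 := C.grd x y h

lemma nonempty : Nonempty α := by
  have h1 : 0 < (lev α 0).card := by
    have := C.one
    omega
  obtain ⟨x, _⟩ := card_pos.1 h1
  exact ⟨x⟩

lemma exists_lev {i : ℕ} (hi : i < HT α) : ∃ x : α, corank x = i := by
  haveI := C.nonempty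
  obtain ⟨x, _, hx⟩ := Finset.exists_mem_eq_sup (univ : Finset α) univ_nonempty corank
  unfold HT at hi
  rcases Nat.lt_or_ge i (corank x) with h | h
  · obtain ⟨y, _, hy⟩ := exists_gt_corank h
    exact ⟨y, hy⟩
  · exact ⟨x, by omega⟩

lemma sz_pos {i : ℕ} (hi : i < HT α) : 0 < sz α i := by
  obtain ⟨x, hx⟩ := C.exists_lev hi
  exact card_pos.2 ⟨x, mem_lev.2 hx⟩

lemma covBy_of_lt {x y : α} (h : x < y) (h1 : corank x = corank y + 1) : x ⋖ y := by
  refine ⟨h, fun z h2 h3 => ?_⟩
  have := corank_lt h2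
  have := corank_lt h3
  omega

lemma up_eq {x : α} {i : ℕ} (h : corank x = i + 1) : up i x = Pr x := by
  ext y
  rw [mem_up, mem_Pr]
  constructor
  · rintro ⟨h1, h2⟩
    exact C.covBy_of_lt h2 (by omega)
  · intro h1
    have := C.cork h1
    exact ⟨by omega, h1.lt⟩

lemma dn_eq {z : α} {i : ℕ} (h : corank z + 1 = i) : dn i z = Ch z := by
  ext y
  rw [mem_dn, mem_Ch]
  constructor
  · rintro ⟨h1, h2⟩
    exact C.covBy_of_lt h2 (by omega)
  · intro h1
    have := C.cork h1
    exact ⟨by omega, h1.lt⟩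

lemma pr_le (x : α) : (Pr x).card ≤ 2 := by
  obtain ⟨h, hG⟩ := C.gauss
  exact (covers_le_two hG C.conn x).2

lemma ch_le (x : α) : (Ch x).card ≤ 2 := by
  obtain ⟨h, hG⟩ := C.gauss
  exact (covers_le_two hG C.conn x).1

lemma pr_pos {x : α} (h : 0 < corank x) : 0 < (Pr x).card := by
  obtain ⟨y, hy, _⟩ := exists_gt_corank h
  obtain ⟨z, hz, _⟩ := exists_covBy_of_lt hy
  exact card_pos.2 ⟨z, mem_Pr.2 hz⟩

lemma ch_pos {x : α} (h : corank x + 1 < HT α) : 0 < (Ch x).card := by
  obtain ⟨hh, hG⟩ := C.gauss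
  obtain ⟨w, hw⟩ := C.exists_lev h
  have h1 := (degrees hG C.conn (i := corank x + 1) (w := w) (mem_lev.2 hw)).1 x (mem_lev'.2 rfl)
  rw [C.dn_eq rfl] at h1
  omega

lemma pr_cases {x : α} (h : 0 < corank x) : (Pr x).card = 1 ∨ (Pr x).card = 2 := by
  have := C.pr_le x
  have := C.pr_pos h
  omega

lemma ch_cases {x : α} (h : corank x + 1 < HT α) : (Ch x).card = 1 ∨ (Ch x).card = 2 := by
  have := C.ch_le x
  have := C.ch_pos h
  omega

/-- number of elements of level `i + 1` with two upper covers -/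
lemma dbl_pr {i : ℕ} (hi : i < HT α) :
    ((lev α (i + 1)).filter fun x => (Pr x).card = 2).card + 1 = sz α i := by
  obtain ⟨h, hG⟩ := C.gauss
  obtain ⟨w, hw⟩ := C.exists_lev hi
  have h1 := (branching hG C.conn (mem_lev.2 hw)).2
  rw [C.one] at h1
  unfold sz
  rw [← h1]
  congr 2
  apply filter_congr
  intro x hx
  rw [C.up_eq (mem_lev.1 hx)]

/-- number of elements of level `i` with two lower covers -/
lemma dbl_ch {i : ℕ} (hi : i + 1 < HT α) :
    ((lev α i).filter fun x => (Ch x).card = 2).card + 1 = sz α (i + 1) := by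
  obtain ⟨h, hG⟩ := C.gauss
  obtain ⟨w, hw⟩ := C.exists_lev hi
  have h1 := (branching hG C.conn (mem_lev.2 hw)).1
  rw [C.one] at h1
  unfold sz
  rw [← h1]
  congr 2
  ext x
  rw [mem_filter, mem_filter, mem_lev, mem_lev']
  constructor
  · rintro ⟨h2, h3⟩
    refine ⟨by omega, ?_⟩
    rw [C.dn_eq (by omega)]
    exact h3
  · rintro ⟨h2, h3⟩
    rw [C.dn_eq (by omega)] at h3
    exact ⟨by omega, h3⟩

/-- number of elements of level `i + 1` with one upper cover -/
lemma sgl_pr {i : ℕ} (hi : i < HT α) :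
    ((lev α (i + 1)).filter fun x => (Pr x).card = 1).card + sz α i = sz α (i + 1) + 1 := by
  have h1 := C.dbl_pr hi
  have h2 : ((lev α (i + 1)).filter fun x => (Pr x).card = 1).card +
      ((lev α (i + 1)).filter fun x => (Pr x).card = 2).card = sz α (i + 1) := by
    unfold sz
    rw [← card_union_of_disjoint]
    · congr 1
      ext x
      rw [mem_union, mem_filter, mem_filter]
      constructor
      · rintro (h | h)
        · exact h.1
        · exact h.1
      · intro h
        rw [mem_lev] at h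
        rcases C.pr_cases (x := x) (by omega) with h3 | h3
        · exact Or.inl ⟨mem_lev.2 h, h3⟩
        · exact Or.inr ⟨mem_lev.2 h, h3⟩
    · rw [Finset.disjoint_left]
      intro x h3 h4
      rw [mem_filter] at h3 h4
      omega
  omega

/-- number of elements of level `i` with one lower cover -/
lemma sgl_ch {i : ℕ} (hi : i + 1 < HT α) :
    ((lev α i).filter fun x => (Ch x).card = 1).card + sz α (i + 1) = sz α i + 1 := by
  have h1 := C.dbl_ch hi
  have h2 : ((lev α i).filter fun x => (Ch x).card = 1).card +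
      ((lev α i).filter fun x => (Ch x).card = 2).card = sz α i := by
    unfold sz
    rw [← card_union_of_disjoint]
    · congr 1
      ext x
      rw [mem_union, mem_filter, mem_filter]
      constructor
      · rintro (h | h)
        · exact h.1
        · exact h.1
      · intro h
        rw [mem_lev] at h
        rcases C.ch_cases (x := x) (by omega) with h3 | h3
        · exact Or.inl ⟨mem_lev.2 h, h3⟩
        · exact Or.inr ⟨mem_lev.2 h, h3⟩
    · rw [Finset.disjoint_left]
      intro x h3 h4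
      rw [mem_filter] at h3 h4
      omega
  omega

end Ctx

end Pool.Gauss
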