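import Pool.Agent.Work.MP_065141_co.Count2

/-!
# MODULE MOD: the models of the classification
-/

set_option autoImplicit false
open scoped Classical
open Finset

namespace Pool.Gauss

/-- a bijection between finite posets preserving the cover relation is an isomorphism -/
theorem orderIso_of_covBy {α β : Type} [Fintype α] [PartialOrder α] [Fintype β] [PartialOrder β]
    (f : α ≃ β) (h : ∀ x y, x ⋖ y ↔ f x ⋖ f y) : Nonempty (α ≃o β) := by
  refine ⟨⟨f, ?_⟩⟩
  intro a b
  have h1 : Monotone f := (monotone_iff_covBy _).2 fun a b hab => ((h a b).1 hab).le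
  have h2 : Monotone f.symm := (monotone_iff_covBy _).2 fun a b hab => by
    refine ((h _ _).2 ?_).le
    rwa [f.apply_symm_apply, f.apply_symm_apply]
  constructor
  · intro hab
    have := h2 hab
    rwa [f.symm_apply_apply, f.symm_apply_apply] at this
  · exact fun hab => h1 hab

/-- a bijection preserving `≤` one way each -/
theorem orderIso_of_rank {α β : Type} [Fintype α] [PartialOrder α] [Fintype β] [PartialOrder β]
    (f : α → ℕ) (g : β → ℕ) (hf : ∀ x y, x < y ↔ f y < f x) (hg : ∀ x y, x < y ↔ g y < g x)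
    (hc : ∀ v, (univ.filter fun x => f x = v).card = (univ.filter fun x => g x = v).card) :
    Nonempty (α ≃o β) := by
  have h1 : ∀ v : ℕ, Nonempty ({x // f x = v} ≃ {y // g y = v}) := by
    intro v
    rw [← Fintype.card_eq, Fintype.card_subtype, Fintype.card_subtype]
    exact hc v
  let e := Equiv.ofFiberEquiv (f := f) (g := g) (fun v => Classical.choice (h1 v))
  have he : ∀ x, g (e x) = f x := fun x => Equiv.ofFiberEquiv_map (g := g) _ x
  refine ⟨⟨e, ?_⟩⟩
  intro a b
  constructor
  · intro hab
    rcases eq_or_lt_of_le hab with h2 | h2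
    · exact (e.injective h2).le
    · rw [hg, he, he, ← hf] at h2
      exact h2.le
  · intro hab
    rcases eq_or_lt_of_le hab with h2 | h2
    · rw [h2]
    · rw [hf, ← he, ← he, ← hg] at h2
      exact h2.le

/-! ### lower sets of an explicit poset -/

/-- an explicit list of the lower sets of a poset given by a table of lower covers -/
theorem lowerSet_model {P : Type} [Fintype P] [PartialOrder P] (dn L : List ℕ)
    (e : Fin dn.length ≃ P)
    (he : ∀ j k : Fin dn.length, e k ⋖ e j ↔ (dn.get j).testBit k = true)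
    (hb : ∀ k : Fin dn.length, dn.get k < 2 ^ k.val) (hL : L.Perm (flt dn)) :
    ∃ e' : Fin L.length ≃ LowerSet P, ∀ i j : Fin L.length,
      e' i ≤ e' j ↔ Nat.beq (Nat.land (L.get i) (L.get j)) (L.get i) = true := by
  have hb' : ∀ k, ∀ hk : k < dn.length, dn[k] < 2 ^ k := fun k hk => hb ⟨k, hk⟩
  -- the dual order
  have he2 : ∀ j k : Fin dn.length, (e.trans OrderDual.toDual) j ⋖ (e.trans OrderDual.toDual) k ↔
      (dn.get j).testBit k = true := by
    intro j k
    rw [← he j k]
    simp
  have hcl : ∀ f, f ∈ L ↔ Clo dn f := by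
    intro f
    rw [hL.mem_iff, mem_flt hb']
  have hnd : L.Nodup := hL.nodup_iff.2 (flt_nodup hb')
  have hlow : ∀ f, f ∈ L → ∀ x y : P, x ≤ y → f.testBit (e.symm y) = true →
      f.testBit (e.symm x) = true := by
    intro f hf
    have h1 := (hcl f).1 hf
    have h2 := (clo_iff dn _ he2 hb' h1.1).1 h1
    have h3 : Antitone (fun x : P => decide (f.testBit (e.symm x) = true)) := by
      have h4 : Monotone (fun x : Pᵒᵈ => decide (f.testBit (e.symm (OrderDual.ofDual x)) = true)) := by
        rw [monotone_iff_covBy]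
        intro a b hab
        have h5 := h2 a b hab
        simp only [Equiv.symm_trans_apply, OrderDual.toDual_symm_eq] at h5
        rw [Bool.le_iff_imp]
        simpa using h5
      intro a b hab
      exact h4 (a := OrderDual.toDual b) (b := OrderDual.toDual a) hab
    intro x y hxy hy
    have h4 := h3 hxy
    simp only [Bool.le_iff_imp, decide_eq_true_eq] at h4
    exact h4 hy
  let F : Fin L.length → LowerSet P := fun i =>
    ⟨{x | (L.get i).testBit (e.symm x) = true}, fun y x hxy hy =>
      hlow (L.get i) (List.get_mem L i) x y hxy hy⟩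
  have hFmem : ∀ i x, x ∈ F i ↔ (L.get i).testBit (e.symm x) = true := fun i x => Iff.rfl
  have hlt : ∀ i, L.get i < 2 ^ dn.length := fun i => ((hcl _).1 (List.get_mem L i)).1
  have hle : ∀ i j, F i ≤ F j ↔ Nat.beq (Nat.land (L.get i) (L.get j)) (L.get i) = true := by
    intro i j
    rw [land_eq_left_iff]
    constructor
    · intro h b hbit
      have hb2 : b < dn.length := by
        by_contra h0
        rw [Nat.testBit_lt_two_pow (lt_of_lt_of_le (hlt i)
          (Nat.pow_le_pow_right (by norm_num) (not_lt.1 h0)))] at hbit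
        exact absurd hbit (by simp)
      have h1 : e ⟨b, hb2⟩ ∈ F i := by
        rw [hFmem, e.symm_apply_apply]
        exact hbit
      have h2 := h h1
      rw [SetLike.mem_coe, hFmem, e.symm_apply_apply] at h2
      exact h2
    · intro h x hx
      rw [SetLike.mem_coe, hFmem] at hx ⊢
      exact h _ hx
  have hinj : Function.Injective F := by
    intro i j hij
    have h1 := (land_eq_left_iff _ _).1 ((hle i j).1 hij.le)
    have h2 := (land_eq_left_iff _ _).1 ((hle j i).1 hij.ge)
    have h3 : L.get i = L.get j := by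
      apply Nat.eq_of_testBit_eq
      intro b
      rw [Bool.eq_iff_iff]
      exact ⟨h1 b, h2 b⟩
    exact (List.Nodup.get_inj_iff hnd).1 h3
  have hsurj : Function.Surjective F := by
    intro S
    obtain ⟨f, hf, hf'⟩ := exists_mask dn.length (fun i => e i ∈ S)
    have hf2 : ∀ x : P, f.testBit (e.symm x) = true ↔ x ∈ S := by
      intro x
      rw [hf' (e.symm x), e.apply_symm_apply]
    have h1 : f ∈ L := by
      rw [hcl, clo_iff dn _ he2 hb' hf]
      intro x y hxy hx
      have h2 := hf2 (OrderDual.ofDual x)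
      have h3 := hf2 (OrderDual.ofDual y)
      simp only [Equiv.symm_trans_apply, OrderDual.toDual_symm_eq] at hx ⊢
      rw [h3]
      exact S.lower (OrderDual.ofDual_le_ofDual.2 hxy.le) (h2.1 hx)
    obtain ⟨i, hi⟩ := List.get_of_mem h1
    refine ⟨i, ?_⟩
    ext x
    rw [SetLike.mem_coe, SetLike.mem_coe, hFmem, hi, hf2]
  exact ⟨Equiv.ofBijective F ⟨hinj, hsurj⟩, hle⟩

/-- from `≤` to covers by a finite check -/
theorem covBy_table {P : Type} [PartialOrder P] {n : ℕ} (e : Fin n ≃ P)
    (R C : Fin n → Fin n → Bool) (hR : ∀ i j, e i ≤ e j ↔ R i j = true)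
    (hC : ∀ i j, C i j = (R i j && !(R j i) &&
      (List.finRange n).all fun k => !(R i k && !(R k i) && (R k j && !(R j k))))) (i j : Fin n) :
    e i ⋖ e j ↔ C i j = true := by
  have hlt : ∀ i j, e i < e j ↔ (R i j && !(R j i)) = true := by
    intro i j
    rw [lt_iff_le_not_ge, hR, hR, Bool.and_eq_true]
    simp
  rw [hC, Bool.and_eq_true, ← hlt, List.all_eq_true]
  constructor
  · intro h
    refine ⟨h.lt, fun k _ => ?_⟩
    rw [Bool.not_eq_true', Bool.eq_false_iff]
    intro h0
    rw [Bool.and_eq_true, ← hlt, ← hlt] at h0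
    exact h.2 h0.1 h0.2
  · rintro ⟨h1, h2⟩
    refine ⟨h1, fun c hc hc' => ?_⟩
    obtain ⟨k, rfl⟩ := e.surjective c
    have h3 := h2 k (List.mem_finRange k)
    rw [Bool.not_eq_true', Bool.eq_false_iff] at h3
    apply h3
    rw [Bool.and_eq_true, ← hlt, ← hlt]
    exact ⟨hc, hc'⟩

/-- the cover relation of the poset of lower sets, listed in any order -/
theorem lowerSet_covBy {P : Type} [Fintype P] [PartialOrder P] (dn L : List ℕ)
    (e : Fin dn.length ≃ P)
    (he : ∀ j k : Fin dn.length, e k ⋖ e j ↔ (dn.get j).testBit k = true)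
    (hb : ∀ k : Fin dn.length, dn.get k < 2 ^ k.val) (hL : L.Perm (flt dn))
    (C : Fin L.length → Fin L.length → Bool)
    (hC : ∀ i j : Fin L.length, C i j =
      (Nat.beq (Nat.land (L.get i) (L.get j)) (L.get i) &&
        !(Nat.beq (Nat.land (L.get j) (L.get i)) (L.get j)) &&
      (List.finRange L.length).all fun k =>
        !(Nat.beq (Nat.land (L.get i) (L.get k)) (L.get i) &&
          !(Nat.beq (Nat.land (L.get k) (L.get i)) (L.get k)) &&
          (Nat.beq (Nat.land (L.get k) (L.get j)) (L.get k) &&
            !(Nat.beq (Nat.land (L.get j) (L.get k)) (L.get j)))))) :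
    ∃ e' : Fin L.length ≃ LowerSet P, ∀ i j : Fin L.length, e' i ⋖ e' j ↔ C i j = true := by
  obtain ⟨e', h⟩ := lowerSet_model dn L e he hb hL
  exact ⟨e', fun i j => covBy_table e' _ C h hC i j⟩

def dn0 : List ℕ := [0, 1, 2, 1, 10, 20]
def dn1 : List ℕ := [0, 1, 2, 4, 2, 20, 40, 32, 192, 256]
def dn2 : List ℕ := [0, 1, 2, 4, 8, 4, 40, 80, 64, 384, 512, 256, 2560, 5120, 8192, 16384]
def L1 : List ℕ := [0, 1, 3, 7, 9, 11, 15, 27, 31, 63]
def L2 : List ℕ := [0, 1, 3, 7, 15, 19, 23, 31, 55, 63, 127, 183, 191, 255, 511, 1023]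
def L2' : List ℕ := [1023, 511, 255, 127, 191, 63, 183, 55, 31, 23, 15, 7, 19, 3, 1, 0]
def L3' : List ℕ := [65535, 32767, 16383, 8191, 7167, 4095, 3071, 2047, 1023, 2559, 511, 2431, 383,
  255, 2415, 127, 367, 63, 111, 47, 31, 39, 15, 7, 3, 1, 0]

def tabE6 : List ℕ := [0, 1, 2, 4, 4, 24, 16, 96, 32, 384, 256, 1536, 512, 6144, 8192, 16384]

def tabE7' : List ℕ := [0, 1, 2, 4, 8, 8, 48, 32, 192, 64, 768, 512, 3072, 1024, 2048, 12288, 20480,
  32768, 98304, 393216, 131072, 524288, 1572864, 6291456, 8388608, 16777216, 33554432]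

lemma model0 : ∃ e : Fin dn0.length ≃ Fin 2 × Fin 3,
    ∀ j k : Fin dn0.length, e k ⋖ e j ↔ (dn0.get j).testBit k = true := by
  refine ⟨(finProdFinEquiv (m := 2) (n := 3)).symm, fun j k => ?_⟩
  refine covBy_table (n := 6) _ (fun i j => decide (i.val / 3 ≤ j.val / 3) &&
    decide (i.val % 3 ≤ j.val % 3)) (fun k j => (dn0.get j).testBit k) ?_ (by decide +kernel) k j
  intro i j
  rw [Bool.and_eq_true, decide_eq_true_eq, decide_eq_true_eq]
  rfl

lemma model1 : ∃ e : Fin dn1.length ≃ LowerSet (Fin 2 × Fin 3),
    ∀ j k : Fin dn1.length, e k ⋖ e j ↔ (dn1.get j).testBit k = true := by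
  obtain ⟨e, he⟩ := model0
  obtain ⟨e', he'⟩ := lowerSet_covBy dn0 L1 e he (by decide +kernel) (by decide +kernel)
    (fun k j => (dn1.get j).testBit k) (by decide +kernel)
  exact ⟨e', fun j k => he' k j⟩

lemma model2 : ∃ e : Fin dn2.length ≃ LowerSet (LowerSet (Fin 2 × Fin 3)),
    ∀ j k : Fin dn2.length, e k ⋖ e j ↔ (dn2.get j).testBit k = true := by
  obtain ⟨e, he⟩ := model1
  obtain ⟨e', he'⟩ := lowerSet_covBy dn1 L2 e he (by decide +kernel) (by decide +kernel)
    (fun k j => (dn2.get j).testBit k) (by decide +kernel)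
  exact ⟨e', fun j k => he' k j⟩

/-- `j ⋖ k` iff the bit `k` of the entry `j` of the table is set -/
theorem modelE6 : ∃ e : Fin tabE6.length ≃ LowerSet (LowerSet (Fin 2 × Fin 3)),
    ∀ j k : Fin tabE6.length, e j ⋖ e k ↔ (tabE6.get j).testBit k = true := by
  obtain ⟨e, he⟩ := model1
  obtain ⟨e', he'⟩ := lowerSet_covBy dn1 L2' e he (by decide +kernel) (by decide +kernel)
    (fun j k => (tabE6.get j).testBit k) (by decide +kernel)
  exact ⟨e', fun j k => he' j k⟩

theorem modelE7 : ∃ e : Fin tabE7'.length ≃ LowerSet (LowerSet (LowerSet (Fin 2 × Fin 3))),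
    ∀ j k : Fin tabE7'.length, e j ⋖ e k ↔ (tabE7'.get j).testBit k = true := by
  obtain ⟨e, he⟩ := model2
  obtain ⟨e', he'⟩ := lowerSet_covBy dn2 L3' e he (by decide +kernel) (by decide +kernel)
    (fun j k => (tabE7'.get j).testBit k) (by decide +kernel)
  exact ⟨e', fun j k => he' j k⟩

lemma card_fin_sub (r v c : ℕ) (hc : r ≤ c) : (univ.filter fun a : Fin r => c - a.val = v).card =
    if c + 1 ≤ v + r ∧ v ≤ c then 1 else 0 := by
  split_ifs with h
  · rw [Finset.card_eq_one]
    refine ⟨⟨c - v, by omega⟩, ?_⟩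
    ext a
    rw [mem_filter, mem_singleton, Fin.ext_iff]
    simp only [mem_univ, true_and]
    omega
  · rw [Finset.card_eq_zero, Finset.filter_eq_empty_iff]
    intro a _
    omega

/-- chain -/
theorem modelChain {α : Type} [Fintype α] [PartialOrder α] (n : ℕ)
    (hlt : ∀ x y : α, x < y ↔ corank y < corank x)
    (hs : ∀ v, (lev α v).card = if v < n then 1 else 0) :
    Nonempty (α ≃o (Fin 1 × Fin n)) := by
  refine orderIso_of_rank (fun x => corank x) (fun b : Fin 1 × Fin n => n - 1 - b.2.val) hlt ?_ ?_
  · intro x y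
    rw [Prod.lt_iff]
    have h1 : x.1 = y.1 := Subsingleton.elim _ _
    have := x.2.2
    have := y.2.2
    simp only [h1, lt_irrefl, false_and, le_refl, true_and, false_or, Fin.lt_def]
    omega
  · intro v
    have h2 := hs v
    rw [lev] at h2
    rw [h2]
    have h3 : (univ.filter fun b : Fin 1 × Fin n => n - 1 - b.2.val = v).card =
        (univ.filter fun a : Fin n => n - 1 - a.val = v).card := by
      refine Finset.card_bij (fun b _ => b.2) ?_ ?_ ?_
      · intro b hb
        simpa using hb
      · intro b _ b' _ h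
        exact Prod.ext (Subsingleton.elim _ _) h
      · intro a ha
        exact ⟨(0, a), by simpa using ha, rfl⟩
    rw [h3]
    split_ifs with h
    · symm
      rw [Finset.card_eq_one]
      refine ⟨⟨n - 1 - v, by omega⟩, ?_⟩
      ext a
      rw [mem_filter, mem_singleton, Fin.ext_iff]
      simp only [mem_univ, true_and]
      have := a.2
      omega
    · symm
      rw [Finset.card_eq_zero, Finset.filter_eq_empty_iff]
      intro a _
      have := a.2
      omega

/-- level function of the ordinal sum -/
def csLev (r : ℕ) (b : Fin r ⊕ₗ ((Fin 2 × Fin 2) ⊕ₗ Fin r)) : ℕ :=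
  Sum.elim (fun a : Fin r => 2 * r + 2 - a.val)
    (fun c => Sum.elim (fun p : Fin 2 × Fin 2 => r + 2 - p.1.val - p.2.val)
      (fun a : Fin r => r - 1 - a.val) (ofLex c)) (ofLex b)

/-- chain, square, chain -/
theorem modelChainSquare {α : Type} [Fintype α] [PartialOrder α] (r : ℕ)
    (hlt : ∀ x y : α, x < y ↔ corank y < corank x)
    (hs : ∀ v, (lev α v).card = if v = r + 1 then 2 else if v ≤ 2 * r + 2 then 1 else 0) :
    Nonempty (α ≃o (Fin r ⊕ₗ ((Fin 2 × Fin 2) ⊕ₗ Fin r))) := by
  refine orderIso_of_rank (fun x => corank x) (csLev r) hlt ?_ ?_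
  · intro x y
    obtain ⟨x, rfl⟩ := toLex.surjective x
    obtain ⟨y, rfl⟩ := toLex.surjective y
    rcases x with a | x
    · rcases y with b | y
      · change toLex (Sum.inl a) < toLex (Sum.inl b) ↔ 2 * r + 2 - b.val < 2 * r + 2 - a.val
        rw [Sum.Lex.inl_lt_inl_iff, Fin.lt_def]
        have := a.2
        have := b.2
        omega
      · obtain ⟨y, rfl⟩ := toLex.surjective y
        constructor
        · intro _
          rcases y with p | b
          · change r + 2 - p.1.val - p.2.val < 2 * r + 2 - a.val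
            have := a.2
            omega
          · change r - 1 - b.val < 2 * r + 2 - a.val
            have := a.2
            omega
        · intro _
          exact Sum.Lex.inl_lt_inr _ _
    · obtain ⟨x, rfl⟩ := toLex.surjective x
      rcases y with b | y
      · constructor
        · intro h
          exact absurd h (Sum.Lex.not_inr_lt_inl)
        · rcases x with p | a
          · change 2 * r + 2 - b.val < r + 2 - p.1.val - p.2.val → _
            have := b.2
            intro h
            omega
          · change 2 * r + 2 - b.val < r - 1 - a.val → _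
            have := b.2
            intro h
            omega
      · obtain ⟨y, rfl⟩ := toLex.surjective y
        rw [Sum.Lex.inr_lt_inr_iff]
        rcases x with p | a
        · rcases y with q | b
          · change toLex (Sum.inl p) < toLex (Sum.inl q) ↔
              r + 2 - q.1.val - q.2.val < r + 2 - p.1.val - p.2.val
            rw [Sum.Lex.inl_lt_inl_iff, Prod.lt_iff, Fin.lt_def, Fin.lt_def, Fin.le_def, Fin.le_def]
            have := p.1.2
            have := p.2.2
            have := q.1.2
            have := q.2.2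
            omega
          · constructor
            · intro _
              change r - 1 - b.val < r + 2 - p.1.val - p.2.val
              have := p.1.2
              have := p.2.2
              have := b.2
              omega
            · intro _
              exact Sum.Lex.inl_lt_inr _ _
        · rcases y with q | b
          · constructor
            · intro h
              exact absurd h (Sum.Lex.not_inr_lt_inl)
            · change r + 2 - q.1.val - q.2.val < r - 1 - a.val → _
              have := q.1.2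
              have := q.2.2
              intro h
              omega
          · change toLex (Sum.inr a) < toLex (Sum.inr b) ↔ r - 1 - b.val < r - 1 - a.val
            rw [Sum.Lex.inr_lt_inr_iff, Fin.lt_def]
            have := a.2
            have := b.2
            omega
  · intro v
    have h2 := hs v
    rw [lev] at h2
    rw [h2]
    have h3 : (univ.filter fun b : Fin r ⊕ₗ ((Fin 2 × Fin 2) ⊕ₗ Fin r) => csLev r b = v).card =
        (univ.filter fun a : Fin r => 2 * r + 2 - a.val = v).card +
        ((univ.filter fun p : Fin 2 × Fin 2 => r + 2 - p.1.val - p.2.val = v).card +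
        (univ.filter fun a : Fin r => r - 1 - a.val = v).card) := by
      simp only [Finset.card_filter]
      have e1 : ∑ b : Fin r ⊕ₗ ((Fin 2 × Fin 2) ⊕ₗ Fin r), (if csLev r b = v then 1 else 0) =
          ∑ b : Fin r ⊕ ((Fin 2 × Fin 2) ⊕ₗ Fin r),
            (if csLev r (toLex b) = v then 1 else 0) := rfl
      rw [e1, Fintype.sum_sum_type]
      congr 1
      have e2 : ∑ c : (Fin 2 × Fin 2) ⊕ₗ Fin r,
          (if csLev r (toLex (Sum.inr c)) = v then 1 else 0) =
          ∑ c : (Fin 2 × Fin 2) ⊕ Fin r,
            (if csLev r (toLex (Sum.inr (toLex c))) = v then 1 else 0) := rfl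
      rw [e2, Fintype.sum_sum_type]
      rfl
    rw [h3, card_fin_sub r v (2 * r + 2) (by omega)]
    have h4 : (univ.filter fun a : Fin r => r - 1 - a.val = v).card =
        if v < r then 1 else 0 := by
      split_ifs with h
      · rw [Finset.card_eq_one]
        refine ⟨⟨r - 1 - v, by omega⟩, ?_⟩
        ext a
        rw [mem_filter, mem_singleton, Fin.ext_iff]
        simp only [mem_univ, true_and]
        have := a.2
        omega
      · rw [Finset.card_eq_zero, Finset.filter_eq_empty_iff]
        intro a _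
        have := a.2
        omega
    have h5 : (univ.filter fun p : Fin 2 × Fin 2 => r + 2 - p.1.val - p.2.val = v).card =
        if v = r + 1 then 2 else if v = r + 2 ∨ v = r then 1 else 0 := by
      rw [Finset.card_filter, Fintype.sum_prod_type]
      simp only [Fin.sum_univ_two, Fin.val_zero, Fin.val_one, Nat.sub_zero]
      split_ifs <;> omega
    rw [h4, h5]
    split_ifs <;> omega

/-- product of two chains, in coordinates measured from the top -/
theorem modelRect {α : Type} [Fintype α] [PartialOrder α] (r s : ℕ) (f : α ≃ Fin r × Fin s)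
    (h : ∀ x y : α, x ⋖ y ↔
      ((f x).1.val = (f y).1.val + 1 ∧ (f x).2 = (f y).2) ∨
      ((f x).1 = (f y).1 ∧ (f x).2.val = (f y).2.val + 1)) :
    Nonempty (α ≃o (Fin r × Fin s)) := by
  refine orderIso_of_covBy (f.trans (Equiv.prodCongr Fin.revPerm Fin.revPerm)) ?_
  intro x y
  rw [h]
  simp only [Equiv.trans_apply, Equiv.prodCongr_apply, Prod.map, Fin.revPerm_apply]
  rw [Prod.mk_covBy_mk_iff]
  have hc : ∀ n : ℕ, ∀ a b : Fin n, a.rev ⋖ b.rev ↔ a.val = b.val + 1 := by
    intro n a b
    rw [Fin.covBy_iff, Nat.covBy_iff_add_one_eq]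
    have := a.2
    have := b.2
    simp only [Fin.val_rev]
    omega
  rw [hc, hc]
  constructor
  · rintro (⟨h1, h2⟩ | ⟨h1, h2⟩)
    · exact Or.inl ⟨h1, by rw [h2]⟩
    · exact Or.inr ⟨h2, by rw [h1]⟩
  · rintro (⟨h1, h2⟩ | ⟨h1, h2⟩)
    · exact Or.inl ⟨h1, Fin.rev_injective h2⟩
    · exact Or.inr ⟨Fin.rev_injective h2, h1⟩

lemma exists_bound {r : ℕ} (Q : Fin r → Prop) (hQ : ∀ a b : Fin r, a ≤ b → Q b → Q a) :
    ∃ A ≤ r, ∀ a : Fin r, Q a ↔ a.val < A := by
  by_cases h : ∃ n : ℕ, ∃ hn : n < r, ¬ Q ⟨n, hn⟩
  · refine ⟨Nat.find h, (Nat.find_spec h).choose.le, fun a => ?_⟩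
    obtain ⟨h1, h2⟩ := Nat.find_spec h
    constructor
    · intro ha
      by_contra h0
      exact h2 (hQ _ a (by rw [Fin.le_def]; exact not_lt.1 h0) ha)
    · intro ha
      by_contra h0
      exact Nat.find_min h ha ⟨a.2, h0⟩
  · push Not at h
    exact ⟨r, le_rfl, fun a => ⟨fun _ => a.2, fun _ => h a.val a.2⟩⟩

/-- the shifted staircase, in coordinates `a ≤ b ≤ r` measured from the top -/
theorem modelStair {α : Type} [Fintype α] [PartialOrder α] (r : ℕ)
    (f : α ≃ {p : ℕ × ℕ // p.1 ≤ p.2 ∧ p.2 ≤ r})
    (h : ∀ x y : α, x ⋖ y ↔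
      ((f x).1.1 = (f y).1.1 + 1 ∧ (f x).1.2 = (f y).1.2) ∨
      ((f x).1.1 = (f y).1.1 ∧ (f x).1.2 = (f y).1.2 + 1)) :
    Nonempty (α ≃o LowerSet (Fin 2 × Fin r)) := by
  -- the order in coordinates
  have hle : ∀ x y : α, x ≤ y ↔ (f y).1.1 ≤ (f x).1.1 ∧ (f y).1.2 ≤ (f x).1.2 := by
    intro x y
    constructor
    · intro hxy
      have h1 : Monotone (fun x => OrderDual.toDual (f x).1) := by
        rw [monotone_iff_covBy]
        intro a b hab
        rw [h] at hab
        rw [OrderDual.toDual_le_toDual, Prod.le_def]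
        omega
      have h2 := h1 hxy
      rw [OrderDual.toDual_le_toDual, Prod.le_def] at h2
      exact h2
    · have key : ∀ n : ℕ, ∀ x : α, (f y).1.1 ≤ (f x).1.1 → (f y).1.2 ≤ (f x).1.2 →
          (f x).1.1 + (f x).1.2 = (f y).1.1 + (f y).1.2 + n → x ≤ y := by
        intro n
        induction n with
        | zero =>
          intro x h1 h2 h3
          have : f x = f y := by
            apply Subtype.ext
            apply Prod.ext <;> omega
          exact (f.injective this).le
        | succ n ih =>
          intro x h1 h2 h3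
          have hx := (f x).2
          have hy := (f y).2
          by_cases hc : (f y).1.2 < (f x).1.2 ∧ (f x).1.1 < (f x).1.2
          · obtain ⟨z, hz⟩ := f.surjective ⟨((f x).1.1, (f x).1.2 - 1), by simp only; omega⟩
            have hz1 : (f z).1.1 = (f x).1.1 := by rw [hz]
            have hz2 : (f z).1.2 = (f x).1.2 - 1 := by rw [hz]
            have h4 : x ⋖ z := by
              rw [h]
              omega
            exact h4.le.trans (ih z (by omega) (by omega) (by omega))
          · obtain ⟨z, hz⟩ := f.surjective ⟨((f x).1.1 - 1, (f x).1.2), by simp only; omega⟩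
            have hz1 : (f z).1.1 = (f x).1.1 - 1 := by rw [hz]
            have hz2 : (f z).1.2 = (f x).1.2 := by rw [hz]
            have h4 : x ⋖ z := by
              rw [h]
              omega
            exact h4.le.trans (ih z (by omega) (by omega) (by omega))
      rintro ⟨h1, h2⟩
      exact key ((f x).1.1 + (f x).1.2 - ((f y).1.1 + (f y).1.2)) x h1 h2 (by omega)
  -- the lower sets
  have hlow : ∀ x : α, ∀ p q : Fin 2 × Fin r, q ≤ p →
      (if p.1 = 0 then p.2.val < r - (f x).1.1 else p.2.val < r - (f x).1.2) →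
      (if q.1 = 0 then q.2.val < r - (f x).1.1 else q.2.val < r - (f x).1.2) := by
    intro x p q hqp
    obtain ⟨h1, h2⟩ := Prod.le_def.1 hqp
    rw [Fin.le_def] at h2
    have hx := (f x).2
    split_ifs with h3 h4 h4
    · omega
    · rw [h3, Fin.le_zero_iff] at h1
      exact absurd h1 h4
    · omega
    · omega
  let F : α → LowerSet (Fin 2 × Fin r) := fun x =>
    ⟨{p | if p.1 = 0 then p.2.val < r - (f x).1.1 else p.2.val < r - (f x).1.2},
      fun p q hqp hp => hlow x p q hqp hp⟩
  have hF0 : ∀ x (a : Fin r), (0, a) ∈ F x ↔ a.val < r - (f x).1.1 := fun x a => by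
    change (if (0 : Fin 2) = 0 then a.val < r - (f x).1.1 else a.val < r - (f x).1.2) ↔ _
    rw [if_pos rfl]
  have hF1 : ∀ x (a : Fin r), (1, a) ∈ F x ↔ a.val < r - (f x).1.2 := fun x a => by
    change (if (1 : Fin 2) = 0 then a.val < r - (f x).1.1 else a.val < r - (f x).1.2) ↔ _
    rw [if_neg (by decide)]
  have hFle : ∀ x y, F x ≤ F y ↔ x ≤ y := by
    intro x y
    have hx := (f x).2
    have hy := (f y).2
    rw [hle]
    constructor
    · intro h1
      constructor
      · by_contra h0
        have h2 : ((0, ⟨r - (f x).1.1 - 1, by omega⟩) : Fin 2 × Fin r) ∈ F x := by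
          rw [hF0]
          simp only
          omega
        have h3 := h1 h2
        rw [SetLike.mem_coe, hF0] at h3
        simp only at h3
        omega
      · by_contra h0
        have h2 : ((1, ⟨r - (f x).1.2 - 1, by omega⟩) : Fin 2 × Fin r) ∈ F x := by
          rw [hF1]
          simp only
          omega
        have h3 := h1 h2
        rw [SetLike.mem_coe, hF1] at h3
        simp only at h3
        omega
    · rintro ⟨h1, h2⟩ ⟨i, a⟩ hp
      rw [SetLike.mem_coe] at hp ⊢
      rcases Fin.exists_fin_two.1 ⟨i, rfl⟩ with h3 | h3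
      · subst h3
        rw [hF0] at hp ⊢
        omega
      · subst h3
        rw [hF1] at hp ⊢
        omega
  have hsurj : Function.Surjective F := by
    intro W
    obtain ⟨A, hA, hA'⟩ := exists_bound (fun a : Fin r => ((0, a) : Fin 2 × Fin r) ∈ W)
      (fun a b hab hb => W.lower (Prod.mk_le_mk.2 ⟨le_rfl, hab⟩) hb)
    obtain ⟨B, hB, hB'⟩ := exists_bound (fun a : Fin r => ((1, a) : Fin 2 × Fin r) ∈ W)
      (fun a b hab hb => W.lower (Prod.mk_le_mk.2 ⟨le_rfl, hab⟩) hb)
    have hBA : B ≤ A := by
      by_contra h0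
      have h1 := (hB' ⟨A, by omega⟩).2 (by simp only; omega)
      have h2 : ((0, ⟨A, by omega⟩) : Fin 2 × Fin r) ∈ W :=
        W.lower (Prod.mk_le_mk.2 ⟨Fin.zero_le _, le_rfl⟩) h1
      have h3 := (hA' _).1 h2
      simp only at h3
      omega
    obtain ⟨x, hx⟩ := f.surjective ⟨(r - A, r - B), by simp only; omega⟩
    have hx1 : (f x).1.1 = r - A := by rw [hx]
    have hx2 : (f x).1.2 = r - B := by rw [hx]
    refine ⟨x, ?_⟩
    ext ⟨i, a⟩
    rw [SetLike.mem_coe, SetLike.mem_coe]
    rcases Fin.exists_fin_two.1 ⟨i, rfl⟩ with h3 | h3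
    · subst h3
      rw [hF0, hA', hx1]
      omega
    · subst h3
      rw [hF1, hB', hx2]
      omega
  have hinj : Function.Injective F := fun x y hxy =>
    le_antisymm ((hFle x y).1 hxy.le) ((hFle y x).1 hxy.ge)
  exact ⟨⟨Equiv.ofBijective F ⟨hinj, hsurj⟩, hFle _ _⟩⟩

end Pool.Gauss
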