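import Pool.Agent.Work.MP_065141_co.P3D3
import Pool.Agent.Work.MP_065141_co.Engine4

/-!
# The relation N3
-/

set_option autoImplicit false
set_option linter.unusedSectionVars false
set_option linter.unusedVariables false
open scoped Classical
open Finset Polynomial

namespace Pool.Gauss

variable {α : Type} [Fintype α] [PartialOrder α] {i : ℕ}

/-- the index set of the general engine -/
noncomputable def Mat.TS (m : Mat α i) (s0 r n : ℕ) : Finset (α → ℕ) :=
  ((univ : Finset α).piAntidiag r).filter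
    (fun ε => m.Red ε ∧ GoodE i ε ∧ (pkF i ε).card + s0 = n)

lemma Mat.mem_TS (m : Mat α i) {s0 r n : ℕ} {ε : α → ℕ} :
    ε ∈ m.TS s0 r n ↔ ∑ p, ε p = r ∧ m.Red ε ∧ GoodE i ε ∧ (pkF i ε).card + s0 = n := by
  unfold Mat.TS
  rw [mem_filter, mem_piAntidiag]
  simp

lemma loss_s (hg : Grad α) (hl : HasLower α i) {ε : α → ℕ} (hε : GoodE i ε) {n s0 : ℕ}
    (hn : (lev α i).card = n) (h : (pkF i ε).card + s0 ≤ n) :
    (Fo i ε).card + s0 ≤ (Yd i ε).card := by
  have := card_pkF hg hl hε
  omega

/-- one excited element next to level `i` makes at most one more dominated than free element -/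
lemma one_excited (hg : Grad α) (hdeg : ∀ p : α, (bd i p).card ≤ 2) {ε : α → ℕ}
    (h : (Fo i ε).card + 1 ≤ (Yd i ε).card) (h1 : ∀ p ∈ Ax i ε, (bd i p).card ≤ 1) :
    ∃ p ∈ Ax i ε, ∃ p' ∈ Ax i ε, p ≠ p' := by
  by_contra hcon
  push Not at hcon
  have h2 : (Yd i ε).Nonempty := by
    rw [← Finset.card_pos]
    omega
  obtain ⟨y, hy⟩ := h2
  have h2 := Yd_subset hg hy
  rw [mem_biUnion] at h2
  obtain ⟨p, hp, _⟩ := h2
  have h3 : Yd i ε ⊆ bd i p := by
    intro t ht
    have h4 := Yd_subset hg ht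
    rw [mem_biUnion] at h4
    obtain ⟨p', hp', h5⟩ := h4
    rw [hcon p hp p' hp']
    exact h5
  have h4 := h1 p hp
  have h5 := card_le_card h3
  have h6 : Yd i ε = bd i p := Finset.eq_of_subset_of_card_le h3 (by omega)
  have h7 : (Fo i ε).Nonempty := by
    apply peak hg
    · rw [mem_Ax] at hp
      refine ⟨p, ?_, hp.2⟩
      intro h7
      rw [ds_eq_zero.2 h7] at hp
      omega
    · intro p' y' hp' hpos hfr
      have h8 : p = p' := hcon p hp p' (mem_Ax.2 ⟨hp', hpos⟩)
      have h9 : y' ∈ Yd i ε := by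
        rw [h6, h8]
        exact mem_bd.2 hfr
      rw [mem_Yd] at h9
      obtain ⟨h10, p'', h11, h12⟩ := h9
      have h13 : p'' ∈ Ax i ε := by
        rw [mem_Ax, fr_ds hg h11, ds_eq_zero.2 h10]
        exact ⟨rfl, by omega⟩
      rw [← h8, hcon p hp p'' h13]
      exact h12
  have := Finset.card_pos.2 h7
  omega

/-- the classification for N3 -/
theorem classN3 (hg : Grad α) (hl : HasLower α i) (m : Mat α i)
    (hF : m.FullX ∅) (hdeg : ∀ p : α, (bd i p).card ≤ 2)
    (hU1 : ∀ q ∈ U1 α i, (BB i q).card ≤ 1) (hU2 : ∀ q ∈ U2 α i, (BB i q).card ≤ 3)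
    {n : ℕ} (hn : (lev α i).card = n) {ε : α → ℕ} (hε : GoodE i ε) (hred : m.Red ε)
    (hs : ∑ p, ε p ≤ 3) (hpk : (pkF i ε).card + 1 ≤ n) :
    ∃ q ∈ U2 α i, (BB i q).card = 3 ∧ ε = cfA i q := by
  have hloss := loss_s hg hl hε hn hpk
  have hall : ∀ p ∈ Ax i ε, att i ε p := by
    intro p hp
    rw [mem_Ax] at hp
    rcases m.att_of_pos hg hl hF hε hred (by omega) hp.1 hp.2 with h | h
    · exact h
    · simp at h
  have htwo : ∃ p ∈ Ax i ε, ∃ p' ∈ Ax i ε, p ≠ p' := by
    by_contra hcon
    apply hcon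
    apply one_excited hg hdeg hloss
    intro p hp
    push Not at hcon
    obtain ⟨q, hq, hq', hq2, _⟩ := att_pos hg hl hε (mem_Ax.1 hp).1 (hall p hp)
    have hbd : bd i q = {p} := by
      ext t
      rw [mem_singleton]
      constructor
      · intro ht
        have h1 := ds_of_mem_bd hg hq2 ht
        have h2 : 0 < ε t := by
          apply closure hg hl hε (mem_bd.1 ht) _ hq'
          intro h
          rw [ds_eq_zero.2 h] at h1
          omega
        exact (hcon p hp t (mem_Ax.2 ⟨h1, h2⟩)).symm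
      · rintro rfl
        exact mem_bd.2 hq
    have := hU1 q (mem_U1.2 ⟨hq2, by rw [hbd, card_singleton]⟩)
    unfold BB at this
    rwa [hbd, singleton_biUnion] at this
  obtain ⟨p, hp, p', hp', hne⟩ := htwo
  have hatt := hall p hp
  have hatt' := hall p' hp'
  rw [mem_Ax] at hp hp'
  obtain ⟨q, hq, hqpos, hq2, _⟩ := att_pos hg hl hε hp.1 hatt
  have hc : ({q, p, p'} : Finset α).card = 3 := by
    rw [card_insert_of_notMem, card_insert_of_notMem, card_singleton]
    · simpa using hne
    · have h1 : q ≠ p := ds_ne (i := i) (by omega)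
      have h2 : q ≠ p' := ds_ne (i := i) (by omega)
      simp [h1, h2]
  have he : ε = ind {q, p, p'} := by
    apply eq_ind
    · intro t ht
      simp only [mem_insert, mem_singleton] at ht
      rcases ht with rfl | rfl | rfl
      · exact hqpos
      · exact hp.2
      · exact hp'.2
    · omega
  obtain ⟨q', hq'', hq', hq2', _⟩ := att_pos hg hl hε hp'.1 hatt'
  have hqq : q' = q := by
    rw [he, ind_pos] at hq'
    simp only [mem_insert, mem_singleton] at hq'
    rcases hq' with h | h | h
    · exact h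
    · exact absurd h (ds_ne (i := i) (by omega))
    · exact absurd h (ds_ne (i := i) (by omega))
  rw [hqq] at hq''
  have hbd : bd i q = {p, p'} := by
    symm
    apply Finset.eq_of_subset_of_card_le
    · intro t ht
      simp only [mem_insert, mem_singleton] at ht
      rcases ht with rfl | rfl
      · exact mem_bd.2 hq
      · exact mem_bd.2 hq''
    · rw [card_pair hne]
      exact hdeg q
  have hU : q ∈ U2 α i := mem_U2.2 ⟨hq2, by rw [hbd, card_pair hne]⟩
  have hT : ε = cfA i q := by
    rw [he]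
    unfold cfA
    congr 1
    rw [hbd, union_empty]
    rfl
  refine ⟨q, hU, ?_, hT⟩
  have hQ : ∀ t ∈ ({q} : Finset α), ds i t = 2 := by simpa using hq2
  have hA : ∀ t ∈ bd i q, ds i t = 1 := fun t ht => ds_of_mem_bd hg hq2 ht
  have hZ : ∀ t ∈ (∅ : Finset α), corank t = i := by simp
  have hQA : ∀ t ∈ ({q} : Finset α), bd i t ⊆ bd i q := by simp
  have h1 := cfg_Fo hg hl hQ hA hZ hQA
  have h2 := cfg_Yd hg hQ hA hZ
  rw [hT] at hloss
  unfold cfA at hloss
  rw [h1, h2, sdiff_empty] at hloss
  have h3 : ((bd i q).filter fun p => Disjoint (bd i p) ∅) = bd i q :=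
    Finset.filter_true_of_mem fun p _ => Finset.disjoint_empty_right _
  rw [h3, hbd, card_pair hne] at hloss
  have h4 := hU2 q hU
  have h5 : BB i q = ({p, p'} : Finset α).biUnion (bd i) := by unfold BB; rw [hbd]
  rw [← h5] at hloss
  omega

/-- the data of `cfA` for an element over three elements -/
lemma cfA_data3 (hg : Grad α) (hl : HasLower α i) (m : Mat α i) {q : α} (hq : q ∈ U2 α i)
    (hB : (BB i q).card = 3) {n : ℕ} (hn : (lev α i).card = n) :
    cfA i q ∈ m.TS 1 3 n ∧
      (-1 : ℤ) ^ (inF i (cfA i q)).card = (-1) ^ (low α i).card * (- sg i q) := by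
  rw [mem_U2] at hq
  have hQ : ∀ t ∈ ({q} : Finset α), ds i t = 2 := by simpa using hq.1
  have hA : ∀ t ∈ bd i q, ds i t = 1 := fun t ht => ds_of_mem_bd hg hq.1 ht
  have hZ : ∀ t ∈ (∅ : Finset α), corank t = i := by simp
  have hQA : ∀ t ∈ ({q} : Finset α), bd i t ⊆ bd i q := by simp
  have hside : ∀ p ∈ bd i q, ∀ p' ∈ bd i q, corank p < i → i < corank p' →
      ∀ y, y ∈ bd i p → y ∈ bd i p' → y ∈ (∅ : Finset α) := by
    intro p hp p' hp' h1 h2
    have := side_of_mem_bd hg hq.1 hp
    have := side_of_mem_bd hg hq.1 hp'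
    omega
  have hd := cfg_free hg hl hQ hA hZ hQA hside rfl
  have hgood := cfg_good hg hl hQ hA hZ hQA hside
  have hred := cfg_red hg m (L := ∅) (by intro p hp; simp at hp) hQ hA hZ (by
    intro p hp
    left
    exact ⟨q, mem_singleton_self q, hp⟩)
  have hc := card_cfg hQ hA hZ
  have h1 : (bd i q).biUnion (bd i) = BB i q := rfl
  constructor
  · rw [m.mem_TS]
    unfold cfA
    refine ⟨?_, hred, hgood, ?_⟩
    · rw [sum_ind, hc, hq.2]
      simp
    · have := hd.1
      rw [h1, hB, hq.2] at this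
      omega
  · unfold cfA
    rw [hd.2]
    congr 1
    unfold sg
    rcases lt_trichotomy (corank q) i with h3 | h3 | h3
    · have h4 : ((bd i q).filter fun p => corank p < i) = bd i q :=
        Finset.filter_true_of_mem fun p hp => (side_of_mem_bd hg hq.1 hp).1.2 h3
      have h5 : ((bd i q).filter fun p => i < corank p) = ∅ := by
        apply Finset.filter_false_of_mem
        intro p hp
        have := (side_of_mem_bd hg hq.1 hp).1.2 h3
        omega
      rw [h4, h5, hq.2, if_pos h3]
      simp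
    · exfalso
      have := hq.1
      rw [ds_eq_zero.2 h3] at this
      omega
    · have h4 : ((bd i q).filter fun p => i < corank p) = bd i q :=
        Finset.filter_true_of_mem fun p hp => (side_of_mem_bd hg hq.1 hp).2.2 h3
      have h5 : ((bd i q).filter fun p => corank p < i) = ∅ := by
        apply Finset.filter_false_of_mem
        intro p hp
        have := (side_of_mem_bd hg hq.1 hp).2.2 h3
        omega
      rw [h4, h5, h1, hB, if_neg (by omega)]
      norm_num

/-- **N3**: at a perfect level without events, the numbers of elements over three elements below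
and above are equal -/
theorem N3 {h : Fin (Fintype.card α) → ℕ} (hG : IsGaussianWith α h) (hl : HasLower α i)
    (m : Mat α i) (hF : m.FullX ∅) (hdeg : ∀ p : α, (bd i p).card ≤ 2)
    (hU1 : ∀ q ∈ U1 α i, (BB i q).card ≤ 1) :
    ∑ q ∈ (U2 α i).filter (fun q => (BB i q).card = 3), sg i q = 0 := by
  have hg := grad hG
  have hU2 : ∀ q ∈ U2 α i, (BB i q).card ≤ 3 := fun q hq => P3 hG hl m hF hdeg hq
  rcases Nat.eq_zero_or_pos (lev α i).card with hn0 | hn
  · rw [Finset.sum_eq_zero]
    intro q hq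
    rw [mem_filter] at hq
    have := card_le_card (BB_subset hg (mem_U2.1 hq.1).1)
    omega
  have key := m.engine_s hG hl 3 _ rfl 1 (by omega) hn (by
    intro ε hε hred hs hpk
    obtain ⟨q, hq, hB, he⟩ := classN3 hg hl m hF hdeg hU1 hU2 rfl hε hred hs hpk
    have := (cfA_data3 hg hl m hq hB rfl).1
    rw [← he, m.mem_TS] at this
    exact ⟨this.1, this.2.2.2⟩)
  have h5 : m.TS 1 3 (lev α i).card =
      ((U2 α i).filter fun q => (BB i q).card = 3).image (cfA i) := by
    ext ε
    rw [mem_image]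
    constructor
    · intro hε
      rw [m.mem_TS] at hε
      obtain ⟨q, hq, hB, he⟩ := classN3 hg hl m hF hdeg hU1 hU2 rfl hε.2.2.1 hε.2.1 hε.1.le
        hε.2.2.2.le
      exact ⟨q, mem_filter.2 ⟨hq, hB⟩, he.symm⟩
    · rintro ⟨q', hq', rfl⟩
      rw [mem_filter] at hq'
      exact (cfA_data3 hg hl m hq'.1 hq'.2 rfl).1
  have h6 : ∑ ε ∈ m.TS 1 3 (lev α i).card, (-1 : ℤ) ^ (inF i ε).card = 0 := key
  rw [h5, Finset.sum_image] at h6
  · rw [Finset.sum_congr rfl (fun q' hq' => (cfA_data3 hg hl m (mem_filter.1 hq').1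
      (mem_filter.1 hq').2 rfl).2), ← Finset.mul_sum, Finset.sum_neg_distrib] at h6
    rcases mul_eq_zero.1 h6 with h7 | h7
    · exact absurd h7 (pow_ne_zero _ (by norm_num))
    · exact neg_eq_zero.1 h7
  · intro q hq q' hq' he
    exact cfA_inj (mem_U2.1 (mem_filter.1 hq).1).1 (mem_U2.1 (mem_filter.1 hq').1).1 hg he

end Pool.Gauss
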