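import Pool.Agent.Work.MP_065141_co.Rel3

/-!
# The relations P3 and D3
-/

set_option autoImplicit false
set_option linter.unusedSectionVars false
set_option linter.unusedVariables false
open scoped Classical
open Finset Polynomial

namespace Pool.Gauss

variable {α : Type} [Fintype α] [PartialOrder α] {i : ℕ}

/-- the index set of the engine -/
noncomputable def Mat.TT (m : Mat α i) (r n : ℕ) : Finset (α → ℕ) :=
  ((univ : Finset α).piAntidiag r).filter
    (fun ε => m.Red ε ∧ GoodE i ε ∧ (pkF i ε).card + 2 = n)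

lemma Mat.mem_TT (m : Mat α i) {r n : ℕ} {ε : α → ℕ} :
    ε ∈ m.TT r n ↔ ∑ p, ε p = r ∧ m.Red ε ∧ GoodE i ε ∧ (pkF i ε).card + 2 = n := by
  unfold Mat.TT
  rw [mem_filter, mem_piAntidiag]
  simp

/-- a configuration is reduced if its elements next to level `i` are attached or exceptional -/
lemma cfg_red (hg : Grad α) (m : Mat α i) {L : Finset α} (hL : m.Lone L) {Q A Z : Finset α}
    (hQ : ∀ q ∈ Q, ds i q = 2) (hA : ∀ p ∈ A, ds i p = 1) (hZ : ∀ y ∈ Z, corank y = i)
    (hA2 : ∀ p ∈ A, (∃ q ∈ Q, p ∈ bd i q) ∨ p ∈ L) : m.Red (ind (Q ∪ A ∪ Z)) := by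
  intro p hp
  obtain ⟨h1, h2⟩ := m.rst_prop hp
  have hd : ds i p = 1 := by unfold ds; omega
  by_contra h
  have h3 : p ∈ A := by
    rw [← cfg_mem_of_ds_one hQ hA hZ hd]
    exact ind_pos.1 (Nat.pos_of_ne_zero h)
  rcases hA2 p h3 with ⟨q, hq, h4⟩ | h4
  · apply h1
    apply att_of_fr hg hd (mem_bd.1 h4)
    rw [ind_pos, mem_union, mem_union]
    exact Or.inl (Or.inl hq)
  · exact m.not_mem_rst_of_lone hg hL h4 hp

lemma card_cfg {Q A Z : Finset α} (hQ : ∀ q ∈ Q, ds i q = 2) (hA : ∀ p ∈ A, ds i p = 1)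
    (hZ : ∀ y ∈ Z, corank y = i) : (Q ∪ A ∪ Z).card = Q.card + A.card + Z.card := by
  rw [card_union_of_disjoint, card_union_of_disjoint]
  · rw [Finset.disjoint_left]
    intro p h1 h2
    have := hQ p h1
    have := hA p h2
    omega
  · rw [Finset.disjoint_left]
    intro p h1 h2
    have h3 := ds_eq_zero.2 (hZ p h2)
    rw [mem_union] at h1
    rcases h1 with h1 | h1
    · have := hQ p h1
      omega
    · have := hA p h1
      omega

/-- the data of `cfA` -/
lemma cfA_data (hg : Grad α) (hl : HasLower α i) (m : Mat α i) {q : α} (hq : q ∈ U2 α i)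
    (hB : (BB i q).card = 4) {n : ℕ} (hn : (lev α i).card = n) :
    cfA i q ∈ m.TT 3 n ∧ (-1 : ℤ) ^ (inF i (cfA i q)).card = (-1) ^ (low α i).card := by
  rw [mem_U2] at hq
  have hQ : ∀ t ∈ ({q} : Finset α), ds i t = 2 := by simpa using hq.1
  have hA : ∀ t ∈ bd i q, ds i t = 1 := fun t ht => ds_of_mem_bd hg hq.1 ht
  have hZ : ∀ t ∈ (∅ : Finset α), corank t = i := by simp
  have hQA : ∀ t ∈ ({q} : Finset α), bd i t ⊆ bd i q := by simp
  have hside : ∀ p ∈ bd i q, ∀ p' ∈ bd i q, corank p < i → i < corank p' →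
      ∀ y, y ∈ bd i p → y ∈ bd i p' → y ∈ (∅ : Finset α) := by
    intro p hp p' hp' h1 h2
    have := side_of_mem_bd hg hq.1 hp
    have := side_of_mem_bd hg hq.1 hp'
    omega
  have hd := cfg_free hg hl hQ hA hZ hQA hside rfl
  have hgood := cfg_good hg hl hQ hA hZ hQA hside
  have hred := cfg_red hg m (L := ∅) (by intro p hp; simp at hp) hQ hA hZ (by
    intro p hp
    left
    exact ⟨q, mem_singleton_self q, hp⟩)
  have hc := card_cfg hQ hA hZ
  have h1 : (bd i q).biUnion (bd i) = BB i q := rfl
  constructor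
  · rw [m.mem_TT]
    unfold cfA
    refine ⟨?_, hred, hgood, ?_⟩
    · rw [sum_ind, hc, hq.2]
      simp
    · have := hd.1
      rw [h1, hB, hq.2] at this
      omega
  · unfold cfA
    rw [hd.2]
    have h2 : (-1 : ℤ) ^ ((bd i q).filter fun p => corank p < i).card *
        (-1) ^ (((bd i q).filter fun p => i < corank p).biUnion (bd i)).card = 1 := by
      rcases lt_trichotomy (corank q) i with h3 | h3 | h3
      · have h4 : ((bd i q).filter fun p => corank p < i) = bd i q :=
          Finset.filter_true_of_mem fun p hp => (side_of_mem_bd hg hq.1 hp).1.2 h3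
        have h5 : ((bd i q).filter fun p => i < corank p) = ∅ := by
          apply Finset.filter_false_of_mem
          intro p hp
          have := (side_of_mem_bd hg hq.1 hp).1.2 h3
          omega
        rw [h4, h5, hq.2]
        simp
      · exfalso
        have := hq.1
        rw [ds_eq_zero.2 h3] at this
        omega
      · have h4 : ((bd i q).filter fun p => i < corank p) = bd i q :=
          Finset.filter_true_of_mem fun p hp => (side_of_mem_bd hg hq.1 hp).2.2 h3
        have h5 : ((bd i q).filter fun p => corank p < i) = ∅ := by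
          apply Finset.filter_false_of_mem
          intro p hp
          have := (side_of_mem_bd hg hq.1 hp).2.2 h3
          omega
        rw [h4, h5, h1, hB]
        simp
    rw [h2, mul_one]

lemma sg_sq (q : α) : sg i q * sg i q = 1 := by
  unfold sg
  split_ifs <;> norm_num

/-- the sign of a free double element -/
lemma sign_one (hg : Grad α) {p : α} (hp : ds i p = 1) (h2 : (bd i p).card = 2) :
    (-1 : ℤ) ^ (({p} : Finset α).filter fun p => corank p < i).card *
      (-1) ^ ((({p} : Finset α).filter fun p => i < corank p).biUnion (bd i)).card = sg i p := by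
  unfold sg
  rcases lt_trichotomy (corank p) i with h | h | h
  · have h3 : ¬ (i < corank p) := by omega
    rw [Finset.filter_singleton, Finset.filter_singleton, if_pos h, if_neg h3, if_pos h]
    simp
  · exfalso
    rw [ds_eq_zero.2 h] at hp
    omega
  · have h3 : ¬ (corank p < i) := by omega
    rw [Finset.filter_singleton, Finset.filter_singleton, if_neg h3, if_pos h, if_neg h3,
      singleton_biUnion, h2]
    simp

lemma sign_union (hg : Grad α) {A B : Finset α} (hd : Disjoint A B)
    (hd2 : Disjoint (A.biUnion (bd i)) (B.biUnion (bd i))) :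
    (-1 : ℤ) ^ ((A ∪ B).filter fun p => corank p < i).card *
      (-1) ^ (((A ∪ B).filter fun p => i < corank p).biUnion (bd i)).card =
    ((-1 : ℤ) ^ (A.filter fun p => corank p < i).card *
      (-1) ^ ((A.filter fun p => i < corank p).biUnion (bd i)).card) *
    ((-1 : ℤ) ^ (B.filter fun p => corank p < i).card *
      (-1) ^ ((B.filter fun p => i < corank p).biUnion (bd i)).card) := by
  rw [filter_union, filter_union, card_union_of_disjoint (Finset.disjoint_filter_filter hd),
    union_biUnion, card_union_of_disjoint, pow_add, pow_add]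
  · ring
  · exact hd2.mono (biUnion_subset_biUnion_of_subset_left _ (filter_subset _ _))
      (biUnion_subset_biUnion_of_subset_left _ (filter_subset _ _))

lemma not_mem_bd_of_disjoint (hg : Grad α) (hl : HasLower α i) {q l : α} (hld : ds i l = 1)
    (hd : Disjoint (BB i q) (bd i l)) : l ∉ bd i q := by
  intro h
  have h1 : corank l ≠ i := by
    intro h2
    rw [ds_eq_zero.2 h2] at hld
    omega
  obtain ⟨t, ht⟩ := exists_near hg hl h1
  have h2 : t ∈ BB i q := by
    unfold BB
    rw [mem_biUnion]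
    exact ⟨l, h, mem_bd.2 ht⟩
  exact Finset.disjoint_left.1 hd h2 (mem_bd.2 ht)

/-- the data of `cfB` -/
lemma cfB_data (hg : Grad α) (hl : HasLower α i) (m : Mat α i) {L : Finset α} (hL : m.Lone L)
    {q l : α} (hq : q ∈ U1 α i) (hlL : l ∈ L)
    (hB : (BB i q).card = 2) (hd : Disjoint (BB i q) (bd i l)) {n : ℕ}
    (hn : (lev α i).card = n) :
    cfB i q l ∈ m.TT 3 n ∧
      (-1 : ℤ) ^ (inF i (cfB i q l)).card = (-1) ^ (low α i).card * (sg i q * sg i l) := by
  rw [mem_U1] at hq
  obtain ⟨hld, hl2, _⟩ := hL l hlL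
  have hnm := not_mem_bd_of_disjoint hg hl hld hd
  obtain ⟨p, hp⟩ := Finset.card_eq_one.1 hq.2
  have hpq : p ∈ bd i q := by rw [hp]; exact mem_singleton_self p
  have hpd := ds_of_mem_bd hg hq.1 hpq
  have hBp : BB i q = bd i p := by unfold BB; rw [hp, singleton_biUnion]
  have hQ : ∀ t ∈ ({q} : Finset α), ds i t = 2 := by simpa using hq.1
  have hA : ∀ t ∈ insert l (bd i q), ds i t = 1 := by
    intro t ht
    rw [mem_insert] at ht
    rcases ht with rfl | ht
    · exact hld
    · exact ds_of_mem_bd hg hq.1 ht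
  have hZ : ∀ t ∈ (∅ : Finset α), corank t = i := by simp
  have hQA : ∀ t ∈ ({q} : Finset α), bd i t ⊆ insert l (bd i q) := by
    intro t ht
    rw [mem_singleton] at ht
    rw [ht]
    exact subset_insert _ _
  have hside : ∀ p ∈ insert l (bd i q), ∀ p' ∈ insert l (bd i q), corank p < i → i < corank p' →
      ∀ y, y ∈ bd i p → y ∈ bd i p' → y ∈ (∅ : Finset α) := by
    intro a ha b hb h1 h2 y hy hy'
    exfalso
    rw [mem_insert] at ha hb
    rcases ha with rfl | ha <;> rcases hb with rfl | hb
    · omega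
    · have : y ∈ BB i q := by
        unfold BB
        rw [mem_biUnion]
        exact ⟨b, hb, hy'⟩
      exact Finset.disjoint_left.1 hd this hy
    · have : y ∈ BB i q := by
        unfold BB
        rw [mem_biUnion]
        exact ⟨a, ha, hy⟩
      exact Finset.disjoint_left.1 hd this hy'
    · have := side_of_mem_bd hg hq.1 ha
      have := side_of_mem_bd hg hq.1 hb
      omega
  have hdat := cfg_free hg hl hQ hA hZ hQA hside rfl
  have hgood := cfg_good hg hl hQ hA hZ hQA hside
  have hred := cfg_red hg m hL hQ hA hZ (by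
    intro t ht
    rw [mem_insert] at ht
    rcases ht with rfl | ht
    · exact Or.inr hlL
    · exact Or.inl ⟨q, mem_singleton_self q, ht⟩)
  have hc := card_cfg hQ hA hZ
  have hcA : (insert l (bd i q)).card = 2 := by
    rw [card_insert_of_notMem hnm, hq.2]
  have hcY : ((insert l (bd i q)).biUnion (bd i)).card = 4 := by
    rw [biUnion_insert, card_union_of_disjoint]
    · have h1 : ((bd i q).biUnion (bd i)).card = 2 := hB
      rw [h1, hl2]
    · exact hd.symm
  constructor
  · rw [m.mem_TT]
    unfold cfB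
    refine ⟨?_, hred, hgood, ?_⟩
    · rw [sum_ind, hc, hcA]
      simp
    · have := hdat.1
      rw [hcY, hcA] at this
      omega
  · unfold cfB
    rw [hdat.2]
    congr 1
    have e1 : insert l (bd i q) = {p} ∪ {l} := by
      rw [hp, insert_eq, union_comm]
    have hpl : p ≠ l := by
      rintro rfl
      exact hnm hpq
    rw [e1, sign_union hg (by simpa using hpl), sign_one hg hpd (by rw [← hBp]; exact hB),
      sign_one hg hld hl2]
    · congr 1
      have := side_of_mem_bd hg hq.1 hpq
      unfold sg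
      simp only [this.1]
    · rw [singleton_biUnion, singleton_biUnion, ← hBp]
      exact hd

/-- the data of `cfC` -/
lemma cfC_data (hg : Grad α) (hl : HasLower α i) (m : Mat α i) {L : Finset α} (hL : m.Lone L)
    {z x k : α} (hz : z ∈ L) (hx : x ∈ L) (hz1 : corank z < i) (hx1 : i < corank x)
    (hk : bd i z ∩ bd i x = {k}) {n : ℕ} (hn : (lev α i).card = n) :
    cfC z x k ∈ m.TT 3 n ∧
      (-1 : ℤ) ^ (inF i (cfC z x k)).card = (-1) ^ (low α i).card * (-1) := by
  obtain ⟨hzd, hz2, _⟩ := hL z hz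
  obtain ⟨hxd, hx2, _⟩ := hL x hx
  have hk' : k ∈ bd i z ∩ bd i x := by rw [hk]; exact mem_singleton_self k
  rw [mem_inter] at hk'
  have hki : corank k = i := bd_lev hg hzd hk'.1
  have hzx : z ≠ x := by
    rintro rfl
    omega
  have hQ : ∀ t ∈ (∅ : Finset α), ds i t = 2 := by simp
  have hA : ∀ t ∈ ({z, x} : Finset α), ds i t = 1 := by
    intro t ht
    simp only [mem_insert, mem_singleton] at ht
    rcases ht with rfl | rfl
    · exact hzd
    · exact hxd
  have hZ : ∀ t ∈ ({k} : Finset α), corank t = i := by simpa using hki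
  have hQA : ∀ t ∈ (∅ : Finset α), bd i t ⊆ ({z, x} : Finset α) := by simp
  have hside : ∀ p ∈ ({z, x} : Finset α), ∀ p' ∈ ({z, x} : Finset α), corank p < i →
      i < corank p' → ∀ y, y ∈ bd i p → y ∈ bd i p' → y ∈ ({k} : Finset α) := by
    intro a ha b hb h1 h2 y hy hy'
    simp only [mem_insert, mem_singleton] at ha hb
    rcases ha with rfl | rfl <;> rcases hb with rfl | rfl
    · omega
    · rw [← hk, mem_inter]
      exact ⟨hy, hy'⟩
    · omega
    · omega
  have hgood := cfg_good hg hl hQ hA hZ hQA hside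
  have hred := cfg_red hg m hL hQ hA hZ (by
    intro t ht
    simp only [mem_insert, mem_singleton] at ht
    rcases ht with rfl | rfl
    · exact Or.inr hz
    · exact Or.inr hx)
  have hc := card_cfg hQ hA hZ
  have hFo := cfg_Fo hg hl hQ hA hZ hQA
  have hYd := cfg_Yd hg hQ hA hZ
  have hYin := cfg_Yin hg hQ hA hZ
  have hFd := ind_Fd (cfg_nclosed hg hQ hA hZ hQA)
  have hFo' : (({z, x} : Finset α).filter fun p => Disjoint (bd i p) {k}) = ∅ := by
    apply Finset.filter_false_of_mem
    intro t ht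
    simp only [mem_insert, mem_singleton] at ht
    rw [Finset.disjoint_singleton_right, not_not]
    rcases ht with rfl | rfl
    · exact hk'.1
    · exact hk'.2
  rw [hFo'] at hFo
  have hY : (({z, x} : Finset α).biUnion (bd i) \ {k}).card = 2 := by
    rw [biUnion_insert, singleton_biUnion, card_sdiff_of_subset]
    · have := Finset.card_union_add_card_inter (bd i z) (bd i x)
      rw [hk, card_singleton, hz2, hx2] at this
      rw [card_singleton]
      omega
    · rw [singleton_subset_iff, mem_union]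
      exact Or.inl hk'.1
  have hYi : ((({z, x} : Finset α).filter fun p => i < corank p).biUnion (bd i) \ {k}).card = 1 := by
    have h1 : (({z, x} : Finset α).filter fun p => i < corank p) = {x} := by
      ext t
      simp only [mem_filter, mem_insert, mem_singleton]
      constructor
      · rintro ⟨rfl | rfl, h⟩
        · omega
        · rfl
      · rintro rfl
        exact ⟨Or.inr rfl, hx1⟩
    rw [h1, singleton_biUnion, card_sdiff_of_subset (by rw [singleton_subset_iff]; exact hk'.2),
      card_singleton, hx2]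
  have hpk := card_pkF hg hl hgood
  have hsg := sign_inF hg hl hgood
  constructor
  · rw [m.mem_TT]
    unfold cfC
    refine ⟨?_, hred, hgood, ?_⟩
    · rw [sum_ind, hc, card_pair hzx]
      simp
    · rw [hFo, hYd, hY, card_empty] at hpk
      omega
  · unfold cfC
    rw [hsg, hFd, hFo, hYin, hYi]
    simp

/-! ### the relations -/

lemma card_BB_le (hg : Grad α) (hdeg : ∀ p : α, (bd i p).card ≤ 2) {q : α} (hq : q ∈ U2 α i) :
    (BB i q).card ≤ 4 := by
  rw [mem_U2] at hq
  unfold BB
  refine (Finset.card_biUnion_le_card_mul _ _ 2 fun p _ => hdeg p).trans ?_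
  rw [hq.2]

lemma BB_subset (hg : Grad α) {q : α} (hq : ds i q = 2) : BB i q ⊆ lev α i := by
  intro y hy
  unfold BB at hy
  rw [mem_biUnion] at hy
  obtain ⟨p, hp, hy⟩ := hy
  rw [mem_lev]
  exact bd_lev hg (ds_of_mem_bd hg hq hp) hy

lemma cfA_inj {q q' : α} (hq : ds i q = 2) (hq' : ds i q' = 2) (hg : Grad α)
    (h : cfA i q = cfA i q') : q = q' := by
  have h1 := ind_inj h
  have h2 : q ∈ {q'} ∪ bd i q' ∪ ∅ := by
    rw [← h1]
    simp
  rw [union_empty, mem_union, mem_singleton] at h2
  rcases h2 with h2 | h2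
  · exact h2
  · have := ds_of_mem_bd hg hq' h2
    omega

/-- **P3**: below (and above) a perfect level, no element at distance two is over four elements -/
theorem P3 {h : Fin (Fintype.card α) → ℕ} (hG : IsGaussianWith α h) (hl : HasLower α i)
    (m : Mat α i) (hF : m.FullX ∅) (hdeg : ∀ p : α, (bd i p).card ≤ 2) {q : α}
    (hq : q ∈ U2 α i) : (BB i q).card ≤ 3 := by
  have hg := grad hG
  by_contra hcon
  have h4 : (BB i q).card = 4 := by
    have := card_BB_le hg hdeg hq
    omega
  have hn : 2 ≤ (lev α i).card := by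
    have := card_le_card (BB_subset hg (mem_U2.1 hq).1)
    omega
  have hLone : m.Lone ∅ := by intro p hp; simp at hp
  have hLL : LL i (∅ : Finset α) := by intro p hp; simp at hp
  have key := m.engine hG hl 3 _ rfl hn (by
    intro ε hε hred hs hpk
    rcases class3 hg hl m hF hLone hLL hdeg rfl hε hred hs hpk with
      ⟨q', hq', hB', he⟩ | ⟨q', hq', l, hl', _⟩ | ⟨p, hp, _⟩
    · have := (cfA_data hg hl m hq' hB' rfl).1
      rw [← he, m.mem_TT] at this
      exact ⟨this.1, this.2.2.2⟩
    · simp at hl'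
    · simp at hp)
  have h5 : m.TT 3 (lev α i).card = ((U2 α i).filter fun q => (BB i q).card = 4).image (cfA i) := by
    ext ε
    rw [mem_image]
    constructor
    · intro hε
      rw [m.mem_TT] at hε
      rcases class3 hg hl m hF hLone hLL hdeg rfl hε.2.2.1 hε.2.1 hε.1.le hε.2.2.2.le with
        ⟨q', hq', hB', he⟩ | ⟨q', hq', l, hl', _⟩ | ⟨p, hp, _⟩
      · exact ⟨q', mem_filter.2 ⟨hq', hB'⟩, he.symm⟩
      · simp at hl'
      · simp at hp
    · rintro ⟨q', hq', rfl⟩
      rw [mem_filter] at hq'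
      exact (cfA_data hg hl m hq'.1 hq'.2 rfl).1
  have h6 : ∑ ε ∈ m.TT 3 (lev α i).card, (-1 : ℤ) ^ (inF i ε).card = 0 := key
  rw [h5, Finset.sum_image] at h6
  · rw [Finset.sum_congr rfl (fun q' hq' => (cfA_data hg hl m (mem_filter.1 hq').1
      (mem_filter.1 hq').2 rfl).2), Finset.sum_const, nsmul_eq_mul] at h6
    have h7 : (((U2 α i).filter fun q => (BB i q).card = 4).card : ℤ) = 0 := by
      rcases mul_eq_zero.1 h6 with h7 | h7
      · exact h7
      · exact absurd h7 (pow_ne_zero _ (by norm_num))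
    have h8 : ((U2 α i).filter fun q => (BB i q).card = 4).card = 0 := by exact_mod_cast h7
    rw [card_eq_zero] at h8
    have h9 : q ∈ (U2 α i).filter fun q => (BB i q).card = 4 := mem_filter.2 ⟨hq, h4⟩
    rw [h8] at h9
    simp at h9
  · intro a ha b hb hab
    have ha' := mem_filter.1 (mem_coe.1 ha)
    have hb' := mem_filter.1 (mem_coe.1 hb)
    exact cfA_inj (mem_U2.1 ha'.1).1 (mem_U2.1 hb'.1).1 hg hab

lemma cfB_inj (hg : Grad α) (hl : HasLower α i) {q q' l l' : α} (hq : ds i q = 2)
    (hq' : ds i q' = 2) (hl1 : ds i l = 1) (hl1' : ds i l' = 1)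
    (hd : Disjoint (BB i q) (bd i l)) (hd' : Disjoint (BB i q') (bd i l'))
    (h : cfB i q l = cfB i q' l') : q = q' ∧ l = l' := by
  have h1 := ind_inj h
  have h2 : q = q' := by
    have h2 : q ∈ {q'} ∪ insert l' (bd i q') ∪ ∅ := by
      rw [← h1]
      simp
    rw [union_empty, mem_union, mem_singleton, mem_insert] at h2
    rcases h2 with h2 | h2 | h2
    · exact h2
    · rw [h2] at hq
      omega
    · have := ds_of_mem_bd hg hq' h2
      omega
  refine ⟨h2, ?_⟩
  have h3 : l ∈ {q'} ∪ insert l' (bd i q') ∪ ∅ := by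
    rw [← h1]
    simp
  rw [union_empty, mem_union, mem_singleton, mem_insert] at h3
  rcases h3 with h3 | h3 | h3
  · rw [h3] at hl1
    omega
  · exact h3
  · rw [← h2] at h3
    exact absurd h3 (not_mem_bd_of_disjoint hg hl hl1 hd)

/-- **D3**: the relation of order three at a level with one defect -/
theorem D3 {h : Fin (Fintype.card α) → ℕ} (hG : IsGaussianWith α h) (hl : HasLower α i)
    (m : Mat α i) {z x k : α} (hF : m.FullX {z, x}) (hL : m.Lone {z, x}) (hz : corank z < i)
    (hx : i < corank x) (hk : bd i z ∩ bd i x = {k})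
    (hdeg : ∀ p : α, (bd i p).card ≤ 2) :
    (((U2 α i).filter fun q => (BB i q).card = 4).card : ℤ) +
      ∑ q ∈ (U1 α i).filter (fun q => (BB i q).card = 2),
        sg i q * ((if Disjoint (BB i q) (bd i x) then 1 else 0) -
          (if Disjoint (BB i q) (bd i z) then 1 else 0)) = 1 := by
  have hg := grad hG
  have hzL : z ∈ ({z, x} : Finset α) := by simp
  have hxL : x ∈ ({z, x} : Finset α) := by simp
  have hzx : z ≠ x := by
    rintro rfl
    omega
  have hLL : LL i ({z, x} : Finset α) := by
    intro p hp p' hp' hne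
    simp only [mem_insert, mem_singleton] at hp hp'
    rcases hp with rfl | rfl <;> rcases hp' with rfl | rfl
    · exact absurd rfl hne
    · exact ⟨Or.inl ⟨hz, hx⟩, k, hk⟩
    · exact ⟨Or.inr ⟨hx, hz⟩, k, by rw [inter_comm]; exact hk⟩
    · exact absurd rfl hne
  have hcomm : ∀ p p' : α, cfC p p' k = cfC p' p k := by
    intro p p'
    unfold cfC
    rw [pair_comm]
  have hn : 2 ≤ (lev α i).card := by
    obtain ⟨hzd, hz2, _⟩ := hL z hzL
    rw [← hz2]
    apply card_le_card
    intro y hy
    rw [mem_lev]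
    exact bd_lev hg hzd hy
  -- the last configuration
  have hC : ∀ p ∈ ({z, x} : Finset α), ∀ p' ∈ ({z, x} : Finset α), p ≠ p' → ∀ k',
      bd i p ∩ bd i p' = {k'} → cfC p p' k' = cfC z x k := by
    intro p hp p' hp' hne k' hk'
    simp only [mem_insert, mem_singleton] at hp hp'
    rcases hp with rfl | rfl <;> rcases hp' with rfl | rfl
    · exact absurd rfl hne
    · rw [hk] at hk'
      rw [Finset.singleton_injective hk']
    · rw [inter_comm, hk] at hk'
      rw [← Finset.singleton_injective hk', hcomm]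
    · exact absurd rfl hne
  have key := m.engine hG hl 3 _ rfl hn (by
    intro ε hε hred hs hpk
    rcases class3 hg hl m hF hL hLL hdeg rfl hε hred hs hpk with
      ⟨q', hq', hB', he⟩ | ⟨q', hq', l, hl', hB', hd', he⟩ | ⟨p, hp, p', hp', hne, k', hk', he⟩
    · have := (cfA_data hg hl m hq' hB' rfl).1
      rw [← he, m.mem_TT] at this
      exact ⟨this.1, this.2.2.2⟩
    · have := (cfB_data hg hl m hL hq' hl' hB' hd' rfl).1
      rw [← he, m.mem_TT] at this
      exact ⟨this.1, this.2.2.2⟩
    · rw [hC p hp p' hp' hne k' hk'] at he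
      have := (cfC_data hg hl m hL hzL hxL hz hx hk rfl).1
      rw [← he, m.mem_TT] at this
      exact ⟨this.1, this.2.2.2⟩)
  set F := (U2 α i).filter fun q => (BB i q).card = 4 with hFd
  set G := ((U1 α i).filter (fun q => (BB i q).card = 2) ×ˢ ({z, x} : Finset α)).filter
    (fun a => Disjoint (BB i a.1) (bd i a.2)) with hGd
  have memF : ∀ q, q ∈ F ↔ q ∈ U2 α i ∧ (BB i q).card = 4 := by
    intro q
    rw [hFd, mem_filter]
  have memG : ∀ a : α × α, a ∈ G ↔ (a.1 ∈ U1 α i ∧ (BB i a.1).card = 2) ∧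
      a.2 ∈ ({z, x} : Finset α) ∧ Disjoint (BB i a.1) (bd i a.2) := by
    intro a
    rw [hGd, mem_filter, mem_product, mem_filter]
    tauto
  have h5 : m.TT 3 (lev α i).card = (F.image (cfA i) ∪ G.image (fun a => cfB i a.1 a.2)) ∪
      {cfC z x k} := by
    ext ε
    rw [mem_union, mem_union, mem_image, mem_image, mem_singleton]
    constructor
    · intro hε
      rw [m.mem_TT] at hε
      rcases class3 hg hl m hF hL hLL hdeg rfl hε.2.2.1 hε.2.1 hε.1.le hε.2.2.2.le with
        ⟨q', hq', hB', he⟩ | ⟨q', hq', l, hl', hB', hd', he⟩ | ⟨p, hp, p', hp', hne, k', hk', he⟩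
      · exact Or.inl (Or.inl ⟨q', (memF q').2 ⟨hq', hB'⟩, he.symm⟩)
      · exact Or.inl (Or.inr ⟨(q', l), (memG _).2 ⟨⟨hq', hB'⟩, hl', hd'⟩, he.symm⟩)
      · right
        rw [hC p hp p' hp' hne k' hk'] at he
        exact he
    · rintro ((⟨q', hq', rfl⟩ | ⟨a, ha, rfl⟩) | rfl)
      · rw [memF] at hq'
        exact (cfA_data hg hl m hq'.1 hq'.2 rfl).1
      · rw [memG] at ha
        exact (cfB_data hg hl m hL ha.1.1 ha.2.1 ha.1.2 ha.2.2 rfl).1
      · exact (cfC_data hg hl m hL hzL hxL hz hx hk rfl).1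
  have h6 : ∑ ε ∈ m.TT 3 (lev α i).card, (-1 : ℤ) ^ (inF i ε).card = 0 := key
  -- distance-two elements of the configurations
  have hA2 : ∀ q t : α, ds i q = 2 → ds i t = 2 → (0 < cfA i q t ↔ t = q) := by
    intro q t hq ht
    unfold cfA
    rw [ind_pos, union_empty, mem_union, mem_singleton]
    constructor
    · rintro (h7 | h7)
      · exact h7
      · have := ds_of_mem_bd hg hq h7
        omega
    · intro h7
      exact Or.inl h7
  have hB2 : ∀ q l t : α, ds i q = 2 → ds i l = 1 → ds i t = 2 → (0 < cfB i q l t ↔ t = q) := by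
    intro q l t hq hl1 ht
    unfold cfB
    rw [ind_pos, union_empty, mem_union, mem_singleton, mem_insert]
    constructor
    · rintro (h7 | h7 | h7)
      · exact h7
      · rw [h7] at ht
        omega
      · have := ds_of_mem_bd hg hq h7
        omega
    · intro h7
      exact Or.inl h7
  have hC2 : ∀ t : α, ds i t = 2 → ¬ 0 < cfC z x k t := by
    intro t ht
    unfold cfC
    rw [ind_pos, empty_union, mem_union, mem_singleton, mem_insert, mem_singleton]
    obtain ⟨hzd, _⟩ := hL z hzL
    obtain ⟨hxd, _⟩ := hL x hxL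
    have hk' : k ∈ bd i z ∩ bd i x := by rw [hk]; exact mem_singleton_self k
    rw [mem_inter] at hk'
    have hki := ds_eq_zero.2 (bd_lev hg hzd hk'.1)
    rintro ((h7 | h7) | h7)
    · rw [h7] at ht; omega
    · rw [h7] at ht; omega
    · rw [h7] at ht; omega
  have hdis1 : Disjoint (F.image (cfA i)) (G.image (fun a => cfB i a.1 a.2)) := by
    rw [Finset.disjoint_left]
    intro ε h7 h8
    rw [mem_image] at h7 h8
    obtain ⟨q, hq, rfl⟩ := h7
    obtain ⟨a, ha, h8⟩ := h8
    rw [memF, mem_U2] at hq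
    rw [memG, mem_U1] at ha
    have hl1 := (hL a.2 ha.2.1).1
    have h9 : a.1 = q := by
      rw [← hA2 q a.1 hq.1.1 ha.1.1.1, ← h8, hB2 a.1 a.2 a.1 ha.1.1.1 hl1 ha.1.1.1]
    have h10 := ha.1.1.2
    rw [h9, hq.1.2] at h10
    omega
  have hdis2 : Disjoint (F.image (cfA i) ∪ G.image (fun a => cfB i a.1 a.2)) {cfC z x k} := by
    rw [Finset.disjoint_singleton_right, mem_union, mem_image, mem_image]
    rintro (⟨q, hq, h7⟩ | ⟨a, ha, h7⟩)
    · rw [memF, mem_U2] at hq
      apply hC2 q hq.1.1
      rw [← h7, hA2 q q hq.1.1 hq.1.1]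
    · rw [memG, mem_U1] at ha
      have hl1 := (hL a.2 ha.2.1).1
      apply hC2 a.1 ha.1.1.1
      rw [← h7, hB2 a.1 a.2 a.1 ha.1.1.1 hl1 ha.1.1.1]
  rw [h5, Finset.sum_union hdis2, Finset.sum_union hdis1, Finset.sum_image, Finset.sum_image,
    Finset.sum_singleton] at h6
  · have e1 : ∑ q ∈ F, (-1 : ℤ) ^ (inF i (cfA i q)).card = (-1) ^ (low α i).card * F.card := by
      rw [Finset.sum_congr rfl (fun q' hq' => (cfA_data hg hl m ((memF q').1 hq').1
        ((memF q').1 hq').2 rfl).2), Finset.sum_const, nsmul_eq_mul, mul_comm]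
    have e2 : ∑ a ∈ G, (-1 : ℤ) ^ (inF i (cfB i a.1 a.2)).card =
        (-1) ^ (low α i).card * ∑ a ∈ G, sg i a.1 * sg i a.2 := by
      rw [Finset.mul_sum]
      apply Finset.sum_congr rfl
      intro a ha
      rw [memG] at ha
      exact (cfB_data hg hl m hL ha.1.1 ha.2.1 ha.1.2 ha.2.2 rfl).2
    have e3 := (cfC_data hg hl m hL hzL hxL hz hx hk rfl).2
    rw [e1, e2, e3, ← mul_add, ← mul_add] at h6
    rcases mul_eq_zero.1 h6 with h7 | h7
    · exact absurd h7 (pow_ne_zero _ (by norm_num))
    have e4 : ∑ a ∈ G, sg i a.1 * sg i a.2 =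
        ∑ q ∈ (U1 α i).filter (fun q => (BB i q).card = 2),
        sg i q * ((if Disjoint (BB i q) (bd i x) then 1 else 0) -
          (if Disjoint (BB i q) (bd i z) then 1 else 0)) := by
      rw [hGd, Finset.sum_filter, Finset.sum_product]
      apply Finset.sum_congr rfl
      intro q _
      rw [Finset.sum_pair hzx]
      have s1 : sg i z = -1 := by unfold sg; rw [if_pos hz]
      have s2 : sg i x = 1 := by unfold sg; rw [if_neg (by omega)]
      rw [s1, s2]
      by_cases c1 : Disjoint (BB i q) (bd i z) <;> by_cases c2 : Disjoint (BB i q) (bd i x)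
      · simp [c1, c2]
      · simp [c1, c2]
      · simp [c1, c2]
      · simp [c1, c2]
    rw [e4] at h7
    linarith
  · intro a ha b hb hab
    rw [mem_coe, memG, mem_U1] at ha hb
    obtain ⟨h7, h8⟩ := cfB_inj hg hl ha.1.1.1 hb.1.1.1 (hL a.2 ha.2.1).1 (hL b.2 hb.2.1).1
      ha.2.2 hb.2.2 hab
    exact Prod.ext h7 h8
  · intro a ha b hb hab
    rw [mem_coe, memF, mem_U2] at ha hb
    exact cfA_inj ha.1.1 hb.1.1 hg hab

end Pool.Gauss
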