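import Pool.Agent.Work.MP_065141_co.Rel4

/-!
# The relation P4
-/

set_option autoImplicit false
set_option linter.unusedSectionVars false
set_option linter.unusedVariables false
open scoped Classical
open Finset Polynomial

namespace Pool.Gauss

variable {α : Type} [Fintype α] [PartialOrder α] {i : ℕ}

/-- an element at distance two over a single and a disjoint double element -/
def bad3 (i : ℕ) (q : α) : Prop := (BB i q).card = 3 ∧ ∃ p ∈ bd i q, (bd i p).card = 1

lemma cfD_comm (q q' : α) : cfD i q q' = cfD i q' q := by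
  unfold cfD
  rw [pair_comm, union_comm (bd i q)]

lemma isD_comm {q q' : α} (h : isD i q q') : isD i q' q := ⟨h.2.1, h.1, h.2.2.symm⟩

lemma isD_ne {q q' : α} (h : isD i q q') : q ≠ q' := by
  rintro rfl
  have h1 := h.2.2
  rw [disjoint_self_iff_empty] at h1
  have h2 := h.1.2
  rw [h1] at h2
  simp at h2

/-- the data of `cfD` -/
lemma cfD_data (hg : Grad α) (hl : HasLower α i) (m : Mat α i) {q q' : α} (hD : isD i q q')
    {n : ℕ} (hn : (lev α i).card = n) :
    cfD i q q' ∈ m.TT 4 n ∧
      (-1 : ℤ) ^ (inF i (cfD i q q')).card = (-1) ^ (low α i).card * (sg i q * sg i q') := by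
  have hne := isD_ne hD
  obtain ⟨⟨hq, hB⟩, ⟨hq', hB'⟩, hd⟩ := hD
  rw [mem_U1] at hq hq'
  obtain ⟨p, hp⟩ := Finset.card_eq_one.1 hq.2
  obtain ⟨p', hp'⟩ := Finset.card_eq_one.1 hq'.2
  have hpq : p ∈ bd i q := by rw [hp]; exact mem_singleton_self p
  have hpq' : p' ∈ bd i q' := by rw [hp']; exact mem_singleton_self p'
  have hpd := ds_of_mem_bd hg hq.1 hpq
  have hpd' := ds_of_mem_bd hg hq'.1 hpq'
  have hBp : BB i q = bd i p := by unfold BB; rw [hp, singleton_biUnion]
  have hBp' : BB i q' = bd i p' := by unfold BB; rw [hp', singleton_biUnion]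
  have hQ : ∀ t ∈ ({q, q'} : Finset α), ds i t = 2 := by
    intro t ht
    rw [mem_insert, mem_singleton] at ht
    rcases ht with rfl | rfl
    · exact hq.1
    · exact hq'.1
  have hA : ∀ t ∈ bd i q ∪ bd i q', ds i t = 1 := by
    intro t ht
    rw [mem_union] at ht
    rcases ht with h | h
    · exact ds_of_mem_bd hg hq.1 h
    · exact ds_of_mem_bd hg hq'.1 h
  have hZ : ∀ t ∈ (∅ : Finset α), corank t = i := by simp
  have hQA : ∀ t ∈ ({q, q'} : Finset α), bd i t ⊆ bd i q ∪ bd i q' := by
    intro t ht
    rw [mem_insert, mem_singleton] at ht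
    rcases ht with rfl | rfl
    · exact subset_union_left
    · exact subset_union_right
  have hside : ∀ p ∈ bd i q ∪ bd i q', ∀ p' ∈ bd i q ∪ bd i q', corank p < i → i < corank p' →
      ∀ y, y ∈ bd i p → y ∈ bd i p' → y ∈ (∅ : Finset α) := by
    intro a ha b hb h1 h2 y hy hy'
    exfalso
    rw [mem_union] at ha hb
    have hin : ∀ r t : α, t ∈ bd i r → ∀ y, y ∈ bd i t → y ∈ BB i r := by
      intro r t ht y hy
      unfold BB
      rw [mem_biUnion]
      exact ⟨t, ht, hy⟩
    rcases ha with ha | ha <;> rcases hb with hb | hb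
    · have := side_of_mem_bd hg hq.1 ha
      have := side_of_mem_bd hg hq.1 hb
      omega
    · exact Finset.disjoint_left.1 hd (hin q a ha y hy) (hin q' b hb y hy')
    · exact Finset.disjoint_left.1 hd (hin q b hb y hy') (hin q' a ha y hy)
    · have := side_of_mem_bd hg hq'.1 ha
      have := side_of_mem_bd hg hq'.1 hb
      omega
  have hdat := cfg_free hg hl hQ hA hZ hQA hside rfl
  have hgood := cfg_good hg hl hQ hA hZ hQA hside
  have hred := cfg_red hg m (L := ∅) (by intro p hp; simp at hp) hQ hA hZ (by
    intro t ht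
    rw [mem_union] at ht
    rcases ht with ht | ht
    · exact Or.inl ⟨q, by simp, ht⟩
    · exact Or.inl ⟨q', by simp, ht⟩)
  have hc := card_cfg hQ hA hZ
  have hppne : p ≠ p' := by
    rintro rfl
    rw [hBp, hBp', disjoint_self_iff_empty] at hd
    rw [hBp, hd] at hB
    simp at hB
  have hcA : (bd i q ∪ bd i q').card = 2 := by
    have e1 : (bd i q ∪ bd i q') = {p, p'} := by rw [hp, hp']; rfl
    rw [e1, card_pair hppne]
  have hcY : ((bd i q ∪ bd i q').biUnion (bd i)).card = 4 := by
    rw [union_biUnion, card_union_of_disjoint]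
    · have h1 : ((bd i q).biUnion (bd i)).card = 2 := hB
      have h2 : ((bd i q').biUnion (bd i)).card = 2 := hB'
      rw [h1, h2]
    · exact hd
  constructor
  · rw [m.mem_TT]
    unfold cfD
    refine ⟨?_, hred, hgood, ?_⟩
    · rw [sum_ind, hc, hcA, card_pair hne]
      simp
    · have := hdat.1
      rw [hcY, hcA] at this
      omega
  · unfold cfD
    rw [hdat.2]
    congr 1
    rw [hp, hp', sign_union hg (by simpa using hppne), sign_one hg hpd (by rw [← hBp]; exact hB),
      sign_one hg hpd' (by rw [← hBp']; exact hB')]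
    · have h1 := side_of_mem_bd hg hq.1 hpq
      have h2 := side_of_mem_bd hg hq'.1 hpq'
      unfold sg
      simp only [h1.1, h2.1]
    · rw [singleton_biUnion, singleton_biUnion, ← hBp, ← hBp']
      exact hd

/-- the data of `cfE4` -/
lemma cfE_data (hg : Grad α) (hl : HasLower α i) (m : Mat α i) {q : α} (hq : q ∈ U2 α i)
    (hB : (BB i q).card = 3) {n : ℕ} (hn : (lev α i).card = n) :
    cfE4 i q ∈ m.TT 4 n ∧
      (-1 : ℤ) ^ (inF i (cfE4 i q)).card = (-1) ^ (low α i).card * (-1) := by
  rw [mem_U2] at hq
  have hQ : ∀ t ∈ ({q} : Finset α), ds i t = 2 := by simpa using hq.1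
  have hA : ∀ t ∈ bd i q, ds i t = 1 := fun t ht => ds_of_mem_bd hg hq.1 ht
  have hc := card_cfg hQ hA (Z := ∅) (by simp)
  have hqi : corank q ≠ i := by
    intro h
    rw [← ds_eq_zero] at h
    omega
  have hqq : q ∉ bd i q := by
    intro h
    have := hA q h
    omega
  -- values
  have vq : cfE4 i q q = 2 := by
    unfold cfE4
    simp only [Pi.add_apply]
    rw [ind_mem (by simp), ind_mem (by simp)]
  have vp : ∀ t ∈ bd i q, cfE4 i q t = 1 := by
    intro t ht
    unfold cfE4
    simp only [Pi.add_apply]
    rw [ind_mem (by rw [union_empty, mem_union]; exact Or.inr ht), ind_notMem]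
    rw [mem_singleton]
    rintro rfl
    exact hqq ht
  have v0 : ∀ t, t ≠ q → t ∉ bd i q → cfE4 i q t = 0 := by
    intro t h1 h2
    unfold cfE4
    simp only [Pi.add_apply]
    rw [ind_notMem (by rw [union_empty, mem_union, mem_singleton]; tauto),
      ind_notMem (by rwa [mem_singleton])]
  have vlev : ∀ y, corank y = i → cfE4 i q y = 0 := by
    intro y hy
    apply v0
    · rintro rfl
      exact hqi hy
    · intro h
      have := hA y h
      rw [ds_eq_zero.2 hy] at this
      omega
  have hfd : ∀ t, fd i (cfE4 i q) t ↔ t ∈ bd i q ∨ t ∈ BB i q := by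
    intro t
    constructor
    · rintro ⟨s, hs1, hs2⟩
      by_cases hsq : s = q
      · left
        rw [hsq] at hs1
        exact mem_bd.2 hs1
      · by_cases hs : s ∈ bd i q
        · right
          unfold BB
          rw [mem_biUnion]
          exact ⟨s, hs, mem_bd.2 hs1⟩
        · rw [v0 s hsq hs] at hs2
          omega
    · rintro (h | h)
      · exact ⟨q, mem_bd.1 h, by rw [vq, vp t h]; omega⟩
      · have hti : corank t = i := by
          have := BB_subset hg hq.1 h
          rwa [mem_lev] at this
        unfold BB at h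
        rw [mem_biUnion] at h
        obtain ⟨s, hs, hs2⟩ := h
        exact ⟨s, mem_bd.1 hs2, by rw [vp s hs, vlev t hti]; omega⟩
  have hnd : ∀ t, corank t ≠ i → (nd i (cfE4 i q) t ↔ t ≠ q ∧ t ∉ bd i q) := by
    intro t ht
    constructor
    · rintro ⟨s, hs1, hs2⟩
      constructor
      · rintro rfl
        have h1 : s ∈ bd i t := mem_bd.2 hs1
        rw [vq, vp s h1] at hs2
        omega
      · intro h
        have h1 : corank s = i := bd_lev hg (hA t h) (mem_bd.2 hs1)
        rw [vp t h, vlev s h1] at hs2
        omega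
    · rintro ⟨h1, h2⟩
      obtain ⟨s, hs⟩ := exists_near hg hl ht
      exact ⟨s, hs, by rw [v0 t h1 h2]; omega⟩
  have hBlev : ∀ t ∈ BB i q, corank t = i := by
    intro t ht
    have := BB_subset hg hq.1 ht
    rwa [mem_lev] at this
  have hgood : GoodE i (cfE4 i q) := by
    apply goodE_of_goodS hg hl
    constructor
    · rintro t ht ⟨h1, h2⟩
      rw [hfd] at h1
      rw [hnd t ht] at h2
      rcases h1 with h1 | h1
      · exact h2.2 h1
      · exact ht (hBlev t h1)
    · rintro y hy ⟨h1, h2⟩
      rw [inE_lev hy] at h1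
      rw [outE_lev hy] at h2
      obtain ⟨x, hx, h1⟩ := h1
      obtain ⟨z, hz, h2⟩ := h2
      rw [vlev y hy] at h1 h2
      have h3 := hg x y hx
      have h4 := hg y z hz
      have hx1 : x ∈ bd i q := by
        by_contra h
        rw [v0 x _ h] at h1
        · omega
        · rintro rfl
          have := hq.1
          unfold ds at this
          omega
      have hz1 : z ∈ bd i q := by
        by_contra h
        rw [v0 z _ h] at h2
        · omega
        · rintro rfl
          have := hq.1
          unfold ds at this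
          omega
      have := side_of_mem_bd hg hq.1 hx1
      have := side_of_mem_bd hg hq.1 hz1
      omega
  have hred : m.Red (cfE4 i q) := by
    intro t ht
    obtain ⟨h1, h2⟩ := m.rst_prop ht
    have hd : ds i t = 1 := by unfold ds; omega
    apply v0
    · rintro rfl
      rw [hq.1] at hd
      omega
    · intro h
      exact h1 (att_of_fr hg hd (mem_bd.1 h) (by rw [vq]; omega))
  have hFo : Fo i (cfE4 i q) = {q} := by
    ext t
    unfold Fo
    rw [mem_filter, mem_singleton]
    constructor
    · rintro ⟨_, h1, h2, h3⟩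
      rw [hfd] at h2
      rw [hnd t h1] at h3
      by_contra h4
      exact h3 ⟨h4, fun h5 => h2 (Or.inl h5)⟩
    · rintro rfl
      refine ⟨mem_univ _, hqi, ?_, ?_⟩
      · rw [hfd]
        rintro (h | h)
        · exact hqq h
        · exact hqi (hBlev t h)
      · rw [hnd t hqi]
        exact fun h => h.1 rfl
  have hYd : Yd i (cfE4 i q) = BB i q := by
    ext y
    unfold Yd
    rw [mem_filter, mem_lev, hfd]
    constructor
    · rintro ⟨h1, h2 | h2⟩
      · have := hA y h2
        rw [ds_eq_zero.2 h1] at this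
        omega
      · exact h2
    · intro h
      exact ⟨hBlev y h, Or.inr h⟩
  have hFdd : Fd i (cfE4 i q) = bd i q := by
    ext t
    unfold Fd
    rw [mem_filter, hfd]
    constructor
    · rintro ⟨_, h1, h2 | h2⟩
      · exact h2
      · exact absurd (hBlev t h2) h1
    · intro h
      refine ⟨mem_univ _, ?_, Or.inl h⟩
      intro h1
      have := hA t h
      rw [ds_eq_zero.2 h1] at this
      omega
  have hpk := card_pkF hg hl hgood
  have hsg := sign_inF hg hl hgood
  rw [hFo, hYd, card_singleton, hB] at hpk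
  constructor
  · rw [m.mem_TT]
    refine ⟨?_, hred, hgood, by omega⟩
    unfold cfE4
    simp only [Pi.add_apply]
    rw [Finset.sum_add_distrib, sum_ind, sum_ind, hc, hq.2]
    simp
  · rw [hsg, hFdd, hFo, hq.2]
    congr 1
    rcases lt_or_gt_of_ne hqi with h | h
    · -- above
      have h1 : (({q} : Finset α).filter fun p => corank p < i) = {q} := by
        rw [Finset.filter_singleton, if_pos h]
      have h2 : Yin i (cfE4 i q) = ∅ := by
        unfold Yin
        apply Finset.filter_false_of_mem
        intro y hy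
        rw [mem_lev] at hy
        rw [inE_lev hy]
        rintro ⟨x, hx, h3⟩
        rw [vlev y hy] at h3
        have h4 := hg x y hx
        have hx1 : x ∈ bd i q := by
          by_contra h5
          rw [v0 x _ h5] at h3
          · omega
          · rintro rfl
            omega
        have := side_of_mem_bd hg hq.1 hx1
        omega
      rw [h1, h2]
      simp
    · have h1 : (({q} : Finset α).filter fun p => corank p < i) = ∅ := by
        rw [Finset.filter_singleton, if_neg (by omega)]
      have h2 : Yin i (cfE4 i q) = BB i q := by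
        ext y
        unfold Yin
        rw [mem_filter, mem_lev]
        constructor
        · rintro ⟨hy, h3⟩
          rw [inE_lev hy] at h3
          obtain ⟨x, hx, h3⟩ := h3
          rw [vlev y hy] at h3
          have h4 := hg x y hx
          have hx1 : x ∈ bd i q := by
            by_contra h5
            rw [v0 x _ h5] at h3
            · omega
            · rintro rfl
              have := hq.1
              unfold ds at this
              omega
          unfold BB
          rw [mem_biUnion]
          exact ⟨x, hx1, mem_bd.2 (fr_of_below hy.ge hx)⟩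
        · intro h3
          have hy := hBlev y h3
          refine ⟨hy, ?_⟩
          rw [inE_lev hy]
          unfold BB at h3
          rw [mem_biUnion] at h3
          obtain ⟨x, hx, h4⟩ := h3
          have h5 := side_of_mem_bd hg hq.1 hx
          refine ⟨x, (fr_below' hg (mem_bd.1 h4) (by omega)).2, ?_⟩
          rw [vp x hx, vlev y hy]
          omega
      rw [h1, h2, hB]
      simp

/-- the data of `cfF` -/
lemma cfF_data (hg : Grad α) (hl : HasLower α i) (m : Mat α i)
    (hdeg : ∀ p : α, (bd i p).card ≤ 2) {q : α} (hq : q ∈ U2 α i)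
    (hB : (BB i q).card = 3) (hI : (II i q).Nonempty) {n : ℕ} (hn : (lev α i).card = n) :
    cfF i q ∈ m.TT 4 n ∧ (-1 : ℤ) ^ (inF i (cfF i q)).card = (-1) ^ (low α i).card := by
  obtain ⟨y, hy⟩ := hI
  obtain ⟨hIy, _⟩ := card_II hg hdeg hq hB hy
  have hq0 := hq
  rw [mem_U2] at hq
  have hQ : ∀ t ∈ ({q} : Finset α), ds i t = 2 := by simpa using hq.1
  have hA : ∀ t ∈ bd i q, ds i t = 1 := fun t ht => ds_of_mem_bd hg hq.1 ht
  have hyB : y ∈ BB i q := by
    obtain ⟨p, hp⟩ := Finset.card_pos.1 (show 0 < (bd i q).card by omega)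
    unfold BB
    rw [mem_biUnion]
    exact ⟨p, hp, mem_II.1 hy p hp⟩
  have hyi : corank y = i := by
    have := BB_subset hg hq.1 hyB
    rwa [mem_lev] at this
  have hZ : ∀ t ∈ II i q, corank t = i := by
    rw [hIy]
    simpa using hyi
  have hQA : ∀ t ∈ ({q} : Finset α), bd i t ⊆ bd i q := by simp
  have hside : ∀ p ∈ bd i q, ∀ p' ∈ bd i q, corank p < i → i < corank p' →
      ∀ y, y ∈ bd i p → y ∈ bd i p' → y ∈ II i q := by
    intro p hp p' hp' h1 h2
    have := side_of_mem_bd hg hq.1 hp
    have := side_of_mem_bd hg hq.1 hp'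
    omega
  have hgood := cfg_good hg hl hQ hA hZ hQA hside
  have hred := cfg_red hg m (L := ∅) (by intro p hp; simp at hp) hQ hA hZ (by
    intro p hp
    left
    exact ⟨q, mem_singleton_self q, hp⟩)
  have hc := card_cfg hQ hA hZ
  have hFo := cfg_Fo hg hl hQ hA hZ hQA
  have hYd := cfg_Yd hg hQ hA hZ
  have hYin := cfg_Yin hg hQ hA hZ
  have hFd := ind_Fd (cfg_nclosed hg hQ hA hZ hQA)
  have hFo' : ((bd i q).filter fun p => Disjoint (bd i p) (II i q)) = ∅ := by
    apply Finset.filter_false_of_mem
    intro t ht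
    rw [hIy, Finset.disjoint_singleton_right, not_not]
    exact mem_II.1 hy t ht
  rw [hFo'] at hFo
  have hY : ((bd i q).biUnion (bd i) \ II i q).card = 2 := by
    have h1 : (bd i q).biUnion (bd i) = BB i q := rfl
    rw [h1, hIy, card_sdiff_of_subset (by simpa using hyB), card_singleton, hB]
  have hpk := card_pkF hg hl hgood
  have hsg := sign_inF hg hl hgood
  rw [hFo, hYd, hY, card_empty] at hpk
  constructor
  · rw [m.mem_TT]
    unfold cfF
    refine ⟨?_, hred, hgood, by omega⟩
    rw [sum_ind, hc, hq.2, hIy]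
    simp
  · unfold cfF
    rw [hsg, hFd, hFo, hYin]
    have hqi : corank q ≠ i := by
      intro h
      rw [← ds_eq_zero] at h
      omega
    rcases lt_or_gt_of_ne hqi with h | h
    · have h5 : ((bd i q).filter fun p => i < corank p) = ∅ := by
        apply Finset.filter_false_of_mem
        intro p hp
        have := (side_of_mem_bd hg hq.1 hp).1.2 h
        omega
      rw [h5]
      simp
    · have h4 : ((bd i q).filter fun p => i < corank p) = bd i q :=
        Finset.filter_true_of_mem fun p hp => (side_of_mem_bd hg hq.1 hp).2.2 h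
      rw [h4, hY]
      simp

/-- **P4**: the relation of order four at a perfect level -/
theorem P4 {h : Fin (Fintype.card α) → ℕ} (hG : IsGaussianWith α h) (hl : HasLower α i)
    (m : Mat α i) (hF : m.FullX ∅) (hdeg : ∀ p : α, (bd i p).card ≤ 2) :
    ∑ q ∈ (U1 α i).filter (fun q => (BB i q).card = 2),
      ∑ q' ∈ (U1 α i).filter (fun q => (BB i q).card = 2),
        (if Disjoint (BB i q) (BB i q') then sg i q * sg i q' else 0) =
      2 * (((U2 α i).filter fun q => bad3 i q).card : ℤ) := by
  have hg := grad hG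
  have hP3 : ∀ q ∈ U2 α i, (BB i q).card ≤ 3 := fun q hq => P3 hG hl m hF hdeg hq
  set W := (U1 α i).filter (fun q => (BB i q).card = 2) with hW
  set P := (W ×ˢ W).filter (fun a => Disjoint (BB i a.1) (BB i a.2)) with hPd
  set E := (U2 α i).filter (fun q => (BB i q).card = 3) with hE
  set F := E.filter (fun q => (II i q).Nonempty) with hFF
  have memP : ∀ a : α × α, a ∈ P ↔ isD i a.1 a.2 := by
    intro a
    rw [hPd, mem_filter, mem_product, hW, mem_filter, mem_filter]
    unfold isD
    tauto
  have memE : ∀ q, q ∈ E ↔ q ∈ U2 α i ∧ (BB i q).card = 3 := by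
    intro q
    rw [hE, mem_filter]
  have memF : ∀ q, q ∈ F ↔ (q ∈ U2 α i ∧ (BB i q).card = 3) ∧ (II i q).Nonempty := by
    intro q
    rw [hFF, mem_filter, memE]
  -- the level has at least two elements, otherwise everything is trivial
  have hLHS : ∑ q ∈ W, ∑ q' ∈ W, (if Disjoint (BB i q) (BB i q') then sg i q * sg i q' else 0) =
      ∑ a ∈ P, sg i a.1 * sg i a.2 := by
    rw [hPd, Finset.sum_filter (s := W ×ˢ W), Finset.sum_product]
  have hbad : ((U2 α i).filter fun q => bad3 i q).card + F.card = E.card := by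
    rw [← card_union_of_disjoint]
    · congr 1
      ext q
      rw [mem_union, mem_filter, memF, memE]
      constructor
      · rintro (⟨h1, h2, _⟩ | ⟨h1, _⟩)
        · exact ⟨h1, h2⟩
        · exact h1
      · rintro ⟨h1, h2⟩
        by_cases h3 : (II i q).Nonempty
        · exact Or.inr ⟨⟨h1, h2⟩, h3⟩
        · left
          refine ⟨h1, h2, ?_⟩
          rw [Finset.not_nonempty_iff_eq_empty] at h3
          have h1' := h1
          rw [mem_U2] at h1'
          obtain ⟨p, p', hne, hpp⟩ := Finset.card_eq_two.1 h1'.2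
          have hBB : BB i q = bd i p ∪ bd i p' := by
            unfold BB
            rw [hpp, biUnion_insert, singleton_biUnion]
          have hII : II i q = bd i p ∩ bd i p' := by
            ext t
            rw [mem_II, hpp, mem_inter]
            simp
          have h4 := Finset.card_union_add_card_inter (bd i p) (bd i p')
          rw [← hBB, ← hII, h2, h3, card_empty] at h4
          have h5 := hdeg p
          have h6 := hdeg p'
          rcases Nat.lt_or_ge (bd i p).card 2 with h7 | h7
          · exact ⟨p, by rw [hpp]; simp, by omega⟩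
          · exact ⟨p', by rw [hpp]; simp, by omega⟩
    · rw [Finset.disjoint_left]
      intro q hq hq'
      rw [mem_filter] at hq
      rw [memF] at hq'
      obtain ⟨y, hy⟩ := hq'.2
      obtain ⟨p, hp, hp1⟩ := hq.2.2
      have := (card_II hg hdeg hq.1 hq.2.1 hy).2 p hp
      omega
  rcases Nat.lt_or_ge (lev α i).card 2 with hn | hn
  · -- small level
    have hP0 : P = ∅ := by
      rw [Finset.eq_empty_iff_forall_notMem]
      intro a ha
      rw [memP] at ha
      have h1 := card_le_card (BB_subset hg (mem_U1.1 ha.1.1).1)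
      have h2 := ha.1.2
      omega
    have hE0 : ((U2 α i).filter fun q => bad3 i q) = ∅ := by
      rw [Finset.eq_empty_iff_forall_notMem]
      intro q hq
      rw [mem_filter] at hq
      have h1 := card_le_card (BB_subset hg (mem_U2.1 hq.1).1)
      have h2 := hq.2.1
      omega
    rw [hLHS, hP0, hE0]
    simp
  have hD4 : ∀ ε, GoodE i ε → m.Red ε → ∑ p, ε p ≤ 4 → (pkF i ε).card + 2 ≤ (lev α i).card →
      (∃ a ∈ P, cfD i a.1 a.2 = ε) ∨ (∃ q ∈ E, cfE4 i q = ε) ∨ (∃ q ∈ F, cfF i q = ε) := by
    intro ε hε hred hs hpk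
    rcases class4 hg hl m hF hdeg hP3 rfl hε hred hs hpk with
      ⟨q, q', hD, he⟩ | ⟨q, hq, hB, he⟩ | ⟨q, hq, hB, hI, he⟩
    · exact Or.inl ⟨(q, q'), (memP _).2 hD, he.symm⟩
    · exact Or.inr (Or.inl ⟨q, (memE q).2 ⟨hq, hB⟩, he.symm⟩)
    · exact Or.inr (Or.inr ⟨q, (memF q).2 ⟨⟨hq, hB⟩, hI⟩, he.symm⟩)
  have dD : ∀ a ∈ P, cfD i a.1 a.2 ∈ m.TT 4 (lev α i).card ∧
      (-1 : ℤ) ^ (inF i (cfD i a.1 a.2)).card = (-1) ^ (low α i).card * (sg i a.1 * sg i a.2) :=
    fun a ha => cfD_data hg hl m ((memP a).1 ha) rfl
  have dE : ∀ q ∈ E, cfE4 i q ∈ m.TT 4 (lev α i).card ∧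
      (-1 : ℤ) ^ (inF i (cfE4 i q)).card = (-1) ^ (low α i).card * (-1) :=
    fun q hq => cfE_data hg hl m ((memE q).1 hq).1 ((memE q).1 hq).2 rfl
  have dF : ∀ q ∈ F, cfF i q ∈ m.TT 4 (lev α i).card ∧
      (-1 : ℤ) ^ (inF i (cfF i q)).card = (-1) ^ (low α i).card :=
    fun q hq => cfF_data hg hl m hdeg ((memF q).1 hq).1.1 ((memF q).1 hq).1.2 ((memF q).1 hq).2 rfl
  have key := m.engine hG hl 4 _ rfl hn (by
    intro ε hε hred hs hpk
    rcases hD4 ε hε hred hs hpk with ⟨a, ha, he⟩ | ⟨q, hq, he⟩ | ⟨q, hq, he⟩
    · have := (dD a ha).1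
      rw [he, m.mem_TT] at this
      exact ⟨this.1, this.2.2.2⟩
    · have := (dE q hq).1
      rw [he, m.mem_TT] at this
      exact ⟨this.1, this.2.2.2⟩
    · have := (dF q hq).1
      rw [he, m.mem_TT] at this
      exact ⟨this.1, this.2.2.2⟩)
  have h5 : m.TT 4 (lev α i).card = (P.image (fun a => cfD i a.1 a.2) ∪ E.image (cfE4 i)) ∪
      F.image (cfF i) := by
    ext ε
    rw [mem_union, mem_union, mem_image, mem_image, mem_image]
    constructor
    · intro hε
      rw [m.mem_TT] at hε
      rcases hD4 ε hε.2.2.1 hε.2.1 hε.1.le hε.2.2.2.le with h6 | h6 | h6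
      · exact Or.inl (Or.inl h6)
      · exact Or.inl (Or.inr h6)
      · exact Or.inr h6
    · rintro ((⟨a, ha, rfl⟩ | ⟨q, hq, rfl⟩) | ⟨q, hq, rfl⟩)
      · exact (dD a ha).1
      · exact (dE q hq).1
      · exact (dF q hq).1
  have h6 : ∑ ε ∈ m.TT 4 (lev α i).card, (-1 : ℤ) ^ (inF i ε).card = 0 := key
  -- values at elements at distance two
  have vD : ∀ a ∈ P, ∀ t, ds i t = 2 → cfD i a.1 a.2 t = if t = a.1 ∨ t = a.2 then 1 else 0 := by
    intro a ha t ht
    rw [memP] at ha
    have h7 : t ∈ ({a.1, a.2} ∪ (bd i a.1 ∪ bd i a.2) ∪ ∅ : Finset α) ↔ t = a.1 ∨ t = a.2 := by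
      rw [union_empty, mem_union, mem_insert, mem_singleton, mem_union]
      constructor
      · rintro (h7 | h7 | h7)
        · exact h7
        · have := ds_of_mem_bd hg (mem_U1.1 ha.1.1).1 h7
          omega
        · have := ds_of_mem_bd hg (mem_U1.1 ha.2.1.1).1 h7
          omega
      · intro h7
        exact Or.inl h7
    unfold cfD ind
    simp only [h7]
  have vE : ∀ q ∈ E, ∀ t, ds i t = 2 → cfE4 i q t = if t = q then 2 else 0 := by
    intro q hq t ht
    rw [memE, mem_U2] at hq
    unfold cfE4
    simp only [Pi.add_apply]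
    have h7 : t ∈ ({q} ∪ bd i q ∪ ∅ : Finset α) ↔ t = q := by
      rw [union_empty, mem_union, mem_singleton]
      constructor
      · rintro (h7 | h7)
        · exact h7
        · have := ds_of_mem_bd hg hq.1.1 h7
          omega
      · intro h7
        exact Or.inl h7
    unfold ind
    simp only [h7, mem_singleton]
    split_ifs <;> rfl
  have vF : ∀ q ∈ F, ∀ t, ds i t = 2 → cfF i q t = if t = q then 1 else 0 := by
    intro q hq t ht
    rw [memF, mem_U2] at hq
    have h7 : t ∈ ({q} ∪ bd i q ∪ II i q : Finset α) ↔ t = q := by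
      rw [mem_union, mem_union, mem_singleton]
      constructor
      · rintro ((h7 | h7) | h7)
        · exact h7
        · have := ds_of_mem_bd hg hq.1.1.1 h7
          omega
        · obtain ⟨p, hp⟩ := Finset.card_pos.1 (show 0 < (bd i q).card by omega)
          have h8 := mem_II.1 h7 p hp
          have h9 := bd_lev hg (ds_of_mem_bd hg hq.1.1.1 hp) h8
          rw [ds_eq_zero.2 h9] at ht
          omega
      · intro h7
        exact Or.inl (Or.inl h7)
    unfold cfF ind
    simp only [h7]
  have dsP : ∀ a ∈ P, ds i a.1 = 2 ∧ ds i a.2 = 2 ∧ a.1 ≠ a.2 := by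
    intro a ha
    rw [memP] at ha
    exact ⟨(mem_U1.1 ha.1.1).1, (mem_U1.1 ha.2.1.1).1, isD_ne ha⟩
  have dsE : ∀ q ∈ E, ds i q = 2 := by
    intro q hq
    rw [memE, mem_U2] at hq
    exact hq.1.1
  have dsF : ∀ q ∈ F, ds i q = 2 := by
    intro q hq
    rw [memF, mem_U2] at hq
    exact hq.1.1.1
  have hdis1 : Disjoint (P.image (fun a => cfD i a.1 a.2)) (E.image (cfE4 i)) := by
    rw [Finset.disjoint_left]
    intro ε h7 h8
    rw [mem_image] at h7 h8
    obtain ⟨a, ha, rfl⟩ := h7
    obtain ⟨q, hq, h8⟩ := h8
    have h9 := vE q hq q (dsE q hq)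
    rw [h8, vD a ha q (dsE q hq)] at h9
    simp only [if_true] at h9
    split_ifs at h9 <;> omega
  have hdis2 : Disjoint (P.image (fun a => cfD i a.1 a.2) ∪ E.image (cfE4 i)) (F.image (cfF i)) := by
    rw [Finset.disjoint_left]
    intro ε h7 h8
    rw [mem_union, mem_image, mem_image] at h7
    rw [mem_image] at h8
    obtain ⟨q, hq, h8⟩ := h8
    rcases h7 with ⟨a, ha, h7⟩ | ⟨q', hq', h7⟩
    · have h9 := vF q hq a.1 (dsP a ha).1
      have h10 := vF q hq a.2 (dsP a ha).2.1
      rw [h8, ← h7, vD a ha a.1 (dsP a ha).1] at h9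
      rw [h8, ← h7, vD a ha a.2 (dsP a ha).2.1] at h10
      have h11 : a.1 = q := by
        by_contra h12
        rw [if_neg h12] at h9
        simp at h9
      have h13 : a.2 = q := by
        by_contra h12
        rw [if_neg h12] at h10
        simp at h10
      exact (dsP a ha).2.2 (h11.trans h13.symm)
    · have h9 := vE q' hq' q' (dsE q' hq')
      rw [h7, ← h8, vF q hq q' (dsE q' hq')] at h9
      simp only [if_true] at h9
      split_ifs at h9 <;> omega
  rw [h5, Finset.sum_union hdis2, Finset.sum_union hdis1, Finset.sum_image (s := E),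
    Finset.sum_image (s := F)] at h6
  · rw [Finset.sum_congr rfl (fun q hq => (dE q hq).2), Finset.sum_congr rfl (fun q hq => (dF q hq).2),
      Finset.sum_const, Finset.sum_const, nsmul_eq_mul, nsmul_eq_mul] at h6
    -- the sum over pairs
    have h7 : ∑ a ∈ P, (-1 : ℤ) ^ (inF i (cfD i a.1 a.2)).card =
        2 * ∑ ε ∈ P.image (fun a => cfD i a.1 a.2), (-1 : ℤ) ^ (inF i ε).card := by
      rw [Finset.sum_comp (fun ε => (-1 : ℤ) ^ (inF i ε).card) (fun a : α × α => cfD i a.1 a.2),
        Finset.mul_sum]
      apply Finset.sum_congr rfl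
      intro ε hε
      rw [mem_image] at hε
      obtain ⟨a, ha, rfl⟩ := hε
      have h8 : (P.filter fun b => cfD i b.1 b.2 = cfD i a.1 a.2) = {a, (a.2, a.1)} := by
        ext b
        rw [mem_filter, mem_insert, mem_singleton]
        constructor
        · rintro ⟨hb, h9⟩
          have d1 := dsP a ha
          have d2 := dsP b hb
          have h10 : b.1 = a.1 ∨ b.1 = a.2 := by
            have e1 := vD b hb b.1 d2.1
            rw [h9, vD a ha b.1 d2.1] at e1
            simp only [true_or, if_true] at e1
            by_contra h12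
            rw [if_neg h12] at e1
            simp at e1
          have h11 : b.2 = a.1 ∨ b.2 = a.2 := by
            have e1 := vD b hb b.2 d2.2.1
            rw [h9, vD a ha b.2 d2.2.1] at e1
            simp only [or_true, if_true] at e1
            by_contra h12
            rw [if_neg h12] at e1
            simp at e1
          rcases h10 with h10 | h10 <;> rcases h11 with h11 | h11
          · exact absurd (h10.trans h11.symm) d2.2.2
          · exact Or.inl (Prod.ext h10 h11)
          · exact Or.inr (Prod.ext h10 h11)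
          · exact absurd (h10.trans h11.symm) d2.2.2
        · rintro (rfl | rfl)
          · exact ⟨ha, rfl⟩
          · refine ⟨?_, cfD_comm _ _⟩
            rw [memP] at ha ⊢
            exact isD_comm ha
      rw [h8, card_pair]
      · simp
      · intro h9
        have := (dsP a ha).2.2
        have h10 := congrArg Prod.fst h9
        exact this h10
    have h8 : ∑ a ∈ P, (-1 : ℤ) ^ (inF i (cfD i a.1 a.2)).card =
        (-1) ^ (low α i).card * ∑ a ∈ P, sg i a.1 * sg i a.2 := by
      rw [Finset.mul_sum]
      exact Finset.sum_congr rfl fun a ha => (dD a ha).2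
    rw [hLHS]
    have h9 : ((-1 : ℤ) ^ (low α i).card) * (-1) ^ (low α i).card = 1 := by
      rw [← mul_pow]
      norm_num
    set s := (-1 : ℤ) ^ (low α i).card
    set x := ∑ a ∈ P, sg i a.1 * sg i a.2
    set y := ∑ ε ∈ P.image (fun a => cfD i a.1 a.2), (-1 : ℤ) ^ (inF i ε).card
    have h10 : s * x = 2 * y := by rw [← h8, h7]
    have h11 : (((U2 α i).filter fun q => bad3 i q).card : ℤ) = E.card - F.card := by
      have : ((((U2 α i).filter fun q => bad3 i q).card + F.card : ℕ) : ℤ) = (E.card : ℤ) := by
        rw [hbad]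
      push_cast at this
      linarith
    rw [h11]
    calc x = s * s * x := by rw [h9, one_mul]
      _ = s * (2 * y) := by rw [mul_assoc, h10]
      _ = s * (2 * (s * E.card - s * F.card)) := by
          congr 2
          linarith
      _ = 2 * (s * s * (E.card - F.card)) := by ring
      _ = 2 * (E.card - F.card) := by rw [h9, one_mul]
  · intro a ha b hb hab
    rw [mem_coe] at ha hb
    have h7 := vF a ha a (dsF a ha)
    rw [hab, vF b hb a (dsF a ha)] at h7
    simp only [if_true] at h7
    by_contra h8
    rw [if_neg h8] at h7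
    simp at h7
  · intro a ha b hb hab
    rw [mem_coe] at ha hb
    have h7 := vE a ha a (dsE a ha)
    rw [hab, vE b hb a (dsE a ha)] at h7
    simp only [if_true] at h7
    by_contra h8
    rw [if_neg h8] at h7
    simp at h7

end Pool.Gauss
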