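import Pool.Agent.Work.MP_065141_co.RelE
import Pool.Agent.Work.MP_065141_co.P4
import Pool.Agent.Work.MP_065141_co.N3
import Pool.Agent.Work.MP_065141_co.D45

/-!
# The relations P3, P4, N3 and D3, D4, D5 in the local language
-/

set_option autoImplicit false
set_option linter.unusedSectionVars false
open scoped Classical
open Finset

namespace Pool.Gauss

variable {α : Type} [Fintype α] [PartialOrder α]

/-- the conclusions of P3 and P4 (without bad elements), below and above -/
def Clean (α : Type) [Fintype α] [PartialOrder α] (i : ℕ) : Prop :=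
  (∀ w : α, corank w = i + 2 → (Pr w).card = 2 →
    (Pr2 w).card ≤ 3 ∧ ((Pr2 w).card = 3 → ∀ x ∈ Pr w, (Pr x).card = 2)) ∧
  (∀ v : α, corank v + 2 = i → (Ch v).card = 2 →
    (Ch2 v).card ≤ 3 ∧ ((Ch2 v).card = 3 → ∀ z ∈ Ch v, (Ch z).card = 2))

/-- number of elements two levels below over three elements -/
noncomputable def n3dn (α : Type) [Fintype α] [PartialOrder α] (i : ℕ) : ℕ :=
  (univ.filter fun w : α => corank w = i + 2 ∧ (Pr w).card = 2 ∧ (Pr2 w).card = 3).card

/-- number of elements two levels above over three elements -/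
noncomputable def n3up (α : Type) [Fintype α] [PartialOrder α] (i : ℕ) : ℕ :=
  (univ.filter fun v : α => corank v + 2 = i ∧ (Ch v).card = 2 ∧ (Ch2 v).card = 3).card

/-- the coefficient `η` of a single defect -/
noncomputable def eta (s t k : α) (g : Finset α) : ℤ :=
  (if Disjoint g {t, k} then 1 else 0) - (if Disjoint g {s, k} then 1 else 0)

/-! ### matchings -/

/-- two functions with fibres of equal size -/
theorem relp_match {A B : Finset α} {f g : α → Finset α}
    (hc : ∀ s, (A.filter fun z => f z = s).card = (B.filter fun x => g x = s).card) :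
    ∃ φ : α → α, (∀ z ∈ A, φ z ∈ B ∧ g (φ z) = f z) ∧
      (∀ z ∈ A, ∀ z' ∈ A, φ z = φ z' → z = z') ∧ ∀ x ∈ B, ∃ z ∈ A, φ z = x := by
  let e : ∀ s, (A.filter fun z => f z = s) ≃ (B.filter fun x => g x = s) :=
    fun s => Finset.equivOfCardEq (hc s)
  have hmem : ∀ {z : α}, z ∈ A → z ∈ A.filter fun y => f y = f z :=
    fun h => mem_filter.2 ⟨h, rfl⟩
  let φ : α → α := fun z => if h : z ∈ A then (e (f z) ⟨z, hmem h⟩).1 else z
  have hφ : ∀ (s : Finset α) (z : α) (hz : z ∈ A.filter fun y => f y = s),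
      φ z = (e s ⟨z, hz⟩).1 := by
    intro s z hz
    obtain ⟨h1, h2⟩ := mem_filter.1 hz
    subst h2
    simp only [φ]
    rw [dif_pos h1]
  have hg : ∀ z ∈ A, φ z ∈ B ∧ g (φ z) = f z := by
    intro z hz
    rw [hφ (f z) z (hmem hz)]
    exact mem_filter.1 (e (f z) ⟨z, hmem hz⟩).2
  refine ⟨φ, hg, ?_, ?_⟩
  · intro z hz z' hz' h
    have h1 : f z' = f z := by
      rw [← (hg z hz).2, ← (hg z' hz').2, h]
    have h2 : z' ∈ A.filter fun y => f y = f z := mem_filter.2 ⟨hz', h1⟩
    rw [hφ (f z) z (hmem hz), hφ (f z) z' h2] at h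
    have h3 := (e (f z)).injective (Subtype.ext h)
    exact congrArg Subtype.val h3
  · intro x hx
    have h1 : x ∈ B.filter fun y => g y = g x := mem_filter.2 ⟨hx, rfl⟩
    obtain ⟨h2, h3⟩ := mem_filter.1 ((e (g x)).symm ⟨x, h1⟩).2
    refine ⟨((e (g x)).symm ⟨x, h1⟩).1, h2, ?_⟩
    rw [hφ (g x) _ ((e (g x)).symm ⟨x, h1⟩).2]
    simp

section Mat

variable {i : ℕ}

/-- the matching given by a partial bijection -/
noncomputable def relp_mat {A B : Finset α} {φ : α → α}
    (hA : ∀ z ∈ A, corank z + 1 = i ∧ (Ch z).card = 2) (hB : ∀ x ∈ B, corank x = i + 1)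
    (h1 : ∀ z ∈ A, φ z ∈ B ∧ Pr (φ z) = Ch z)
    (h2 : ∀ z ∈ A, ∀ z' ∈ A, φ z = φ z' → z = z') : Mat α i where
  M := A.image fun z => (z, φ z)
  cz m hm := by
    obtain ⟨z, hz, rfl⟩ := mem_image.1 hm
    exact (hA z hz).1
  cx m hm := by
    obtain ⟨z, hz, rfl⟩ := mem_image.1 hm
    exact hB _ (h1 z hz).1
  two m hm := by
    obtain ⟨z, hz, rfl⟩ := mem_image.1 hm
    obtain ⟨y, y', hne, he⟩ := card_eq_two.1 (hA z hz).2
    refine ⟨y, y', hne, fun t => ?_, fun t => ?_⟩
    · rw [← Gauss.mem_Ch, he, mem_insert, mem_singleton]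
    · rw [← Gauss.mem_Pr, (h1 z hz).2, he, mem_insert, mem_singleton]
  inj1 m hm m' hm' h := by
    obtain ⟨z, hz, rfl⟩ := mem_image.1 hm
    obtain ⟨z', hz', rfl⟩ := mem_image.1 hm'
    simp only at h
    rw [h]
  inj2 m hm m' hm' h := by
    obtain ⟨z, hz, rfl⟩ := mem_image.1 hm
    obtain ⟨z', hz', rfl⟩ := mem_image.1 hm'
    simp only at h
    rw [h2 z hz z' hz' h]

end Mat

namespace Ctx

variable (C : Ctx α)
include C

section bd

variable {i : ℕ}

lemma relp_bd_above {p : α} (h : corank p < i) : bd i p = Ch p := by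
  ext y
  rw [mem_bd, Gauss.mem_Ch]
  constructor
  · intro h1
    exact (fr_above' C.grd h1 h).2
  · intro h1
    have := C.cork h1
    exact fr_of_above (by omega) h1

lemma relp_bd_below {p : α} (h : i < corank p) : bd i p = Pr p := by
  ext y
  rw [mem_bd, Gauss.mem_Pr]
  constructor
  · intro h1
    exact (fr_below' C.grd h1 h).2
  · intro h1
    have := C.cork h1
    exact fr_of_below (by omega) h1

lemma relp_bd_lev {p : α} (h : corank p = i) : bd i p = ∅ := by
  rw [eq_empty_iff_forall_notMem]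
  intro y hy
  rw [mem_bd] at hy
  rcases hy with ⟨h1, h2⟩ | ⟨h1, h2⟩
  · have := C.cork h2
    omega
  · have := C.cork h2
    omega

lemma relp_deg (p : α) : (bd i p).card ≤ 2 := by
  rcases lt_trichotomy (corank p) i with h | h | h
  · rw [C.relp_bd_above h]
    exact C.ch_le p
  · rw [C.relp_bd_lev h]
    simp
  · rw [C.relp_bd_below h]
    exact C.pr_le p

lemma relp_BB_above {q : α} (h : corank q + 2 = i) : BB i q = Ch2 q := by
  unfold BB Ch2
  rw [C.relp_bd_above (by omega)]
  refine Finset.biUnion_congr rfl fun z hz => ?_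
  have := C.cork (Gauss.mem_Ch.1 hz)
  exact C.relp_bd_above (by omega)

lemma relp_BB_below {q : α} (h : corank q = i + 2) : BB i q = Pr2 q := by
  unfold BB Pr2
  rw [C.relp_bd_below (by omega)]
  refine Finset.biUnion_congr rfl fun z hz => ?_
  have := C.cork (Gauss.mem_Pr.1 hz)
  exact C.relp_bd_below (by omega)

omit C in
lemma relp_ds {q : α} : ds i q = 2 ↔ corank q + 2 = i ∨ corank q = i + 2 := by
  unfold ds
  omega

lemma relp_lower (hi : i < HT α) : HasLower α i := by
  intro p hp
  obtain ⟨t, ht⟩ := card_pos.1 (C.ch_pos (x := p) (by omega))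
  exact ⟨t, Gauss.mem_Ch.1 ht⟩

/-- the single elements at distance two over two elements -/
lemma relp_U1 : (U1 α i).filter (fun q => (BB i q).card = 2) = PEv α i ∪ QEv α i := by
  ext q
  rw [mem_filter, mem_U1, mem_union, mem_PEv, mem_QEv, relp_ds]
  constructor
  · rintro ⟨⟨h1 | h1, h2⟩, h3⟩
    · rw [C.relp_bd_above (by omega)] at h2
      rw [C.relp_BB_above h1] at h3
      exact Or.inr ⟨h1, h2, h3⟩
    · rw [C.relp_bd_below (by omega)] at h2
      rw [C.relp_BB_below h1] at h3
      exact Or.inl ⟨h1, h2, h3⟩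
  · rintro (⟨h1, h2, h3⟩ | ⟨h1, h2, h3⟩)
    · rw [C.relp_bd_below (by omega), C.relp_BB_below h1]
      exact ⟨⟨Or.inr h1, h2⟩, h3⟩
    · rw [C.relp_bd_above (by omega), C.relp_BB_above h1]
      exact ⟨⟨Or.inl h1, h2⟩, h3⟩

omit C in
lemma relp_disj : Disjoint (PEv α i) (QEv α i) := by
  rw [Finset.disjoint_left]
  intro q h1 h2
  rw [mem_PEv] at h1
  rw [mem_QEv] at h2
  omega

lemma relp_U2_below {w : α} (h1 : corank w = i + 2) (h2 : (Pr w).card = 2) : w ∈ U2 α i := by
  rw [mem_U2, relp_ds, C.relp_bd_below (by omega)]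
  exact ⟨Or.inr h1, h2⟩

lemma relp_U2_above {v : α} (h1 : corank v + 2 = i) (h2 : (Ch v).card = 2) : v ∈ U2 α i := by
  rw [mem_U2, relp_ds, C.relp_bd_above (by omega)]
  exact ⟨Or.inl h1, h2⟩

/-- from `P3` and the absence of bad elements -/
lemma relp_clean (hi : i < HT α) (h3 : ∀ q ∈ U2 α i, (BB i q).card ≤ 3)
    (hb : ∀ q ∈ U2 α i, ¬ bad3 i q) : Clean α i := by
  constructor
  · intro w h1 h2
    have hw := C.relp_U2_below h1 h2
    have h4 := h3 w hw
    rw [C.relp_BB_below h1] at h4
    refine ⟨h4, fun h5 x hx => ?_⟩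
    have h6 := hb w hw
    unfold bad3 at h6
    rw [C.relp_BB_below h1, C.relp_bd_below (by omega)] at h6
    push Not at h6
    have h7 := h6 h5 x hx
    have h8 := C.cork (Gauss.mem_Pr.1 hx)
    rw [C.relp_bd_below (by omega)] at h7
    rcases C.pr_cases (x := x) (by omega) with h9 | h9
    · exact absurd h9 h7
    · exact h9
  · intro v h1 h2
    have hv := C.relp_U2_above h1 h2
    have h4 := h3 v hv
    rw [C.relp_BB_above h1] at h4
    refine ⟨h4, fun h5 z hz => ?_⟩
    have h6 := hb v hv
    unfold bad3 at h6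
    rw [C.relp_BB_above h1, C.relp_bd_above (by omega)] at h6
    push Not at h6
    have h7 := h6 h5 z hz
    have h8 := C.cork (Gauss.mem_Ch.1 hz)
    rw [C.relp_bd_above (by omega)] at h7
    rcases C.ch_cases (x := z) (by omega) with h9 | h9
    · exact absurd h9 h7
    · exact h9

end bd

/-- the matching of a perfect level -/
theorem relp_perf {i : ℕ} (hi : i < HT α) (hP : Perf α i) : ∃ m : Mat α i, m.FullX ∅ := by
  set A := (lev' α i).filter fun z => (Ch z).card = 2 with hA
  set B := (lev α (i + 1)).filter fun x => (Pr x).card = 2 with hB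
  have hc : ∀ s, (A.filter fun z => Ch z = s).card = (B.filter fun x => Pr x = s).card := by
    intro s
    by_cases hs : s.card = 2
    · have h1 := hP s hs
      unfold mC mD at h1
      rw [hA, hB, filter_filter, filter_filter]
      rw [← Finset.filter_congr (s := lev α (i + 1)) (p := fun x => Pr x = s)
        (fun x _ => ⟨fun h => ⟨by rw [h]; exact hs, h⟩, fun h => h.2⟩), h1]
      congr 1
      exact Finset.filter_congr fun x _ => ⟨fun h => h.2, fun h => ⟨by rw [h]; exact hs, h⟩⟩
    · rw [Finset.card_eq_zero.2, Finset.card_eq_zero.2]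
      · rw [filter_eq_empty_iff]
        intro x hx h
        rw [hB, mem_filter] at hx
        rw [h] at hx
        exact hs hx.2
      · rw [filter_eq_empty_iff]
        intro x hx h
        rw [hA, mem_filter] at hx
        rw [h] at hx
        exact hs hx.2
  obtain ⟨φ, h1, h2, h3⟩ := relp_match hc
  have hA' : ∀ z ∈ A, corank z + 1 = i ∧ (Ch z).card = 2 := by
    intro z hz
    rw [hA, mem_filter, mem_lev'] at hz
    exact ⟨by omega, hz.2⟩
  have hB' : ∀ x ∈ B, corank x = i + 1 := by
    intro x hx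
    rw [hB, mem_filter, mem_lev] at hx
    exact hx.1
  refine ⟨relp_mat hA' hB' h1 h2, ?_⟩
  intro p hp
  have hp' : corank p + 1 = i ∨ corank p = i + 1 := by
    unfold ds at hp
    omega
  right
  rcases hp' with h4 | h4
  · rcases C.ch_cases (x := p) (by omega) with h5 | h5
    · left
      obtain ⟨y, hy⟩ := card_eq_one.1 h5
      refine ⟨h4, y, fun t => ?_⟩
      rw [← Gauss.mem_Ch, hy, mem_singleton]
    · right; right
      have h6 : p ∈ A := by
        rw [hA, mem_filter, mem_lev']
        exact ⟨by omega, h5⟩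
      exact ⟨(p, φ p), mem_image_of_mem _ h6, Or.inl rfl⟩
  · rcases C.pr_cases (x := p) (by omega) with h5 | h5
    · right; left
      obtain ⟨y, hy⟩ := card_eq_one.1 h5
      refine ⟨h4, y, fun t => ?_⟩
      rw [← Gauss.mem_Pr, hy, mem_singleton]
    · right; right
      have h6 : p ∈ B := by
        rw [hB, mem_filter, mem_lev]
        exact ⟨h4, h5⟩
      obtain ⟨z, hz, rfl⟩ := h3 p h6
      exact ⟨(z, φ z), mem_image_of_mem _ hz, Or.inr rfl⟩

/-- the matching of a level with one defect -/
theorem relp_defect {i : ℕ} (hi : i < HT α) {s t k : α} (hD : Defect i s t k) :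
    ∃ (m : Mat α i) (z x : α), m.FullX {z, x} ∧ m.Lone {z, x} ∧ corank z < i ∧ i < corank x ∧
      bd i z = {s, k} ∧ bd i x = {t, k} := by
  have hst := hD.st
  have hsk := hD.sk
  have htk := hD.tk
  have hne : ({s, k} : Finset α) ≠ {t, k} := by
    intro h
    have h1 : s ∈ ({t, k} : Finset α) := by rw [← h]; simp
    rw [mem_insert, mem_singleton] at h1
    rcases h1 with h1 | h1
    · exact hst h1
    · exact hsk h1
  have hz0 : 0 < mD i {s, k} := by
    have h1 := hD.eq {s, k} (card_pair hsk)
    rw [if_pos rfl, if_neg hne] at h1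
    omega
  have hx0 : 0 < mC i {t, k} := by
    have h1 := hD.eq {t, k} (card_pair htk)
    rw [if_neg hne.symm, if_pos rfl] at h1
    omega
  unfold mD at hz0
  unfold mC at hx0
  obtain ⟨z0, hz0⟩ := card_pos.1 hz0
  obtain ⟨x0, hx0⟩ := card_pos.1 hx0
  rw [mem_filter, mem_lev'] at hz0
  rw [mem_filter, mem_lev] at hx0
  set A := ((lev' α i).filter fun z => (Ch z).card = 2).erase z0 with hA
  set B := ((lev α (i + 1)).filter fun x => (Pr x).card = 2).erase x0 with hB
  have hc : ∀ g, (A.filter fun z => Ch z = g).card = (B.filter fun x => Pr x = g).card := by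
    intro g
    by_cases hg : g.card = 2
    · have h1 := hD.eq g hg
      have hAg : (A.filter fun z => Ch z = g) = ((lev' α i).filter fun z => Ch z = g).erase z0 := by
        ext z
        rw [hA, mem_filter, mem_erase, mem_filter, mem_erase, mem_filter]
        constructor
        · rintro ⟨⟨h2, h3, _⟩, h4⟩
          exact ⟨h2, h3, h4⟩
        · rintro ⟨h2, h3, h4⟩
          exact ⟨⟨h2, h3, by rw [h4]; exact hg⟩, h4⟩
      have hBg : (B.filter fun x => Pr x = g) =
          ((lev α (i + 1)).filter fun x => Pr x = g).erase x0 := by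
        ext z
        rw [hB, mem_filter, mem_erase, mem_filter, mem_erase, mem_filter]
        constructor
        · rintro ⟨⟨h2, h3, _⟩, h4⟩
          exact ⟨h2, h3, h4⟩
        · rintro ⟨h2, h3, h4⟩
          exact ⟨⟨h2, h3, by rw [h4]; exact hg⟩, h4⟩
      rw [hAg, hBg, card_erase_eq_ite, card_erase_eq_ite]
      have e1 : z0 ∈ (lev' α i).filter (fun z => Ch z = g) ↔ g = {s, k} := by
        rw [mem_filter, mem_lev', hz0.2]
        exact ⟨fun h => h.2.symm, fun h => ⟨hz0.1, h.symm⟩⟩
      have e2 : x0 ∈ (lev α (i + 1)).filter (fun x => Pr x = g) ↔ g = {t, k} := by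
        rw [mem_filter, mem_lev, hx0.2]
        exact ⟨fun h => h.2.symm, fun h => ⟨hx0.1, h.symm⟩⟩
      simp only [e1, e2]
      unfold mC mD at h1
      split_ifs at h1 ⊢ <;> omega
    · rw [Finset.card_eq_zero.2, Finset.card_eq_zero.2]
      · rw [filter_eq_empty_iff]
        intro x hx h
        rw [hB, mem_erase, mem_filter] at hx
        rw [h] at hx
        exact hg hx.2.2
      · rw [filter_eq_empty_iff]
        intro x hx h
        rw [hA, mem_erase, mem_filter] at hx
        rw [h] at hx
        exact hg hx.2.2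
  obtain ⟨φ, h1, h2, h3⟩ := relp_match hc
  have hA' : ∀ z ∈ A, corank z + 1 = i ∧ (Ch z).card = 2 := by
    intro z hz
    rw [hA, mem_erase, mem_filter, mem_lev'] at hz
    exact hz.2
  have hB' : ∀ x ∈ B, corank x = i + 1 := by
    intro x hx
    rw [hB, mem_erase, mem_filter, mem_lev] at hx
    exact hx.2.1
  have hbz : bd i z0 = {s, k} := by rw [C.relp_bd_above (by omega), hz0.2]
  have hbx : bd i x0 = {t, k} := by rw [C.relp_bd_below (by omega), hx0.2]
  refine ⟨relp_mat hA' hB' h1 h2, z0, x0, ?_, ?_, by omega, by omega, hbz, hbx⟩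
  · intro p hp
    have hp' : corank p + 1 = i ∨ corank p = i + 1 := by
      unfold ds at hp
      omega
    rcases hp' with h4 | h4
    · rcases C.ch_cases (x := p) (by omega) with h5 | h5
      · right; left
        obtain ⟨y, hy⟩ := card_eq_one.1 h5
        refine ⟨h4, y, fun t => ?_⟩
        rw [← Gauss.mem_Ch, hy, mem_singleton]
      · by_cases h7 : p = z0
        · left
          rw [h7]
          simp
        · right; right; right
          have h6 : p ∈ A := by
            rw [hA, mem_erase, mem_filter, mem_lev']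
            exact ⟨h7, h4, h5⟩
          exact ⟨(p, φ p), mem_image_of_mem _ h6, Or.inl rfl⟩
    · rcases C.pr_cases (x := p) (by omega) with h5 | h5
      · right; right; left
        obtain ⟨y, hy⟩ := card_eq_one.1 h5
        refine ⟨h4, y, fun t => ?_⟩
        rw [← Gauss.mem_Pr, hy, mem_singleton]
      · by_cases h7 : p = x0
        · left
          rw [h7]
          simp
        · right; right; right
          have h6 : p ∈ B := by
            rw [hB, mem_erase, mem_filter, mem_lev]
            exact ⟨h7, h4, h5⟩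
          obtain ⟨z, hz, rfl⟩ := h3 p h6
          exact ⟨(z, φ z), mem_image_of_mem _ hz, Or.inr rfl⟩
  · intro p hp
    rw [mem_insert, mem_singleton] at hp
    rcases hp with rfl | rfl
    · refine ⟨by unfold ds; omega, by rw [hbz, card_pair hsk], ?_⟩
      intro e he
      obtain ⟨z, hz, rfl⟩ := mem_image.1 he
      constructor
      · rintro rfl
        rw [hA, mem_erase] at hz
        exact hz.1 rfl
      · intro h4
        have h5 := hB' _ (h1 z hz).1
        simp only at h4
        rw [← h4] at h5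
        omega
    · refine ⟨by unfold ds; omega, by rw [hbx, card_pair htk], ?_⟩
      intro e he
      obtain ⟨z, hz, rfl⟩ := mem_image.1 he
      constructor
      · rintro rfl
        have := (hA' _ hz).1
        omega
      · intro h4
        have h5 := (h1 z hz).1
        simp only at h4
        rw [← h4, hB, mem_erase] at h5
        exact h5.1 rfl

lemma relp_BB_le {i : ℕ} {q : α} (hq : q ∈ U1 α i) : (BB i q).card ≤ 2 := by
  obtain ⟨p, hp⟩ := card_eq_one.1 (mem_U1.1 hq).2
  unfold BB
  rw [hp, singleton_biUnion]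
  exact C.relp_deg p

/-- perfect level without events (P3, P4, N3) -/
theorem R0 {i : ℕ} (hi : i < HT α) (hP : Perf α i) (h1 : PEv α i = ∅) (h2 : QEv α i = ∅) :
    Clean α i ∧ n3dn α i = n3up α i := by
  obtain ⟨h, hG⟩ := C.gauss
  obtain ⟨m, hF⟩ := C.relp_perf hi hP
  have hl := C.relp_lower hi
  have hdeg : ∀ p : α, (bd i p).card ≤ 2 := fun p => C.relp_deg p
  have hU1 : (U1 α i).filter (fun q => (BB i q).card = 2) = ∅ := by
    rw [C.relp_U1, h1, h2, empty_union]
  have hb : ∀ q ∈ U2 α i, ¬ bad3 i q := by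
    have h4 := P4 hG hl m hF hdeg
    rw [hU1, sum_empty] at h4
    have h5 : ((U2 α i).filter fun q => bad3 i q).card = 0 := by omega
    rw [card_eq_zero, filter_eq_empty_iff] at h5
    exact fun q hq => h5 hq
  refine ⟨C.relp_clean hi (fun q hq => P3 hG hl m hF hdeg hq) hb, ?_⟩
  have h6 := N3 hG hl m hF hdeg (by
    intro q hq
    have h7 := C.relp_BB_le hq
    have h8 : ¬ (BB i q).card = 2 := by
      intro h9
      have h10 : q ∈ (U1 α i).filter (fun q => (BB i q).card = 2) := mem_filter.2 ⟨hq, h9⟩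
      rw [hU1] at h10
      simp at h10
    omega)
  have h7 : (U2 α i).filter (fun q => (BB i q).card = 3) =
      (univ.filter fun w : α => corank w = i + 2 ∧ (Pr w).card = 2 ∧ (Pr2 w).card = 3) ∪
      (univ.filter fun v : α => corank v + 2 = i ∧ (Ch v).card = 2 ∧ (Ch2 v).card = 3) := by
    ext q
    rw [mem_filter, mem_U2, mem_union, mem_filter, mem_filter, relp_ds]
    constructor
    · rintro ⟨⟨h8 | h8, h9⟩, h10⟩
      · rw [C.relp_bd_above (by omega)] at h9
        rw [C.relp_BB_above h8] at h10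
        exact Or.inr ⟨mem_univ _, h8, h9, h10⟩
      · rw [C.relp_bd_below (by omega)] at h9
        rw [C.relp_BB_below h8] at h10
        exact Or.inl ⟨mem_univ _, h8, h9, h10⟩
    · rintro (⟨_, h8, h9, h10⟩ | ⟨_, h8, h9, h10⟩)
      · rw [C.relp_bd_below (by omega), C.relp_BB_below h8]
        exact ⟨⟨Or.inr h8, h9⟩, h10⟩
      · rw [C.relp_bd_above (by omega), C.relp_BB_above h8]
        exact ⟨⟨Or.inl h8, h9⟩, h10⟩
  rw [h7, sum_union] at h6
  · unfold n3dn n3up
    rw [Finset.sum_congr rfl (g := fun _ => (1 : ℤ)), Finset.sum_congr rfl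
      (s₁ := univ.filter fun v : α => corank v + 2 = i ∧ (Ch v).card = 2 ∧ (Ch2 v).card = 3)
      (g := fun _ => (-1 : ℤ))] at h6
    · simp only [sum_const, nsmul_eq_mul, mul_one, mul_neg] at h6
      omega
    · intro q hq
      rw [mem_filter] at hq
      unfold sg
      rw [if_pos (by omega)]
    · intro q hq
      rw [mem_filter] at hq
      unfold sg
      rw [if_neg (by omega)]
  · rw [Finset.disjoint_left]
    intro q h8 h9
    rw [mem_filter] at h8 h9
    omega

/-- perfect level with exactly one P-event and one Q-event (P3, P4) -/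
theorem R0b {i : ℕ} (hi : i < HT α) (hP : Perf α i) {w v : α} (h1 : PEv α i = {w})
    (h2 : QEv α i = {v}) : Clean α i ∧ ¬ Disjoint (Pr2 w) (Ch2 v) := by
  obtain ⟨h, hG⟩ := C.gauss
  obtain ⟨m, hF⟩ := C.relp_perf hi hP
  have hl := C.relp_lower hi
  have hdeg : ∀ p : α, (bd i p).card ≤ 2 := fun p => C.relp_deg p
  have hw : w ∈ PEv α i := by rw [h1]; simp
  have hv : v ∈ QEv α i := by rw [h2]; simp
  rw [mem_PEv] at hw
  rw [mem_QEv] at hv
  have hwv : w ≠ v := by
    rintro rfl
    omega
  have hU1 : (U1 α i).filter (fun q => (BB i q).card = 2) = {w, v} := by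
    rw [C.relp_U1, h1, h2]
    rfl
  have h4 := P4 hG hl m hF hdeg
  rw [hU1, sum_pair hwv, sum_pair hwv, sum_pair hwv] at h4
  have hBw : BB i w = Pr2 w := C.relp_BB_below hw.1
  have hBv : BB i v = Ch2 v := C.relp_BB_above hv.1
  have hsw : sg i w = 1 := by
    unfold sg
    rw [if_neg (by omega)]
  have hsv : sg i v = -1 := by
    unfold sg
    rw [if_pos (by omega)]
  have hww : ¬ Disjoint (BB i w) (BB i w) := by
    rw [disjoint_self, hBw]
    intro h5
    rw [h5] at hw
    simp at hw
  have hvv : ¬ Disjoint (BB i v) (BB i v) := by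
    rw [disjoint_self, hBv]
    intro h5
    rw [h5] at hv
    simp at hv
  rw [if_neg hww, if_neg hvv, hsw, hsv, hBw, hBv] at h4
  have h5 : ¬ Disjoint (Pr2 w) (Ch2 v) := by
    intro h6
    rw [if_pos h6, if_pos h6.symm] at h4
    omega
  refine ⟨C.relp_clean hi (fun q hq => P3 hG hl m hF hdeg hq) ?_, h5⟩
  rw [if_neg h5, if_neg (fun h6 => h5 (Disjoint.symm h6))] at h4
  have h6 : ((U2 α i).filter fun q => bad3 i q).card = 0 := by omega
  rw [card_eq_zero, filter_eq_empty_iff] at h6
  exact fun q hq => h6 hq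

/-- single defect (D3, D4, D5) -/
theorem RD {i : ℕ} (hi0 : 0 < i) (hi : i < HT α) {s t k : α} (hD : Defect i s t k)
    (hup : ∀ v : α, corank v + 2 = i → (Ch v).card = 2 → (Ch2 v).card ≤ 3) :
    (∀ w : α, corank w = i + 2 → (Pr w).card = 2 → (Pr2 w).card ≤ 3) ∧
      ∑ w ∈ PEv α i, eta s t k (Pr2 w) - ∑ v ∈ QEv α i, eta s t k (Ch2 v) = 1 := by
  obtain ⟨h, hG⟩ := C.gauss
  obtain ⟨m, z, x, hF, hL, hz, hx, hbz, hbx⟩ := C.relp_defect hi hD
  have hl := C.relp_lower hi
  have hdeg : ∀ p : α, (bd i p).card ≤ 2 := fun p => C.relp_deg p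
  have hk : bd i z ∩ bd i x = {k} := by
    rw [hbz, hbx]
    ext y
    simp only [mem_inter, mem_insert, mem_singleton]
    constructor
    · rintro ⟨h1 | h1, h2 | h2⟩
      · exact absurd (h1.symm.trans h2) hD.st
      · exact h2
      · exact h1
      · exact h1
    · intro h1
      exact ⟨Or.inr h1, Or.inr h1⟩
  have d3 := D3 hG hl m hF hL hz hx hk hdeg
  have d4 := D4 hG hl m hF hL hz hx hk hdeg
  have d5 := D5 hG hl m hF hL hz hx hk hdeg
  rw [hbz, hbx] at d3 d4 d5
  have hsg : ∀ q ∈ (U2 α i).filter (fun q => (BB i q).card = 4), sg i q = 1 := by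
    intro q hq
    rw [mem_filter, mem_U2, relp_ds] at hq
    obtain ⟨⟨h1 | h1, h2⟩, h3⟩ := hq
    · exfalso
      rw [C.relp_bd_above (by omega)] at h2
      rw [C.relp_BB_above h1] at h3
      have := hup q h1 h2
      omega
    · unfold sg
      rw [if_neg (by omega)]
  have h0 : ((U2 α i).filter fun q => (BB i q).card = 4).card = 0 := by
    rw [Finset.sum_congr rfl (g := fun q => (if Disjoint (BB i q) {t, k} then (1 : ℤ) else 0) -
        (if Disjoint (BB i q) {s, k} then 1 else 0))
      (fun q hq => by rw [hsg q hq, one_mul])] at d5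
    rw [sum_add_distrib, d5, add_zero, Finset.sum_congr rfl hsg, sum_const, nsmul_eq_mul,
      mul_one] at d4
    exact_mod_cast d4
  constructor
  · intro w h1 h2
    have h3 := C.relp_U2_below h1 h2
    have h4 := card_BB_le C.grd hdeg h3
    have h5 : ¬ (BB i w).card = 4 := by
      intro h6
      rw [card_eq_zero, filter_eq_empty_iff] at h0
      exact h0 h3 h6
    rw [C.relp_BB_below h1] at h4 h5
    omega
  · rw [h0, Nat.cast_zero, zero_add, C.relp_U1, sum_union relp_disj] at d3
    rw [← d3, sub_eq_add_neg, ← sum_neg_distrib]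
    congr 1
    · apply Finset.sum_congr rfl
      intro q hq
      rw [mem_PEv] at hq
      rw [C.relp_BB_below hq.1]
      unfold sg eta
      rw [if_neg (c := corank q < i) (by omega), one_mul]
    · apply Finset.sum_congr rfl
      intro q hq
      rw [mem_QEv] at hq
      rw [C.relp_BB_above hq.1]
      unfold sg eta
      rw [if_pos (c := corank q < i) (by omega)]
      ring

end Ctx

end Pool.Gauss
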