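import Pool.Agent.Work.MP_065141_co.Ext2
import Pool.Agent.Work.MP_065141_co.RelP

/-!
# Levels which are paths
-/

set_option autoImplicit false
set_option linter.unusedSectionVars false
open scoped Classical
open Finset

namespace Pool.Gauss

variable {α : Type} [Fintype α] [PartialOrder α]

/-- level `i` is `y 0, ..., y n`, the pairs above it are `{y j, y (j + 1)}` -/
structure PL (i n : ℕ) (y : ℕ → α) : Prop where
  cor : ∀ j ≤ n, corank (y j) = i
  inj : ∀ j ≤ n, ∀ j' ≤ n, y j = y j' → j = j'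
  sur : ∀ x : α, corank x = i → ∃ j ≤ n, x = y j
  mD : ∀ j j', j < j' → j' ≤ n → mD i {y j, y j'} = if j' = j + 1 then 1 else 0

/-- number of single lower covers -/
noncomputable def sg1 (y : α) : ℕ := ((Ch y).filter fun x => (Pr x).card = 1).card

namespace PL

variable {i n : ℕ} {y : ℕ → α}

lemma rev (h : PL i n y) : PL i n (fun j => y (n - j)) where
  cor j hj := h.cor (n - j) (by omega)
  inj j hj j' hj' he := by
    have := h.inj (n - j) (by omega) (n - j') (by omega) he
    omega
  sur x hx := by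
    obtain ⟨j, hj, rfl⟩ := h.sur x hx
    refine ⟨n - j, by omega, ?_⟩
    congr 1
    omega
  mD j j' h1 h2 := by
    rw [pair_comm, h.mD (n - j') (n - j) (by omega) (by omega)]
    congr 1
    apply propext
    omega

lemma ne (h : PL i n y) {j j' : ℕ} (h1 : j ≤ n) (h2 : j' ≤ n) (h3 : j ≠ j') : y j ≠ y j' :=
  fun h4 => h3 (h.inj j h1 j' h2 h4)

lemma lev_eq (h : PL i n y) : lev α i = (range (n + 1)).image y := by
  ext x
  rw [mem_lev, mem_image]
  constructor
  · intro hx
    obtain ⟨j, hj, rfl⟩ := h.sur x hx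
    exact ⟨j, mem_range.2 (by omega), rfl⟩
  · rintro ⟨j, hj, rfl⟩
    rw [mem_range] at hj
    exact h.cor j (by omega)

lemma sz_eq (h : PL i n y) : sz α i = n + 1 := by
  unfold sz
  rw [h.lev_eq, card_image_of_injOn, card_range]
  intro j hj j' hj' he
  rw [mem_coe, mem_range] at hj hj'
  exact h.inj j (by omega) j' (by omega) he

/-- pairs of elements of the level -/
lemma pair (h : PL i n y) {g : Finset α} (hg : g.card = 2) (hgl : g ⊆ lev α i) :
    ∃ j j', j < j' ∧ j' ≤ n ∧ g = {y j, y j'} := by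
  obtain ⟨a, b, hab, rfl⟩ := card_eq_two.1 hg
  have ha : a ∈ lev α i := hgl (by simp)
  have hb : b ∈ lev α i := hgl (by simp)
  rw [mem_lev] at ha hb
  obtain ⟨j, hj, rfl⟩ := h.sur a ha
  obtain ⟨j', hj', rfl⟩ := h.sur b hb
  rcases Nat.lt_trichotomy j j' with h1 | h1 | h1
  · exact ⟨j, j', h1, hj', rfl⟩
  · exact absurd (by rw [h1]) hab
  · exact ⟨j', j, h1, hj, pair_comm _ _⟩

lemma pair_inj (h : PL i n y) {j j' l l' : ℕ} (h1 : j < j') (h2 : j' ≤ n) (h3 : l < l')
    (h4 : l' ≤ n) (he : ({y j, y j'} : Finset α) = {y l, y l'}) : j = l ∧ j' = l' := by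
  have m1 : y j ∈ ({y l, y l'} : Finset α) := by rw [← he]; simp
  have m2 : y j' ∈ ({y l, y l'} : Finset α) := by rw [← he]; simp
  rw [mem_insert, mem_singleton] at m1 m2
  rcases m1 with m1 | m1
  · have e1 := h.inj _ (by omega) _ (by omega) m1
    rcases m2 with m2 | m2
    · have e2 := h.inj _ (by omega) _ (by omega) m2
      omega
    · have e2 := h.inj _ (by omega) _ (by omega) m2
      omega
  · have e1 := h.inj _ (by omega) _ (by omega) m1
    rcases m2 with m2 | m2
    · have e2 := h.inj _ (by omega) _ (by omega) m2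
      omega
    · have e2 := h.inj _ (by omega) _ (by omega) m2
      omega

lemma mD_pos (C : Ctx α) (h : PL i n y) {g : Finset α} (hg : g.card = 2) (hm : 0 < Gauss.mD i g) :
    ∃ j < n, g = {y j, y (j + 1)} := by
  have hgl : g ⊆ lev α i := by
    by_contra hcon
    rw [C.mD_zero hcon] at hm
    omega
  obtain ⟨j, j', h1, h2, rfl⟩ := h.pair hg hgl
  rw [h.mD j j' h1 h2] at hm
  split_ifs at hm with h3
  · subst h3
    exact ⟨j, by omega, rfl⟩
  · omega

/-- double elements below a perfect path level -/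
lemma aD_eq (C : Ctx α) (h : PL i n y) {j : ℕ} (hj : j ≤ n) :
    aD (y j) = (if 0 < j then 1 else 0) + (if j < n then 1 else 0) := by
  rw [C.aD_sum (h.cor j hj)]
  have h1 : ∀ g ∈ ((lev α i).powersetCard 2).filter (fun g => y j ∈ g), Gauss.mD i g =
      (if 0 < j ∧ g = {y (j - 1), y j} then 1 else 0) +
      (if j < n ∧ g = {y j, y (j + 1)} then 1 else 0) := by
    intro g hg
    rw [mem_filter, mem_powersetCard] at hg
    obtain ⟨⟨h2, h3⟩, h4⟩ := hg
    obtain ⟨a, b, h5, h6, rfl⟩ := h.pair h3 h2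
    rw [h.mD a b h5 h6]
    rw [mem_insert, mem_singleton] at h4
    have h7 : (0 < j ∧ ({y a, y b} : Finset α) = {y (j - 1), y j}) ↔ (0 < j ∧ a = j - 1 ∧ b = j) := by
      constructor
      · rintro ⟨h8, h9⟩
        exact ⟨h8, h.pair_inj h5 h6 (by omega) hj h9⟩
      · rintro ⟨h8, rfl, rfl⟩
        exact ⟨h8, rfl⟩
    have h8 : (j < n ∧ ({y a, y b} : Finset α) = {y j, y (j + 1)}) ↔
        (j < n ∧ a = j ∧ b = j + 1) := by
      constructor
      · rintro ⟨h8, h9⟩
        exact ⟨h8, h.pair_inj h5 h6 (by omega) (by omega) h9⟩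
      · rintro ⟨h8, rfl, rfl⟩
        exact ⟨h8, rfl⟩
    simp only [h7, h8]
    rcases h4 with h4 | h4
    · have e := h.inj _ hj _ (by omega) h4
      split_ifs <;> omega
    · have e := h.inj _ hj _ (by omega) h4
      split_ifs <;> omega
  rw [Finset.sum_congr rfl h1, Finset.sum_add_distrib]
  congr 1
  · split_ifs with h2
    · simp only [h2, true_and]
      rw [Finset.sum_ite_eq']
      rw [if_pos]
      rw [mem_filter, mem_powersetCard]
      refine ⟨⟨?_, ?_⟩, ?_⟩
      · intro x hx
        rw [mem_insert, mem_singleton] at hx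
        rcases hx with rfl | rfl
        · exact mem_lev.2 (h.cor _ (by omega))
        · exact mem_lev.2 (h.cor _ (by omega))
      · exact card_pair (h.ne (by omega) hj (by omega))
      · simp
    · simp [h2]
  · split_ifs with h2
    · simp only [h2, true_and]
      rw [Finset.sum_ite_eq']
      rw [if_pos]
      rw [mem_filter, mem_powersetCard]
      refine ⟨⟨?_, ?_⟩, ?_⟩
      · intro x hx
        rw [mem_insert, mem_singleton] at hx
        rcases hx with rfl | rfl
        · exact mem_lev.2 (h.cor _ (by omega))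
        · exact mem_lev.2 (h.cor _ (by omega))
      · exact card_pair (h.ne (by omega) (by omega) (by omega))
      · simp
    · simp [h2]

end PL

namespace Ctx

variable (C : Ctx α)
include C

lemma bC_add_sg1 (y : α) : bC y + sg1 y = (Ch y).card := by
  unfold bC sg1
  rw [← card_union_of_disjoint]
  · congr 1
    ext x
    rw [mem_union, mem_filter, mem_filter]
    constructor
    · rintro (h | h)
      · exact h.1
      · exact h.1
    · intro h
      have h1 := C.cork (Gauss.mem_Ch.1 h)
      rcases C.pr_cases (x := x) (by omega) with h3 | h3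
      · exact Or.inr ⟨h, h3⟩
      · exact Or.inl ⟨h, h3⟩
  · rw [Finset.disjoint_left]
    intro x h3 h4
    rw [mem_filter] at h3 h4
    omega

/-- with exactly one single element in level `i + 1` -/
lemma sg1_eq {i : ℕ} {x0 t y : α} (hy : corank y = i) (ht : Pr x0 = {t})
    (hx0 : ∀ x' : α, corank x' = i + 1 → (Pr x').card = 1 → x' = x0) :
    sg1 y = if y = t then 1 else 0 := by
  unfold sg1
  split_ifs with h
  · subst h
    rw [card_eq_one]
    refine ⟨x0, ?_⟩
    ext x
    rw [mem_filter, mem_singleton]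
    constructor
    · rintro ⟨h1, h2⟩
      have := C.cork (Gauss.mem_Ch.1 h1)
      exact hx0 x (by omega) h2
    · rintro rfl
      refine ⟨?_, by rw [ht, card_singleton]⟩
      rw [← mem_Pr_iff, ht, mem_singleton]
  · rw [card_eq_zero, filter_eq_empty_iff]
    intro x h1 h2
    have h3 := C.cork (Gauss.mem_Ch.1 h1)
    have h4 := hx0 x (by omega) h2
    subst h4
    rw [← mem_Pr_iff, ht, mem_singleton] at h1
    exact h h1

/-- without single elements in level `i + 1` -/
lemma sg1_zero {i : ℕ} {y : α} (hy : corank y = i)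
    (hx0 : ∀ x' : α, corank x' = i + 1 → (Pr x').card ≠ 1) : sg1 y = 0 := by
  unfold sg1
  rw [card_eq_zero, filter_eq_empty_iff]
  intro x h1 h2
  have h3 := C.cork (Gauss.mem_Ch.1 h1)
  exact hx0 x (by omega) h2

/-- number of single elements, as a sum over level `i` -/
lemma sum_sg1 (i : ℕ) : ∑ y ∈ lev α i, sg1 y =
    ((lev α (i + 1)).filter fun x => (Pr x).card = 1).card := by
  have h1 : ∀ y ∈ lev α i, sg1 y =
      ((lev α (i + 1)).filter fun x => (Pr x).card = 1 ∧ Pr x = {y}).card := by
    intro y hy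
    rw [mem_lev] at hy
    unfold sg1
    congr 1
    ext x
    rw [mem_filter, mem_filter, mem_lev]
    constructor
    · rintro ⟨h2, h3⟩
      have h4 := C.cork (Gauss.mem_Ch.1 h2)
      refine ⟨by omega, h3, ?_⟩
      obtain ⟨a, ha⟩ := card_eq_one.1 h3
      rw [← mem_Pr_iff, ha, mem_singleton] at h2
      rw [ha, h2]
    · rintro ⟨h2, h3, h4⟩
      refine ⟨?_, h3⟩
      rw [← mem_Pr_iff, h4, mem_singleton]
  rw [Finset.sum_congr rfl h1]
  rw [← card_biUnion]
  · congr 1
    ext x
    rw [mem_biUnion, mem_filter]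
    constructor
    · rintro ⟨y, hy, h2⟩
      rw [mem_filter] at h2
      exact ⟨h2.1, h2.2.1⟩
    · rintro ⟨h2, h3⟩
      obtain ⟨a, ha⟩ := card_eq_one.1 h3
      rw [mem_lev] at h2
      refine ⟨a, C.pr_sub h2 (by rw [ha]; simp), ?_⟩
      rw [mem_filter, mem_lev]
      exact ⟨h2, h3, ha⟩
  · intro a _ b _ hab
    rw [Function.onFun, Finset.disjoint_left]
    intro x h2 h3
    rw [mem_filter] at h2 h3
    apply hab
    have := h2.2.2.symm.trans h3.2.2
    exact singleton_injective this

end Ctx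

/-- one single element (under `t`), one element with one lower cover (`S`): deviation -/
lemma PL.dev (C : Ctx α) {i n : ℕ} {y : ℕ → α} (h : PL i n y) (hn : 1 ≤ n) (hi : i + 1 < HT α)
    {x0 S t : α} (ht : Pr x0 = {t})
    (hx0 : ∀ x' : α, corank x' = i + 1 → (Pr x').card = 1 → x' = x0)
    (hS : (Ch S).card = 1) (hS' : ∀ S' : α, corank S' = i → (Ch S').card = 1 → S' = S)
    {u : α} (hu : corank u = i) :
    bC u + (if u = S then 1 else 0) + (if u = t then 1 else 0) =
      aD u + (if u = y 0 then 1 else 0) + (if u = y n then 1 else 0) := by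
  have h1 := C.bC_add_sg1 u
  rw [C.sg1_eq hu ht hx0] at h1
  obtain ⟨j, hj, rfl⟩ := h.sur u hu
  rw [h.aD_eq C hj]
  have h2 : (Ch (y j)).card + (if y j = S then 1 else 0) = 2 := by
    rcases C.ch_cases (x := y j) (by omega) with h3 | h3
    · rw [h3, if_pos (hS' _ hu h3)]
    · rw [h3, if_neg]
      intro h4
      rw [h4] at h3
      omega
  have e0 : y j = y 0 ↔ j = 0 := ⟨fun h3 => h.inj _ hj _ (by omega) h3, fun h3 => by rw [h3]⟩
  have en : y j = y n ↔ j = n := ⟨fun h3 => h.inj _ hj _ (by omega) h3, fun h3 => by rw [h3]⟩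
  simp only [e0, en]
  split_ifs at * <;> omega

/-- one single element under the tip `y n` -/
theorem PL.one_one (C : Ctx α) {i n : ℕ} {y : ℕ → α} (h : PL i n y) (hn : 1 ≤ n) (hi0 : 0 < i)
    (hi : i + 1 < HT α) {x0 S : α} (ht : Pr x0 = {y n})
    (hx0 : ∀ x' : α, corank x' = i + 1 → (Pr x').card = 1 → x' = x0)
    (hS0 : corank S = i) (hS : (Ch S).card = 1)
    (hS' : ∀ S' : α, corank S' = i → (Ch S').card = 1 → S' = S) :
    (S = y 0 ∧ Perf α i) ∨ (S ≠ y 0 ∧ ∃ k, Defect i S (y 0) k) := by
  have hd := fun u hu => h.dev C hn hi ht hx0 hS hS' (u := u) hu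
  by_cases h1 : S = y 0
  · left
    refine ⟨h1, C.perf_of_deg hi0 (by omega) fun u hu => ?_⟩
    have h2 := hd u hu
    rw [h1] at h2
    omega
  · right
    refine ⟨h1, C.defect_of_deg hi0 (by omega) hS0 (h.cor 0 (by omega)) h1 ?_ ?_ ?_⟩
    · have h2 := hd S hS0
      rw [if_pos rfl, if_neg h1] at h2
      omega
    · have h2 := hd (y 0) (h.cor 0 (by omega))
      rw [if_pos rfl, if_neg (fun h3 => h1 h3.symm)] at h2
      omega
    · intro u hu h2 h3
      have h4 := hd u hu
      rw [if_neg h2, if_neg h3] at h4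
      omega

/-- the pair lost by a defect is an edge of the path -/
lemma PL.nbr (C : Ctx α) {i n : ℕ} {y : ℕ → α} (h : PL i n y) {s t k : α} (hD : Defect i s t k) :
    ∃ j < n, ({s, k} : Finset α) = {y j, y (j + 1)} := by
  apply h.mD_pos C (card_pair hD.sk)
  have h1 := hD.eq {s, k} (card_pair hD.sk)
  rw [if_pos rfl, if_neg] at h1
  · omega
  · intro h2
    have h3 : s ∈ ({t, k} : Finset α) := by rw [← h2]; simp
    rw [mem_insert, mem_singleton] at h3
    rcases h3 with h3 | h3
    · exact hD.st h3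
    · exact hD.sk h3

/-- the new pair of a defect occurs below -/
lemma Defect.mC_pos {i : ℕ} {s t k : α} (hD : Defect i s t k) : 0 < mC i {t, k} := by
  have h1 := hD.eq {t, k} (card_pair hD.tk)
  rw [if_pos rfl, if_neg] at h1
  · omega
  · intro h2
    have h3 : s ∈ ({t, k} : Finset α) := by rw [h2]; simp
    rw [mem_insert, mem_singleton] at h3
    rcases h3 with h3 | h3
    · exact hD.st h3
    · exact hD.sk h3

lemma exists_of_mC_pos {i : ℕ} {g : Finset α} (h : 0 < mC i g) : ∃ x : α, corank x = i + 1 ∧ Pr x = g := by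
  unfold mC at h
  obtain ⟨x, hx⟩ := card_pos.1 h
  rw [mem_filter, mem_lev] at hx
  exact ⟨x, hx⟩

lemma exists_of_mD_pos {i : ℕ} {g : Finset α} (h : 0 < mD i g) : ∃ z : α, corank z + 1 = i ∧ Ch z = g := by
  unfold mD at h
  obtain ⟨x, hx⟩ := card_pos.1 h
  rw [mem_filter, mem_lev'] at hx
  exact ⟨x, hx⟩

lemma mC_pos_of {i : ℕ} {g : Finset α} {x : α} (h : corank x = i + 1) (h1 : Pr x = g) :
    0 < mC i g := card_pos.2 ⟨x, mem_filter.2 ⟨mem_lev.2 h, h1⟩⟩

lemma Pr2_of_pair {x a b : α} (h : Pr x = {a, b}) : Pr2 x = Pr a ∪ Pr b := by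
  unfold Pr2
  rw [h, biUnion_insert, singleton_biUnion]

lemma Ch2_of_pair {x a b : α} (h : Ch x = {a, b}) : Ch2 x = Ch a ∪ Ch b := by
  unfold Ch2
  rw [h, biUnion_insert, singleton_biUnion]

/-- vanishing of `η` on a pair which is `{s,k}`, or `{t,k}`, or disjoint from both or meets both -/
lemma eta_eq {s t k : α} {g : Finset α} (h : Disjoint g {t, k} ↔ Disjoint g {s, k}) :
    eta s t k g = 0 := by
  unfold eta
  simp only [h]
  ring

lemma eta_of_mem_k {s t k : α} {g : Finset α} (h : k ∈ g) : eta s t k g = 0 := by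
  apply eta_eq
  constructor
  · intro h1
    exfalso
    exact (Finset.disjoint_left.1 h1 h) (by simp)
  · intro h1
    exfalso
    exact (Finset.disjoint_left.1 h1 h) (by simp)

lemma eta_val {s t k : α} {g : Finset α} : eta s t k g =
    (if k ∈ g then 0 else (if s ∈ g then 1 else 0) - (if t ∈ g then 1 else 0)) := by
  unfold eta
  by_cases hk : k ∈ g
  · rw [if_pos hk]
    exact eta_of_mem_k hk
  · rw [if_neg hk]
    have h1 : Disjoint g {t, k} ↔ t ∉ g := by
      rw [disjoint_insert_right, disjoint_singleton_right]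
      tauto
    have h2 : Disjoint g {s, k} ↔ s ∉ g := by
      rw [disjoint_insert_right, disjoint_singleton_right]
      tauto
    simp only [h1, h2]
    split_ifs <;> simp_all

end Pool.Gauss
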