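import Pool.Agent.Work.MP_065141_co.Cfg

/-!
# The relations of order three: classification of the configurations, P3 and D3
-/

set_option autoImplicit false
set_option linter.unusedSectionVars false
set_option linter.unusedVariables false
open scoped Classical
open Finset Polynomial

namespace Pool.Gauss

variable {α : Type} [Fintype α] [PartialOrder α] {i : ℕ}

lemma loss (hg : Grad α) (hl : HasLower α i) {ε : α → ℕ} (hε : GoodE i ε) {n : ℕ}
    (hn : (lev α i).card = n) (h : (pkF i ε).card + 2 ≤ n) :
    (Fo i ε).card + 2 ≤ (Yd i ε).card := by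
  have := card_pkF hg hl hε
  omega

lemma ds_ne {p q : α} (h : ds i p ≠ ds i q) : p ≠ q := fun h' => h (by rw [h'])

lemma att_pos (hg : Grad α) (hl : HasLower α i) {ε : α → ℕ} (hε : GoodE i ε) {p : α}
    (hp : ds i p = 1) (h : att i ε p) : ∃ q, fr i p q ∧ 0 < ε q ∧ ds i q = 2 ∧ 0 < ε p := by
  rw [att_iff hg hp] at h
  obtain ⟨q, hq, hq'⟩ := h
  refine ⟨q, hq, hq', by rw [fr_ds hg hq, hp], closure hg hl hε hq ?_ hq'⟩
  intro h2
  rw [ds_eq_zero.2 h2] at hp
  omega

lemma att_of_fr (hg : Grad α) {ε : α → ℕ} {p q : α} (hp : ds i p = 1) (h : fr i p q)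
    (hq : 0 < ε q) : att i ε p := (att_iff hg hp).2 ⟨q, h, hq⟩

/-- two exceptional elements are on different sides and have one common neighbour -/
def LL (i : ℕ) (L : Finset α) : Prop := ∀ p ∈ L, ∀ p' ∈ L, p ≠ p' →
  ((corank p < i ∧ i < corank p') ∨ (i < corank p ∧ corank p' < i)) ∧ ∃ k, bd i p ∩ bd i p' = {k}

/-- the configuration of an element at distance two with its nearer neighbours -/
noncomputable def cfA (i : ℕ) (q : α) : α → ℕ := ind ({q} ∪ bd i q ∪ ∅)

/-- the configuration of an element at distance two with its nearer neighbours and an exceptional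
element -/
noncomputable def cfB (i : ℕ) (q l : α) : α → ℕ := ind ({q} ∪ insert l (bd i q) ∪ ∅)

/-- the configuration of two exceptional elements and their common neighbour -/
noncomputable def cfC (p p' k : α) : α → ℕ := ind (∅ ∪ {p, p'} ∪ {k})

theorem class3 (hg : Grad α) (hl : HasLower α i) (m : Mat α i) {L : Finset α}
    (hF : m.FullX L) (hL : m.Lone L) (hLL : LL i L) (hdeg : ∀ p : α, (bd i p).card ≤ 2)
    {n : ℕ} (hn : (lev α i).card = n) {ε : α → ℕ} (hε : GoodE i ε) (hred : m.Red ε)
    (hs : ∑ p, ε p ≤ 3) (hpk : (pkF i ε).card + 2 ≤ n) :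
    (∃ q ∈ U2 α i, (BB i q).card = 4 ∧ ε = cfA i q) ∨
    (∃ q ∈ U1 α i, ∃ l ∈ L, (BB i q).card = 2 ∧ Disjoint (BB i q) (bd i l) ∧ ε = cfB i q l) ∨
    (∃ p ∈ L, ∃ p' ∈ L, p ≠ p' ∧ ∃ k, bd i p ∩ bd i p' = {k} ∧ ε = cfC p p' k) := by
  have hloss := loss hg hl hε hn hpk
  obtain ⟨p, hp, p', hp', hne⟩ := two_excited hg hdeg hloss
  rw [mem_Ax] at hp hp'
  have hpi : corank p ≠ i := by
    intro h
    rw [ds_eq_zero.2 h] at hp
    omega
  have hpi' : corank p' ≠ i := by
    intro h
    rw [ds_eq_zero.2 h] at hp'
    omega
  -- reformulation of the case of one attached element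
  have one : ∀ a b : α, a ≠ b → ds i a = 1 → ds i b = 1 → 0 < ε a → 0 < ε b → att i ε a →
      ∃ q, ds i q = 2 ∧ fr i a q ∧ ε = ind {q, a, b} := by
    intro a b hab ha hb hea heb hatt
    obtain ⟨q, hq, hq', hq2, _⟩ := att_pos hg hl hε ha hatt
    refine ⟨q, hq2, hq, ?_⟩
    have hc : ({q, a, b} : Finset α).card = 3 := by
      rw [card_insert_of_notMem, card_insert_of_notMem, card_singleton]
      · simpa using hab
      · have h1 : q ≠ a := ds_ne (i := i) (by omega)
        have h2 : q ≠ b := ds_ne (i := i) (by omega)
        simp [h1, h2]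
    apply eq_ind
    · intro t ht
      simp only [mem_insert, mem_singleton] at ht
      rcases ht with rfl | rfl | rfl
      · exact hq'
      · exact hea
      · exact heb
    · omega
  by_cases hatt : att i ε p <;> by_cases hatt' : att i ε p'
  · -- both attached
    left
    obtain ⟨q, hq2, hq, he⟩ := one p p' hne hp.1 hp'.1 hp.2 hp'.2 hatt
    obtain ⟨q', hq'', hq', hq2', _⟩ := att_pos hg hl hε hp'.1 hatt'
    have hqq : q' = q := by
      rw [he, ind_pos] at hq'
      simp only [mem_insert, mem_singleton] at hq'
      rcases hq' with h | h | h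
      · exact h
      · exact absurd h (ds_ne (i := i) (by omega))
      · exact absurd h (ds_ne (i := i) (by omega))
    rw [hqq] at hq''
    have hbd : bd i q = {p, p'} := by
      symm
      apply Finset.eq_of_subset_of_card_le
      · intro t ht
        simp only [mem_insert, mem_singleton] at ht
        rcases ht with rfl | rfl
        · exact mem_bd.2 hq
        · exact mem_bd.2 hq''
      · rw [card_pair hne]
        exact hdeg q
    have hU : q ∈ U2 α i := mem_U2.2 ⟨hq2, by rw [hbd, card_pair hne]⟩
    have hT : ε = cfA i q := by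
      rw [he]
      unfold cfA
      congr 1
      rw [hbd, union_empty]
      rfl
    refine ⟨q, hU, ?_, hT⟩
    have hQ : ∀ t ∈ ({q} : Finset α), ds i t = 2 := by simpa using hq2
    have hA : ∀ t ∈ bd i q, ds i t = 1 := fun t ht => ds_of_mem_bd hg hq2 ht
    have hZ : ∀ t ∈ (∅ : Finset α), corank t = i := by simp
    have hQA : ∀ t ∈ ({q} : Finset α), bd i t ⊆ bd i q := by simp
    have h1 := cfg_Fo hg hl hQ hA hZ hQA
    have h2 := cfg_Yd hg hQ hA hZ
    rw [hT] at hloss
    unfold cfA at hloss
    rw [h1, h2, sdiff_empty] at hloss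
    have h3 : ((bd i q).filter fun p => Disjoint (bd i p) ∅) = bd i q :=
      Finset.filter_true_of_mem fun p _ => Finset.disjoint_empty_right _
    rw [h3, hbd, card_pair hne] at hloss
    have h4 : (BB i q).card ≤ 4 := by
      unfold BB
      rw [hbd]
      refine (Finset.card_biUnion_le).trans ?_
      rw [sum_pair hne]
      have := hdeg p
      have := hdeg p'
      omega
    have h5 : BB i q = ({p, p'} : Finset α).biUnion (bd i) := by unfold BB; rw [hbd]
    rw [← h5] at hloss
    omega
  · -- `p` attached, `p'` exceptional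
    right; left
    obtain ⟨q, hq2, hq, he⟩ := one p p' hne hp.1 hp'.1 hp.2 hp'.2 hatt
    have hpL : p' ∈ L := (m.att_of_pos hg hl hF hε hred (by omega) hp'.1 hp'.2).resolve_left hatt'
    have hq0 : 0 < ε q := by rw [he, ind_pos]; simp
    have hbd : bd i q = {p} := by
      ext t
      rw [mem_singleton]
      constructor
      · intro ht
        have h1 := ds_of_mem_bd hg hq2 ht
        have h2 : 0 < ε t := by
          apply closure hg hl hε (mem_bd.1 ht) _ hq0
          intro h
          rw [ds_eq_zero.2 h] at h1
          omega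
        rw [he, ind_pos] at h2
        simp only [mem_insert, mem_singleton] at h2
        rcases h2 with h2 | h2 | h2
        · exact absurd h2 (ds_ne (i := i) (by omega))
        · exact h2
        · exfalso
          rw [h2] at ht
          exact hatt' (att_of_fr hg hp'.1 (mem_bd.1 ht) hq0)
      · rintro rfl
        exact mem_bd.2 hq
    have hU : q ∈ U1 α i := mem_U1.2 ⟨hq2, by rw [hbd, card_singleton]⟩
    have hT : ε = cfB i q p' := by
      rw [he]
      unfold cfB
      congr 1
      rw [hbd, union_empty]
      ext t
      simp only [mem_insert, mem_union, mem_singleton]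
      tauto
    have hBB : BB i q = bd i p := by
      unfold BB
      rw [hbd, singleton_biUnion]
    have hQ : ∀ t ∈ ({q} : Finset α), ds i t = 2 := by simpa using hq2
    have hA : ∀ t ∈ insert p' (bd i q), ds i t = 1 := by
      intro t ht
      rw [hbd] at ht
      simp only [mem_insert, mem_singleton] at ht
      rcases ht with rfl | rfl
      · exact hp'.1
      · exact hp.1
    have hZ : ∀ t ∈ (∅ : Finset α), corank t = i := by simp
    have hQA : ∀ t ∈ ({q} : Finset α), bd i t ⊆ insert p' (bd i q) := by
      intro t ht
      rw [mem_singleton] at ht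
      rw [ht]
      exact subset_insert _ _
    have h1 := cfg_Fo hg hl hQ hA hZ hQA
    have h2 := cfg_Yd hg hQ hA hZ
    rw [hT] at hloss
    unfold cfB at hloss
    rw [h1, h2, sdiff_empty] at hloss
    have h3 : ((insert p' (bd i q)).filter fun p => Disjoint (bd i p) ∅) = insert p' (bd i q) :=
      Finset.filter_true_of_mem fun p _ => Finset.disjoint_empty_right _
    rw [h3, hbd, card_pair hne.symm] at hloss
    have h4 : ({p', p} : Finset α).biUnion (bd i) = bd i p' ∪ bd i p := by
      rw [biUnion_insert, singleton_biUnion]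
    have e1 : insert p' ({p} : Finset α) = {p', p} := rfl
    rw [e1, h4] at hloss
    have h5 := card_union_le (bd i p') (bd i p)
    have h6 := hdeg p
    have h7 := hdeg p'
    refine ⟨q, hU, p', hpL, by rw [hBB]; omega, ?_, hT⟩
    rw [hBB]
    have h8 : (bd i p' ∪ bd i p).card = (bd i p').card + (bd i p).card := by omega
    exact (Finset.card_union_eq_card_add_card.1 h8).symm
  · -- `p'` attached, `p` exceptional
    right; left
    obtain ⟨q, hq2, hq, he⟩ := one p' p hne.symm hp'.1 hp.1 hp'.2 hp.2 hatt'
    have hpL : p ∈ L := (m.att_of_pos hg hl hF hε hred (by omega) hp.1 hp.2).resolve_left hatt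
    have hq0 : 0 < ε q := by rw [he, ind_pos]; simp
    have hbd : bd i q = {p'} := by
      ext t
      rw [mem_singleton]
      constructor
      · intro ht
        have h1 := ds_of_mem_bd hg hq2 ht
        have h2 : 0 < ε t := by
          apply closure hg hl hε (mem_bd.1 ht) _ hq0
          intro h
          rw [ds_eq_zero.2 h] at h1
          omega
        rw [he, ind_pos] at h2
        simp only [mem_insert, mem_singleton] at h2
        rcases h2 with h2 | h2 | h2
        · exact absurd h2 (ds_ne (i := i) (by omega))
        · exact h2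
        · exfalso
          rw [h2] at ht
          exact hatt (att_of_fr hg hp.1 (mem_bd.1 ht) hq0)
      · rintro rfl
        exact mem_bd.2 hq
    have hU : q ∈ U1 α i := mem_U1.2 ⟨hq2, by rw [hbd, card_singleton]⟩
    have hT : ε = cfB i q p := by
      rw [he]
      unfold cfB
      congr 1
      rw [hbd, union_empty]
      ext t
      simp only [mem_insert, mem_union, mem_singleton]
      tauto
    have hBB : BB i q = bd i p' := by
      unfold BB
      rw [hbd, singleton_biUnion]
    have hQ : ∀ t ∈ ({q} : Finset α), ds i t = 2 := by simpa using hq2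
    have hA : ∀ t ∈ insert p (bd i q), ds i t = 1 := by
      intro t ht
      rw [hbd] at ht
      simp only [mem_insert, mem_singleton] at ht
      rcases ht with rfl | rfl
      · exact hp.1
      · exact hp'.1
    have hZ : ∀ t ∈ (∅ : Finset α), corank t = i := by simp
    have hQA : ∀ t ∈ ({q} : Finset α), bd i t ⊆ insert p (bd i q) := by
      intro t ht
      rw [mem_singleton] at ht
      rw [ht]
      exact subset_insert _ _
    have h1 := cfg_Fo hg hl hQ hA hZ hQA
    have h2 := cfg_Yd hg hQ hA hZ
    rw [hT] at hloss
    unfold cfB at hloss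
    rw [h1, h2, sdiff_empty] at hloss
    have h3 : ((insert p (bd i q)).filter fun p => Disjoint (bd i p) ∅) = insert p (bd i q) :=
      Finset.filter_true_of_mem fun p _ => Finset.disjoint_empty_right _
    rw [h3, hbd, card_pair hne] at hloss
    have h4 : ({p, p'} : Finset α).biUnion (bd i) = bd i p ∪ bd i p' := by
      rw [biUnion_insert, singleton_biUnion]
    have e1 : insert p ({p'} : Finset α) = {p, p'} := rfl
    rw [e1, h4] at hloss
    have h5 := card_union_le (bd i p) (bd i p')
    have h6 := hdeg p
    have h7 := hdeg p'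
    refine ⟨q, hU, p, hpL, by rw [hBB]; omega, ?_, hT⟩
    rw [hBB]
    have h8 : (bd i p ∪ bd i p').card = (bd i p).card + (bd i p').card := by omega
    exact (Finset.card_union_eq_card_add_card.1 h8).symm
  · -- both exceptional
    right; right
    have hpL : p ∈ L := (m.att_of_pos hg hl hF hε hred (by omega) hp.1 hp.2).resolve_left hatt
    have hpL' : p' ∈ L := (m.att_of_pos hg hl hF hε hred (by omega) hp'.1 hp'.2).resolve_left hatt'
    obtain ⟨hside, k, hk⟩ := hLL p hpL p' hpL' hne
    have hk' : k ∈ bd i p ∩ bd i p' := by rw [hk]; exact mem_singleton_self k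
    rw [mem_inter] at hk'
    have hki : corank k = i := bd_lev hg hp.1 hk'.1
    have hkpos : 0 < ε k := by
      by_contra h
      have := same_side hg hε hki (mem_bd.1 hk'.1) (mem_bd.1 hk'.2) (by omega) (by omega)
      omega
    refine ⟨p, hpL, p', hpL', hne, k, hk, ?_⟩
    have hd0 : ds i k = 0 := ds_eq_zero.2 hki
    have hc : ({p, p', k} : Finset α).card = 3 := by
      have h1 : p ≠ k := ds_ne (i := i) (by omega)
      have h2 : p' ≠ k := ds_ne (i := i) (by omega)
      rw [card_insert_of_notMem, card_insert_of_notMem, card_singleton]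
      · simpa using h2
      · simp [hne, h1]
    have he : ε = ind {p, p', k} := by
      apply eq_ind
      · intro t ht
        simp only [mem_insert, mem_singleton] at ht
        rcases ht with rfl | rfl | rfl
        · exact hp.2
        · exact hp'.2
        · exact hkpos
      · omega
    rw [he]
    unfold cfC
    congr 1
    ext t
    simp only [mem_insert, mem_union, mem_singleton, notMem_empty]
    tauto

end Pool.Gauss
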