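import Pool.Agent.Work.MP_065141_co.P3D3

/-!
# The relation of order four at a perfect level: classification of the configurations
-/

set_option autoImplicit false
set_option linter.unusedSectionVars false
set_option linter.unusedVariables false
open scoped Classical
open Finset Polynomial

namespace Pool.Gauss

variable {α : Type} [Fintype α] [PartialOrder α] {i : ℕ}

/-- the common neighbours in level `i` of the nearer neighbours of `q` -/
noncomputable def II (i : ℕ) (q : α) : Finset α := univ.filter fun y => ∀ p ∈ bd i q, y ∈ bd i p

lemma mem_II {q y : α} : y ∈ II i q ↔ ∀ p ∈ bd i q, y ∈ bd i p := by simp [II]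

/-- two elements at distance two with their nearer neighbours -/
noncomputable def cfD (i : ℕ) (q q' : α) : α → ℕ := ind ({q, q'} ∪ (bd i q ∪ bd i q') ∪ ∅)

/-- an element at distance two with energy two and its nearer neighbours -/
noncomputable def cfE4 (i : ℕ) (q : α) : α → ℕ := ind ({q} ∪ bd i q ∪ ∅) + ind {q}

/-- an element at distance two, its nearer neighbours and their common neighbour -/
noncomputable def cfF (i : ℕ) (q : α) : α → ℕ := ind ({q} ∪ bd i q ∪ II i q)

/-- pairs of elements at distance two over one double element each -/
def isD (i : ℕ) (q q' : α) : Prop :=
  (q ∈ U1 α i ∧ (BB i q).card = 2) ∧ (q' ∈ U1 α i ∧ (BB i q').card = 2) ∧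
    Disjoint (BB i q) (BB i q')

lemma card_II (hg : Grad α) (hdeg : ∀ p : α, (bd i p).card ≤ 2) {q : α} (hq : q ∈ U2 α i)
    (hB : (BB i q).card = 3) {y : α} (hy : y ∈ II i q) :
    II i q = {y} ∧ ∀ p ∈ bd i q, (bd i p).card = 2 := by
  rw [mem_U2] at hq
  obtain ⟨p, p', hne, hpp⟩ := Finset.card_eq_two.1 hq.2
  have hBB : BB i q = bd i p ∪ bd i p' := by
    unfold BB
    rw [hpp, biUnion_insert, singleton_biUnion]
  have hII : II i q = bd i p ∩ bd i p' := by
    ext t
    rw [mem_II, hpp, mem_inter]
    simp
  have h1 := Finset.card_union_add_card_inter (bd i p) (bd i p')
  rw [← hBB, ← hII, hB] at h1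
  have h2 := hdeg p
  have h3 := hdeg p'
  have h4 : 0 < (II i q).card := Finset.card_pos.2 ⟨y, hy⟩
  have h5 : (II i q).card = 1 := by omega
  constructor
  · obtain ⟨t, ht⟩ := Finset.card_eq_one.1 h5
    rw [ht] at hy ⊢
    rw [mem_singleton] at hy
    rw [hy]
  · rw [hpp]
    intro t ht
    rw [mem_insert, mem_singleton] at ht
    rcases ht with rfl | rfl
    · omega
    · omega

/-- classification of the configurations of energy at most four -/
theorem class4 (hg : Grad α) (hl : HasLower α i) (m : Mat α i) (hF : m.FullX ∅)
    (hdeg : ∀ p : α, (bd i p).card ≤ 2) (hP3 : ∀ q ∈ U2 α i, (BB i q).card ≤ 3)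
    {n : ℕ} (hn : (lev α i).card = n) {ε : α → ℕ} (hε : GoodE i ε) (hred : m.Red ε)
    (hs : ∑ p, ε p ≤ 4) (hpk : (pkF i ε).card + 2 ≤ n) :
    (∃ q q', isD i q q' ∧ ε = cfD i q q') ∨
    (∃ q ∈ U2 α i, (BB i q).card = 3 ∧ ε = cfE4 i q) ∨
    (∃ q ∈ U2 α i, (BB i q).card = 3 ∧ (II i q).Nonempty ∧ ε = cfF i q) := by
  have hloss := loss hg hl hε hn hpk
  obtain ⟨p, hp, p', hp', hne⟩ := two_excited hg hdeg hloss
  rw [mem_Ax] at hp hp'
  have hatt : att i ε p := (m.att_of_pos hg hl hF hε hred hs hp.1 hp.2).resolve_right (by simp)
  have hatt' : att i ε p' := (m.att_of_pos hg hl hF hε hred hs hp'.1 hp'.2).resolve_right (by simp)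
  obtain ⟨q, hq, hq1, hq2, _⟩ := att_pos hg hl hε hp.1 hatt
  obtain ⟨q', hq', hq1', hq2', _⟩ := att_pos hg hl hε hp'.1 hatt'
  have hpi : corank p ≠ i := by
    intro h
    rw [ds_eq_zero.2 h] at hp
    omega
  have hpi' : corank p' ≠ i := by
    intro h
    rw [ds_eq_zero.2 h] at hp'
    omega
  by_cases hcom : ∃ q, fr i p q ∧ fr i p' q ∧ 0 < ε q
  · -- common far neighbour
    obtain ⟨q, hq, hq', hq0⟩ := hcom
    have hq2 : ds i q = 2 := by rw [fr_ds hg hq, hp.1]
    have hbd : bd i q = {p, p'} := by
      symm
      apply Finset.eq_of_subset_of_card_le
      · intro t ht
        simp only [mem_insert, mem_singleton] at ht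
        rcases ht with rfl | rfl
        · exact mem_bd.2 hq
        · exact mem_bd.2 hq'
      · rw [card_pair hne]
        exact hdeg q
    have hU : q ∈ U2 α i := mem_U2.2 ⟨hq2, by rw [hbd, card_pair hne]⟩
    have h3 := hP3 q hU
    have hBB : BB i q = bd i p ∪ bd i p' := by
      unfold BB
      rw [hbd, biUnion_insert, singleton_biUnion]
    have hQ : ∀ t ∈ ({q} : Finset α), ds i t = 2 := by simpa using hq2
    have hA : ∀ t ∈ bd i q, ds i t = 1 := fun t ht => ds_of_mem_bd hg hq2 ht
    have hQA : ∀ t ∈ ({q} : Finset α), bd i t ⊆ bd i q := by simp
    have hTc : ({q} ∪ bd i q : Finset α).card = 3 := by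
      have := card_cfg hQ hA (Z := ∅) (by simp)
      rw [union_empty, card_singleton, card_empty, hbd, card_pair hne] at this
      rw [hbd]
      exact this
    have hTpos : ∀ t ∈ ({q} ∪ bd i q : Finset α), 0 < ε t := by
      intro t ht
      rw [mem_union, mem_singleton, hbd, mem_insert, mem_singleton] at ht
      rcases ht with rfl | rfl | rfl
      · exact hq0
      · exact hp.2
      · exact hp'.2
    -- the elements next to level `i` are free if level `i` is not excited and distance-two energies
    -- are at most one
    have hfree : (∀ y, corank y = i → ε y = 0) → (∀ t, ds i t = 2 → ε t ≤ 1) →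
        (∀ t, ds i t = 1 → 0 < ε t → t ∈ bd i q) → False := by
      intro h4 h5 h6
      have h7 : ({p, p'} : Finset α) ⊆ Fo i ε := by
        intro t ht
        have ht1 : ds i t = 1 ∧ 0 < ε t ∧ corank t ≠ i := by
          simp only [mem_insert, mem_singleton] at ht
          rcases ht with rfl | rfl
          · exact ⟨hp.1, hp.2, hpi⟩
          · exact ⟨hp'.1, hp'.2, hpi'⟩
        unfold Fo
        rw [mem_filter]
        refine ⟨mem_univ _, ht1.2.2, ?_, ?_⟩
        · rintro ⟨s, hs1, hs2⟩
          have := h5 s (by rw [fr_ds hg hs1, ht1.1])
          omega
        · rintro ⟨s, hs1, hs2⟩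
          have := h4 s (bd_lev hg ht1.1 (mem_bd.2 hs1))
          omega
      have h8 : Yd i ε ⊆ BB i q := by
        intro y hy
        have := Yd_subset hg hy
        rw [mem_biUnion] at this
        obtain ⟨s, hs1, hs2⟩ := this
        rw [mem_Ax] at hs1
        unfold BB
        rw [mem_biUnion]
        exact ⟨s, h6 s hs1.1 hs1.2, hs2⟩
      have h9 := card_le_card h7
      have h10 := card_le_card h8
      rw [card_pair hne] at h9
      omega
    rcases eq_ind_or hTpos (by rw [hTc]; omega) with he | ⟨t, he⟩
    · -- no further energy
      exfalso
      apply hfree
      · intro y hy
        rw [he]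
        apply ind_notMem
        intro h
        rw [mem_union, mem_singleton] at h
        rcases h with h | h
        · rw [h, ← ds_eq_zero] at hy
          omega
        · have := hA y h
          rw [ds_eq_zero.2 hy] at this
          omega
      · intro t _
        rw [he]
        unfold ind
        split_ifs <;> omega
      · intro t ht htpos
        rw [he, ind_pos, mem_union, mem_singleton] at htpos
        rcases htpos with h | h
        · rw [h] at ht
          omega
        · exact h
    · by_cases htq : t = q
      · -- energy two at `q`
        right; left
        rw [htq] at he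
        refine ⟨q, hU, ?_, by rw [he]; unfold cfE4; rw [union_empty]⟩
        have h4 : q ∈ Fo i ε := by
          unfold Fo
          rw [mem_filter]
          refine ⟨mem_univ _, ?_, ?_, ?_⟩
          · intro h
            rw [← ds_eq_zero] at h
            omega
          · rintro ⟨s, hs1, hs2⟩
            rw [he] at hs2
            have h5 := fr_ds hg hs1
            have h6 : s ∉ ({q} ∪ bd i q : Finset α) := by
              rw [mem_union, mem_singleton]
              rintro (h6 | h6)
              · rw [h6] at h5
                omega
              · have := hA s h6
                omega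
            have h7 : s ∉ ({q} : Finset α) := by
              rw [mem_singleton]
              intro h7
              rw [h7] at h5
              omega
            simp only [Pi.add_apply] at hs2
            rw [ind_notMem h6, ind_notMem h7] at hs2
            omega
          · rintro ⟨s, hs1, hs2⟩
            rw [he] at hs2
            have h5 := fr_ds hg hs1
            have h6 : s ∉ ({q} : Finset α) := by
              rw [mem_singleton]
              intro h7
              rw [h7] at h5
              omega
            simp only [Pi.add_apply] at hs2
            rw [ind_notMem h6, ind_mem (mem_singleton_self q),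
              ind_mem (by simp : q ∈ ({q} ∪ bd i q : Finset α))] at hs2
            unfold ind at hs2
            split_ifs at hs2 <;> omega
        have h8 : Yd i ε ⊆ BB i q := by
          intro y hy
          have := Yd_subset hg hy
          rw [mem_biUnion] at this
          obtain ⟨s, hs1, hs2⟩ := this
          rw [mem_Ax] at hs1
          unfold BB
          rw [mem_biUnion]
          refine ⟨s, ?_, hs2⟩
          have h9 := hs1.2
          rw [he] at h9
          simp only [Pi.add_apply] at h9
          have h10 : s ∉ ({q} : Finset α) := by
            rw [mem_singleton]
            intro h7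
            rw [h7] at hs1
            omega
          rw [ind_notMem h10, add_zero, ind_pos, mem_union, mem_singleton] at h9
          rcases h9 with h9 | h9
          · rw [h9] at hs1
            omega
          · exact h9
        have h9 := card_le_card h8
        have h10 := Finset.card_pos.2 ⟨q, h4⟩
        omega
      · by_cases hti : corank t = i
        · -- an excited element of level `i`
          right; right
          have htT : t ∉ ({q} ∪ bd i q : Finset α) := by
            rw [mem_union, mem_singleton]
            rintro (h | h)
            · exact htq h
            · have := hA t h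
              rw [ds_eq_zero.2 hti] at this
              omega
          have hZ : ∀ s ∈ ({t} : Finset α), corank s = i := by simpa using hti
          have he' : ε = ind ({q} ∪ bd i q ∪ {t}) := by
            rw [he]
            funext s
            simp only [Pi.add_apply]
            by_cases hst : s = t
            · rw [hst, ind_notMem htT, ind_mem (mem_singleton_self t), ind_mem (by simp)]
            · have h4 : s ∉ ({t} : Finset α) := by rwa [mem_singleton]
              rw [ind_notMem h4, add_zero]
              by_cases h5 : s ∈ ({q} ∪ bd i q : Finset α)
              · rw [ind_mem h5, ind_mem (mem_union_left _ h5)]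
              · rw [ind_notMem h5, ind_notMem (by rw [mem_union]; tauto)]
          have h1 := cfg_Fo hg hl hQ hA hZ hQA
          have h2 := cfg_Yd hg hQ hA hZ
          have h4 : (bd i q).biUnion (bd i) = BB i q := rfl
          rw [he', h1, h2, h4] at hloss
          have h5 : (BB i q \ {t}).card ≤ (BB i q).card := card_le_card sdiff_subset
          by_cases htB : t ∈ BB i q
          · have h6 : (BB i q \ {t}).card = (BB i q).card - 1 := by
              rw [card_sdiff_of_subset (by simpa using htB), card_singleton]
            have h7 : ((bd i q).filter fun p => Disjoint (bd i p) {t}).card = 0 := by omega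
            have h8 : (BB i q).card = 3 := by omega
            have h9 : t ∈ II i q := by
              rw [mem_II]
              intro s hs1
              by_contra h10
              have h11 : s ∈ (bd i q).filter fun p => Disjoint (bd i p) {t} := by
                rw [mem_filter, Finset.disjoint_singleton_right]
                exact ⟨hs1, h10⟩
              rw [card_eq_zero.1 h7] at h11
              simp at h11
            refine ⟨q, hU, h8, ⟨t, h9⟩, ?_⟩
            unfold cfF
            rw [he', (card_II hg hdeg hU h8 h9).1]
          · exfalso
            have h7 : ((bd i q).filter fun p => Disjoint (bd i p) {t}) = bd i q := by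
              apply Finset.filter_true_of_mem
              intro s hs1
              rw [Finset.disjoint_singleton_right]
              intro h8
              apply htB
              unfold BB
              rw [mem_biUnion]
              exact ⟨s, hs1, h8⟩
            rw [h7, (mem_U2.1 hU).2] at hloss
            omega
        · -- other elements
          exfalso
          have hval : ∀ s, ε s = ind ({q} ∪ bd i q) s + ind {t} s := by
            intro s
            rw [he]
            rfl
          have htq' : q ∉ ({t} : Finset α) := by
            rw [mem_singleton]
            exact fun h => htq h.symm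
          -- distance-two elements have energy at most one
          have h2 : ∀ s, ds i s = 2 → ε s ≤ 1 := by
            intro s hs1
            rw [hval]
            by_cases hsq : s = q
            · rw [hsq, ind_notMem htq']
              unfold ind
              split_ifs <;> omega
            · have : s ∉ ({q} ∪ bd i q : Finset α) := by
                rw [mem_union, mem_singleton]
                rintro (h | h)
                · exact hsq h
                · have := hA s h
                  omega
              rw [ind_notMem this]
              unfold ind
              split_ifs <;> omega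
          apply hfree
          · intro y hy
            rw [hval, ind_notMem, ind_notMem]
            · rw [mem_singleton]
              rintro rfl
              exact hti hy
            · rw [mem_union, mem_singleton]
              rintro (h | h)
              · rw [h, ← ds_eq_zero] at hy
                omega
              · have := hA y h
                rw [ds_eq_zero.2 hy] at this
                omega
          · exact h2
          · intro s hs1 hs2
            have h3 : att i ε s :=
              (m.att_of_pos hg hl hF hε hred hs hs1 hs2).resolve_right (by simp)
            by_contra hns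
            -- then `s = t`, and its far neighbour is `q`
            have h4 : s = t := by
              rw [hval] at hs2
              have : s ∉ ({q} ∪ bd i q : Finset α) := by
                rw [mem_union, mem_singleton]
                rintro (h | h)
                · rw [h] at hs1
                  omega
                · exact hns h
              rw [ind_notMem this, zero_add, ind_pos, mem_singleton] at hs2
              exact hs2
            obtain ⟨r, hr1, hr2, hr3, _⟩ := att_pos hg hl hε hs1 h3
            have h5 : r = q := by
              rw [hval] at hr2
              have h6 : r ∉ ({t} : Finset α) := by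
                rw [mem_singleton, ← h4]
                intro h
                rw [h] at hr3
                omega
              rw [ind_notMem h6, add_zero, ind_pos, mem_union, mem_singleton] at hr2
              rcases hr2 with h | h
              · exact h
              · have := hA r h
                omega
            rw [h5] at hr1
            exact hns (mem_bd.2 hr1)
  · -- no common far neighbour
    left
    push Not at hcom
    have hqp' : ¬ fr i p' q := fun h => by
      have := hcom q hq h
      omega
    have hqp : ¬ fr i p q' := fun h => by
      have := hcom q' h hq'
      omega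
    have hqq : q ≠ q' := by
      rintro rfl
      exact hqp hq
    have hTc : ({q, q', p, p'} : Finset α).card = 4 := by
      have n1 : q ≠ p := ds_ne (i := i) (by omega)
      have n2 : q ≠ p' := ds_ne (i := i) (by omega)
      have n3 : q' ≠ p := ds_ne (i := i) (by omega)
      have n4 : q' ≠ p' := ds_ne (i := i) (by omega)
      rw [card_insert_of_notMem, card_insert_of_notMem, card_insert_of_notMem, card_singleton]
      · simpa using hne
      · simp [n3, n4]
      · simp [hqq, n1, n2]
    have he : ε = ind {q, q', p, p'} := by
      apply eq_ind
      · intro t ht
        simp only [mem_insert, mem_singleton] at ht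
        rcases ht with rfl | rfl | rfl | rfl
        · exact hq1
        · exact hq1'
        · exact hp.2
        · exact hp'.2
      · omega
    have key : ∀ r : α, ds i r = 2 → 0 < ε r → ∀ t ∈ bd i r, t = p ∨ t = p' := by
      intro r hr hr0 t ht
      have h1 := ds_of_mem_bd hg hr ht
      have h2 : 0 < ε t := by
        apply closure hg hl hε (mem_bd.1 ht) _ hr0
        intro h
        rw [ds_eq_zero.2 h] at h1
        omega
      rw [he, ind_pos] at h2
      simp only [mem_insert, mem_singleton] at h2
      rcases h2 with h2 | h2 | h2 | h2
      · exact absurd h2 (ds_ne (i := i) (by omega))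
      · exact absurd h2 (ds_ne (i := i) (by omega))
      · exact Or.inl h2
      · exact Or.inr h2
    have hbd : bd i q = {p} := by
      ext t
      rw [mem_singleton]
      constructor
      · intro ht
        rcases key q hq2 hq1 t ht with h | h
        · exact h
        · rw [h] at ht
          exact absurd (mem_bd.1 ht) hqp'
      · rintro rfl
        exact mem_bd.2 hq
    have hbd' : bd i q' = {p'} := by
      ext t
      rw [mem_singleton]
      constructor
      · intro ht
        rcases key q' hq2' hq1' t ht with h | h
        · rw [h] at ht
          exact absurd (mem_bd.1 ht) hqp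
        · exact h
      · rintro rfl
        exact mem_bd.2 hq'
    have hT : ε = cfD i q q' := by
      rw [he]
      unfold cfD
      congr 1
      rw [hbd, hbd', union_empty]
      ext t
      simp only [mem_insert, mem_union, mem_singleton]
      tauto
    have hQ : ∀ t ∈ ({q, q'} : Finset α), ds i t = 2 := by
      intro t ht
      rw [mem_insert, mem_singleton] at ht
      rcases ht with rfl | rfl
      · exact hq2
      · exact hq2'
    have hA : ∀ t ∈ bd i q ∪ bd i q', ds i t = 1 := by
      intro t ht
      rw [hbd, hbd', mem_union, mem_singleton, mem_singleton] at ht
      rcases ht with rfl | rfl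
      · exact hp.1
      · exact hp'.1
    have hZ : ∀ t ∈ (∅ : Finset α), corank t = i := by simp
    have hQA : ∀ t ∈ ({q, q'} : Finset α), bd i t ⊆ bd i q ∪ bd i q' := by
      intro t ht
      rw [mem_insert, mem_singleton] at ht
      rcases ht with rfl | rfl
      · exact subset_union_left
      · exact subset_union_right
    have h1 := cfg_Fo hg hl hQ hA hZ hQA
    have h2 := cfg_Yd hg hQ hA hZ
    rw [hT] at hloss
    unfold cfD at hloss
    rw [h1, h2, sdiff_empty] at hloss
    have h3 : ((bd i q ∪ bd i q').filter fun p => Disjoint (bd i p) ∅) = bd i q ∪ bd i q' :=
      Finset.filter_true_of_mem fun p _ => Finset.disjoint_empty_right _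
    have h4 : (bd i q ∪ bd i q').card = 2 := by
      have e1 : (bd i q ∪ bd i q') = {p, p'} := by rw [hbd, hbd']; rfl
      rw [e1, card_pair hne]
    have h5 : (bd i q ∪ bd i q').biUnion (bd i) = BB i q ∪ BB i q' := by
      unfold BB
      rw [union_biUnion]
    rw [h3, h4, h5] at hloss
    have h6 : (BB i q).card ≤ 2 := by
      unfold BB
      rw [hbd, singleton_biUnion]
      exact hdeg p
    have h7 : (BB i q').card ≤ 2 := by
      unfold BB
      rw [hbd', singleton_biUnion]
      exact hdeg p'
    have h8 := card_union_le (BB i q) (BB i q')
    refine ⟨q, q', ⟨⟨mem_U1.2 ⟨hq2, by rw [hbd, card_singleton]⟩, by omega⟩,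
      ⟨mem_U1.2 ⟨hq2', by rw [hbd', card_singleton]⟩, by omega⟩, ?_⟩, hT⟩
    have h9 : (BB i q ∪ BB i q').card = (BB i q).card + (BB i q').card := by omega
    exact Finset.card_union_eq_card_add_card.1 h9

end Pool.Gauss
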