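import Pool.Agent.Work.MP_065141_co.N3

/-!
# Classification of the configurations for D4 and D5
-/

set_option autoImplicit false
set_option linter.unusedSectionVars false
set_option linter.unusedVariables false
open scoped Classical
open Finset Polynomial

namespace Pool.Gauss

variable {α : Type} [Fintype α] [PartialOrder α] {i : ℕ}

/-- an excited element next to level `i` is attached or exceptional, if the total energy is at
most five and some element of level `i` is dominated -/
lemma Mat.att_of_pos5 (hg : Grad α) (hl : HasLower α i) (m : Mat α i) {L : Finset α}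
    (hF : m.FullX L) {ε : α → ℕ} (hε : GoodE i ε) (hred : m.Red ε) (hs : ∑ p, ε p ≤ 5)
    (hY : (Yd i ε).Nonempty) {p : α}
    (hp : ds i p = 1) (hpos : 0 < ε p) : att i ε p ∨ p ∈ L := by
  rcases hF p hp with h | h | h | ⟨e, he, h⟩
  · exact Or.inr h
  · left
    by_contra hatt
    have : p ∈ m.rst ε := by
      unfold Mat.rst
      rw [mem_union]
      right
      unfold sgl
      rw [mem_filter]
      exact ⟨mem_univ _, Or.inl h, hatt⟩
    have := hred p this
    omega
  · left
    by_contra hatt
    have : p ∈ m.rst ε := by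
      unfold Mat.rst
      rw [mem_union]
      right
      unfold sgl
      rw [mem_filter]
      exact ⟨mem_univ _, Or.inr h, hatt⟩
    have := hred p this
    omega
  · left
    by_contra hatt
    -- both partners are excited
    have hboth : 0 < ε e.1 ∧ 0 < ε e.2 ∧ ∃ q, ds i q = 2 ∧ 0 < ε q := by
      have d1 : ds i e.1 = 1 := by
        have := m.cz e he
        unfold ds
        omega
      have d2 : ds i e.2 = 1 := by
        have := m.cx e he
        unfold ds
        omega
      have key : ∀ a : α, ds i a = 1 → att i ε a → 0 < ε a ∧ ∃ q, ds i q = 2 ∧ 0 < ε q := by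
        intro a ha h1
        rw [att_iff hg ha] at h1
        obtain ⟨q, hq, hq'⟩ := h1
        refine ⟨closure hg hl hε hq ?_ hq', q, ?_, hq'⟩
        · intro h2
          rw [ds_eq_zero.2 h2] at ha
          omega
        · rw [fr_ds hg hq, ha]
      by_cases h1 : att i ε e.1 <;> by_cases h2 : att i ε e.2
      · exact ⟨(key _ d1 h1).1, (key _ d2 h2).1, (key _ d1 h1).2⟩
      · rcases h with h | h
        · rw [h] at hatt
          exact absurd h1 hatt
        · rw [h] at hpos
          exact ⟨(key _ d1 h1).1, hpos, (key _ d1 h1).2⟩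
      · rcases h with h | h
        · rw [h] at hpos
          exact ⟨hpos, (key _ d2 h2).1, (key _ d2 h2).2⟩
        · rw [h] at hatt
          exact absurd h2 hatt
      · exfalso
        have : p ∈ m.rst ε := by
          unfold Mat.rst
          rw [mem_union, mem_union]
          left
          rcases h with h | h
          · left
            rw [mem_image]
            exact ⟨e, mem_filter.2 ⟨he, h1, h2⟩, h.symm⟩
          · right
            rw [mem_image]
            exact ⟨e, mem_filter.2 ⟨he, h1, h2⟩, h.symm⟩
        have := hred p this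
        omega
    obtain ⟨h1, h2, q, hq, h3⟩ := hboth
    obtain ⟨y, y', hne, hz, hx⟩ := m.bd_matched hg he
    have c1 := m.cz e he
    have c2 := m.cx e he
    have hy : ∀ t, t ∈ ({y, y'} : Finset α) → corank t = i ∧ 0 < ε t := by
      intro t ht
      have h4 : t ∈ bd i e.1 := by rw [hz]; exact ht
      have h5 : t ∈ bd i e.2 := by rw [hx]; exact ht
      have h6 : corank t = i := bd_lev hg (by unfold ds; omega) h4
      refine ⟨h6, ?_⟩
      by_contra h7
      have := same_side hg hε h6 (mem_bd.1 h4) (mem_bd.1 h5) (by omega) (by omega)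
      omega
    have hy1 := hy y (by simp)
    have hy2 := hy y' (by simp)
    have hcard : ({e.1, e.2, q, y, y'} : Finset α).card = 5 := by
      have n1 : e.1 ≠ e.2 := by intro h; rw [h] at c1; omega
      have n2 : e.1 ≠ q := by
        intro h
        rw [← h] at hq
        unfold ds at hq
        omega
      have n3 : e.2 ≠ q := by
        intro h
        rw [← h] at hq
        unfold ds at hq
        omega
      have n4 : e.1 ≠ y := by intro h; rw [h] at c1; omega
      have n5 : e.1 ≠ y' := by intro h; rw [h] at c1; omega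
      have n6 : e.2 ≠ y := by intro h; rw [h] at c2; omega
      have n7 : e.2 ≠ y' := by intro h; rw [h] at c2; omega
      have n8 : q ≠ y := by
        intro h
        rw [h] at hq
        unfold ds at hq
        omega
      have n9 : q ≠ y' := by
        intro h
        rw [h] at hq
        unfold ds at hq
        omega
      rw [card_insert_of_notMem, card_insert_of_notMem, card_insert_of_notMem,
        card_insert_of_notMem, card_singleton]
      · simpa using hne
      · simp [n8, n9]
      · simp [n3, n6, n7]
      · simp [n1, n2, n4, n5]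
    have hind : ε = ind ({e.1, e.2, q, y, y'} : Finset α) := by
      apply eq_ind
      · intro t ht
        simp only [mem_insert, mem_singleton] at ht
        rcases ht with rfl | rfl | rfl | rfl | rfl
        · exact h1
        · exact h2
        · exact h3
        · exact hy1.2
        · exact hy2.2
      · omega
    obtain ⟨y0, hy0⟩ := hY
    rw [mem_Yd] at hy0
    obtain ⟨h4, p', h5, h6⟩ := hy0
    have h7 : ds i p' = 1 := by rw [fr_ds hg h5, ds_eq_zero.2 h4]
    have h8 : 0 < ε p' := by omega
    have h9 : p' = e.1 ∨ p' = e.2 := by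
      rw [hind, ind_pos] at h8
      simp only [mem_insert, mem_singleton] at h8
      have d1 := ds_eq_zero.2 hy1.1
      have d2 := ds_eq_zero.2 hy2.1
      rcases h8 with h8 | h8 | h8 | h8 | h8
      · exact Or.inl h8
      · exact Or.inr h8
      · rw [h8] at h7; omega
      · rw [h8] at h7; omega
      · rw [h8] at h7; omega
    have h10 : y0 ∈ ({y, y'} : Finset α) := by
      rcases h9 with h9 | h9
      · rw [← hz, ← h9]; exact mem_bd.2 h5
      · rw [← hx, ← h9]; exact mem_bd.2 h5
    have h11 : 0 < ε y0 := (hy y0 h10).2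
    have h12 : ε p' ≤ 1 := by
      rw [hind]
      unfold ind
      split_ifs <;> omega
    omega

lemma mem_FoE {ε : α → ℕ} {p : α} : p ∈ Fo i ε ↔ corank p ≠ i ∧ ¬ fd i ε p ∧ ¬ nd i ε p := by
  unfold Fo
  rw [mem_filter]
  simp

/-- the excited elements next to level `i` which are dominated from far -/
noncomputable def N1e (i : ℕ) (ε : α → ℕ) : Finset α := (Ax i ε).filter fun p => fd i ε p

/-- the basic inequality -/
lemma basic_ineq (hg : Grad α) (hdeg : ∀ p : α, (bd i p).card ≤ 2) (ε : α → ℕ) :
    (Yd i ε).card ≤ (Ax i ε).card + ((Ax i ε).filter fun p => p ∈ Fo i ε).card +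
      (N1e i ε).card := by
  have h1 : Yd i ε ⊆ (Ax i ε).biUnion fun p => (bd i p).filter fun y => ε y < ε p := by
    intro y hy
    rw [mem_Yd] at hy
    obtain ⟨h1, p, h2, h3⟩ := hy
    rw [mem_biUnion]
    refine ⟨p, ?_, mem_filter.2 ⟨mem_bd.2 h2, h3⟩⟩
    rw [mem_Ax, fr_ds hg h2, ds_eq_zero.2 h1]
    exact ⟨rfl, by omega⟩
  refine (card_le_card h1).trans (card_biUnion_le.trans ?_)
  unfold N1e
  rw [Finset.card_filter, Finset.card_filter, Finset.card_eq_sum_ones, ← Finset.sum_add_distrib,
    ← Finset.sum_add_distrib]
  apply Finset.sum_le_sum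
  intro p hp
  rw [mem_Ax] at hp
  have hpi : corank p ≠ i := by
    intro h
    rw [ds_eq_zero.2 h] at hp
    omega
  have h2 : ((bd i p).filter fun y => ε y < ε p).card ≤ (bd i p).card :=
    card_le_card (filter_subset _ _)
  have h3 := hdeg p
  by_cases hnd : nd i ε p
  · have h4 : ((bd i p).filter fun y => ε y < ε p).card < (bd i p).card := by
      apply card_lt_card
      rw [Finset.ssubset_iff_of_subset (filter_subset _ _)]
      obtain ⟨y, hy, h5⟩ := hnd
      refine ⟨y, mem_bd.2 hy, ?_⟩
      rw [mem_filter]
      omega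
    split_ifs <;> omega
  · by_cases hfd : fd i ε p
    · rw [if_pos hfd]
      split_ifs <;> omega
    · rw [if_pos (mem_FoE.2 ⟨hpi, hfd, hnd⟩)]
      split_ifs <;> omega

/-- total energy of the excited elements next to level `i` -/
lemma sum_Ax_ge (ε : α → ℕ) : (Ax i ε).card ≤ ∑ p ∈ Ax i ε, ε p := by
  rw [Finset.card_eq_sum_ones]
  exact Finset.sum_le_sum fun p hp => (mem_Ax.1 hp).2

lemma sum_Ax_add (ε : α → ℕ) {T : Finset α} (hT : Disjoint (Ax i ε) T) :
    ∑ p ∈ Ax i ε, ε p + ∑ p ∈ T, ε p ≤ ∑ p, ε p := by
  rw [← Finset.sum_union hT]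
  exact sum_ge _ _

/-- an element at distance two with doubled energy -/
noncomputable def cfDA (q : α) (A : Finset α) : α → ℕ :=
  fun p => if p = q then 2 else if p ∈ A then 1 else 0

/-- the classification for D4 (`s = 3`) and D5 (`s = 4`) -/
theorem class45 (hg : Grad α) (hl : HasLower α i) (m : Mat α i) {z x k : α}
    (hF : m.FullX {z, x}) (hL : m.Lone {z, x}) (hz : corank z < i) (hx : i < corank x)
    (hk : bd i z ∩ bd i x = {k}) (hdeg : ∀ p : α, (bd i p).card ≤ 2) {s : ℕ} (hs3 : 3 ≤ s)
    (hs4 : s ≤ 4) {n : ℕ} (hn : (lev α i).card = n) {ε : α → ℕ} (hε : GoodE i ε)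
    (hred : m.Red ε) (hs : ∑ p, ε p ≤ s + 1) (hpk : (pkF i ε).card + s ≤ n) :
    ∃ q ∈ U2 α i, (BB i q).card = 4 ∧ ((s = 3 ∧ ε = cfDA q (bd i q)) ∨
      ∃ l ∈ ({z, x} : Finset α), Disjoint (BB i q) (bd i l) ∧
        ((s = 3 ∧ ε = ind ({q} ∪ insert l (bd i q) ∪ ∅)) ∨
          (s = 4 ∧ ε = cfDA q (insert l (bd i q))))) := by
  have hloss := loss_s hg hl hε hn hpk
  have hbasic := basic_ineq hg hdeg ε
  have hzL : z ∈ ({z, x} : Finset α) := by simp
  have hxL : x ∈ ({z, x} : Finset α) := by simp
  obtain ⟨hzd, hz2, _⟩ := hL z hzL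
  obtain ⟨hxd, hx2, _⟩ := hL x hxL
  have hk' : k ∈ bd i z ∩ bd i x := by rw [hk]; exact mem_singleton_self k
  rw [mem_inter] at hk'
  have hki : corank k = i := bd_lev hg hzd hk'.1
  have hY : (Yd i ε).Nonempty := by
    rw [← Finset.card_pos]
    omega
  have hAF : ((Ax i ε).filter fun p => p ∈ Fo i ε).card ≤ (Fo i ε).card :=
    card_le_card fun p hp => (mem_filter.1 hp).2
  have hY2 : (Yd i ε).card ≤ (Ax i ε).card * 2 :=
    (card_le_card (Yd_subset hg)).trans
      (Finset.card_biUnion_le_card_mul _ _ 2 fun p _ => hdeg p)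
  have hatt : ∀ p ∈ Ax i ε, att i ε p ∨ p ∈ ({z, x} : Finset α) := by
    intro p hp
    rw [mem_Ax] at hp
    exact m.att_of_pos5 hg hl hF hε hred (by omega) hY hp.1 hp.2
  -- two different non-attached excited elements force an excited element of level `i`
  have hpair : ∀ p ∈ Ax i ε, ∀ p' ∈ Ax i ε, p ≠ p' → ¬ att i ε p → ¬ att i ε p' → 0 < ε k := by
    intro p hp p' hp' hne h1 h2
    have h3 := (hatt p hp).resolve_left h1
    have h4 := (hatt p' hp').resolve_left h2
    have h5 : z ∈ Ax i ε ∧ x ∈ Ax i ε := by
      simp only [mem_insert, mem_singleton] at h3 h4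
      rcases h3 with rfl | rfl <;> rcases h4 with rfl | rfl
      · exact absurd rfl hne
      · exact ⟨hp, hp'⟩
      · exact ⟨hp', hp⟩
      · exact absurd rfl hne
    rw [mem_Ax, mem_Ax] at h5
    by_contra h6
    have := same_side hg hε hki (mem_bd.1 hk'.1) (mem_bd.1 hk'.2) (by omega) (by omega)
    omega
  have hAsum := sum_Ax_ge (i := i) ε
  have dAx : ∀ q : α, ds i q = 2 → q ∉ Ax i ε := by
    intro q hq h
    rw [mem_Ax] at h
    omega
  by_cases hN : (N1e i ε).card = 0
  · -- nothing is dominated from far
    have ha : s ≤ (Ax i ε).card := by omega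
    -- some element is attached
    have hex : ∃ p ∈ Ax i ε, att i ε p := by
      by_contra hcon
      push Not at hcon
      have h1 : Ax i ε ⊆ {z, x} := fun p hp => (hatt p hp).resolve_left (hcon p hp)
      have h2 := card_le_card h1
      have h3 : ({z, x} : Finset α).card ≤ 2 := card_le_two
      omega
    obtain ⟨p, hp, hpatt⟩ := hex
    obtain ⟨q, hq, hqpos, hq2, _⟩ := att_pos hg hl hε (mem_Ax.1 hp).1 hpatt
    have hTc : (insert q (Ax i ε)).card = (Ax i ε).card + 1 := card_insert_of_notMem (dAx q hq2)
    have hTpos : ∀ t ∈ insert q (Ax i ε), 0 < ε t := by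
      intro t ht
      rw [mem_insert] at ht
      rcases ht with rfl | ht
      · exact hqpos
      · exact (mem_Ax.1 ht).2
    have hind : ε = ind (insert q (Ax i ε)) := eq_ind hTpos (by omega)
    have hcs : (Ax i ε).card = s := by
      have := card_le_sum hTpos
      omega
    have hk0 : ¬ 0 < ε k := by
      intro h
      rw [hind, ind_pos, mem_insert] at h
      have hd0 := ds_eq_zero.2 hki
      rcases h with h | h
      · rw [← h] at hq2; omega
      · rw [mem_Ax] at h; omega
    have hbdA : bd i q ⊆ Ax i ε := by
      intro t ht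
      rw [mem_Ax]
      have h1 := ds_of_mem_bd hg hq2 ht
      refine ⟨h1, closure hg hl hε (mem_bd.1 ht) ?_ hqpos⟩
      intro h2
      rw [ds_eq_zero.2 h2] at h1
      omega
    -- attached means below `q`
    have hattq : ∀ t ∈ Ax i ε, att i ε t ↔ t ∈ bd i q := by
      intro t ht
      constructor
      · intro h
        obtain ⟨q', h1, h2, h3, _⟩ := att_pos hg hl hε (mem_Ax.1 ht).1 h
        rw [hind, ind_pos, mem_insert] at h2
        rcases h2 with h2 | h2
        · rw [← h2]
          exact mem_bd.2 h1
        · exact absurd h2 (dAx q' h3)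
      · intro h
        exact att_of_fr hg (mem_Ax.1 ht).1 (mem_bd.1 h) hqpos
    have hdiff : (Ax i ε \ bd i q).card ≤ 1 := by
      rw [Finset.card_le_one]
      intro a ha' b hb'
      rw [mem_sdiff] at ha' hb'
      by_contra hab
      exact hk0 (hpair a ha'.1 b hb'.1 hab (fun h => ha'.2 ((hattq a ha'.1).1 h))
        (fun h => hb'.2 ((hattq b hb'.1).1 h)))
    have hbd2 := hdeg q
    have hsplit := Finset.card_sdiff_add_card_inter (Ax i ε) (bd i q)
    rw [inter_eq_right.2 hbdA] at hsplit
    have hs3' : s = 3 := by omega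
    have hbdc : (bd i q).card = 2 := by omega
    have hone : (Ax i ε \ bd i q).card = 1 := by omega
    obtain ⟨l, hl1⟩ := Finset.card_eq_one.1 hone
    have hlm : l ∈ Ax i ε \ bd i q := by rw [hl1]; exact mem_singleton_self l
    rw [mem_sdiff] at hlm
    have hlL : l ∈ ({z, x} : Finset α) :=
      (hatt l hlm.1).resolve_left fun h => hlm.2 ((hattq l hlm.1).1 h)
    have hAx : Ax i ε = insert l (bd i q) := by
      rw [← Finset.sdiff_union_of_subset hbdA, hl1, insert_eq]
    have hT : ε = ind ({q} ∪ insert l (bd i q) ∪ ∅) := by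
      rw [union_empty, ← insert_eq, ← hAx]
      exact hind
    have hU : q ∈ U2 α i := mem_U2.2 ⟨hq2, hbdc⟩
    have hQ : ∀ t ∈ ({q} : Finset α), ds i t = 2 := by simpa using hq2
    have hld : ds i l = 1 := (mem_Ax.1 hlm.1).1
    have hA : ∀ t ∈ insert l (bd i q), ds i t = 1 := by
      intro t ht
      rw [mem_insert] at ht
      rcases ht with rfl | ht
      · exact hld
      · exact ds_of_mem_bd hg hq2 ht
    have hZ : ∀ t ∈ (∅ : Finset α), corank t = i := by simp
    have hQA : ∀ t ∈ ({q} : Finset α), bd i t ⊆ insert l (bd i q) := by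
      intro t ht
      rw [mem_singleton] at ht
      rw [ht]
      exact subset_insert _ _
    have h1 := cfg_Fo hg hl hQ hA hZ hQA
    have h2 := cfg_Yd hg hQ hA hZ
    rw [hT, h1, h2, sdiff_empty] at hloss
    have h3 : ((insert l (bd i q)).filter fun p => Disjoint (bd i p) ∅) = insert l (bd i q) :=
      Finset.filter_true_of_mem fun p _ => Finset.disjoint_empty_right _
    rw [h3, card_insert_of_notMem hlm.2, hbdc, biUnion_insert] at hloss
    have h5 : (bd i q).biUnion (bd i) = BB i q := rfl
    rw [h5] at hloss
    have h6 := card_union_le (bd i l) (BB i q)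
    have h7 := hdeg l
    have h8 := card_BB_le hg hdeg hU
    refine ⟨q, hU, by omega, Or.inr ⟨l, hlL, ?_, Or.inl ⟨hs3', hT⟩⟩⟩
    have h9 : (bd i l ∪ BB i q).card = (bd i l).card + (BB i q).card := by omega
    exact (Finset.card_union_eq_card_add_card.1 h9).symm
  · -- some element is dominated from far
    have hN' : (N1e i ε).Nonempty := by
      rw [← Finset.card_pos]
      omega
    obtain ⟨p0, hp0⟩ := hN'
    unfold N1e at hp0
    rw [mem_filter] at hp0
    obtain ⟨hp0A, q, hq, hqgt⟩ := hp0
    have hp0A' := mem_Ax.1 hp0A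
    have hq2 : ds i q = 2 := by rw [fr_ds hg hq, hp0A'.1]
    have hq2' : 2 ≤ ε q := by omega
    have hqpos : 0 < ε q := by omega
    have ha2 : 2 ≤ (Ax i ε).card := by omega
    have hE1 : ∑ p ∈ Ax i ε, ε p + ε q ≤ ∑ p, ε p := by
      have := sum_Ax_add (i := i) ε (T := {q}) (by
        rw [Finset.disjoint_singleton_right]
        exact dAx q hq2)
      rwa [Finset.sum_singleton] at this
    -- everything is dominated by `q`
    have hdom : ∀ p ∈ N1e i ε, p ∈ bd i q ∧ ε p < ε q := by
      intro p hp
      unfold N1e at hp
      rw [mem_filter] at hp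
      obtain ⟨hpA, q', hq', hgt⟩ := hp
      have hpA' := mem_Ax.1 hpA
      have hq2'' : ds i q' = 2 := by rw [fr_ds hg hq', hpA'.1]
      by_cases hqq : q' = q
      · rw [hqq] at hq' hgt
        exact ⟨mem_bd.2 hq', hgt⟩
      · exfalso
        have := sum_Ax_add (i := i) ε (T := {q, q'}) (by
          rw [Finset.disjoint_left]
          intro t ht ht'
          simp only [mem_insert, mem_singleton] at ht'
          rcases ht' with rfl | rfl
          · exact dAx _ hq2 ht
          · exact dAx _ hq2'' ht)
        rw [Finset.sum_pair (Ne.symm hqq)] at this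
        omega
    have hN1s : N1e i ε ⊆ bd i q := fun p hp => (hdom p hp).1
    have hbd2 := hdeg q
    have hN1c := card_le_card hN1s
    have hbdA : bd i q ⊆ Ax i ε := by
      intro t ht
      rw [mem_Ax]
      have h1 := ds_of_mem_bd hg hq2 ht
      refine ⟨h1, closure hg hl hε (mem_bd.1 ht) ?_ hqpos⟩
      intro h2
      rw [ds_eq_zero.2 h2] at h1
      omega
    have hqi : corank q ≠ i := by
      intro h
      rw [ds_eq_zero.2 h] at hq2
      omega
    have hqF : q ∈ Fo i ε := by
      rw [mem_FoE]
      refine ⟨hqi, ?_, ?_⟩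
      · rintro ⟨r, hr, hr'⟩
        have h1 : ds i r = 3 := by rw [fr_ds hg hr, hq2]
        have := sum_Ax_add (i := i) ε (T := {q, r}) (by
          rw [Finset.disjoint_left]
          intro t ht ht'
          simp only [mem_insert, mem_singleton] at ht'
          rcases ht' with rfl | rfl
          · exact dAx _ hq2 ht
          · rw [mem_Ax] at ht
            omega)
        rw [Finset.sum_pair (ds_ne (i := i) (by omega))] at this
        omega
      · rintro ⟨t, ht, ht'⟩
        have htb : t ∈ bd i q := mem_bd.2 ht
        have htA := hbdA htb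
        have htN : t ∉ N1e i ε := by
          intro h
          have := (hdom t h).2
          omega
        have h1 : (N1e i ε).card < (bd i q).card := by
          apply card_lt_card
          rw [Finset.ssubset_iff_of_subset hN1s]
          exact ⟨t, htb, htN⟩
        have h2 : (Ax i ε).card + 1 ≤ ∑ p ∈ Ax i ε, ε p := by
          rw [← Finset.add_sum_erase _ _ htA]
          have h3 : ((Ax i ε).erase t).card ≤ ∑ p ∈ (Ax i ε).erase t, ε p := by
            rw [Finset.card_eq_sum_ones]
            exact Finset.sum_le_sum fun p hp => (mem_Ax.1 (mem_of_mem_erase hp)).2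
          rw [card_erase_of_mem htA] at h3
          omega
        omega
    have hAF1 : ((Ax i ε).filter fun p => p ∈ Fo i ε).card + 1 ≤ (Fo i ε).card := by
      have h1 : insert q ((Ax i ε).filter fun p => p ∈ Fo i ε) ⊆ Fo i ε := by
        intro t ht
        rw [mem_insert, mem_filter] at ht
        rcases ht with rfl | ht
        · exact hqF
        · exact ht.2
      have h2 := card_le_card h1
      rwa [card_insert_of_notMem (by
        rw [mem_filter]
        exact fun h => dAx q hq2 h.1)] at h2
    have hac : (Ax i ε).card + 1 = s := by omega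
    have hN2 : (N1e i ε).card = 2 := by omega
    have hbdc : (bd i q).card = 2 := by omega
    have hNb : N1e i ε = bd i q := Finset.eq_of_subset_of_card_le hN1s (by omega)
    have hTc : (insert q (Ax i ε)).card = (Ax i ε).card + 1 := card_insert_of_notMem (dAx q hq2)
    have hTpos : ∀ t ∈ insert q (Ax i ε), 0 < ε t := by
      intro t ht
      rw [mem_insert] at ht
      rcases ht with rfl | ht
      · exact hqpos
      · exact (mem_Ax.1 ht).2
    have hind : ε = ind (insert q (Ax i ε)) + ind {q} := by
      rcases eq_ind_or hTpos (by omega) with h | ⟨t, h⟩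
      · exfalso
        have h1 : ε q ≤ 1 := by
          rw [h]
          unfold ind
          split_ifs <;> omega
        omega
      · have h1 : t = q := by
          by_contra h2
          have h3 : ε q ≤ 1 := by
            rw [h]
            simp only [Pi.add_apply]
            rw [ind_notMem (T := {t}) (by rw [mem_singleton]; exact fun h' => h2 h'.symm)]
            unfold ind
            split_ifs <;> omega
          omega
        rw [h1] at h
        exact h
    have hcfD : ε = cfDA q (Ax i ε) := by
      funext p
      rw [hind]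
      unfold cfDA
      simp only [Pi.add_apply]
      by_cases h1 : p = q
      · rw [if_pos h1, ind_mem (by rw [h1]; exact mem_insert_self _ _),
          ind_mem (by rw [h1]; exact mem_singleton_self _)]
      · rw [if_neg h1, ind_notMem (T := {q}) (by rwa [mem_singleton])]
        rw [← hind]
        by_cases h2 : p ∈ Ax i ε
        · rw [if_pos h2, ind_mem (mem_insert_of_mem h2)]
        · rw [if_neg h2, ind_notMem (by
            rw [mem_insert]
            rintro (h3 | h3)
            · exact h1 h3
            · exact h2 h3)]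
    have hval : ∀ p, p ≠ q → p ∉ Ax i ε → ε p = 0 := by
      intro p h1 h2
      have := congrFun hcfD p
      unfold cfDA at this
      rwa [if_neg h1, if_neg h2] at this
    have hU : q ∈ U2 α i := mem_U2.2 ⟨hq2, hbdc⟩
    have h8 := card_BB_le hg hdeg hU
    have hFpos : 1 ≤ (Fo i ε).card := card_pos.2 ⟨q, hqF⟩
    have hYs : (Yd i ε).card ≤ ((Ax i ε).biUnion (bd i)).card := card_le_card (Yd_subset hg)
    rcases (show s = 3 ∨ s = 4 by omega) with hs' | hs'
    · -- `s = 3`
      have hAb : Ax i ε = bd i q := (Finset.eq_of_subset_of_card_le hbdA (by omega)).symm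
      rw [hAb] at hYs hcfD
      have h5 : (bd i q).biUnion (bd i) = BB i q := rfl
      rw [h5] at hYs
      exact ⟨q, hU, by omega, Or.inl ⟨hs', hcfD⟩⟩
    · -- `s = 4`
      have hsplit := Finset.card_sdiff_add_card_inter (Ax i ε) (bd i q)
      rw [inter_eq_right.2 hbdA] at hsplit
      have hone : (Ax i ε \ bd i q).card = 1 := by omega
      obtain ⟨l, hl1⟩ := Finset.card_eq_one.1 hone
      have hlm : l ∈ Ax i ε \ bd i q := by rw [hl1]; exact mem_singleton_self l
      rw [mem_sdiff] at hlm
      have hlA' := mem_Ax.1 hlm.1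
      have hlatt : ¬ att i ε l := by
        intro h
        obtain ⟨q', h1, h2, h3, _⟩ := att_pos hg hl hε hlA'.1 h
        by_cases hqq : q' = q
        · rw [hqq] at h1
          exact hlm.2 (mem_bd.2 h1)
        · rw [hval q' hqq (dAx q' h3)] at h2
          omega
      have hlL : l ∈ ({z, x} : Finset α) := (hatt l hlm.1).resolve_left hlatt
      have hlF : l ∈ Fo i ε := by
        rw [mem_FoE]
        refine ⟨?_, ?_, ?_⟩
        · intro h
          rw [ds_eq_zero.2 h] at hlA'
          omega
        · rintro ⟨r, hr, hr'⟩
          exact hlatt (att_of_fr hg hlA'.1 hr (by omega))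
        · rintro ⟨t, ht, ht'⟩
          have h1 : ds i t = 0 := by
            have := fr_ds hg ht
            omega
          rw [hval t (ds_ne (i := i) (by omega)) (by
            rw [mem_Ax]
            omega)] at ht'
          omega
      have hF2 : 2 ≤ (Fo i ε).card := by
        have h1 : ({q, l} : Finset α) ⊆ Fo i ε := by
          intro t ht
          simp only [mem_insert, mem_singleton] at ht
          rcases ht with rfl | rfl
          · exact hqF
          · exact hlF
        have h2 := card_le_card h1
        rwa [card_pair (ds_ne (i := i) (by omega))] at h2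
      have hAx : Ax i ε = insert l (bd i q) := by
        rw [← Finset.sdiff_union_of_subset hbdA, hl1, insert_eq]
      rw [hAx] at hYs hcfD
      rw [biUnion_insert] at hYs
      have h5 : (bd i q).biUnion (bd i) = BB i q := rfl
      rw [h5] at hYs
      have h6 := card_union_le (bd i l) (BB i q)
      have h7 := hdeg l
      refine ⟨q, hU, by omega, Or.inr ⟨l, hlL, ?_, Or.inr ⟨hs', hcfD⟩⟩⟩
      have h9 : (bd i l ∪ BB i q).card = (bd i l).card + (BB i q).card := by omega
      exact (Finset.card_union_eq_card_add_card.1 h9).symm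

end Pool.Gauss
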