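import Pool.Agent.Work.MP_065141_co.Rone3

/-!
# The case of two coatoms: products of two chains
-/

set_option autoImplicit false
set_option linter.unusedSectionVars false
open scoped Classical
open Finset

namespace Pool.Gauss

variable {α : Type} [Fintype α] [PartialOrder α]

/-- all levels are perfect -/
theorem rone_perf (C : Ctx α) {a b : ℕ} (h : ROne α a b) {i : ℕ} (hi : i < HT α) : Perf α i := by
  have ha := h.ha
  have hab := h.hab
  have hH := h.hH
  by_cases h1 : i + 1 < b
  · exact (rone_top C h).1 i h1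
  · by_cases h2 : a ≤ i
    · have h3 := (rone_top C.dual (h.dual C)).1 (HT α - 1 - i) (by omega)
      rw [C.perf_dual (by omega)] at h3
      rw [show HT α - 1 - (HT α - 1 - i) = i from by omega] at h3
      exact h3
    · have h3 : a = b := by omega
      subst h3
      have h4 : i = a - 1 := by omega
      rw [h4]
      exact rone_middle C h

/-- the coordinates extend to the whole poset -/
theorem rone_all (C : Ctx α) {a b : ℕ} (h : ROne α a b) :
    ∃ f : ℕ → ℕ → α, Top (Rct a b) (HT α - 1) f := by
  have ha := h.ha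
  have hab := h.hab
  have hH := h.hH
  have key : ∀ n, b - 1 + n < HT α → ∃ f : ℕ → ℕ → α, Top (Rct a b) (b - 1 + n) f := by
    intro n
    induction n with
    | zero =>
      intro _
      exact (rone_top C h).2
    | succ n ih =>
      intro hn
      obtain ⟨f, hT⟩ := ih (by omega)
      obtain ⟨i, hi⟩ : ∃ i, i = b - 1 + n := ⟨_, rfl⟩
      rw [← hi] at hT
      rw [show b - 1 + (n + 1) = i + 1 from by omega]
      have hone : ∀ c d c' d', c + d = i + 1 → ¬ OneP (Rct a b) c d c' d' := by
        rintro c d c' d' hcd ⟨h1, h2, h3⟩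
        rcases h3 with ⟨rfl, rfl, h3⟩ | ⟨rfl, rfl, h3⟩
        · rcases Nat.eq_zero_or_pos d with h4 | h4
          · have := h1.1
            omega
          · exact h3 (d - 1) (by omega) ⟨h1.1, by have := h1.2; omega⟩
        · rcases Nat.eq_zero_or_pos c with h4 | h4
          · have := h1.2
            omega
          · exact h3 (c - 1) (by omega) ⟨by have := h1.1; omega, h1.2⟩
      have hsg : ∀ x : α, corank x = i + 1 → (Pr x).card ≠ 1 := by
        have e1 := C.sgl_pr (i := i) (by omega)
        have e2 := h.s4 i (by omega) (by omega)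
        have e3 := h.s4 (i + 1) (by omega) (by omega)
        have e4 : ((lev α (i + 1)).filter fun x => (Pr x).card = 1).card = 0 := by omega
        rw [card_eq_zero, filter_eq_empty_iff] at e4
        intro x hx
        exact e4 (mem_lev.2 hx)
      obtain ⟨f', hT', _⟩ := Top.extend C hT (by omega) rct_hR1 rct_hR2
        (by
          intro c d h1 h2
          unfold Rct at h1
          rcases Nat.eq_zero_or_pos c with h3 | h3
          · exact Or.inr ⟨d - 1, by omega, ⟨by omega, by omega⟩⟩
          · exact Or.inl ⟨c - 1, by omega, ⟨by omega, by omega⟩⟩)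
        (rone_perf C h (by omega))
        (by
          intro c d c' d' h1 h2
          exact absurd h2 (hone _ _ _ _ h1))
        (by
          intro x h1 h2
          exact absurd h2 (hsg x h1))
        (by
          intro x x' h1 h2
          exact absurd h2 (hsg x h1))
        (by
          intro c d e d' c' e' h1 _ h3
          exact absurd h1 (hone _ _ _ _ h3))
      exact ⟨f', hT'⟩
  have h1 := key (HT α - 1 - (b - 1)) (by omega)
  rw [show b - 1 + (HT α - 1 - (b - 1)) = HT α - 1 from by omega] at h1
  exact h1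

theorem rone (C : Ctx α) (h : sz α 1 = 2) : ∃ r s : ℕ, Nonempty (α ≃o (Fin r × Fin s)) := by
  obtain ⟨a, b, hR⟩ := exists_ROne C h
  obtain ⟨f, hT⟩ := rone_all C hR
  have hH := hR.hH
  have ha := hR.ha
  let g : Fin a × Fin b → α := fun p => f p.1.val p.2.val
  have hg : Function.Bijective g := by
    constructor
    · intro p q hpq
      have h1 := p.1.2
      have h2 := p.2.2
      have h3 := q.1.2
      have h4 := q.2.2
      have := hT.inj p.1.val p.2.val q.1.val q.2.val ⟨h1, h2⟩ ⟨h3, h4⟩ (by omega) (by omega) hpq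
      exact Prod.ext (Fin.ext this.1) (Fin.ext this.2)
    · intro x
      have hx := corank_lt_HT x
      obtain ⟨c, d, h1, h2, h3⟩ := hT.sur x (by omega)
      exact ⟨(⟨c, h1.1⟩, ⟨d, h1.2⟩), h3⟩
  refine ⟨a, b, modelRect a b (Equiv.ofBijective g hg).symm ?_⟩
  intro x y
  obtain ⟨p, rfl⟩ := (Equiv.ofBijective g hg).surjective x
  obtain ⟨q, rfl⟩ := (Equiv.ofBijective g hg).surjective y
  rw [Equiv.symm_apply_apply, Equiv.symm_apply_apply]
  have h1 := p.1.2
  have h2 := p.2.2
  have h3 := q.1.2
  have h4 := q.2.2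
  have h5 := hT.cov q.1.val q.2.val p.1.val p.2.val ⟨h3, h4⟩ ⟨h1, h2⟩ (by omega) (by omega)
  have h6 : (Equiv.ofBijective g hg) p ⋖ (Equiv.ofBijective g hg) q ↔
      f p.1.val p.2.val ⋖ f q.1.val q.2.val := Iff.rfl
  rw [h6, h5]
  constructor
  · rintro (⟨h7, h8⟩ | ⟨h7, h8⟩)
    · exact Or.inl ⟨h7, Fin.ext h8⟩
    · exact Or.inr ⟨Fin.ext h7, h8⟩
  · rintro (⟨h7, h8⟩ | ⟨h7, h8⟩)
    · exact Or.inl ⟨h7, congrArg Fin.val h8⟩
    · exact Or.inr ⟨congrArg Fin.val h7, h8⟩

end Pool.Gauss
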