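import Pool.Agent.Work.MP_065141_co.Ext
import Pool.Agent.Work.MP_065141_co.Dual

/-!
# The case of two coatoms: parameters, start of the coordinates, facts (helper42)
-/

set_option autoImplicit false
set_option linter.unusedSectionVars false
open scoped Classical
open Finset

namespace Pool.Gauss

variable {α : Type} [Fintype α] [PartialOrder α]

/-- the parameters -/
structure ROne (α : Type) [Fintype α] [PartialOrder α] (a b : ℕ) : Prop where
  ha : 2 ≤ a
  hab : a ≤ b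
  hH : HT α + 1 = a + b
  s0 : ∀ l < a, sz α l = l + 1
  s1 : ∀ l, a ≤ l + 1 → l < b → a ≤ sz α l
  s2 : a < b → sz α a = a
  s3 : a = b → sz α a + 1 = a
  s4 : ∀ l, b ≤ l + 1 → l < HT α → sz α l + l + 1 = a + b

theorem exists_ROne (C : Ctx α) (h : sz α 1 = 2) : ∃ a b, ROne α a b := by
  have h0 : sz α 0 = 1 := C.one
  have hex : ∃ l, 1 ≤ l ∧ sz α l ≠ l + 1 := by
    refine ⟨HT α + 1, by omega, ?_⟩
    rw [sz_eq_zero (by omega)]
    omega
  obtain ⟨a, ha⟩ : ∃ a, a = Nat.find hex := ⟨_, rfl⟩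
  have ha1 : 1 ≤ a ∧ sz α a ≠ a + 1 := by rw [ha]; exact Nat.find_spec hex
  have hmin : ∀ l, 1 ≤ l → l < a → sz α l = l + 1 := by
    intro l hl hla
    rw [ha] at hla
    have := Nat.find_min hex hla
    by_contra hc
    exact this ⟨hl, hc⟩
  have s0 : ∀ l < a, sz α l = l + 1 := by
    intro l hl
    rcases Nat.eq_zero_or_pos l with rfl | hpos
    · exact h0
    · exact hmin l hpos hl
  have ha2 : 2 ≤ a := by
    by_contra hc
    have : a = 1 := by omega
    rw [this] at ha1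
    omega
  have hH1 : 1 < HT α := by
    by_contra hc
    rw [sz_eq_zero (i := 1) (by omega)] at h
    omega
  have haH : a < HT α := by
    by_contra hc
    have h1 : sz α (HT α - 1) = HT α - 1 + 1 := s0 _ (by omega)
    have h2 : sz α (HT α - 1 - 0) = sz α 0 := C.sz_palin (by omega)
    rw [Nat.sub_zero] at h2
    omega
  have hpal : sz α (HT α - a) = a := by
    have h2 : sz α (HT α - 1 - (a - 1)) = sz α (a - 1) := C.sz_palin (by omega)
    have h3 : HT α - 1 - (a - 1) = HT α - a := by omega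
    rw [h3, s0 (a - 1) (by omega)] at h2
    omega
  have hle : a ≤ HT α + 1 - a := by
    by_contra hc
    have h2 := s0 (HT α - a) (by omega)
    omega
  have hup : sz α a ≤ a := by
    have h2 := C.sgl_ch (i := a - 1) (by omega)
    have h3 : a - 1 + 1 = a := by omega
    rw [h3, s0 (a - 1) (by omega)] at h2
    have := ha1.2
    omega
  have s1 : ∀ l, a ≤ l + 1 → l < HT α + 1 - a → a ≤ sz α l := by
    intro l hl hlb
    have h2 := C.sz_unimodal (e := a - 1) (c := l) (by omega) (by omega)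
    rw [s0 (a - 1) (by omega)] at h2
    omega
  refine ⟨a, HT α + 1 - a, ha2, hle, by omega, s0, s1, ?_, ?_, ?_⟩
  · intro hab
    have := s1 a (by omega) hab
    omega
  · intro hab
    have h2 : sz α (HT α - 1 - (a - 2)) = sz α (a - 2) := C.sz_palin (by omega)
    have h3 : HT α - 1 - (a - 2) = a := by omega
    rw [h3, s0 (a - 2) (by omega)] at h2
    omega
  · intro l hl hlH
    have h2 : sz α (HT α - 1 - (HT α - 1 - l)) = sz α (HT α - 1 - l) := C.sz_palin (by omega)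
    have h3 : HT α - 1 - (HT α - 1 - l) = l := by omega
    rw [h3, s0 (HT α - 1 - l) (by omega)] at h2
    omega

/-- start of the coordinates -/
theorem rone_start (C : Ctx α) {a b : ℕ} (h : ROne α a b) : ∃ f : ℕ → ℕ → α, Top (Rct a b) 1 f := by
  have ha := h.ha
  have hab := h.hab
  obtain ⟨z, hz⟩ := card_eq_one.1 C.one
  have h1 : (lev α 1).card = 2 := h.s0 1 (by omega)
  obtain ⟨x, y, hxy, hxy'⟩ := card_eq_two.1 h1
  have hz0 : ∀ w : α, corank w = 0 ↔ w = z := by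
    intro w
    rw [← mem_lev, hz, mem_singleton]
  have hl1 : ∀ w : α, corank w = 1 ↔ w = x ∨ w = y := by
    intro w
    rw [← mem_lev, hxy', mem_insert, mem_singleton]
  have cz : corank z = 0 := (hz0 z).2 rfl
  have cx : corank x = 1 := (hl1 x).2 (Or.inl rfl)
  have cy : corank y = 1 := (hl1 y).2 (Or.inr rfl)
  have cov1 : ∀ w : α, corank w = 1 → w ⋖ z := by
    intro w hw
    obtain ⟨u, hu, hu0⟩ := exists_gt_corank (x := w) (n := 0) (by omega)
    rw [(hz0 u).1 hu0] at hu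
    exact C.covBy_of_lt hu (by omega)
  have ncov : ∀ u v : α, corank u ≠ corank v + 1 → ¬ u ⋖ v := fun u v huv hc => huv (C.cork hc)
  refine ⟨fun c d => if c = 0 ∧ d = 0 then z else if d = 0 then x else y, ?_, ?_, ?_, ?_⟩
  · intro c d _ h2
    have h3 : (c = 0 ∧ d = 0) ∨ (c = 1 ∧ d = 0) ∨ (c = 0 ∧ d = 1) := by omega
    rcases h3 with ⟨rfl, rfl⟩ | ⟨rfl, rfl⟩ | ⟨rfl, rfl⟩
    · simp [cz]
    · simp [cx]
    · simp [cy]
  · intro c d c' d' _ _ h2 h2' h4
    have h3 : (c = 0 ∧ d = 0) ∨ (c = 1 ∧ d = 0) ∨ (c = 0 ∧ d = 1) := by omega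
    have h3' : (c' = 0 ∧ d' = 0) ∨ (c' = 1 ∧ d' = 0) ∨ (c' = 0 ∧ d' = 1) := by omega
    have hzx : z ≠ x := fun hc => by rw [hc] at cz; omega
    have hzy : z ≠ y := fun hc => by rw [hc] at cz; omega
    rcases h3 with ⟨rfl, rfl⟩ | ⟨rfl, rfl⟩ | ⟨rfl, rfl⟩ <;>
    rcases h3' with ⟨rfl, rfl⟩ | ⟨rfl, rfl⟩ | ⟨rfl, rfl⟩ <;>
    simp_all [eq_comm]
  · intro w hw
    have h3 : corank w = 0 ∨ corank w = 1 := by omega
    rcases h3 with h3 | h3
    · exact ⟨0, 0, ⟨by omega, by omega⟩, by omega, by simp [(hz0 w).1 h3]⟩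
    · rcases (hl1 w).1 h3 with h4 | h4
      · exact ⟨1, 0, ⟨by omega, by omega⟩, by omega, by simp [h4]⟩
      · exact ⟨0, 1, ⟨by omega, by omega⟩, by omega, by simp [h4]⟩
  · intro c d c' d' _ _ h2 h2'
    have h3 : (c = 0 ∧ d = 0) ∨ (c = 1 ∧ d = 0) ∨ (c = 0 ∧ d = 1) := by omega
    have h3' : (c' = 0 ∧ d' = 0) ∨ (c' = 1 ∧ d' = 0) ∨ (c' = 0 ∧ d' = 1) := by omega
    have n1 := ncov z z (by omega)
    have n2 := ncov z x (by omega)
    have n3 := ncov z y (by omega)
    have n4 := ncov x x (by omega)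
    have n5 := ncov x y (by omega)
    have n6 := ncov y x (by omega)
    have n7 := ncov y y (by omega)
    have p1 := cov1 x cx
    have p2 := cov1 y cy
    rcases h3 with ⟨rfl, rfl⟩ | ⟨rfl, rfl⟩ | ⟨rfl, rfl⟩ <;>
    rcases h3' with ⟨rfl, rfl⟩ | ⟨rfl, rfl⟩ | ⟨rfl, rfl⟩ <;>
    simp [n2, n3, n5, n6, p1, p2]

/-- facts read off from the coordinates: no events -/
theorem rone_facts (C : Ctx α) {a b i : ℕ} (h : ROne α a b) (hib : i < b) {f : ℕ → ℕ → α}
    (hT : Top (Rct a b) i f) :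
    (∀ j ≤ i, QEv α j = ∅) ∧ (∀ j < i, EEv α j = ∅) ∧ (∀ j < i, FFv α j = ∅) ∧
      (∀ j < i, PEv α j = ∅) ∧ (∀ v : α, corank v + 2 ≤ i → (Ch v).card = 2 → (Ch2 v).card ≤ 3) := by
  have ha := h.ha
  have hab := h.hab
  have hH := h.hH
  have hF : ∀ j < i, FFv α j = ∅ := by
    intro j hj
    rw [eq_empty_iff_forall_notMem]
    rintro ⟨p, q⟩ hpq
    rw [mem_FFv] at hpq
    obtain ⟨h1, h2, h3, h4, h5⟩ := hpq
    simp only at h1 h2 h3 h4 h5
    obtain ⟨c, d, r1, r2, rfl⟩ := hT.sur p (by omega)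
    obtain ⟨c', d', r1', r2', rfl⟩ := hT.sur q (by omega)
    have e1 := hT.card_Pr C r1 (by omega)
    have hc : ∃ e, c = e + 1 ∧ Rct a b e d := by
      by_contra hc
      rw [if_neg hc] at e1
      split_ifs at e1 <;> omega
    have hd : ∃ e, d = e + 1 ∧ Rct a b c e := by
      by_contra hc
      rw [if_neg hc] at e1
      split_ifs at e1 <;> omega
    obtain ⟨e, rfl, re⟩ := hc
    obtain ⟨g, rfl, rg⟩ := hd
    have m1 : f e (g + 1) ∈ Pr (f (e + 1) (g + 1)) := (hT.mem_Pr C r1 (by omega)).2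
      (Or.inl ⟨e, rfl, re, rfl⟩)
    have m2 : f (e + 1) g ∈ Pr (f (e + 1) (g + 1)) := (hT.mem_Pr C r1 (by omega)).2
      (Or.inr ⟨g, rfl, rg, rfl⟩)
    rw [h4] at m1 m2
    have k1 := (hT.mem_Pr C r1' (by omega)).1 m1
    have k2 := (hT.mem_Pr C r1' (by omega)).1 m2
    have key : e + 1 = c' ∧ g + 1 = d' := by
      rcases k1 with ⟨e', he', re', q1⟩ | ⟨g', hg', rg', q1⟩
      · have := hT.inj _ _ _ _ re re' (by omega) (by omega) q1
        omega
      · have i1 := hT.inj _ _ _ _ re rg' (by omega) (by omega) q1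
        rcases k2 with ⟨e'', he'', re'', q2⟩ | ⟨g'', hg'', rg'', q2⟩
        · have i2 := hT.inj _ _ _ _ rg re'' (by omega) (by omega) q2
          omega
        · have i2 := hT.inj _ _ _ _ rg rg'' (by omega) (by omega) q2
          omega
    exact h3 (by rw [key.1, key.2])
  refine ⟨?_, ?_, hF, ?_, ?_⟩
  · intro j hj
    rw [eq_empty_iff_forall_notMem]
    intro v hv
    rw [mem_QEv] at hv
    obtain ⟨h1, h2, h3⟩ := hv
    obtain ⟨c, d, r1, r2, rfl⟩ := hT.sur v (by omega)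
    have e1 := hT.card_Ch C r1 (by omega)
    have t1 : Rct a b c (d + 1) := ⟨r1.1, by omega⟩
    rw [if_pos t1, h2] at e1
    have t2 : ¬ Rct a b (c + 1) d := by
      intro hc
      rw [if_pos hc] at e1
      omega
    have hca : ¬ (c + 1 < a) := fun hc => t2 ⟨hc, r1.2⟩
    have e2 : Ch (f c d) = {f c (d + 1)} := by
      ext w
      rw [hT.mem_Ch C r1 (by omega), mem_singleton]
      constructor
      · rintro (⟨h4, _⟩ | ⟨_, h4⟩)
        · exact absurd h4 t2
        · exact h4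
      · intro h4
        exact Or.inr ⟨t1, h4⟩
    rw [Ch2_of_single e2, hT.card_Ch C t1 (by omega)] at h3
    have t3 : ¬ Rct a b (c + 1) (d + 1) := fun hc => hca hc.1
    rw [if_neg t3] at h3
    split_ifs at h3 <;> omega
  · intro j hj
    rw [eq_empty_iff_forall_notMem]
    intro x hx
    rw [mem_EEv] at hx
    obtain ⟨h1, h2, h3⟩ := hx
    obtain ⟨c, d, r1, r2, rfl⟩ := hT.sur x (by omega)
    have e1 := hT.card_Pr C r1 (by omega)
    rw [h2] at e1
    have hor : c = 0 ∨ d = 0 := by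
      by_contra hc
      have g1 : ∃ e, c = e + 1 ∧ Rct a b e d :=
        ⟨c - 1, by omega, ⟨by have := r1.1; omega, r1.2⟩⟩
      have g2 : ∃ e, d = e + 1 ∧ Rct a b c e :=
        ⟨d - 1, by omega, ⟨r1.1, by have := r1.2; omega⟩⟩
      rw [if_pos g1, if_pos g2] at e1
      omega
    rcases hor with rfl | rfl
    · obtain ⟨g, rfl⟩ : ∃ g, d = g + 1 := ⟨d - 1, by omega⟩
      have rg : Rct a b 0 g := ⟨r1.1, by have := r1.2; omega⟩
      have m1 : f 0 g ∈ Pr (f 0 (g + 1)) := (hT.mem_Pr C r1 (by omega)).2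
        (Or.inr ⟨g, rfl, rg, rfl⟩)
      have e2 := h3 _ m1
      have rr : Rct a b (0 + 1) g := ⟨by omega, rg.2⟩
      rw [hT.card_Ch C rg (by omega), if_pos rr, if_pos r1] at e2
      omega
    · obtain ⟨g, rfl⟩ : ∃ g, c = g + 1 := ⟨c - 1, by omega⟩
      have rg : Rct a b g 0 := ⟨by have := r1.1; omega, r1.2⟩
      have m1 : f g 0 ∈ Pr (f (g + 1) 0) := (hT.mem_Pr C r1 (by omega)).2
        (Or.inl ⟨g, rfl, rg, rfl⟩)
      have e2 := h3 _ m1
      have rr : Rct a b g (0 + 1) := ⟨rg.1, by omega⟩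
      rw [hT.card_Ch C rg (by omega), if_pos r1, if_pos rr] at e2
      omega
  · intro j hj
    have e1 := C.E1 (j := j) (by omega)
    rw [hF j hj, h.s0 1 (by omega), card_empty] at e1
    rw [← card_eq_zero]
    omega
  · intro v hv _
    obtain ⟨c, d, r1, r2, rfl⟩ := hT.sur v (by omega)
    have hsub : Ch2 (f c d) ⊆ {f (c + 2) d, f (c + 1) (d + 1), f c (d + 2)} := by
      intro x hx
      rw [mem_Ch2] at hx
      obtain ⟨z, hz, hxz⟩ := hx
      rw [← mem_Ch] at hz hxz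
      rw [hT.mem_Ch C r1 (by omega)] at hz
      rw [mem_insert, mem_insert, mem_singleton]
      rcases hz with ⟨t, rfl⟩ | ⟨t, rfl⟩
      · rw [hT.mem_Ch C t (by omega)] at hxz
        rcases hxz with ⟨_, h5⟩ | ⟨_, h5⟩
        · exact Or.inl h5
        · exact Or.inr (Or.inl h5)
      · rw [hT.mem_Ch C t (by omega)] at hxz
        rcases hxz with ⟨_, h5⟩ | ⟨_, h5⟩
        · exact Or.inr (Or.inl h5)
        · exact Or.inr (Or.inr h5)
    exact (card_le_card hsub).trans card_le_three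

end Pool.Gauss
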