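import Pool.Agent.Work.MP_065141_co.Rone1
import Pool.Agent.Work.MP_065141_co.Path

/-!
# Products of two chains: a level as a path, the allowed pairs below it (helper42)
-/

set_option autoImplicit false
set_option linter.unusedSectionVars false
open scoped Classical
open Finset

namespace Pool.Gauss

variable {α : Type} [Fintype α] [PartialOrder α]

section

variable {a b i : ℕ} {f : ℕ → ℕ → α}

lemma rct_hR1 {a b : ℕ} : ∀ c d, Rct a b c (d + 1) → Rct a b (c + 1) d → Rct a b c d := by
  intro c d h1 h2
  unfold Rct at *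
  omega

lemma rct_hR2 {a b : ℕ} : ∀ c d, Rct a b c (d + 1) → Rct a b (c + 1) d →
    Rct a b (c + 1) (d + 1) := by
  intro c d h1 h2
  unfold Rct at *
  omega

/-- level `i` as a path -/
lemma rone_PL (C : Ctx α) (ha : 2 ≤ a) (hib : i < b) (hT : Top (Rct a b) i f) :
    PL i (min i (a - 1)) (fun j => f j (i - j)) where
  cor j hj := by
    rw [hT.cor _ _ ⟨by omega, by omega⟩ (by omega)]
    omega
  inj j hj j' hj' he := by
    have := hT.inj _ _ _ _ ⟨by omega, by omega⟩ ⟨by omega, by omega⟩ (by omega) (by omega) he
    omega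
  sur x hx := by
    obtain ⟨c, d, h1, h2, rfl⟩ := hT.sur x (by omega)
    unfold Rct at h1
    refine ⟨c, by omega, ?_⟩
    congr 1
    omega
  mD j j' h1 h2 := by
    exact hT.mD_eq C rct_hR1 ⟨by omega, by omega⟩ ⟨by omega, by omega⟩ (by omega) (by omega) h1

lemma rone_Pr_zero (C : Ctx α) (ha : 2 ≤ a) (hib : i < b) (hi : 1 ≤ i)
    (hT : Top (Rct a b) i f) : Pr (f 0 i) = {f 0 (i - 1)} := by
  ext y
  rw [hT.mem_Pr C ⟨by omega, by omega⟩ (by omega), mem_singleton]
  constructor
  · rintro (⟨e, he, _⟩ | ⟨e, rfl, _, rfl⟩)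
    · omega
    · rfl
  · rintro rfl
    exact Or.inr ⟨i - 1, by omega, ⟨by omega, by omega⟩, rfl⟩

lemma rone_Pr_last (C : Ctx α) (hia : i < a) (hb : 0 < b) (hi : 1 ≤ i)
    (hT : Top (Rct a b) i f) : Pr (f i 0) = {f (i - 1) 0} := by
  ext y
  rw [hT.mem_Pr C ⟨by omega, by omega⟩ (by omega), mem_singleton]
  constructor
  · rintro (⟨e, rfl, _, rfl⟩ | ⟨e, he, _⟩)
    · rfl
    · omega
  · rintro rfl
    exact Or.inl ⟨i - 1, by omega, ⟨by omega, by omega⟩, rfl⟩

lemma rone_Pr_mid (C : Ctx α) (hib : i < b) (hT : Top (Rct a b) i f) {j : ℕ} (h0 : 0 < j)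
    (hja : j < a) (hji : j < i) :
    Pr (f j (i - j)) = {f (j - 1) (i - 1 - (j - 1)), f j (i - 1 - j)} := by
  ext y
  rw [hT.mem_Pr C ⟨by omega, by omega⟩ (by omega), mem_insert, mem_singleton]
  constructor
  · rintro (⟨e, rfl, _, rfl⟩ | ⟨e, he, _, rfl⟩)
    · left
      congr 1
      omega
    · right
      congr 1
      omega
  · rintro (rfl | rfl)
    · refine Or.inl ⟨j - 1, by omega, ⟨by omega, by omega⟩, ?_⟩
      congr 1
      omega
    · refine Or.inr ⟨i - 1 - j, by omega, ⟨by omega, by omega⟩, ?_⟩
      congr 1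

/-- the pairs which may occur below level `i` -/
theorem rone_allowed (C : Ctx α) (ha : 2 ≤ a) (hi : 2 ≤ i) (hib : i < b)
    (hT : Top (Rct a b) i f) (hcl : Clean α (i - 1)) {w : α} (hw : corank w = i + 1)
    (hw2 : (Pr w).card = 2) :
    (∃ j, j < min i (a - 1) ∧ Pr w = {f j (i - j), f (j + 1) (i - (j + 1))}) ∨
      (i < a ∧ Pr w = {f 0 i, f i 0}) := by
  have hPL := rone_PL C ha hib hT
  obtain ⟨j, j', h1, h2, h3⟩ := hPL.pair hw2 (C.pr_sub (i := i) (by omega))
  have hc := hcl.1 w (by omega) hw2
  have hu : ∀ {c d : ℕ}, c < a → d < a → c < i → d < i → c ≠ d →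
      f c (i - 1 - c) ≠ f d (i - 1 - d) := by
    intro c d hc hd hc' hd' hcd he
    have := hT.inj _ _ _ _ ⟨by omega, by omega⟩ ⟨by omega, by omega⟩ (by omega) (by omega) he
    omega
  by_cases h4 : j' = j + 1
  · left
    exact ⟨j, by omega, by rw [h3, h4]⟩
  have ePr : Pr2 w = Pr (f j (i - j)) ∪ Pr (f j' (i - j')) := Pr2_of_pair h3
  have mj : f j (i - j) ∈ Pr w := by rw [h3]; simp
  have mj' : f j' (i - j') ∈ Pr w := by rw [h3]; simp
  have e0 : Pr (f 0 (i - 0)) = {f 0 (i - 1 - 0)} := by
    have := rone_Pr_zero C ha hib (by omega) hT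
    simpa using this
  by_cases h5 : j = 0
  · subst h5
    by_cases h6 : j' = i
    · right
      refine ⟨by omega, ?_⟩
      rw [h3, h6]
      simp
    · exfalso
      have pj := rone_Pr_mid C hib hT (j := j') (by omega) (by omega) (by omega)
      rw [e0, pj] at ePr
      have h8 : (Pr2 w).card = 3 := by
        rw [ePr, card_eq_three]
        refine ⟨f 0 (i - 1 - 0), f (j' - 1) (i - 1 - (j' - 1)), f j' (i - 1 - j'), ?_, ?_, ?_, ?_⟩
        · exact hu (by omega) (by omega) (by omega) (by omega) (by omega)
        · exact hu (by omega) (by omega) (by omega) (by omega) (by omega)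
        · exact hu (by omega) (by omega) (by omega) (by omega) (by omega)
        · rfl
      have h9 := hc.2 h8 _ mj
      rw [e0, card_singleton] at h9
      omega
  · exfalso
    have pj := rone_Pr_mid C hib hT (j := j) (by omega) (by omega) (by omega)
    by_cases h6 : j' = i
    · have hia : i < a := by omega
      have p1 : Pr (f j' (i - j')) = {f (i - 1) (i - 1 - (i - 1))} := by
        have := rone_Pr_last C hia (by omega) (by omega) hT
        rw [h6]
        simpa using this
      rw [pj, p1] at ePr
      have h8 : (Pr2 w).card = 3 := by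
        rw [ePr, card_eq_three]
        refine ⟨f (j - 1) (i - 1 - (j - 1)), f j (i - 1 - j), f (i - 1) (i - 1 - (i - 1)),
          ?_, ?_, ?_, ?_⟩
        · exact hu (by omega) (by omega) (by omega) (by omega) (by omega)
        · exact hu (by omega) (by omega) (by omega) (by omega) (by omega)
        · exact hu (by omega) (by omega) (by omega) (by omega) (by omega)
        · ext x
          simp only [mem_union, mem_insert, mem_singleton]
          tauto
      have h9 := hc.2 h8 _ mj'
      rw [p1, card_singleton] at h9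
      omega
    · have pj' := rone_Pr_mid C hib hT (j := j') (by omega) (by omega) (by omega)
      rw [pj, pj'] at ePr
      have h7 : Pr2 w = {f (j - 1) (i - 1 - (j - 1)), f j (i - 1 - j),
          f (j' - 1) (i - 1 - (j' - 1)), f j' (i - 1 - j')} := by
        rw [ePr]
        ext x
        simp only [mem_union, mem_insert, mem_singleton]
        tauto
      have h8 : 4 ≤ (Pr2 w).card := by
        rw [h7, card_insert_of_notMem, card_insert_of_notMem, card_pair]
        · exact hu (by omega) (by omega) (by omega) (by omega) (by omega)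
        · simp only [mem_insert, mem_singleton, not_or]
          exact ⟨hu (by omega) (by omega) (by omega) (by omega) (by omega),
            hu (by omega) (by omega) (by omega) (by omega) (by omega)⟩
        · simp only [mem_insert, mem_singleton, not_or]
          exact ⟨hu (by omega) (by omega) (by omega) (by omega) (by omega),
            hu (by omega) (by omega) (by omega) (by omega) (by omega),
            hu (by omega) (by omega) (by omega) (by omega) (by omega)⟩
      have := hc.1
      omega

end

end Pool.Gauss
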