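import Pool.Agent.Work.MP_065141_co.Rone1
import Pool.Agent.Work.MP_065141_co.RoneA
import Pool.Agent.Work.MP_065141_co.Path
import Pool.Agent.Work.MP_065141_co.Models
import Pool.Agent.Work.MP_065141_co.Rtwo2

/-!
# Products of two chains: one step (helper69)
-/

set_option autoImplicit false
set_option linter.unusedSectionVars false
open scoped Classical
open Finset

namespace Pool.Gauss

variable {α : Type} [Fintype α] [PartialOrder α]

/-! ### defects at a path level with controlled pairs below -/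

/-- the pairs below the path: consecutive, or the two tips -/
def AL (i n : ℕ) (y : ℕ → α) : Prop := ∀ w : α, corank w = i + 1 → (Pr w).card = 2 →
  (∃ j, j < n ∧ Pr w = {y j, y (j + 1)}) ∨ Pr w = {y 0, y n}

lemma AL.rev {i n : ℕ} {y : ℕ → α} (h : AL i n y) : AL i n (fun j => y (n - j)) := by
  intro w hw hw2
  rcases h w hw hw2 with ⟨j, hj, h3⟩ | h3
  · left
    refine ⟨n - 1 - j, by omega, ?_⟩
    simp only
    rw [h3, pair_comm]
    congr 2
    · omega
    · congr 1
      omega
  · right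
    simp only [Nat.sub_zero, Nat.sub_self]
    rw [h3, pair_comm]

lemma PL.k_cases {i n : ℕ} {y : ℕ → α} (h : PL i n y) (hn : 1 ≤ n)
    (hA : AL i n y) {S k : α} (hD : Defect i S (y n) k) :
    k = y (n - 1) ∨ (k = y 0 ∧ ∃ w : α, corank w = i + 1 ∧ Pr w = {y 0, y n}) := by
  obtain ⟨w, hw, hw2⟩ := exists_of_mC_pos hD.mC_pos
  have htk := hD.tk
  rcases hA w hw (by rw [hw2, card_pair htk]) with ⟨j, hj, h3⟩ | h3
  · rw [hw2] at h3
    have m1 : y n ∈ ({y j, y (j + 1)} : Finset α) := by rw [← h3]; simp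
    have m2 : k ∈ ({y j, y (j + 1)} : Finset α) := by rw [← h3]; simp
    rw [mem_insert, mem_singleton] at m1 m2
    have hjn : j + 1 = n := by
      rcases m1 with m1 | m1
      · have := h.inj _ le_rfl _ (by omega) m1
        omega
      · exact (h.inj _ le_rfl _ (by omega) m1).symm
    rcases m2 with m2 | m2
    · left
      rw [m2]
      congr 1
      omega
    · exfalso
      rw [hjn] at m2
      exact htk m2.symm
  · have h4 := h3
    rw [hw2] at h3
    have m2 : k ∈ ({y 0, y n} : Finset α) := by rw [← h3]; simp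
    rw [mem_insert, mem_singleton] at m2
    rcases m2 with m2 | m2
    · exact Or.inr ⟨m2, w, hw, h4⟩
    · exact absurd m2.symm htk

/-- a defect between the tips -/
lemma PL.tips (C : Ctx α) {i n : ℕ} {y : ℕ → α} (h : PL i n y) (hn : 1 ≤ n)
    (hA : AL i n y) {k : α} (hD : Defect i (y 0) (y n) k) : n = 2 := by
  have hsk := hD.sk
  rcases h.k_cases hn hA hD with hk | ⟨hk, _⟩
  · obtain ⟨j, hj, h3⟩ := h.nbr C hD
    have m1 : y 0 ∈ ({y j, y (j + 1)} : Finset α) := by rw [← h3]; simp
    have m2 : k ∈ ({y j, y (j + 1)} : Finset α) := by rw [← h3]; simp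
    rw [mem_insert, mem_singleton] at m1 m2
    have hj0 : j = 0 := by
      rcases m1 with m1 | m1
      · exact (h.inj _ (by omega) _ (by omega) m1).symm
      · have := h.inj _ (by omega) _ (by omega) m1
        omega
    subst hj0
    rcases m2 with m2 | m2
    · exact absurd m2.symm hsk
    · rw [hk] at m2
      have := h.inj _ (by omega) _ (by omega) m2
      omega
  · exact absurd hk.symm hsk

/-- a defect moving a pair to the tip `y n` -/
lemma PL.onetip (C : Ctx α) {i n : ℕ} {y : ℕ → α} (h : PL i n y) (hn : 1 ≤ n)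
    (hA : AL i n y) {S k : α} (hD : Defect i S (y n) k) :
    2 ≤ n ∧ ((k = y (n - 1) ∧ S = y (n - 2)) ∨
      (k = y 0 ∧ S = y 1 ∧ ∃ w : α, corank w = i + 1 ∧ Pr w = {y 0, y n})) := by
  have hsk := hD.sk
  have hst := hD.st
  obtain ⟨j, hj, h3⟩ := h.nbr C hD
  have m1 : S ∈ ({y j, y (j + 1)} : Finset α) := by rw [← h3]; simp
  have m2 : k ∈ ({y j, y (j + 1)} : Finset α) := by rw [← h3]; simp
  rw [mem_insert, mem_singleton] at m1 m2
  rcases h.k_cases hn hA hD with hk | ⟨hk, hw⟩
  · rcases m2 with m2 | m2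
    · rw [hk] at m2
      have e1 := h.inj _ (by omega) _ (by omega) m2
      rcases m1 with m1 | m1
      · exfalso
        apply hsk
        rw [m1, hk, e1]
      · exfalso
        apply hst
        rw [m1]
        congr 1
        omega
    · rw [hk] at m2
      have e1 := h.inj _ (by omega) _ (by omega) m2
      rcases m1 with m1 | m1
      · refine ⟨by omega, Or.inl ⟨hk, ?_⟩⟩
        rw [m1]
        congr 1
        omega
      · exfalso
        apply hsk
        rw [m1, hk, e1]
  · rcases m2 with m2 | m2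
    · rw [hk] at m2
      have e1 := h.inj _ (by omega) _ (by omega) m2
      subst e1
      rcases m1 with m1 | m1
      · exfalso
        apply hsk
        rw [m1, hk]
      · refine ⟨?_, Or.inr ⟨hk, m1, hw⟩⟩
        by_contra hcon
        have : n = 1 := by omega
        subst this
        exact hst m1
    · rw [hk] at m2
      have e1 := h.inj _ (by omega) _ (by omega) m2
      omega

lemma PL.mD_le (C : Ctx α) {i n : ℕ} {y : ℕ → α} (h : PL i n y) {g : Finset α}
    (hg : g.card = 2) : Gauss.mD i g ≤ 1 := by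
  by_contra hcon
  obtain ⟨j, hj, rfl⟩ := h.mD_pos C hg (by omega)
  rw [h.mD j (j + 1) (by omega) (by omega), if_pos rfl] at hcon
  omega

lemma two_le_mC {i : ℕ} {p q : α} (hp : corank p = i + 1) (hq : corank q = i + 1) (hpq : p ≠ q)
    (he : Pr p = Pr q) : 2 ≤ mC i (Pr p) := by
  unfold mC
  rw [← card_pair hpq]
  apply card_le_card
  intro x hx
  rw [mem_insert, mem_singleton] at hx
  rw [mem_filter, mem_lev]
  rcases hx with rfl | rfl
  · exact ⟨hp, rfl⟩
  · exact ⟨hq, he.symm⟩

/-- no pair of elements with the same two upper covers, if the new pair is not an edge -/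
lemma PL.FF_zero (C : Ctx α) {i n : ℕ} {y : ℕ → α} (h : PL i n y) (hn : 2 ≤ n) {S : α}
    (hD : Defect i S (y n) (y 0)) : FFv α i = ∅ := by
  rw [eq_empty_iff_forall_notMem]
  rintro ⟨p, q⟩ hpq
  rw [mem_FFv] at hpq
  obtain ⟨h1, h2, h3, h4, h5⟩ := hpq
  simp only at h1 h2 h3 h4 h5
  have h6 := two_le_mC h1 h2 h3 h4
  have h7 := hD.eq (Pr p) h5
  have h8 := h.mD_le C h5
  by_cases h9 : Pr p = {y n, y 0}
  · rw [h9, pair_comm (y n), h.mD 0 n (by omega) le_rfl, if_neg (by omega : ¬ n = 0 + 1),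
      if_pos rfl] at h7
    rw [h9, pair_comm (y n)] at h6
    omega
  · rw [if_neg h9] at h7
    omega

/-- at most one pair of elements with the same two upper covers -/
lemma PL.FF_two (C : Ctx α) {i n : ℕ} {y : ℕ → α} (h : PL i n y) {S : α}
    (hD : Defect i S (y n) (y (n - 1))) : (FFv α i).card ≤ 2 := by
  have hts : ¬ ({y n, y (n - 1)} : Finset α) = {S, y (n - 1)} := by
    intro h2
    have h3 : S ∈ ({y n, y (n - 1)} : Finset α) := by rw [h2]; simp
    rw [mem_insert, mem_singleton] at h3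
    rcases h3 with h3 | h3
    · exact hD.st h3
    · exact hD.sk h3
  have h0 : mC i {y n, y (n - 1)} ≤ 2 := by
    have h1 := hD.eq {y n, y (n - 1)} (card_pair hD.tk)
    have h2 := h.mD_le C (g := {y n, y (n - 1)}) (card_pair hD.tk)
    rw [if_pos rfl, if_neg hts] at h1
    omega
  have h1 : FFv α i ⊆ ((lev α (i + 1)).filter fun x => Pr x = {y n, y (n - 1)}).offDiag := by
    rintro ⟨p, q⟩ hpq
    rw [mem_FFv] at hpq
    obtain ⟨h1, h2, h3, h4, h5⟩ := hpq
    simp only at h1 h2 h3 h4 h5
    have h6 := two_le_mC h1 h2 h3 h4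
    have h7 := hD.eq (Pr p) h5
    have h8 := h.mD_le C h5
    have h9 : Pr p = {y n, y (n - 1)} := by
      by_contra h9
      rw [if_neg h9] at h7
      omega
    rw [mem_offDiag, mem_filter, mem_filter, mem_lev, mem_lev]
    exact ⟨⟨h1, h9⟩, ⟨h2, h4 ▸ h9⟩, h3⟩
  have h2 := card_le_card h1
  rw [offDiag_card] at h2
  have h3 : ((lev α (i + 1)).filter fun x => Pr x = {y n, y (n - 1)}).card ≤ 2 := h0
  have h4 : ∀ m : ℕ, m ≤ 2 → m * m - m ≤ 2 := by
    intro m hm
    interval_cases m <;> simp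
  exact h2.trans (h4 _ h3)

/-- a single defect needs an event -/
lemma Ctx.defect_event (C : Ctx α) {i : ℕ} (hi0 : 0 < i) (hi : i < HT α) {s t k : α}
    (hD : Defect i s t k) (hup : ∀ v : α, corank v + 2 = i → (Ch v).card = 2 → (Ch2 v).card ≤ 3)
    (hp : PEv α i = ∅) (hq : QEv α i = ∅) : False := by
  obtain ⟨_, h1⟩ := C.RD hi0 hi hD hup
  rw [hp, hq, sum_empty, sum_empty] at h1
  omega

section

variable {a b i : ℕ} {f : ℕ → ℕ → α}

/-- single elements below level `i` lie under the tips -/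
lemma rone_single (C : Ctx α) (ha : 2 ≤ a) (hib : i < b) (hi : 1 ≤ i) (hT : Top (Rct a b) i f)
    (hPE : PEv α (i - 1) = ∅) {x : α} (hx : corank x = i + 1) (h1 : (Pr x).card = 1) :
    Pr x = {f 0 i} ∨ (i < a ∧ Pr x = {f i 0}) := by
  obtain ⟨u, hu⟩ := card_eq_one.1 h1
  have hul : u ∈ lev α i := C.pr_sub hx (by rw [hu]; simp)
  obtain ⟨j, hj, rfl⟩ := (rone_PL C ha hib hT).sur u (mem_lev.1 hul)
  by_cases h0 : j = 0
  · subst h0
    left
    simpa using hu
  by_cases hj' : j = i
  · subst hj'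
    right
    refine ⟨by omega, ?_⟩
    simpa using hu
  exfalso
  have h2 := rone_Pr_mid C hib hT (j := j) (by omega) (by omega) (by omega)
  have h3 : (Pr (f j (i - j))).card = 2 := by
    rw [h2, card_pair]
    intro he
    have := hT.inj _ _ _ _ ⟨by omega, by omega⟩ ⟨by omega, by omega⟩ (by omega) (by omega) he
    omega
  have h4 : x ∈ PEv α (i - 1) := mem_PEv.2 ⟨by omega, h1, by rw [Pr2_of_single hu, h3]⟩
  rw [hPE] at h4
  exact notMem_empty _ h4

lemma rone_AL' (C : Ctx α) (ha : 2 ≤ a) (hi : 1 ≤ i) (hib : i < b)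
    (hT : Top (Rct a b) i f) (hcl : Clean α (i - 1)) {w : α} (hw : corank w = i + 1)
    (hw2 : (Pr w).card = 2) :
    (∃ j, j < min i (a - 1) ∧ Pr w = {f j (i - j), f (j + 1) (i - (j + 1))}) ∨
      (i < a ∧ Pr w = {f 0 i, f i 0}) := by
  by_cases h2 : 2 ≤ i
  · exact rone_allowed C ha h2 hib hT hcl hw hw2
  · left
    obtain ⟨j, j', h3, h4, h5⟩ := (rone_PL C ha hib hT).pair hw2 (C.pr_sub hw)
    refine ⟨j, by omega, ?_⟩
    have : j' = j + 1 := by omega
    rw [h5, this]

lemma rone_AL (C : Ctx α) (ha : 2 ≤ a) (hi : 1 ≤ i) (hib : i < b)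
    (hT : Top (Rct a b) i f) (hcl : Clean α (i - 1)) :
    AL i (min i (a - 1)) (fun j => f j (i - j)) := by
  intro w hw hw2
  rcases rone_AL' C ha hi hib hT hcl hw hw2 with h | ⟨h3, h4⟩
  · exact Or.inl h
  · right
    have : min i (a - 1) = i := by omega
    simp only [this, Nat.sub_self, Nat.sub_zero]
    exact h4

/-- the number of elements above with three grandchildren -/
lemma rone_n3up (C : Ctx α) (h3 : 3 ≤ i) (hib : i < b) (hia : i < a) (hT : Top (Rct a b) i f) :
    i - 2 ≤ n3up α (i - 1) := by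
  have hCh : ∀ {c d : ℕ}, c + d < i → Ch (f c d) = {f (c + 1) d, f c (d + 1)} := by
    intro c d hcd
    ext x
    rw [hT.mem_Ch C ⟨by omega, by omega⟩ hcd, mem_insert, mem_singleton]
    constructor
    · rintro (⟨_, h⟩ | ⟨_, h⟩)
      · exact Or.inl h
      · exact Or.inr h
    · rintro (h | h)
      · exact Or.inl ⟨⟨by omega, by omega⟩, h⟩
      · exact Or.inr ⟨⟨by omega, by omega⟩, h⟩
  have hne : ∀ {c d c' d' : ℕ}, c + d ≤ i → c' + d' ≤ i → c ≠ c' → f c d ≠ f c' d' := by
    intro c d c' d' h1 h2 h4 he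
    exact h4 (hT.inj _ _ _ _ ⟨by omega, by omega⟩ ⟨by omega, by omega⟩ h1 h2 he).1
  unfold n3up
  rw [← card_range (i - 2)]
  apply card_le_card_of_injOn (fun c => f c (i - 3 - c))
  · intro c hc
    rw [mem_coe, mem_range] at hc
    rw [mem_coe, mem_filter]
    have e1 := hCh (c := c) (d := i - 3 - c) (by omega)
    have e2 := hCh (c := c + 1) (d := i - 3 - c) (by omega)
    have e3 := hCh (c := c) (d := i - 3 - c + 1) (by omega)
    refine ⟨mem_univ _, ?_, ?_, ?_⟩
    · rw [hT.cor _ _ ⟨by omega, by omega⟩ (by omega)]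
      omega
    · rw [e1, card_pair]
      exact hne (by omega) (by omega) (by omega)
    · have e4 : Ch2 (f c (i - 3 - c)) = {f (c + 1 + 1) (i - 3 - c),
          f (c + 1) (i - 3 - c + 1), f c (i - 3 - c + 1 + 1)} := by
        rw [Ch2_of_pair e1, e2, e3]
        ext x
        simp only [mem_union, mem_insert, mem_singleton]
        tauto
      rw [e4]
      exact card_eq_three.2 ⟨_, _, _, hne (by omega) (by omega) (by omega),
        hne (by omega) (by omega) (by omega), hne (by omega) (by omega) (by omega), rfl⟩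
  · intro c hc c' hc' he
    rw [mem_coe, mem_range] at hc hc'
    exact (hT.inj _ _ _ _ ⟨by omega, by omega⟩ ⟨by omega, by omega⟩ (by omega) (by omega) he).1

/-- the number of elements below with three grandparents -/
lemma rone_n3dn (C : Ctx α) (ha : 2 ≤ a) (h3 : 2 ≤ i) (hib : i < b) (hia : i < a)
    (hT : Top (Rct a b) i f) (hcl : Clean α (i - 1)) :
    n3dn α (i - 1) ≤ ∑ j ∈ Ico 1 (i - 1), mC i {f j (i - j), f (j + 1) (i - (j + 1))} := by
  unfold n3dn mC
  refine le_trans (card_le_card ?_) card_biUnion_le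
  intro w hw
  rw [mem_filter] at hw
  obtain ⟨_, h1, h2, h4⟩ := hw
  rw [mem_biUnion]
  have e0 : Pr (f 0 i) = {f 0 (i - 1)} := rone_Pr_zero C ha hib (by omega) hT
  have el : Pr (f i 0) = {f (i - 1) 0} := rone_Pr_last C hia (by omega) (by omega) hT
  rcases rone_AL' C ha (by omega) hib hT hcl (w := w) (by omega) h2 with ⟨j, hj, h5⟩ | ⟨_, h5⟩
  · by_cases hj0 : j = 0
    · exfalso
      subst hj0
      have e1 := rone_Pr_mid C hib hT (j := 0 + 1) (by omega) (by omega) (by omega)
      rw [Pr2_of_pair h5, Nat.sub_zero, e0, e1] at h4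
      have : ({f 0 (i - 1)} ∪ {f (0 + 1 - 1) (i - 1 - (0 + 1 - 1)), f (0 + 1) (i - 1 - (0 + 1))} :
          Finset α) = {f 0 (i - 1), f (0 + 1) (i - 1 - (0 + 1))} := by
        ext x
        simp only [mem_union, mem_insert, mem_singleton, zero_add, Nat.sub_self, Nat.sub_zero]
        tauto
      rw [this] at h4
      have := card_le_two (a := f 0 (i - 1)) (b := f (0 + 1) (i - 1 - (0 + 1)))
      omega
    · by_cases hjm : j + 1 = i
      · exfalso
        have e1 := rone_Pr_mid C hib hT (j := j) (by omega) (by omega) (by omega)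
        rw [Pr2_of_pair h5, hjm, Nat.sub_self, el, e1] at h4
        have : ({f (j - 1) (i - 1 - (j - 1)), f j (i - 1 - j)} ∪ {f (i - 1) 0} : Finset α) =
            {f (j - 1) (i - 1 - (j - 1)), f (i - 1) 0} := by
          have e2 : j = i - 1 := by omega
          have e3 : i - 1 - j = 0 := by omega
          rw [e3]
          ext x
          simp only [mem_union, mem_insert, mem_singleton]
          rw [← e2]
          tauto
        rw [this] at h4
        have := card_le_two (a := f (j - 1) (i - 1 - (j - 1))) (b := f (i - 1) 0)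
        omega
      · refine ⟨j, mem_Ico.2 ⟨by omega, by omega⟩, ?_⟩
        rw [mem_filter, mem_lev]
        exact ⟨by omega, h5⟩
  · exfalso
    rw [Pr2_of_pair h5, e0, el] at h4
    have : ({f 0 (i - 1)} ∪ {f (i - 1) 0} : Finset α) = {f 0 (i - 1), f (i - 1) 0} := rfl
    rw [this] at h4
    have := card_le_two (a := f 0 (i - 1)) (b := f (i - 1) 0)
    omega

/-- the extension step -/
lemma rone_ext (C : Ctx α) (ha : 2 ≤ a) (hi : 1 ≤ i) (hib : i + 1 < b) (hH : i + 1 < HT α)
    (hT : Top (Rct a b) i f) (hP : Perf α i) (h0 : ∃ x : α, Pr x = {f 0 i})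
    (h1 : i + 1 < a → ∃ x : α, Pr x = {f i 0})
    (h2 : ∀ x : α, corank x = i + 1 → (Pr x).card = 1 →
      Pr x = {f 0 i} ∨ (i + 1 < a ∧ Pr x = {f i 0}))
    (h3 : ∀ x x' : α, corank x = i + 1 → (Pr x).card = 1 → Pr x = Pr x' → x = x') :
    ∃ f' : ℕ → ℕ → α, Top (Rct a b) (i + 1) f' := by
  have hone : ∀ {c d c' d' : ℕ}, c + d = i + 1 → OneP (Rct a b) c d c' d' →
      (c = 0 ∧ d = i + 1 ∧ c' = 0 ∧ d' = i) ∨
      (i + 1 < a ∧ c = i + 1 ∧ d = 0 ∧ c' = i ∧ d' = 0) := by
    rintro c d c' d' hcd ⟨g1, g2, ⟨g3, g4, g5⟩ | ⟨g3, g4, g5⟩⟩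
    · right
      unfold Rct at g1 g2
      have hd : d = 0 := by
        by_contra hd
        exact g5 (d - 1) (by omega) ⟨g1.1, by omega⟩
      omega
    · left
      unfold Rct at g1 g2
      have hc : c = 0 := by
        by_contra hc
        exact g5 (c - 1) (by omega) ⟨by omega, g1.2⟩
      omega
  have key : ∃ f' : ℕ → ℕ → α, Top (Rct a b) (i + 1) f' ∧ ∀ c d, c + d ≤ i → f' c d = f c d := by
    refine Top.extend C hT hH rct_hR1 rct_hR2 ?_ hP ?_ ?_ h3 ?_
    · intro c d g1 g2
      unfold Rct at g1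
      by_cases hc : c = 0
      · right
        exact ⟨d - 1, by omega, ⟨g1.1, by omega⟩⟩
      · left
        exact ⟨c - 1, by omega, ⟨by omega, g1.2⟩⟩
    · intro c d c' d' g1 g2
      rcases hone g1 g2 with ⟨_, _, e1, e2⟩ | ⟨g3, _, _, e1, e2⟩
      · rw [e1, e2]
        exact h0
      · rw [e1, e2]
        exact h1 g3
    · intro x hx hx1
      rcases h2 x hx hx1 with h4 | ⟨h4, h5⟩
      · refine ⟨0, i + 1, 0, i, by omega, ⟨⟨by omega, by omega⟩, ⟨by omega, by omega⟩,
          Or.inr ⟨rfl, rfl, fun e he => by omega⟩⟩, h4⟩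
      · refine ⟨i + 1, 0, i, 0, by omega, ⟨⟨by omega, by omega⟩, ⟨by omega, by omega⟩,
          Or.inl ⟨rfl, rfl, fun e he => by omega⟩⟩, h5⟩
    · intro c d e d' c' e' g1 g2 g3 g4
      rcases hone g3 g1 with g5 | g5 <;> rcases hone g4 g2 with g6 | g6 <;> omega
  obtain ⟨f', hf', _⟩ := key
  exact ⟨f', hf'⟩

/-! ### two single elements -/

lemma Ctx.sg1_filter (C : Ctx α) {i : ℕ} {u : α} (hu : corank u = i) :
    sg1 u = (((lev α (i + 1)).filter fun x => (Pr x).card = 1).filter fun x => Pr x = {u}).card := by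
  unfold sg1
  congr 1
  ext x
  rw [mem_filter, mem_filter, mem_filter, mem_lev]
  constructor
  · rintro ⟨h1, h2⟩
    have h3 := C.cork (Gauss.mem_Ch.1 h1)
    refine ⟨⟨by omega, h2⟩, ?_⟩
    obtain ⟨v, hv⟩ := card_eq_one.1 h2
    rw [← mem_Pr_iff, hv, mem_singleton] at h1
    rw [hv, h1]
  · rintro ⟨⟨h1, h2⟩, h3⟩
    refine ⟨?_, h2⟩
    rw [← mem_Pr_iff, h3, mem_singleton]

lemma Ctx.sg1_two (C : Ctx α) {i : ℕ} {x1 x2 u : α} (hu : corank u = i)
    (hx : ((lev α (i + 1)).filter fun x => (Pr x).card = 1) = {x1, x2}) (hne : x1 ≠ x2) :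
    sg1 u = (if Pr x1 = {u} then 1 else 0) + (if Pr x2 = {u} then 1 else 0) := by
  rw [C.sg1_filter hu, hx, filter_insert, filter_singleton]
  split_ifs with h1 h2 h2
  · rw [card_pair hne]
  · rw [card_insert_of_notMem (notMem_empty _), card_empty]
  · rw [card_singleton]
  · rw [card_empty]

/-- both single elements under the same tip -/
lemma PL.not_both (C : Ctx α) {i n : ℕ} {y : ℕ → α} (h : PL i n y) (hn : 1 ≤ n) (hi0 : 0 < i)
    (hi : i + 1 < HT α) (hA : AL i n y)
    (hup : ∀ v : α, corank v + 2 = i → (Ch v).card = 2 → (Ch2 v).card ≤ 3) {x1 x2 : α}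
    (hx : ((lev α (i + 1)).filter fun x => (Pr x).card = 1) = {x1, x2}) (hne : x1 ≠ x2)
    (h1 : Pr x1 = {y 0}) (h2 : Pr x2 = {y 0}) (hch : ∀ u : α, corank u = i → (Ch u).card = 2) :
    False := by
  have hb : ∀ j ≤ n, bC (y j) + (if j = 0 then 2 else 0) = 2 := by
    intro j hj
    have h3 := C.bC_add_sg1 (y j)
    rw [hch _ (h.cor j hj), C.sg1_two (h.cor j hj) hx hne, h1, h2] at h3
    have h4 : ({y 0} : Finset α) = {y j} ↔ j = 0 := by
      rw [singleton_inj]
      exact ⟨fun h5 => (h.inj _ (by omega) _ hj h5).symm, fun h5 => by rw [h5]⟩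
    simp only [h4] at h3
    split_ifs at h3 ⊢ <;> omega
  obtain ⟨k, hD⟩ := C.defect_of_deg hi0 (by omega) (h.cor 0 (by omega)) (h.cor n le_rfl)
    (h.ne (by omega) le_rfl (by omega)) (by
      have h3 := hb 0 (by omega)
      rw [h.aD_eq C (by omega)]
      split_ifs at h3 ⊢ <;> omega) (by
      have h3 := hb n le_rfl
      rw [h.aD_eq C le_rfl]
      split_ifs at h3 ⊢ <;> omega) (by
      intro u hu h4 h5
      obtain ⟨j, hj, rfl⟩ := h.sur u hu
      have h3 := hb j hj
      have h6 : j ≠ 0 := fun h7 => h4 (by rw [h7])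
      have h7 : j ≠ n := fun h8 => h5 (by rw [h8])
      rw [h.aD_eq C hj]
      split_ifs at h3 ⊢ <;> omega)
  have hn2 := h.tips C hn hA hD
  exact C.no_defect_three hi0 (by omega) hD (by rw [h.sz_eq, hn2]) hup

/-- one single element under each tip -/
lemma PL.perf_two (C : Ctx α) {i n : ℕ} {y : ℕ → α} (h : PL i n y) (hn : 1 ≤ n) (hi0 : 0 < i)
    (hi : i + 1 < HT α) {x1 x2 : α}
    (hx : ((lev α (i + 1)).filter fun x => (Pr x).card = 1) = {x1, x2}) (hne : x1 ≠ x2)
    (h1 : Pr x1 = {y 0}) (h2 : Pr x2 = {y n}) (hch : ∀ u : α, corank u = i → (Ch u).card = 2) :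
    Perf α i := by
  apply C.perf_of_deg hi0 (by omega)
  intro u hu
  obtain ⟨j, hj, rfl⟩ := h.sur u hu
  have h3 := C.bC_add_sg1 (y j)
  rw [hch _ (h.cor j hj), C.sg1_two (h.cor j hj) hx hne, h1, h2] at h3
  have h4 : ({y 0} : Finset α) = {y j} ↔ j = 0 := by
    rw [singleton_inj]
    exact ⟨fun h5 => (h.inj _ (by omega) _ hj h5).symm, fun h5 => by rw [h5]⟩
  have h5 : ({y n} : Finset α) = {y j} ↔ j = n := by
    rw [singleton_inj]
    exact ⟨fun h5 => (h.inj _ (by omega) _ hj h5).symm, fun h5 => by rw [h5]⟩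
  simp only [h4, h5] at h3
  rw [h.aD_eq C hj]
  split_ifs at h3 ⊢ <;> omega

/-- levels before the maximal size -/
lemma rone_caseA (C : Ctx α) (h : ROne α a b) (hi : 1 ≤ i) (hia : i + 1 < a)
    (hT : Top (Rct a b) i f) (hP : ∀ j < i, Perf α j) :
    Perf α i ∧ ∃ f' : ℕ → ℕ → α, Top (Rct a b) (i + 1) f' := by
  have ha := h.ha
  have hab := h.hab
  have hH := h.hH
  obtain ⟨hQ, hE, hF, hPe, hup⟩ := rone_facts C h (i := i) (by omega) hT
  obtain ⟨hcl, _⟩ := C.R0 (i := i - 1) (by omega) (hP _ (by omega)) (hPe _ (by omega))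
    (hQ _ (by omega))
  have hPL := rone_PL C ha (i := i) (b := b) (by omega) hT
  have hA := rone_AL C ha hi (by omega) hT hcl
  have hn : min i (a - 1) = i := by omega
  rw [hn] at hPL hA
  have hu : ∀ v : α, corank v + 2 = i → (Ch v).card = 2 → (Ch2 v).card ≤ 3 :=
    fun v hv hv2 => hup v (by omega) hv2
  have s1 := h.s0 i (by omega)
  have s2 := h.s0 (i + 1) (by omega)
  have c1 := C.sgl_pr (i := i) (by omega)
  have c2 := C.sgl_ch (i := i) (by omega)
  have hch : ∀ u : α, corank u = i → (Ch u).card = 2 := by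
    intro u hu
    rcases C.ch_cases (x := u) (by omega) with h3 | h3
    · exfalso
      have h4 : 0 < ((lev α i).filter fun x => (Ch x).card = 1).card :=
        card_pos.2 ⟨u, mem_filter.2 ⟨mem_lev.2 hu, h3⟩⟩
      omega
    · exact h3
  obtain ⟨x1, x2, hne, hx⟩ := card_eq_two.1 (by omega :
    ((lev α (i + 1)).filter fun x => (Pr x).card = 1).card = 2)
  have hm : ∀ x : α, corank x = i + 1 ∧ (Pr x).card = 1 ↔ x = x1 ∨ x = x2 := by
    intro x
    have : x ∈ ((lev α (i + 1)).filter fun x => (Pr x).card = 1) ↔ x ∈ ({x1, x2} : Finset α) := by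
      rw [hx]
    rw [mem_filter, mem_lev, mem_insert, mem_singleton] at this
    exact this
  have m1 := (hm x1).2 (Or.inl rfl)
  have m2 := (hm x2).2 (Or.inr rfl)
  have p1 := rone_single C ha (by omega) hi hT (hPe _ (by omega)) m1.1 m1.2
  have p2 := rone_single C ha (by omega) hi hT (hPe _ (by omega)) m2.1 m2.2
  have e0 : f 0 (i - 0) = f 0 i := rfl
  have ei : f i (i - i) = f i 0 := by rw [Nat.sub_self]
  have ne0 : f 0 i ≠ f i 0 := by
    have := hPL.ne (j := 0) (j' := i) (by omega) le_rfl (by omega)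
    simp only [Nat.sub_self, Nat.sub_zero] at this
    exact this
  have main : Perf α i ∧ ((Pr x1 = {f 0 i} ∧ Pr x2 = {f i 0}) ∨
      (Pr x1 = {f i 0} ∧ Pr x2 = {f 0 i})) := by
    rcases p1 with p1 | ⟨_, p1⟩ <;> rcases p2 with p2 | ⟨_, p2⟩
    · exfalso
      exact hPL.not_both C hi (by omega) (by omega) hA hu hx hne p1 p2 hch
    · exact ⟨hPL.perf_two C hi (by omega) (by omega) hx hne p1 (by simpa using p2) hch,
        Or.inl ⟨p1, p2⟩⟩
    · exact ⟨hPL.perf_two C hi (by omega) (by omega) (by rw [hx, pair_comm]) hne.symm p2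
        (by simpa using p1) hch, Or.inr ⟨p1, p2⟩⟩
    · exfalso
      exact hPL.rev.not_both C hi (by omega) (by omega) hA.rev hu hx hne (by simpa using p1)
        (by simpa using p2) hch
  refine ⟨main.1, rone_ext C ha hi (by omega) (by omega) hT main.1 ?_ ?_ ?_ ?_⟩
  · rcases main.2 with ⟨g1, _⟩ | ⟨_, g2⟩
    · exact ⟨x1, g1⟩
    · exact ⟨x2, g2⟩
  · intro _
    rcases main.2 with ⟨_, g2⟩ | ⟨g1, _⟩
    · exact ⟨x2, g2⟩
    · exact ⟨x1, g1⟩
  · intro x hx1 hx2
    rcases rone_single C ha (by omega) hi hT (hPe _ (by omega)) hx1 hx2 with g | ⟨_, g⟩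
    · exact Or.inl g
    · exact Or.inr ⟨hia, g⟩
  · intro x x' hx1 hx2 hx3
    have g1 := (hm x).1 ⟨hx1, hx2⟩
    have g2 := (hm x').1 ⟨by
      have : f 0 i = f 0 i := rfl
      obtain ⟨v, hv⟩ := card_eq_one.1 hx2
      have hv1 : v ∈ Pr x := by rw [hv]; simp
      have hv2 : v ∈ Pr x' := by rw [← hx3]; exact hv1
      have k1 := C.cork (Gauss.mem_Pr.1 hv1)
      have k2 := C.cork (Gauss.mem_Pr.1 hv2)
      omega, by rw [← hx3]; exact hx2⟩
    have hinj : ({f 0 i} : Finset α) ≠ {f i 0} := fun hc => ne0 (singleton_injective hc)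
    rcases g1 with rfl | rfl <;> rcases g2 with rfl | rfl
    · rfl
    · exfalso
      rcases main.2 with ⟨q1, q2⟩ | ⟨q1, q2⟩
      · rw [q1, q2] at hx3
        exact hinj hx3
      · rw [q1, q2] at hx3
        exact hinj hx3.symm
    · exfalso
      rcases main.2 with ⟨q1, q2⟩ | ⟨q1, q2⟩
      · rw [q1, q2] at hx3
        exact hinj hx3.symm
      · rw [q1, q2] at hx3
        exact hinj hx3
    · rfl

/-- no defect in a level of maximal size, one single element -/
lemma rone_noDefect (C : Ctx α) (h : ROne α a b) (hi : 1 ≤ i) (hib : i + 1 < b) (hia : a ≤ i + 1)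
    (hT : Top (Rct a b) i f) (hP : ∀ j < i, Perf α j) {S k : α}
    (hS' : ∀ S' : α, corank S' = i → (Ch S').card = 1 → S' = S)
    (hD : Defect i S (f (a - 1) (i - (a - 1))) k) : False := by
  have ha := h.ha
  have hab := h.hab
  have hH := h.hH
  obtain ⟨hQ, hE, hF, hPe, hup⟩ := rone_facts C h (i := i) (by omega) hT
  obtain ⟨hcl, hN3⟩ := C.R0 (i := i - 1) (by omega) (hP _ (by omega)) (hPe _ (by omega))
    (hQ _ (by omega))
  have hPL := rone_PL C ha (i := i) (b := b) (by omega) hT
  have hA := rone_AL C ha hi (by omega) hT hcl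
  have hn : min i (a - 1) = a - 1 := by omega
  rw [hn] at hPL hA
  have hu : ∀ v : α, corank v + 2 = i → (Ch v).card = 2 → (Ch2 v).card ≤ 3 :=
    fun v hv hv2 => hup v (by omega) hv2
  have hs1 := h.s0 1 (by omega)
  have hE1 := C.E1 (j := i) (by omega)
  rw [hs1] at hE1
  obtain ⟨hn2, hcase⟩ := hPL.onetip C (by omega) hA hD
  by_cases hn3 : a - 1 = 2
  · exact C.no_defect_three hi (by omega) hD (by rw [hPL.sz_eq, hn3]) hu
  rcases hcase with ⟨hk, hS⟩ | ⟨hk, hS, _⟩
  · by_cases hia' : a ≤ i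
    · -- plateau
      rw [hk] at hD
      have h1 := hPL.FF_two C (S := S) hD
      have h2 : 0 < (QEv α (i + 1)).card := by
        rw [card_pos]
        refine ⟨f (a - 1) (i - (a - 1) - 1), ?_⟩
        have hc := hT.cor (a - 1) (i - (a - 1) - 1) ⟨by omega, by omega⟩ (by omega)
        have hch : Ch (f (a - 1) (i - (a - 1) - 1)) = {f (a - 1) (i - (a - 1))} := by
          ext x
          rw [hT.mem_Ch C ⟨by omega, by omega⟩ (by omega), mem_singleton]
          have e : i - (a - 1) - 1 + 1 = i - (a - 1) := by omega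
          rw [e]
          constructor
          · rintro (⟨g1, _⟩ | ⟨_, g1⟩)
            · exact absurd g1.1 (by omega)
            · exact g1
          · intro g1
            exact Or.inr ⟨⟨by omega, by omega⟩, g1⟩
        rw [mem_QEv]
        refine ⟨by omega, by rw [hch, card_singleton], ?_⟩
        rw [Ch2_of_single hch]
        have hcy := hPL.cor (a - 1) le_rfl
        rcases C.ch_cases (x := f (a - 1) (i - (a - 1))) (by omega) with g | g
        · exfalso
          exact hD.st (hS' _ hcy g).symm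
        · exact g
      have h3 : PEv α i = ∅ := by
        rw [← card_eq_zero]
        omega
      exact C.defect_event hi (by omega) hD hu h3 (hQ i le_rfl)
    · -- the first level of maximal size: count
      have hia2 : a = i + 1 := by omega
      have ea : a - 1 = i := by omega
      rw [ea] at hk hS hD hPL hn3 hn2
      have n1 := rone_n3up C (by omega) (by omega) (by omega) hT
      have n2 := rone_n3dn C ha (by omega) (by omega) (by omega) hT hcl
      have key : ∀ j ∈ Ico 1 (i - 1), mC i {f j (i - j), f (j + 1) (i - (j + 1))} =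
          if j < i - 2 then 1 else 0 := by
        intro j hj
        rw [mem_Ico] at hj
        have h9 := hD.eq {f j (i - j), f (j + 1) (i - (j + 1))} (card_pair (hPL.ne (by omega)
          (by omega) (by omega)))
        have h10 : Gauss.mD i {f j (i - j), f (j + 1) (i - (j + 1))} = 1 := by
          have := hPL.mD j (j + 1) (by omega) (by omega)
          rw [if_pos rfl] at this
          exact this
        rw [h10, hk, hS] at h9
        have h11 : ¬ ({f j (i - j), f (j + 1) (i - (j + 1))} : Finset α) =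
            {f i (i - i), f (i - 1) (i - (i - 1))} := by
          intro h11
          rw [pair_comm (f i (i - i))] at h11
          have := hPL.pair_inj (j := j) (j' := j + 1) (l := i - 1) (l' := i) (by omega) (by omega)
            (by omega) (by omega) h11
          omega
        rw [if_neg h11] at h9
        by_cases hj1 : j = i - 2
        · have e1 : j + 1 = i - 1 := by omega
          rw [if_pos (by rw [e1, hj1])] at h9
          rw [if_neg (by omega)]
          omega
        · rw [if_neg] at h9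
          · rw [if_pos (by omega)]
            omega
          · intro h12
            have := hPL.pair_inj (j := j) (j' := j + 1) (l := i - 2) (l' := i - 1) (by omega)
              (by omega) (by omega) (by omega) h12
            omega
      rw [Finset.sum_congr rfl key] at n2
      have h11 : ∑ j ∈ Ico 1 (i - 1), (if j < i - 2 then 1 else 0) = i - 3 := by
        rw [Finset.sum_ite, Finset.sum_const, Finset.sum_const_zero, smul_eq_mul, mul_one, add_zero]
        have : (Ico 1 (i - 1)).filter (fun j => j < i - 2) = Ico 1 (i - 2) := by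
          ext j
          rw [mem_filter, mem_Ico, mem_Ico]
          omega
        rw [this, Nat.card_Ico]
        omega
      rw [h11] at n2
      omega
  · rw [hk] at hD
    have h1 := hPL.FF_zero C hn2 (S := S) hD
    rw [h1, card_empty] at hE1
    have h3 : PEv α i = ∅ := by
      rw [← card_eq_zero]
      omega
    exact C.defect_event hi (by omega) hD hu h3 (hQ i le_rfl)

/-- levels of maximal size, with a single element under `f 0 i` -/
lemma rone_caseBC (C : Ctx α) (h : ROne α a b) (hi : 1 ≤ i) (hib : i + 1 < b) (hia : a ≤ i + 1)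
    (hT : Top (Rct a b) i f) (hP : ∀ j < i, Perf α j) (hx0 : ∃ x : α, Pr x = {f 0 i}) :
    Perf α i ∧ ∃ f' : ℕ → ℕ → α, Top (Rct a b) (i + 1) f' := by
  have ha := h.ha
  have hab := h.hab
  have hH := h.hH
  obtain ⟨hQ, hE, hF, hPe, hup⟩ := rone_facts C h (i := i) (by omega) hT
  obtain ⟨hcl, hN3⟩ := C.R0 (i := i - 1) (by omega) (hP _ (by omega)) (hPe _ (by omega))
    (hQ _ (by omega))
  have hPL := rone_PL C ha (i := i) (b := b) (by omega) hT
  have hA := rone_AL C ha hi (by omega) hT hcl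
  have hn : min i (a - 1) = a - 1 := by omega
  rw [hn] at hPL hA
  have hu : ∀ v : α, corank v + 2 = i → (Ch v).card = 2 → (Ch2 v).card ≤ 3 :=
    fun v hv hv2 => hup v (by omega) hv2
  have c0 := hPL.sz_eq
  have c1 := C.sgl_pr (i := i) (by omega)
  have c2 := C.sgl_ch (i := i) (by omega)
  obtain ⟨x0, hx0⟩ := hx0
  have cf0 := hT.cor 0 i ⟨by omega, by omega⟩ (by omega)
  have hx0c : corank x0 = i + 1 := by
    have h2 : f 0 i ∈ Pr x0 := by rw [hx0]; simp
    rw [Gauss.mem_Pr] at h2
    rw [C.cork h2, cf0]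
    omega
  have hx0m : x0 ∈ ((lev α (i + 1)).filter fun x => (Pr x).card = 1) :=
    mem_filter.2 ⟨mem_lev.2 hx0c, by rw [hx0, card_singleton]⟩
  -- exactly one single element
  have hone : ((lev α (i + 1)).filter fun x => (Pr x).card = 1).card = 1 := by
    by_cases hia' : a = i + 1
    · have s2 := h.s2 (by omega)
      rw [hia'] at s2 c0
      omega
    · have s1 := h.s1 (i + 1) (by omega) hib
      have hall : ∀ x : α, corank x = i + 1 → (Pr x).card = 1 → Pr x = {f 0 i} := by
        intro x h1 h2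
        rcases rone_single C ha (by omega) hi hT (hPe _ (by omega)) h1 h2 with g | ⟨g, _⟩
        · exact g
        · omega
      have hle : ((lev α (i + 1)).filter fun x => (Pr x).card = 1).card ≤ 2 := by
        refine le_trans (card_le_card ?_) (C.ch_le (f 0 i))
        intro x hx
        rw [mem_filter, mem_lev] at hx
        rw [← mem_Pr_iff, hall x hx.1 hx.2, mem_singleton]
      by_contra hcon
      have h2c : ((lev α (i + 1)).filter fun x => (Pr x).card = 1).card = 2 := by omega
      obtain ⟨x1, x2, hne, hx⟩ := card_eq_two.1 h2c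
      have m1 : x1 ∈ ((lev α (i + 1)).filter fun x => (Pr x).card = 1) := by rw [hx]; simp
      have m2 : x2 ∈ ((lev α (i + 1)).filter fun x => (Pr x).card = 1) := by rw [hx]; simp
      rw [mem_filter, mem_lev] at m1 m2
      refine hPL.not_both C (by omega) (by omega) (by omega) hA hu hx hne
        (hall x1 m1.1 m1.2) (hall x2 m2.1 m2.2) ?_
      intro u hu
      rcases C.ch_cases (x := u) (by omega) with h3 | h3
      · exfalso
        have h4 : 0 < ((lev α i).filter fun x => (Ch x).card = 1).card :=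
          card_pos.2 ⟨u, mem_filter.2 ⟨mem_lev.2 hu, h3⟩⟩
        omega
      · exact h3
  have huniq : ∀ x' : α, corank x' = i + 1 → (Pr x').card = 1 → x' = x0 := fun x' h8 h9 =>
    card_le_one.1 hone.le x' (mem_filter.2 ⟨mem_lev.2 h8, h9⟩) x0 hx0m
  have h7 : ((lev α i).filter fun x => (Ch x).card = 1).card = 1 := by omega
  obtain ⟨S, hS⟩ := card_pos.1 (by omega : 0 < ((lev α i).filter fun x => (Ch x).card = 1).card)
  have hS0 := hS
  rw [mem_filter, mem_lev] at hS
  have hS' : ∀ S' : α, corank S' = i → (Ch S').card = 1 → S' = S := fun S' h8 h9 =>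
    card_le_one.1 h7.le S' (mem_filter.2 ⟨mem_lev.2 h8, h9⟩) S hS0
  have hperf : Perf α i := by
    rcases hPL.rev.one_one C (by omega) (by omega) (by omega) (x0 := x0) (S := S)
      (by simpa using hx0) huniq hS.1 hS.2 hS' with ⟨_, h8⟩ | ⟨_, k, hD⟩
    · exact h8
    · exfalso
      simp only [Nat.sub_zero] at hD
      exact rone_noDefect C h hi hib hia hT hP hS' hD
  refine ⟨hperf, rone_ext C ha hi hib (by omega) hT hperf ⟨x0, hx0⟩ (fun hc => by omega) ?_ ?_⟩
  · intro x hx1 hx2
    rw [huniq x hx1 hx2]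
    exact Or.inl hx0
  · intro x x' hx1 hx2 hx3
    obtain ⟨v, hv⟩ := card_eq_one.1 hx2
    have hv1 : v ∈ Pr x := by rw [hv]; simp
    have hv2 : v ∈ Pr x' := by rw [← hx3]; exact hv1
    have k1 := C.cork (Gauss.mem_Pr.1 hv1)
    have k2 := C.cork (Gauss.mem_Pr.1 hv2)
    rw [huniq x hx1 hx2, huniq x' (by omega) (by rw [← hx3]; exact hx2)]

end

/-- one step: level `i` is perfect and the coordinates extend -/
theorem rone_step (C : Ctx α) {a b i : ℕ} (h : ROne α a b) (hi : 1 ≤ i) (hib : i + 1 < b)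
    {f : ℕ → ℕ → α} (hT : Top (Rct a b) i f) (hP : ∀ j < i, Perf α j) :
    Perf α i ∧ ∃ f' : ℕ → ℕ → α, Top (Rct a b) (i + 1) f' := by
  have ha := h.ha
  have hab := h.hab
  have hH := h.hH
  by_cases hia : i + 1 < a
  · exact rone_caseA C h hi hia hT hP
  by_cases hx0 : ∃ x : α, Pr x = {f 0 i}
  · exact rone_caseBC C h hi hib (by omega) hT hP hx0
  obtain ⟨hQ, hE, hF, hPe, hup⟩ := rone_facts C h (i := i) (by omega) hT
  have hPL := rone_PL C ha (i := i) (b := b) (by omega) hT
  have c0 := hPL.sz_eq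
  have c1 := C.sgl_pr (i := i) (by omega)
  have s1 : a ≤ sz α (i + 1) := by
    exact h.s1 (i + 1) (by omega) hib
  obtain ⟨x, hx⟩ := card_pos.1 (by omega :
    0 < ((lev α (i + 1)).filter fun x => (Pr x).card = 1).card)
  rw [mem_filter, mem_lev] at hx
  rcases rone_single C ha (by omega) hi hT (hPe _ (by omega)) hx.1 hx.2 with g | ⟨hlt, g⟩
  · exact absurd ⟨x, g⟩ hx0
  · have hT' : Top (Rct a b) i (fun c d => f d c) := hT.swap.congr_region (by
      intro c d hcd
      unfold Rct
      omega)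
    exact rone_caseBC C h hi hib (by omega) hT' hP ⟨x, g⟩

end Pool.Gauss
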