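import Pool.Agent.Work.MP_065141_co.Rone2
import Pool.Agent.Work.MP_065141_co.RoneA

/-!
# Products of two chains: duality, the upper part, the middle level of a square
-/

set_option autoImplicit false
set_option linter.unusedSectionVars false
open scoped Classical
open Finset

namespace Pool.Gauss

variable {α : Type} [Fintype α] [PartialOrder α]

theorem ROne.dual (C : Ctx α) {a b : ℕ} (h : ROne α a b) : ROne αᵒᵈ a b where
  ha := h.ha
  hab := h.hab
  hH := by rw [C.HT_dual]; exact h.hH
  s0 l hl := by rw [C.sz_dual]; exact h.s0 l hl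
  s1 l h1 h2 := by rw [C.sz_dual]; exact h.s1 l h1 h2
  s2 h1 := by rw [C.sz_dual]; exact h.s2 h1
  s3 h1 := by rw [C.sz_dual]; exact h.s3 h1
  s4 l h1 h2 := by
    rw [C.HT_dual] at h2
    rw [C.sz_dual]
    exact h.s4 l h1 h2

lemma Ctx.perf_zero (C : Ctx α) : Perf α 0 := by
  intro s hs
  have h1 : ¬ s ⊆ lev α 0 := by
    intro hc
    have := card_le_card hc
    rw [C.one] at this
    omega
  rw [C.mC_zero h1, C.mD_zero h1]

/-- the upper part -/
theorem rone_top (C : Ctx α) {a b : ℕ} (h : ROne α a b) :
    (∀ j, j + 1 < b → Perf α j) ∧ ∃ f : ℕ → ℕ → α, Top (Rct a b) (b - 1) f := by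
  have ha := h.ha
  have hab := h.hab
  have key : ∀ n, n + 2 ≤ b → (∀ j < n + 1, Perf α j) ∧
      ∃ f : ℕ → ℕ → α, Top (Rct a b) (n + 1) f := by
    intro n
    induction n with
    | zero =>
      intro _
      refine ⟨?_, by simpa using rone_start C h⟩
      intro j hj
      have : j = 0 := by omega
      rw [this]
      exact C.perf_zero
    | succ n ih =>
      intro hn
      obtain ⟨h1, f, hT⟩ := ih (by omega)
      obtain ⟨h2, h3⟩ := rone_step C h (i := n + 1) (by omega) (by omega) hT h1
      refine ⟨?_, h3⟩
      intro j hj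
      rcases Nat.lt_succ_iff_lt_or_eq.1 hj with h4 | h4
      · exact h1 j h4
      · rw [h4]
        exact h2
  obtain ⟨h1, h2⟩ := key (b - 2) (by omega)
  rw [show b - 2 + 1 = b - 1 from by omega] at h1 h2
  exact ⟨fun j hj => h1 j (by omega), h2⟩

/-- a perfect level with the set `F` of pairs above and `P` of pairs below; one pair exchanged -/
lemma Ctx.exchange_meet (C : Ctx α) {i : ℕ} (hi0 : 0 < i) (hi : i < HT α) {e sp : Finset α}
    (he : e.card = 2) (hsp : sp.card = 2) (hel : e ⊆ lev α i) (hspl : sp ⊆ lev α i)
    (hne : e ≠ sp)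
    (hx : ∀ g : Finset α, g.card = 2 →
      mC i g + (if g = e then 1 else 0) = mD i g + (if g = sp then 1 else 0)) :
    ¬ Disjoint e sp := by
  intro hdis
  have h1 := C.E2 hi0 hi
  set S := (lev α i).powersetCard 2 with hS
  have heS : e ∈ S := mem_powersetCard.2 ⟨hel, he⟩
  have hspS : sp ∈ S := mem_powersetCard.2 ⟨hspl, hsp⟩
  have h2 : ∑ s ∈ S, ((mC i s : ℤ) - mD i s) ^ 2 = 2 := by
    have h3 : ∀ s ∈ S, ((mC i s : ℤ) - mD i s) ^ 2 =
        (if s = e then 1 else 0) + (if s = sp then 1 else 0) := by
      intro s hs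
      rw [hS, mem_powersetCard] at hs
      have h4 := hx s hs.2
      by_cases h5 : s = e
      · have h6 : s ≠ sp := fun h6 => hne (h5.symm.trans h6)
        rw [if_pos h5, if_neg h6] at h4 ⊢
        have : (mC i s : ℤ) - mD i s = -1 := by omega
        rw [this]
        norm_num
      · rw [if_neg h5] at h4 ⊢
        by_cases h6 : s = sp
        · rw [if_pos h6] at h4 ⊢
          have : (mC i s : ℤ) - mD i s = 1 := by omega
          rw [this]
          norm_num
        · rw [if_neg h6] at h4 ⊢
          have : (mC i s : ℤ) - mD i s = 0 := by omega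
          rw [this]
          norm_num
    rw [Finset.sum_congr rfl h3, Finset.sum_add_distrib, Finset.sum_ite_eq', Finset.sum_ite_eq',
      if_pos heS, if_pos hspS]
    norm_num
  have h3 : ∀ y ∈ lev α i, ((bC y : ℤ) - aD y) ^ 2 =
      (if y ∈ e then 1 else 0) + (if y ∈ sp then 1 else 0) := by
    intro y hy
    have hyc := mem_lev.1 hy
    have h4 : (bC y : ℤ) - aD y = (if y ∈ sp then 1 else 0) - (if y ∈ e then 1 else 0) := by
      rw [C.bC_sum hyc, C.aD_sum hyc]
      push_cast
      rw [← Finset.sum_sub_distrib]
      have h5 : ∀ g ∈ S.filter (fun g => y ∈ g), ((mC i g : ℤ) - mD i g) =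
          (if g = sp then 1 else 0) - (if g = e then 1 else 0) := by
        intro g hg
        rw [mem_filter, hS, mem_powersetCard] at hg
        have h6 := hx g hg.1.2
        split_ifs at h6 ⊢ <;> omega
      rw [Finset.sum_congr rfl h5, Finset.sum_sub_distrib, Finset.sum_ite_eq', Finset.sum_ite_eq']
      simp only [mem_filter, heS, hspS, true_and]
    have h7 : ¬ (y ∈ e ∧ y ∈ sp) := fun h8 => Finset.disjoint_left.1 hdis h8.1 h8.2
    rw [h4]
    by_cases h8 : y ∈ e
    · have h9 : y ∉ sp := fun h9 => h7 ⟨h8, h9⟩
      rw [if_pos h8, if_neg h9]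
      norm_num
    · rw [if_neg h8]
      by_cases h9 : y ∈ sp
      · rw [if_pos h9]
        norm_num
      · rw [if_neg h9]
        norm_num
  have h4 : ∑ y ∈ lev α i, ((bC y : ℤ) - aD y) ^ 2 = 4 := by
    rw [Finset.sum_congr rfl h3, Finset.sum_add_distrib]
    have h5 : ∀ g : Finset α, g ⊆ lev α i → g.card = 2 →
        ∑ y ∈ lev α i, (if y ∈ g then (1 : ℤ) else 0) = 2 := by
      intro g hg hg2
      rw [← Finset.sum_filter, Finset.sum_const, Finset.filter_mem_eq_inter,
        Finset.inter_eq_right.2 hg, hg2]
      norm_num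
    rw [h5 e hel he, h5 sp hspl hsp]
    norm_num
  rw [h2, h4] at h1
  norm_num at h1

/-- the middle level of a square -/
theorem rone_middle (C : Ctx α) {a : ℕ} (h : ROne α a a) : Perf α (a - 1) := by
  have ha := h.ha
  have hH := h.hH
  obtain ⟨hP, f, hT⟩ := rone_top C h
  obtain ⟨_, f', hT'⟩ := rone_top C.dual (h.dual C)
  obtain ⟨i, rfl⟩ : ∃ i, a = i + 1 := ⟨a - 1, by omega⟩
  simp only [Nat.add_sub_cancel] at hT hT' ⊢
  have hPL := rone_PL C ha (by omega) hT
  have hmin : min i (i + 1 - 1) = i := by omega
  rw [hmin] at hPL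
  set y : ℕ → α := fun j => f j (i - j) with hy
  -- injectivity of `Pr`
  have hinjD : ∀ z z' : αᵒᵈ, corank z + 1 = i → corank z' + 1 = i → Ch z = Ch z' → z = z' := by
    intro z z' hz hz' hzz
    obtain ⟨c, d, r, e, rfl⟩ := hT'.sur z (by omega)
    obtain ⟨c', d', r', e', rfl⟩ := hT'.sur z' (by omega)
    have q1 : Rct (i + 1) (i + 1) c (d + 1) := ⟨by omega, by omega⟩
    have q2 : Rct (i + 1) (i + 1) (c + 1) d := ⟨by omega, by omega⟩
    have q1' : Rct (i + 1) (i + 1) c' (d' + 1) := ⟨by omega, by omega⟩
    have q2' : Rct (i + 1) (i + 1) (c' + 1) d' := ⟨by omega, by omega⟩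
    have m1 : f' c (d + 1) ∈ Ch (f' c d) :=
      (hT'.mem_Ch C.dual r (by omega)).2 (Or.inr ⟨q1, rfl⟩)
    have m2 : f' (c + 1) d ∈ Ch (f' c d) :=
      (hT'.mem_Ch C.dual r (by omega)).2 (Or.inl ⟨q2, rfl⟩)
    rw [hzz, hT'.mem_Ch C.dual r' (by omega)] at m1 m2
    have hc : c = c' := by
      rcases m1 with ⟨_, m1⟩ | ⟨_, m1⟩
      · have k1 := hT'.inj _ _ _ _ q1 q2' (by omega) (by omega) m1
        rcases m2 with ⟨_, m2⟩ | ⟨_, m2⟩
        · have k2 := hT'.inj _ _ _ _ q2 q2' (by omega) (by omega) m2
          omega
        · have k2 := hT'.inj _ _ _ _ q2 q1' (by omega) (by omega) m2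
          omega
      · have k1 := hT'.inj _ _ _ _ q1 q1' (by omega) (by omega) m1
        omega
    have hd : d = d' := by omega
    rw [hc, hd]
  have hinj : ∀ x x' : α, corank x = i + 1 → corank x' = i + 1 → Pr x = Pr x' → x = x' := by
    intro x x' hx hx' hxx
    have e1 := C.corank_dual x
    have e2 := C.corank_dual x'
    have := hinjD (OrderDual.toDual x) (OrderDual.toDual x') (by omega) (by omega) (by
      ext w
      obtain ⟨w, rfl⟩ := OrderDual.toDual.surjective w
      rw [C.Ch_dual, C.Ch_dual, hxx])
    exact OrderDual.toDual.injective this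
  -- sizes
  have s1 : sz α i = i + 1 := h.s0 i (by omega)
  have s2 : sz α (i + 1) + 1 = i + 1 := h.s3 rfl
  have s3 : sz α 1 = 2 := h.s0 1 (by omega)
  have hsg := C.sgl_pr (i := i) (by omega)
  have hsg0 : ((lev α (i + 1)).filter fun x => (Pr x).card = 1).card = 0 := by omega
  rw [card_eq_zero, filter_eq_empty_iff] at hsg0
  have hdbl : ∀ x : α, corank x = i + 1 → (Pr x).card = 2 := by
    intro x hx
    rcases C.pr_cases (x := x) (by omega) with h1 | h1
    · exact absurd h1 (hsg0 (mem_lev.2 hx))
    · exact h1
  have hfa := rone_facts C h (i := i) (by omega) hT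
  obtain ⟨hQ, _, _, hPe, hup⟩ := hfa
  set F : Finset (Finset α) := (range i).image fun j => {y j, y (j + 1)} with hF
  set P : Finset (Finset α) := (lev α (i + 1)).image Pr with hPdef
  have hFc : F.card = i := by
    rw [hF, card_image_of_injOn, card_range]
    intro j hj j' hj' he
    rw [mem_coe, mem_range] at hj hj'
    exact (hPL.pair_inj (by omega) (by omega) (by omega) (by omega) he).1
  have hPc : P.card = i := by
    rw [hPdef, card_image_of_injOn]
    · have : (lev α (i + 1)).card = sz α (i + 1) := rfl
      omega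
    · intro x hx x' hx' he
      rw [mem_coe, mem_lev] at hx hx'
      exact hinj x x' hx hx' he
  have hmC : ∀ g : Finset α, mC i g = if g ∈ P then 1 else 0 := by
    intro g
    unfold mC
    split_ifs with hg
    · rw [hPdef, mem_image] at hg
      obtain ⟨x, hx, hxg⟩ := hg
      rw [card_eq_one]
      refine ⟨x, ?_⟩
      ext x'
      rw [mem_filter, mem_singleton]
      constructor
      · rintro ⟨h1, h2⟩
        exact hinj x' x (mem_lev.1 h1) (mem_lev.1 hx) (h2.trans hxg.symm)
      · rintro rfl
        exact ⟨hx, hxg⟩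
    · rw [card_eq_zero, filter_eq_empty_iff]
      intro x hx hxg
      exact hg (by rw [hPdef, mem_image]; exact ⟨x, hx, hxg⟩)
  have hmemF : ∀ j j', j < j' → j' ≤ i → (({y j, y j'} : Finset α) ∈ F ↔ j' = j + 1) := by
    intro j j' h1 h2
    rw [hF, mem_image]
    constructor
    · rintro ⟨l, hl, he⟩
      rw [mem_range] at hl
      have := hPL.pair_inj (by omega) (by omega) h1 h2 he
      omega
    · rintro rfl
      exact ⟨j, mem_range.2 (by omega), rfl⟩
  have hFl : ∀ g ∈ F, g ⊆ lev α i := by
    intro g hg
    rw [hF, mem_image] at hg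
    obtain ⟨j, hj, rfl⟩ := hg
    rw [mem_range] at hj
    intro x hx
    rw [mem_insert, mem_singleton] at hx
    rcases hx with rfl | rfl
    · exact mem_lev.2 (hPL.cor _ (by omega))
    · exact mem_lev.2 (hPL.cor _ (by omega))
  have hmD : ∀ g : Finset α, g.card = 2 → mD i g = if g ∈ F then 1 else 0 := by
    intro g hg
    by_cases hgl : g ⊆ lev α i
    · obtain ⟨j, j', h1, h2, rfl⟩ := hPL.pair hg hgl
      rw [hPL.mD j j' h1 h2]
      simp only [hmemF j j' h1 h2]
    · rw [C.mD_zero hgl, if_neg (fun hc => hgl (hFl g hc))]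
  by_cases hi1 : i = 1
  · -- two elements
    subst hi1
    have hPF : P ⊆ F := by
      intro g hg
      rw [hPdef, mem_image] at hg
      obtain ⟨x, hx, rfl⟩ := hg
      rw [mem_lev] at hx
      obtain ⟨j, j', h1, h2, h3⟩ := hPL.pair (hdbl x hx) (C.pr_sub hx)
      rw [h3, hmemF j j' h1 h2]
      omega
    have hPF' : P = F := eq_of_subset_of_card_le hPF (by omega)
    intro s hs
    rw [hmC, hmD s hs, hPF']
  · have hcl : Clean α (i - 1) := (C.R0 (i := i - 1) (by omega) (hP _ (by omega))
      (hPe _ (by omega)) (hQ _ (by omega))).1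
    set sp : Finset α := {y 0, y i} with hsp
    have hspc : sp.card = 2 := card_pair (hPL.ne (by omega) (by omega) (by omega))
    have hspF : sp ∉ F := by
      rw [hsp, hmemF 0 i (by omega) le_rfl]
      omega
    have hPs : P ⊆ insert sp F := by
      intro g hg
      rw [hPdef, mem_image] at hg
      obtain ⟨x, hx, rfl⟩ := hg
      rw [mem_lev] at hx
      rcases rone_allowed C ha (by omega) (by omega) hT hcl hx (hdbl x hx) with
        ⟨j, hj, h3⟩ | ⟨_, h3⟩
      · rw [mem_insert]
        right
        have h4 : Pr x = {y j, y (j + 1)} := h3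
        rw [h4, hmemF j (j + 1) (by omega) (by omega)]
      · rw [mem_insert]
        left
        rw [h3, hsp, hy]
        simp
    by_cases hspP : sp ∈ P
    · exfalso
      have e1 : P.erase sp ⊆ F := by
        intro g hg
        rw [mem_erase] at hg
        have := hPs hg.2
        rw [mem_insert] at this
        rcases this with h1 | h1
        · exact absurd h1 hg.1
        · exact h1
      have e2 : (P.erase sp).card = i - 1 := by
        rw [card_erase_of_mem hspP, hPc]
      have e3 : (F \ P.erase sp).card = 1 := by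
        rw [card_sdiff_of_subset e1, e2, hFc]
        omega
      obtain ⟨e, he⟩ := card_eq_one.1 e3
      have heF : e ∈ F ∧ e ∉ P := by
        have h1 : e ∈ F \ P.erase sp := by rw [he]; simp
        rw [mem_sdiff, mem_erase] at h1
        refine ⟨h1.1, fun h2 => h1.2 ⟨?_, h2⟩⟩
        rintro rfl
        exact hspF h1.1
      have hesp : e ≠ sp := fun h1 => hspF (h1 ▸ heF.1)
      have hex : ∀ g : Finset α, g.card = 2 →
          mC i g + (if g = e then 1 else 0) = mD i g + (if g = sp then 1 else 0) := by
        intro g hg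
        rw [hmC, hmD g hg]
        by_cases h1 : g = e
        · subst h1
          rw [if_neg heF.2, if_pos rfl, if_pos heF.1, if_neg hesp]
        · rw [if_neg h1]
          by_cases h2 : g = sp
          · subst h2
            rw [if_pos hspP, if_neg hspF, if_pos rfl]
          · rw [if_neg h2]
            congr 1
            by_cases h3 : g ∈ P
            · rw [if_pos h3, if_pos (e1 (mem_erase.2 ⟨h2, h3⟩))]
            · rw [if_neg h3, if_neg]
              intro h4
              have h5 : g ∈ F \ P.erase sp := by
                rw [mem_sdiff, mem_erase]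
                exact ⟨h4, fun h5 => h3 h5.2⟩
              rw [he, mem_singleton] at h5
              exact h1 h5
      obtain ⟨c, hc, hec⟩ : ∃ c < i, e = {y c, y (c + 1)} := by
        have := heF.1
        rw [hF, mem_image] at this
        obtain ⟨c, hc, hec⟩ := this
        exact ⟨c, mem_range.1 hc, hec.symm⟩
      have hecard : e.card = 2 := by
        rw [hec]
        exact card_pair (hPL.ne (by omega) (by omega) (by omega))
      have hspl : sp ⊆ lev α i := by
        intro x hx
        rw [hsp, mem_insert, mem_singleton] at hx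
        rcases hx with rfl | rfl
        · exact mem_lev.2 (hPL.cor _ (by omega))
        · exact mem_lev.2 (hPL.cor _ (by omega))
      have hmeet := C.exchange_meet (i := i) (by omega) (by omega) hecard hspc (hFl e heF.1) hspl
        hesp hex
      have hD : ∃ s t k : α, Defect i s t k := by
        rw [Finset.not_disjoint_iff] at hmeet
        obtain ⟨u, hu1, hu2⟩ := hmeet
        rw [hec, mem_insert, mem_singleton] at hu1
        rw [hsp, mem_insert, mem_singleton] at hu2
        have hcc : c = 0 ∨ c + 1 = i := by
          rcases hu1 with rfl | rfl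
          · rcases hu2 with h1 | h1
            · exact Or.inl (hPL.inj _ (by omega) _ (by omega) h1)
            · have := hPL.inj _ (by omega) _ (by omega) h1
              omega
          · rcases hu2 with h1 | h1
            · have := hPL.inj _ (by omega) _ (by omega) h1
              omega
            · exact Or.inr (hPL.inj _ (by omega) _ (by omega) h1)
        rcases hcc with rfl | hcc
        · refine ⟨y 1, y i, y 0, hPL.cor _ (by omega), hPL.cor _ (by omega),
            hPL.cor _ (by omega), hPL.ne (by omega) (by omega) (by omega),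
            hPL.ne (by omega) (by omega) (by omega), hPL.ne (by omega) (by omega) (by omega), ?_⟩
          intro g hg
          have h1 := hex g hg
          rw [hec, hsp] at h1
          rw [pair_comm (y 1), pair_comm (y i)]
          exact h1
        · refine ⟨y c, y 0, y i, hPL.cor _ (by omega), hPL.cor _ (by omega),
            hPL.cor _ (by omega), hPL.ne (by omega) (by omega) (by omega),
            hPL.ne (by omega) (by omega) (by omega), hPL.ne (by omega) (by omega) (by omega), ?_⟩
          intro g hg
          have h1 := hex g hg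
          rw [hec, hsp, hcc] at h1
          exact h1
      obtain ⟨s, t, k, hD⟩ := hD
      have hFF : FFv α i = ∅ := by
        rw [eq_empty_iff_forall_notMem]
        rintro ⟨p, q⟩ hpq
        rw [mem_FFv] at hpq
        obtain ⟨h1, h2, h3, h4, h5⟩ := hpq
        exact h3 (hinj p q h1 h2 h4)
      have hE1 := C.E1 (j := i) (by omega)
      rw [hFF, s3, card_empty] at hE1
      have hPi : PEv α i = ∅ := by
        rw [← card_eq_zero]
        omega
      obtain ⟨_, hRD⟩ := C.RD (by omega) (by omega) hD (fun v hv hv2 => hup v (by omega) hv2)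
      rw [hPi, hQ i le_rfl] at hRD
      simp at hRD
    · have hPF : P ⊆ F := by
        intro g hg
        have := hPs hg
        rw [mem_insert] at this
        rcases this with rfl | h1
        · exact absurd hg hspP
        · exact h1
      have hPF' : P = F := eq_of_subset_of_card_le hPF (by omega)
      intro s hs
      rw [hmC, hmD s hs, hPF']

end Pool.Gauss
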