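import Pool.Agent.Work.MP_065141_co.UOne
import Pool.Agent.Work.MP_065141_co.Dual

/-!
# Numbers of small filters
-/

set_option autoImplicit false
set_option linter.unusedSectionVars false
open scoped Classical
open Finset

namespace Pool.Gauss

variable {α : Type} [Fintype α] [PartialOrder α]

variable (α) in
/-- number of up-sets with `k` elements -/
noncomputable def FF (k : ℕ) : ℕ := ((upSets α).filter fun F => F.card = k).card

lemma one_sub_pow_of_sq {A : Type} [CommRing A] {u : A} (h : u * u = 0) (m : ℕ) :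
    (1 - u) ^ m = 1 - m * u := by
  induction m with
  | zero => simp
  | succ m ih =>
    rw [pow_succ, ih]
    push_cast
    linear_combination (m : A) * h

lemma prod_one_sub_of_nil {A : Type} [CommRing A] {z : A} {N a : ℕ} (hz : z ^ N = 0)
    (ha : N ≤ 2 * a) (m : ℕ → ℕ) (t : ℕ) :
    ∏ x ∈ range t, (1 - z ^ (a + x)) ^ m x = 1 - ∑ x ∈ range t, m x * z ^ (a + x) := by
  have h0 : ∀ i j, z ^ (a + i) * z ^ (a + j) = 0 := by
    intro i j
    rw [← pow_add]
    exact pow_eq_zero_of_le (by omega) hz
  induction t with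
  | zero => simp
  | succ t ih =>
    rw [prod_range_succ, sum_range_succ, ih, one_sub_pow_of_sq (h0 t t)]
    have h1 : (∑ x ∈ range t, (m x : A) * z ^ (a + x)) * z ^ (a + t) = 0 := by
      rw [sum_mul]
      apply sum_eq_zero
      intro x _
      rw [mul_assoc, h0, mul_zero]
    linear_combination (m t : A) * h1

/-- sizes of the levels from the numbers of small filters -/
theorem delta_formula (C : Ctx α) {r : ℕ} (hr : 1 ≤ r) (h1 : ∀ l < r, sz α l = 1)
    (h2 : sz α r = 2) {k : ℕ} (hk : r + 2 ≤ k) (hk' : k ≤ 2 * r + 3) :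
    (sz α (k - 1) : ℤ) - sz α (k - 2) =
      FF α k - FF α (k - 1) - FF α (k - r - 1) + FF α (k - r - 2) := by
  obtain ⟨t, ht1, ht2⟩ : ∃ t, HT α ≤ r + 1 + t ∧ r + 4 ≤ t := ⟨HT α + r + 4, by omega, by omega⟩
  have hU := U_one_levels C ht1
  set U : Polynomial ℤ := ∑ F ∈ upSets α, (Polynomial.X : Polynomial ℤ) ^ F.card with hUdef
  have e1 : ∀ a : ℕ, ∏ l ∈ range (r + 1 + t), (1 - (Polynomial.X : Polynomial ℤ) ^ (l + a)) ^
      sz α l = (∏ l ∈ range r, (1 - (Polynomial.X : Polynomial ℤ) ^ (l + a))) *
        (1 - Polynomial.X ^ (r + a)) ^ 2 *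
        ∏ x ∈ range t, (1 - Polynomial.X ^ (r + 1 + a + x)) ^ sz α (r + 1 + x) := by
    intro a
    rw [Finset.prod_range_add, Finset.prod_range_succ, h2]
    congr 1
    · congr 1
      apply Finset.prod_congr rfl
      intro l hl
      rw [mem_range] at hl
      rw [h1 l hl, pow_one]
    · apply Finset.prod_congr rfl
      intro x _
      have : r + 1 + x + a = r + 1 + a + x := by omega
      rw [this]
  rw [e1 1, e1 2] at hU
  have e2 : (∏ l ∈ range r, (1 - (Polynomial.X : Polynomial ℤ) ^ (l + 1))) *
      (1 - Polynomial.X ^ (r + 1)) =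
      (∏ l ∈ range r, (1 - (Polynomial.X : Polynomial ℤ) ^ (l + 2))) * (1 - Polynomial.X) := by
    have h3 := Finset.prod_range_succ'
      (fun l => (1 : Polynomial ℤ) - (Polynomial.X : Polynomial ℤ) ^ (l + 1)) r
    rw [Finset.prod_range_succ] at h3
    rw [h3]
    simp only [zero_add, pow_one]
  have hA : (∏ l ∈ range r, (1 - (Polynomial.X : Polynomial ℤ) ^ (l + 2))) ≠ 0 := by
    rw [Finset.prod_ne_zero_iff]
    intro l _ h0
    have := congrArg (Polynomial.eval 0) h0
    simp at this
  set A : Polynomial ℤ := ∏ l ∈ range r, (1 - (Polynomial.X : Polynomial ℤ) ^ (l + 2))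
  set B : Polynomial ℤ := ∏ l ∈ range r, (1 - (Polynomial.X : Polynomial ℤ) ^ (l + 1))
  set R1 : Polynomial ℤ := ∏ x ∈ range t, (1 - Polynomial.X ^ (r + 1 + 1 + x)) ^ sz α (r + 1 + x)
    with hR1
  set R2 : Polynomial ℤ := ∏ x ∈ range t, (1 - Polynomial.X ^ (r + 1 + 2 + x)) ^ sz α (r + 1 + x)
    with hR2
  have hG : (1 - Polynomial.X) * (1 - Polynomial.X ^ (r + 1)) * U * R1 =
      (1 - Polynomial.X ^ (r + 2)) ^ 2 * R2 := by
    apply mul_left_cancel₀ hA
    linear_combination hU - (U * R1 * (1 - Polynomial.X ^ (r + 1))) * e2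
  set G : Polynomial ℤ := (1 - Polynomial.X) * (1 - Polynomial.X ^ (r + 1)) * U with hGdef
  set S1 : Polynomial ℤ := ∑ x ∈ range t, (sz α (r + 1 + x) : Polynomial ℤ) *
    Polynomial.X ^ (r + 1 + 1 + x) with hS1
  set S2 : Polynomial ℤ := ∑ x ∈ range t, (sz α (r + 1 + x) : Polynomial ℤ) *
    Polynomial.X ^ (r + 1 + 2 + x) with hS2
  set I : Ideal (Polynomial ℤ) := Ideal.span {Polynomial.X ^ (2 * r + 4)} with hI
  set φ : Polynomial ℤ →+* Polynomial ℤ ⧸ I := Ideal.Quotient.mk I with hφ
  have h0 : (φ Polynomial.X) ^ (2 * r + 4) = 0 := by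
    rw [← map_pow, hφ, Ideal.Quotient.eq_zero_iff_mem, hI]
    exact Ideal.mem_span_singleton_self _
  have f1 : φ R1 = 1 - φ S1 := by
    rw [hR1, hS1, map_prod, map_sum]
    simp only [map_pow, map_sub, map_one, map_mul, map_natCast]
    exact prod_one_sub_of_nil h0 (by omega) _ t
  have f2 : φ R2 = 1 - φ S2 := by
    rw [hR2, hS2, map_prod, map_sum]
    simp only [map_pow, map_sub, map_one, map_mul, map_natCast]
    exact prod_one_sub_of_nil h0 (by omega) _ t
  have z1 : ∀ a b, 2 * r + 4 ≤ a + b → (φ Polynomial.X) ^ a * (φ Polynomial.X) ^ b = 0 := by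
    intro a b hab
    rw [← pow_add]
    exact pow_eq_zero_of_le hab h0
  have z8 : ∀ c : Polynomial ℤ ⧸ I, (∀ b, r + 2 ≤ b → (φ Polynomial.X) ^ b * c = 0) →
      φ S1 * c = 0 ∧ φ S2 * c = 0 := by
    intro c hc
    constructor
    · rw [hS1, map_sum, sum_mul]
      apply sum_eq_zero
      intro x _
      rw [map_mul, map_pow, mul_assoc, hc _ (by omega), mul_zero]
    · rw [hS2, map_sum, sum_mul]
      apply sum_eq_zero
      intro x _
      rw [map_mul, map_pow, mul_assoc, hc _ (by omega), mul_zero]
  have z2 : ∀ b, r + 2 ≤ b → φ S1 * (φ Polynomial.X) ^ b = 0 ∧ φ S2 * (φ Polynomial.X) ^ b = 0 :=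
    fun b hb => z8 _ (fun b' hb' => z1 _ _ (by omega))
  have z3 : φ S1 * φ S1 = 0 := (z8 (φ S1) (fun b hb => by rw [mul_comm]; exact (z2 b hb).1)).1
  have z4 : φ S1 * φ S2 = 0 := (z8 (φ S2) (fun b hb => by rw [mul_comm]; exact (z2 b hb).2)).1
  have z5 : φ S2 * (φ Polynomial.X) ^ (r + 2) = 0 := (z2 _ le_rfl).2
  have hG2 : φ G = φ (1 - 2 * Polynomial.X ^ (r + 2) - S2 + S1) := by
    have h3 : φ G * φ R1 = (1 - φ Polynomial.X ^ (r + 2)) ^ 2 * φ R2 := by
      rw [← map_mul, hG, map_mul, map_pow, map_sub, map_one, map_pow]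
    rw [f1, f2] at h3
    have z6 := z1 (r + 2) (r + 2) (by omega)
    have z7 := (z2 (r + 2) le_rfl).1
    have e9 : φ (1 - 2 * Polynomial.X ^ (r + 2) - S2 + S1) =
        1 - 2 * φ Polynomial.X ^ (r + 2) - φ S2 + φ S1 := by
      rw [map_add, map_sub, map_sub, map_one, map_mul, map_pow, map_ofNat]
    rw [e9]
    linear_combination (1 + φ S1) * h3 + (φ G) * z3 + (1 - φ S2) * (1 + φ S1) * z6 -
      2 * z7 + 2 * z5 + (2 * φ Polynomial.X ^ (r + 2) - 1) * z4
  rw [hφ, Ideal.Quotient.mk_eq_mk_iff_sub_mem, hI, Ideal.mem_span_singleton,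
    Polynomial.X_pow_dvd_iff] at hG2
  have h4 := hG2 k (by omega)
  rw [Polynomial.coeff_sub, sub_eq_zero] at h4
  -- left side
  have c1 : ∀ j, U.coeff j = (FF α j : ℤ) := by
    intro j
    rw [hUdef, coeff_gen]
    rfl
  have g1 : G = U - U * Polynomial.X - U * Polynomial.X ^ (r + 1) +
      U * Polynomial.X ^ (r + 2) := by
    rw [hGdef]
    ring
  have g2 : G.coeff k = FF α k - FF α (k - 1) - FF α (k - r - 1) + FF α (k - r - 2) := by
    rw [g1, Polynomial.coeff_add, Polynomial.coeff_sub, Polynomial.coeff_sub,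
      Polynomial.coeff_mul_X_pow', Polynomial.coeff_mul_X_pow', if_pos (by omega),
      if_pos (by omega)]
    have : k = (k - 1) + 1 := by omega
    have e3 : (U * Polynomial.X).coeff k = U.coeff (k - 1) := by
      conv_lhs => rw [this]
      rw [Polynomial.coeff_mul_X]
    rw [e3, c1, c1, c1, c1]
    have e4 : k - (r + 1) = k - r - 1 := by omega
    have e5 : k - (r + 2) = k - r - 2 := by omega
    rw [e4, e5]
  -- right side
  have s1 : S1.coeff k = sz α (k - 1) := by
    rw [hS1, Polynomial.finsetSum_coeff, Finset.sum_eq_single (k - (r + 2))]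
    · rw [Polynomial.coeff_mul_X_pow', if_pos (by omega)]
      have e3 : k - (r + 1 + 1 + (k - (r + 2))) = 0 := by omega
      have e4 : r + 1 + (k - (r + 2)) = k - 1 := by omega
      rw [e3, e4]
      simp
    · intro x _ hx
      rw [Polynomial.coeff_mul_X_pow']
      split_ifs with h5
      · rw [Polynomial.coeff_natCast_ite, if_neg (by omega), Nat.cast_zero]
      · rfl
    · intro h5
      rw [mem_range] at h5
      omega
  have s2 : (1 - 2 * Polynomial.X ^ (r + 2) - S2 : Polynomial ℤ).coeff k = -sz α (k - 2) := by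
    rw [Polynomial.coeff_sub, Polynomial.coeff_sub, Polynomial.coeff_one, if_neg (by omega)]
    have e3 : (2 * Polynomial.X ^ (r + 2) : Polynomial ℤ).coeff k = if k = r + 2 then 2 else 0 := by
      have : (2 * Polynomial.X ^ (r + 2) : Polynomial ℤ) =
          Polynomial.C 2 * Polynomial.X ^ (r + 2) := by
        simp
      rw [this, Polynomial.coeff_C_mul_X_pow]
    rw [e3]
    by_cases h5 : k = r + 2
    · rw [if_pos h5]
      have e4 : k - 2 = r := by omega
      rw [e4, h2, hS2, Polynomial.finsetSum_coeff, Finset.sum_eq_zero]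
      · norm_num
      · intro x _
        rw [Polynomial.coeff_mul_X_pow', if_neg (by omega)]
    · rw [if_neg h5, hS2, Polynomial.finsetSum_coeff, Finset.sum_eq_single (k - (r + 3))]
      · rw [Polynomial.coeff_mul_X_pow', if_pos (by omega)]
        have e5 : k - (r + 1 + 2 + (k - (r + 3))) = 0 := by omega
        have e6 : r + 1 + (k - (r + 3)) = k - 2 := by omega
        rw [e5, e6]
        simp
      · intro x _ hx
        rw [Polynomial.coeff_mul_X_pow']
        split_ifs with h6
        · rw [Polynomial.coeff_natCast_ite, if_neg (by omega), Nat.cast_zero]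
        · rfl
      · intro h6
        rw [mem_range] at h6
        omega
  rw [Polynomial.coeff_add, s1, s2, g2] at h4
  linarith

/-- a principal filter meets all levels above -/
lemma corank_lt_us (x : α) : corank x < us x := by
  have h1 : ∀ l ∈ range (corank x + 1), ∃ y, x ≤ y ∧ corank y = l := by
    intro l hl
    rw [mem_range] at hl
    rcases Nat.lt_or_ge l (corank x) with h | h
    · obtain ⟨y, hy, hy'⟩ := exists_gt_corank h
      exact ⟨y, le_of_lt hy, hy'⟩
    · exact ⟨x, le_rfl, by omega⟩
  have : Nonempty α := ⟨x⟩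
  choose! f hf using h1
  have h2 : (range (corank x + 1)).card ≤ us x := by
    unfold us
    apply Finset.card_le_card_of_injOn f
    · intro l hl
      rw [mem_coe, mem_filter]
      exact ⟨mem_univ _, (hf l hl).1⟩
    · intro l hl l' hl' h
      have e1 := (hf l hl).2
      have e2 := (hf l' hl').2
      rw [h] at e1
      omega
  rw [card_range] at h2
  omega

/-- the elements of corank less than `k` -/
noncomputable def tops (α : Type) [Fintype α] [PartialOrder α] (k : ℕ) : Finset α :=
  univ.filter fun x => corank x < k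

lemma mem_tops {k : ℕ} {x : α} : x ∈ tops α k ↔ corank x < k := by
  unfold tops
  rw [mem_filter]
  exact ⟨fun h => h.2, fun h => ⟨mem_univ _, h⟩⟩

lemma card_tops {r : ℕ} (h1 : ∀ l < r, sz α l = 1) {k : ℕ} (hk : k ≤ r) :
    (tops α k).card = k := by
  induction k with
  | zero =>
    rw [card_eq_zero]
    ext x
    rw [mem_tops]
    simp
  | succ k ih =>
    have e : tops α (k + 1) = tops α k ∪ lev α k := by
      ext x
      rw [mem_union, mem_tops, mem_tops, mem_lev]
      omega
    rw [e, card_union_of_disjoint, ih (by omega)]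
    · have := h1 k (by omega)
      unfold sz at this
      rw [this]
    · rw [Finset.disjoint_left]
      intro x h2 h3
      rw [mem_tops] at h2
      rw [mem_lev] at h3
      omega

lemma tops_upSet (k : ℕ) : tops α k ∈ upSets α := by
  rw [mem_upSets]
  intro x hx y hxy
  rw [mem_tops] at hx ⊢
  have := corank_anti hxy
  omega

/-- filters inside the top chain -/
theorem FF_le (C : Ctx α) {r : ℕ} (hr : 1 ≤ r) (hrH : r ≤ HT α) (h1 : ∀ l < r, sz α l = 1)
    {k : ℕ} (hk : k < r) : FF α k = 1 := by
  unfold FF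
  rw [card_eq_one]
  refine ⟨tops α k, ?_⟩
  ext F
  rw [mem_filter, mem_singleton]
  constructor
  · rintro ⟨h2, h3⟩
    apply eq_of_subset_of_card_le
    · intro x hx
      rw [mem_tops]
      have h4 := us_le_card h2 hx
      have h5 := corank_lt_us x
      omega
    · rw [card_tops h1 hk.le, h3]
  · rintro rfl
    exact ⟨tops_upSet k, card_tops h1 hk.le⟩

/-- filters with few elements: `φ` lists the elements of coranks `≥ r` with small principal
filter, `par` their upper covers (`∅` in level `r`) -/
theorem FF_eq (C : Ctx α) {r n K : ℕ} (hr : 1 ≤ r) (hrH : r ≤ HT α) (h1 : ∀ l < r, sz α l = 1)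
    (φ : Fin n → α) (hφ : Function.Injective φ) (par : Fin n → Finset (Fin n))
    (hcor : ∀ i, r ≤ corank (φ i))
    (hpar : ∀ i, r < corank (φ i) → Pr (φ i) = (par i).image φ)
    (hpar0 : ∀ i, corank (φ i) = r → par i = ∅)
    (hK : ∀ x : α, r ≤ corank x → (∀ i, φ i ≠ x) → K < us x) {k : ℕ} (hk : r ≤ k) (hkK : k ≤ K) :
    FF α k = ((univ : Finset (Finset (Fin n))).filter fun T =>
      T.card = k - r ∧ ∀ i ∈ T, par i ⊆ T).card := by
  have hdisj : ∀ T : Finset (Fin n), Disjoint (tops α r) (T.image φ) := by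
    intro T
    rw [Finset.disjoint_left]
    intro x h2 h3
    rw [mem_tops] at h2
    obtain ⟨i, _, rfl⟩ := mem_image.1 h3
    have := hcor i
    omega
  unfold FF
  symm
  refine Finset.card_bij (fun T _ => tops α r ∪ T.image φ) ?_ ?_ ?_
  · intro T hT
    rw [mem_filter] at hT
    rw [mem_filter]
    refine ⟨?_, ?_⟩
    · rw [mem_upSets]
      have key : ∀ m : ℕ, ∀ x ∈ tops α r ∪ T.image φ, corank x = m → ∀ y, x ≤ y →
          y ∈ tops α r ∪ T.image φ := by
        intro m
        induction m using Nat.strong_induction_on with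
        | _ m ih =>
        intro x hx hm y hxy
        by_cases h2 : corank x < r
        · have := corank_anti hxy
          rw [mem_union, mem_tops]
          left
          omega
        · rw [mem_union, mem_tops] at hx
          rcases hx with hx | hx
          · exact absurd hx h2
          obtain ⟨i, hi, rfl⟩ := mem_image.1 hx
          rcases eq_or_lt_of_le hxy with h3 | h3
          · rw [← h3, mem_union]
            exact Or.inr hx
          · obtain ⟨z, hz, hzy⟩ := exists_covBy_of_lt h3
            have h4 := C.cork hz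
            by_cases h5 : corank (φ i) = r
            · exact ih (corank z) (by omega) z (by rw [mem_union, mem_tops]; left; omega) rfl y hzy
            · have h6 := hcor i
              have h7 := hpar i (by omega)
              have h8 : z ∈ (par i).image φ := by
                rw [← h7, Pool.Gauss.mem_Pr]
                exact hz
              obtain ⟨j, hj, rfl⟩ := mem_image.1 h8
              exact ih _ (by omega) (φ j)
                (by rw [mem_union]; exact Or.inr (mem_image_of_mem φ (hT.2.2 i hi hj))) rfl y hzy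
      intro x hx y hxy
      exact key _ x hx rfl y hxy
    · rw [card_union_of_disjoint (hdisj T), card_tops h1 le_rfl, card_image_of_injective _ hφ,
        hT.2.1]
      omega
  · intro T hT T' hT' h
    ext i
    have h2 : ∀ S : Finset (Fin n), i ∈ S ↔ φ i ∈ tops α r ∪ S.image φ := by
      intro S
      rw [mem_union, mem_tops]
      constructor
      · intro h3
        exact Or.inr (mem_image_of_mem φ h3)
      · rintro (h3 | h3)
        · have := hcor i
          omega
        · obtain ⟨j, hj, hj'⟩ := mem_image.1 h3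
          rwa [← hφ hj']
    rw [h2 T, h2 T', h]
  · intro F hF
    rw [mem_filter] at hF
    obtain ⟨hF1, hF2⟩ := hF
    have h2 : tops α r ⊆ F := by
      by_cases h3 : ∃ x ∈ F, r ≤ corank x
      · obtain ⟨x, hx, h4⟩ := h3
        intro y hy
        rw [mem_tops] at hy
        obtain ⟨z, hz, hz'⟩ := exists_gt_corank (x := x) (n := corank y) (by omega)
        have h5 := h1 (corank y) hy
        unfold sz at h5
        have h6 : y = z := card_le_one.1 h5.le y (mem_lev.2 rfl) z (mem_lev.2 hz')
        rw [h6]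
        exact mem_upSets.1 hF1 x hx z (le_of_lt hz)
      · push Not at h3
        have h4 : F ⊆ tops α r := fun x hx => mem_tops.2 (h3 x hx)
        have h5 : F = tops α r := by
          apply eq_of_subset_of_card_le h4
          rw [card_tops h1 le_rfl, hF2]
          exact hk
        rw [h5]
    have h3 : ∀ x ∈ F, r ≤ corank x → ∃ i, φ i = x := by
      intro x hx h4
      by_contra h5
      push Not at h5
      have h6 := hK x h4 h5
      have h7 := us_le_card hF1 hx
      omega
    have h4 : tops α r ∪ (univ.filter fun i => φ i ∈ F).image φ = F := by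
      ext x
      rw [mem_union, mem_image]
      constructor
      · rintro (h5 | ⟨i, hi, rfl⟩)
        · exact h2 h5
        · exact (mem_filter.1 hi).2
      · intro hx
        rcases Nat.lt_or_ge (corank x) r with h5 | h5
        · exact Or.inl (mem_tops.2 h5)
        · obtain ⟨i, rfl⟩ := h3 x hx h5
          exact Or.inr ⟨i, mem_filter.2 ⟨mem_univ _, hx⟩, rfl⟩
    refine ⟨univ.filter fun i => φ i ∈ F, ?_, h4⟩
    rw [mem_filter]
    refine ⟨mem_univ _, ?_, ?_⟩
    · have h5 := congrArg Finset.card h4
      rw [card_union_of_disjoint (hdisj _), card_tops h1 le_rfl, card_image_of_injective _ hφ,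
        hF2] at h5
      omega
    · intro i hi j hj
      rw [mem_filter] at hi ⊢
      refine ⟨mem_univ _, ?_⟩
      have h6 := hcor i
      rcases Nat.lt_or_ge r (corank (φ i)) with h5 | h5
      · have h7 : φ j ∈ Pr (φ i) := by
          rw [hpar i h5]
          exact mem_image_of_mem φ hj
        rw [Pool.Gauss.mem_Pr] at h7
        exact mem_upSets.1 hF1 _ hi.2 _ h7.le
      · rw [hpar0 i (by omega)] at hj
        exact absurd hj (notMem_empty _)

end Pool.Gauss
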