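import Pool.Agent.Work.MP_065141_co.Rtwo1
import Pool.Agent.Work.MP_065141_co.Path
import Pool.Agent.Work.MP_065141_co.Dual
import Pool.Agent.Work.MP_065141_co.Models

/-!
# At least three levels of size one: the top levels
-/

set_option autoImplicit false
set_option linter.unusedSectionVars false
open scoped Classical
open Finset

namespace Pool.Gauss

variable {α : Type} [Fintype α] [PartialOrder α]

/-- the top levels `0, ..., r + 2` -/
structure R3 (r : ℕ) (s : ℕ → α) (a b c d e g : α) : Prop where
  hr : 3 ≤ r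
  hH : r + 2 < HT α
  s_cor : ∀ l < r, corank (s l) = l
  s_unq : ∀ x : α, corank x < r → x = s (corank x)
  s_pr : ∀ l, l + 1 < r → Pr (s (l + 1)) = {s l}
  ab : a ≠ b
  Pa : Pr a = {s (r - 1)}
  Pb : Pr b = {s (r - 1)}
  La : ∀ x : α, corank x = r → x = a ∨ x = b
  Pc : Pr c = {a, b}
  Pd : Pr d = {a}
  Lc : ∀ x : α, corank x = r + 1 → x = c ∨ x = d
  Pe : Pr e = {c, d}
  Pg : Pr g = {c}
  Le : ∀ x : α, corank x = r + 2 → x = e ∨ x = g

/-- the sizes grow slowly -/
theorem rthree_sz_le (C : Ctx α) {r : ℕ} (hr : 1 ≤ r) (hrH : r ≤ HT α)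
    (h1 : ∀ l < r, sz α l = 1) (l : ℕ) : sz α l ≤ l / r + 1 := by
  have key : ∀ e, 2 * e + 1 ≤ HT α → sz α e ≤ e / r + 1 := by
    intro e
    induction e using Nat.strong_induction_on with
    | _ e ih =>
      intro he
      rcases Nat.lt_or_ge e r with h2 | h2
      · rw [h1 e h2]
        exact Nat.le_add_left 1 _
      · have h3 := C.sz_subadd (e := e) (c := r - 1) (by omega) he
        have h4 := ih (e - 1 - (r - 1)) (by omega) (by omega)
        rw [h1 (r - 1) (by omega)] at h3
        have h5 : e / r = (e - 1 - (r - 1)) / r + 1 := by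
          rw [← Nat.add_div_right _ (by omega)]
          congr 1
          omega
        omega
  rcases Nat.lt_or_ge l (HT α) with h2 | h2
  · rcases Nat.lt_or_ge (HT α) (2 * l + 1) with h3 | h3
    · have h4 := C.sz_palin (j := l) h2
      have h5 := key (HT α - 1 - l) (by omega)
      have h6 : (HT α - 1 - l) / r ≤ l / r := Nat.div_le_div_right (by omega)
      omega
    · exact key l h3
  · rw [sz_eq_zero h2]
    exact Nat.zero_le _

lemma Ctx.cor_Pr (C : Ctx α) {x y : α} (h : y ∈ Pr x) : corank x = corank y + 1 :=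
  C.cork (Gauss.mem_Pr.1 h)

/-- a level of size two: one double element below -/
lemma Ctx.one_double (C : Ctx α) {i : ℕ} (hi : i < HT α) (h : sz α i = 2) :
    ∃ u : α, corank u = i + 1 ∧ (Pr u).card = 2 ∧
      ∀ x : α, corank x = i + 1 → (Pr x).card = 2 → x = u := by
  have h1 := C.dbl_pr hi
  rw [h] at h1
  obtain ⟨u, hu⟩ := card_eq_one.1 (by omega :
    ((lev α (i + 1)).filter fun x => (Pr x).card = 2).card = 1)
  have hm : u ∈ (lev α (i + 1)).filter fun x => (Pr x).card = 2 := by rw [hu]; simp
  rw [mem_filter, mem_lev] at hm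
  refine ⟨u, hm.1, hm.2, fun x hx hx2 => ?_⟩
  have : x ∈ (lev α (i + 1)).filter fun x => (Pr x).card = 2 := mem_filter.2 ⟨mem_lev.2 hx, hx2⟩
  rwa [hu, mem_singleton] at this

lemma FFv_empty {j : ℕ} {u : α} (h : ∀ x : α, corank x = j + 1 → (Pr x).card = 2 → x = u) :
    FFv α j = ∅ := by
  rw [eq_empty_iff_forall_notMem]
  intro p hp
  rw [mem_FFv] at hp
  obtain ⟨h2, h3, h4, h5, h6⟩ := hp
  apply h4
  rw [h _ h2 h6, h _ h3 (by rw [← h5]; exact h6)]

lemma Ctx.E1_zero (C : Ctx α) (h : sz α 1 = 1) {j : ℕ} (hj : j + 1 < HT α) (hF : FFv α j = ∅) :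
    (QEv α (j + 1)).card + (PEv α j).card + (EEv α j).card = 1 := by
  have h1 := C.E1 hj
  rw [h, hF, card_empty] at h1
  omega

/-- sizes `1^r, 2, 1^r` -/
theorem rthree_small (C : Ctx α) {r : ℕ} (hr : 2 ≤ r) (h1 : ∀ l < r, sz α l = 1)
    (h2 : sz α r = 2) (h3 : sz α (r + 1) = 1) :
    ∃ q : ℕ, Nonempty (α ≃o (Fin q ⊕ₗ ((Fin 2 × Fin 2) ⊕ₗ Fin q))) := by
  have hrH : r < HT α := by
    by_contra hcon
    rw [sz_eq_zero (by omega)] at h2
    omega
  have hH : HT α = 2 * r + 1 := by
    have h4 : HT α < 2 * r + 2 := by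
      by_contra hcon
      have := C.sz_unimodal (e := r) (c := r + 1) (by omega) (by omega)
      omega
    have h5 := C.sz_palin hrH
    rw [h2] at h5
    rcases Nat.lt_or_ge (HT α - 1 - r) r with h6 | h6
    · rw [h1 _ h6] at h5
      omega
    · omega
  have hs : ∀ l, sz α l = if l = r then 2 else if l ≤ 2 * r then 1 else 0 := by
    intro l
    split_ifs with h4 h5
    · rw [h4, h2]
    · rcases Nat.lt_or_ge l r with h6 | h6
      · exact h1 l h6
      · have h7 := C.sz_palin (j := l) (by omega)
        rw [h1 (HT α - 1 - l) (by omega)] at h7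
        exact h7.symm
    · exact sz_eq_zero (by omega)
  -- consecutive levels are completely joined
  have hcov : ∀ x y : α, corank x = corank y + 1 → x ⋖ y := by
    intro x y hxy
    by_cases hy : corank y = r
    · obtain ⟨u, hu, hu2, huu⟩ := C.one_double hrH h2
      have hxu : x = u := by
        have h4 : (lev α (r + 1)).card = 1 := h3
        exact card_le_one.1 h4.le x (mem_lev.2 (by omega)) u (mem_lev.2 hu)
      subst hxu
      have h5 : Pr x = lev α r := by
        apply eq_of_subset_of_card_le (C.pr_sub hu)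
        have h6 : (lev α r).card = 2 := h2
        omega
      rw [← Gauss.mem_Pr, h5, mem_lev]
      exact hy
    · apply C.covBy_of_sz (j := corank y) _ hxy rfl
      rw [hs, if_neg hy, if_pos]
      have := corank_lt_HT x
      omega
  have hlt : ∀ x y : α, x < y ↔ corank y < corank x := by
    intro x y
    constructor
    · exact corank_lt
    · intro h4
      have key : ∀ n : ℕ, ∀ x : α, corank x = corank y + n + 1 → x < y := by
        intro n
        induction n with
        | zero => exact fun x hx => (hcov x y (by omega)).lt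
        | succ n ih =>
          intro x hx
          obtain ⟨z, hz⟩ := card_pos.1 (C.pr_pos (x := x) (by omega))
          have h5 := C.cor_Pr hz
          exact (Gauss.mem_Pr.1 hz).lt.trans (ih z (by omega))
      exact key (corank x - corank y - 1) x (by omega)
  refine ⟨r - 1, modelChainSquare (r - 1) hlt ?_⟩
  intro v
  have h4 := hs v
  unfold sz at h4
  rw [h4, show r - 1 + 1 = r from by omega, show 2 * (r - 1) + 2 = 2 * r from by omega]

/-- the top levels -/
theorem rthree_start (C : Ctx α) {r : ℕ} (hr : 3 ≤ r) (h1 : ∀ l < r, sz α l = 1)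
    (h2 : sz α r = 2) (h3 : sz α (r + 1) = 2) :
    ∃ (s : ℕ → α) (a b c d e g : α), R3 r s a b c d e g := by
  have hH1 : r + 1 < HT α := by
    by_contra hcon
    rw [sz_eq_zero (by omega)] at h3
    omega
  have hH : r + 2 < HT α := by
    by_contra hcon
    have h4 := C.sz_palin (j := r + 1) hH1
    rw [h3, h1 _ (by omega)] at h4
    omega
  haveI := C.nonempty
  obtain ⟨s, hs⟩ : ∃ s : ℕ → α, ∀ l < r, corank (s l) = l := by
    refine ⟨fun l => if h : ∃ x : α, corank x = l then Classical.choose h else
      Classical.arbitrary α, fun l hl => ?_⟩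
    have h4 := C.exists_lev (i := l) (by omega)
    simp only
    rw [dif_pos h4]
    exact Classical.choose_spec h4
  have hsu : ∀ x : α, corank x < r → x = s (corank x) := by
    intro x hx
    have h4 : (lev α (corank x)).card = 1 := h1 _ hx
    exact card_le_one.1 h4.le x (mem_lev.2 rfl) _ (mem_lev.2 (hs _ hx))
  have hPs : ∀ x : α, 0 < corank x → corank x ≤ r → Pr x = {s (corank x - 1)} := by
    intro x hx0 hx
    obtain ⟨z, hz⟩ := card_pos.1 (C.pr_pos (x := x) hx0)
    rw [eq_singleton_iff_unique_mem]
    have key : ∀ z ∈ Pr x, z = s (corank x - 1) := by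
      intro z hz
      have h4 := C.cor_Pr hz
      have h5 := hsu z (by omega)
      rw [h5]
      congr 1
      omega
    exact ⟨by rw [← key z hz]; exact hz, key⟩
  -- level r + 1
  obtain ⟨c, hc, hc2, hcu⟩ := C.one_double (i := r) (by omega) h2
  have hlc : (lev α (r + 1)).card = 2 := h3
  obtain ⟨d, hd, hdc⟩ : ∃ d : α, corank d = r + 1 ∧ d ≠ c := by
    obtain ⟨d, hd, hne⟩ := Finset.exists_mem_ne (by omega : 1 < (lev α (r + 1)).card) c
    exact ⟨d, mem_lev.1 hd, hne⟩
  have hLc : ∀ x : α, corank x = r + 1 → x = c ∨ x = d := by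
    intro x hx
    by_contra hcon
    push Not at hcon
    have h4 : ({x, c, d} : Finset α) ⊆ lev α (r + 1) := by
      intro z hz
      simp only [mem_insert, mem_singleton] at hz
      rcases hz with rfl | rfl | rfl
      · exact mem_lev.2 hx
      · exact mem_lev.2 hc
      · exact mem_lev.2 hd
    have h5 := card_le_card h4
    rw [card_eq_three.2 ⟨x, c, d, hcon.1, hcon.2, hdc.symm, rfl⟩] at h5
    omega
  have hd1 : (Pr d).card = 1 := by
    rcases C.pr_cases (x := d) (by omega) with h4 | h4
    · exact h4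
    · exact absurd (hcu d hd h4) hdc
  obtain ⟨a, ha⟩ := card_eq_one.1 hd1
  have hac : corank a = r := by
    have := C.cor_Pr (x := d) (y := a) (by rw [ha]; simp)
    omega
  have hla : (lev α r).card = 2 := h2
  have hPc : Pr c = lev α r :=
    eq_of_subset_of_card_le (C.pr_sub hc) (by omega)
  obtain ⟨b, hb, hba⟩ : ∃ b : α, corank b = r ∧ b ≠ a := by
    obtain ⟨b, hb, hne⟩ := Finset.exists_mem_ne (by omega : 1 < (lev α r).card) a
    exact ⟨b, mem_lev.1 hb, hne⟩
  have hLa' : lev α r = {a, b} := by
    symm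
    apply eq_of_subset_of_card_le
    · intro z hz
      rw [mem_insert, mem_singleton] at hz
      rcases hz with rfl | rfl
      · exact mem_lev.2 hac
      · exact mem_lev.2 hb
    · rw [card_pair hba.symm]
      omega
  have hLa : ∀ x : α, corank x = r → x = a ∨ x = b := by
    intro x hx
    have : x ∈ lev α r := mem_lev.2 hx
    rw [hLa', mem_insert, mem_singleton] at this
    exact this
  rw [hLa'] at hPc
  -- level r + 2
  obtain ⟨e, he, he2, heu⟩ := C.one_double (i := r + 1) (by omega) h3
  have hPe : Pr e = {c, d} := by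
    apply eq_of_subset_of_card_le
    · intro z hz
      have := C.cor_Pr hz
      rw [mem_insert, mem_singleton]
      exact hLc z (by omega)
    · rw [he2, card_pair hdc.symm]
  have hF : FFv α r = ∅ := FFv_empty hcu
  have hQ : QEv α (r + 1) = ∅ := by
    rw [eq_empty_iff_forall_notMem]
    intro v hv
    rw [mem_QEv] at hv
    obtain ⟨h4, h5, _⟩ := hv
    have hv' := hsu v (by omega)
    have h6 : ({a, b} : Finset α) ⊆ Ch v := by
      intro z hz
      rw [← mem_Pr_iff]
      have hz' : corank z = r := by
        rw [mem_insert, mem_singleton] at hz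
        rcases hz with rfl | rfl
        · exact hac
        · exact hb
      rw [hPs z (by omega) (by omega), mem_singleton, hv']
      congr 1
      omega
    have h7 := card_le_card h6
    rw [card_pair hba.symm] at h7
    omega
  have hE : EEv α r = ∅ := by
    rw [eq_empty_iff_forall_notMem]
    intro x hx
    rw [mem_EEv] at hx
    obtain ⟨h4, h5, h6⟩ := hx
    rcases hLc x h4 with rfl | rfl
    · omega
    · have h7 := h6 a (by rw [ha]; simp)
      have h8 : ({c, x} : Finset α) ⊆ Ch a := by
        intro z hz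
        rw [← mem_Pr_iff]
        rw [mem_insert, mem_singleton] at hz
        rcases hz with rfl | rfl
        · rw [hPc]; simp
        · rw [ha]; simp
      have h9 := card_le_card h8
      rw [card_pair hdc.symm] at h9
      omega
  have hP := C.E1_zero (h1 1 (by omega)) (j := r) (by omega) hF
  rw [hQ, hE, card_empty] at hP
  obtain ⟨g, hg⟩ := card_eq_one.1 (by omega : (PEv α r).card = 1)
  have hgm : g ∈ PEv α r := by rw [hg]; simp
  rw [mem_PEv] at hgm
  obtain ⟨hgc, hg1, hg2⟩ := hgm
  obtain ⟨y, hy⟩ := card_eq_one.1 hg1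
  have hyc : corank y = r + 1 := by
    have := C.cor_Pr (x := g) (y := y) (by rw [hy]; simp)
    omega
  rw [Pr2_of_single hy] at hg2
  have hyc2 := hcu y hyc hg2
  subst hyc2
  have hge : g ≠ e := by
    rintro rfl
    omega
  have hszr : sz α (r + 2) ≤ 2 := by
    have h4 := rthree_sz_le C (r := r) (by omega) (by omega) h1 (r + 2)
    have h5 : (r + 2) / r = 1 := by
      rw [Nat.div_eq_iff (by omega)]
      omega
    omega
  refine ⟨s, a, b, y, d, e, g, hr, hH, hs, hsu, ?_, hba.symm, ?_, ?_, hLa, hPc, ha, hLc, hPe, hy,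
    ?_⟩
  · intro l hl
    rw [hPs (s (l + 1)) (by rw [hs _ hl]; omega) (by rw [hs _ hl]; omega), hs _ hl]
    congr 1
  · rw [hPs a (by omega) (by omega), hac]
  · rw [hPs b (by omega) (by omega), hb]
  · intro x hx
    by_contra hcon
    push Not at hcon
    have h4 : ({x, e, g} : Finset α) ⊆ lev α (r + 2) := by
      intro z hz
      simp only [mem_insert, mem_singleton] at hz
      rcases hz with rfl | rfl | rfl
      · exact mem_lev.2 hx
      · exact mem_lev.2 he
      · exact mem_lev.2 hgc
    have h5 := card_le_card h4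
    rw [card_eq_three.2 ⟨x, e, g, hcon.1, hcon.2, hge.symm, rfl⟩] at h5
    unfold sz at hszr
    omega

namespace R3

variable {r : ℕ} {s : ℕ → α} {a b c d e g : α}

lemma corA (C : Ctx α) (hR : R3 r s a b c d e g) : corank a = r := by
  have := C.cor_Pr (x := a) (y := s (r - 1)) (by rw [hR.Pa]; simp)
  have := hR.s_cor (r - 1) (by have := hR.hr; omega)
  have := hR.hr
  omega

lemma corB (C : Ctx α) (hR : R3 r s a b c d e g) : corank b = r := by
  have := C.cor_Pr (x := b) (y := s (r - 1)) (by rw [hR.Pb]; simp)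
  have := hR.s_cor (r - 1) (by have := hR.hr; omega)
  have := hR.hr
  omega

lemma corC (C : Ctx α) (hR : R3 r s a b c d e g) : corank c = r + 1 := by
  have := C.cor_Pr (x := c) (y := a) (by rw [hR.Pc]; simp)
  have := hR.corA C
  omega

lemma corD (C : Ctx α) (hR : R3 r s a b c d e g) : corank d = r + 1 := by
  have := C.cor_Pr (x := d) (y := a) (by rw [hR.Pd]; simp)
  have := hR.corA C
  omega

lemma corE (C : Ctx α) (hR : R3 r s a b c d e g) : corank e = r + 2 := by
  have := C.cor_Pr (x := e) (y := c) (by rw [hR.Pe]; simp)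
  have := hR.corC C
  omega

lemma corG (C : Ctx α) (hR : R3 r s a b c d e g) : corank g = r + 2 := by
  have := C.cor_Pr (x := g) (y := c) (by rw [hR.Pg]; simp)
  have := hR.corC C
  omega

lemma cd (hR : R3 r s a b c d e g) : c ≠ d := by
  intro h
  have h1 := hR.Pc
  rw [h, hR.Pd] at h1
  have h2 := congrArg card h1
  rw [card_singleton, card_pair hR.ab] at h2
  omega

lemma eg (hR : R3 r s a b c d e g) : e ≠ g := by
  intro h
  have h1 := hR.Pe
  rw [h, hR.Pg] at h1
  have h2 := congrArg card h1
  rw [card_singleton, card_pair hR.cd] at h2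
  omega

lemma sz1 (C : Ctx α) (hR : R3 r s a b c d e g) : ∀ l < r, sz α l = 1 := by
  intro l hl
  unfold sz
  rw [card_eq_one]
  refine ⟨s l, ?_⟩
  ext x
  rw [mem_lev, mem_singleton]
  constructor
  · intro h
    have := hR.s_unq x (by omega)
    rw [this, h]
  · rintro rfl
    exact hR.s_cor l hl

lemma szE (C : Ctx α) (hR : R3 r s a b c d e g) : sz α (r + 2) = 2 := by
  unfold sz
  rw [card_eq_two]
  refine ⟨e, g, hR.eg, ?_⟩
  ext x
  rw [mem_lev, mem_insert, mem_singleton]
  constructor
  · exact hR.Le x
  · rintro (rfl | rfl)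
    · exact hR.corE C
    · exact hR.corG C

lemma szC (C : Ctx α) (hR : R3 r s a b c d e g) : sz α (r + 1) = 2 := by
  unfold sz
  rw [card_eq_two]
  refine ⟨c, d, hR.cd, ?_⟩
  ext x
  rw [mem_lev, mem_insert, mem_singleton]
  constructor
  · exact hR.Lc x
  · rintro (rfl | rfl)
    · exact hR.corC C
    · exact hR.corD C

lemma szA (C : Ctx α) (hR : R3 r s a b c d e g) : sz α r = 2 := by
  unfold sz
  rw [card_eq_two]
  refine ⟨a, b, hR.ab, ?_⟩
  ext x
  rw [mem_lev, mem_insert, mem_singleton]
  constructor
  · exact hR.La x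
  · rintro (rfl | rfl)
    · exact hR.corA C
    · exact hR.corB C

lemma ChB (C : Ctx α) (hR : R3 r s a b c d e g) : Ch b = {c} := by
  ext x
  rw [← mem_Pr_iff, mem_singleton]
  constructor
  · intro h
    have h1 := C.cor_Pr h
    rw [hR.corB C] at h1
    rcases hR.Lc x h1 with h2 | h2
    · exact h2
    · rw [h2, hR.Pd, mem_singleton] at h
      exact absurd h.symm hR.ab
  · rintro rfl
    rw [hR.Pc]
    simp

lemma ChC (C : Ctx α) (hR : R3 r s a b c d e g) : Ch c = {e, g} := by
  ext x
  rw [← mem_Pr_iff, mem_insert, mem_singleton]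
  constructor
  · intro h
    have h1 := C.cor_Pr h
    rw [hR.corC C] at h1
    exact hR.Le x h1
  · rintro (rfl | rfl)
    · rw [hR.Pe]
      simp
    · rw [hR.Pg]
      simp

lemma ChD (C : Ctx α) (hR : R3 r s a b c d e g) : Ch d = {e} := by
  ext x
  rw [← mem_Pr_iff, mem_singleton]
  constructor
  · intro h
    have h1 := C.cor_Pr h
    rw [hR.corD C] at h1
    rcases hR.Le x h1 with h2 | h2
    · exact h2
    · rw [h2, hR.Pg, mem_singleton] at h
      exact absurd h.symm hR.cd
  · rintro rfl
    rw [hR.Pe]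
    simp

end R3

/-- level `r + 3` -/
theorem rthree_lev3 (C : Ctx α) {r : ℕ} {s : ℕ → α} {a b c d e g : α}
    (hR : R3 r s a b c d e g) (hH : r + 3 < HT α) :
    ∃ u : α, Pr u = {e, g} ∧ (∀ x : α, corank x = r + 3 → x = u ∨ Pr x = {g}) ∧
      (∀ x x' : α, Pr x = {g} → Pr x' = {g} → x = x') := by
  obtain ⟨u, hu, hu2, huu⟩ := C.one_double (i := r + 2) (by omega) (hR.szE C)
  have hPu : Pr u = {e, g} := by
    apply eq_of_subset_of_card_le
    · intro z hz
      have := C.cor_Pr hz
      rw [mem_insert, mem_singleton]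
      exact hR.Le z (by omega)
    · rw [hu2, card_pair hR.eg]
  have hF : FFv α (r + 1) = ∅ := by
    apply FFv_empty (u := e)
    intro x hx hx2
    rcases hR.Le x (by omega) with h2 | h2
    · exact h2
    · rw [h2, hR.Pg, card_singleton] at hx2
      omega
  have hE1 := C.E1_zero (hR.sz1 C 1 (by have := hR.hr; omega)) (j := r + 1) (by omega) hF
  have hb : b ∈ QEv α (r + 1 + 1) := by
    rw [mem_QEv, hR.ChB C, Ch2_of_single (hR.ChB C), hR.ChC C, hR.corB C, card_singleton,
      card_pair hR.eg]
    exact ⟨rfl, rfl, rfl⟩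
  have hb1 : 0 < (QEv α (r + 1 + 1)).card := card_pos.2 ⟨b, hb⟩
  have hP : PEv α (r + 1) = ∅ := by
    rw [← card_eq_zero]
    omega
  refine ⟨u, hPu, ?_, ?_⟩
  · intro x hx
    rcases C.pr_cases (x := x) (by omega) with h1 | h1
    · right
      obtain ⟨y, hy⟩ := card_eq_one.1 h1
      have h2 := C.cor_Pr (x := x) (y := y) (by rw [hy]; simp)
      rcases hR.Le y (by omega) with h3 | h3
      · exfalso
        have h4 : x ∈ PEv α (r + 1) := by
          rw [mem_PEv]
          refine ⟨by omega, h1, ?_⟩
          rw [Pr2_of_single hy, h3, hR.Pe, card_pair hR.cd]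
        rw [hP] at h4
        exact notMem_empty _ h4
      · rw [hy, h3]
    · exact Or.inl (huu x hx h1)
  · intro x x' hx hx'
    by_contra hne
    have hxu : x ≠ u := by
      rintro rfl
      rw [hPu] at hx
      have h2 := congrArg card hx
      rw [card_singleton, card_pair hR.eg] at h2
      omega
    have hxu' : x' ≠ u := by
      rintro rfl
      rw [hPu] at hx'
      have h2 := congrArg card hx'
      rw [card_singleton, card_pair hR.eg] at h2
      omega
    have h4 : ({x, x', u} : Finset α) ⊆ Ch g := by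
      intro z hz
      rw [← mem_Pr_iff]
      simp only [mem_insert, mem_singleton] at hz
      rcases hz with rfl | rfl | rfl
      · rw [hx]; simp
      · rw [hx']; simp
      · rw [hPu]; simp
    have h5 := card_le_card h4
    rw [card_eq_three.2 ⟨x, x', u, hne, hxu, hxu', rfl⟩] at h5
    have := C.ch_le g
    omega

/-- level `r + 4` -/
theorem rthree_lev4 (C : Ctx α) {r : ℕ} {s : ℕ → α} {a b c d e g u p : α}
    (hR : R3 r s a b c d e g) (hH : r + 4 < HT α) (hu : Pr u = {e, g}) (hp : Pr p = {g})
    (hL : ∀ x : α, corank x = r + 3 → x = u ∨ x = p) :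
    ∃ w x : α, Pr w = {u} ∧ Pr x = {u, p} ∧
      (∀ y : α, corank y = r + 4 → y = w ∨ y = x ∨ Pr y = {p}) ∧
      (∀ y y' : α, Pr y = {p} → Pr y' = {p} → y = y') := by
  have hup : u ≠ p := by
    rintro rfl
    rw [hu] at hp
    have h2 := congrArg card hp
    rw [card_singleton, card_pair hR.eg] at h2
    omega
  have hcu : corank u = r + 3 := by
    have := C.cor_Pr (x := u) (y := e) (by rw [hu]; simp)
    have := hR.corE C
    omega
  have hcp : corank p = r + 3 := by
    have := C.cor_Pr (x := p) (y := g) (by rw [hp]; simp)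
    have := hR.corG C
    omega
  have hszu : sz α (r + 3) = 2 := by
    unfold sz
    rw [card_eq_two]
    refine ⟨u, p, hup, ?_⟩
    ext x
    rw [mem_lev, mem_insert, mem_singleton]
    constructor
    · exact hL x
    · rintro (rfl | rfl)
      · exact hcu
      · exact hcp
  obtain ⟨x, hx, hx2, hxu⟩ := C.one_double (i := r + 3) (by omega) hszu
  have hPx : Pr x = {u, p} := by
    apply eq_of_subset_of_card_le
    · intro z hz
      have := C.cor_Pr hz
      rw [mem_insert, mem_singleton]
      exact hL z (by omega)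
    · rw [hx2, card_pair hup]
  have hF : FFv α (r + 2) = ∅ := by
    apply FFv_empty (u := u)
    intro x hx hx2
    rcases hL x (by omega) with h2 | h2
    · exact h2
    · rw [h2, hp, card_singleton] at hx2
      omega
  have hE1 := C.E1_zero (hR.sz1 C 1 (by have := hR.hr; omega)) (j := r + 2) (by omega) hF
  have hChE : Ch e = {u} := by
    ext z
    rw [← mem_Pr_iff, mem_singleton]
    constructor
    · intro h
      have h1 := C.cor_Pr h
      rw [hR.corE C] at h1
      rcases hL z h1 with h2 | h2
      · exact h2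
      · rw [h2, hp, mem_singleton] at h
        exact absurd h hR.eg
    · rintro rfl
      rw [hu]
      simp
  have hQ : QEv α (r + 2 + 1) = ∅ := by
    rw [eq_empty_iff_forall_notMem]
    intro v hv
    rw [mem_QEv] at hv
    obtain ⟨h4, h5, h6⟩ := hv
    rcases hR.Lc v (by omega) with h7 | h7
    · rw [h7, hR.ChC C, card_pair hR.eg] at h5
      omega
    · rw [h7, Ch2_of_single (hR.ChD C), hChE, card_singleton] at h6
      omega
  have hE : EEv α (r + 2) = ∅ := by
    rw [eq_empty_iff_forall_notMem]
    intro z hz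
    rw [mem_EEv] at hz
    obtain ⟨h4, h5, h6⟩ := hz
    rcases hL z (by omega) with h7 | h7
    · rw [h7, hu, card_pair hR.eg] at h5
      omega
    · have h8 := h6 g (by rw [h7, hp]; simp)
      have h9 : ({u, p} : Finset α) ⊆ Ch g := by
        intro z hz
        rw [← mem_Pr_iff]
        rw [mem_insert, mem_singleton] at hz
        rcases hz with rfl | rfl
        · rw [hu]; simp
        · rw [hp]; simp
      have h10 := card_le_card h9
      rw [card_pair hup] at h10
      omega
  rw [hQ, hE, card_empty] at hE1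
  obtain ⟨w, hw⟩ := card_eq_one.1 (by omega : (PEv α (r + 2)).card = 1)
  have hwm : w ∈ PEv α (r + 2) := by rw [hw]; simp
  rw [mem_PEv] at hwm
  obtain ⟨hwc, hw1, hw2⟩ := hwm
  obtain ⟨y, hy⟩ := card_eq_one.1 hw1
  have hyc : corank y = r + 3 := by
    have := C.cor_Pr (x := w) (y := y) (by rw [hy]; simp)
    omega
  rw [Pr2_of_single hy] at hw2
  have hyu : y = u := by
    rcases hL y hyc with h2 | h2
    · exact h2
    · rw [h2, hp, card_singleton] at hw2
      omega
  subst hyu
  refine ⟨w, x, hy, hPx, ?_, ?_⟩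
  · intro z hz
    rcases C.pr_cases (x := z) (by omega) with h1 | h1
    · obtain ⟨t, ht⟩ := card_eq_one.1 h1
      have h2 := C.cor_Pr (x := z) (y := t) (by rw [ht]; simp)
      rcases hL t (by omega) with h3 | h3
      · left
        have h4 : z ∈ PEv α (r + 2) := by
          rw [mem_PEv]
          refine ⟨by omega, h1, ?_⟩
          rw [Pr2_of_single ht, h3, hu, card_pair hR.eg]
        rwa [hw, mem_singleton] at h4
      · right; right
        rw [ht, h3]
    · exact Or.inr (Or.inl (hxu z hz h1))
  · intro z z' hz hz'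
    by_contra hne
    have hxu : ∀ z : α, Pr z = {p} → z ≠ x := by
      rintro z hz rfl
      rw [hPx] at hz
      have h2 := congrArg card hz
      rw [card_singleton, card_pair hup] at h2
      omega
    have h4 : ({z, z', x} : Finset α) ⊆ Ch p := by
      intro t ht
      rw [← mem_Pr_iff]
      simp only [mem_insert, mem_singleton] at ht
      rcases ht with rfl | rfl | rfl
      · rw [hz]; simp
      · rw [hz']; simp
      · rw [hPx]; simp
    have h5 := card_le_card h4
    rw [card_eq_three.2 ⟨z, z', x, hne, hxu z hz, hxu z' hz', rfl⟩] at h5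
    have := C.ch_le p
    omega

end Pool.Gauss
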