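import Pool.Agent.Work.MP_065141_co.Rthree0
import Pool.Agent.Work.MP_065141_co.Rthree1

/-!
# At least three levels of size one: counting small filters
-/

set_option autoImplicit false
set_option linter.unusedSectionVars false
open scoped Classical
open Finset

namespace Pool.Gauss

variable {α : Type} [Fintype α] [PartialOrder α]

/-! ### lists of elements with their parents -/

/-- `φ` lists elements of corank at least `r`, with parents `par` -/
structure Lst (r : ℕ) {n : ℕ} (φ : Fin n → α) (par : Fin n → Finset (Fin n)) : Prop where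
  inj : Function.Injective φ
  cor : ∀ i, r ≤ corank (φ i)
  pr : ∀ i, r < corank (φ i) → Pr (φ i) = (par i).image φ
  pr0 : ∀ i, corank (φ i) = r → par i = ∅

lemma Lst.sub {r n m : ℕ} {φ : Fin n → α} {par : Fin n → Finset (Fin n)} (h : Lst r φ par)
    (ι : Fin m → Fin n) (hι : Function.Injective ι) (par' : Fin m → Finset (Fin m))
    (hp : ∀ i, par (ι i) = (par' i).image ι) : Lst r (fun i => φ (ι i)) par' where
  inj := h.inj.comp hι
  cor i := h.cor _
  pr i hi := by
    rw [h.pr _ hi, hp, image_image]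
    rfl
  pr0 i hi := by
    have h1 := h.pr0 _ hi
    rw [hp, image_eq_empty] at h1
    exact h1

lemma us_strict {x y : α} (h : x < y) : us y < us x := by
  unfold us
  apply card_lt_card
  rw [Finset.ssubset_iff_of_subset]
  · refine ⟨x, ?_, ?_⟩
    · rw [mem_filter]
      exact ⟨mem_univ _, le_rfl⟩
    · rw [mem_filter]
      rintro ⟨_, h1⟩
      exact absurd h (not_lt_of_ge h1)
  · intro z hz
    rw [mem_filter] at hz ⊢
    exact ⟨mem_univ _, h.le.trans hz.2⟩

lemma Lst.us_eq {r n : ℕ} (C : Ctx α) (h1 : ∀ l < r, sz α l = 1) {φ : Fin n → α}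
    {par : Fin n → Finset (Fin n)} (h : Lst r φ par) (cl : Fin n → Finset (Fin n))
    (hcl : ∀ i, cl i = insert i ((par i).biUnion cl)) (i : Fin n) :
    us (φ i) = r + (cl i).card := by
  have key : ∀ m : ℕ, ∀ i, corank (φ i) = m →
      univ.filter (fun y => φ i ≤ y) = tops α r ∪ (cl i).image φ := by
    intro m
    induction m using Nat.strong_induction_on with
    | _ m ih =>
    intro i hi
    ext y
    rw [mem_filter, mem_union, mem_tops]
    have hr := h.cor i
    constructor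
    · rintro ⟨_, h2⟩
      rcases eq_or_lt_of_le h2 with h3 | h3
      · right
        rw [← h3]
        apply mem_image_of_mem
        rw [hcl i]
        exact mem_insert_self _ _
      · obtain ⟨z, hz, hzy⟩ := exists_covBy_of_lt h3
        have h4 := C.cork hz
        rcases Nat.lt_or_ge r (corank (φ i)) with h5 | h5
        · have h6 : z ∈ (par i).image φ := by
            rw [← h.pr i h5, Pool.Gauss.mem_Pr]
            exact hz
          obtain ⟨j, hj, rfl⟩ := mem_image.1 h6
          have h7 : y ∈ univ.filter (fun y => φ j ≤ y) := mem_filter.2 ⟨mem_univ _, hzy⟩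
          rw [ih _ (by omega) j rfl, mem_union, mem_tops] at h7
          rcases h7 with h7 | h7
          · exact Or.inl h7
          · right
            obtain ⟨k, hk, rfl⟩ := mem_image.1 h7
            apply mem_image_of_mem
            rw [hcl i]
            exact mem_insert_of_mem (mem_biUnion.2 ⟨j, hj, hk⟩)
        · left
          have := corank_anti hzy
          omega
    · rintro (h2 | h2)
      · obtain ⟨z, hz, hz'⟩ := exists_gt_corank (x := φ i) (n := corank y) (by omega)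
        have h5 := h1 (corank y) h2
        unfold sz at h5
        have h6 : y = z := card_le_one.1 h5.le y (mem_lev.2 rfl) z (mem_lev.2 hz')
        rw [h6]
        exact ⟨mem_univ _, le_of_lt hz⟩
      · obtain ⟨k, hk, rfl⟩ := mem_image.1 h2
        rw [hcl i, mem_insert, mem_biUnion] at hk
        refine ⟨mem_univ _, ?_⟩
        rcases hk with rfl | ⟨j, hj, hk⟩
        · exact le_rfl
        · rcases Nat.lt_or_ge r (corank (φ i)) with h5 | h5
          · have h6 : φ j ∈ Pr (φ i) := by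
              rw [h.pr i h5]
              exact mem_image_of_mem φ hj
            rw [Pool.Gauss.mem_Pr] at h6
            have h7 := C.cork h6
            have h8 : φ k ∈ tops α r ∪ (cl j).image φ := mem_union.2 (Or.inr
              (mem_image_of_mem φ hk))
            rw [← ih _ (by omega) j rfl, mem_filter] at h8
            exact h6.le.trans h8.2
          · rw [h.pr0 i (by omega)] at hj
            exact absurd hj (notMem_empty _)
  unfold us
  rw [key _ i rfl, card_union_of_disjoint, card_tops h1 le_rfl, card_image_of_injective _ h.inj]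
  rw [Finset.disjoint_left]
  intro x h2 h3
  rw [mem_tops] at h2
  obtain ⟨j, _, rfl⟩ := mem_image.1 h3
  have := h.cor j
  omega

lemma Lst.FF {r n K : ℕ} (C : Ctx α) (hr : 1 ≤ r) (hrH : r ≤ HT α) (h1 : ∀ l < r, sz α l = 1)
    {φ : Fin n → α} {par : Fin n → Finset (Fin n)} (h : Lst r φ par)
    (hK : ∀ x : α, r ≤ corank x → (∀ i, φ i ≠ x) → K < us x) {j : ℕ} (hkK : r + j ≤ K) :
    FF α (r + j) = ((univ : Finset (Finset (Fin n))).filter fun T =>
      T.card = j ∧ ∀ i ∈ T, par i ⊆ T).card := by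
  rw [FF_eq C hr hrH h1 φ h.inj par h.cor h.pr h.pr0 hK (Nat.le_add_right r j) hkK,
    Nat.add_sub_cancel_left]

namespace R3

variable {r : ℕ} {s : ℕ → α} {a b c d e g : α}

lemma cor_pr (C : Ctx α) {x y : α} {S : Finset α} (h : Pr x = S) (hy : y ∈ S) :
    corank x = corank y + 1 := by
  rw [← h, Pool.Gauss.mem_Pr] at hy
  exact C.cork hy

lemma ca (C : Ctx α) (hR : R3 r s a b c d e g) : corank a = r := by
  have h1 := cor_pr C hR.Pa (mem_singleton_self _)
  have := hR.hr
  rw [hR.s_cor (r - 1) (by omega)] at h1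
  omega

lemma cb (C : Ctx α) (hR : R3 r s a b c d e g) : corank b = r := by
  have h1 := cor_pr C hR.Pb (mem_singleton_self _)
  have := hR.hr
  rw [hR.s_cor (r - 1) (by omega)] at h1
  omega

lemma cc (C : Ctx α) (hR : R3 r s a b c d e g) : corank c = r + 1 := by
  rw [cor_pr C hR.Pc (mem_insert_self _ _), hR.ca C]

lemma cdd (C : Ctx α) (hR : R3 r s a b c d e g) : corank d = r + 1 := by
  rw [cor_pr C hR.Pd (mem_singleton_self _), hR.ca C]

lemma ce (C : Ctx α) (hR : R3 r s a b c d e g) : corank e = r + 2 := by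
  rw [cor_pr C hR.Pe (mem_insert_self _ _), hR.cc C]

lemma cg (C : Ctx α) (hR : R3 r s a b c d e g) : corank g = r + 2 := by
  rw [cor_pr C hR.Pg (mem_singleton_self _), hR.cc C]

lemma ne_of_pr {x y p q : α} (hx : Pr x = {p, q}) (hy : Pr y = {p}) (hpq : p ≠ q) : x ≠ y := by
  rintro rfl
  rw [hx] at hy
  have : q ∈ ({p, q} : Finset α) := by simp
  rw [hy, mem_singleton] at this
  exact hpq this.symm

lemma ne_of_pr' {x y p q : α} (hx : Pr x = {p, q}) (hy : Pr y = {q}) (hpq : p ≠ q) : x ≠ y := by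
  rintro rfl
  rw [hx] at hy
  have : p ∈ ({p, q} : Finset α) := by simp
  rw [hy, mem_singleton] at this
  exact hpq this

lemma ncd (hR : R3 r s a b c d e g) : c ≠ d := ne_of_pr hR.Pc hR.Pd hR.ab

lemma neg (hR : R3 r s a b c d e g) : e ≠ g := ne_of_pr hR.Pe hR.Pg hR.ncd

lemma sz_one (hR : R3 r s a b c d e g) : ∀ l < r, sz α l = 1 := by
  intro l hl
  unfold sz
  rw [card_eq_one]
  refine ⟨s l, ?_⟩
  ext x
  rw [mem_lev, mem_singleton]
  constructor
  · intro h
    rw [hR.s_unq x (by omega), h]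
  · rintro rfl
    exact hR.s_cor l hl

lemma sz_two_of {m : ℕ} {x y : α} (hx : corank x = m) (hy : corank y = m) (hxy : x ≠ y)
    (hL : ∀ z : α, corank z = m → z = x ∨ z = y) : sz α m = 2 := by
  unfold sz
  rw [card_eq_two]
  refine ⟨x, y, hxy, ?_⟩
  ext z
  rw [mem_lev, mem_insert, mem_singleton]
  constructor
  · exact hL z
  · rintro (rfl | rfl)
    · exact hx
    · exact hy

lemma sz_r (C : Ctx α) (hR : R3 r s a b c d e g) : sz α r = 2 :=
  sz_two_of (hR.ca C) (hR.cb C) hR.ab hR.La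

lemma sz_r2 (C : Ctx α) (hR : R3 r s a b c d e g) : sz α (r + 2) = 2 :=
  sz_two_of (hR.ce C) (hR.cg C) hR.neg hR.Le

end R3

/-- parents in the list `a b c d e g u p w'` -/
def par9 : Fin 9 → Finset (Fin 9) := ![∅, ∅, {0, 1}, {0}, {2, 3}, {2}, {4, 5}, {5}, {7}]
/-- closures in the list `a b c d e g u p w'` -/
def cl9 : Fin 9 → Finset (Fin 9) := ![{0}, {1}, {0, 1, 2}, {0, 3}, {0, 1, 2, 3, 4}, {0, 1, 2, 5},
  {0, 1, 2, 3, 4, 5, 6}, {0, 1, 2, 5, 7}, {0, 1, 2, 5, 7, 8}]
def lv9 : Fin 9 → ℕ := ![0, 0, 1, 1, 2, 2, 3, 3, 4]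

/-- parents in the list `a b c d e g u p` -/
def par8 : Fin 8 → Finset (Fin 8) := ![∅, ∅, {0, 1}, {0}, {2, 3}, {2}, {4, 5}, {5}]
def cl8 : Fin 8 → Finset (Fin 8) := ![{0}, {1}, {0, 1, 2}, {0, 3}, {0, 1, 2, 3, 4}, {0, 1, 2, 5},
  {0, 1, 2, 3, 4, 5, 6}, {0, 1, 2, 5, 7}]
def lv8 : Fin 8 → ℕ := ![0, 0, 1, 1, 2, 2, 3, 3]

/-- parents in the list `a b c d e g` -/
def par6 : Fin 6 → Finset (Fin 6) := ![∅, ∅, {0, 1}, {0}, {2, 3}, {2}]
def cl6 : Fin 6 → Finset (Fin 6) := ![{0}, {1}, {0, 1, 2}, {0, 3}, {0, 1, 2, 3, 4}, {0, 1, 2, 5}]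
def lv6 : Fin 6 → ℕ := ![0, 0, 1, 1, 2, 2]

lemma cl9_eq : ∀ i, cl9 i = insert i ((par9 i).biUnion cl9) := by decide
lemma cl8_eq : ∀ i, cl8 i = insert i ((par8 i).biUnion cl8) := by decide
lemma cl6_eq : ∀ i, cl6 i = insert i ((par6 i).biUnion cl6) := by decide


lemma R3.lst6 (C : Ctx α) {r : ℕ} {s : ℕ → α} {a b c d e g : α} (hR : R3 r s a b c d e g) :
    Lst r ![a, b, c, d, e, g] par6 := by
  have key : ∀ i : Fin 6, corank (![a, b, c, d, e, g] i) = r + lv6 i := by
    intro i
    fin_cases i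
    · exact hR.ca C
    · exact hR.cb C
    · exact hR.cc C
    · exact hR.cdd C
    · exact hR.ce C
    · exact hR.cg C
  refine ⟨?_, ?_, ?_, ?_⟩
  · intro i j hij
    have h1 : lv6 i = lv6 j := by
      have := congrArg corank hij
      rw [key, key] at this
      omega
    have h2 : ∀ i j : Fin 6, lv6 i = lv6 j → i = j ∨ (i = 0 ∧ j = 1) ∨ (i = 1 ∧ j = 0) ∨
        (i = 2 ∧ j = 3) ∨ (i = 3 ∧ j = 2) ∨ (i = 4 ∧ j = 5) ∨ (i = 5 ∧ j = 4) := by decide
    rcases h2 i j h1 with h | ⟨rfl, rfl⟩ | ⟨rfl, rfl⟩ | ⟨rfl, rfl⟩ | ⟨rfl, rfl⟩ | ⟨rfl, rfl⟩ |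
      ⟨rfl, rfl⟩
    · exact h
    · exact absurd hij hR.ab
    · exact absurd hij hR.ab.symm
    · exact absurd hij hR.ncd
    · exact absurd hij hR.ncd.symm
    · exact absurd hij hR.neg
    · exact absurd hij hR.neg.symm
  · intro i
    rw [key]
    omega
  · intro i hi
    rw [key] at hi
    fin_cases i
    · exact absurd hi (lt_irrefl _)
    · exact absurd hi (lt_irrefl _)
    · change Pr c = ({0, 1} : Finset (Fin 6)).image _
      rw [image_insert, image_singleton, hR.Pc]
      rfl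
    · change Pr d = ({0} : Finset (Fin 6)).image _
      rw [image_singleton, hR.Pd]
      rfl
    · change Pr e = ({2, 3} : Finset (Fin 6)).image _
      rw [image_insert, image_singleton, hR.Pe]
      rfl
    · change Pr g = ({2} : Finset (Fin 6)).image _
      rw [image_singleton, hR.Pg]
      rfl
  · intro i hi
    rw [key] at hi
    have h2 : ∀ i : Fin 6, lv6 i = 0 → par6 i = ∅ := by decide
    exact h2 i (by omega)

lemma R3.lst8 (C : Ctx α) {r : ℕ} {s : ℕ → α} {a b c d e g u p : α} (hR : R3 r s a b c d e g)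
    (hu : Pr u = {e, g}) (hp : Pr p = {g}) :
    Lst r ![a, b, c, d, e, g, u, p] par8 := by
  have cu : corank u = r + 3 := by rw [R3.cor_pr C hu (mem_insert_self _ _), hR.ce C]
  have cp : corank p = r + 3 := by rw [R3.cor_pr C hp (mem_singleton_self _), hR.cg C]
  have hup : u ≠ p := R3.ne_of_pr' hu hp hR.neg
  have key : ∀ i : Fin 8, corank (![a, b, c, d, e, g, u, p] i) = r + lv8 i := by
    intro i
    fin_cases i
    · exact hR.ca C
    · exact hR.cb C
    · exact hR.cc C
    · exact hR.cdd C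
    · exact hR.ce C
    · exact hR.cg C
    · exact cu
    · exact cp
  refine ⟨?_, ?_, ?_, ?_⟩
  · intro i j hij
    have h1 : lv8 i = lv8 j := by
      have := congrArg corank hij
      rw [key, key] at this
      omega
    have h2 : ∀ i j : Fin 8, lv8 i = lv8 j → i = j ∨ (i = 0 ∧ j = 1) ∨ (i = 1 ∧ j = 0) ∨
        (i = 2 ∧ j = 3) ∨ (i = 3 ∧ j = 2) ∨ (i = 4 ∧ j = 5) ∨ (i = 5 ∧ j = 4) ∨
        (i = 6 ∧ j = 7) ∨ (i = 7 ∧ j = 6) := by decide
    rcases h2 i j h1 with h | ⟨rfl, rfl⟩ | ⟨rfl, rfl⟩ | ⟨rfl, rfl⟩ | ⟨rfl, rfl⟩ | ⟨rfl, rfl⟩ |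
      ⟨rfl, rfl⟩ | ⟨rfl, rfl⟩ | ⟨rfl, rfl⟩
    · exact h
    · exact absurd hij hR.ab
    · exact absurd hij hR.ab.symm
    · exact absurd hij hR.ncd
    · exact absurd hij hR.ncd.symm
    · exact absurd hij hR.neg
    · exact absurd hij hR.neg.symm
    · exact absurd hij hup
    · exact absurd hij hup.symm
  · intro i
    rw [key]
    omega
  · intro i hi
    rw [key] at hi
    fin_cases i
    · exact absurd hi (lt_irrefl _)
    · exact absurd hi (lt_irrefl _)
    · change Pr c = ({0, 1} : Finset (Fin 8)).image _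
      rw [image_insert, image_singleton, hR.Pc]
      rfl
    · change Pr d = ({0} : Finset (Fin 8)).image _
      rw [image_singleton, hR.Pd]
      rfl
    · change Pr e = ({2, 3} : Finset (Fin 8)).image _
      rw [image_insert, image_singleton, hR.Pe]
      rfl
    · change Pr g = ({2} : Finset (Fin 8)).image _
      rw [image_singleton, hR.Pg]
      rfl
    · change Pr u = ({4, 5} : Finset (Fin 8)).image _
      rw [image_insert, image_singleton, hu]
      rfl
    · change Pr p = ({5} : Finset (Fin 8)).image _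
      rw [image_singleton, hp]
      rfl
  · intro i hi
    rw [key] at hi
    have h2 : ∀ i : Fin 8, lv8 i = 0 → par8 i = ∅ := by decide
    exact h2 i (by omega)

lemma R3.lst9 (C : Ctx α) {r : ℕ} {s : ℕ → α} {a b c d e g u p w' : α}
    (hR : R3 r s a b c d e g) (hu : Pr u = {e, g}) (hp : Pr p = {g}) (hw' : Pr w' = {p}) :
    Lst r ![a, b, c, d, e, g, u, p, w'] par9 := by
  have cu : corank u = r + 3 := by rw [R3.cor_pr C hu (mem_insert_self _ _), hR.ce C]
  have cp : corank p = r + 3 := by rw [R3.cor_pr C hp (mem_singleton_self _), hR.cg C]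
  have cw : corank w' = r + 4 := by rw [R3.cor_pr C hw' (mem_singleton_self _), cp]
  have hup : u ≠ p := R3.ne_of_pr' hu hp hR.neg
  have key : ∀ i : Fin 9, corank (![a, b, c, d, e, g, u, p, w'] i) = r + lv9 i := by
    intro i
    fin_cases i
    · exact hR.ca C
    · exact hR.cb C
    · exact hR.cc C
    · exact hR.cdd C
    · exact hR.ce C
    · exact hR.cg C
    · exact cu
    · exact cp
    · exact cw
  refine ⟨?_, ?_, ?_, ?_⟩
  · intro i j hij
    have h1 : lv9 i = lv9 j := by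
      have := congrArg corank hij
      rw [key, key] at this
      omega
    have h2 : ∀ i j : Fin 9, lv9 i = lv9 j → i = j ∨ (i = 0 ∧ j = 1) ∨ (i = 1 ∧ j = 0) ∨
        (i = 2 ∧ j = 3) ∨ (i = 3 ∧ j = 2) ∨ (i = 4 ∧ j = 5) ∨ (i = 5 ∧ j = 4) ∨
        (i = 6 ∧ j = 7) ∨ (i = 7 ∧ j = 6) := by decide
    rcases h2 i j h1 with h | ⟨rfl, rfl⟩ | ⟨rfl, rfl⟩ | ⟨rfl, rfl⟩ | ⟨rfl, rfl⟩ | ⟨rfl, rfl⟩ |
      ⟨rfl, rfl⟩ | ⟨rfl, rfl⟩ | ⟨rfl, rfl⟩
    · exact h
    · exact absurd hij hR.ab
    · exact absurd hij hR.ab.symm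
    · exact absurd hij hR.ncd
    · exact absurd hij hR.ncd.symm
    · exact absurd hij hR.neg
    · exact absurd hij hR.neg.symm
    · exact absurd hij hup
    · exact absurd hij hup.symm
  · intro i
    rw [key]
    omega
  · intro i hi
    rw [key] at hi
    fin_cases i
    · exact absurd hi (lt_irrefl _)
    · exact absurd hi (lt_irrefl _)
    · change Pr c = ({0, 1} : Finset (Fin 9)).image _
      rw [image_insert, image_singleton, hR.Pc]
      rfl
    · change Pr d = ({0} : Finset (Fin 9)).image _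
      rw [image_singleton, hR.Pd]
      rfl
    · change Pr e = ({2, 3} : Finset (Fin 9)).image _
      rw [image_insert, image_singleton, hR.Pe]
      rfl
    · change Pr g = ({2} : Finset (Fin 9)).image _
      rw [image_singleton, hR.Pg]
      rfl
    · change Pr u = ({4, 5} : Finset (Fin 9)).image _
      rw [image_insert, image_singleton, hu]
      rfl
    · change Pr p = ({5} : Finset (Fin 9)).image _
      rw [image_singleton, hp]
      rfl
    · change Pr w' = ({7} : Finset (Fin 9)).image _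
      rw [image_singleton, hw']
      rfl
  · intro i hi
    rw [key] at hi
    have h2 : ∀ i : Fin 9, lv9 i = 0 → par9 i = ∅ := by decide
    exact h2 i (by omega)

/-- above the elements of high corank -/
lemma us_level {m B : ℕ} (hB : ∀ y : α, corank y = m → B ≤ us y) {x : α} (hx : m < corank x) :
    B < us x := by
  obtain ⟨y, hy, hy'⟩ := exists_gt_corank hx
  exact (hB y hy').trans_lt (us_strict hy)

def iA1 : Fin 5 → Fin 6 := ![0, 1, 2, 3, 5]
def pA1 : Fin 5 → Finset (Fin 5) := ![∅, ∅, {0, 1}, {0}, {2}]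
def iA2 : Fin 7 → Fin 8 := ![0, 1, 2, 3, 4, 5, 7]
def pA2 : Fin 7 → Finset (Fin 7) := ![∅, ∅, {0, 1}, {0}, {2, 3}, {2}, {5}]
def iA4 : Fin 8 → Fin 9 := ![0, 1, 2, 3, 4, 5, 7, 8]
def pA4 : Fin 8 → Finset (Fin 8) := ![∅, ∅, {0, 1}, {0}, {2, 3}, {2}, {5}, {6}]

lemma iA1_inj : Function.Injective iA1 := by decide
lemma iA2_inj : Function.Injective iA2 := by decide
lemma iA4_inj : Function.Injective iA4 := by decide
lemma pA1_eq : ∀ i, par6 (iA1 i) = (pA1 i).image iA1 := by decide
lemma pA2_eq : ∀ i, par8 (iA2 i) = (pA2 i).image iA2 := by decide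
lemma pA4_eq : ∀ i, par9 (iA4 i) = (pA4 i).image iA4 := by decide

lemma cntA1 : ∀ j : Fin 5, ((univ : Finset (Finset (Fin 5))).filter fun T =>
    T.card = j.val ∧ ∀ i ∈ T, pA1 i ⊆ T).card = ![1, 2, 2, 2, 2] j := by decide +kernel
lemma cntA2 : ∀ j : Fin 7, ((univ : Finset (Finset (Fin 7))).filter fun T =>
    T.card = j.val ∧ ∀ i ∈ T, pA2 i ⊆ T).card = ![1, 2, 2, 2, 2, 3, 2] j := by decide +kernel
lemma cntA4 : ∀ j : Fin 7, ((univ : Finset (Finset (Fin 8))).filter fun T =>
    T.card = j.val ∧ ∀ i ∈ T, pA4 i ⊆ T).card = ![1, 2, 2, 2, 2, 3, 3] j := by decide +kernel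

/-- the closed sets of `a b c d g` -/
lemma R3.ffA1 (C : Ctx α) {r : ℕ} {s : ℕ → α} {a b c d e g : α} (hR : R3 r s a b c d e g)
    (j : Fin 5) : FF α (r + j) = ![1, 2, 2, 2, 2] j := by
  have hr := hR.hr
  have hH := hR.hH
  have h1 := hR.sz_one
  have hl := hR.lst6 C
  have ue : us e = r + 5 := hl.us_eq C h1 cl6 cl6_eq 4
  have ug : us g = r + 4 := hl.us_eq C h1 cl6 cl6_eq 5
  have hl' := hl.sub iA1 iA1_inj pA1 pA1_eq
  have hj := j.isLt
  rw [hl'.FF C (K := r + 4) (by omega) (by omega) h1 ?_ (by omega), cntA1 j]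
  intro x hx hne
  rcases Nat.lt_or_ge (r + 2) (corank x) with h3 | h3
  · refine us_level ?_ h3
    intro y hy
    rcases hR.Le y hy with rfl | rfl
    · omega
    · omega
  · rcases (by omega : corank x = r ∨ corank x = r + 1 ∨ corank x = r + 2) with h4 | h4 | h4
    · rcases hR.La x h4 with rfl | rfl
      · exact absurd rfl (hne 0)
      · exact absurd rfl (hne 1)
    · rcases hR.Lc x h4 with rfl | rfl
      · exact absurd rfl (hne 2)
      · exact absurd rfl (hne 3)
    · rcases hR.Le x h4 with rfl | rfl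
      · omega
      · exact absurd rfl (hne 4)

/-- level `r + 3` has two elements -/
theorem rthree_p (C : Ctx α) {r : ℕ} {s : ℕ → α} {a b c d e g : α} (hR : R3 r s a b c d e g) :
    sz α (r + 3) = 2 ∧ ∃ u p : α, Pr u = {e, g} ∧ Pr p = {g} ∧
      ∀ x : α, corank x = r + 3 → x = u ∨ x = p := by
  have hr := hR.hr
  have hH := hR.hH
  have h1 := hR.sz_one
  have hsz : sz α (r + 3) = 2 := by
    have hd := delta_formula C (by omega) h1 (hR.sz_r C) (k := r + 4) (by omega) (by omega)
    have e1 : r + 4 - 1 = r + 3 := by omega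
    have e2 : r + 4 - 2 = r + 2 := by omega
    have e3 : r + 4 - r - 1 = 3 := by omega
    have e4 : r + 4 - r - 2 = 2 := by omega
    have f4 : FF α (r + 4) = 2 := hR.ffA1 C 4
    have f3 : FF α (r + 3) = 2 := hR.ffA1 C 3
    have f0 : FF α (r + 0) = 1 := hR.ffA1 C 0
    have g2 : FF α 2 = 1 := FF_le C (by omega) (by omega) h1 (by omega)
    have g3 : FF α 3 = 1 := by
      rcases eq_or_lt_of_le hr with h4 | h4
      · rw [← h4] at f0
        exact f0
      · exact FF_le C (by omega) (by omega) h1 h4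
    rw [e1, e2, e3, e4, hR.sz_r2 C, f4, f3, g2, g3] at hd
    omega
  refine ⟨hsz, ?_⟩
  have h3 : (lev α (r + 3)).card = 2 := hsz
  have hH3 : r + 3 < HT α := by
    obtain ⟨x, hx⟩ : (lev α (r + 3)).Nonempty := by
      rw [← card_pos]
      omega
    have := corank_lt_HT x
    rw [mem_lev] at hx
    omega
  obtain ⟨u, hu, hu1, hu2⟩ := rthree_lev3 C hR hH3
  have cu : corank u = r + 3 := by rw [R3.cor_pr C hu (mem_insert_self _ _), hR.ce C]
  obtain ⟨x, hx, hxu⟩ := exists_mem_ne (by omega : 1 < (lev α (r + 3)).card) u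
  rw [mem_lev] at hx
  have hpx : Pr x = {g} := (hu1 x hx).resolve_left hxu
  refine ⟨u, x, hu, hpx, ?_⟩
  intro y hy
  rcases hu1 y hy with h | h
  · exact Or.inl h
  · exact Or.inr (hu2 y x h hpx)

lemma R3.nup {r : ℕ} {s : ℕ → α} {a b c d e g u p : α} (hR : R3 r s a b c d e g)
    (hu : Pr u = {e, g}) (hp : Pr p = {g}) : u ≠ p :=
  R3.ne_of_pr' hu hp hR.neg

lemma R3.cu (C : Ctx α) {r : ℕ} {s : ℕ → α} {a b c d e g u : α} (hR : R3 r s a b c d e g)
    (hu : Pr u = {e, g}) : corank u = r + 3 := by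
  rw [R3.cor_pr C hu (mem_insert_self _ _), hR.ce C]

lemma R3.cp (C : Ctx α) {r : ℕ} {s : ℕ → α} {a b c d e g p : α} (hR : R3 r s a b c d e g)
    (hp : Pr p = {g}) : corank p = r + 3 := by
  rw [R3.cor_pr C hp (mem_singleton_self _), hR.cg C]

lemma R3.sz_r3 (C : Ctx α) {r : ℕ} {s : ℕ → α} {a b c d e g u p : α}
    (hR : R3 r s a b c d e g) (hu : Pr u = {e, g}) (hp : Pr p = {g})
    (hL : ∀ x : α, corank x = r + 3 → x = u ∨ x = p) : sz α (r + 3) = 2 :=
  R3.sz_two_of (hR.cu C hu) (hR.cp C hp) (hR.nup hu hp) hL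

/-- elements of corank at most `r + 3` -/
lemma R3.low {r : ℕ} {s : ℕ → α} {a b c d e g u p : α} (hR : R3 r s a b c d e g)
    (hL : ∀ x : α, corank x = r + 3 → x = u ∨ x = p) {x : α} (hx : r ≤ corank x)
    (hx' : corank x ≤ r + 3) :
    x = a ∨ x = b ∨ x = c ∨ x = d ∨ x = e ∨ x = g ∨ x = u ∨ x = p := by
  rcases (by omega : corank x = r ∨ corank x = r + 1 ∨ corank x = r + 2 ∨ corank x = r + 3) with
    h4 | h4 | h4 | h4
  · rcases hR.La x h4 with h | h <;> simp [h]
  · rcases hR.Lc x h4 with h | h <;> simp [h]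
  · rcases hR.Le x h4 with h | h <;> simp [h]
  · rcases hL x h4 with h | h <;> simp [h]

/-- the closed sets of `a b c d e g p` -/
lemma R3.ffA2 (C : Ctx α) {r K : ℕ} {s : ℕ → α} {a b c d e g u p : α}
    (hR : R3 r s a b c d e g) (hu : Pr u = {e, g}) (hp : Pr p = {g})
    (hL : ∀ x : α, corank x = r + 3 → x = u ∨ x = p) (hK : K < r + 7)
    (hK' : ∀ x : α, r + 4 ≤ corank x → K < us x)
    (j : Fin 7) (hj : r + j ≤ K) : FF α (r + j) = ![1, 2, 2, 2, 2, 3, 2] j := by
  have hr := hR.hr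
  have hH := hR.hH
  have h1 := hR.sz_one
  have hl := hR.lst8 C hu hp
  have uu : us u = r + 7 := hl.us_eq C h1 cl8 cl8_eq 6
  have hl' := hl.sub iA2 iA2_inj pA2 pA2_eq
  rw [hl'.FF C (K := K) (by omega) (by omega) h1 ?_ hj, cntA2 j]
  intro x hx hne
  rcases Nat.lt_or_ge (r + 3) (corank x) with h3 | h3
  · exact hK' x h3
  · rcases hR.low hL hx h3 with rfl | rfl | rfl | rfl | rfl | rfl | rfl | rfl
    · exact absurd rfl (hne 0)
    · exact absurd rfl (hne 1)
    · exact absurd rfl (hne 2)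
    · exact absurd rfl (hne 3)
    · exact absurd rfl (hne 4)
    · exact absurd rfl (hne 5)
    · omega
    · exact absurd rfl (hne 6)

/-- level `r + 4` -/
theorem rthree_four (C : Ctx α) {r : ℕ} {s : ℕ → α} {a b c d e g u p : α}
    (hR : R3 r s a b c d e g) (hu : Pr u = {e, g}) (hp : Pr p = {g})
    (hL : ∀ x : α, corank x = r + 3 → x = u ∨ x = p) :
    (r = 3 ∧ sz α 7 = 2) ∨ (r = 4 ∧ sz α 8 = 3) := by
  have hr := hR.hr
  have hH := hR.hH
  have h1 := hR.sz_one
  have hl := hR.lst8 C hu hp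
  have uu : us u = r + 7 := hl.us_eq C h1 cl8 cl8_eq 6
  have up : us p = r + 5 := by
    have := hl.us_eq C h1 cl8 cl8_eq 7
    exact this
  have hff : ∀ j : Fin 7, r + j ≤ r + 5 → FF α (r + j) = ![1, 2, 2, 2, 2, 3, 2] j := by
    intro j hj
    refine hR.ffA2 C hu hp hL (K := r + 5) (by omega) ?_ j hj
    intro x hx
    refine us_level (m := r + 3) ?_ (by omega)
    intro y hy
    rcases hL y hy with rfl | rfl
    · omega
    · omega
  have f5 : FF α (r + 5) = 3 := hff 5 (le_refl _)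
  have f4 : FF α (r + 4) = 2 := hff 4 (by change r + 4 ≤ r + 5; omega)
  have f1 : FF α (r + 1) = 2 := hff 1 (by change r + 1 ≤ r + 5; omega)
  have f0 : FF α (r + 0) = 1 := hff 0 (by change r + 0 ≤ r + 5; omega)
  have hd := delta_formula C (by omega) h1 (hR.sz_r C) (k := r + 5) (by omega) (by omega)
  have e1 : r + 5 - 1 = r + 4 := by omega
  have e2 : r + 5 - 2 = r + 3 := by omega
  have e3 : r + 5 - r - 1 = 4 := by omega
  have e4 : r + 5 - r - 2 = 3 := by omega
  rw [e1, e2, e3, e4, hR.sz_r3 C hu hp hL, f5, f4] at hd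
  rcases eq_or_lt_of_le hr with h4 | h4
  · left
    subst h4
    have g4 : FF α 4 = 2 := f1
    have g3 : FF α 3 = 1 := f0
    rw [g4, g3] at hd
    have h7 : sz α (3 + 4) = 2 := by omega
    exact ⟨rfl, h7⟩
  · right
    have g3 : FF α 3 = 1 := FF_le C (by omega) (by omega) h1 h4
    have g4 : FF α 4 = 1 := by
      rcases eq_or_lt_of_le (Nat.succ_le_of_lt h4) with h5 | h5
      · rw [← h5] at f0
        exact f0
      · exact FF_le C (by omega) (by omega) h1 h5
    rw [g4, g3] at hd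
    have h7 : sz α (r + 4) = 3 := by omega
    have h8 := rthree_sz_le C (by omega) (by omega) h1 (r + 4)
    have h9 : r = 4 := by
      by_contra h
      have h10 : (r + 4) / r = 1 := by
        rw [Nat.add_div_left _ (by omega), Nat.div_eq_of_lt (by omega)]
      omega
    subst h9
    exact ⟨rfl, h7⟩

/-- level 8 if `r = 3` -/
theorem rthree_eight (C : Ctx α) {s : ℕ → α} {a b c d e g u p w x : α}
    (hR : R3 3 s a b c d e g) (hu : Pr u = {e, g}) (hp : Pr p = {g})
    (hL : ∀ x : α, corank x = 6 → x = u ∨ x = p) (hw : Pr w = {u}) (hx : Pr x = {u, p})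
    (hL' : ∀ y : α, corank y = 7 → y = w ∨ y = x) : sz α 8 = 1 := by
  have h1 := hR.sz_one
  have hl := hR.lst8 C hu hp
  have uu : us u = 3 + 7 := hl.us_eq C h1 cl8 cl8_eq 6
  have uw : us u < us w := by
    apply us_strict
    have : u ∈ Pr w := by rw [hw]; simp
    rw [Pool.Gauss.mem_Pr] at this
    exact this.lt
  have ux : us u < us x := by
    apply us_strict
    have : u ∈ Pr x := by rw [hx]; simp
    rw [Pool.Gauss.mem_Pr] at this
    exact this.lt
  have hff : ∀ j : Fin 7, FF α (3 + j) = ![1, 2, 2, 2, 2, 3, 2] j := by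
    intro j
    have hj := j.isLt
    refine hR.ffA2 C hu hp hL (K := 9) (by omega) ?_ j (by omega)
    intro y hy
    rcases Nat.lt_or_ge 7 (corank y) with h3 | h3
    · refine us_level (m := 7) ?_ h3
      intro z hz
      rcases hL' z hz with rfl | rfl
      · omega
      · omega
    · rcases hL' y (by omega) with rfl | rfl
      · omega
      · omega
  have f6 : FF α 9 = 2 := hff 6
  have f5 : FF α 8 = 3 := hff 5
  have f2 : FF α 5 = 2 := hff 2
  have f1 : FF α 4 = 2 := hff 1
  have hd := delta_formula C (by omega) h1 (hR.sz_r C) (k := 9) (by omega) (by omega)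
  have cw : corank w = 7 := by rw [R3.cor_pr C hw (mem_singleton_self _), hR.cu C hu]
  have cx : corank x = 7 := by rw [R3.cor_pr C hx (mem_insert_self _ _), hR.cu C hu]
  have h7 : sz α 7 = 2 := R3.sz_two_of cw cx (R3.ne_of_pr hx hw (hR.nup hu hp)).symm hL'
  have e1 : (9 : ℕ) - 1 = 8 := rfl
  have e2 : (9 : ℕ) - 2 = 7 := rfl
  have e3 : (9 : ℕ) - 3 - 1 = 5 := rfl
  have e4 : (9 : ℕ) - 3 - 2 = 4 := rfl
  rw [e1, e2, e3, e4, h7, f6, f5, f2, f1] at hd
  omega

/-- level 9 if `r = 4` -/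
theorem rthree_nine (C : Ctx α) {s : ℕ → α} {a b c d e g u p w x w' : α}
    (hR : R3 4 s a b c d e g) (hu : Pr u = {e, g}) (hp : Pr p = {g})
    (hL : ∀ x : α, corank x = 7 → x = u ∨ x = p) (hw : Pr w = {u}) (hx : Pr x = {u, p})
    (hw' : Pr w' = {p}) (hL' : ∀ y : α, corank y = 8 → y = w ∨ y = x ∨ y = w') :
    sz α 9 = 2 := by
  have h1 := hR.sz_one
  have hH := hR.hH
  have hl := hR.lst9 C hu hp hw'
  have uu : us u = 4 + 7 := hl.us_eq C h1 cl9 cl9_eq 6
  have uw' : us w' = 4 + 6 := hl.us_eq C h1 cl9 cl9_eq 8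
  have uw : us u < us w := by
    apply us_strict
    have : u ∈ Pr w := by rw [hw]; simp
    rw [Pool.Gauss.mem_Pr] at this
    exact this.lt
  have ux : us u < us x := by
    apply us_strict
    have : u ∈ Pr x := by rw [hx]; simp
    rw [Pool.Gauss.mem_Pr] at this
    exact this.lt
  have hl' := hl.sub iA4 iA4_inj pA4 pA4_eq
  have hff : ∀ j : Fin 7, FF α (4 + j) = ![1, 2, 2, 2, 2, 3, 3] j := by
    intro j
    have hj := j.isLt
    rw [hl'.FF C (K := 10) (by omega) (by omega) h1 ?_ (by omega), cntA4 j]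
    intro y hy hne
    rcases Nat.lt_or_ge 7 (corank y) with h3 | h3
    · rcases Nat.lt_or_ge 8 (corank y) with h4 | h4
      · refine us_level (m := 8) ?_ h4
        intro z hz
        rcases hL' z hz with rfl | rfl | rfl
        · omega
        · omega
        · omega
      · rcases hL' y (by omega) with rfl | rfl | rfl
        · omega
        · omega
        · exact absurd rfl (hne 7)
    · rcases hR.low hL hy h3 with rfl | rfl | rfl | rfl | rfl | rfl | rfl | rfl
      · exact absurd rfl (hne 0)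
      · exact absurd rfl (hne 1)
      · exact absurd rfl (hne 2)
      · exact absurd rfl (hne 3)
      · exact absurd rfl (hne 4)
      · exact absurd rfl (hne 5)
      · omega
      · exact absurd rfl (hne 6)
  have f6 : FF α 10 = 3 := hff 6
  have f5 : FF α 9 = 3 := hff 5
  have f1 : FF α 5 = 2 := hff 1
  have f0 : FF α 4 = 1 := hff 0
  have hd := delta_formula C (by omega) h1 (hR.sz_r C) (k := 10) (by omega) (by omega)
  have cw : corank w = 8 := by rw [R3.cor_pr C hw (mem_singleton_self _), hR.cu C hu]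
  have cx : corank x = 8 := by rw [R3.cor_pr C hx (mem_insert_self _ _), hR.cu C hu]
  have cw' : corank w' = 8 := by rw [R3.cor_pr C hw' (mem_singleton_self _), hR.cp C hp]
  have hup := hR.nup hu hp
  have n1 : w ≠ x := (R3.ne_of_pr hx hw hup).symm
  have n2 : x ≠ w' := R3.ne_of_pr' hx hw' hup
  have n3 : w ≠ w' := by
    rintro rfl
    rw [hw] at hw'
    exact hup (singleton_injective hw')
  have h8 : sz α 8 = 3 := by
    unfold sz
    rw [card_eq_three]
    refine ⟨w, x, w', n1, n3, n2, ?_⟩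
    ext z
    rw [mem_lev, mem_insert, mem_insert, mem_singleton]
    constructor
    · exact hL' z
    · rintro (rfl | rfl | rfl)
      · exact cw
      · exact cx
      · exact cw'
  have e1 : (10 : ℕ) - 1 = 9 := rfl
  have e2 : (10 : ℕ) - 2 = 8 := rfl
  have e3 : (10 : ℕ) - 4 - 1 = 5 := rfl
  have e4 : (10 : ℕ) - 4 - 2 = 4 := rfl
  rw [e1, e2, e3, e4, h8, f6, f5, f1, f0] at hd
  omega

end Pool.Gauss
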