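import Pool.Agent.Work.MP_065141_co.Ext

/-!
# Counting filters (the polynomial `U_1`) and the sizes of the levels
-/

set_option autoImplicit false
set_option linter.unusedSectionVars false
open scoped Classical
open Finset

namespace Pool.Gauss

/-- size of the principal filter of the cell `(c, d)` of the shifted staircase -/
def csz (c d : ℕ) : ℕ := (c + 1) * (d + 1) - c * (c + 1) / 2

/-- sizes of the levels of the shifted staircase with `N` columns -/
def st (N l : ℕ) : ℕ := ((range (l + 1)).filter fun c => c ≤ l - c ∧ l - c < N).card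

/-! ### the model: ideals of the staircase -/

/-- cells of the shifted staircase -/
def stCells (N : ℕ) : Finset (ℕ × ℕ) :=
  ((range N) ×ˢ (range N)).filter fun p => p.1 ≤ p.2

lemma mem_stCells {N c d : ℕ} : (c, d) ∈ stCells N ↔ c ≤ d ∧ d < N := by
  unfold stCells
  rw [mem_filter, mem_product, mem_range, mem_range]
  constructor
  · rintro ⟨⟨_, h1⟩, h2⟩
    exact ⟨h2, h1⟩
  · rintro ⟨h1, h2⟩
    exact ⟨⟨by omega, h2⟩, h1⟩

/-- closed under going to a parent cell -/
def StCl (I : Finset (ℕ × ℕ)) : Prop :=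
  (∀ c d, (c + 1, d) ∈ I → (c, d) ∈ I) ∧ ∀ c d, c ≤ d → (c, d + 1) ∈ I → (c, d) ∈ I

/-- the ideals of the staircase -/
noncomputable def stId (N : ℕ) : Finset (Finset (ℕ × ℕ)) := (stCells N).powerset.filter StCl

lemma mem_stId {N : ℕ} {I : Finset (ℕ × ℕ)} : I ∈ stId N ↔ I ⊆ stCells N ∧ StCl I := by
  rw [stId, mem_filter, mem_powerset]

lemma StCl.le {I : Finset (ℕ × ℕ)} (h : StCl I) {c d c' d' : ℕ} (hI : (c, d) ∈ I)
    (h1 : c' ≤ c) (h2 : d' ≤ d) (h3 : c' ≤ d') : (c', d') ∈ I := by
  have key1 : ∀ k c, (c + k, d) ∈ I → (c, d) ∈ I := by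
    intro k
    induction k with
    | zero => intro c h; exact h
    | succ k ih =>
      intro c h4
      exact ih c (h.1 _ _ (by rw [add_assoc]; exact h4))
  have key2 : ∀ k d, c' ≤ d → (c', d + k) ∈ I → (c', d) ∈ I := by
    intro k
    induction k with
    | zero => intro d _ h; exact h
    | succ k ih =>
      intro d h5 h4
      exact ih d h5 (h.2 _ _ (by omega) (by rw [add_assoc]; exact h4))
  have h6 : (c', d) ∈ I := key1 (c - c') c' (by rw [Nat.add_sub_cancel' h1]; exact hI)
  exact key2 (d - d') d' h3 (by rw [Nat.add_sub_cancel' h2]; exact h6)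

/-- the shift of a set of cells, with a full first row of `n` cells -/
def stUp (n : ℕ) (I : Finset (ℕ × ℕ)) : Finset (ℕ × ℕ) :=
  (range n).image (fun d => (0, d)) ∪ I.image fun p => (p.1 + 1, p.2 + 1)

lemma mem_stUp {n : ℕ} {I : Finset (ℕ × ℕ)} {c d : ℕ} :
    (c, d) ∈ stUp n I ↔ (c = 0 ∧ d < n) ∨ (∃ c' d', c = c' + 1 ∧ d = d' + 1 ∧ (c', d') ∈ I) := by
  unfold stUp
  rw [mem_union, mem_image, mem_image]
  apply or_congr
  · constructor
    · rintro ⟨e, he, h⟩
      rw [Prod.mk.injEq] at h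
      rw [mem_range] at he
      omega
    · rintro ⟨rfl, h⟩
      exact ⟨d, mem_range.2 h, rfl⟩
  · constructor
    · rintro ⟨⟨c', d'⟩, h1, h2⟩
      rw [Prod.mk.injEq] at h2
      exact ⟨c', d', h2.1.symm, h2.2.symm, h1⟩
    · rintro ⟨c', d', rfl, rfl, h⟩
      exact ⟨(c', d'), h, rfl⟩

lemma card_stUp (n : ℕ) (I : Finset (ℕ × ℕ)) : (stUp n I).card = n + I.card := by
  unfold stUp
  rw [card_union_of_disjoint, card_image_of_injective, card_image_of_injective, card_range]
  · rintro ⟨a, b⟩ ⟨c, d⟩ h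
    rw [Prod.mk.injEq] at h ⊢
    simp only at h
    omega
  · intro a b h
    rw [Prod.mk.injEq] at h
    exact h.2
  · rw [Finset.disjoint_left]
    rintro ⟨a, b⟩ h1 h2
    rw [mem_image] at h1 h2
    obtain ⟨e, _, h3⟩ := h1
    obtain ⟨e', _, h4⟩ := h2
    rw [Prod.mk.injEq] at h3 h4
    omega

/-- generating function of the ideals of the staircase -/
theorem gen_stId (N : ℕ) : ∑ I ∈ stId N, (Polynomial.X : Polynomial ℤ) ^ I.card =
    ∏ l ∈ range N, (1 + (Polynomial.X : Polynomial ℤ) ^ (l + 1)) := by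
  induction N with
  | zero =>
    have h1 : stId 0 = {∅} := by
      ext I
      rw [mem_stId, mem_singleton]
      constructor
      · rintro ⟨h1, _⟩
        rw [← subset_empty]
        intro x hx
        have := h1 hx
        obtain ⟨c, d⟩ := x
        rw [mem_stCells] at this
        omega
      · rintro rfl
        refine ⟨empty_subset _, ?_, ?_⟩
        · intro c d h; exact absurd h (notMem_empty _)
        · intro c d _ h; exact absurd h (notMem_empty _)
    rw [h1]
    simp
  | succ N ih =>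
    rw [prod_range_succ, ← ih, mul_add, mul_one, ← sum_filter_add_sum_filter_not (stId (N + 1))
      (fun I => (0, N) ∉ I)]
    congr 1
    · apply Finset.sum_congr _ (fun _ _ => rfl)
      ext I
      rw [mem_filter, mem_stId, mem_stId]
      constructor
      · rintro ⟨⟨h1, h2⟩, h3⟩
        refine ⟨?_, h2⟩
        rintro ⟨c, d⟩ h4
        have h5 := h1 h4
        rw [mem_stCells] at h5 ⊢
        refine ⟨h5.1, ?_⟩
        by_contra h6
        have h7 : d = N := by omega
        subst h7
        exact h3 (h2.le h4 (Nat.zero_le _) le_rfl (Nat.zero_le _))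
      · rintro ⟨h1, h2⟩
        refine ⟨⟨?_, h2⟩, ?_⟩
        · rintro ⟨c, d⟩ h4
          have h5 := h1 h4
          rw [mem_stCells] at h5 ⊢
          omega
        · intro h4
          have h5 := h1 h4
          rw [mem_stCells] at h5
          omega
    · rw [Finset.sum_mul]
      symm
      refine Finset.sum_bij' (fun I _ => stUp (N + 1) I)
        (fun J _ => (stCells N).filter fun p => (p.1 + 1, p.2 + 1) ∈ J) ?_ ?_ ?_ ?_ ?_
      · intro I hI
        rw [mem_stId] at hI
        rw [mem_filter, mem_stId, not_not]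
        refine ⟨⟨?_, ?_, ?_⟩, ?_⟩
        · rintro ⟨c, d⟩ h4
          rw [mem_stUp] at h4
          rw [mem_stCells]
          rcases h4 with ⟨rfl, h5⟩ | ⟨c', d', rfl, rfl, h5⟩
          · omega
          · have := hI.1 h5
            rw [mem_stCells] at this
            omega
        · intro c d h4
          rw [mem_stUp] at h4 ⊢
          rcases h4 with ⟨h5, _⟩ | ⟨c', d', h5, rfl, h6⟩
          · omega
          · have h7 := hI.1 h6
            rw [mem_stCells] at h7
            rcases c with _ | c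
            · left
              omega
            · right
              refine ⟨c, d', rfl, rfl, hI.2.1 c d' ?_⟩
              have : c' = c + 1 := by omega
              rwa [this] at h6
        · intro c d h3 h4
          rw [mem_stUp] at h4 ⊢
          rcases h4 with ⟨h5, h6⟩ | ⟨c', d', rfl, h5, h6⟩
          · left
            omega
          · right
            have h7 := hI.1 h6
            rw [mem_stCells] at h7
            rcases d with _ | d
            · omega
            · refine ⟨c', d, rfl, rfl, hI.2.2 c' d (by omega) ?_⟩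
              have : d' = d + 1 := by omega
              rwa [this] at h6
        · rw [mem_stUp]
          left
          omega
      · intro J hJ
        rw [mem_filter, mem_stId, not_not] at hJ
        rw [mem_stId]
        refine ⟨filter_subset _ _, ?_, ?_⟩
        · intro c d h4
          rw [mem_filter, mem_stCells] at h4 ⊢
          refine ⟨by omega, hJ.1.2.1 _ _ h4.2⟩
        · intro c d h3 h4
          rw [mem_filter, mem_stCells] at h4 ⊢
          refine ⟨by omega, hJ.1.2.2 _ _ (by simp only; omega) h4.2⟩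
      · intro I hI
        rw [mem_stId] at hI
        ext ⟨c, d⟩
        rw [mem_filter, mem_stCells, mem_stUp]
        constructor
        · rintro ⟨h1, h2 | ⟨c', d', h2, h3, h4⟩⟩
          · simp only at h2
            omega
          · simp only at h2 h3
            have e1 : c' = c := by omega
            have e2 : d' = d := by omega
            rwa [e1, e2] at h4
        · intro h1
          have h2 := hI.1 h1
          rw [mem_stCells] at h2
          exact ⟨h2, Or.inr ⟨c, d, rfl, rfl, h1⟩⟩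
      · intro J hJ
        rw [mem_filter, mem_stId, not_not] at hJ
        ext ⟨c, d⟩
        rw [mem_stUp]
        constructor
        · rintro (⟨rfl, h1⟩ | ⟨c', d', rfl, rfl, h1⟩)
          · exact hJ.1.2.le hJ.2 le_rfl (by omega) (Nat.zero_le _)
          · rw [mem_filter] at h1
            exact h1.2
        · intro h1
          have h2 := hJ.1.1 h1
          rw [mem_stCells] at h2
          rcases c with _ | c
          · left
            omega
          · right
            rcases d with _ | d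
            · omega
            · refine ⟨c, d, rfl, rfl, ?_⟩
              rw [mem_filter, mem_stCells]
              exact ⟨by omega, h1⟩
      · intro I _
        rw [card_stUp]
        ring

/-- products by levels -/
lemma prod_by_level {β : Type} (S : Finset β) (lv : β → ℕ) (M : ℕ) (hM : ∀ x ∈ S, lv x < M)
    (g : ℕ → Polynomial ℤ) :
    ∏ x ∈ S, g (lv x) = ∏ l ∈ range M, g l ^ (S.filter fun x => lv x = l).card := by
  rw [← Finset.prod_fiberwise_of_maps_to (g := lv) (t := range M)
    (fun x hx => mem_range.2 (hM x hx))]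
  apply Finset.prod_congr rfl
  intro l _
  rw [Finset.prod_congr rfl (g := fun _ => g l), Finset.prod_const]
  intro x hx
  rw [mem_filter] at hx
  rw [hx.2]

/-- comparison of level sizes -/
theorem compare_sizes {U G : Polynomial ℤ} {n s : ℕ → ℕ} {M K : ℕ}
    (hU : U * ∏ l ∈ range M, (1 - (Polynomial.X : Polynomial ℤ) ^ (l + 1)) ^ n l =
      ∏ l ∈ range M, (1 - (Polynomial.X : Polynomial ℤ) ^ (l + 2)) ^ n l)
    (hG : G * ∏ l ∈ range M, (1 - (Polynomial.X : Polynomial ℤ) ^ (l + 1)) ^ s l =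
      ∏ l ∈ range M, (1 - (Polynomial.X : Polynomial ℤ) ^ (l + 2)) ^ s l)
    (hK : K ≤ M) (h : ∀ j ≤ K, U.coeff j = G.coeff j) : ∀ l < K, n l = s l := by
  intro j
  induction j using Nat.strong_induction_on with
  | _ j ih =>
  intro hj
  obtain ⟨t, rfl⟩ : ∃ t, M = j + 1 + t := ⟨M - (j + 1), by omega⟩
  set I : Ideal (Polynomial ℤ) := Ideal.span {Polynomial.X ^ (j + 2)} with hI
  set φ : Polynomial ℤ →+* Polynomial ℤ ⧸ I := Ideal.Quotient.mk I with hφ
  have h0 : (φ Polynomial.X) ^ (j + 2) = 0 := by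
    rw [← map_pow, hφ, Ideal.Quotient.eq_zero_iff_mem, hI]
    exact Ideal.mem_span_singleton_self _
  have h0' : ∀ k, j + 2 ≤ k → (φ Polynomial.X) ^ k = 0 := by
    intro k hk
    exact pow_eq_zero_of_le hk h0
  have h1 : φ U = φ G := by
    rw [hφ, Ideal.Quotient.mk_eq_mk_iff_sub_mem, hI, Ideal.mem_span_singleton,
      Polynomial.X_pow_dvd_iff]
    intro d hd
    rw [Polynomial.coeff_sub, h d (by omega), sub_self]
  have h2 : ∀ k : ℕ, (1 - (φ Polynomial.X) ^ (j + 1)) ^ k = 1 - k * (φ Polynomial.X) ^ (j + 1) := by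
    intro k
    induction k with
    | zero => simp
    | succ k ih2 =>
      rw [pow_succ, ih2]
      have h3 : (φ Polynomial.X) ^ (j + 1) * (φ Polynomial.X) ^ (j + 1) = 0 := by
        rw [← pow_add]
        exact h0' _ (by omega)
      push_cast
      linear_combination (k : Polynomial ℤ ⧸ I) * h3
  have h3 : ∀ r : ℕ → ℕ, φ (∏ l ∈ range (j + 1 + t), (1 - Polynomial.X ^ (l + 1)) ^ r l) =
      φ (∏ l ∈ range j, (1 - Polynomial.X ^ (l + 1)) ^ r l) *
        (1 - r j * (φ Polynomial.X) ^ (j + 1)) := by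
    intro r
    rw [Finset.prod_range_add, Finset.prod_range_succ, map_mul, map_mul, map_prod φ _ (range t)]
    have h4 : ∏ x ∈ range t, φ ((1 - Polynomial.X ^ (j + 1 + x + 1)) ^ r (j + 1 + x)) = 1 := by
      apply Finset.prod_eq_one
      intro x _
      rw [map_pow, map_sub, map_one, map_pow, h0' _ (by omega), sub_zero, one_pow]
    rw [h4, mul_one, map_pow, map_sub, map_one, map_pow, h2]
  have h5 : ∀ r : ℕ → ℕ, φ (∏ l ∈ range (j + 1 + t), (1 - Polynomial.X ^ (l + 2)) ^ r l) =
      φ (∏ l ∈ range j, (1 - Polynomial.X ^ (l + 2)) ^ r l) := by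
    intro r
    rw [Finset.prod_range_add, Finset.prod_range_succ, map_mul, map_mul, map_prod φ _ (range t)]
    have h4 : ∏ x ∈ range t, φ ((1 - Polynomial.X ^ (j + 1 + x + 2)) ^ r (j + 1 + x)) = 1 := by
      apply Finset.prod_eq_one
      intro x _
      rw [map_pow, map_sub, map_one, map_pow, h0' _ (by omega), sub_zero, one_pow]
    rw [h4, mul_one, map_pow, map_sub, map_one, map_pow, h0' (j + 2) le_rfl, sub_zero, one_pow,
      mul_one]
  have h6 := congrArg φ hU
  have h7 := congrArg φ hG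
  rw [map_mul, h3, h5] at h6 h7
  have e1 : ∏ l ∈ range j, (1 - (Polynomial.X : Polynomial ℤ) ^ (l + 1)) ^ s l =
      ∏ l ∈ range j, (1 - (Polynomial.X : Polynomial ℤ) ^ (l + 1)) ^ n l := by
    apply Finset.prod_congr rfl
    intro l hl
    rw [mem_range] at hl
    rw [ih l hl (by omega)]
  have e2 : ∏ l ∈ range j, (1 - (Polynomial.X : Polynomial ℤ) ^ (l + 2)) ^ s l =
      ∏ l ∈ range j, (1 - (Polynomial.X : Polynomial ℤ) ^ (l + 2)) ^ n l := by
    apply Finset.prod_congr rfl
    intro l hl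
    rw [mem_range] at hl
    rw [ih l hl (by omega)]
  rw [e1, e2, ← h1, ← h6] at h7
  set A : Polynomial ℤ := ∏ l ∈ range j, (1 - (Polynomial.X : Polynomial ℤ) ^ (l + 1)) ^ n l with hA
  have h8 : φ (U * A * Polynomial.C ((n j : ℤ) - s j) * Polynomial.X ^ (j + 1)) = 0 := by
    rw [map_mul, map_mul, map_mul, map_pow]
    have h9 : φ (Polynomial.C ((n j : ℤ) - s j)) = (n j : Polynomial ℤ ⧸ I) - s j := by
      simp
    rw [h9]
    linear_combination h7
  rw [hφ, Ideal.Quotient.eq_zero_iff_mem, hI, Ideal.mem_span_singleton,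
    Polynomial.X_pow_dvd_iff] at h8
  have h10 := h8 (j + 1) (by omega)
  rw [Polynomial.coeff_mul_X_pow', if_pos le_rfl, Nat.sub_self, Polynomial.mul_coeff_zero,
    Polynomial.mul_coeff_zero, Polynomial.coeff_C_zero] at h10
  have h11 : A.coeff 0 = 1 := by
    rw [hA, Polynomial.coeff_zero_prod]
    apply Finset.prod_eq_one
    intro l _
    rw [Polynomial.coeff_zero_eq_eval_zero]
    simp
  have h12 : U.coeff 0 = 1 := by
    have h13 := congrArg (fun p => Polynomial.coeff p 0) hU
    simp only [Polynomial.mul_coeff_zero, Polynomial.coeff_zero_prod] at h13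
    rw [Finset.prod_eq_one, Finset.prod_eq_one, mul_one] at h13
    · exact h13
    · intro l _
      rw [Polynomial.coeff_zero_eq_eval_zero]
      simp
    · intro l _
      rw [Polynomial.coeff_zero_eq_eval_zero]
      simp
  rw [h11, h12, one_mul, one_mul] at h10
  omega

/-- one column of the staircase -/
lemma stCol (N : ℕ) : (1 + (Polynomial.X : Polynomial ℤ) ^ (N + 1)) *
    ∏ c ∈ range (N + 1), (1 - (Polynomial.X : Polynomial ℤ) ^ (c + N + 1)) =
      ∏ c ∈ range (N + 1), (1 - (Polynomial.X : Polynomial ℤ) ^ (c + N + 2)) := by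
  have h1 : (1 : Polynomial ℤ) - Polynomial.X ^ (N + 1) ≠ 0 := by
    intro h0
    have := congrArg (Polynomial.eval 0) h0
    simp at this
  apply mul_right_cancel₀ h1
  have h2 := Finset.prod_range_succ'
    (fun c => (1 : Polynomial ℤ) - (Polynomial.X : Polynomial ℤ) ^ (c + N + 1)) (N + 1)
  rw [Finset.prod_range_succ] at h2
  have h3 : ∏ c ∈ range (N + 1), (1 - (Polynomial.X : Polynomial ℤ) ^ (c + N + 2)) =
      ∏ k ∈ range (N + 1), (1 - (Polynomial.X : Polynomial ℤ) ^ (k + 1 + N + 1)) := by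
    apply Finset.prod_congr rfl
    intro k _
    congr 2
    omega
  rw [h3]
  have h4 : (1 : Polynomial ℤ) - Polynomial.X ^ (N + 1 + N + 1) =
      (1 - Polynomial.X ^ (N + 1)) * (1 + Polynomial.X ^ (N + 1)) := by
    have : N + 1 + N + 1 = (N + 1) + (N + 1) := by omega
    rw [this, pow_add]
    ring
  rw [h4] at h2
  have h5 : (0 : ℕ) + N + 1 = N + 1 := by omega
  rw [h5] at h2
  rw [← h2]
  ring

lemma stCells_succ (N : ℕ) : stCells (N + 1) = stCells N ∪ (range (N + 1)).image fun c => (c, N) := by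
  ext ⟨c, d⟩
  rw [mem_union, mem_stCells, mem_stCells, mem_image]
  constructor
  · intro h
    by_cases h1 : d = N
    · right
      exact ⟨c, mem_range.2 (by omega), by rw [h1]⟩
    · left
      omega
  · rintro (h | ⟨e, h1, h2⟩)
    · omega
    · rw [mem_range] at h1
      rw [Prod.mk.injEq] at h2
      omega

lemma prod_stCells_succ (N : ℕ) (g : ℕ × ℕ → Polynomial ℤ) :
    ∏ p ∈ stCells (N + 1), g p = (∏ p ∈ stCells N, g p) * ∏ c ∈ range (N + 1), g (c, N) := by
  rw [stCells_succ, Finset.prod_union, Finset.prod_image]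
  · intro a _ b _ h
    rw [Prod.mk.injEq] at h
    exact h.1
  · rw [Finset.disjoint_left]
    rintro ⟨a, b⟩ h1 h2
    rw [mem_stCells] at h1
    rw [mem_image] at h2
    obtain ⟨e, _, h3⟩ := h2
    rw [Prod.mk.injEq] at h3
    omega

/-- product formula for the staircase -/
lemma stProd (N : ℕ) : (∏ l ∈ range N, (1 + (Polynomial.X : Polynomial ℤ) ^ (l + 1))) *
    ∏ p ∈ stCells N, (1 - (Polynomial.X : Polynomial ℤ) ^ (p.1 + p.2 + 1)) =
      ∏ p ∈ stCells N, (1 - (Polynomial.X : Polynomial ℤ) ^ (p.1 + p.2 + 2)) := by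
  induction N with
  | zero => simp [stCells]
  | succ N ih =>
    rw [prod_stCells_succ, prod_stCells_succ, Finset.prod_range_succ, ← ih, ← stCol]
    ring

lemma st_eq (N l : ℕ) : ((stCells N).filter fun p => p.1 + p.2 = l).card = st N l := by
  unfold st
  symm
  refine Finset.card_bij (fun c _ => (c, l - c)) ?_ ?_ ?_
  · intro c hc
    rw [mem_filter, mem_range] at hc
    rw [mem_filter, mem_stCells]
    refine ⟨hc.2, ?_⟩
    simp only
    omega
  · intro a _ b _ h
    rw [Prod.mk.injEq] at h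
    exact h.1
  · rintro ⟨c, d⟩ h
    rw [mem_filter, mem_stCells] at h
    simp only at h
    refine ⟨c, ?_, ?_⟩
    · rw [mem_filter, mem_range]
      have : l - c = d := by omega
      rw [this]
      omega
    · rw [Prod.mk.injEq]
      omega

/-- the identity for the staircase, by levels -/
theorem st_identity (N M : ℕ) (hM : 2 * N ≤ M + 1) :
    (∑ I ∈ stId N, (Polynomial.X : Polynomial ℤ) ^ I.card) *
      ∏ l ∈ range M, (1 - (Polynomial.X : Polynomial ℤ) ^ (l + 1)) ^ st N l =
      ∏ l ∈ range M, (1 - (Polynomial.X : Polynomial ℤ) ^ (l + 2)) ^ st N l := by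
  have h1 := prod_by_level (stCells N) (fun p => p.1 + p.2) M (by
    rintro ⟨c, d⟩ h
    rw [mem_stCells] at h
    simp only
    omega) (fun l => 1 - Polynomial.X ^ (l + 1))
  have h2 := prod_by_level (stCells N) (fun p => p.1 + p.2) M (by
    rintro ⟨c, d⟩ h
    rw [mem_stCells] at h
    simp only
    omega) (fun l => 1 - Polynomial.X ^ (l + 2))
  simp only [st_eq] at h1 h2
  rw [← h1, ← h2, gen_stId, stProd]

variable {α : Type} [Fintype α] [PartialOrder α]

/-- the identity `U_1` of a Gaussian poset -/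
theorem U_one {h : Fin (Fintype.card α) → ℕ} (hG : IsGaussianWith α h) :
    (∑ F ∈ upSets α, (Polynomial.X : Polynomial ℤ) ^ F.card) *
      ∏ x : α, (1 - (Polynomial.X : Polynomial ℤ) ^ (corank x + 1)) =
      ∏ x : α, (1 - (Polynomial.X : Polynomial ℤ) ^ (corank x + 2)) := by
  obtain ⟨e, he⟩ := exists_equiv hG
  have h1 := hG.2 1
  rw [← e.prod_comp (fun x => (1 - (Polynomial.X : Polynomial ℤ) ^ (corank x + 1))),
    ← e.prod_comp (fun x => (1 - (Polynomial.X : Polynomial ℤ) ^ (corank x + 2)))]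
  have h2 : ∏ i, (1 - (Polynomial.X : Polynomial ℤ) ^ (1 + h i)) =
      ∏ i, (1 - (Polynomial.X : Polynomial ℤ) ^ (corank (e i) + 2)) := by
    apply Finset.prod_congr rfl
    intro i _
    rw [he i]
    congr 2
    omega
  rw [h2] at h1
  simp only [he] at h1
  rw [← h1]
  congr 1
  refine Finset.sum_bij' (fun F _ => fun x => if x ∈ F then (1 : Fin (1 + 1)) else 0)
    (fun σ _ => univ.filter fun x => σ x = 1) ?_ ?_ ?_ ?_ ?_
  · intro F hF
    rw [mem_upSets] at hF
    rw [mem_filter]
    refine ⟨mem_univ _, ?_⟩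
    intro x y hxy
    by_cases hx : x ∈ F
    · have hy := hF x hx y hxy
      simp only [hx, hy, if_true, le_refl]
    · simp only [hx, if_false]
      exact Fin.zero_le _
  · intro σ hσ
    rw [mem_filter] at hσ
    rw [mem_upSets]
    intro x hx y hxy
    rw [mem_filter] at hx ⊢
    refine ⟨mem_univ _, ?_⟩
    have h3 := hσ.2 hxy
    have h4 : (σ x).val = 1 := by rw [hx.2]; rfl
    have h5 : (σ x).val ≤ (σ y).val := h3
    have h6 := (σ y).isLt
    apply Fin.ext
    rw [Fin.val_one]
    omega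
  · intro F _
    ext x
    rw [mem_filter]
    by_cases hx : x ∈ F
    · simp [hx]
    · simp [hx]
  · intro σ _
    funext x
    have h10 : x ∈ univ.filter (fun x => σ x = 1) ↔ σ x = 1 := by
      rw [mem_filter]
      exact ⟨fun h => h.2, fun h => ⟨mem_univ _, h⟩⟩
    show (if x ∈ univ.filter (fun x => σ x = 1) then (1 : Fin (1 + 1)) else 0) = σ x
    by_cases hx : σ x = 1
    · rw [if_pos (h10.2 hx), hx]
    · rw [if_neg (mt h10.1 hx)]
      apply Fin.ext
      have h6 := (σ x).isLt
      have h7 : (σ x).val ≠ 1 := by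
        intro h8
        apply hx
        apply Fin.ext
        rw [h8]
        rfl
      rw [Fin.val_zero]
      omega
  · intro F _
    congr 1
    rw [Finset.card_eq_sum_ones, ← Finset.sum_filter_add_sum_filter_not univ (fun x => x ∈ F)]
    have h8 : ∑ x ∈ univ.filter (fun x => ¬ x ∈ F),
        ((if x ∈ F then (1 : Fin (1 + 1)) else 0) : Fin (1 + 1)).val = 0 := by
      apply Finset.sum_eq_zero
      intro x hx
      rw [mem_filter] at hx
      rw [if_neg hx.2]
      rfl
    rw [h8, add_zero]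
    have h9 : univ.filter (fun x => x ∈ F) = F := by
      ext x
      simp
    rw [h9]
    apply Finset.sum_congr rfl
    intro x hx
    show 1 = (if x ∈ F then (1 : Fin (1 + 1)) else 0).val
    rw [if_pos hx]
    rfl

/-- the identity `U_1` by levels -/
theorem U_one_levels (C : Ctx α) {M : ℕ} (hM : HT α ≤ M) :
    (∑ F ∈ upSets α, (Polynomial.X : Polynomial ℤ) ^ F.card) *
      ∏ l ∈ range M, (1 - (Polynomial.X : Polynomial ℤ) ^ (l + 1)) ^ sz α l =
      ∏ l ∈ range M, (1 - (Polynomial.X : Polynomial ℤ) ^ (l + 2)) ^ sz α l := by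
  obtain ⟨h, hG⟩ := C.gauss
  have h1 := prod_by_level (univ : Finset α) corank M (fun x _ => by
    have := corank_lt_HT x
    omega) (fun l => 1 - Polynomial.X ^ (l + 1))
  have h2 := prod_by_level (univ : Finset α) corank M (fun x _ => by
    have := corank_lt_HT x
    omega) (fun l => 1 - Polynomial.X ^ (l + 2))
  have h3 : ∀ l, (univ.filter fun x : α => corank x = l).card = sz α l := by
    intro l
    rfl
  simp only [h3] at h1 h2
  rw [← h1, ← h2, U_one hG]

/-- coefficients of a generating function of sets by size -/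
lemma coeff_gen {β : Type} (S : Finset (Finset β)) (j : ℕ) :
    (∑ F ∈ S, (Polynomial.X : Polynomial ℤ) ^ F.card).coeff j =
      ((S.filter fun F => F.card = j).card : ℤ) := by
  rw [Polynomial.finsetSum_coeff, Finset.card_filter]
  push_cast
  apply Finset.sum_congr rfl
  intro F _
  rw [Polynomial.coeff_X_pow]
  apply if_congr _ rfl rfl
  exact eq_comm

/-- size of the principal filter -/
noncomputable def us (x : α) : ℕ := (univ.filter fun y => x ≤ y).card

/-- the top levels `0..i` are those of the staircase with `N` columns, and the right arm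
`f 0 d` is known completely -/
structure ArmTop (N i : ℕ) (f : ℕ → ℕ → α) : Prop where
  top : Top (Stc N) i f
  cor : ∀ d, i < d → d < N → corank (f 0 d) = d
  pr : ∀ d, i < d → d < N → Pr (f 0 d) = {f 0 (d - 1)}
  sgl : ∀ (x : α) (d : ℕ), i ≤ d → d < N → Pr x = {f 0 d} → d + 1 < N ∧ x = f 0 (d + 1)

/-- the part of `ArmTop` which describes the order on the available cells -/
structure ArmZ (N i : ℕ) (f : ℕ → ℕ → α) : Prop where
  top : Top (Stc N) i f
  cor : ∀ d, i < d → d < N → corank (f 0 d) = d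
  pr : ∀ d, i < d → d < N → Pr (f 0 d) = {f 0 (d - 1)}

lemma ArmTop.toZ {N i : ℕ} {f : ℕ → ℕ → α} (hA : ArmTop N i f) : ArmZ N i f :=
  ⟨hA.top, hA.cor, hA.pr⟩

/-! ### principal ideals of cells -/

/-- the principal ideal of a cell -/
def pid (c d : ℕ) : Finset (ℕ × ℕ) :=
  ((range (c + 1)) ×ˢ (range (d + 1))).filter fun p => p.1 ≤ p.2

lemma mem_pid {c d a b : ℕ} : (a, b) ∈ pid c d ↔ a ≤ c ∧ b ≤ d ∧ a ≤ b := by
  unfold pid
  rw [mem_filter, mem_product, mem_range, mem_range]
  simp only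
  omega

lemma pid_succ {c d : ℕ} : pid (c + 1) d = pid c d ∪ (Icc (c + 1) d).image fun b => (c + 1, b) := by
  ext ⟨a, b⟩
  rw [mem_union, mem_pid, mem_pid, mem_image]
  constructor
  · intro h
    by_cases h1 : a = c + 1
    · right
      exact ⟨b, mem_Icc.2 (by omega), by rw [h1]⟩
    · left
      omega
  · rintro (h | ⟨e, h1, h2⟩)
    · omega
    · rw [mem_Icc] at h1
      rw [Prod.mk.injEq] at h2
      omega

lemma card_pid_sum (c d : ℕ) (h : c ≤ d) : (pid c d).card = ∑ e ∈ range (c + 1), (d + 1 - e) := by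
  induction c with
  | zero =>
    rw [sum_range_one]
    have h1 : pid 0 d = (range (d + 1)).image fun b => (0, b) := by
      ext ⟨a, b⟩
      rw [mem_pid, mem_image]
      constructor
      · intro h1
        refine ⟨b, mem_range.2 (by omega), ?_⟩
        rw [Prod.mk.injEq]
        omega
      · rintro ⟨e, h1, h2⟩
        rw [mem_range] at h1
        rw [Prod.mk.injEq] at h2
        omega
    rw [h1, card_image_of_injective, card_range, Nat.sub_zero]
    intro a b h2
    rw [Prod.mk.injEq] at h2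
    exact h2.2
  | succ c ih =>
    rw [sum_range_succ, ← ih (by omega), pid_succ, card_union_of_disjoint,
      card_image_of_injective, Nat.card_Icc]
    · intro a b h2
      rw [Prod.mk.injEq] at h2
      exact h2.2
    · rw [Finset.disjoint_left]
      rintro ⟨a, b⟩ h1 h2
      rw [mem_pid] at h1
      rw [mem_image] at h2
      obtain ⟨e, _, h3⟩ := h2
      rw [Prod.mk.injEq] at h3
      omega

lemma csz_eq_sum (c d : ℕ) (h : c ≤ d) : csz c d = ∑ e ∈ range (c + 1), (d + 1 - e) := by
  have h1 : ∑ e ∈ range (c + 1), (d + 1 - e) + ∑ e ∈ range (c + 1), e = (c + 1) * (d + 1) := by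
    rw [← sum_add_distrib, sum_congr rfl (g := fun _ => d + 1), sum_const, card_range, smul_eq_mul]
    intro e he
    rw [mem_range] at he
    omega
  have h2 : ∑ e ∈ range (c + 1), e = c * (c + 1) / 2 := by
    rw [Finset.sum_range_id, Nat.add_sub_cancel, mul_comm]
  unfold csz
  rw [h2] at h1
  omega

lemma card_pid {c d : ℕ} (h : c ≤ d) : (pid c d).card = csz c d := by
  rw [card_pid_sum c d h, csz_eq_sum c d h]

lemma pid_subset {I : Finset (ℕ × ℕ)} (h : StCl I) {c d : ℕ} (hI : (c, d) ∈ I) : pid c d ⊆ I := by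
  rintro ⟨a, b⟩ h1
  rw [mem_pid] at h1
  exact h.le hI h1.1 h1.2.1 h1.2.2

lemma pid_cl (c d : ℕ) : StCl (pid c d) := by
  constructor
  · intro a b h
    rw [mem_pid] at h ⊢
    omega
  · intro a b h1 h
    rw [mem_pid] at h ⊢
    omega

/-! ### available cells -/

/-- the available cells -/
def Avl (N i c d : ℕ) : Prop := c ≤ d ∧ d < N ∧ (c = 0 ∨ c + d ≤ i)

namespace ArmZ

variable {N i : ℕ} {f : ℕ → ℕ → α}

lemma corank_eq (hA : ArmZ N i f) {c d : ℕ} (h : Avl N i c d) : corank (f c d) = c + d := by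
  obtain ⟨h1, h2, h3⟩ := h
  by_cases h4 : c + d ≤ i
  · exact hA.top.cor c d ⟨h1, h2⟩ h4
  · have h5 : c = 0 := by omega
    subst h5
    rw [hA.cor d (by omega) h2, zero_add]

lemma inj (hA : ArmZ N i f) {c d c' d' : ℕ} (h : Avl N i c d) (h' : Avl N i c' d')
    (hf : f c d = f c' d') : c = c' ∧ d = d' := by
  have h1 := hA.corank_eq h
  rw [hf, hA.corank_eq h'] at h1
  obtain ⟨h2, h3, h4⟩ := h
  obtain ⟨h5, h6, h7⟩ := h'
  by_cases h8 : c + d ≤ i
  · exact hA.top.inj c d c' d' ⟨h2, h3⟩ ⟨h5, h6⟩ h8 (by omega) hf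
  · omega

lemma mem_Pr (C : Ctx α) (hA : ArmZ N i f) {c d : ℕ} (h : Avl N i c d) {y : α} :
    y ∈ Pr (f c d) ↔ (∃ e, c = e + 1 ∧ y = f e d) ∨ (∃ e, d = e + 1 ∧ c ≤ e ∧ y = f c e) := by
  obtain ⟨h1, h2, h3⟩ := h
  by_cases h4 : c + d ≤ i
  · rw [hA.top.mem_Pr C ⟨h1, h2⟩ h4]
    apply or_congr
    · constructor
      · rintro ⟨e, h5, _, h6⟩
        exact ⟨e, h5, h6⟩
      · rintro ⟨e, h5, h6⟩
        exact ⟨e, h5, ⟨by omega, h2⟩, h6⟩
    · constructor
      · rintro ⟨e, h5, h7, h6⟩
        exact ⟨e, h5, h7.1, h6⟩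
      · rintro ⟨e, h5, h7, h6⟩
        exact ⟨e, h5, ⟨h7, by omega⟩, h6⟩
  · have h5 : c = 0 := by omega
    subst h5
    rw [hA.pr d (by omega) h2, mem_singleton]
    constructor
    · intro h6
      right
      exact ⟨d - 1, by omega, Nat.zero_le _, h6⟩
    · rintro (⟨e, h6, _⟩ | ⟨e, rfl, _, h6⟩)
      · omega
      · rw [Nat.add_sub_cancel]
        exact h6

lemma le_iff (C : Ctx α) (hA : ArmZ N i f) {c d : ℕ} (h : Avl N i c d) {y : α} :
    f c d ≤ y ↔ ∃ p ∈ pid c d, y = f p.1 p.2 := by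
  obtain ⟨n, hn⟩ : ∃ n, n = c + d := ⟨_, rfl⟩
  induction n using Nat.strong_induction_on generalizing c d with
  | _ n ih =>
  obtain ⟨h1, h2, h3⟩ := id h
  constructor
  · intro h4
    rcases eq_or_lt_of_le h4 with h5 | h5
    · exact ⟨(c, d), mem_pid.2 ⟨le_rfl, le_rfl, h1⟩, h5.symm⟩
    · obtain ⟨z, hz, hzy⟩ := exists_covBy_le_of_lt h5
      have h6 := (hA.mem_Pr C h).1 (Pool.Gauss.mem_Pr.2 hz)
      rcases h6 with ⟨e, rfl, rfl⟩ | ⟨e, rfl, h7, rfl⟩
      · obtain ⟨⟨a, b⟩, hp, hpy⟩ := (ih (e + d) (by omega) (c := e) (d := d)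
          ⟨by omega, h2, by omega⟩ rfl).1 hzy
        refine ⟨(a, b), ?_, hpy⟩
        rw [mem_pid] at hp ⊢
        omega
      · obtain ⟨⟨a, b⟩, hp, hpy⟩ := (ih (c + e) (by omega) (c := c) (d := e)
          ⟨h7, by omega, by omega⟩ rfl).1 hzy
        refine ⟨(a, b), ?_, hpy⟩
        rw [mem_pid] at hp ⊢
        omega
  · rintro ⟨⟨a, b⟩, hp, rfl⟩
    rw [mem_pid] at hp
    simp only
    by_cases h4 : a = c
    · subst h4
      by_cases h5 : b = d
      · subst h5
        exact le_rfl
      · obtain ⟨e, rfl⟩ : ∃ e, d = e + 1 := ⟨d - 1, by omega⟩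
        have h6 : f a e ∈ Pr (f a (e + 1)) := (hA.mem_Pr C h).2
          (Or.inr ⟨e, rfl, by omega, rfl⟩)
        rw [Pool.Gauss.mem_Pr] at h6
        refine h6.le.trans ?_
        exact (ih (a + e) (by omega) (c := a) (d := e) ⟨by omega, by omega, by omega⟩ rfl).2
          ⟨(a, b), mem_pid.2 (by omega), rfl⟩
    · obtain ⟨e, rfl⟩ : ∃ e, c = e + 1 := ⟨c - 1, by omega⟩
      have h6 : f e d ∈ Pr (f (e + 1) d) := (hA.mem_Pr C h).2 (Or.inl ⟨e, rfl, rfl⟩)
      rw [Pool.Gauss.mem_Pr] at h6
      refine h6.le.trans ?_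
      exact (ih (e + d) (by omega) (c := e) (d := d) ⟨by omega, h2, by omega⟩ rfl).2
        ⟨(a, b), mem_pid.2 (by omega), rfl⟩

lemma us_eq (C : Ctx α) (hA : ArmZ N i f) {c d : ℕ} (h : Avl N i c d) :
    us (f c d) = csz c d := by
  obtain ⟨h1, h2, h3⟩ := id h
  rw [← card_pid h1]
  unfold us
  symm
  refine Finset.card_bij (fun p _ => f p.1 p.2) ?_ ?_ ?_
  · intro p hp
    rw [mem_filter]
    exact ⟨mem_univ _, (hA.le_iff C h).2 ⟨p, hp, rfl⟩⟩
  · rintro ⟨a, b⟩ hp ⟨a', b'⟩ hp' hf
    rw [mem_pid] at hp hp'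
    have := hA.inj (c := a) (d := b) (c' := a') (d' := b') ⟨by omega, by omega, by omega⟩
      ⟨by omega, by omega, by omega⟩ hf
    rw [this.1, this.2]
  · intro y hy
    rw [mem_filter] at hy
    obtain ⟨p, hp, hpy⟩ := (hA.le_iff C h).1 hy.2
    exact ⟨p, hp, hpy.symm⟩

end ArmZ

lemma us_anti {x y : α} (h : x ≤ y) : us y ≤ us x := by
  unfold us
  apply card_le_card
  intro z hz
  rw [mem_filter] at hz ⊢
  exact ⟨mem_univ _, h.trans hz.2⟩

lemma us_le_card {F : Finset α} (hF : F ∈ upSets α) {x : α} (hx : x ∈ F) : us x ≤ F.card := by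
  unfold us
  apply card_le_card
  intro z hz
  rw [mem_filter] at hz
  exact mem_upSets.1 hF x hx z hz.2

/-- elements outside the available cells have large principal filters -/
lemma ArmTop.far {N i K : ℕ} {f : ℕ → ℕ → α} (C : Ctx α) (hA : ArmTop N i f)
    (hK : ∀ y : α, corank y = i + 1 → (i + 1 < N → y ≠ f 0 (i + 1)) → K < us y)
    {x : α} (hx : ∀ c d, Avl N i c d → x ≠ f c d) : K < us x := by
  obtain ⟨n, hn⟩ : ∃ n, n = corank x := ⟨_, rfl⟩
  induction n using Nat.strong_induction_on generalizing x with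
  | _ n ih =>
  have h1 : i < corank x := by
    by_contra h1
    obtain ⟨c, d, h2, h3, h4⟩ := hA.top.sur x (by omega)
    exact hx c d ⟨h2.1, h2.2, Or.inr (by omega)⟩ h4.symm
  by_cases h2 : corank x = i + 1
  · exact hK x h2 (fun h3 => hx 0 (i + 1) ⟨Nat.zero_le _, h3, Or.inl rfl⟩)
  · by_cases h3 : ∃ z ∈ Pr x, ∀ c d, Avl N i c d → z ≠ f c d
    · obtain ⟨z, hz, h4⟩ := h3
      have h5 := Pool.Gauss.mem_Pr.1 hz
      have h6 := C.cork h5
      exact (ih (corank z) (by omega) h4 rfl).trans_le (us_anti h5.le)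
    · exfalso
      push Not at h3
      have h4 := C.pr_pos (x := x) (by omega)
      obtain ⟨z, hz⟩ := card_pos.1 h4
      have key : ∀ z ∈ Pr x, corank x - 1 < N ∧ z = f 0 (corank x - 1) := by
        intro z hz
        obtain ⟨c, d, h5, h6⟩ := h3 z hz
        have h7 := C.cork (Pool.Gauss.mem_Pr.1 hz)
        have h8 := hA.toZ.corank_eq h5
        rw [← h6] at h8
        obtain ⟨h9, h10, h11⟩ := h5
        have h12 : c = 0 := by omega
        subst h12
        have h13 : corank x - 1 = d := by omega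
        rw [h13]
        exact ⟨h10, h6⟩
      have h5 : Pr x = {f 0 (corank x - 1)} := by
        ext y
        rw [mem_singleton]
        constructor
        · intro hy
          exact (key y hy).2
        · rintro rfl
          rw [← (key z hz).2]
          exact hz
      have h6 := hA.sgl x (corank x - 1) (by omega) (key z hz).1 h5
      exact hx 0 (corank x - 1 + 1) ⟨Nat.zero_le _, h6.1, Or.inl rfl⟩ h6.2

/-- small filters are the same as small ideals of available cells -/
theorem count_filters {N i K : ℕ} {f : ℕ → ℕ → α} (C : Ctx α) (hA : ArmTop N i f)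
    (hK : ∀ y : α, corank y = i + 1 → (i + 1 < N → y ≠ f 0 (i + 1)) → K < us y)
    {j : ℕ} (hj : j ≤ K) :
    ((upSets α).filter fun F => F.card = j).card =
      ((stId N).filter fun I => (∀ p ∈ I, p.1 = 0 ∨ p.1 + p.2 ≤ i) ∧ I.card = j).card := by
  have hav : ∀ I ∈ stId N, (∀ p ∈ I, p.1 = 0 ∨ p.1 + p.2 ≤ i) → ∀ c d, (c, d) ∈ I →
      Avl N i c d := by
    intro I hI h1 c d h2
    have h3 := mem_stCells.1 ((mem_stId.1 hI).1 h2)
    exact ⟨h3.1, h3.2, h1 _ h2⟩
  symm
  refine Finset.card_bij (fun I _ => I.image fun p => f p.1 p.2) ?_ ?_ ?_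
  · intro I hI
    rw [mem_filter] at hI
    obtain ⟨hI1, hI2, hI3⟩ := hI
    have h1 := hav I hI1 hI2
    rw [mem_filter]
    refine ⟨?_, ?_⟩
    · rw [mem_upSets]
      intro x hx y hxy
      rw [mem_image] at hx ⊢
      obtain ⟨⟨c, d⟩, h2, rfl⟩ := hx
      obtain ⟨p, hp, rfl⟩ := (hA.toZ.le_iff C (h1 c d h2)).1 hxy
      exact ⟨p, pid_subset (mem_stId.1 hI1).2 h2 hp, rfl⟩
    · rw [card_image_of_injOn, hI3]
      rintro ⟨a, b⟩ h2 ⟨a', b'⟩ h3 h4
      have := hA.toZ.inj (h1 a b h2) (h1 a' b' h3) h4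
      rw [this.1, this.2]
  · intro I hI I' hI' h
    rw [mem_filter] at hI hI'
    obtain ⟨hI1, hI2, hI3⟩ := hI
    obtain ⟨hI1', hI2', hI3'⟩ := hI'
    have h1 := hav I hI1 hI2
    have h2 := hav I' hI1' hI2'
    ext ⟨c, d⟩
    constructor
    · intro h3
      have h4 : f c d ∈ I'.image fun p => f p.1 p.2 := by
        rw [← h]
        exact mem_image.2 ⟨(c, d), h3, rfl⟩
      obtain ⟨⟨a, b⟩, h5, h6⟩ := mem_image.1 h4
      have := hA.toZ.inj (h2 a b h5) (h1 c d h3) h6
      rw [← this.1, ← this.2]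
      exact h5
    · intro h3
      have h4 : f c d ∈ I.image fun p => f p.1 p.2 := by
        rw [h]
        exact mem_image.2 ⟨(c, d), h3, rfl⟩
      obtain ⟨⟨a, b⟩, h5, h6⟩ := mem_image.1 h4
      have := hA.toZ.inj (h1 a b h5) (h2 c d h3) h6
      rw [← this.1, ← this.2]
      exact h5
  · intro F hF
    rw [mem_filter] at hF
    obtain ⟨hF1, hF2⟩ := hF
    have h1 : ∀ x ∈ F, ∃ c d, Avl N i c d ∧ x = f c d := by
      intro x hx
      by_contra h2
      push Not at h2
      have h3 := hA.far C hK h2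
      have h4 := us_le_card hF1 hx
      omega
    set I := (stCells N).filter fun p => (p.1 = 0 ∨ p.1 + p.2 ≤ i) ∧ f p.1 p.2 ∈ F with hI
    have h2 : ∀ c d, (c, d) ∈ I ↔ Avl N i c d ∧ f c d ∈ F := by
      intro c d
      rw [hI, mem_filter, mem_stCells]
      unfold Avl
      tauto
    have h3 : I ∈ stId N := by
      rw [mem_stId]
      refine ⟨filter_subset _ _, ?_, ?_⟩
      · intro c d h4
        rw [h2] at h4 ⊢
        obtain ⟨h5, h6⟩ := h4
        refine ⟨?_, ?_⟩
        · obtain ⟨h7, h8, h9⟩ := h5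
          exact ⟨by omega, h8, by omega⟩
        · have h7 := (hA.toZ.mem_Pr C h5 (y := f c d)).2 (Or.inl ⟨c, rfl, rfl⟩)
          exact mem_upSets.1 hF1 _ h6 _ (Pool.Gauss.mem_Pr.1 h7).le
      · intro c d h10 h4
        rw [h2] at h4 ⊢
        obtain ⟨h5, h6⟩ := h4
        refine ⟨?_, ?_⟩
        · obtain ⟨h7, h8, h9⟩ := h5
          exact ⟨by omega, by omega, by omega⟩
        · have h7 := (hA.toZ.mem_Pr C h5 (y := f c d)).2 (Or.inr ⟨d, rfl, h10, rfl⟩)
          exact mem_upSets.1 hF1 _ h6 _ (Pool.Gauss.mem_Pr.1 h7).le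
    have h4 : I.image (fun p => f p.1 p.2) = F := by
      ext x
      rw [mem_image]
      constructor
      · rintro ⟨⟨c, d⟩, h5, rfl⟩
        exact ((h2 c d).1 h5).2
      · intro hx
        obtain ⟨c, d, h5, rfl⟩ := h1 x hx
        exact ⟨(c, d), (h2 c d).2 ⟨h5, hx⟩, rfl⟩
    have h5 : I.card = F.card := by
      rw [← h4, card_image_of_injOn]
      rintro ⟨a, b⟩ h6 ⟨a', b'⟩ h7 h8
      have := hA.toZ.inj ((h2 a b).1 h6).1 ((h2 a' b').1 h7).1 h8
      rw [this.1, this.2]
    refine ⟨I, ?_, h4⟩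
    rw [mem_filter]
    refine ⟨h3, ?_, by rw [h5, hF2]⟩
    rintro ⟨c, d⟩ h6
    exact ((h2 c d).1 h6).1.2.2

/-- in coordinates the principal filters have the expected size -/
theorem us_eq (C : Ctx α) {N i : ℕ} {f : ℕ → ℕ → α} (hT : Top (Stc N) i f) {c d : ℕ}
    (h : Stc N c d) (hi : c + d ≤ i) : us (f c d) = csz c d := by
  have hZ : ArmZ (min N (i + 1)) i f := by
    refine ⟨hT.congr_region ?_, ?_, ?_⟩
    · intro a b h1
      unfold Stc
      omega
    · intro e h1 h2
      omega
    · intro e h1 h2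
      omega
  exact hZ.us_eq C ⟨h.1, by have := h.2; omega, Or.inr hi⟩

/-- **sizes of the levels** from the number of small filters -/
theorem sizes_of_arm (C : Ctx α) {N i K : ℕ} (hN : 1 ≤ N) {f : ℕ → ℕ → α} (hA : ArmTop N i f)
    (hK : ∀ y : α, corank y = i + 1 → (i + 1 < N → y ≠ f 0 (i + 1)) → K < us y)
    (hcell : ∀ c d, 1 ≤ c → c ≤ d → d < N → i < c + d → K < csz c d) :
    ∀ l < K, sz α l = st N l := by
  obtain ⟨M, hM1, hM2, hM3⟩ : ∃ M, HT α ≤ M ∧ 2 * N ≤ M + 1 ∧ K ≤ M :=
    ⟨HT α + 2 * N + K, by omega, by omega, by omega⟩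
  refine compare_sizes (U_one_levels C hM1) (st_identity N M hM2) hM3 ?_
  intro j hj
  rw [coeff_gen, coeff_gen, count_filters C hA hK hj]
  congr 2
  apply filter_congr
  intro I hI
  constructor
  · intro h
    exact h.2
  · intro h
    refine ⟨?_, h⟩
    rintro ⟨c, d⟩ hp
    by_contra h1
    simp only at h1
    have h2 := mem_stId.1 hI
    have h3 := mem_stCells.1 (h2.1 hp)
    have h4 := card_le_card (pid_subset h2.2 hp)
    rw [card_pid h3.1] at h4
    have h5 := hcell c d (by omega) h3.1 h3.2 (by omega)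
    omega

/-- if all sizes are those of the staircase, the cell `(1, 2m)` cannot be missing -/
theorem false_of_arm (C : Ctx α) {m N : ℕ} (hm : 3 ≤ m) (hN : N = 2 * m + 1 ∨ N = 2 * m + 2)
    {f : ℕ → ℕ → α} (hA : ArmTop N (2 * m) f)
    (hK : ∀ y : α, corank y = 2 * m + 1 → (2 * m + 1 < N → y ≠ f 0 (2 * m + 1)) →
      4 * m + 1 < us y)
    (hsz : ∀ l, sz α l = st N l) : False := by
  obtain ⟨M, hM1, hM2⟩ : ∃ M, HT α ≤ M ∧ 2 * N ≤ M + 1 :=
    ⟨HT α + 2 * N, by omega, by omega⟩
  have h1 := U_one_levels C hM1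
  have h2 := st_identity N M hM2
  simp only [hsz] at h1
  rw [← h2] at h1
  have h3 : (∏ l ∈ range M, (1 - (Polynomial.X : Polynomial ℤ) ^ (l + 1)) ^ st N l) ≠ 0 := by
    rw [Finset.prod_ne_zero_iff]
    intro l _
    apply pow_ne_zero
    intro h0
    have := congrArg (Polynomial.eval 0) h0
    simp at this
  have h4 := mul_right_cancel₀ h3 h1
  have h5 := congrArg (fun p => Polynomial.coeff p (4 * m + 1)) h4
  simp only [coeff_gen] at h5
  rw [count_filters C hA hK le_rfl] at h5
  have h6 : ((stId N).filter fun I => (∀ p ∈ I, p.1 = 0 ∨ p.1 + p.2 ≤ 2 * m) ∧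
      I.card = 4 * m + 1).card < ((stId N).filter fun I => I.card = 4 * m + 1).card := by
    apply card_lt_card
    rw [Finset.ssubset_iff_of_subset]
    · refine ⟨pid 1 (2 * m), ?_, ?_⟩
      · rw [mem_filter, mem_stId]
        refine ⟨⟨?_, pid_cl _ _⟩, ?_⟩
        · rintro ⟨a, b⟩ h7
          rw [mem_pid] at h7
          rw [mem_stCells]
          omega
        · rw [card_pid (by omega)]
          unfold csz
          omega
      · rw [mem_filter]
        rintro ⟨_, h7, _⟩
        have h8 := h7 (1, 2 * m) (mem_pid.2 ⟨le_rfl, le_rfl, by omega⟩)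
        simp only at h8
        omega
    · intro I hI
      rw [mem_filter] at hI ⊢
      exact ⟨hI.1, hI.2.2⟩
  have h7 : (((stId N).filter fun I => (∀ p ∈ I, p.1 = 0 ∨ p.1 + p.2 ≤ 2 * m) ∧
      I.card = 4 * m + 1).card : ℤ) = ((stId N).filter fun I => I.card = 4 * m + 1).card := h5
  omega

end Pool.Gauss
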