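import Pool.Agent.Work.MP_065141_co.Path
import Pool.Agent.Work.MP_065141_co.UOne
import Pool.Agent.Work.MP_065141_co.Dual
import Pool.Agent.Work.MP_065141_co.Models

/-!
# The case of sizes 1, 1, 2: sizes, start, facts
-/

set_option autoImplicit false
set_option linter.unusedSectionVars false
open scoped Classical
open Finset

namespace Pool.Gauss

variable {α : Type} [Fintype α] [PartialOrder α]

theorem rtwo_sz_le (C : Ctx α) (h1 : sz α 1 = 1) (l : ℕ) : sz α l ≤ l / 2 + 1 := by
  have key : ∀ e, 2 * e + 1 ≤ HT α → sz α e ≤ e / 2 + 1 := by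
    intro e
    induction e using Nat.strong_induction_on with
    | _ e ih =>
      intro he
      rcases Nat.lt_or_ge e 2 with h2 | h2
      · interval_cases e
        · have := C.one
          unfold sz
          omega
        · omega
      · have h3 := C.sz_subadd (e := e) (c := 1) (by omega) he
        have h4 := ih (e - 1 - 1) (by omega) (by omega)
        omega
  rcases Nat.lt_or_ge l (HT α) with h2 | h2
  · rcases Nat.lt_or_ge (HT α) (2 * l + 1) with h3 | h3
    · have h4 := C.sz_palin (j := l) h2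
      have h5 := key (HT α - 1 - l) (by omega)
      omega
    · exact key l h3
  · rw [sz_eq_zero h2]
    omega

/-- everything in level `j + 1` is below the only element of level `j` -/
lemma Ctx.covBy_of_sz (C : Ctx α) {j : ℕ} (h : sz α j = 1) {x y : α} (hx : corank x = j + 1)
    (hy : corank y = j) : x ⋖ y := by
  obtain ⟨z, hz⟩ := card_pos.1 (C.pr_pos (x := x) (by omega))
  have h1 := C.cork (Gauss.mem_Pr.1 hz)
  unfold sz at h
  have h2 : z = y := card_le_one.1 h.le z (mem_lev.2 (by omega)) y (mem_lev.2 hy)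
  rw [← h2]
  exact Gauss.mem_Pr.1 hz

theorem rtwo_start (C : Ctx α) (h1 : sz α 1 = 1) (h2 : sz α 2 = 2) :
    ∃ f : ℕ → ℕ → α, Top (Stc 3) 2 f := by
  have h0 := C.one
  have h1' : (lev α 1).card = 1 := h1
  have h2' : (lev α 2).card = 2 := h2
  obtain ⟨a0, ha0⟩ := card_eq_one.1 h0
  obtain ⟨a1, ha1⟩ := card_eq_one.1 h1'
  obtain ⟨a2, b2, hab, ha2⟩ := card_eq_two.1 h2'
  have k0 : ∀ x : α, corank x = 0 ↔ x = a0 := fun x => by rw [← mem_lev, ha0, mem_singleton]
  have k1 : ∀ x : α, corank x = 1 ↔ x = a1 := fun x => by rw [← mem_lev, ha1, mem_singleton]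
  have k2 : ∀ x : α, corank x = 2 ↔ x = a2 ∨ x = b2 := fun x => by
    rw [← mem_lev, ha2, mem_insert, mem_singleton]
  let f : ℕ → ℕ → α := fun c d => if c + d = 0 then a0 else if c + d = 1 then a1 else
    if c = 0 then a2 else b2
  have cor : ∀ c d, Stc 3 c d → c + d ≤ 2 → corank (f c d) = c + d := by
    intro c d h3 h4
    simp only [f]
    split_ifs with h5 h6 h7
    · rw [h5, (k0 a0).2 rfl]
    · rw [h6, (k1 a1).2 rfl]
    · rw [(k2 a2).2 (Or.inl rfl)]
      omega
    · rw [(k2 b2).2 (Or.inr rfl)]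
      omega
  refine ⟨f, cor, ?_, ?_, ?_⟩
  · intro c d c' d' h3 h4 h5 h6 h7
    have e1 := cor c d h3 h5
    have e2 := cor c' d' h4 h6
    rw [h7] at e1
    unfold Stc at h3 h4
    simp only [f] at h7
    by_cases h8 : c + d = 2
    · rw [if_neg (by omega), if_neg (by omega), if_neg (c := c' + d' = 0) (by omega),
        if_neg (c := c' + d' = 1) (by omega)] at h7
      split_ifs at h7 with h9 h10 h10
      · omega
      · exact absurd h7 hab
      · exact absurd h7.symm hab
      · omega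
    · omega
  · intro x hx
    have hx3 : corank x = 0 ∨ corank x = 1 ∨ corank x = 2 := by omega
    rcases hx3 with h3 | h3 | h3
    · refine ⟨0, 0, ⟨by omega, by omega⟩, by omega, ?_⟩
      rw [(k0 x).1 h3]
      simp [f]
    · refine ⟨0, 1, ⟨by omega, by omega⟩, by omega, ?_⟩
      rw [(k1 x).1 h3]
      simp [f]
    · rcases (k2 x).1 h3 with h4 | h4
      · refine ⟨0, 2, ⟨by omega, by omega⟩, by omega, ?_⟩
        rw [h4]
        simp [f]
      · refine ⟨1, 1, ⟨by omega, by omega⟩, by omega, ?_⟩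
        rw [h4]
        simp [f]
  · intro c d c' d' h3 h4 h5 h6
    have e1 := cor c d h3 h5
    have e2 := cor c' d' h4 h6
    constructor
    · intro h7
      have h8 := C.cork h7
      unfold Stc at h3 h4
      omega
    · intro h7
      have h8 : sz α (c + d) = 1 := by
        have h9 : c + d = 0 ∨ c + d = 1 := by omega
        rcases h9 with h9 | h9
        · rw [h9]
          exact h0
        · rw [h9]
          exact h1
      exact C.covBy_of_sz h8 (by omega) e1

/-- exchange of the two elements of level 2 -/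
theorem rtwo_swap2 {f : ℕ → ℕ → α} (hT : Top (Stc 3) 2 f) :
    Top (Stc 3) 2 (fun c d => if c = 0 ∧ d = 2 then f 1 1 else if c = 1 ∧ d = 1 then f 0 2
      else f c d) := by
  have hs : ∀ c d, Stc 3 c d → c + d ≤ 2 → ∃ c1 d1, Stc 3 c1 d1 ∧ c1 + d1 = c + d ∧
      (if c = 0 ∧ d = 2 then f 1 1 else if c = 1 ∧ d = 1 then f 0 2 else f c d) = f c1 d1 ∧
      ((c = 0 ∧ d = 2 ∧ c1 = 1 ∧ d1 = 1) ∨ (c = 1 ∧ d = 1 ∧ c1 = 0 ∧ d1 = 2) ∨
        (c + d ≤ 1 ∧ c1 = c ∧ d1 = d)) := by
    intro c d h1 h2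
    unfold Stc at h1
    split_ifs with h3 h4
    · exact ⟨1, 1, ⟨by omega, by omega⟩, by omega, rfl, Or.inl (by omega)⟩
    · exact ⟨0, 2, ⟨by omega, by omega⟩, by omega, rfl, Or.inr (Or.inl (by omega))⟩
    · exact ⟨c, d, h1, by omega, rfl, Or.inr (Or.inr (by omega))⟩
  constructor
  · intro c d h1 h2
    obtain ⟨c1, d1, h3, h4, h5, _⟩ := hs c d h1 h2
    rw [h5, hT.cor c1 d1 h3 (by omega), h4]
  · intro c d c' d' h1 h2 h3 h4 h5
    obtain ⟨c1, d1, h6, h7, h8, h9⟩ := hs c d h1 h3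
    obtain ⟨c2, d2, h10, h11, h12, h13⟩ := hs c' d' h2 h4
    rw [h8, h12] at h5
    have := hT.inj c1 d1 c2 d2 h6 h10 (by omega) (by omega) h5
    omega
  · intro x hx
    obtain ⟨c, d, h1, h2, h3⟩ := hT.sur x hx
    obtain ⟨c1, d1, h6, h7, h8, h9⟩ := hs c d h1 (by omega)
    obtain ⟨c2, d2, h10, h11, h12, h13⟩ := hs c1 d1 h6 (by omega)
    refine ⟨c1, d1, h6, by omega, ?_⟩
    rw [h12, ← h3]
    have e1 : c2 = c := by omega
    have e2 : d2 = d := by omega
    rw [e1, e2]
  · intro c d c' d' h1 h2 h3 h4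
    obtain ⟨c1, d1, h6, h7, h8, h9⟩ := hs c d h1 h3
    obtain ⟨c2, d2, h10, h11, h12, h13⟩ := hs c' d' h2 h4
    rw [h8, h12, hT.cov c1 d1 c2 d2 h6 h10 (by omega) (by omega)]
    unfold Stc at h1 h2 h6 h10
    constructor
    · intro h14
      rcases h9 with h9 | h9 | h9 <;> rcases h13 with h13 | h13 | h13 <;> omega
    · intro h14
      rcases h9 with h9 | h9 | h9 <;> rcases h13 with h13 | h13 | h13 <;> omega

/-! ### reading off covers -/

section Read

variable {N i : ℕ} {f : ℕ → ℕ → α}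

lemma Top.Ch2_sub {R : ℕ → ℕ → Prop} (C : Ctx α) (hT : Top R i f) {c d : ℕ} (h : R c d)
    (hi : c + d + 2 ≤ i) : Ch2 (f c d) ⊆ {f (c + 2) d, f (c + 1) (d + 1), f c (d + 2)} := by
  intro x hx
  rw [mem_Ch2] at hx
  obtain ⟨z, h1, h2⟩ := hx
  rw [← Gauss.mem_Ch, hT.mem_Ch C h (by omega)] at h1
  rw [mem_insert, mem_insert, mem_singleton]
  rcases h1 with ⟨h3, rfl⟩ | ⟨h3, rfl⟩
  · rw [← Gauss.mem_Ch, hT.mem_Ch C h3 (by omega)] at h2
    rcases h2 with ⟨_, rfl⟩ | ⟨_, rfl⟩
    · exact Or.inl rfl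
    · exact Or.inr (Or.inl rfl)
  · rw [← Gauss.mem_Ch, hT.mem_Ch C h3 (by omega)] at h2
    rcases h2 with ⟨_, rfl⟩ | ⟨_, rfl⟩
    · exact Or.inr (Or.inl rfl)
    · exact Or.inr (Or.inr rfl)

lemma Top.card_Ch2_le {R : ℕ → ℕ → Prop} (C : Ctx α) (hT : Top R i f) {c d : ℕ} (h : R c d)
    (hi : c + d + 2 ≤ i) : (Ch2 (f c d)).card ≤ 3 :=
  (card_le_card (hT.Ch2_sub C h hi)).trans card_le_three

lemma stc_card_Pr (C : Ctx α) (hT : Top (Stc N) i f) {c d : ℕ} (h : Stc N c d) (hi : c + d ≤ i) :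
    (Pr (f c d)).card = (if 0 < c then 1 else 0) + (if c < d then 1 else 0) := by
  rw [hT.card_Pr C h hi]
  unfold Stc at *
  congr 1
  · congr 1
    apply propext
    constructor
    · rintro ⟨e, h1, _⟩
      omega
    · intro h1
      exact ⟨c - 1, by omega, by omega, by omega⟩
  · congr 1
    apply propext
    constructor
    · rintro ⟨e, h1, h2, _⟩
      omega
    · intro h1
      exact ⟨d - 1, by omega, by omega, by omega⟩

lemma stc_card_Ch (C : Ctx α) (hT : Top (Stc N) i f) {c d : ℕ} (h : Stc N c d) (hi : c + d < i) :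
    (Ch (f c d)).card = (if c < d then 1 else 0) + (if d + 1 < N then 1 else 0) := by
  rw [hT.card_Ch C h hi]
  unfold Stc at *
  congr 1
  · congr 1
    apply propext
    omega
  · congr 1
    apply propext
    omega

lemma stc_Pr_mid (C : Ctx α) (hT : Top (Stc N) i f) {c d : ℕ} (h : c < d) (hN : d + 1 < N)
    (hi : c + d + 2 ≤ i) : Pr (f (c + 1) (d + 1)) = {f c (d + 1), f (c + 1) d} := by
  ext y
  rw [hT.mem_Pr C (show Stc N (c + 1) (d + 1) from ⟨by omega, by omega⟩) (by omega), mem_insert,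
    mem_singleton]
  constructor
  · rintro (⟨e, h1, _, rfl⟩ | ⟨e, h1, _, rfl⟩)
    · have : e = c := by omega
      rw [this]
      exact Or.inl rfl
    · have : e = d := by omega
      rw [this]
      exact Or.inr rfl
  · rintro (rfl | rfl)
    · exact Or.inl ⟨c, rfl, ⟨by omega, by omega⟩, rfl⟩
    · exact Or.inr ⟨d, rfl, ⟨by omega, by omega⟩, rfl⟩

lemma stc_Pr_diag (C : Ctx α) (hT : Top (Stc N) i f) {c : ℕ} (hN : c + 1 < N)
    (hi : c + c + 2 ≤ i) : Pr (f (c + 1) (c + 1)) = {f c (c + 1)} := by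
  ext y
  rw [hT.mem_Pr C (show Stc N (c + 1) (c + 1) from ⟨by omega, by omega⟩) (by omega),
    mem_singleton]
  constructor
  · rintro (⟨e, h1, _, rfl⟩ | ⟨e, h1, h2, rfl⟩)
    · have : e = c := by omega
      rw [this]
    · unfold Stc at h2
      omega
  · rintro rfl
    exact Or.inl ⟨c, rfl, ⟨by omega, by omega⟩, rfl⟩

lemma stc_Pr_arm (C : Ctx α) (hT : Top (Stc N) i f) {d : ℕ} (hN : d + 1 < N)
    (hi : d + 1 ≤ i) : Pr (f 0 (d + 1)) = {f 0 d} := by
  ext y
  rw [hT.mem_Pr C (show Stc N 0 (d + 1) from ⟨by omega, by omega⟩) (by omega),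
    mem_singleton]
  constructor
  · rintro (⟨e, h1, _, rfl⟩ | ⟨e, h1, h2, rfl⟩)
    · omega
    · have : e = d := by omega
      rw [this]
  · rintro rfl
    exact Or.inr ⟨d, rfl, ⟨by omega, by omega⟩, rfl⟩

lemma stc_Ch_mid (C : Ctx α) (hT : Top (Stc N) i f) {c d : ℕ} (h : c < d) (hN : d + 1 < N)
    (hi : c + d < i) : Ch (f c d) = {f (c + 1) d, f c (d + 1)} := by
  ext y
  rw [hT.mem_Ch C (show Stc N c d from ⟨by omega, by omega⟩) (by omega), mem_insert,
    mem_singleton]
  unfold Stc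
  constructor
  · rintro (⟨_, h1⟩ | ⟨_, h1⟩)
    · exact Or.inl h1
    · exact Or.inr h1
  · rintro (h1 | h1)
    · exact Or.inl ⟨⟨by omega, by omega⟩, h1⟩
    · exact Or.inr ⟨⟨by omega, by omega⟩, h1⟩

lemma stc_Ch_diag (C : Ctx α) (hT : Top (Stc N) i f) {c : ℕ} (hN : c + 1 < N)
    (hi : c + c < i) : Ch (f c c) = {f c (c + 1)} := by
  ext y
  rw [hT.mem_Ch C (show Stc N c c from ⟨by omega, by omega⟩) (by omega),
    mem_singleton]
  unfold Stc
  constructor
  · rintro (⟨h2, h1⟩ | ⟨_, h1⟩)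
    · omega
    · exact h1
  · intro h1
    exact Or.inr ⟨⟨by omega, by omega⟩, h1⟩

lemma stc_Ch_arm (C : Ctx α) (hT : Top (Stc N) i f) {c d : ℕ} (h : c < d) (hN : d + 1 = N)
    (hi : c + d < i) : Ch (f c d) = {f (c + 1) d} := by
  ext y
  rw [hT.mem_Ch C (show Stc N c d from ⟨by omega, by omega⟩) (by omega), mem_singleton]
  unfold Stc
  constructor
  · rintro (⟨_, h1⟩ | ⟨h2, h1⟩)
    · exact h1
    · omega
  · intro h1
    exact Or.inl ⟨⟨by omega, by omega⟩, h1⟩

end Read

/-- facts read off from the coordinates -/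
theorem rtwo_facts (C : Ctx α) (h1 : sz α 1 = 1) {i : ℕ} (hi : 2 ≤ i) (hi' : i < HT α)
    {f : ℕ → ℕ → α} (hT : Top (Stc (i + 1)) i f) :
    (∀ m, 2 * m + 2 ≤ i → QEv α (2 * m + 2) = {f m m}) ∧
    (∀ m, 2 * m + 1 ≤ i → QEv α (2 * m + 1) = ∅) ∧
    (∀ j, 1 ≤ j → j < i → EEv α j = ∅) ∧ (∀ j < i, FFv α j = ∅) ∧
    (∀ m, 2 * m + 1 < i → PEv α (2 * m + 1) = ∅) ∧
    (∀ m, 2 * m + 2 < i → (PEv α (2 * m + 2)).card = 1) ∧
    (∀ v : α, corank v + 2 ≤ i → (Ch v).card = 2 → (Ch2 v).card ≤ 3) := by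
  have hQ : ∀ v : α, corank v + 2 ≤ i → (Ch v).card = 1 → ∃ c, 2 * c = corank v ∧ v = f c c := by
    intro v hv hc
    obtain ⟨c, d, h2, h3, rfl⟩ := hT.sur v (by omega)
    have h4 := h2
    unfold Stc at h4
    rw [stc_card_Ch C hT h2 (by omega)] at hc
    rw [if_pos (c := d + 1 < i + 1) (by omega)] at hc
    have h5 : ¬ c < d := by
      intro h6
      rw [if_pos h6] at hc
      omega
    have h6 : c = d := by omega
    subst h6
    exact ⟨c, by omega, rfl⟩
  have Q1 : ∀ m, 2 * m + 2 ≤ i → QEv α (2 * m + 2) = {f m m} := by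
    intro m hm
    ext v
    rw [mem_QEv, mem_singleton]
    constructor
    · rintro ⟨h2, h3, _⟩
      obtain ⟨c, h5, rfl⟩ := hQ v (by omega) h3
      have : c = m := by omega
      rw [this]
    · rintro rfl
      have h5 := stc_Ch_diag C hT (c := m) (by omega) (by omega)
      have h6 := stc_Ch_mid C hT (c := m) (d := m + 1) (by omega) (by omega) (by omega)
      refine ⟨?_, ?_, ?_⟩
      · rw [hT.cor m m ⟨by omega, by omega⟩ (by omega)]
        omega
      · rw [h5, card_singleton]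
      · rw [Ch2_of_single h5, h6, card_pair]
        intro h7
        have := hT.inj _ _ _ _ (show Stc (i + 1) (m + 1) (m + 1) from ⟨by omega, by omega⟩)
          (show Stc (i + 1) m (m + 1 + 1) from ⟨by omega, by omega⟩) (by omega) (by omega) h7
        omega
  have Q2 : ∀ m, 2 * m + 1 ≤ i → QEv α (2 * m + 1) = ∅ := by
    intro m hm
    rw [eq_empty_iff_forall_notMem]
    intro v hv
    rw [mem_QEv] at hv
    obtain ⟨h2, h3, _⟩ := hv
    obtain ⟨c, h5, rfl⟩ := hQ v (by omega) h3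
    omega
  have E1 : ∀ j, 1 ≤ j → j < i → EEv α j = ∅ := by
    intro j hj hji
    rw [eq_empty_iff_forall_notMem]
    intro x hx
    rw [mem_EEv] at hx
    obtain ⟨h2, h3, h4⟩ := hx
    obtain ⟨c, d, h5, h6, rfl⟩ := hT.sur x (by omega)
    rw [stc_card_Pr C hT h5 (by omega)] at h3
    have h7 := h5
    unfold Stc at h7
    by_cases hc : c = 0
    · subst hc
      obtain ⟨d', rfl⟩ : ∃ d', d = d' + 1 := ⟨d - 1, by omega⟩
      have h8 := h4 (f 0 d') (by
        rw [stc_Pr_arm C hT (by omega) (by omega)]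
        simp)
      rw [stc_Ch_mid C hT (by omega) (by omega) (by omega), card_pair] at h8
      · omega
      · intro h9
        have := hT.inj _ _ _ _ (show Stc (i + 1) (0 + 1) d' from ⟨by omega, by omega⟩)
          (show Stc (i + 1) 0 (d' + 1) from ⟨by omega, by omega⟩) (by omega) (by omega) h9
        omega
    · have h8 : ¬ c < d := by
        intro h9
        rw [if_pos h9, if_pos (by omega)] at h3
        omega
      obtain ⟨c', rfl⟩ : ∃ c', c = c' + 1 := ⟨c - 1, by omega⟩
      have h9 : d = c' + 1 := by omega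
      subst h9
      have h10 := h4 (f c' (c' + 1)) (by
        rw [stc_Pr_diag C hT (by omega) (by omega)]
        simp)
      rw [stc_Ch_mid C hT (by omega) (by omega) (by omega), card_pair] at h10
      · omega
      · intro h9
        have := hT.inj _ _ _ _ (show Stc (i + 1) (c' + 1) (c' + 1) from ⟨by omega, by omega⟩)
          (show Stc (i + 1) c' (c' + 1 + 1) from ⟨by omega, by omega⟩) (by omega) (by omega) h9
        omega
  have F1 : ∀ j < i, FFv α j = ∅ := by
    intro j hj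
    rw [eq_empty_iff_forall_notMem]
    intro p hp
    rw [mem_FFv] at hp
    obtain ⟨h2, h3, h4, h5, h6⟩ := hp
    obtain ⟨c, d, h7, h8, h9⟩ := hT.sur p.1 (by omega)
    obtain ⟨c', d', h10, h11, h12⟩ := hT.sur p.2 (by omega)
    have h6' : (Pr p.2).card = 2 := by rw [← h5]; exact h6
    rw [← h9, stc_card_Pr C hT h7 (by omega)] at h6
    rw [← h12, stc_card_Pr C hT h10 (by omega)] at h6'
    have hc : 0 < c ∧ c < d := by
      constructor
      · by_contra hcon
        rw [if_neg hcon] at h6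
        split_ifs at h6 <;> omega
      · by_contra hcon
        rw [if_neg hcon] at h6
        split_ifs at h6 <;> omega
    have hc' : 0 < c' ∧ c' < d' := by
      constructor
      · by_contra hcon
        rw [if_neg hcon] at h6'
        split_ifs at h6' <;> omega
      · by_contra hcon
        rw [if_neg hcon] at h6'
        split_ifs at h6' <;> omega
    unfold Stc at h7 h10
    obtain ⟨u, rfl⟩ : ∃ u, c = u + 1 := ⟨c - 1, by omega⟩
    obtain ⟨v, rfl⟩ : ∃ v, d = v + 1 := ⟨d - 1, by omega⟩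
    obtain ⟨u', rfl⟩ : ∃ u, c' = u + 1 := ⟨c' - 1, by omega⟩
    obtain ⟨v', rfl⟩ : ∃ v, d' = v + 1 := ⟨d' - 1, by omega⟩
    rw [← h9, ← h12, stc_Pr_mid C hT (by omega) (by omega) (by omega),
      stc_Pr_mid C hT (by omega) (by omega) (by omega)] at h5
    have m1 : f u (v + 1) ∈ ({f u' (v' + 1), f (u' + 1) v'} : Finset α) := by
      rw [← h5]
      simp
    have m2 : f (u + 1) v ∈ ({f u' (v' + 1), f (u' + 1) v'} : Finset α) := by
      rw [← h5]
      simp
    have hu : u = u' := by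
      rw [mem_insert, mem_singleton] at m1 m2
      rcases m1 with m1 | m1
      · exact (hT.inj _ _ _ _ (show Stc (i + 1) u (v + 1) from ⟨by omega, by omega⟩)
          (show Stc (i + 1) u' (v' + 1) from ⟨by omega, by omega⟩) (by omega) (by omega) m1).1
      · have e1 := (hT.inj _ _ _ _ (show Stc (i + 1) u (v + 1) from ⟨by omega, by omega⟩)
          (show Stc (i + 1) (u' + 1) v' from ⟨by omega, by omega⟩) (by omega) (by omega) m1).1
        rcases m2 with m2 | m2
        · have e2 := (hT.inj _ _ _ _ (show Stc (i + 1) (u + 1) v from ⟨by omega, by omega⟩)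
            (show Stc (i + 1) u' (v' + 1) from ⟨by omega, by omega⟩) (by omega) (by omega) m2).1
          omega
        · have e2 := (hT.inj _ _ _ _ (show Stc (i + 1) (u + 1) v from ⟨by omega, by omega⟩)
            (show Stc (i + 1) (u' + 1) v' from ⟨by omega, by omega⟩) (by omega) (by omega) m2).1
          omega
    apply h4
    rw [← h9, ← h12]
    have : v = v' := by omega
    rw [hu, this]
  refine ⟨Q1, Q2, E1, F1, ?_, ?_, ?_⟩
  · intro m hm
    have h2 := C.E1 (j := 2 * m + 1) (by omega)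
    rw [h1, Q1 m (by omega), E1 (2 * m + 1) (by omega) hm, F1 (2 * m + 1) hm] at h2
    simp only [card_singleton, card_empty] at h2
    rw [← card_eq_zero]
    omega
  · intro m hm
    have h2 := C.E1 (j := 2 * m + 2) (by omega)
    have h3 := Q2 (m + 1) (by omega)
    rw [show 2 * (m + 1) + 1 = 2 * m + 2 + 1 from by ring] at h3
    rw [h1, h3, E1 (2 * m + 2) (by omega) hm, F1 (2 * m + 2) hm] at h2
    simp only [card_empty] at h2
    omega
  · intro v hv _
    obtain ⟨c, d, h2, h3, rfl⟩ := hT.sur v (by omega)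
    exact hT.card_Ch2_le C h2 (by omega)

end Pool.Gauss
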