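import Pool.Agent.Work.MP_065141_co.Engine3

/-!
# The symmetric description of good energy functions
-/

set_option autoImplicit false
set_option linter.unusedSectionVars false
open scoped Classical
open Finset Polynomial

namespace Pool.Gauss

variable {α : Type} [Fintype α] [PartialOrder α] {i : ℕ}

/-- `q` is a neighbour of `p` one step farther away from level `i` -/
def fr (i : ℕ) (p q : α) : Prop := (i ≤ corank p ∧ q ⋖ p) ∨ (corank p ≤ i ∧ p ⋖ q)

/-- dominated by a farther neighbour -/
def fd (i : ℕ) (ε : α → ℕ) (p : α) : Prop := ∃ q, fr i p q ∧ ε p < ε q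

/-- dominated by a nearer neighbour -/
def nd (i : ℕ) (ε : α → ℕ) (p : α) : Prop := ∃ q, fr i q p ∧ ε p ≤ ε q

/-- distance from level `i` -/
noncomputable def ds (i : ℕ) (p : α) : ℕ := (corank p - i) + (i - corank p)

lemma ds_eq_zero {p : α} : ds i p = 0 ↔ corank p = i := by
  unfold ds
  omega

lemma fr_ds (hg : Grad α) {p q : α} (h : fr i p q) : ds i q = ds i p + 1 := by
  unfold ds
  rcases h with ⟨h1, h2⟩ | ⟨h1, h2⟩
  · have := hg q p h2
    omega
  · have := hg p q h2
    omega

lemma fr_below (hg : Grad α) {p q : α} (h : fr i p q) (hp : i < corank p) :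
    i < corank q ∧ q ⋖ p := by
  rcases h with ⟨h1, h2⟩ | ⟨h1, h2⟩
  · have := hg q p h2
    exact ⟨by omega, h2⟩
  · omega

lemma fr_above (hg : Grad α) {p q : α} (h : fr i p q) (hp : corank p < i) :
    corank q < i ∧ p ⋖ q := by
  rcases h with ⟨h1, h2⟩ | ⟨h1, h2⟩
  · omega
  · have := hg p q h2
    exact ⟨by omega, h2⟩

lemma fr_below' (hg : Grad α) {p q : α} (h : fr i p q) (hq : i < corank q) :
    i ≤ corank p ∧ q ⋖ p := by
  rcases h with ⟨h1, h2⟩ | ⟨h1, h2⟩
  · exact ⟨h1, h2⟩
  · have := hg p q h2
    omega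

lemma fr_above' (hg : Grad α) {p q : α} (h : fr i p q) (hq : corank q < i) :
    corank p ≤ i ∧ p ⋖ q := by
  rcases h with ⟨h1, h2⟩ | ⟨h1, h2⟩
  · have := hg q p h2
    omega
  · exact ⟨h1, h2⟩

lemma fr_of_below {p q : α} (hp : i ≤ corank p) (h : q ⋖ p) : fr i p q := Or.inl ⟨hp, h⟩

lemma fr_of_above {p q : α} (hp : corank p ≤ i) (h : p ⋖ q) : fr i p q := Or.inr ⟨hp, h⟩

lemma fd_below (hg : Grad α) {ε : α → ℕ} {p : α} (hp : i < corank p) :
    fd i ε p ↔ inE i ε p := by
  rw [inE_ge hp.le]
  unfold fd
  apply exists_congr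
  intro q
  constructor
  · rintro ⟨h1, h2⟩
    exact ⟨(fr_below hg h1 hp).2, h2⟩
  · rintro ⟨h1, h2⟩
    exact ⟨fr_of_below hp.le h1, h2⟩

lemma nd_below (hg : Grad α) {ε : α → ℕ} {p : α} (hp : i < corank p) :
    nd i ε p ↔ outE i ε p := by
  rw [outE_gt hp]
  unfold nd
  apply exists_congr
  intro q
  constructor
  · rintro ⟨h1, h2⟩
    exact ⟨(fr_below' hg h1 hp).2, h2⟩
  · rintro ⟨h1, h2⟩
    have := hg p q h1
    exact ⟨fr_of_below (by omega) h1, h2⟩

lemma fd_above (hg : Grad α) {ε : α → ℕ} {p : α} (hp : corank p < i) :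
    fd i ε p ↔ outE i ε p := by
  rw [outE_le hp.le]
  unfold fd
  apply exists_congr
  intro q
  constructor
  · rintro ⟨h1, h2⟩
    exact ⟨(fr_above hg h1 hp).2, h2⟩
  · rintro ⟨h1, h2⟩
    exact ⟨fr_of_above hp.le h1, h2⟩

lemma nd_above_iff (hg : Grad α) {ε : α → ℕ} {p : α} (hp : corank p < i) :
    nd i ε p ↔ ∃ x, x ⋖ p ∧ ε p ≤ ε x := by
  unfold nd
  apply exists_congr
  intro q
  constructor
  · rintro ⟨h1, h2⟩
    exact ⟨(fr_above' hg h1 hp).2, h2⟩
  · rintro ⟨h1, h2⟩
    have := hg q p h1
    exact ⟨fr_of_above (by omega) h1, h2⟩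

/-- for a good energy function the threshold condition is automatic -/
lemma nd_above (hg : Grad α) (hl : HasLower α i) {ε : α → ℕ} (hε : GoodE i ε) {p : α}
    (hp : corank p < i) : nd i ε p ↔ inE i ε p := by
  rw [nd_above_iff hg hp, inE_lt hp]
  constructor
  · intro h
    exact Or.inr h
  · rintro (h | h)
    · by_contra h1
      push Not at h1
      obtain ⟨c, hc⟩ := hl p hp
      have h2 := h1 c hc
      have h3 := hg c p hc
      have h4 : outE i ε c := by
        rw [outE_le (by omega)]
        exact ⟨p, hc, h2⟩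
      by_cases h5 : corank c < i
      · apply hε c
        refine ⟨?_, h4⟩
        rw [inE_lt h5]
        left
        omega
      · omega
    · exact h

/-- the symmetric notion of good energy functions -/
def GoodS (i : ℕ) (ε : α → ℕ) : Prop :=
  (∀ p, corank p ≠ i → ¬ (fd i ε p ∧ nd i ε p)) ∧
    ∀ y, corank y = i → ¬ (inE i ε y ∧ outE i ε y)

lemma goodS_of_goodE (hg : Grad α) (hl : HasLower α i) {ε : α → ℕ} (hε : GoodE i ε) :
    GoodS i ε := by
  refine ⟨fun p hp h => ?_, fun y _ => hε y⟩
  rcases lt_or_gt_of_ne hp with h1 | h1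
  · rw [fd_above hg h1, nd_above hg hl hε h1] at h
    exact hε p ⟨h.2, h.1⟩
  · rw [fd_below hg h1, nd_below hg h1] at h
    exact hε p h

lemma goodS_aux (hg : Grad α) (hl : HasLower α i) {ε : α → ℕ} (hε : GoodS i ε) :
    ∀ n : ℕ, ∀ p : α, corank p + n = i → 0 < n → ¬ nd i ε p → i ≤ corank p + ε p := by
  intro n
  induction n with
  | zero => intro p _ h; omega
  | succ n ih =>
    intro p hp _ hnd
    have hp' : corank p < i := by omega
    rw [nd_above_iff hg hp'] at hnd
    push Not at hnd
    obtain ⟨c, hc⟩ := hl p hp'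
    have h1 := hnd c hc
    have h2 := hg c p hc
    rcases Nat.eq_zero_or_pos n with h3 | h3
    · omega
    · have h4 : ¬ nd i ε c := by
        intro h5
        refine hε.1 c (by omega) ⟨⟨p, fr_of_above (by omega) hc, h1⟩, h5⟩
      have := ih c (by omega) h3 h4
      omega

lemma goodE_of_goodS (hg : Grad α) (hl : HasLower α i) {ε : α → ℕ} (hε : GoodS i ε) :
    GoodE i ε := by
  intro p hp
  rcases lt_trichotomy (corank p) i with h1 | h1 | h1
  · have h2 : fd i ε p := (fd_above hg h1).2 hp.2
    have h3 : ¬ nd i ε p := fun h => hε.1 p (by omega) ⟨h2, h⟩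
    have h4 := goodS_aux hg hl hε (i - corank p) p (by omega) (by omega) h3
    have h5 := hp.1
    rw [inE_lt h1] at h5
    rcases h5 with h5 | h5
    · omega
    · exact h3 ((nd_above_iff hg h1).2 h5)
  · exact hε.2 p h1 hp
  · exact hε.1 p (by omega) ⟨(fd_below hg h1).2 hp.1, (nd_below hg h1).2 hp.2⟩

lemma not_nd_lev (hg : Grad α) {ε : α → ℕ} {y : α} (hy : corank y = i) : ¬ nd i ε y := by
  rintro ⟨q, h, _⟩
  have := fr_ds hg h
  have h1 : ds i y = 0 := ds_eq_zero.2 hy
  omega

lemma fd_lev {ε : α → ℕ} {y : α} (hy : corank y = i) :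
    fd i ε y ↔ inE i ε y ∨ outE i ε y := by
  rw [inE_lev hy, outE_lev hy]
  unfold fd fr
  constructor
  · rintro ⟨q, ⟨_, h⟩ | ⟨_, h⟩, h2⟩
    · exact Or.inl ⟨q, h, h2⟩
    · exact Or.inr ⟨q, h, h2⟩
  · rintro (⟨q, h, h2⟩ | ⟨q, h, h2⟩)
    · exact ⟨q, Or.inl ⟨hy.ge, h⟩, h2⟩
    · exact ⟨q, Or.inr ⟨hy.le, h⟩, h2⟩

/-- the free elements in the symmetric language -/
lemma mem_pkF_iff (hg : Grad α) (hl : HasLower α i) {ε : α → ℕ} (hε : GoodE i ε) {p : α} :
    p ∈ pkF i ε ↔ ¬ fd i ε p ∧ ¬ nd i ε p := by
  unfold pkF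
  rw [mem_filter]
  simp only [mem_univ, true_and]
  rcases lt_trichotomy (corank p) i with h1 | h1 | h1
  · rw [fd_above hg h1, nd_above hg hl hε h1, and_comm]
  · have := not_nd_lev hg (ε := ε) h1
    rw [fd_lev h1]
    tauto
  · rw [fd_below hg h1, nd_below hg h1]

/-! ### counting -/

/-- dominated elements of level `i` -/
noncomputable def Yd (i : ℕ) (ε : α → ℕ) : Finset α := (lev α i).filter fun y => fd i ε y

/-- elements of level `i` dominated from below -/
noncomputable def Yin (i : ℕ) (ε : α → ℕ) : Finset α := (lev α i).filter fun y => inE i ε y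

/-- free elements outside level `i` -/
noncomputable def Fo (i : ℕ) (ε : α → ℕ) : Finset α :=
  univ.filter fun p => corank p ≠ i ∧ ¬ fd i ε p ∧ ¬ nd i ε p

/-- elements outside level `i` dominated from far -/
noncomputable def Fd (i : ℕ) (ε : α → ℕ) : Finset α := univ.filter fun p => corank p ≠ i ∧ fd i ε p

lemma card_pkF (hg : Grad α) (hl : HasLower α i) {ε : α → ℕ} (hε : GoodE i ε) :
    (pkF i ε).card + (Yd i ε).card = (lev α i).card + (Fo i ε).card := by
  have h1 : pkF i ε = ((lev α i).filter fun y => ¬ fd i ε y) ∪ Fo i ε := by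
    ext p
    rw [mem_pkF_iff hg hl hε, mem_union, mem_filter, mem_lev, Fo, mem_filter]
    simp only [mem_univ, true_and]
    by_cases h : corank p = i
    · have := not_nd_lev hg (ε := ε) h
      tauto
    · tauto
  rw [h1, card_union_of_disjoint]
  · have := Finset.card_filter_add_card_filter_not (s := lev α i) (fun y => fd i ε y)
    unfold Yd
    omega
  · rw [Finset.disjoint_left]
    intro p hp hp'
    rw [mem_filter, mem_lev] at hp
    rw [Fo, mem_filter] at hp'
    exact hp'.2.1 hp.1

/-- the sign of an energy function -/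
lemma sign_inF (hg : Grad α) (hl : HasLower α i) {ε : α → ℕ} (hε : GoodE i ε) :
    (-1 : ℤ) ^ (inF i ε).card = (-1) ^ (low α i).card * ((-1) ^ (Fd i ε).card *
      (-1) ^ ((Fo i ε).filter fun p => corank p < i).card * (-1) ^ (Yin i ε).card) := by
  -- above: in = everything except far dominated and free
  have hab : ((low α i).filter fun p => inE i ε p).card + ((Fd i ε).filter fun p => corank p < i).card
      + ((Fo i ε).filter fun p => corank p < i).card = (low α i).card := by
    rw [← card_union_of_disjoint, ← card_union_of_disjoint]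
    · congr 1
      ext p
      rw [mem_union, mem_union, mem_filter, mem_filter, mem_filter, mem_low, Fd, Fo, mem_filter,
        mem_filter]
      simp only [mem_univ, true_and]
      constructor
      · rintro ((⟨h, _⟩ | ⟨_, h⟩) | ⟨_, h⟩)
        · exact h
        · exact h
        · exact h
      · intro h
        have h1 := nd_above hg hl hε h
        have h2 : corank p ≠ i := by omega
        tauto
    · rw [Finset.disjoint_left]
      intro p hp hp'
      rw [mem_union, mem_filter, mem_filter, mem_low, Fd, mem_filter] at hp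
      rw [mem_filter, Fo, mem_filter] at hp'
      obtain ⟨⟨_, h1, h2, h3⟩, h4⟩ := hp'
      rw [nd_above hg hl hε h4] at h3
      tauto
    · rw [Finset.disjoint_left]
      intro p hp hp'
      rw [mem_filter, mem_low] at hp
      rw [mem_filter, Fd, mem_filter] at hp'
      exact hε p ⟨hp.2, (fd_above hg hp.1).1 hp'.1.2.2⟩
  have hin : inF i ε = (((low α i).filter fun p => inE i ε p) ∪ Yin i ε) ∪
      ((Fd i ε).filter fun p => i < corank p) := by
    ext p
    unfold inF Yin
    rw [mem_union, mem_union, mem_filter, mem_filter, mem_filter, mem_filter, mem_low, mem_lev,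
      Fd, mem_filter]
    simp only [mem_univ, true_and]
    rcases lt_trichotomy (corank p) i with h1 | h1 | h1
    · constructor
      · intro h
        exact Or.inl (Or.inl ⟨h1, h⟩)
      · rintro ((h | h) | h)
        · exact h.2
        · exact h.2
        · omega
    · constructor
      · intro h
        exact Or.inl (Or.inr ⟨h1, h⟩)
      · rintro ((h | h) | h)
        · exact h.2
        · exact h.2
        · omega
    · have h2 : corank p ≠ i := by omega
      have h3 := fd_below hg (ε := ε) h1
      constructor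
      · intro h
        exact Or.inr ⟨⟨h2, h3.2 h⟩, h1⟩
      · rintro ((h | h) | h)
        · exact h.2
        · exact h.2
        · exact h3.1 h.1.2
  have hcard : (inF i ε).card = ((low α i).filter fun p => inE i ε p).card + (Yin i ε).card +
      ((Fd i ε).filter fun p => i < corank p).card := by
    rw [hin, card_union_of_disjoint, card_union_of_disjoint]
    · rw [Finset.disjoint_left]
      intro p hp hp'
      rw [mem_filter, mem_low] at hp
      rw [Yin, mem_filter, mem_lev] at hp'
      omega
    · rw [Finset.disjoint_left]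
      intro p hp hp'
      rw [mem_union, mem_filter, mem_low, Yin, mem_filter, mem_lev] at hp
      rw [mem_filter] at hp'
      omega
  have hFd : ((Fd i ε).filter fun p => corank p < i).card +
      ((Fd i ε).filter fun p => i < corank p).card = (Fd i ε).card := by
    rw [← card_union_of_disjoint]
    · congr 1
      ext p
      rw [mem_union, mem_filter, mem_filter, Fd, mem_filter]
      simp only [mem_univ, true_and]
      constructor
      · rintro (h | h)
        · exact h.1
        · exact h.1
      · intro h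
        rcases lt_or_gt_of_ne h.1 with h1 | h1
        · exact Or.inl ⟨h, h1⟩
        · exact Or.inr ⟨h, h1⟩
    · rw [Finset.disjoint_left]
      intro p hp hp'
      rw [mem_filter] at hp hp'
      omega
  have hsq : ∀ n : ℕ, ((-1 : ℤ) ^ n) * (-1) ^ n = 1 := by
    intro n
    rw [← mul_pow]
    norm_num
  rw [hcard, ← hFd, ← hab]
  simp only [pow_add]
  have h1 := hsq ((Fd i ε).filter fun p => corank p < i).card
  have h2 := hsq ((Fo i ε).filter fun p => corank p < i).card
  set a := (-1 : ℤ) ^ ((low α i).filter fun p => inE i ε p).card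
  set b := (-1 : ℤ) ^ (Yin i ε).card
  set c := (-1 : ℤ) ^ ((Fd i ε).filter fun p => i < corank p).card
  set d := (-1 : ℤ) ^ ((Fd i ε).filter fun p => corank p < i).card
  set e := (-1 : ℤ) ^ ((Fo i ε).filter fun p => corank p < i).card
  calc a * b * c = a * b * c * (d * d) * (e * e) := by rw [h1, h2]; ring
    _ = _ := by ring

end Pool.Gauss
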