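import Pool.Agent.Work.MP_065141_co.UOne

/-!
# Generating functions of the lower sets of a finite set of elements of a poset

General rules (splitting at an element, disjoint unions, order embeddings) and the example of the
rectangle of cells.
-/

set_option autoImplicit false
set_option linter.unusedSectionVars false
open scoped Classical
open Finset

namespace Pool.Gauss

section General

variable {γ δ : Type} [PartialOrder γ] [PartialOrder δ]

/-- the subsets of `S` which are lower sets of `S` -/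
noncomputable def lowS (S : Finset γ) : Finset (Finset γ) :=
  S.powerset.filter fun I => ∀ p ∈ I, ∀ q ∈ S, q ≤ p → q ∈ I

lemma mem_lowS {S I : Finset γ} : I ∈ lowS S ↔ I ⊆ S ∧ ∀ p ∈ I, ∀ q ∈ S, q ≤ p → q ∈ I := by
  rw [lowS, mem_filter, mem_powerset]

/-- generating function of the lower sets of `S` -/
noncomputable def gfS (S : Finset γ) : Polynomial ℤ :=
  ∑ I ∈ lowS S, (Polynomial.X : Polynomial ℤ) ^ I.card

lemma gfS_empty : gfS (∅ : Finset γ) = 1 := by
  have h1 : lowS (∅ : Finset γ) = {∅} := by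
    ext I
    rw [mem_lowS, mem_singleton, subset_empty]
    constructor
    · rintro ⟨h, _⟩
      exact h
    · rintro rfl
      exact ⟨rfl, fun p hp => absurd hp (notMem_empty _)⟩
  rw [gfS, h1]
  simp

/-- splitting at an element -/
theorem gfS_split (S : Finset γ) {x : γ} (hx : x ∈ S) :
    gfS S = gfS (S.filter fun y => ¬ x ≤ y) +
      (Polynomial.X : Polynomial ℤ) ^ (S.filter fun y => y ≤ x).card *
        gfS (S.filter fun y => ¬ y ≤ x) := by
  rw [gfS, ← sum_filter_add_sum_filter_not (lowS S) (fun I => x ∉ I)]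
  congr 1
  · apply Finset.sum_congr _ (fun _ _ => rfl)
    ext I
    rw [mem_filter, mem_lowS, mem_lowS]
    constructor
    · rintro ⟨⟨h1, h2⟩, h3⟩
      refine ⟨?_, ?_⟩
      · intro y hy
        rw [mem_filter]
        exact ⟨h1 hy, fun h4 => h3 (h2 y hy x hx h4)⟩
      · intro p hp q hq
        rw [mem_filter] at hq
        exact h2 p hp q hq.1
    · rintro ⟨h1, h2⟩
      refine ⟨⟨fun y hy => (mem_filter.1 (h1 hy)).1, ?_⟩, ?_⟩
      · intro p hp q hq hqp
        refine h2 p hp q ?_ hqp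
        rw [mem_filter]
        exact ⟨hq, fun h4 => (mem_filter.1 (h1 hp)).2 (h4.trans hqp)⟩
      · intro h3
        exact (mem_filter.1 (h1 h3)).2 le_rfl
  · rw [gfS, Finset.mul_sum]
    symm
    refine Finset.sum_bij' (fun I _ => (S.filter fun y => y ≤ x) ∪ I)
      (fun J _ => J.filter fun y => ¬ y ≤ x) ?_ ?_ ?_ ?_ ?_
    · intro I hI
      rw [mem_lowS] at hI
      rw [mem_filter, mem_lowS, not_not]
      refine ⟨⟨?_, ?_⟩, ?_⟩
      · intro y hy
        rw [mem_union, mem_filter] at hy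
        rcases hy with hy | hy
        · exact hy.1
        · exact (mem_filter.1 (hI.1 hy)).1
      · intro p hp q hq hqp
        rw [mem_union, mem_filter] at hp ⊢
        by_cases h4 : q ≤ x
        · exact Or.inl ⟨hq, h4⟩
        · right
          rcases hp with hp | hp
          · exact absurd (hqp.trans hp.2) h4
          · exact hI.2 p hp q (mem_filter.2 ⟨hq, h4⟩) hqp
      · rw [mem_union, mem_filter]
        exact Or.inl ⟨hx, le_rfl⟩
    · intro J hJ
      rw [mem_filter, mem_lowS, not_not] at hJ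
      rw [mem_lowS]
      refine ⟨?_, ?_⟩
      · intro y hy
        rw [mem_filter] at hy ⊢
        exact ⟨hJ.1.1 hy.1, hy.2⟩
      · intro p hp q hq hqp
        rw [mem_filter] at hp hq ⊢
        exact ⟨hJ.1.2 p hp.1 q hq.1 hqp, hq.2⟩
    · intro I hI
      rw [mem_lowS] at hI
      ext y
      rw [mem_filter, mem_union, mem_filter]
      constructor
      · rintro ⟨h1 | h1, h2⟩
        · exact absurd h1.2 h2
        · exact h1
      · intro h1
        exact ⟨Or.inr h1, (mem_filter.1 (hI.1 h1)).2⟩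
    · intro J hJ
      rw [mem_filter, mem_lowS, not_not] at hJ
      ext y
      rw [mem_union, mem_filter, mem_filter]
      constructor
      · rintro (⟨h1, h2⟩ | ⟨h1, _⟩)
        · exact hJ.1.2 x hJ.2 y h1 h2
        · exact h1
      · intro h1
        by_cases h2 : y ≤ x
        · exact Or.inl ⟨hJ.1.1 h1, h2⟩
        · exact Or.inr ⟨h1, h2⟩
    · intro I hI
      rw [mem_lowS] at hI
      rw [card_union_of_disjoint, pow_add]
      rw [Finset.disjoint_left]
      intro y h1 h2
      exact (mem_filter.1 (hI.1 h2)).2 (mem_filter.1 h1).2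

/-- invariance under order embeddings -/
theorem gfS_image (S : Finset γ) (f : γ → δ)
    (hf : ∀ p ∈ S, ∀ q ∈ S, f p ≤ f q ↔ p ≤ q) : gfS (S.image f) = gfS S := by
  have hinj : ∀ p ∈ S, ∀ q ∈ S, f p = f q → p = q := by
    intro p hp q hq h
    exact le_antisymm ((hf p hp q hq).1 h.le) ((hf q hq p hp).1 h.ge)
  rw [gfS, gfS]
  symm
  refine Finset.sum_bij' (fun I _ => I.image f) (fun J _ => S.filter fun p => f p ∈ J)
    ?_ ?_ ?_ ?_ ?_
  · intro I hI
    rw [mem_lowS] at hI ⊢
    refine ⟨image_subset_image hI.1, ?_⟩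
    intro p hp q hq hqp
    rw [mem_image] at hp hq ⊢
    obtain ⟨p', hp', rfl⟩ := hp
    obtain ⟨q', hq', rfl⟩ := hq
    exact ⟨q', hI.2 p' hp' q' hq' ((hf q' hq' p' (hI.1 hp')).1 hqp), rfl⟩
  · intro J hJ
    rw [mem_lowS] at hJ ⊢
    refine ⟨filter_subset _ _, ?_⟩
    intro p hp q hq hqp
    rw [mem_filter] at hp ⊢
    exact ⟨hq, hJ.2 _ hp.2 _ (mem_image_of_mem f hq) ((hf q hq p hp.1).2 hqp)⟩
  · intro I hI
    rw [mem_lowS] at hI
    ext p
    rw [mem_filter, mem_image]
    constructor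
    · rintro ⟨h1, p', h2, h3⟩
      rw [← hinj p' (hI.1 h2) p h1 h3]
      exact h2
    · intro h1
      exact ⟨hI.1 h1, p, h1, rfl⟩
  · intro J hJ
    rw [mem_lowS] at hJ
    ext y
    rw [mem_image]
    constructor
    · rintro ⟨p, hp, rfl⟩
      exact (mem_filter.1 hp).2
    · intro h1
      obtain ⟨p, hp, rfl⟩ := mem_image.1 (hJ.1 h1)
      exact ⟨p, mem_filter.2 ⟨hp, h1⟩, rfl⟩
  · intro I hI
    rw [mem_lowS] at hI
    rw [card_image_of_injOn]
    intro p hp q hq h
    exact hinj p (hI.1 hp) q (hI.1 hq) h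

/-- a least element -/
theorem gfS_bot (S : Finset γ) {x : γ} (hx : x ∈ S) (hb : ∀ y ∈ S, x ≤ y) :
    gfS S = 1 + (Polynomial.X : Polynomial ℤ) * gfS (S.erase x) := by
  rw [gfS_split S hx]
  have h1 : (S.filter fun y => ¬ x ≤ y) = ∅ := by
    rw [filter_eq_empty_iff]
    intro y hy
    rw [not_not]
    exact hb y hy
  have h2 : (S.filter fun y => y ≤ x) = {x} := by
    ext y
    rw [mem_filter, mem_singleton]
    constructor
    · rintro ⟨h3, h4⟩
      exact le_antisymm h4 (hb y h3)
    · rintro rfl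
      exact ⟨hx, le_rfl⟩
  have h3 : (S.filter fun y => ¬ y ≤ x) = S.erase x := by
    ext y
    rw [mem_filter, mem_erase]
    constructor
    · rintro ⟨h3, h4⟩
      exact ⟨fun h5 => h4 h5.le, h3⟩
    · rintro ⟨h3, h4⟩
      exact ⟨h4, fun h5 => h3 (le_antisymm h5 (hb y h4))⟩
  rw [h1, h2, h3, gfS_empty, card_singleton, pow_one]

/-- two incomparable parts -/
theorem gfS_union (S T : Finset γ) (h : ∀ x ∈ S, ∀ y ∈ T, ¬ x ≤ y ∧ ¬ y ≤ x) :
    gfS (S ∪ T) = gfS S * gfS T := by
  rw [gfS, gfS, gfS, Finset.sum_mul_sum, ← Finset.sum_product']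
  symm
  have hdis : Disjoint S T := by
    rw [Finset.disjoint_left]
    intro x hx hy
    exact (h x hx x hy).1 le_rfl
  refine Finset.sum_bij' (fun P _ => P.1 ∪ P.2) (fun J _ => (J ∩ S, J ∩ T)) ?_ ?_ ?_ ?_ ?_
  · rintro ⟨I, J⟩ hP
    rw [mem_product, mem_lowS, mem_lowS] at hP
    obtain ⟨hI, hJ⟩ := hP
    rw [mem_lowS]
    refine ⟨union_subset_union hI.1 hJ.1, ?_⟩
    intro p hp q hq hqp
    simp only [mem_union] at hp hq ⊢
    rcases hp with hp | hp
    · left
      rcases hq with hq | hq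
      · exact hI.2 p hp q hq hqp
      · exact absurd hqp (h p (hI.1 hp) q hq).2
    · right
      rcases hq with hq | hq
      · exact absurd hqp (h q hq p (hJ.1 hp)).1
      · exact hJ.2 p hp q hq hqp
  · intro K hK
    rw [mem_lowS] at hK
    rw [mem_product, mem_lowS, mem_lowS]
    refine ⟨⟨inter_subset_right, ?_⟩, ⟨inter_subset_right, ?_⟩⟩
    · intro p hp q hq hqp
      rw [mem_inter] at hp ⊢
      exact ⟨hK.2 p hp.1 q (mem_union_left _ hq) hqp, hq⟩
    · intro p hp q hq hqp
      rw [mem_inter] at hp ⊢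
      exact ⟨hK.2 p hp.1 q (mem_union_right _ hq) hqp, hq⟩
  · rintro ⟨I, J⟩ hP
    rw [mem_product, mem_lowS, mem_lowS] at hP
    obtain ⟨hI, hJ⟩ := hP
    rw [Finset.disjoint_left] at hdis
    rw [Prod.mk.injEq]
    constructor
    · ext y
      simp only [mem_inter, mem_union]
      constructor
      · rintro ⟨h1 | h1, h2⟩
        · exact h1
        · exact absurd (hJ.1 h1) (hdis h2)
      · intro h1
        exact ⟨Or.inl h1, hI.1 h1⟩
    · ext y
      simp only [mem_inter, mem_union]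
      constructor
      · rintro ⟨h1 | h1, h2⟩
        · exact absurd h2 (hdis (hI.1 h1))
        · exact h1
      · intro h1
        exact ⟨Or.inr h1, hJ.1 h1⟩
  · intro K hK
    rw [mem_lowS] at hK
    simp only
    rw [← inter_union_distrib_left, inter_eq_left]
    exact hK.1
  · rintro ⟨I, J⟩ hP
    rw [mem_product, mem_lowS, mem_lowS] at hP
    simp only
    rw [card_union_of_disjoint (Finset.disjoint_of_subset_left hP.1.1
      (Finset.disjoint_of_subset_right hP.2.1 hdis)), pow_add]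

/-- splitting at an element, with explicit parts -/
theorem gfS_split' {S A B D : Finset γ} {x : γ} (hx : x ∈ S)
    (hA : ∀ y, y ∈ A ↔ y ∈ S ∧ ¬ x ≤ y) (hB : ∀ y, y ∈ B ↔ y ∈ S ∧ y ≤ x)
    (hD : ∀ y, y ∈ D ↔ y ∈ S ∧ ¬ y ≤ x) :
    gfS S = gfS A + (Polynomial.X : Polynomial ℤ) ^ B.card * gfS D := by
  rw [gfS_split S hx]
  have h1 : (S.filter fun y => ¬ x ≤ y) = A := by
    ext y
    rw [mem_filter, hA]
  have h2 : (S.filter fun y => y ≤ x) = B := by
    ext y
    rw [mem_filter, hB]
  have h3 : (S.filter fun y => ¬ y ≤ x) = D := by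
    ext y
    rw [mem_filter, hD]
  rw [h1, h2, h3]

/-- invariance under order embeddings, with explicit image -/
theorem gfS_image' {S : Finset γ} {T : Finset δ} (f : γ → δ)
    (hf : ∀ p ∈ S, ∀ q ∈ S, f p ≤ f q ↔ p ≤ q) (hT : ∀ y, y ∈ T ↔ ∃ x ∈ S, f x = y) :
    gfS T = gfS S := by
  rw [← gfS_image S f hf]
  congr 1
  ext y
  rw [hT, mem_image]

/-- a least element, with explicit rest -/
theorem gfS_bot' {S T : Finset γ} {x : γ} (hx : x ∈ S) (hb : ∀ y ∈ S, x ≤ y)
    (hT : ∀ y, y ∈ T ↔ y ∈ S ∧ y ≠ x) :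
    gfS S = 1 + (Polynomial.X : Polynomial ℤ) * gfS T := by
  rw [gfS_bot S hx hb]
  congr 3
  ext y
  rw [hT, mem_erase]
  exact and_comm

/-- the poset of the elements of `S`, upside down -/
theorem upSets_subtype (S : Finset γ) :
    ∑ F ∈ upSets ({p : γ // p ∈ S}ᵒᵈ), (Polynomial.X : Polynomial ℤ) ^ F.card = gfS S := by
  rw [gfS]
  refine Finset.sum_bij' (fun F _ => F.image fun p => (OrderDual.ofDual p).1)
    (fun I _ => univ.filter fun p : {p : γ // p ∈ S}ᵒᵈ => (OrderDual.ofDual p).1 ∈ I)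
    ?_ ?_ ?_ ?_ ?_
  · intro F hF
    rw [mem_upSets] at hF
    rw [mem_lowS]
    refine ⟨?_, ?_⟩
    · intro y hy
      rw [mem_image] at hy
      obtain ⟨p, _, rfl⟩ := hy
      exact (OrderDual.ofDual p).2
    · intro p hp q hq hqp
      rw [mem_image] at hp ⊢
      obtain ⟨p', h1, rfl⟩ := hp
      exact ⟨OrderDual.toDual ⟨q, hq⟩, hF p' h1 _ hqp, rfl⟩
  · intro I hI
    rw [mem_lowS] at hI
    rw [mem_upSets]
    intro p hp q hqp
    rw [mem_filter] at hp ⊢
    exact ⟨mem_univ _, hI.2 _ hp.2 _ (OrderDual.ofDual q).2 hqp⟩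
  · intro F _
    ext p
    rw [mem_filter, mem_image]
    constructor
    · rintro ⟨_, q, h1, h2⟩
      have h3 : q = p := by
        have : OrderDual.ofDual q = OrderDual.ofDual p := Subtype.ext h2
        exact this
      rw [← h3]
      exact h1
    · intro h1
      exact ⟨mem_univ _, p, h1, rfl⟩
  · intro I hI
    rw [mem_lowS] at hI
    ext y
    rw [mem_image]
    constructor
    · rintro ⟨p, h1, rfl⟩
      exact (mem_filter.1 h1).2
    · intro h1
      exact ⟨OrderDual.toDual ⟨y, hI.1 h1⟩, mem_filter.2 ⟨mem_univ _, h1⟩, rfl⟩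
  · intro F _
    rw [card_image_of_injective]
    intro p q h
    have : OrderDual.ofDual p = OrderDual.ofDual q := Subtype.ext h
    exact this

end General

/-- the generating function of the up-sets of a finite poset -/
theorem sum_upSets_eq_gfS (β : Type) [Fintype β] [PartialOrder β] :
    ∑ F ∈ upSets β, (Polynomial.X : Polynomial ℤ) ^ F.card =
      gfS (univ : Finset βᵒᵈ) := by
  rw [gfS]
  apply Finset.sum_congr _ (fun _ _ => rfl)
  ext F
  rw [mem_upSets]
  have h0 : ∀ G : Finset βᵒᵈ, G ∈ lowS (univ : Finset βᵒᵈ) ↔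
      ∀ p ∈ G, ∀ q : βᵒᵈ, q ≤ p → q ∈ G := by
    intro G
    rw [mem_lowS]
    constructor
    · rintro ⟨_, h⟩ p hp q hqp
      exact h p hp q (mem_univ _) hqp
    · intro h
      exact ⟨subset_univ _, fun p hp q _ hqp => h p hp q hqp⟩
  exact (h0 F).symm

end Pool.Gauss
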