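import Pool.Agent.Work.MP_065141_co.UOne

/-!
# The identity `U_1` for several maximal elements: comparison with model posets

`HasU1 G s` says that the polynomial `G` is the `U_1` polynomial for the level numbers `s`.
It holds for Gaussian posets (`hasU1_of_gauss`), it is multiplicative (`HasU1.mul`,
`HasU1.prod`: disjoint unions of posets), and if the generating functions of the up-sets of two
such objects agree up to `X ^ K`, then the level numbers agree below `K` and the difference of
the level numbers at `K` is the difference of the coefficients of `X ^ (K + 1)` (`compare_next`).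
`Small K f` says that the elements with at most `K` elements above them are the same in two
posets; then the numbers of up-sets agree up to `K`, and at `K + 1` they differ by the numbers
of elements with exactly `K + 1` elements above them.
-/

set_option autoImplicit false
set_option linter.unusedSectionVars false
open scoped Classical
open Finset

namespace Pool.Gauss

variable {α : Type} [Fintype α] [PartialOrder α]

/-- generating function of the up-sets -/
noncomputable def UP (α : Type) [Fintype α] [PartialOrder α] : Polynomial ℤ :=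
  ∑ F ∈ upSets α, (Polynomial.X : Polynomial ℤ) ^ F.card

/-- the number of up-sets with `j` elements -/
noncomputable def nUp (α : Type) [Fintype α] [PartialOrder α] (j : ℕ) : ℕ :=
  ((upSets α).filter fun F => F.card = j).card

/-- the number of elements with exactly `j` elements above them (themselves included) -/
noncomputable def nUs (α : Type) [Fintype α] [PartialOrder α] (j : ℕ) : ℕ :=
  (univ.filter fun x : α => us x = j).card

lemma UP_coeff (α : Type) [Fintype α] [PartialOrder α] (j : ℕ) :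
    (UP α).coeff j = (nUp α j : ℤ) := coeff_gen _ _

/-- the identity `U_1` with level numbers `s` -/
def HasU1 (G : Polynomial ℤ) (s : ℕ → ℕ) : Prop :=
  ∃ M0, ∀ M, M0 ≤ M →
    G * ∏ l ∈ range M, (1 - (Polynomial.X : Polynomial ℤ) ^ (l + 1)) ^ s l =
      ∏ l ∈ range M, (1 - (Polynomial.X : Polynomial ℤ) ^ (l + 2)) ^ s l

lemma HasU1.one : HasU1 1 (fun _ => 0) := ⟨0, fun M _ => by simp⟩

lemma HasU1.mul {G G' : Polynomial ℤ} {s s' : ℕ → ℕ} (h : HasU1 G s) (h' : HasU1 G' s') :
    HasU1 (G * G') (fun l => s l + s' l) := by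
  obtain ⟨M0, hM0⟩ := h
  obtain ⟨M1, hM1⟩ := h'
  refine ⟨max M0 M1, fun M hM => ?_⟩
  have e1 := hM0 M ((le_max_left _ _).trans hM)
  have e2 := hM1 M ((le_max_right _ _).trans hM)
  have e3 : ∀ g : ℕ → Polynomial ℤ, ∏ l ∈ range M, g l ^ (s l + s' l) =
      (∏ l ∈ range M, g l ^ s l) * ∏ l ∈ range M, g l ^ s' l := by
    intro g
    rw [← Finset.prod_mul_distrib]
    apply Finset.prod_congr rfl
    intro l _
    rw [pow_add]
  rw [e3, e3, ← e1, ← e2]
  ring

lemma HasU1.prod {ι : Type} (T : Finset ι) {G : ι → Polynomial ℤ} {s : ι → ℕ → ℕ}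
    (h : ∀ a ∈ T, HasU1 (G a) (s a)) :
    HasU1 (∏ a ∈ T, G a) (fun l => ∑ a ∈ T, s a l) := by
  induction T using Finset.induction_on with
  | empty => simpa using HasU1.one
  | insert a T ha ih =>
    rw [Finset.prod_insert ha]
    have h1 : (fun l => ∑ b ∈ insert a T, s b l) = fun l => s a l + ∑ b ∈ T, s b l := by
      funext l
      rw [Finset.sum_insert ha]
    rw [h1]
    exact (h a (mem_insert_self _ _)).mul (ih fun b hb => h b (mem_insert_of_mem hb))

lemma HasU1.coeff_zero {G : Polynomial ℤ} {s : ℕ → ℕ} (h : HasU1 G s) : G.coeff 0 = 1 := by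
  obtain ⟨M, hM⟩ := h
  have h13 := congrArg (fun p => Polynomial.coeff p 0) (hM M le_rfl)
  simp only [Polynomial.mul_coeff_zero, Polynomial.coeff_zero_prod] at h13
  rw [Finset.prod_eq_one, Finset.prod_eq_one, mul_one] at h13
  · exact h13
  · intro l _
    rw [Polynomial.coeff_zero_eq_eval_zero]
    simp
  · intro l _
    rw [Polynomial.coeff_zero_eq_eval_zero]
    simp

/-- a Gaussian poset has `U_1` with its own level sizes -/
theorem hasU1_of_gauss {h : Fin (Fintype.card α) → ℕ} (hG : IsGaussianWith α h) :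
    HasU1 (UP α) (sz α) := by
  refine ⟨HT α, fun M hM => ?_⟩
  have h1 := prod_by_level (univ : Finset α) corank M (fun x _ => by
    have := corank_lt_HT x
    omega) (fun l => 1 - Polynomial.X ^ (l + 1))
  have h2 := prod_by_level (univ : Finset α) corank M (fun x _ => by
    have := corank_lt_HT x
    omega) (fun l => 1 - Polynomial.X ^ (l + 2))
  have h3 : ∀ l, (univ.filter fun x : α => corank x = l).card = sz α l := by
    intro l
    rfl
  simp only [h3] at h1 h2
  rw [← h1, ← h2]
  exact U_one hG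

/-- the staircase with `N` columns -/
theorem hasU1_st (N : ℕ) :
    HasU1 (∑ I ∈ stId N, (Polynomial.X : Polynomial ℤ) ^ I.card) (st N) :=
  ⟨2 * N, fun M hM => st_identity N M (by omega)⟩

/-- **comparison**: equal coefficients up to `K` give equal level numbers below `K`, and the
difference at level `K` is the difference of the next coefficients -/
theorem compare_next {U G : Polynomial ℤ} {n s : ℕ → ℕ} {K : ℕ} (hU : HasU1 U n)
    (hG : HasU1 G s) (h : ∀ j ≤ K, U.coeff j = G.coeff j) :
    (∀ l < K, n l = s l) ∧ (n K : ℤ) - s K = U.coeff (K + 1) - G.coeff (K + 1) := by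
  obtain ⟨M0, hM0⟩ := id hU
  obtain ⟨M1, hM1⟩ := id hG
  have hU1 := hM0 (K + 1 + (M0 + M1)) (by omega)
  have hG1 := hM1 (K + 1 + (M0 + M1)) (by omega)
  have hlt := compare_sizes hU1 hG1 (by omega) h
  refine ⟨hlt, ?_⟩
  set t := M0 + M1 with ht
  set d : ℤ := U.coeff (K + 1) - G.coeff (K + 1) with hd
  set I : Ideal (Polynomial ℤ) := Ideal.span {Polynomial.X ^ (K + 2)} with hI
  set φ : Polynomial ℤ →+* Polynomial ℤ ⧸ I := Ideal.Quotient.mk I with hφ
  have h0 : (φ Polynomial.X) ^ (K + 2) = 0 := by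
    rw [← map_pow, hφ, Ideal.Quotient.eq_zero_iff_mem, hI]
    exact Ideal.mem_span_singleton_self _
  have h0' : ∀ k, K + 2 ≤ k → (φ Polynomial.X) ^ k = 0 := by
    intro k hk
    exact pow_eq_zero_of_le hk h0
  have h1 : φ U = φ (G + Polynomial.C d * Polynomial.X ^ (K + 1)) := by
    rw [hφ, Ideal.Quotient.mk_eq_mk_iff_sub_mem, hI, Ideal.mem_span_singleton,
      Polynomial.X_pow_dvd_iff]
    intro e he
    rw [Polynomial.coeff_sub, Polynomial.coeff_add, Polynomial.coeff_C_mul,
      Polynomial.coeff_X_pow]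
    by_cases h2 : e = K + 1
    · rw [if_pos h2, h2, hd]
      ring
    · rw [if_neg h2, h e (by omega)]
      ring
  have h2 : ∀ k : ℕ, (1 - (φ Polynomial.X) ^ (K + 1)) ^ k = 1 - k * (φ Polynomial.X) ^ (K + 1) := by
    intro k
    induction k with
    | zero => simp
    | succ k ih2 =>
      rw [pow_succ, ih2]
      have h3 : (φ Polynomial.X) ^ (K + 1) * (φ Polynomial.X) ^ (K + 1) = 0 := by
        rw [← pow_add]
        exact h0' _ (by omega)
      push_cast
      linear_combination (k : Polynomial ℤ ⧸ I) * h3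
  have h3 : ∀ r : ℕ → ℕ, φ (∏ l ∈ range (K + 1 + t), (1 - Polynomial.X ^ (l + 1)) ^ r l) =
      φ (∏ l ∈ range K, (1 - Polynomial.X ^ (l + 1)) ^ r l) *
        (1 - r K * (φ Polynomial.X) ^ (K + 1)) := by
    intro r
    rw [Finset.prod_range_add, Finset.prod_range_succ, map_mul, map_mul, map_prod φ _ (range t)]
    have h4 : ∏ x ∈ range t, φ ((1 - Polynomial.X ^ (K + 1 + x + 1)) ^ r (K + 1 + x)) = 1 := by
      apply Finset.prod_eq_one
      intro x _
      rw [map_pow, map_sub, map_one, map_pow, h0' _ (by omega), sub_zero, one_pow]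
    rw [h4, mul_one, map_pow, map_sub, map_one, map_pow, h2]
  have h5 : ∀ r : ℕ → ℕ, φ (∏ l ∈ range (K + 1 + t), (1 - Polynomial.X ^ (l + 2)) ^ r l) =
      φ (∏ l ∈ range K, (1 - Polynomial.X ^ (l + 2)) ^ r l) := by
    intro r
    rw [Finset.prod_range_add, Finset.prod_range_succ, map_mul, map_mul, map_prod φ _ (range t)]
    have h4 : ∏ x ∈ range t, φ ((1 - Polynomial.X ^ (K + 1 + x + 2)) ^ r (K + 1 + x)) = 1 := by
      apply Finset.prod_eq_one
      intro x _
      rw [map_pow, map_sub, map_one, map_pow, h0' _ (by omega), sub_zero, one_pow]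
    rw [h4, mul_one, map_pow, map_sub, map_one, map_pow, h0' (K + 2) le_rfl, sub_zero, one_pow,
      mul_one]
  have h6 := congrArg φ hU1
  have h7 := congrArg φ hG1
  rw [map_mul, h3, h5] at h6 h7
  have e1 : ∏ l ∈ range K, (1 - (Polynomial.X : Polynomial ℤ) ^ (l + 1)) ^ s l =
      ∏ l ∈ range K, (1 - (Polynomial.X : Polynomial ℤ) ^ (l + 1)) ^ n l := by
    apply Finset.prod_congr rfl
    intro l hl
    rw [mem_range] at hl
    rw [hlt l hl]
  have e2 : ∏ l ∈ range K, (1 - (Polynomial.X : Polynomial ℤ) ^ (l + 2)) ^ s l =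
      ∏ l ∈ range K, (1 - (Polynomial.X : Polynomial ℤ) ^ (l + 2)) ^ n l := by
    apply Finset.prod_congr rfl
    intro l hl
    rw [mem_range] at hl
    rw [hlt l hl]
  rw [e1, e2, ← h6, h1] at h7
  set A : Polynomial ℤ := ∏ l ∈ range K, (1 - (Polynomial.X : Polynomial ℤ) ^ (l + 1)) ^ n l with hA
  have h8 : φ ((A * (Polynomial.C d - Polynomial.C (n K : ℤ) * G
      + Polynomial.C (s K : ℤ) * G)) * Polynomial.X ^ (K + 1)) = 0 := by
    have h9 : φ (Polynomial.C (n K : ℤ)) = (n K : Polynomial ℤ ⧸ I) := by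
      simp
    have h9' : φ (Polynomial.C (s K : ℤ)) = (s K : Polynomial ℤ ⧸ I) := by
      simp
    have h10 : (φ Polynomial.X) ^ (K + 1) * (φ Polynomial.X) ^ (K + 1) = 0 := by
      rw [← pow_add]
      exact h0' _ (by omega)
    simp only [map_mul, map_add, map_sub, map_pow, h9, h9'] at h7 ⊢
    linear_combination (-1 : Polynomial ℤ ⧸ I) * h7 +
      (φ (Polynomial.C d) * φ A * (n K : Polynomial ℤ ⧸ I)) * h10
  rw [hφ, Ideal.Quotient.eq_zero_iff_mem, hI, Ideal.mem_span_singleton,
    Polynomial.X_pow_dvd_iff] at h8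
  have h10 := h8 (K + 1) (by omega)
  rw [Polynomial.coeff_mul_X_pow', if_pos le_rfl, Nat.sub_self, Polynomial.mul_coeff_zero,
    Polynomial.coeff_add, Polynomial.coeff_sub, Polynomial.coeff_C_mul, Polynomial.coeff_C_mul,
    Polynomial.coeff_C_zero] at h10
  have h11 : A.coeff 0 = 1 := by
    rw [hA, Polynomial.coeff_zero_prod]
    apply Finset.prod_eq_one
    intro l _
    rw [Polynomial.coeff_zero_eq_eval_zero]
    simp
  rw [h11, hG.coeff_zero, one_mul, mul_one, mul_one] at h10
  omega

/-! ### up-sets of a disjoint union -/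

/-- the up-sets of a sum of posets -/
theorem UP_sum {β γ : Type} [Fintype β] [PartialOrder β] [Fintype γ] [PartialOrder γ] :
    UP (β ⊕ γ) = UP β * UP γ := by
  unfold UP
  rw [Finset.sum_mul_sum, ← Finset.sum_product']
  symm
  refine Finset.sum_bij' (fun p _ => p.1.disjSum p.2) (fun F _ => (F.toLeft, F.toRight))
    ?_ ?_ ?_ ?_ ?_
  · rintro ⟨F, G⟩ h
    rw [mem_product, mem_upSets, mem_upSets] at h
    rw [mem_upSets]
    rintro (x | x) hx (y | y) hxy
    · rw [Finset.inl_mem_disjSum] at hx ⊢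
      exact h.1 x hx y (Sum.inl_le_inl_iff.1 hxy)
    · exact absurd hxy Sum.not_inl_le_inr
    · exact absurd hxy Sum.not_inr_le_inl
    · rw [Finset.inr_mem_disjSum] at hx ⊢
      exact h.2 x hx y (Sum.inr_le_inr_iff.1 hxy)
  · intro F hF
    rw [mem_upSets] at hF
    rw [mem_product, mem_upSets, mem_upSets]
    constructor
    · intro x hx y hxy
      rw [Finset.mem_toLeft] at hx ⊢
      exact hF _ hx _ (Sum.inl_le_inl_iff.2 hxy)
    · intro x hx y hxy
      rw [Finset.mem_toRight] at hx ⊢
      exact hF _ hx _ (Sum.inr_le_inr_iff.2 hxy)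
  · rintro ⟨F, G⟩ _
    simp
  · intro F _
    exact Finset.toLeft_disjSum_toRight
  · rintro ⟨F, G⟩ _
    rw [Finset.card_disjSum, pow_add]

/-- the up-sets of a disjoint union of a family of posets -/
theorem UP_sigma {ι : Type} [Fintype ι] {V : ι → Type} [∀ a, Fintype (V a)]
    [∀ a, PartialOrder (V a)] : UP (Σ a, V a) = ∏ a, UP (V a) := by
  unfold UP
  rw [Finset.prod_univ_sum]
  symm
  refine Finset.sum_bij' (fun p _ => univ.sigma p)
    (fun F _ => fun a => univ.filter fun x => (⟨a, x⟩ : Σ a, V a) ∈ F) ?_ ?_ ?_ ?_ ?_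
  · intro p hp
    rw [Fintype.mem_piFinset] at hp
    rw [mem_upSets]
    rintro ⟨a, x⟩ hx ⟨b, y⟩ hxy
    rw [mem_sigma] at hx ⊢
    refine ⟨mem_univ _, ?_⟩
    rw [Sigma.le_def] at hxy
    obtain ⟨h1, h2⟩ := hxy
    simp only at h1
    subst h1
    exact (mem_upSets.1 (hp a)) x hx.2 y h2
  · intro F hF
    rw [mem_upSets] at hF
    rw [Fintype.mem_piFinset]
    intro a
    rw [mem_upSets]
    intro x hx y hxy
    rw [mem_filter] at hx ⊢
    exact ⟨mem_univ _, hF _ hx.2 _ (Sigma.mk_le_mk_iff.2 hxy)⟩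
  · intro p _
    funext a
    ext x
    simp
  · intro F _
    ext ⟨a, x⟩
    simp
  · intro p _
    rw [Finset.card_sigma, Finset.prod_pow_eq_pow_sum]

/-! ### comparison of two posets with the same small elements -/

/-- `f` identifies the elements of `β` with at most `K` elements above them with those of `α` -/
structure Small {β : Type} [Fintype β] [PartialOrder β] (K : ℕ) (f : β → α) : Prop where
  le : ∀ v, us v ≤ K → ∀ y, f v ≤ y → ∃ w, v ≤ w ∧ f w = y
  mono : ∀ v w, us v ≤ K → v ≤ w → f v ≤ f w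
  inj : ∀ v w, us v ≤ K → us w ≤ K → f v = f w → v = w
  sur : ∀ x : α, us x ≤ K → ∃ v, us v ≤ K ∧ f v = x

lemma us_small {β : Type} [Fintype β] [PartialOrder β] {K : ℕ} {f : β → α} (hf : Small K f)
    {v : β} (hv : us v ≤ K) : us (f v) = us v := by
  unfold us
  symm
  refine Finset.card_bij (fun w _ => f w) ?_ ?_ ?_
  · intro w hw
    rw [mem_filter] at hw ⊢
    exact ⟨mem_univ _, hf.mono v w hv hw.2⟩
  · intro w hw w' hw' h
    rw [mem_filter] at hw hw'
    exact hf.inj w w' ((us_anti hw.2).trans hv) ((us_anti hw'.2).trans hv) h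
  · intro y hy
    rw [mem_filter] at hy
    obtain ⟨w, hw, hwy⟩ := hf.le v hv y hy.2
    exact ⟨w, by rw [mem_filter]; exact ⟨mem_univ _, hw⟩, hwy⟩

/-- up-sets consisting of small elements only -/
noncomputable def nSm (α : Type) [Fintype α] [PartialOrder α] (K j : ℕ) : ℕ :=
  ((upSets α).filter fun F => (∀ x ∈ F, us x ≤ K) ∧ F.card = j).card

lemma nSm_eq {β : Type} [Fintype β] [PartialOrder β] {K : ℕ} {f : β → α} (hf : Small K f)
    (j : ℕ) : nSm α K j = nSm β K j := by
  unfold nSm
  symm
  refine Finset.card_bij (fun F _ => F.image f) ?_ ?_ ?_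
  · intro F hF
    rw [mem_filter, mem_upSets] at hF
    obtain ⟨h1, h2, h3⟩ := hF
    rw [mem_filter, mem_upSets]
    refine ⟨?_, ?_, ?_⟩
    · intro x hx y hxy
      rw [mem_image] at hx ⊢
      obtain ⟨v, hv, rfl⟩ := hx
      obtain ⟨w, hw, hwy⟩ := hf.le v (h2 v hv) y hxy
      exact ⟨w, h1 v hv w hw, hwy⟩
    · intro x hx
      rw [mem_image] at hx
      obtain ⟨v, hv, rfl⟩ := hx
      rw [us_small hf (h2 v hv)]
      exact h2 v hv
    · rw [card_image_of_injOn, h3]
      intro v hv w hw h
      exact hf.inj v w (h2 v hv) (h2 w hw) h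
  · intro F hF F' hF' h
    rw [mem_filter] at hF hF'
    have key : ∀ F F' : Finset β, (∀ x ∈ F, us x ≤ K) → (∀ x ∈ F', us x ≤ K) →
        F.image f = F'.image f → F ⊆ F' := by
      intro F F' h1 h2 h3 v hv
      have h4 : f v ∈ F'.image f := by
        rw [← h3]
        exact mem_image_of_mem f hv
      obtain ⟨w, hw, h5⟩ := mem_image.1 h4
      rw [← hf.inj w v (h2 w hw) (h1 v hv) h5]
      exact hw
    exact Finset.Subset.antisymm (key F F' hF.2.1 hF'.2.1 h) (key F' F hF'.2.1 hF.2.1 h.symm)
  · intro F hF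
    rw [mem_filter, mem_upSets] at hF
    obtain ⟨h1, h2, h3⟩ := hF
    set G : Finset β := univ.filter fun v => us v ≤ K ∧ f v ∈ F with hGd
    have hG : ∀ v, v ∈ G ↔ us v ≤ K ∧ f v ∈ F := by
      intro v
      rw [hGd, mem_filter]
      exact ⟨fun h => h.2, fun h => ⟨mem_univ _, h⟩⟩
    have h4 : G.image f = F := by
      ext x
      rw [mem_image]
      constructor
      · rintro ⟨v, hv, rfl⟩
        exact ((hG v).1 hv).2
      · intro hx
        obtain ⟨v, hv, rfl⟩ := hf.sur x (h2 x hx)
        exact ⟨v, (hG v).2 ⟨hv, hx⟩, rfl⟩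
    refine ⟨G, ?_, h4⟩
    rw [mem_filter, mem_upSets]
    refine ⟨?_, ?_, ?_⟩
    · intro v hv w hvw
      rw [hG] at hv ⊢
      exact ⟨(us_anti hvw).trans hv.1, h1 _ hv.2 _ (hf.mono v w hv.1 hvw)⟩
    · intro v hv
      exact ((hG v).1 hv).1
    · rw [← h3, ← h4, card_image_of_injOn]
      intro v hv w hw h
      exact hf.inj v w ((hG v).1 hv).1 ((hG w).1 hw).1 h

lemma nUp_eq_nSm {K j : ℕ} (hj : j ≤ K) : nUp α j = nSm α K j := by
  unfold nUp nSm
  congr 1
  apply filter_congr
  intro F hF
  constructor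
  · intro h
    refine ⟨fun x hx => ?_, h⟩
    have := us_le_card hF hx
    omega
  · intro h
    exact h.2

lemma nUp_succ (α : Type) [Fintype α] [PartialOrder α] (K : ℕ) :
    nUp α (K + 1) = nSm α K (K + 1) + nUs α (K + 1) := by
  unfold nUp nSm nUs
  rw [← Finset.card_filter_add_card_filter_not (s := (upSets α).filter fun F => F.card = K + 1)
    (fun F => ∀ x ∈ F, us x ≤ K)]
  congr 1
  · congr 1
    ext F
    rw [mem_filter, mem_filter, mem_filter]
    tauto
  · symm
    refine Finset.card_bij (fun x _ => univ.filter fun y => x ≤ y) ?_ ?_ ?_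
    · intro x hx
      rw [mem_filter] at hx
      rw [mem_filter, mem_filter, mem_upSets]
      refine ⟨⟨?_, hx.2⟩, ?_⟩
      · intro y hy z hyz
        rw [mem_filter] at hy ⊢
        exact ⟨mem_univ _, hy.2.trans hyz⟩
      · intro h
        have h1 := h x (by rw [mem_filter]; exact ⟨mem_univ _, le_rfl⟩)
        omega
    · intro x _ y _ h
      have h1 : x ∈ univ.filter fun z => y ≤ z := by
        rw [← h, mem_filter]
        exact ⟨mem_univ _, le_rfl⟩
      have h2 : y ∈ univ.filter fun z => x ≤ z := by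
        rw [h, mem_filter]
        exact ⟨mem_univ _, le_rfl⟩
      rw [mem_filter] at h1 h2
      exact le_antisymm h2.2 h1.2
    · intro F hF
      rw [mem_filter, mem_filter] at hF
      obtain ⟨⟨h1, h2⟩, h3⟩ := hF
      push Not at h3
      obtain ⟨x, hx, h4⟩ := h3
      have h5 := us_le_card h1 hx
      have h6 : (univ.filter fun y => x ≤ y) = F := by
        apply Finset.eq_of_subset_of_card_le
        · intro y hy
          rw [mem_filter] at hy
          exact mem_upSets.1 h1 x hx y hy.2
        · unfold us at h4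
          omega
      refine ⟨x, ?_, h6⟩
      rw [mem_filter]
      exact ⟨mem_univ _, by omega⟩

/-- equality of the numbers of small up-sets -/
theorem nUp_eq {β : Type} [Fintype β] [PartialOrder β] {K : ℕ} {f : β → α} (hf : Small K f)
    {j : ℕ} (hj : j ≤ K) : nUp α j = nUp β j := by
  rw [nUp_eq_nSm hj, nUp_eq_nSm hj, nSm_eq hf]

/-- the numbers of up-sets with one more element -/
theorem nUp_next {β : Type} [Fintype β] [PartialOrder β] {K : ℕ} {f : β → α} (hf : Small K f) :
    nUp α (K + 1) + nUs β (K + 1) = nUp β (K + 1) + nUs α (K + 1) := by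
  rw [nUp_succ, nUp_succ, nSm_eq hf]
  ring

/-- **the level sizes of a Gaussian poset with the same small elements as a model** -/
theorem sizes_of_small {h : Fin (Fintype.card α) → ℕ} (hG : IsGaussianWith α h)
    {β : Type} [Fintype β] [PartialOrder β] {s : ℕ → ℕ} (hβ : HasU1 (UP β) s)
    {K : ℕ} {f : β → α} (hf : Small K f) :
    (∀ l < K, sz α l = s l) ∧ sz α K + nUs β (K + 1) = s K + nUs α (K + 1) := by
  have h1 := compare_next (hasU1_of_gauss hG) hβ (K := K) (fun j hj => by
    rw [UP_coeff, UP_coeff, nUp_eq hf hj])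
  refine ⟨h1.1, ?_⟩
  have h2 := h1.2
  rw [UP_coeff, UP_coeff] at h2
  have h3 := nUp_next hf
  omega

end Pool.Gauss
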