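import Pool.Agent.Work.MP_065141_co.U1Cells
import Pool.Agent.Work.MP_065141_co.UK

/-!
# The generating function of the filters of a rectangle, by levels
-/

set_option autoImplicit false
set_option linter.unusedSectionVars false
open scoped Classical
open Finset

namespace Pool.Gauss

/-- cells of the rectangle with `p` rows and `q` columns -/
def rcCells (p q : ℕ) : Finset (ℕ × ℕ) := (range p) ×ˢ (range q)

lemma mem_rcCells {p q c d : ℕ} : (c, d) ∈ rcCells p q ↔ c < p ∧ d < q := by
  rw [rcCells, mem_product, mem_range, mem_range]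

/-- sizes of the levels of the rectangle -/
def rc (p q l : ℕ) : ℕ := ((range (l + 1)).filter fun c => c < p ∧ l - c < q).card

lemma gfS_rc_rec (p q : ℕ) : gfS (rcCells (p + 1) (q + 1)) =
    gfS (rcCells (p + 1) q) + (Polynomial.X : Polynomial ℤ) ^ (q + 1) *
      gfS (rcCells p (q + 1)) := by
  have hx : ((0, q) : ℕ × ℕ) ∈ rcCells (p + 1) (q + 1) := mem_rcCells.2 ⟨by omega, by omega⟩
  rw [gfS_split' (A := rcCells (p + 1) q) (B := (range (q + 1)).image fun d => ((0, d) : ℕ × ℕ))
    (D := (rcCells p (q + 1)).image fun y => (y.1 + 1, y.2)) hx]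
  · rw [gfS_image' (S := rcCells p (q + 1))
      (T := (rcCells p (q + 1)).image fun y => (y.1 + 1, y.2))
      (fun y : ℕ × ℕ => (y.1 + 1, y.2)), card_image_of_injective, card_range]
    · intro a b h
      rw [Prod.mk.injEq] at h
      exact h.2
    · rintro ⟨a, b⟩ _ ⟨c, d⟩ _
      rw [Prod.mk_le_mk, Prod.mk_le_mk]
      omega
    · intro y
      rw [mem_image]
  · rintro ⟨c, d⟩
    rw [mem_rcCells, mem_rcCells, Prod.mk_le_mk]
    omega
  · rintro ⟨c, d⟩
    rw [mem_rcCells, Prod.mk_le_mk, mem_image]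
    constructor
    · rintro ⟨e, h3, h4⟩
      rw [mem_range] at h3
      rw [Prod.mk.injEq] at h4
      omega
    · rintro ⟨⟨h3, h4⟩, h5, h6⟩
      exact ⟨d, mem_range.2 (by omega), by rw [Prod.mk.injEq]; omega⟩
  · rintro ⟨c, d⟩
    rw [mem_rcCells, Prod.mk_le_mk, mem_image]
    constructor
    · rintro ⟨⟨c', d'⟩, h4, h5⟩
      rw [mem_rcCells] at h4
      rw [Prod.mk.injEq] at h5
      simp only at h5
      omega
    · rintro ⟨⟨h3, h4⟩, h5⟩
      have h6 : c ≠ 0 := by
        intro h6
        apply h5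
        omega
      refine ⟨(c - 1, d), mem_rcCells.2 ⟨by omega, by omega⟩, ?_⟩
      rw [Prod.mk.injEq]
      exact ⟨by simp only; omega, rfl⟩

/-- the `q`-binomial coefficient -/
theorem gfS_rc (p q : ℕ) : gfS (rcCells p q) *
    ∏ c ∈ range p, (1 - (Polynomial.X : Polynomial ℤ) ^ (c + 1)) =
      ∏ c ∈ range p, (1 - (Polynomial.X : Polynomial ℤ) ^ (c + q + 1)) := by
  induction p generalizing q with
  | zero =>
    have : rcCells 0 q = ∅ := by
      ext ⟨c, d⟩
      rw [mem_rcCells]
      simp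
    rw [this, gfS_empty]
    simp
  | succ p ihp =>
    induction q with
    | zero =>
      have : rcCells (p + 1) 0 = ∅ := by
        ext ⟨c, d⟩
        rw [mem_rcCells]
        simp
      rw [this, gfS_empty, one_mul]
    | succ q ihq =>
      have h1 := ihp (q + 1)
      rw [gfS_rc_rec, add_mul, ihq]
      have h3 : (Polynomial.X : Polynomial ℤ) ^ (q + 1) * gfS (rcCells p (q + 1)) *
          ((∏ c ∈ range p, (1 - (Polynomial.X : Polynomial ℤ) ^ (c + 1))) *
            (1 - Polynomial.X ^ (p + 1))) =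
          (Polynomial.X : Polynomial ℤ) ^ (q + 1) * (1 - Polynomial.X ^ (p + 1)) *
            ∏ c ∈ range p, (1 - (Polynomial.X : Polynomial ℤ) ^ (c + (q + 1) + 1)) := by
        rw [← h1]
        ring
      have h4 : ∏ c ∈ range (p + 1), (1 - (Polynomial.X : Polynomial ℤ) ^ (c + q + 1)) =
          (1 - Polynomial.X ^ (q + 1)) *
            ∏ c ∈ range p, (1 - (Polynomial.X : Polynomial ℤ) ^ (c + (q + 1) + 1)) := by
        rw [Finset.prod_range_succ', mul_comm]
        congr 1
        · rw [zero_add]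
        · apply Finset.prod_congr rfl
          intro c _
          congr 2
          omega
      rw [h4, Finset.prod_range_succ, h3, Finset.prod_range_succ]
      have h5 : (Polynomial.X : Polynomial ℤ) ^ (p + (q + 1) + 1) =
        Polynomial.X ^ (q + 1) * Polynomial.X ^ (p + 1) := by
        rw [← pow_add]
        congr 1
        omega
      rw [h5]
      ring

lemma one_sub_X_pow_ne_zero (k : ℕ) : (1 : Polynomial ℤ) - Polynomial.X ^ (k + 1) ≠ 0 := by
  intro h0
  have := congrArg (Polynomial.eval 0) h0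
  simp at this

/-- telescoping of one row -/
lemma rcRow (c q : ℕ) : (∏ d ∈ range q, (1 - (Polynomial.X : Polynomial ℤ) ^ (c + d + 2))) *
    (1 - Polynomial.X ^ (c + 1)) =
      (∏ d ∈ range q, (1 - (Polynomial.X : Polynomial ℤ) ^ (c + d + 1))) *
        (1 - Polynomial.X ^ (c + q + 1)) := by
  induction q with
  | zero => simp
  | succ q ih =>
    rw [Finset.prod_range_succ, Finset.prod_range_succ, mul_right_comm, ih]
    have h1 : c + (q + 1) + 1 = c + q + 2 := by omega
    rw [h1]

/-- product formula for the rectangle -/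
lemma rcProd (p q : ℕ) : gfS (rcCells p q) *
    ∏ y ∈ rcCells p q, (1 - (Polynomial.X : Polynomial ℤ) ^ (y.1 + y.2 + 1)) =
      ∏ y ∈ rcCells p q, (1 - (Polynomial.X : Polynomial ℤ) ^ (y.1 + y.2 + 2)) := by
  have h0 : (∏ c ∈ range p, (1 - (Polynomial.X : Polynomial ℤ) ^ (c + 1))) ≠ 0 := by
    rw [Finset.prod_ne_zero_iff]
    intro c _
    exact one_sub_X_pow_ne_zero c
  apply mul_right_cancel₀ h0
  have h1 : ∀ g : ℕ × ℕ → Polynomial ℤ, ∏ y ∈ rcCells p q, g y =
      ∏ c ∈ range p, ∏ d ∈ range q, g (c, d) := by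
    intro g
    rw [rcCells, Finset.prod_product]
  have h2 : (∏ c ∈ range p, ∏ d ∈ range q, (1 - (Polynomial.X : Polynomial ℤ) ^ (c + d + 2))) *
      ∏ c ∈ range p, (1 - (Polynomial.X : Polynomial ℤ) ^ (c + 1)) =
      (∏ c ∈ range p, ∏ d ∈ range q, (1 - (Polynomial.X : Polynomial ℤ) ^ (c + d + 1))) *
        ∏ c ∈ range p, (1 - (Polynomial.X : Polynomial ℤ) ^ (c + q + 1)) := by
    rw [← Finset.prod_mul_distrib, ← Finset.prod_mul_distrib]
    apply Finset.prod_congr rfl
    intro c _
    exact rcRow c q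
  rw [h1, h1]
  simp only
  rw [h2, ← gfS_rc]
  ring

lemma rc_eq (p q l : ℕ) : ((rcCells p q).filter fun y => y.1 + y.2 = l).card = rc p q l := by
  unfold rc
  symm
  refine Finset.card_bij (fun c _ => (c, l - c)) ?_ ?_ ?_
  · intro c hc
    rw [mem_filter, mem_range] at hc
    rw [mem_filter, mem_rcCells]
    refine ⟨hc.2, ?_⟩
    simp only
    omega
  · intro a _ b _ h
    rw [Prod.mk.injEq] at h
    exact h.1
  · rintro ⟨c, d⟩ h
    rw [mem_filter, mem_rcCells] at h
    simp only at h
    refine ⟨c, ?_, ?_⟩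
    · rw [mem_filter, mem_range]
      have : l - c = d := by omega
      rw [this]
      omega
    · rw [Prod.mk.injEq]
      omega

/-- **the rectangle with `p` rows and `q` columns** -/
theorem hasU1_rc (p q : ℕ) : HasU1 (gfS (rcCells p q)) (rc p q) := by
  refine ⟨p + q, fun M hM => ?_⟩
  have h1 := prod_by_level (rcCells p q) (fun p => p.1 + p.2) M (by
    rintro ⟨c, d⟩ h
    rw [mem_rcCells] at h
    simp only
    omega) (fun l => 1 - Polynomial.X ^ (l + 1))
  have h2 := prod_by_level (rcCells p q) (fun p => p.1 + p.2) M (by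
    rintro ⟨c, d⟩ h
    rw [mem_rcCells] at h
    simp only
    omega) (fun l => 1 - Polynomial.X ^ (l + 2))
  simp only [rc_eq] at h1 h2
  rw [← h1, ← h2, rcProd]

/-- the up-sets of the poset of the cells of `S` (upside down) -/
lemma UP_cells {γ : Type} [PartialOrder γ] (S : Finset γ) : UP ({p : γ // p ∈ S}ᵒᵈ) = gfS S :=
  upSets_subtype S

/-- the lower sets of the staircase of cells -/
lemma gfS_st (N : ℕ) : gfS (stCells N) = ∑ I ∈ stId N, (Polynomial.X : Polynomial ℤ) ^ I.card := by
  rw [gfS]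
  apply Finset.sum_congr _ (fun _ _ => rfl)
  ext I
  rw [mem_lowS, mem_stId]
  constructor
  · rintro ⟨h1, h2⟩
    refine ⟨h1, ?_, ?_⟩
    · intro c d hcd
      have h3 := mem_stCells.1 (h1 hcd)
      exact h2 _ hcd (c, d) (mem_stCells.2 ⟨by omega, h3.2⟩) (Prod.mk_le_mk.2 ⟨by omega, le_rfl⟩)
    · intro c d hcd h4
      have h3 := mem_stCells.1 (h1 h4)
      exact h2 _ h4 (c, d) (mem_stCells.2 ⟨hcd, by omega⟩) (Prod.mk_le_mk.2 ⟨le_rfl, by omega⟩)
  · rintro ⟨h1, h2⟩
    refine ⟨h1, ?_⟩
    rintro ⟨c, d⟩ hp ⟨c', d'⟩ hq hqp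
    rw [Prod.mk_le_mk] at hqp
    exact h2.le hp hqp.1 hqp.2 (mem_stCells.1 hq).1

/-- **the staircase with `N` columns** -/
theorem hasU1_stCells (N : ℕ) : HasU1 (gfS (stCells N)) (st N) := by
  rw [gfS_st]
  exact hasU1_st N

/-- a chain on top -/
theorem gfS_chain {γ : Type} [PartialOrder γ] (r : ℕ) : ∀ (c : ℕ → γ) (S T : Finset γ),
    (∀ y, y ∈ S ↔ (∃ j < r, c j = y) ∨ y ∈ T) → (∀ j < r, ∀ k < r, c j ≤ c k ↔ j ≤ k) →
    (∀ j < r, ∀ y ∈ T, c j ≤ y ∧ ¬ y ≤ c j) →
    gfS S = ∑ j ∈ range r, (Polynomial.X : Polynomial ℤ) ^ j + Polynomial.X ^ r * gfS T := by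
  induction r with
  | zero =>
    intro c S T hS _ _
    have : S = T := by
      ext y
      rw [hS]
      constructor
      · rintro (⟨j, hj, _⟩ | h)
        · omega
        · exact h
      · exact Or.inr
    rw [this]
    simp
  | succ r ih =>
    intro c S T hS hc hT
    have h1 := ih (fun j => c (j + 1)) (S.erase (c 0)) T ?_ ?_ ?_
    · rw [gfS_bot S (x := c 0), h1, Finset.sum_range_succ']
      · rw [pow_zero, mul_add, Finset.mul_sum, pow_succ]
        have h2 : ∀ j, (Polynomial.X : Polynomial ℤ) * Polynomial.X ^ j = Polynomial.X ^ (j + 1) := by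
          intro j
          rw [pow_succ, mul_comm]
        simp only [h2]
        ring
      · rw [hS]
        exact Or.inl ⟨0, by omega, rfl⟩
      · intro y hy
        rw [hS] at hy
        rcases hy with ⟨j, hj, rfl⟩ | hy
        · exact (hc 0 (by omega) j hj).2 (by omega)
        · exact (hT 0 (by omega) y hy).1
    · intro y
      rw [mem_erase, hS]
      constructor
      · rintro ⟨h2, ⟨j, hj, rfl⟩ | h3⟩
        · left
          rcases j with _ | j
          · exact absurd rfl h2
          · exact ⟨j, by omega, rfl⟩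
        · exact Or.inr h3
      · rintro (⟨j, hj, rfl⟩ | h3)
        · refine ⟨?_, Or.inl ⟨j + 1, by omega, rfl⟩⟩
          intro h4
          have := (hc (j + 1) (by omega) 0 (by omega)).1 h4.le
          omega
        · refine ⟨?_, Or.inr h3⟩
          rintro rfl
          exact (hT 0 (by omega) _ h3).2 le_rfl
    · intro j hj k hk
      rw [hc (j + 1) (by omega) (k + 1) (by omega)]
      omega
    · intro j hj y hy
      exact hT (j + 1) (by omega) y hy

end Pool.Gauss
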